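import Pool.Agent.Lib.MP_61e577_lc.Ar.Itp

/-! The provability predicates: correctness and the derivability conditions. -/

namespace HAr

open Fn Fm

/-- The box at a numeral is provable exactly for provable instances. -/
theorem box_num (P : Fm Empty) (x : ℕ) :
    Prv (sub (bxT (cst (encM P))) (cst x) : Fm Empty) ↔ Prv (sub P (cst x)) := by
  have key : ∀ {N : Kr Empty} {w : N.W} (d : N.D w),
      N.F (sub (bxT (cst (encM P))) (cst x)) d ↔
        N.Pv (N.nm (w := w) (encM (sub P (cst x)))) := by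
    intro N w d
    show N.F (bxT (cst (encM P))) (N.fn (cst x) d) ↔ _
    rw [Kr.F_bxT, Kr.fn_cst, Kr.fn_cst, Kr.Bx, Kr.num_nm (eD N w) x, ← Kr.nm_encF, encM,
      Kr.nm_ndN]
  constructor
  · intro h
    have h1 := std.sound h (w := stw) (stN 0)
    rw [key, std_nm] at h1
    exact (Prv_iff _).2 h1
  · intro h
    exact complete fun N w d => (key d).2 (Kr.Pv_enc h)

/-- The second derivability condition. -/
theorem box_dK (P Q : Fm Empty) : Prv (imp (bxT (cst (encM (imp P Q))))
    (imp (bxT (cst (encM P))) (bxT (cst (encM Q)))) : Fm Empty) := by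
  refine complete fun N w d v k h1 u l h2 => ?_
  have h3 := N.mono _ l _ h1
  rw [Kr.F_bxT, Kr.fn_cst] at h2 h3 ⊢
  rw [encM, Kr.nm_ndN] at h3
  exact Kr.Bx_K (Kr.gm_encM P) (Kr.gm_encM Q) h3 h2

/-- The third derivability condition. -/
theorem box_d4 (P : Fm Empty) : Prv (imp (bxT (cst (encM P)))
    (bxT (cst (encM (bxT (cst (encM P)) : Fm Empty)))) : Fm Empty) := by
  refine complete fun N w d v k h1 => ?_
  rw [Kr.F_bxT, Kr.fn_cst] at h1 ⊢
  rw [← Kr.bxC_enc]
  exact Kr.Bx_4 (Kr.gm_encM P) h1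

/-- The provability predicate of HA* is provable exactly at the codes of theorems. -/
theorem prS_iff (P : Fm Empty) : Prv (sub prS (cst (encM P))) ↔ HAst P := by
  have key : ∀ {N : Kr Empty} {w : N.W} (d : N.D w),
      N.F (sub prS (cst (encM P))) d ↔ N.Pv (N.nm (w := w) (encM (bx P))) := by
    intro N w d
    show N.F prS (N.fn (cst (encM P)) d) ↔ _
    rw [Kr.fn_cst, prS, Kr.F_prT, Kr.fn_btF, Kr.bt_enc]
  constructor
  · intro h
    have h1 := std.sound h (w := stw) (stN 0)
    rw [key, std_nm] at h1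
    exact (Prv_iff _).2 h1
  · intro h
    exact complete fun N w d => (key d).2 (Kr.Pv_enc h)

end HAr
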