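import Pool.Agent.Lib.MP_61e577_lc.Ar.Kripke

/-! Elementary arithmetic inside Kripke models: predecessor, addition, order, equality test,
the pairing order, tree induction. -/

namespace HAr

open Fn Fm

variable {V : Type} {M : Kr V} {w : M.W}

attribute [simp] Kr.fn_idn Kr.fn_zero Kr.fn_comp Kr.fn_pair Kr.left_pr Kr.right_pr Kr.pr_eta
  Kr.prec_zr Kr.prec_succ Kr.trec_zr Kr.trec_succ Kr.tr_zr
  Kr.tr_fn Kr.tr_pr Kr.tr_refl Kr.tr_tr

@[simp] theorem Kr.left_zr : M.fn left (M.zr (w := w)) = M.zr := by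
  conv_lhs => rw [← M.pr_zr]
  exact M.left_pr _ _

@[simp] theorem Kr.right_zr : M.fn right (M.zr (w := w)) = M.zr := by
  conv_lhs => rw [← M.pr_zr]
  exact M.right_pr _ _

/-- Successor. -/
abbrev Kr.S (M : Kr V) {w : M.W} (a : M.D w) : M.D w := M.fn succ a

theorem Kr.S_inj {a b : M.D w} : M.S a = M.S b ↔ a = b := ⟨M.succ_inj a b, fun h => by rw [h]⟩

/-- Numerals. -/
def Kr.nm (M : Kr V) {w : M.W} : ℕ → M.D w
  | 0 => M.zr
  | n + 1 => M.S (Kr.nm M n)

@[simp] theorem Kr.nm_zero : M.nm (w := w) 0 = M.zr := rfl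

@[simp] theorem Kr.fn_cst (n : ℕ) (d : M.D w) : M.fn (cst n) d = M.nm n := by
  induction n with
  | zero => simp [cst, Kr.nm]
  | succ n ih => simp [cst, Kr.nm, ih]

@[simp] theorem Kr.tr_nm {v : M.W} (h : w ≤ v) (n : ℕ) : M.tr h (M.nm n) = M.nm n := by
  induction n with
  | zero => simp [Kr.nm]
  | succ n ih => simp [Kr.nm, ih]

theorem Kr.nm_ne {m n : ℕ} (h : m ≠ n) : M.nm (w := w) m ≠ M.nm n := by
  induction m generalizing n with
  | zero =>
    cases n with
    | zero => exact absurd rfl h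
    | succ n => exact fun e => M.succ_ne _ e.symm
  | succ m ih =>
    cases n with
    | zero => exact fun e => M.succ_ne _ e
    | succ n => exact fun e => ih (fun e1 => h (by rw [e1])) (M.succ_inj _ _ e)

/-- Induction for equations. -/
theorem Kr.ind_eq (f g : Fn V) {w : M.W} (a : M.D w) (h0 : M.fn f (M.pr a M.zr) = M.fn g (M.pr a M.zr))
    (hS : ∀ {v : M.W} (h : w ≤ v) (n : M.D v), M.fn f (M.pr (M.tr h a) n) = M.fn g (M.pr (M.tr h a) n) →
      M.fn f (M.pr (M.tr h a) (M.S n)) = M.fn g (M.pr (M.tr h a) (M.S n))) (n : M.D w) :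
    M.fn f (M.pr a n) = M.fn g (M.pr a n) :=
  M.ind (eq f g) a h0 hS n

/-- Every element is zero or a successor. -/
theorem Kr.zr_or_S (n : M.D w) : n = M.zr ∨ ∃ m, n = M.S m := by
  have := M.ind (disj (eq right zero) (ex (eq (comp right left) (comp succ right)))) M.zr
    (Or.inl (by simp [KD.F])) (fun h n _ => Or.inr ⟨n, by simp [KD.F]⟩) n
  simpa [KD.F] using this

@[simp] theorem Kr.pred_zr : M.fn predF (M.zr (w := w)) = M.zr := by simp [predF]

@[simp] theorem Kr.pred_S (n : M.D w) : M.fn predF (M.S n) = n := by simp [predF]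

@[simp] theorem Kr.ifz_zr (f g : Fn V) (a : M.D w) : M.fn (ifz f g) (M.pr a M.zr) = M.fn f a := by
  simp [ifz]

@[simp] theorem Kr.ifz_S (f g : Fn V) (a n : M.D w) :
    M.fn (ifz f g) (M.pr a (M.S n)) = M.fn g (M.pr a n) := by
  simp [ifz]

/-- Addition of elements. -/
def Kr.add (M : Kr V) {w : M.W} (a b : M.D w) : M.D w := M.fn addF (M.pr a b)

@[simp] theorem Kr.add_zr (a : M.D w) : M.add a M.zr = a := by simp [Kr.add, addF]

@[simp] theorem Kr.add_S (a b : M.D w) : M.add a (M.S b) = M.S (M.add a b) := by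
  simp [Kr.add, addF]

@[simp] theorem Kr.tr_add {v : M.W} (h : w ≤ v) (a b : M.D w) :
    M.tr h (M.add a b) = M.add (M.tr h a) (M.tr h b) := by simp [Kr.add]

/-- Truncated subtraction of elements. -/
def Kr.mon (M : Kr V) {w : M.W} (a b : M.D w) : M.D w := M.fn monF (M.pr a b)

@[simp] theorem Kr.mon_zr (a : M.D w) : M.mon a M.zr = a := by simp [Kr.mon, monF]

@[simp] theorem Kr.mon_S (a b : M.D w) : M.mon a (M.S b) = M.fn predF (M.mon a b) := by
  simp [Kr.mon, monF]

@[simp] theorem Kr.tr_mon {v : M.W} (h : w ≤ v) (a b : M.D w) :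
    M.tr h (M.mon a b) = M.mon (M.tr h a) (M.tr h b) := by simp [Kr.mon]

/-- Zero exactly for equal arguments. -/
def Kr.dst (M : Kr V) {w : M.W} (a b : M.D w) : M.D w := M.fn dstF (M.pr a b)

@[simp] theorem Kr.tr_dst {v : M.W} (h : w ≤ v) (a b : M.D w) :
    M.tr h (M.dst a b) = M.dst (M.tr h a) (M.tr h b) := by simp [Kr.dst]

theorem Kr.zr_add (a : M.D w) : M.add M.zr a = a := by
  have := M.ind_eq addF right M.zr (by simp [addF]) (fun h n e => by simpa [addF, Kr.S_inj] using e) a
  simpa [Kr.add] using this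

theorem Kr.S_add (a b : M.D w) : M.add (M.S a) b = M.S (M.add a b) := by
  have := M.ind_eq (comp addF (pair (comp succ left) right)) (comp succ addF) a (by simp [addF])
    (fun h n e => by simpa [addF, Kr.S_inj] using e) b
  simpa [Kr.add] using this

theorem Kr.add_comm (a b : M.D w) : M.add a b = M.add b a := by
  have := M.ind_eq addF (comp addF (pair right left)) a (by simpa [Kr.add, addF] using (M.zr_add a).symm)
    (fun h n e => by
      have e2 := M.S_add n (M.tr h a)
      simp only [Kr.add] at e2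
      simp only [M.fn_comp, M.fn_pair, M.right_pr, M.left_pr] at e ⊢
      rw [e2, ← e]
      simp [addF]) b
  simpa [Kr.add] using this

theorem Kr.add_assoc (a b c : M.D w) : M.add (M.add a b) c = M.add a (M.add b c) := by
  have := M.ind_eq (comp addF (pair (comp addF left) right))
    (comp addF (pair (comp left left) (comp addF (pair (comp right left) right)))) (M.pr a b)
    (by simp [addF]) (fun h n e => by simpa [addF, Kr.S_inj] using e) c
  simpa [Kr.add] using this

theorem Kr.add_right_cancel {a b c : M.D w} (h : M.add a c = M.add b c) : a = b := by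
  have := M.ind (imp (eq (comp addF (pair (comp left left) right))
    (comp addF (pair (comp right left) right))) (eq (comp left left) (comp right left))) (M.pr a b)
    (fun _ h e => by simpa [KD.F, addF] using e)
    (fun h n e _ k e2 => by
      have e3 := e _ k
      simp only [KD.F, M.tr_pr, M.tr_tr, M.fn_comp, M.fn_pair, M.left_pr, M.right_pr] at e2 e3 ⊢
      refine e3 ?_
      simpa [addF, Kr.S_inj] using e2) c _ (le_refl w)
  simp only [KD.F, M.fn_comp, M.fn_pair, M.left_pr, M.right_pr, M.tr_refl] at this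
  exact this h

theorem Kr.add_left_cancel {a b c : M.D w} (h : M.add c a = M.add c b) : a = b := by
  rw [M.add_comm c a, M.add_comm c b] at h
  exact Kr.add_right_cancel h

theorem Kr.add_eq_zr {a b : M.D w} (h : M.add a b = M.zr) : a = M.zr ∧ b = M.zr := by
  rcases M.zr_or_S b with rfl | ⟨m, rfl⟩
  · simpa using h
  · rw [M.add_S] at h
    exact absurd h (M.succ_ne _)

/-- Order. -/
def Kr.le (M : Kr V) {w : M.W} (a b : M.D w) : Prop := ∃ k, M.add a k = b

theorem Kr.le_rfl' (a : M.D w) : M.le a a := ⟨M.zr, by simp⟩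

theorem Kr.zr_le (a : M.D w) : M.le M.zr a := ⟨a, M.zr_add a⟩

theorem Kr.le_trans' {a b c : M.D w} (h : M.le a b) (k : M.le b c) : M.le a c := by
  obtain ⟨x, rfl⟩ := h
  obtain ⟨y, rfl⟩ := k
  exact ⟨M.add x y, (M.add_assoc _ _ _).symm⟩

theorem Kr.le_antisymm' {a b : M.D w} (h : M.le a b) (k : M.le b a) : a = b := by
  obtain ⟨x, rfl⟩ := h
  obtain ⟨y, h⟩ := k
  rw [M.add_assoc] at h
  have : M.add a (M.add x y) = M.add a M.zr := by simpa using h
  have := (M.add_eq_zr (M.add_left_cancel this)).1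
  rw [this, M.add_zr]

theorem Kr.le_mono {v : M.W} (h : w ≤ v) {a b : M.D w} (k : M.le a b) :
    M.le (M.tr h a) (M.tr h b) := by
  obtain ⟨x, rfl⟩ := k
  exact ⟨M.tr h x, by simp⟩

theorem Kr.le_zr {a : M.D w} (h : M.le a M.zr) : a = M.zr := by
  obtain ⟨x, h⟩ := h
  exact (M.add_eq_zr h).1

theorem Kr.le_S {a b : M.D w} (h : M.le a b) : M.le a (M.S b) := by
  obtain ⟨x, rfl⟩ := h
  exact ⟨M.S x, by simp⟩

theorem Kr.le_S_cases {a b : M.D w} (h : M.le a (M.S b)) : M.le a b ∨ a = M.S b := by
  obtain ⟨x, h⟩ := h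
  rcases M.zr_or_S x with rfl | ⟨m, rfl⟩
  · exact Or.inr (by simpa using h)
  · rw [M.add_S] at h
    exact Or.inl ⟨m, M.succ_inj _ _ h⟩

theorem Kr.S_le_S {a b : M.D w} : M.le (M.S a) (M.S b) ↔ M.le a b := by
  constructor
  · rintro ⟨x, h⟩
    rw [M.S_add] at h
    exact ⟨x, M.succ_inj _ _ h⟩
  · rintro ⟨x, rfl⟩
    exact ⟨x, M.S_add _ _⟩

theorem Kr.le_total' (a b : M.D w) : M.le a b ∨ M.le b a := by
  have := M.ind (disj (ex (eq (comp addF (pair (comp left left) right)) (comp right left)))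
    (ex (eq (comp addF (pair (comp right left) right)) (comp left left)))) a
    (Or.inr ⟨a, by simpa [KD.F, Kr.add] using M.zr_add a⟩)
    (fun h n e => by
      have e : M.le (M.tr h a) n ∨ M.le n (M.tr h a) := by simpa [KD.F, Kr.le, Kr.add] using e
      have : M.le (M.tr h a) (M.S n) ∨ M.le (M.S n) (M.tr h a) := by
        rcases e with e | ⟨x, e⟩
        · exact Or.inl (M.le_S e)
        · rcases M.zr_or_S x with rfl | ⟨m, rfl⟩
          · rw [M.add_zr] at e
            subst e
            exact Or.inl (M.le_S (M.le_rfl' _))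
          · exact Or.inr ⟨m, by rw [M.S_add, ← M.add_S, e]⟩
      simpa [KD.F, Kr.le, Kr.add] using this) b
  simpa [KD.F, Kr.le, Kr.add] using this

theorem Kr.S_mon_S (a b : M.D w) : M.mon (M.S a) (M.S b) = M.mon a b := by
  have := M.ind_eq (comp monF (pair (comp succ left) (comp succ right))) monF a (by simp [monF])
    (fun h n e => by
      have e2 := M.mon_S (M.S (M.tr h a)) (M.S n)
      have e3 := M.mon_S (M.tr h a) n
      simp only [Kr.mon] at e2 e3
      simp only [M.fn_comp, M.fn_pair, M.right_pr, M.left_pr] at e ⊢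
      rw [e2, e, e3]) b
  simpa [Kr.mon] using this

theorem Kr.add_mon (b x : M.D w) : M.mon (M.add b x) b = x := by
  have := M.ind_eq (comp monF (pair (comp addF (pair right left)) right)) left x
    (by simpa [Kr.mon, Kr.add] using (M.mon_zr (M.add M.zr x)).trans (M.zr_add x))
    (fun h n e => by
      have e2 := M.S_add n (M.tr h x)
      have e3 := M.S_mon_S (M.add n (M.tr h x)) n
      simp only [Kr.mon, Kr.add] at e2 e3
      simp only [M.fn_comp, M.fn_pair, M.right_pr, M.left_pr] at e ⊢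
      rw [e2, e3, e]) b
  simpa [Kr.mon, Kr.add] using this

theorem Kr.mon_add (a x : M.D w) : M.mon a (M.add a x) = M.zr := by
  have := M.ind_eq (comp monF (pair right (comp addF (pair right left)))) zero x
    (by simp only [M.fn_comp, M.fn_pair, M.right_pr, M.left_pr, M.fn_zero]
        have e := M.zr_add x
        simp only [Kr.add] at e
        rw [e]
        have := M.ind_eq monF zero M.zr (by simp [monF]) (fun h n e => by
          have e2 := M.mon_S M.zr n
          simp only [Kr.mon] at e2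
          simp only [M.tr_zr, M.fn_zero] at e ⊢
          rw [e2, e, M.pred_zr]) x
        simpa using this)
    (fun h n e => by
      have e2 := M.S_add n (M.tr h x)
      have e3 := M.S_mon_S n (M.add n (M.tr h x))
      simp only [Kr.mon, Kr.add] at e2 e3
      simp only [M.fn_comp, M.fn_pair, M.right_pr, M.left_pr, M.fn_zero] at e ⊢
      rw [e2, e3, e]) a
  simpa [Kr.mon, Kr.add] using this

theorem Kr.mon_eq_zr {a b : M.D w} : M.mon a b = M.zr ↔ M.le a b := by
  constructor
  · intro h
    rcases M.le_total' a b with h1 | ⟨x, rfl⟩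
    · exact h1
    · rw [M.add_mon] at h
      rw [h, M.add_zr]
      exact M.le_rfl' _
  · rintro ⟨x, rfl⟩
    exact M.mon_add a x

theorem Kr.dst_eq_zr {a b : M.D w} : M.dst a b = M.zr ↔ a = b := by
  have e : M.dst a b = M.add (M.mon a b) (M.mon b a) := by simp [Kr.dst, dstF, Kr.add, Kr.mon]
  rw [e]
  constructor
  · intro h
    have := M.add_eq_zr h
    exact M.le_antisymm' (Kr.mon_eq_zr.1 this.1) (Kr.mon_eq_zr.1 this.2)
  · rintro rfl
    rw [Kr.mon_eq_zr.2 (M.le_rfl' a), M.add_zr]

/-- Equality is decidable. -/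
theorem Kr.eq_or_ne (a b : M.D w) : a = b ∨ ∃ m, M.dst a b = M.S m := by
  rcases M.zr_or_S (M.dst a b) with h | h
  · exact Or.inl (Kr.dst_eq_zr.1 h)
  · exact Or.inr h

/-- Decidable equality at all later worlds at once. -/
theorem Kr.eq_or_ne' (a b : M.D w) : a = b ∨ ∀ {v : M.W} (h : w ≤ v), M.tr h a ≠ M.tr h b := by
  rcases M.eq_or_ne a b with h | ⟨m, h⟩
  · exact Or.inl h
  · refine Or.inr fun k e => ?_
    have := congrArg (M.tr k) h
    rw [M.tr_dst, Kr.dst_eq_zr.2 e, M.tr_fn] at this
    exact M.succ_ne _ this.symm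

/-- The formula `f <= g`. -/
def leT (f g : Fn V) : Fm V := ex (eq (comp addF (pair (comp f left) right)) (comp g left))

theorem Kr.F_leT {f g : Fn V} {d : M.D w} : M.F (leT f g) d ↔ M.le (M.fn f d) (M.fn g d) := by
  simp [leT, KD.F, Kr.le, Kr.add]

/-- The components of a number are not larger than the number. -/
theorem Kr.left_right_le (n : M.D w) : M.le (M.fn left n) n ∧ M.le (M.fn right n) n := by
  have := M.ind (conj (leT (comp left right) right) (leT (comp right right) right)) M.zr
    (by simp [KD.F, Kr.F_leT, M.le_rfl'])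
    (fun h n e => by
      simp only [KD.F, Kr.F_leT, M.fn_comp, M.right_pr] at e ⊢
      obtain ⟨x, y, rfl⟩ : ∃ x y, n = M.pr x y := ⟨_, _, (M.pr_eta n).symm⟩
      simp only [M.left_pr, M.right_pr] at e
      rcases M.zr_or_S y with rfl | ⟨z, rfl⟩
      · rw [M.succ_pr_zr]
        simp only [M.left_pr, M.right_pr]
        refine ⟨M.zr_le _, ?_⟩
        rw [← M.succ_pr_zr]
        exact Kr.S_le_S.2 e.1
      · rw [M.succ_pr]
        simp only [M.left_pr, M.right_pr]
        rw [← M.succ_pr]
        exact ⟨Kr.S_le_S.2 e.1, M.le_S (M.le_trans' (M.le_S (M.le_rfl' z)) e.2)⟩) n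
  simpa [KD.F, Kr.F_leT] using this

/-- Tree induction. -/
theorem Kr.tind (P : Fm V) {w : M.W} (a : M.D w) (h0 : M.F P (M.pr a M.zr))
    (hS : ∀ {v : M.W} (h : w ≤ v) (x y : M.D v), M.F P (M.pr (M.tr h a) x) →
      M.F P (M.pr (M.tr h a) y) → M.F P (M.pr (M.tr h a) (M.S (M.pr x y)))) (n : M.D w) :
    M.F P (M.pr a n) := by
  have key := M.ind (all (imp (leT right (comp right left)) (sub P (pair (comp left left) right)))) a
    (by
      intro v h z u k hz
      simp only [KD.F, Kr.F_leT, M.fn_comp, M.fn_pair, M.right_pr, M.left_pr, M.tr_pr, M.tr_tr,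
        M.tr_zr] at hz ⊢
      rw [Kr.le_zr hz]
      have := M.mono P (h.trans k) _ h0
      simpa using this)
    (by
      intro v h n ih u k z t l hz
      simp only [KD.F, Kr.F_leT, M.fn_comp, M.fn_pair, M.right_pr, M.left_pr, M.tr_pr, M.tr_tr,
        M.tr_fn] at hz ⊢
      have ih2 : ∀ y : M.D t, M.le y (M.tr (k.trans l) n) →
          M.F P (M.pr (M.tr (h.trans (k.trans l)) a) y) := by
        intro y hy
        have := ih _ (k.trans l) y _ (le_refl t)
        simp only [KD.F, Kr.F_leT, M.fn_comp, M.fn_pair, M.right_pr, M.left_pr, M.tr_pr, M.tr_tr,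
          M.tr_refl] at this
        exact this hy
      rcases Kr.le_S_cases hz with hz | hz
      · exact ih2 _ hz
      · rw [hz]
        have e := M.left_right_le (M.tr (k.trans l) n)
        have a1 := ih2 _ e.1
        have a2 := ih2 _ e.2
        have := hS (h.trans (k.trans l)) _ _ a1 a2
        rwa [M.pr_eta] at this) n
  have := key _ (le_refl w) n _ (le_refl w)
  simp only [KD.F, Kr.F_leT, M.fn_comp, M.fn_pair, M.right_pr, M.left_pr, M.tr_pr, M.tr_tr,
          M.tr_refl] at this
  exact this (M.le_rfl' _)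

theorem Kr.nm_up : ∀ n : ℕ, M.nm (w := w) n = M.pr (M.nm (up n).1) (M.nm (up n).2)
  | 0 => by simp [up, Kr.nm, M.pr_zr]
  | n + 1 => by
    have h := Kr.nm_up n
    rw [up]
    show M.S (M.nm n) = _
    split
    · next x e => rw [h, e]; simp [Kr.nm, Kr.succ_pr_zr]
    · next x y e => rw [h, e]; simp [Kr.nm, Kr.succ_pr]

/-- Numerals and Cantor pairing. -/
theorem Kr.nm_cp (x y : ℕ) : M.nm (w := w) (cp x y) = M.pr (M.nm x) (M.nm y) := by
  rw [M.nm_up, up_mk]

end HAr
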