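import Pool.Agent.Lib.MP_61e577_lc.Ar.Dfn

/-! Heyting arithmetic with symbols for all primitive recursive functions, in one variable
(a number codes a tuple by iterated Cantor pairing) and with explicit substitution. The type
`V` indexes metavariables for functions and formulas; arithmetic proper is the case of no
metavariables. -/

namespace HAr

open Fn Fm

variable {V : Type}

/-! ### The standard model -/

/-- The inverse of Cantor pairing, walking along the diagonals. -/
def up : ℕ → ℕ × ℕ
  | 0 => (0, 0)
  | n + 1 => match up n with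
    | (x, 0) => (0, x + 1)
    | (x, y + 1) => (x + 1, y)

theorem cp_zero : cp 0 0 = 0 := rfl

theorem tri (s : ℕ) : (s + 1) * (s + 2) / 2 = s * (s + 1) / 2 + s + 1 := by
  have : (s + 1) * (s + 2) = s * (s + 1) + (s + 1) * 2 := by ring
  rw [this, Nat.add_mul_div_right _ _ (by norm_num)]
  ring

theorem cp_succ (x y : ℕ) : cp (x + 1) y = cp x (y + 1) + 1 := by
  unfold cp
  rw [show x + 1 + y = x + (y + 1) by ring]
  ring

theorem cp_zero_succ (x : ℕ) : cp 0 (x + 1) = cp x 0 + 1 := by
  unfold cp
  simp only [zero_add, add_zero]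
  exact tri x

theorem up_cp : ∀ s x y : ℕ, x + y = s → up (cp x y) = (x, y)
  | 0, x, y, h => by
    obtain ⟨rfl, rfl⟩ : x = 0 ∧ y = 0 := by omega
    rfl
  | s + 1, 0, y, h => by
    obtain rfl : y = s + 1 := by omega
    rw [cp_zero_succ, up, up_cp s s 0 (by omega)]
  | s + 1, x + 1, y, h => by
    rw [cp_succ, up, up_cp (s + 1) x (y + 1) (by omega)]

theorem cp_up : ∀ n : ℕ, cp (up n).1 (up n).2 = n
  | 0 => rfl
  | n + 1 => by
    have h := cp_up n
    rw [up]
    split
    · next x e => rw [e] at h; rw [cp_zero_succ]; simpa using h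
    · next x y e => rw [e] at h; rw [cp_succ]; simpa using h

theorem fst_le : ∀ n : ℕ, (up n).1 ≤ n ∧ (up n).2 ≤ n
  | 0 => ⟨le_rfl, le_rfl⟩
  | n + 1 => by
    have h := fst_le n
    rw [up]
    split
    · next x e => rw [e] at h; simp at h ⊢; omega
    · next x y e => rw [e] at h; simp at h ⊢; omega

/-- Tree recursion on numbers. -/
def trn (c : ℕ) (g : ℕ → ℕ → ℕ → ℕ) : ℕ → ℕ
  | 0 => c
  | n + 1 => g n (trn c g (up n).1) (trn c g (up n).2)
decreasing_by
  · have := fst_le n; omega
  · have := fst_le n; omega

/-- Values of functions. -/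
def ev : Fn Empty → ℕ → ℕ
  | .mv i, _ => i.elim
  | idn, x => x
  | zero, _ => 0
  | succ, x => x + 1
  | left, x => (up x).1
  | right, x => (up x).2
  | pair f g, x => cp (ev f x) (ev g x)
  | comp f g, x => ev f (ev g x)
  | prec f g, x => Nat.rec (ev f (up x).1) (fun n r => ev g (cp (up x).1 (cp n r))) (up x).2
  | trec f g, x => trn (ev f (up x).1) (fun n r s => ev g (cp (up x).1 (cp n (cp r s)))) (up x).2

/-- Truth in the standard model. -/
def tv : Fm Empty → ℕ → Prop
  | .mv i, _ => i.elim
  | eq f g, x => ev f x = ev g x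
  | bot, _ => False
  | conj P Q, x => tv P x ∧ tv Q x
  | disj P Q, x => tv P x ∨ tv Q x
  | imp P Q, x => tv P x → tv Q x
  | ex P, x => ∃ y, tv P (cp x y)
  | all P, x => ∀ y, tv P (cp x y)
  | sub P f, x => tv P (ev f x)

theorem up_mk (x y : ℕ) : up (cp x y) = (x, y) := up_cp _ x y rfl

theorem tv_ax {P : Fm Empty} (h : Ax P) (x : ℕ) : tv P x := by
  cases h <;> simp only [tv, ev, up_mk, lft, cp_up] <;> try tauto
  case pS => exact (cp_succ _ _).symm
  case p0 => exact (cp_zero_succ _).symm
  case congP => intro h1 h2; rw [h1, h2]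
  case leib => intro h1; rw [h1]; exact fun h => h
  case trans => intro h1 h2; rw [h1, h2]
  case exI => intro h; exact ⟨(up x).2, by rwa [cp_up]⟩
  case allE => intro h; have := h (up x).2; rwa [cp_up] at this
  case trec0 => rw [trn]
  case trecS => rw [trn]
  case sI => intro h; omega
  case ind => intro h1 h2 y; induction y with
    | zero => exact h1
    | succ n ih => exact h2 n ih

/-- Heyting arithmetic is sound for the standard model. -/
theorem tv_prv {P : Fm Empty} (h : Prv P) : ∀ x : ℕ, tv P x := by
  induction h with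
  | ax h => exact tv_ax h
  | mp _ _ h1 h2 => exact fun x => h1 x (h2 x)
  | sb f _ h => exact fun x => h _
  | exE _ h => rintro x ⟨y, hy⟩; have := h _ hy; simpa [tv, ev, up_mk] using this
  | allI _ h => intro x hx y; exact h _ (by simpa [tv, ev, up_mk] using hx)

end HAr
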