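import Pool.Agent.Lib.MP_61e577_lc.Ar.Num

/-! The box: provability at the numeral of the argument; provable completeness for internal
positive formulas. -/

namespace HAr

open Fn Fm

variable {V U : Type} {M : Kr V} {w : M.W}

@[simp] theorem Kr.gf_nd0 : M.gf (M.nd 0 (M.zr (w := w)) M.zr) := M.gf_small (by norm_num)
@[simp] theorem Kr.gf_nd1 : M.gf (M.nd 1 (M.zr (w := w)) M.zr) := M.gf_small (by norm_num)
@[simp] theorem Kr.gf_nd2 : M.gf (M.nd 2 (M.zr (w := w)) M.zr) := M.gf_small (by norm_num)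
@[simp] theorem Kr.gf_nd3 : M.gf (M.nd 3 (M.zr (w := w)) M.zr) := M.gf_small (by norm_num)
@[simp] theorem Kr.gf_nd4 : M.gf (M.nd 4 (M.zr (w := w)) M.zr) := M.gf_small (by norm_num)
@[simp] theorem Kr.gf_nd5 {a b : M.D w} : M.gf (M.nd 5 a b) ↔ M.gf a ∧ M.gf b :=
  Kr.gf_nd (by norm_num) (by norm_num)
@[simp] theorem Kr.gf_nd6 {a b : M.D w} : M.gf (M.nd 6 a b) ↔ M.gf a ∧ M.gf b :=
  Kr.gf_nd (by norm_num) (by norm_num)
@[simp] theorem Kr.gf_nd7 {a b : M.D w} : M.gf (M.nd 7 a b) ↔ M.gf a ∧ M.gf b :=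
  Kr.gf_nd (by norm_num) (by norm_num)
@[simp] theorem Kr.gf_nd8 {a b : M.D w} : M.gf (M.nd 8 a b) ↔ M.gf a ∧ M.gf b :=
  Kr.gf_nd (by norm_num) (by norm_num)

/-- Provability of a formula code at an argument. -/
def Kr.Bx (M : Kr V) {w : M.W} (a x : M.D w) : Prop := M.Pv (M.sbc a (M.num x))

theorem Kr.F_bxT {c : Fn V} {d : M.D w} : M.F (bxT c) d ↔ M.Bx (M.fn c d) d := by
  rw [bxT, Kr.F_prT]; simp [Kr.Bx]

/-- The code of the formula: `a` is provable at the argument. -/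
def Kr.bxC (M : Kr V) {w : M.W} (a : M.D w) : M.D w :=
  M.icm (fun _ => M.num a) (fun _ => M.tc) (bxT (.mv 0) : Fm ℕ)

@[simp] theorem Kr.fn_bxCF (a : M.D w) : M.fn bxCF a = M.bxC a := by
  rw [bxCF, Kr.fn_cdm]; simp [Kr.bxC]

@[simp] theorem Kr.tr_bxC {v : M.W} (h : w ≤ v) (a : M.D w) :
    M.tr h (M.bxC a) = M.bxC (M.tr h a) := by
  rw [← Kr.fn_bxCF, M.tr_fn, Kr.fn_bxCF]

@[simp] theorem Kr.gm_bxC (a : M.D w) : M.gm (M.bxC a) :=
  Kr.gm_icm (fun _ => M.gf_num _) (fun _ => by simp) _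

/-- The formula: the function code `c` at the argument is provably equal to the value of `f`. -/
def nfT (f c : Fn V) : Fm V := prT (ndF 0 (ndF 6 c numF) (comp numF f))

theorem Kr.F_nfT {f c : Fn V} {d : M.D w} : M.F (nfT f c) d ↔
    M.Pe (M.nd 6 (M.fn c d) (M.num d)) (M.num (M.fn f d)) := by
  rw [nfT, Kr.F_prT]; simp [Kr.Pe]

/-- Assignments given by the first five values. -/
def as5 {X : Type} (a b c d e : X) : ℕ → X
  | 0 => a
  | 1 => b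
  | 2 => c
  | 3 => d
  | _ => e

theorem Kr.gf_as5 {a b c d e : M.D w} (ha : M.gf a) (hb : M.gf b) (hc : M.gf c) (hd : M.gf d)
    (he : M.gf e) : ∀ i, M.gf (as5 a b c d e i)
  | 0 => ha
  | 1 => hb
  | 2 => hc
  | 3 => hd
  | _ + 4 => he

/-! ### Renaming of metavariables in the formulas of provability -/

theorem ms_conclF (r : U → Fn V) : (conclF : Fn U).ms r = conclF := by
  rw [← li_conclF, Fn.ms_li, li_conclF]

theorem ms_cst (r : U → Fn V) (k : ℕ) : (cst k : Fn U).ms r = cst k := by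
  rw [← li_cst, Fn.ms_li, li_cst]

theorem ms_ndF (r : U → Fn V) (k : ℕ) (f g : Fn U) :
    (ndF k f g).ms r = ndF k (f.ms r) (g.ms r) := by
  simp only [ndF, Fn.ms, ms_cst]

theorem ms_numF (r : U → Fn V) : (numF : Fn U).ms r = numF := by
  simp only [numF, Fn.ms, ms_ndF]

theorem ms_prT (r : U → Fn V) (t : U → Fm V) (f : Fn U) : (prT f).ms r t = prT (f.ms r) := by
  simp only [prT, Fm.ms, Fn.ms, ms_conclF]

theorem ms_bxT (r : U → Fn V) (t : U → Fm V) (c : Fn U) : (bxT c).ms r t = bxT (c.ms r) := by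
  simp only [bxT, ms_prT, ms_ndF, ms_numF]

theorem ms_nfT (r : U → Fn V) (t : U → Fm V) (f c : Fn U) :
    (nfT f c).ms r t = nfT (f.ms r) (c.ms r) := by
  simp only [nfT, ms_prT, ms_ndF, ms_numF, Fn.ms]

/-- The code of `bxT`, for any function code. -/
def Kr.bxc (M : Kr V) {w : M.W} (b : M.D w) : M.D w :=
  M.icm (fun _ => b) (fun _ => M.tc) (bxT (.mv 0) : Fm ℕ)

theorem Kr.bxC_eq (a : M.D w) : M.bxC a = M.bxc (M.num a) := rfl

/-- The code of `nfT`, for any function codes. -/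
def Kr.nfc (M : Kr V) {w : M.W} (a b : M.D w) : M.D w :=
  M.icm (as4 a b a a) (fun _ => M.tc) (nfT (.mv 0) (.mv 1) : Fm ℕ)

theorem Kr.icm_bxc (ρ τ : U → M.D w) (c : Fn U) :
    M.icm ρ τ (bxT c) = M.bxc (M.icf ρ c) := by
  have h := Kr.icm_ms ρ τ (fun _ : ℕ => c) (fun _ => eq zero zero) (bxT (.mv 0) : Fm ℕ)
  rw [ms_bxT] at h
  exact h

theorem Kr.icm_nfc (ρ τ : U → M.D w) (f c : Fn U) :
    M.icm ρ τ (nfT f c) = M.nfc (M.icf ρ f) (M.icf ρ c) := by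
  have h := Kr.icm_ms ρ τ (as4 f c f f) (fun _ => eq zero zero) (nfT (.mv 0) (.mv 1) : Fm ℕ)
  rw [ms_nfT] at h
  refine h.trans ?_
  rw [Kr.nfc]
  congr 1
  funext i
  match i with
  | 0 => rfl
  | 1 => rfl
  | 2 => rfl
  | _ + 3 => rfl

/-! ### Evaluation at numerals, in a model -/

/-- The function code `a` takes the value `y` at `x`, provably. -/
def Kr.Nv (M : Kr V) {w : M.W} (a x y : M.D w) : Prop := M.Pe (M.nd 6 a (M.num x)) (M.num y)

theorem Kr.Nv_gf {a x y : M.D w} (h : M.Nv a x y) : M.gf a := (Kr.gf_nd6.1 (Kr.Pe_left h)).1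

theorem Kr.F_nfT' {f c : Fn V} {d : M.D w} :
    M.F (nfT f c) d ↔ M.Nv (M.fn c d) d (M.fn f d) := Kr.F_nfT

theorem Kr.Nv_idn (x : M.D w) : M.Nv (M.nd 0 M.zr M.zr) x (M.fn idn x) := Kr.Pe_fn idn x
theorem Kr.Nv_zero (x : M.D w) : M.Nv (M.nd 1 M.zr M.zr) x (M.fn zero x) := Kr.Pe_fn zero x
theorem Kr.Nv_succ (x : M.D w) : M.Nv (M.nd 2 M.zr M.zr) x (M.fn succ x) := Kr.Pe_fn succ x
theorem Kr.Nv_left (x : M.D w) : M.Nv (M.nd 3 M.zr M.zr) x (M.fn left x) := Kr.Pe_fn left x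
theorem Kr.Nv_right (x : M.D w) : M.Nv (M.nd 4 M.zr M.zr) x (M.fn right x) := Kr.Pe_fn right x

theorem Kr.Nv_pair {a b x y z : M.D w} (h : M.Nv a x y) (k : M.Nv b x z) :
    M.Nv (M.nd 5 a b) x (M.pr y z) := by
  refine Kr.Pe_trans ?_ (Kr.Pe_trans (Kr.Pe_pair h k) (Kr.Pe_pr _ _))
  exact Kr.Pe_eq (comp (pair (.mv 0) (.mv 1)) (.mv 2)) (pair (comp (.mv 0) (.mv 2))
    (comp (.mv 1) (.mv 2))) (fun N w d => by simp) (Kr.Nv_gf h) (Kr.Nv_gf k) (Kr.gf_num x)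
    (Kr.gf_num x)

theorem Kr.Nv_comp {a b x y z : M.D w} (h : M.Nv b x y) (k : M.Nv a y z) :
    M.Nv (M.nd 6 a b) x z := by
  refine Kr.Pe_trans ?_ (Kr.Pe_trans (Kr.Pe_comp (Kr.Pe_refl (Kr.Nv_gf k)) h) k)
  exact Kr.Pe_eq (comp (comp (.mv 0) (.mv 1)) (.mv 2)) (comp (.mv 0) (comp (.mv 1) (.mv 2)))
    (fun N w d => by simp) (Kr.Nv_gf k) (Kr.Nv_gf h) (Kr.gf_num x) (Kr.gf_num x)

theorem Kr.Nv_prec0 {a b x y : M.D w} (h : M.Nv a x y) (hb : M.gf b) :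
    M.Nv (M.nd 7 a b) (M.pr x M.zr) y := by
  have ha := Kr.Nv_gf h
  refine Kr.Pe_trans ?_ h
  refine Kr.Pe_trans (Kr.Pe_comp (Kr.Pe_refl (Kr.gf_nd7.2 ⟨ha, hb⟩))
    (Kr.Pe_symm (Kr.Pe_pr _ _))) ?_
  rw [Kr.num_zr]
  exact Kr.Pe_eq (comp (prec (.mv 0) (.mv 1)) (pair (.mv 2) zero)) (comp (.mv 0) (.mv 2))
    (fun N w d => by simp) ha hb (Kr.gf_num x) (Kr.gf_num x)

theorem Kr.Nv_precS {a b x n y z : M.D w} (ha : M.gf a) (h : M.Nv (M.nd 7 a b) (M.pr x n) y)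
    (k : M.Nv b (M.pr x (M.pr n y)) z) : M.Nv (M.nd 7 a b) (M.pr x (M.S n)) z := by
  have hb := Kr.Nv_gf k
  refine Kr.Pe_trans ?_ k
  refine Kr.Pe_trans (Kr.Pe_comp (Kr.Pe_refl (Kr.gf_nd7.2 ⟨ha, hb⟩))
    (Kr.Pe_symm (Kr.Pe_pr _ _))) ?_
  rw [Kr.num_S]
  have h2 := Kr.Pe_trans (Kr.Pe_comp (Kr.Pe_refl (Kr.gf_nd7.2 ⟨ha, hb⟩)) (Kr.Pe_pr _ _)) h
  have h3 := Kr.Pe_trans (Kr.Pe_pair (Kr.Pe_refl (Kr.gf_num n)) h2) (Kr.Pe_pr _ _)
  have h4 := Kr.Pe_trans (Kr.Pe_pair (Kr.Pe_refl (Kr.gf_num x)) h3) (Kr.Pe_pr _ _)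
  refine Kr.Pe_trans ?_ (Kr.Pe_comp (Kr.Pe_refl hb) h4)
  exact Kr.Pe_eq (comp (prec (.mv 0) (.mv 1)) (pair (.mv 2) (comp succ (.mv 3))))
    (comp (.mv 1) (pair (.mv 2) (pair (.mv 3) (comp (prec (.mv 0) (.mv 1))
      (pair (.mv 2) (.mv 3)))))) (fun N w d => by simp) ha hb (Kr.gf_num x) (Kr.gf_num n)

theorem Kr.Nv_trec0 {a b x y : M.D w} (h : M.Nv a x y) (hb : M.gf b) :
    M.Nv (M.nd 8 a b) (M.pr x M.zr) y := by
  have ha := Kr.Nv_gf h
  refine Kr.Pe_trans ?_ h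
  refine Kr.Pe_trans (Kr.Pe_comp (Kr.Pe_refl (Kr.gf_nd8.2 ⟨ha, hb⟩))
    (Kr.Pe_symm (Kr.Pe_pr _ _))) ?_
  rw [Kr.num_zr]
  exact Kr.Pe_eq (comp (trec (.mv 0) (.mv 1)) (pair (.mv 2) zero)) (comp (.mv 0) (.mv 2))
    (fun N w d => by simp) ha hb (Kr.gf_num x) (Kr.gf_num x)

theorem Kr.Nv_trecS {a b x m n y z u : M.D w} (ha : M.gf a) (h : M.Nv (M.nd 8 a b) (M.pr x m) y)
    (h2 : M.Nv (M.nd 8 a b) (M.pr x n) z)
    (k : M.Nv b (M.pr x (M.pr (M.pr m n) (M.pr y z))) u) :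
    M.Nv (M.nd 8 a b) (M.pr x (M.S (M.pr m n))) u := by
  have hb := Kr.Nv_gf k
  have hg := Kr.gf_nd8.2 ⟨ha, hb⟩
  refine Kr.Pe_trans ?_ k
  refine Kr.Pe_trans (Kr.Pe_comp (Kr.Pe_refl hg) (Kr.Pe_symm (Kr.Pe_pr _ _))) ?_
  rw [Kr.num_S]
  have l1 : M.Pe (M.nd 5 (M.num x) (M.nd 6 (M.nd 3 M.zr M.zr) (M.num (M.pr m n))))
      (M.num (M.pr x m)) := Kr.Pe_trans (Kr.Pe_pair (Kr.Pe_refl (Kr.gf_num x)) (Kr.Pe_lft m n))
    (Kr.Pe_pr _ _)
  have l2 : M.Pe (M.nd 5 (M.num x) (M.nd 6 (M.nd 4 M.zr M.zr) (M.num (M.pr m n))))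
      (M.num (M.pr x n)) := Kr.Pe_trans (Kr.Pe_pair (Kr.Pe_refl (Kr.gf_num x)) (Kr.Pe_rgt m n))
    (Kr.Pe_pr _ _)
  have k1 := Kr.Pe_trans (Kr.Pe_comp (Kr.Pe_refl hg) l1) h
  have k2 := Kr.Pe_trans (Kr.Pe_comp (Kr.Pe_refl hg) l2) h2
  have k3 := Kr.Pe_trans (Kr.Pe_pair k1 k2) (Kr.Pe_pr _ _)
  have k4 := Kr.Pe_trans (Kr.Pe_pair (Kr.Pe_refl (Kr.gf_num (M.pr m n))) k3) (Kr.Pe_pr _ _)
  have k5 := Kr.Pe_trans (Kr.Pe_pair (Kr.Pe_refl (Kr.gf_num x)) k4) (Kr.Pe_pr _ _)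
  refine Kr.Pe_trans ?_ (Kr.Pe_comp (Kr.Pe_refl hb) k5)
  exact Kr.Pe_eq (comp (trec (.mv 0) (.mv 1)) (pair (.mv 2) (comp succ (.mv 3))))
    (comp (.mv 1) (pair (.mv 2) (pair (.mv 3) (pair (comp (trec (.mv 0) (.mv 1))
      (pair (.mv 2) (comp left (.mv 3)))) (comp (trec (.mv 0) (.mv 1))
      (pair (.mv 2) (comp right (.mv 3)))))))) (fun N w d => by simp) ha hb (Kr.gf_num x)
    (Kr.gf_num (M.pr m n))

/-! ### Provable evaluation -/

/-- Base cases. -/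
theorem Kr.nfc_small (k : ℕ) (C : Fn ℕ) (hC : ∀ (M : Kr V) (w : M.W) (ρ : ℕ → M.D w),
    M.icf ρ C = M.nd k M.zr M.zr)
    (hs : ∀ (N : Kr ℕ) (w : N.W) (d : N.D w), N.Nv (N.nd k N.zr N.zr) d (N.fn C d)) :
    M.Pv (M.nfc (M.nd k (M.zr (w := w)) M.zr) (M.num (M.nd k M.zr M.zr))) := by
  have := Kr.ruleC (M := M) (w := w) 1 [eq left (ndF k zero zero)] [] (nfT C (.mv 0))
    (by intro θ hθ; rw [List.mem_singleton.1 hθ]; trivial)
    (by
      intro N u e hc hθ _ d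
      rw [Kr.F_nfT', hc 0 (by norm_num) u (le_refl u) d, N.tr_refl]
      have h1 := hθ _ (List.mem_singleton.2 rfl)
      have h1 : N.fn left e = N.nd k N.zr N.zr := by simpa [KD.F] using h1
      rw [prj, h1]
      exact hs N u d)
    (ρ := fun _ => M.num (M.nd k M.zr M.zr)) (τ := fun _ => M.tc)
    (fun _ => Kr.gf_num _) (fun _ => by simp) (M.pr (M.nd k M.zr M.zr) M.zr)
    (by
      intro i hi
      obtain rfl : i = 0 := by omega
      simp [prj])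
    (by
      intro θ hθ
      rw [List.mem_singleton.1 hθ]
      simp [KD.F])
    (by intro ψ hψ; exact absurd hψ (by simp))
  rw [Kr.icm_nfc, hC] at this
  exact this

/-- Binary cases. -/
theorem Kr.nfc_bin (k : ℕ) (C : Fn ℕ) (hC : ∀ (M : Kr V) (w : M.W) (ρ : ℕ → M.D w),
    M.icf ρ C = M.nd k (ρ 3) (ρ 4))
    (hs : ∀ (N : Kr ℕ) (w : N.W) (a b : N.D w),
      (∀ (v : N.W) (h : w ≤ v) (d : N.D v), N.fn (.mv 0) d = N.nd k (N.tr h a) (N.tr h b)) →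
      (∀ (v : N.W) (h : w ≤ v) (d : N.D v), N.Nv (N.tr h a) d (N.fn (.mv 3) d)) →
      (∀ (v : N.W) (h : w ≤ v) (d : N.D v), N.Nv (N.tr h b) d (N.fn (.mv 4) d)) →
      ∀ d : N.D w, N.Nv (N.nd k a b) d (N.fn C d)) {a b : M.D w} (ga : M.gf a) (gb : M.gf b)
    (ha : M.Pv (M.nfc a (M.num a))) (hb : M.Pv (M.nfc b (M.num b))) :
    M.Pv (M.nfc (M.nd k a b) (M.num (M.nd k a b))) := by
  have := Kr.ruleC (M := M) (w := w) 3 [eq left (ndF k (prj 1) (prj 2))]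
    [nfT (.mv 3) (.mv 1), nfT (.mv 4) (.mv 2)] (nfT C (.mv 0))
    (by intro θ hθ; rw [List.mem_singleton.1 hθ]; trivial)
    (by
      intro N u e hc hθ hh d
      have h1 := hθ _ (List.mem_singleton.2 rfl)
      have h1 : N.fn (prj 0) e = N.nd k (N.fn (prj 1) e) (N.fn (prj 2) e) := by
        simpa [KD.F, prj] using h1
      rw [Kr.F_nfT', hc 0 (by norm_num) u (le_refl u) d, N.tr_refl, h1]
      refine hs N u _ _ ?_ ?_ ?_ d
      · intro v h x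
        rw [hc 0 (by norm_num) v h x, ← N.tr_fn, h1, N.tr_nd]
      · intro v h x
        have := hh (nfT (.mv 3) (.mv 1)) (by simp) v h x
        rwa [Kr.F_nfT', hc 1 (by norm_num) v h x, ← N.tr_fn] at this
      · intro v h x
        have := hh (nfT (.mv 4) (.mv 2)) (by simp) v h x
        rwa [Kr.F_nfT', hc 2 (by norm_num) v h x, ← N.tr_fn] at this)
    (ρ := as5 (M.num (M.nd k a b)) (M.num a) (M.num b) a b) (τ := fun _ => M.tc)
    (Kr.gf_as5 (Kr.gf_num _) (Kr.gf_num _) (Kr.gf_num _) ga gb) (fun _ => by simp)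
    (M.pr (M.nd k a b) (M.pr a (M.pr b M.zr)))
    (by
      intro i hi
      interval_cases i <;> simp [prj, as5])
    (by
      intro θ hθ
      rw [List.mem_singleton.1 hθ]
      simp [KD.F, prj])
    (by
      intro ψ hψ
      simp only [List.mem_cons, List.not_mem_nil, or_false] at hψ
      rcases hψ with rfl | rfl
      · rw [Kr.icm_nfc]; exact ha
      · rw [Kr.icm_nfc]; exact hb)
  rw [Kr.icm_nfc, hC] at this
  exact this

/-- The formula: evaluation is provable for the argument, a function code. -/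
def nfcT : Fm V := prT (cdm (as4 idn numF idn idn) (fun _ => topF) (nfT (.mv 0) (.mv 1) : Fm ℕ))

theorem Kr.F_nfcT {x : M.D w} : M.F nfcT x ↔ M.Pv (M.nfc x (M.num x)) := by
  rw [nfcT, Kr.F_prT, Kr.fn_cdm]
  have e1 : (fun i => M.fn (as4 idn numF idn idn i) x) = as4 x (M.num x) x x := by
    funext i
    match i with
    | 0 => simp [as4]
    | 1 => simp [as4]
    | 2 => simp [as4]
    | _ + 3 => simp [as4]
  rw [e1]
  simp only [Kr.fn_topF]
  exact Iff.rfl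

/-- Evaluation of internal functions at numerals is provable, provably. -/
theorem Kr.Pv_nf {f : M.D w} (hf : M.gf f) :
    M.Pv (M.icm (as4 f (M.num f) f f) (fun _ => M.tc) (nfT (.mv 0) (.mv 1) : Fm ℕ)) := by
  have key := M.gf_ind (sub nfcT right) M.zr
    (by
      intro v h k hk
      show M.F nfcT _
      rw [M.right_pr, Kr.F_nfcT]
      interval_cases k
      · exact Kr.nfc_small 0 idn (fun _ _ _ => rfl) (fun N w d => Kr.Nv_idn d)
      · exact Kr.nfc_small 1 zero (fun _ _ _ => rfl) (fun N w d => Kr.Nv_zero d)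
      · exact Kr.nfc_small 2 succ (fun _ _ _ => rfl) (fun N w d => Kr.Nv_succ d)
      · exact Kr.nfc_small 3 left (fun _ _ _ => rfl) (fun N w d => Kr.Nv_left d)
      · exact Kr.nfc_small 4 right (fun _ _ _ => rfl) (fun N w d => Kr.Nv_right d))
    (by
      intro v h k x y h5 h9 gx gy hx hy
      have hx : M.F nfcT _ := hx
      have hy : M.F nfcT _ := hy
      rw [M.right_pr, Kr.F_nfcT] at hx hy
      show M.F nfcT _
      rw [M.right_pr, Kr.F_nfcT]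
      interval_cases k
      · refine Kr.nfc_bin 5 (pair (.mv 3) (.mv 4)) (fun _ _ _ => rfl) ?_ gx gy hx hy
        intro N u a b _ h1 h2 d
        have h1 := h1 u (le_refl u) d
        have h2 := h2 u (le_refl u) d
        rw [N.tr_refl] at h1 h2
        rw [N.fn_pair]
        exact Kr.Nv_pair h1 h2
      · refine Kr.nfc_bin 6 (comp (.mv 3) (.mv 4)) (fun _ _ _ => rfl) ?_ gx gy hx hy
        intro N u a b _ h1 h2 d
        have h2 := h2 u (le_refl u) d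
        have h1 := h1 u (le_refl u) (N.fn (.mv 4) d)
        rw [N.tr_refl] at h1 h2
        rw [N.fn_comp]
        exact Kr.Nv_comp h2 h1
      · refine Kr.nfc_bin 7 (prec (.mv 3) (.mv 4)) (fun _ _ _ => rfl) ?_ gx gy hx hy
        intro N u a b h0 h1 h2 d
        have := N.ind (nfT (prec (.mv 3) (.mv 4)) (.mv 0)) (N.fn left d) (w := u)
          (by
            rw [Kr.F_nfT', h0 u (le_refl u), N.prec_zr, N.tr_refl, N.tr_refl]
            have h1 := h1 u (le_refl u) (N.fn left d)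
            have h2 := Kr.Nv_gf (h2 u (le_refl u) d)
            rw [N.tr_refl] at h1 h2
            exact Kr.Nv_prec0 h1 h2)
          (by
            intro v h n hn
            rw [Kr.F_nfT', h0 v h] at hn ⊢
            rw [N.prec_succ]
            exact Kr.Nv_precS (Kr.Nv_gf (h1 v h n)) hn (h2 v h _)) (N.fn right d)
        rw [Kr.F_nfT', h0 u (le_refl u), N.tr_refl, N.tr_refl, N.pr_eta] at this
        exact this
      · refine Kr.nfc_bin 8 (trec (.mv 3) (.mv 4)) (fun _ _ _ => rfl) ?_ gx gy hx hy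
        intro N u a b h0 h1 h2 d
        have := N.tind (nfT (trec (.mv 3) (.mv 4)) (.mv 0)) (N.fn left d) (w := u)
          (by
            rw [Kr.F_nfT', h0 u (le_refl u), N.trec_zr, N.tr_refl, N.tr_refl]
            have h1 := h1 u (le_refl u) (N.fn left d)
            have h2 := Kr.Nv_gf (h2 u (le_refl u) d)
            rw [N.tr_refl] at h1 h2
            exact Kr.Nv_trec0 h1 h2)
          (by
            intro v h m n hm hn
            rw [Kr.F_nfT', h0 v h] at hm hn ⊢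
            rw [N.trec_succ, N.left_pr, N.right_pr]
            exact Kr.Nv_trecS (Kr.Nv_gf (h1 v h n)) hm hn (h2 v h _)) (N.fn right d)
        rw [Kr.F_nfT', h0 u (le_refl u), N.tr_refl, N.tr_refl, N.pr_eta] at this
        exact this)
    hf
  have key : M.F nfcT _ := key
  rwa [M.right_pr, Kr.F_nfcT] at key

/-- Persistence. -/
def Kr.per (M : Kr V) {w : M.W} (a : M.D w) : Prop := M.Pv (M.im a (M.bxC a))

/-! ### Provability at an argument, in a model -/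

theorem Kr.Bx_gm {a x : M.D w} (h : M.Bx a x) : M.gm a := (Kr.gm_sbc.1 (Kr.Pv_gm h)).1

theorem Kr.Bx_eq {a b x y : M.D w} (h : M.Nv a x y) (k : M.Nv b x y) : M.Bx (M.eqc a b) x := by
  have h1 := Kr.Pe_trans h (Kr.Pe_symm k)
  refine Kr.rule (ρ := as4 a b (M.num x) (M.num x)) (τ := fun _ => M.btc)
    [eq (comp (.mv 0) (.mv 2)) (comp (.mv 1) (.mv 2))] (sub (eq (.mv 0) (.mv 1)) (.mv 2)) ?_
    (Kr.gf_as4 (Kr.Nv_gf h) (Kr.Nv_gf k) (Kr.gf_num x) (Kr.gf_num x)) (fun _ => Kr.gm_btc) ?_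
  · intro N v hN d
    have := hN _ (List.mem_singleton.2 rfl) v (le_refl v) d
    simpa [KD.F] using this
  · intro ψ hψ
    rw [List.mem_singleton.1 hψ]
    exact h1

theorem Kr.Bx_cj {a b x : M.D w} (h : M.Bx a x) (k : M.Bx b x) : M.Bx (M.cj a b) x := by
  refine Kr.rule (ρ := fun _ => M.num x) (τ := as4 a b M.btc M.btc)
    [sub (.mv 0) (.mv 0), sub (.mv 1) (.mv 0)] (sub (conj (.mv 0) (.mv 1)) (.mv 0)) ?_
    (fun _ => Kr.gf_num x) (Kr.gm_as4 (Kr.Bx_gm h) (Kr.Bx_gm k) Kr.gm_btc Kr.gm_btc) ?_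
  · intro N v hN d
    exact ⟨hN (sub (.mv 0) (.mv 0)) (by simp) v (le_refl v) d,
      hN (sub (.mv 1) (.mv 0)) (by simp) v (le_refl v) d⟩
  · intro ψ hψ
    simp only [List.mem_cons, List.not_mem_nil, or_false] at hψ
    rcases hψ with rfl | rfl
    · exact h
    · exact k

theorem Kr.Bx_dj {a b x : M.D w} (ha : M.gm a) (hb : M.gm b) (h : M.Bx a x ∨ M.Bx b x) :
    M.Bx (M.dj a b) x := by
  rcases h with h | h
  · refine Kr.rule (ρ := fun _ => M.num x) (τ := as4 a b M.btc M.btc)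
      [sub (.mv 0) (.mv 0)] (sub (disj (.mv 0) (.mv 1)) (.mv 0)) ?_
      (fun _ => Kr.gf_num x) (Kr.gm_as4 ha hb Kr.gm_btc Kr.gm_btc) ?_
    · intro N v hN d
      exact Or.inl (hN (sub (.mv 0) (.mv 0)) (by simp) v (le_refl v) d)
    · intro ψ hψ
      rw [List.mem_singleton.1 hψ]
      exact h
  · refine Kr.rule (ρ := fun _ => M.num x) (τ := as4 a b M.btc M.btc)
      [sub (.mv 1) (.mv 0)] (sub (disj (.mv 0) (.mv 1)) (.mv 0)) ?_
      (fun _ => Kr.gf_num x) (Kr.gm_as4 ha hb Kr.gm_btc Kr.gm_btc) ?_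
    · intro N v hN d
      exact Or.inr (hN (sub (.mv 1) (.mv 0)) (by simp) v (le_refl v) d)
    · intro ψ hψ
      rw [List.mem_singleton.1 hψ]
      exact h

theorem Kr.Bx_ex {a x y : M.D w} (h : M.Bx a (M.pr x y)) : M.Bx (M.exc a) x := by
  refine Kr.rule (ρ := as4 (M.num x) (M.num y) (M.num (M.pr x y)) (M.num x))
    (τ := fun _ => a) [sub (.mv 0) (.mv 2), eq (pair (.mv 0) (.mv 1)) (.mv 2)]
    (sub (ex (.mv 0)) (.mv 0)) ?_
    (Kr.gf_as4 (Kr.gf_num _) (Kr.gf_num _) (Kr.gf_num _) (Kr.gf_num _))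
    (fun _ => Kr.Bx_gm h) ?_
  · intro N v hN d
    have a1 : N.pm 0 (N.fn (.mv 2) d) := hN (sub (.mv 0) (.mv 2)) (by simp) v (le_refl v) d
    have a2 : N.fn (pair (.mv 0) (.mv 1)) d = N.fn (.mv 2) d :=
      hN (eq (pair (.mv 0) (.mv 1)) (.mv 2)) (by simp) v (le_refl v) d
    refine ⟨N.fn (.mv 1) d, ?_⟩
    show N.pm 0 (N.pr (N.fn (.mv 0) d) (N.fn (.mv 1) d))
    rw [← N.fn_pair, a2]
    exact a1
  · intro ψ hψ
    simp only [List.mem_cons, List.not_mem_nil, or_false] at hψ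
    rcases hψ with rfl | rfl
    · exact h
    · exact Kr.Pe_pr x y

theorem Kr.Bx_sb {a f x y : M.D w} (h : M.Nv f x y) (k : M.Bx a y) : M.Bx (M.sbc a f) x := by
  refine Kr.rule (ρ := as4 f (M.num x) (M.num y) (M.num x)) (τ := fun _ => a)
    [sub (.mv 0) (.mv 2), eq (comp (.mv 0) (.mv 1)) (.mv 2)]
    (sub (sub (.mv 0) (.mv 0)) (.mv 1)) ?_
    (Kr.gf_as4 (Kr.Nv_gf h) (Kr.gf_num _) (Kr.gf_num _) (Kr.gf_num _))
    (fun _ => Kr.Bx_gm k) ?_
  · intro N v hN d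
    have a1 : N.pm 0 (N.fn (.mv 2) d) := hN (sub (.mv 0) (.mv 2)) (by simp) v (le_refl v) d
    have a2 : N.fn (comp (.mv 0) (.mv 1)) d = N.fn (.mv 2) d :=
      hN (eq (comp (.mv 0) (.mv 1)) (.mv 2)) (by simp) v (le_refl v) d
    show N.pm 0 (N.fn (.mv 0) (N.fn (.mv 1) d))
    rw [← N.fn_comp, a2]
    exact a1
  · intro ψ hψ
    simp only [List.mem_cons, List.not_mem_nil, or_false] at hψ
    rcases hψ with rfl | rfl
    · exact k
    · exact h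

theorem Kr.Bx_of_sb {a f x y : M.D w} (h : M.Nv f x y) (k : M.Bx (M.sbc a f) x) : M.Bx a y := by
  refine Kr.rule (ρ := as4 f (M.num x) (M.num y) (M.num x)) (τ := fun _ => a)
    [sub (sub (.mv 0) (.mv 0)) (.mv 1), eq (comp (.mv 0) (.mv 1)) (.mv 2)]
    (sub (.mv 0) (.mv 2)) ?_
    (Kr.gf_as4 (Kr.Nv_gf h) (Kr.gf_num _) (Kr.gf_num _) (Kr.gf_num _))
    (fun _ => (Kr.gm_sbc.1 (Kr.Bx_gm k)).1) ?_
  · intro N v hN d
    have a1 : N.pm 0 (N.fn (.mv 0) (N.fn (.mv 1) d)) :=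
      hN (sub (sub (.mv 0) (.mv 0)) (.mv 1)) (by simp) v (le_refl v) d
    have a2 : N.fn (comp (.mv 0) (.mv 1)) d = N.fn (.mv 2) d :=
      hN (eq (comp (.mv 0) (.mv 1)) (.mv 2)) (by simp) v (le_refl v) d
    show N.pm 0 (N.fn (.mv 2) d)
    rw [← a2, N.fn_comp]
    exact a1
  · intro ψ hψ
    simp only [List.mem_cons, List.not_mem_nil, or_false] at hψ
    rcases hψ with rfl | rfl
    · exact k
    · exact h

/-- The rule with three constants, the first being a node of the two others, and a fact about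
the two others. -/
theorem Kr.rule3 (k : ℕ) (p q : Fn Empty) (hyps : List (Fm ℕ)) (φ : Fm ℕ)
    (hs : ∀ (N : Kr ℕ) (w : N.W) (a b : N.D w),
      (∀ (v : N.W) (h : w ≤ v) (d : N.D v), N.fn (.mv 0) d = N.nd k (N.tr h a) (N.tr h b)) →
      (∀ (v : N.W) (h : w ≤ v) (d : N.D v), N.fn (.mv 1) d = N.tr h a) →
      (∀ (v : N.W) (h : w ≤ v) (d : N.D v), N.fn (.mv 2) d = N.tr h b) →
      N.fn p.li (N.pr a b) = N.fn q.li (N.pr a b) →
      (∀ ψ ∈ hyps, ∀ (v : N.W) (_ : w ≤ v) (d : N.D v), N.F ψ d) → ∀ d : N.D w, N.F φ d)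
    {a b f g : M.D w} (hf : M.gf f) (hg : M.gf g) {τ : ℕ → M.D w} (hτ : ∀ i, M.gm (τ i))
    (hpq : M.fn p.li (M.pr a b) = M.fn q.li (M.pr a b))
    (hh : ∀ ψ ∈ hyps, M.Pv (M.icm (as5 (M.num (M.nd k a b)) (M.num a) (M.num b) f g) τ ψ)) :
    M.Pv (M.icm (as5 (M.num (M.nd k a b)) (M.num a) (M.num b) f g) τ φ) := by
  refine Kr.ruleC 3 [eq left (ndF k (prj 1) (prj 2)), eq (comp p (pair (prj 1) (prj 2)))
      (comp q (pair (prj 1) (prj 2)))] hyps φ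
    (by
      intro θ hθ
      simp only [List.mem_cons, List.not_mem_nil, or_false] at hθ
      rcases hθ with rfl | rfl <;> trivial) ?_
    (Kr.gf_as5 (Kr.gf_num _) (Kr.gf_num _) (Kr.gf_num _) hf hg) hτ
    (M.pr (M.nd k a b) (M.pr a (M.pr b M.zr))) ?_ ?_ hh
  · intro N u e hc hθ hN d
    have h1 := hθ (eq left (ndF k (prj 1) (prj 2))) (by simp)
    have h2 := hθ (eq (comp p (pair (prj 1) (prj 2))) (comp q (pair (prj 1) (prj 2)))) (by simp)
    have h1 : N.fn (prj 0) e = N.nd k (N.fn (prj 1) e) (N.fn (prj 2) e) := by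
      simpa [KD.F, prj] using h1
    have h2 : N.fn p.li (N.pr (N.fn (prj 1) e) (N.fn (prj 2) e)) =
        N.fn q.li (N.pr (N.fn (prj 1) e) (N.fn (prj 2) e)) := by
      simpa [KD.F, prj] using h2
    refine hs N u (N.fn (prj 1) e) (N.fn (prj 2) e) ?_ ?_ ?_ h2 hN d
    · intro v h x
      rw [hc 0 (by norm_num) v h x, ← N.tr_fn, h1, N.tr_nd]
    · intro v h x
      rw [hc 1 (by norm_num) v h x, ← N.tr_fn]
    · intro v h x
      rw [hc 2 (by norm_num) v h x, ← N.tr_fn]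
  · intro i hi
    interval_cases i <;> simp [prj, as5]
  · intro θ hθ
    simp only [List.mem_cons, List.not_mem_nil, or_false] at hθ
    rcases hθ with rfl | rfl
    · simp [KD.F, prj]
    · simpa [KD.F, prj] using hpq

theorem Kr.per_eq {f g : M.D w} (hf : M.gf f) (hg : M.gf g) : M.per (M.eqc f g) := by
  have := Kr.rule3 0 idn idn [nfT (.mv 3) (.mv 1), nfT (.mv 4) (.mv 2)]
    (imp (eq (.mv 3) (.mv 4)) (bxT (.mv 0))) ?_ (a := f) (b := g) hf hg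
    (τ := fun _ => M.tc) (fun _ => by simp) rfl ?_
  · rw [Kr.icm, Kr.icm_bxc] at this
    exact this
  · intro N u a b h0 h1 h2 _ hN d v h e
    have e : N.fn (.mv 3) (N.tr h d) = N.fn (.mv 4) (N.tr h d) := e
    have a1 := hN (nfT (.mv 3) (.mv 1)) (by simp) v h (N.tr h d)
    have a2 := hN (nfT (.mv 4) (.mv 2)) (by simp) v h (N.tr h d)
    rw [Kr.F_nfT', h1 v h] at a1
    rw [Kr.F_nfT', h2 v h, ← e] at a2
    rw [Kr.F_bxT, h0 v h]
    exact Kr.Bx_eq a1 a2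
  · intro ψ hψ
    simp only [List.mem_cons, List.not_mem_nil, or_false] at hψ
    rcases hψ with rfl | rfl
    · rw [Kr.icm_nfc]; exact Kr.Pv_nf hf
    · rw [Kr.icm_nfc]; exact Kr.Pv_nf hg

theorem Kr.per_bt : M.per (M.btc (w := w)) := by
  have := Kr.rule (M := M) (w := w) [] (imp bot (bxT (.mv 0)) : Fm ℕ)
    (fun N u _ d v h e => e.elim) (ρ := fun _ => M.num M.btc) (τ := fun _ => M.tc)
    (fun _ => Kr.gf_num _) (fun _ => by simp) (fun ψ hψ => absurd hψ (by simp))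
  rw [Kr.icm, Kr.icm_bxc] at this
  exact this

theorem Kr.per_cj {a b : M.D w} (ha : M.gm a) (hb : M.gm b) (h : M.per a) (k : M.per b) :
    M.per (M.cj a b) := by
  have := Kr.rule3 2 idn idn [imp (.mv 0) (bxT (.mv 1)), imp (.mv 1) (bxT (.mv 2))]
    (imp (conj (.mv 0) (.mv 1)) (bxT (.mv 0))) ?_ (a := a) (b := b) (Kr.gf_num a) (Kr.gf_num a)
    (τ := as4 a b M.tc M.tc) (Kr.gm_as4 ha hb (by simp) (by simp)) rfl ?_
  · rw [Kr.icm, Kr.icm_bxc] at this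
    exact this
  · intro N u a b h0 h1 h2 _ hN d v h e
    have a1 := hN (imp (.mv 0) (bxT (.mv 1))) (by simp) v h (N.tr h d) v (le_refl v)
    have a2 := hN (imp (.mv 1) (bxT (.mv 2))) (by simp) v h (N.tr h d) v (le_refl v)
    rw [N.tr_refl, Kr.F_bxT, h1 v h] at a1
    rw [N.tr_refl, Kr.F_bxT, h2 v h] at a2
    rw [Kr.F_bxT, h0 v h]
    exact Kr.Bx_cj (a1 e.1) (a2 e.2)
  · intro ψ hψ
    simp only [List.mem_cons, List.not_mem_nil, or_false] at hψ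
    rcases hψ with rfl | rfl
    · rw [Kr.icm, Kr.icm_bxc]; exact h
    · rw [Kr.icm, Kr.icm_bxc]; exact k

theorem Kr.per_dj {a b : M.D w} (ha : M.gm a) (hb : M.gm b) (h : M.per a) (k : M.per b) :
    M.per (M.dj a b) := by
  have := Kr.rule3 3 (pair (comp nfmF left) (comp nfmF right)) idn
    [imp (.mv 0) (bxT (.mv 1)), imp (.mv 1) (bxT (.mv 2))]
    (imp (disj (.mv 0) (.mv 1)) (bxT (.mv 0))) ?_ (a := a) (b := b) (Kr.gf_num a) (Kr.gf_num a)
    (τ := as4 a b M.tc M.tc) (Kr.gm_as4 ha hb (by simp) (by simp)) ?_ ?_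
  · rw [Kr.icm, Kr.icm_bxc] at this
    exact this
  · intro N u a b h0 h1 h2 hab hN d v h e
    have a1 := hN (imp (.mv 0) (bxT (.mv 1))) (by simp) v h (N.tr h d) v (le_refl v)
    have a2 := hN (imp (.mv 1) (bxT (.mv 2))) (by simp) v h (N.tr h d) v (le_refl v)
    rw [N.tr_refl, Kr.F_bxT, h1 v h] at a1
    rw [N.tr_refl, Kr.F_bxT, h2 v h] at a2
    rw [Kr.F_bxT, h0 v h]
    have hab : N.pr (N.nfm a) (N.nfm b) = N.pr a b := by simpa using hab
    have ga : N.nfm a = a := by simpa using congrArg (N.fn left) hab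
    have gb : N.nfm b = b := by simpa using congrArg (N.fn right) hab
    exact Kr.Bx_dj (Kr.gm_mono h ga) (Kr.gm_mono h gb) (e.imp a1 a2)
  · have h1 : M.nfm a = a := ha
    have h2 : M.nfm b = b := hb
    simp [h1, h2]
  · intro ψ hψ
    simp only [List.mem_cons, List.not_mem_nil, or_false] at hψ
    rcases hψ with rfl | rfl
    · rw [Kr.icm, Kr.icm_bxc]; exact h
    · rw [Kr.icm, Kr.icm_bxc]; exact k

theorem Kr.per_ex {a : M.D w} (ha : M.gm a) (h : M.per a) : M.per (M.exc a) := by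
  have := Kr.rule3 5 right zero [imp (.mv 0) (bxT (.mv 1))]
    (imp (ex (.mv 0)) (bxT (.mv 0))) ?_ (a := a) (b := M.zr) (Kr.gf_num a) (Kr.gf_num a)
    (τ := fun _ => a) (fun _ => ha) (by simp) ?_
  · rw [Kr.icm, Kr.icm_bxc] at this
    exact this
  · intro N u a b h0 h1 h2 hb hN d v h e
    obtain ⟨y, hy⟩ := e
    have a1 := hN (imp (.mv 0) (bxT (.mv 1))) (by simp) v h (N.pr (N.tr h d) y) v (le_refl v)
    rw [N.tr_refl, Kr.F_bxT, h1 v h] at a1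
    have hb : b = N.zr := by simpa using hb
    rw [Kr.F_bxT, h0 v h, hb, N.tr_zr]
    exact Kr.Bx_ex (a1 hy)
  · intro ψ hψ
    rw [List.mem_singleton.1 hψ]
    rw [Kr.icm, Kr.icm_bxc]
    exact h

theorem Kr.per_sb {a f : M.D w} (ha : M.gm a) (hf : M.gf f) (h : M.per a) :
    M.per (M.sbc a f) := by
  have := Kr.rule3 7 idn idn [imp (.mv 0) (bxT (.mv 1)), nfT (.mv 3) (.mv 2)]
    (imp (sub (.mv 0) (.mv 3)) (bxT (.mv 0))) ?_ (a := a) (b := f) hf hf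
    (τ := fun _ => a) (fun _ => ha) rfl ?_
  · rw [Kr.icm, Kr.icm_bxc] at this
    exact this
  · intro N u a b h0 h1 h2 _ hN d v h e
    have e : N.F (.mv 0) (N.fn (.mv 3) (N.tr h d)) := e
    have a1 := hN (imp (.mv 0) (bxT (.mv 1))) (by simp) v h (N.fn (.mv 3) (N.tr h d)) v
      (le_refl v)
    have a2 := hN (nfT (.mv 3) (.mv 2)) (by simp) v h (N.tr h d)
    rw [N.tr_refl, Kr.F_bxT, h1 v h] at a1
    rw [Kr.F_nfT', h2 v h] at a2
    rw [Kr.F_bxT, h0 v h]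
    exact Kr.Bx_sb a2 (a1 e)
  · intro ψ hψ
    simp only [List.mem_cons, List.not_mem_nil, or_false] at hψ
    rcases hψ with rfl | rfl
    · rw [Kr.icm, Kr.icm_bxc]; exact h
    · rw [Kr.icm_nfc]; exact Kr.Pv_nf hf

/-- Positive formulas without formula metavariables are persistent. -/
theorem Kr.per_pos : ∀ (φ : Fm U), φ.Pos → ∀ {ρ τ : U → M.D w}, (∀ i, M.gf (ρ i)) →
    (∀ i, M.gm (τ i)) → M.per (M.icm ρ τ φ)
  | .mv _, hp, _, _, _, _ => hp.elim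
  | eq f g, _, _, _, hρ, _ => Kr.per_eq (Kr.gf_icf hρ f) (Kr.gf_icf hρ g)
  | bot, _, _, _, _, _ => Kr.per_bt
  | conj P Q, hp, _, _, hρ, hτ => Kr.per_cj (Kr.gm_icm hρ hτ P) (Kr.gm_icm hρ hτ Q)
      (Kr.per_pos P hp.1 hρ hτ) (Kr.per_pos Q hp.2 hρ hτ)
  | disj P Q, hp, _, _, hρ, hτ => Kr.per_dj (Kr.gm_icm hρ hτ P) (Kr.gm_icm hρ hτ Q)
      (Kr.per_pos P hp.1 hρ hτ) (Kr.per_pos Q hp.2 hρ hτ)
  | imp _ _, hp, _, _, _, _ => hp.elim
  | ex P, hp, _, _, hρ, hτ => Kr.per_ex (Kr.gm_icm hρ hτ P) (Kr.per_pos P hp hρ hτ)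
  | all _, hp, _, _, _, _ => hp.elim
  | sub P f, hp, _, _, hρ, hτ => Kr.per_sb (Kr.gm_icm hρ hτ P) (Kr.gf_icf hρ f)
      (Kr.per_pos P hp hρ hτ)

theorem Kr.per_bxC (a : M.D w) : M.per (M.bxC a) := by
  refine Kr.per_pos _ ?_ (fun _ => M.gf_num _) (fun _ => by simp)
  simp [bxT, prT, Fm.Pos]

/-- The box commutes with substitution. -/
theorem Kr.box_sb {a f : M.D w} (ha : M.gm a) (hf : M.gf f) :
    M.Pv (M.im (M.bxC (M.sbc a f)) (M.sbc (M.bxC a) f)) ∧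
    M.Pv (M.im (M.sbc (M.bxC a) f) (M.bxC (M.sbc a f))) := by
  have hh : ∀ ψ ∈ [nfT (.mv 3) (.mv 2)], M.Pv (M.icm (as5 (M.num (M.nd 7 a f)) (M.num a)
      (M.num f) f f) (fun _ => M.tc) (ψ : Fm ℕ)) := by
    intro ψ hψ
    rw [List.mem_singleton.1 hψ]
    rw [Kr.icm_nfc]
    exact Kr.Pv_nf hf
  constructor
  · have := Kr.rule3 7 idn idn [nfT (.mv 3) (.mv 2)]
      (imp (bxT (.mv 0)) (sub (bxT (.mv 1)) (.mv 3))) ?_ (a := a) (b := f) hf hf
      (τ := fun _ => M.tc) (fun _ => by simp) rfl hh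
    · rw [Kr.icm, Kr.icm, Kr.icm_bxc, Kr.icm_bxc] at this
      exact this
    · intro N u a b h0 h1 h2 _ hN d v h e
      have a2 := hN (nfT (.mv 3) (.mv 2)) (by simp) v h (N.tr h d)
      rw [Kr.F_nfT', h2 v h] at a2
      rw [Kr.F_bxT, h0 v h] at e
      show N.F (bxT (.mv 1)) _
      rw [Kr.F_bxT, h1 v h]
      exact Kr.Bx_of_sb a2 e
  · have := Kr.rule3 7 idn idn [nfT (.mv 3) (.mv 2)]
      (imp (sub (bxT (.mv 1)) (.mv 3)) (bxT (.mv 0))) ?_ (a := a) (b := f) hf hf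
      (τ := fun _ => M.tc) (fun _ => by simp) rfl hh
    · rw [Kr.icm, Kr.icm, Kr.icm_bxc, Kr.icm_bxc] at this
      exact this
    · intro N u a b h0 h1 h2 _ hN d v h e
      have a2 := hN (nfT (.mv 3) (.mv 2)) (by simp) v h (N.tr h d)
      rw [Kr.F_nfT', h2 v h] at a2
      have e : N.F (bxT (.mv 1)) (N.fn (.mv 3) (N.tr h d)) := e
      rw [Kr.F_bxT, h1 v h] at e
      rw [Kr.F_bxT, h0 v h]
      exact Kr.Bx_sb a2 e

end HAr
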