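import Pool.Agent.Lib.MP_61e577_lc.Ar.Box

/-! The box: derivability conditions and Loeb's theorem. -/

namespace HAr

open Fn Fm

variable {V U : Type} {M : Kr V} {w : M.W}

theorem Kr.icf_conclF (ρ : U → M.D w) : M.icf ρ conclF = M.icf (eD M w) conclF := by
  have := Kr.icf_li ρ (conclF : Fn Empty)
  rwa [li_conclF] at this

@[simp] theorem li_numF : (numF : Fn Empty).li = (numF : Fn V) := by
  simp [numF]

theorem Kr.icf_numF (ρ : U → M.D w) : M.icf ρ numF = M.icf (eD M w) numF := by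
  have := Kr.icf_li ρ (numF : Fn Empty)
  rwa [li_numF] at this

theorem Kr.icf_cst (ρ : U → M.D w) (k : ℕ) : M.icf ρ (cst k) = M.icf (eD M w) (cst k) := by
  have := Kr.icf_li ρ (cst k : Fn Empty)
  rwa [li_cst] at this

theorem Kr.icm_bxT {ρ τ : U → M.D w} {c : Fn U} {a : M.D w} (h : M.icf ρ c = M.num a) :
    M.icm ρ τ (bxT c) = M.bxC a := by
  rw [Kr.bxC]
  simp only [bxT, prT, ndF, Kr.icm, Kr.icf, h]
  rw [M.icf_conclF ρ, M.icf_conclF fun _ => M.num a, M.icf_numF ρ, M.icf_numF fun _ => M.num a,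
    M.icf_cst ρ, M.icf_cst fun _ => M.num a]

/-! ### Propositional steps -/

theorem Kr.Pv_axi {P : Fm ℕ} (h : Ax P) {ρ τ : ℕ → M.D w} (hρ : ∀ i, M.gf (ρ i))
    (hτ : ∀ i, M.gm (τ i)) : M.Pv (M.icm ρ τ P) := Kr.D1 (Prv.ax h) hρ hτ

theorem Kr.Pv_s {a b c : M.D w} (h : M.Pv (M.im a (M.im b c))) (k : M.Pv (M.im a b)) :
    M.Pv (M.im a c) := by
  have h1 := Kr.Pv_gm h
  rw [Kr.gm_im, Kr.gm_im] at h1
  have h2 : M.Pv (M.icm (fun _ => M.nd 0 M.zr M.zr) (as4 a b c c)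
      (imp (imp (.mv 0) (imp (.mv 1) (.mv 2))) (imp (imp (.mv 0) (.mv 1))
        (imp (.mv 0) (.mv 2))))) := by
    refine Kr.Pv_axi (Ax.s _ _ _) (fun _ => by simp) ?_
    rintro (_ | _ | _ | i)
    · exact h1.1
    · exact h1.2.1
    · exact h1.2.2
    · exact h1.2.2
  exact Kr.Pv_mp (Kr.Pv_mp h2 h) k

theorem Kr.Pv_k {a b : M.D w} (ha : M.gm a) (h : M.Pv b) : M.Pv (M.im a b) := by
  have h2 : M.Pv (M.icm (fun _ => M.nd 0 M.zr M.zr) (as4 b a a a)
      (imp (.mv 0) (imp (.mv 1) (.mv 0)))) := by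
    refine Kr.Pv_axi (Ax.k _ _) (fun _ => by simp) ?_
    rintro (_ | _ | _ | i)
    · exact Kr.Pv_gm h
    · exact ha
    · exact ha
    · exact ha
  exact Kr.Pv_mp h2 h

theorem Kr.Pv_tr {a b c : M.D w} (h : M.Pv (M.im a b)) (k : M.Pv (M.im b c)) :
    M.Pv (M.im a c) := by
  have h1 := Kr.Pv_gm h
  rw [Kr.gm_im] at h1
  exact Kr.Pv_s (Kr.Pv_k h1.1 k) h

/-- Metavariables which are constants, at the world of the constants. -/
theorem Kr.cst_mv {N : Kr ℕ} {w : N.W} {e : N.D w} {k : ℕ}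
    (hc : ∀ i < k, ∀ (v : N.W) (h : w ≤ v) (d : N.D v),
      N.fn (.mv i) d = N.fn (prj i) (N.tr h e)) {i : ℕ} (hi : i < k) (d : N.D w) :
    N.fn (.mv i) d = N.fn (prj i) e := by
  rw [hc i hi w (le_refl w) d, N.tr_refl]

@[simp] theorem li_bxCF : (bxCF : Fn Empty).li = (bxCF : Fn V) := by
  simp [bxCF]

/-! ### Derivability conditions -/

/-- Provable formulas are provable at every argument. -/
theorem Kr.Bx_of {a x : M.D w} (h : M.Pv a) : M.Bx a x := Kr.Pv_sb h (M.gf_num x)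

theorem Kr.Bx_mono {v : M.W} (h : w ≤ v) {a x : M.D w} (k : M.Bx a x) :
    M.Bx (M.tr h a) (M.tr h x) := by
  have := Kr.Pv_mono h k
  rwa [Kr.tr_nd, Kr.tr_num] at this

/-- Distribution, at an argument. -/
theorem Kr.Bx_K {a b x : M.D w} (ha : M.gm a) (hb : M.gm b) (h : M.Bx (M.im a b) x)
    (k : M.Bx a x) : M.Bx b x := by
  have h2 : M.Pv (M.icm (fun _ => M.num x) (as4 a b b b)
      (imp (sub (imp (.mv 0) (.mv 1)) (.mv 2)) (imp (sub (.mv 0) (.mv 2))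
        (sub (.mv 1) (.mv 2))))) := by
    refine Kr.Pv_axi (Ax.subImp _ _ _) (fun _ => by simp) ?_
    rintro (_ | _ | _ | i)
    · exact ha
    · exact hb
    · exact hb
    · exact hb
  exact Kr.Pv_mp (Kr.Pv_mp h2 h) k

/-- Necessitation. -/
theorem Kr.box_nec {a : M.D w} (h : M.Pv a) : M.Pv (M.bxC a) := by
  have key : M.Pv (M.icm (fun _ => M.num a) (fun _ => M.tc) (bxT (.mv 0) : Fm ℕ)) := by
    refine Kr.ruleC 1 [prT left] [] _ (by simp [prT, Fm.Pos]) ?_ (fun _ => M.gf_num _)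
      (fun _ => by simp) (M.pr a M.zr) ?_ ?_ (by simp)
    · intro N w e hc hθ _ d
      rw [Kr.F_bxT]
      have h1 := hθ _ (List.mem_cons_self ..)
      rw [li_prT, Kr.F_prT, li_left] at h1
      rw [Kr.cst_mv hc (by norm_num) d]
      exact Kr.Bx_of h1
    · intro i hi
      obtain rfl : i = 0 := by omega
      simp [prj]
    · simpa [Kr.F_prT] using h
  exact key

/-- Distribution. -/
theorem Kr.box_K {a b : M.D w} (ha : M.gm a) (hb : M.gm b) :
    M.Pv (M.im (M.bxC (M.im a b)) (M.im (M.bxC a) (M.bxC b))) := by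
  have key : M.Pv (M.icm (as4 (M.num (M.im a b)) (M.num a) (M.num b) (M.num b))
      (fun _ => M.tc) (imp (bxT (.mv 0)) (imp (bxT (.mv 1)) (bxT (.mv 2))) : Fm ℕ)) := by
    refine Kr.ruleC 3 [eq (prj 0) (ndF 4 (prj 1) (prj 2)), eq (comp nfmF (prj 1)) (prj 1),
      eq (comp nfmF (prj 2)) (prj 2)] [] _ (by simp [Fm.Pos]) ?_ ?_
      (fun _ => by simp) (M.sq4 (M.im a b) a b M.zr) ?_ ?_ (by simp)
    · intro N w e hc hθ _ d
      have h1 := hθ _ (List.mem_cons_self ..)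
      have h2 := hθ _ (List.mem_cons_of_mem _ (List.mem_cons_self ..))
      have h3 := hθ _ (List.mem_cons_of_mem _ (List.mem_cons_of_mem _ (List.mem_cons_self ..)))
      simp only [li_eq, li_prj, li_ndF, li_comp, li_nfmF, Kr.F_eq, Kr.fn_ndF, Kr.fn_comp,
        Kr.fn_nfmF] at h1 h2 h3
      intro v k h4 u l h5
      rw [Kr.F_bxT] at h4 h5 ⊢
      rw [hc _ (by norm_num) _ (k.trans l)] at h5 ⊢
      rw [hc _ (by norm_num) _ k] at h4
      have h4 := Kr.Bx_mono l h4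
      rw [N.tr_fn, N.tr_tr, ← N.tr_fn, h1, Kr.tr_nd, N.tr_fn, N.tr_fn] at h4
      refine Kr.Bx_K ?_ ?_ h4 h5
      · rw [← N.tr_fn]
        exact Kr.gm_mono _ h2
      · rw [← N.tr_fn]
        exact Kr.gm_mono _ h3
    · rintro (_ | _ | _ | i) <;> exact M.gf_num _
    · intro i hi
      interval_cases i <;> simp [prj, Kr.sq4, as4]
    · simp [KD.F, Kr.sq4, prj]
      exact ⟨ha, hb⟩
  have e : M.icm (as4 (M.num (M.im a b)) (M.num a) (M.num b) (M.num b))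
      (fun _ => M.tc) (imp (bxT (.mv 0)) (imp (bxT (.mv 1)) (bxT (.mv 2))) : Fm ℕ) =
      M.im (M.bxC (M.im a b)) (M.im (M.bxC a) (M.bxC b)) := by
    rw [Kr.icm, Kr.icm, Kr.icm_bxT (a := M.im a b), Kr.icm_bxT (a := a), Kr.icm_bxT (a := b)]
    · rfl
    · rfl
    · rfl
  rwa [e] at key

/-- Transitivity, at an argument. -/
theorem Kr.Bx_4 {a x : M.D w} (ha : M.gm a) (h : M.Bx a x) : M.Bx (M.bxC a) x := by
  have _ := ha
  have key : M.Pv (M.icm (as4 (M.num a) (M.num x) (M.num x) (M.num x))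
      (fun _ => M.tc) (sub (bxT (.mv 0)) (.mv 1) : Fm ℕ)) := by
    refine Kr.ruleC 2 [prT (ndF 7 (prj 0) (comp numF (prj 1)))] [] _ (by simp [prT, Fm.Pos]) ?_ ?_
      (fun _ => by simp) (M.sq4 a x x M.zr) ?_ ?_ (by simp)
    · intro N w e hc hθ _ d
      have h1 := hθ _ (List.mem_cons_self ..)
      rw [li_prT, Kr.F_prT] at h1
      simp only [li_prj, li_ndF, li_comp, li_numF, Kr.fn_ndF, Kr.fn_comp, Kr.fn_numF] at h1
      have h2 : N.F (bxT (.mv 0)) (N.fn (.mv 1) d) := by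
        rw [Kr.F_bxT, Kr.cst_mv hc (by norm_num), Kr.cst_mv hc (by norm_num)]
        exact h1
      exact h2
    · rintro (_ | _ | _ | i) <;> exact M.gf_num _
    · intro i hi
      interval_cases i <;> simp [prj, Kr.sq4, as4]
    · simp [Kr.F_prT, Kr.sq4, prj]
      exact h
  have e : M.icm (as4 (M.num a) (M.num x) (M.num x) (M.num x))
      (fun _ => M.tc) (sub (bxT (.mv 0)) (.mv 1) : Fm ℕ) = M.sbc (M.bxC a) (M.num x) := by
    rw [Kr.icm, Kr.icm_bxT (a := a)]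
    · rfl
    · rfl
  rwa [e] at key

/-- Transitivity. -/
theorem Kr.box_4 {a : M.D w} (ha : M.gm a) : M.Pv (M.im (M.bxC a) (M.bxC (M.bxC a))) := by
  have key : M.Pv (M.icm (as4 (M.num a) (M.num (M.bxC a)) (M.num a) (M.num a))
      (fun _ => M.tc) (imp (bxT (.mv 0)) (bxT (.mv 1)) : Fm ℕ)) := by
    refine Kr.ruleC 2 [eq (prj 1) (comp bxCF (prj 0)), eq (comp nfmF (prj 0)) (prj 0)] [] _
      (by simp [Fm.Pos]) ?_ ?_ (fun _ => by simp) (M.sq4 a (M.bxC a) a M.zr) ?_ ?_ (by simp)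
    · intro N w e hc hθ _ d
      have h1 := hθ _ (List.mem_cons_self ..)
      have h2 := hθ _ (List.mem_cons_of_mem _ (List.mem_cons_self ..))
      simp only [li_eq, li_prj, li_comp, li_nfmF, li_bxCF, Kr.F_eq, Kr.fn_comp,
        Kr.fn_nfmF, Kr.fn_bxCF] at h1 h2
      intro v k h4
      rw [Kr.F_bxT] at h4 ⊢
      rw [hc _ (by norm_num) _ k] at h4 ⊢
      rw [← N.tr_fn _ (prj 1), h1, Kr.tr_bxC, N.tr_fn]
      refine Kr.Bx_4 ?_ h4
      rw [← N.tr_fn]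
      exact Kr.gm_mono _ h2
    · rintro (_ | _ | _ | i) <;> exact M.gf_num _
    · intro i hi
      interval_cases i <;> simp [prj, Kr.sq4, as4]
    · simp [KD.F, Kr.sq4, prj]
      exact ha
  have e : M.icm (as4 (M.num a) (M.num (M.bxC a)) (M.num a) (M.num a))
      (fun _ => M.tc) (imp (bxT (.mv 0)) (bxT (.mv 1)) : Fm ℕ) =
      M.im (M.bxC a) (M.bxC (M.bxC a)) := by
    rw [Kr.icm, Kr.icm_bxT (a := a), Kr.icm_bxT (a := M.bxC a)]
    · rfl
    · rfl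
  rwa [e] at key

/-- The formula about a pair `(y, x)`: the diagonal of `y` is provable at `x`. -/
def dgT : Fm V :=
  prT (ndF 7 (ndF 7 left (ndF 5 (comp numF left) (ndF 0 zero zero))) (comp numF right))

theorem Kr.F_dgT {d : M.D w} : M.F dgT d ↔
    M.Bx (M.sbc (M.fn left d) (M.nd 5 (M.num (M.fn left d)) (M.nd 0 M.zr M.zr)))
      (M.fn right d) := by
  rw [dgT, Kr.F_prT]; simp [Kr.Bx]

@[simp] theorem li_dgT : (dgT : Fm Empty).li = (dgT : Fm V) := by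
  simp [dgT]

theorem Kr.icm_dgT (ρ τ : U → M.D w) : M.icm ρ τ dgT = M.icm (eD M w) (eD M w) dgT := by
  have := Kr.icm_li ρ τ (dgT : Fm Empty)
  rwa [li_dgT] at this

/-- The code of the diagonal formula. -/
def Kr.dgC (M : Kr V) {w : M.W} (a : M.D w) : M.D w :=
  M.im (M.icm (eD M w) (eD M w) dgT) (M.sbc a (M.nd 4 M.zr M.zr))

/-- The fixed point: it says that its provability implies the given formula. -/
def Kr.fxC (M : Kr V) {w : M.W} (a : M.D w) : M.D w :=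
  M.sbc (M.dgC a) (M.nd 5 (M.num (M.dgC a)) (M.nd 0 M.zr M.zr))

/-- The fixed point formula, with two constants. -/
private def fxA : Fm ℕ := sub (imp dgT (sub (.mv 0) right)) (pair (.mv 0) idn)

/-- The formula of which it is a fixed point. -/
private def fxB : Fm ℕ := imp (bxT (.mv 1)) (.mv 0)

private theorem fx_sem {N : Kr ℕ} {w : N.W} {e : N.D w}
    (hc : ∀ i < 2, ∀ (v : N.W) (h : w ≤ v) (d : N.D v),
      N.fn (.mv i) d = N.fn (prj i) (N.tr h e))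
    (h1 : N.fn (prj 1) e = N.nd 7 (N.fn (prj 0) e)
      (N.nd 5 (N.num (N.fn (prj 0) e)) (N.nd 0 N.zr N.zr)))
    (v : N.W) (h : w ≤ v) (d : N.D v) : N.F fxA d ↔ N.F fxB d := by
  have e1 : ∀ (u : N.W) (l : v ≤ u), N.F dgT (N.tr l (N.fn (pair (.mv 0) idn) d)) ↔
      N.F (bxT (.mv 1)) (N.tr l d) := by
    intro u l
    rw [Kr.F_dgT, Kr.F_bxT, hc 1 (by norm_num) u (h.trans l), ← N.tr_fn (h.trans l) (prj 1), h1]
    simp only [N.fn_pair, N.tr_pr, N.left_pr, N.right_pr, N.tr_fn, Kr.tr_nd, Kr.tr_num, N.tr_zr,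
      N.fn_idn]
    rw [hc 0 (by norm_num) u (h.trans l)]
  have e2 : ∀ (u : N.W) (l : v ≤ u),
      N.F (sub (.mv 0) right) (N.tr l (N.fn (pair (.mv 0) idn) d)) ↔
      N.F (.mv 0) (N.tr l d) := by
    intro u l
    have : N.fn right (N.tr l (N.fn (pair (.mv 0) idn) d)) = N.tr l d := by simp
    show N.F (.mv 0) (N.fn right (N.tr l (N.fn (pair (.mv 0) idn) d))) ↔ _
    rw [this]
  constructor
  · intro h3 u l h4
    exact (e2 u l).1 (h3 u l ((e1 u l).2 h4))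
  · intro h3 u l h4
    exact (e2 u l).2 (h3 u l ((e1 u l).1 h4))

theorem Kr.fx {a : M.D w} (ha : M.gm a) : M.Pv (M.im (M.fxC a) (M.im (M.bxC (M.fxC a)) a)) ∧
    M.Pv (M.im (M.im (M.bxC (M.fxC a)) a) (M.fxC a)) := by
  have key : ∀ φ : Fm ℕ, (∀ (N : Kr ℕ) (w : N.W), (∀ (v : N.W) (_ : w ≤ v) (d : N.D v),
      N.F fxA d ↔ N.F fxB d) → ∀ d : N.D w, N.F φ d) →
      M.Pv (M.icm (as4 (M.num (M.dgC a)) (M.num (M.fxC a)) (M.num a) (M.num a))
      (fun _ => a) φ) := by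
    intro φ hφ
    refine Kr.ruleC 2 [eq (prj 1) (ndF 7 (prj 0) (ndF 5 (comp numF (prj 0)) (ndF 0 zero zero)))]
      [] _ (by simp [Fm.Pos]) ?_ ?_ (fun _ => ha) (M.sq4 (M.dgC a) (M.fxC a) a M.zr) ?_ ?_
      (by simp)
    · intro N w e hc hθ _ d
      have h1 := hθ _ (List.mem_cons_self ..)
      simp only [li_eq, li_prj, li_comp, li_ndF, li_numF, li_zero, Kr.F_eq, Kr.fn_comp,
        Kr.fn_ndF, Kr.fn_numF, Kr.fn_zero] at h1
      exact hφ N w (fun v h d => fx_sem hc h1 v h d) d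
    · rintro (_ | _ | _ | i) <;> exact M.gf_num _
    · intro i hi
      interval_cases i <;> simp [prj, Kr.sq4, as4]
    · simp [KD.F, Kr.sq4, prj, Kr.fxC]
  have eA : M.icm (as4 (M.num (M.dgC a)) (M.num (M.fxC a)) (M.num a) (M.num a))
      (fun _ => a) fxA = M.fxC a := by
    rw [fxA, Kr.icm, Kr.icm, Kr.icm_dgT]
    rfl
  have eB : M.icm (as4 (M.num (M.dgC a)) (M.num (M.fxC a)) (M.num a) (M.num a))
      (fun _ => a) fxB = M.im (M.bxC (M.fxC a)) a := by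
    rw [fxB, Kr.icm, Kr.icm_bxT (a := M.fxC a)]
    · rfl
    · rfl
  have k1 := key (imp fxA fxB) (fun N w h d v k h3 => (h v k _).1 h3)
  have k2 := key (imp fxB fxA) (fun N w h d v k h3 => (h v k _).2 h3)
  rw [Kr.icm, eA, eB] at k1 k2
  exact ⟨k1, k2⟩

/-- Loeb's theorem. -/
theorem Kr.lob {a : M.D w} (ha : M.gm a) (h : M.Pv (M.im (M.bxC a) a)) : M.Pv a := by
  obtain ⟨h1, h2⟩ := Kr.fx ha
  have gL : M.gm (M.fxC a) := by
    have := Kr.Pv_gm h1
    rw [Kr.gm_im] at this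
    exact this.1
  have gI : M.gm (M.im (M.bxC (M.fxC a)) a) := by simp [ha]
  have a1 := Kr.Pv_mp (Kr.box_K gL gI) (Kr.box_nec h1)
  have a2 := Kr.Pv_tr a1 (Kr.box_K (M.gm_bxC _) ha)
  have a3 := Kr.Pv_s a2 (Kr.box_4 gL)
  have a4 := Kr.Pv_tr a3 h
  exact Kr.Pv_mp a4 (Kr.box_nec (Kr.Pv_mp h2 a4))

end HAr
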