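import Pool.Agent.Lib.MP_61e577_lc.Ar.GTm
import Pool.Agent.Lib.MP_61e577_lc.Ar.Lob

/-! The box translation is a translation; provable formulas have provable box translations. -/

namespace HAr

open Fn Fm

variable {V : Type} {M : Kr V} {w : M.W}

/-- Falsity implies every good code. -/
theorem Kr.q_bt {a : M.D w} (ha : M.gm a) : M.Pv (M.im M.btc a) :=
  Kr.q0 (φ := imp bot (.mv 0)) (ρ := fun _ => M.nd 0 M.zr M.zr) (τ := as4 a a a a)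
    (fun _ => M.gf0) (Kr.gm_as4 ha ha ha ha) (fun _ _ _ _ _ h => h.elim)

theorem Kr.q_btsb {f : M.D w} (hf : M.gf f) : M.Pv (M.im (M.sbc M.btc f) M.btc) :=
  Kr.q0 (φ := imp (sub bot (.mv 0)) bot) (ρ := fun _ => f) (τ := fun _ => M.btc)
    (fun _ => hf) (fun _ => Kr.gm_btc) (fun _ _ _ _ _ h => h)

/-- Existential introduction. -/
theorem Kr.q_exI {a : M.D w} (ha : M.gm a) : M.Pv (M.im a (M.sbc (M.exc a) M.lc)) :=
  Kr.q0 (φ := imp (.mv 0) (sub (ex (.mv 0)) left)) (ρ := fun _ => M.nd 0 M.zr M.zr)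
    (τ := as4 a a a a) (fun _ => M.gf0) (Kr.gm_as4 ha ha ha ha)
    (fun N _ _ _ _ h => N.ax (Ax.exI (.mv 0)) _ _ (le_refl _) (by rwa [N.tr_refl]) |> fun h => by
      rwa [N.tr_refl] at h)

/-- The box is monotone. -/
theorem Kr.bx_mn {a b : M.D w} (h : M.Pv (M.im a b)) : M.Pv (M.im (M.bxC a) (M.bxC b)) :=
  Kr.Pv_mp (Kr.box_K (Kr.im_gm h).1 (Kr.im_gm h).2) (Kr.box_nec h)

/-- The box is monotone, two premises. -/
theorem Kr.bx_mn2 {a b c : M.D w} (h : M.Pv (M.im a (M.im b c))) :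
    M.Pv (M.im (M.bxC a) (M.im (M.bxC b) (M.bxC c))) :=
  Kr.q_tr (Kr.bx_mn h) (Kr.box_K (Kr.gm_im.1 (Kr.im_gm h).2).1 (Kr.gm_im.1 (Kr.im_gm h).2).2)

/-- `a → b → a ∧ b`. -/
theorem Kr.q_pr {a b : M.D w} (ha : M.gm a) (hb : M.gm b) :
    M.Pv (M.im a (M.im b (M.cj a b))) :=
  Kr.q0 (φ := imp (.mv 0) (imp (.mv 1) (conj (.mv 0) (.mv 1))))
    (ρ := fun _ => M.nd 0 M.zr M.zr) (τ := as4 a b b b)
    (fun _ => M.gf0) (Kr.gm_as4 ha hb hb hb)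
    (fun N _ _ _ _ h _ l k => ⟨N.mono _ l _ h, k⟩)

/-- The box of `a` implies the box of `a ∧ □ a`. -/
theorem Kr.bx_cj {a : M.D w} (ha : M.gm a) :
    M.Pv (M.im (M.bxC a) (M.bxC (M.cj a (M.bxC a)))) :=
  Kr.Pv_s (Kr.bx_mn2 (Kr.q_pr ha (M.gm_bxC a))) (Kr.box_4 ha)

/-- Persistence of `a ∧ □ a`, relative form. -/
theorem Kr.cj_bx1 {a : M.D w} (ha : M.gm a) : M.Pv (M.im (M.cj a (M.bxC a))
    (M.cj a (M.bxC (M.cj a (M.bxC a))))) :=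
  Kr.q_cj (Kr.q_fst ha (M.gm_bxC a)) (Kr.q_tr (Kr.q_snd ha (M.gm_bxC a)) (Kr.bx_cj ha))

theorem Kr.cj_bx2 {a : M.D w} (ha : M.gm a) : M.Pv (M.im
    (M.cj a (M.bxC (M.cj a (M.bxC a)))) (M.cj a (M.bxC a))) :=
  Kr.q_cj (Kr.q_fst ha (M.gm_bxC _)) (Kr.q_tr (Kr.q_snd ha (M.gm_bxC _))
    (Kr.bx_mn (Kr.q_fst ha (M.gm_bxC a))))

/-- The box translation is a translation. -/
theorem trH_bt (e : M.D w) : TrH M (comp btF right) (comp bxCF (comp btF right))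
    (ndF 1 zero zero) (eq zero zero) e where
  gT := by
    intro a ha
    simp only [M.fn_comp, M.right_pr, Kr.fn_btF]
    exact Kr.gm_bt ha
  gB := by
    intro a ha
    simp
  gR := by simp
  Rs1 := by
    intro f hf
    simp only [Kr.fn_ndF, M.fn_zero]
    exact Kr.q_btsb hf
  Rs2 := by
    intro f hf
    simp only [Kr.fn_ndF, M.fn_zero]
    exact Kr.q_bt (Kr.gm_sbc.2 ⟨Kr.gm_btc, hf⟩)
  T_eq1 := by
    intro f g hf hg
    simp only [M.fn_comp, M.right_pr, Kr.fn_btF, Kr.fn_ndF, M.fn_zero, Kr.bt_eq]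
    have h1 := Kr.gm_eqc.2 ⟨hf, hg⟩
    exact Kr.q_tr (Kr.q_fst h1 (M.gm_bxC _)) (Kr.q_inl h1 Kr.gm_btc)
  T_eq2 := by
    intro f g hf hg
    simp only [M.fn_comp, M.right_pr, Kr.fn_btF, Kr.fn_ndF, M.fn_zero, Kr.bt_eq]
    have h1 := Kr.gm_eqc.2 ⟨hf, hg⟩
    exact Kr.q_djE (Kr.q_cj (Kr.q_id h1) (Kr.per_eq hf hg))
      (Kr.q_bt (Kr.gm_cj.2 ⟨h1, M.gm_bxC _⟩))
  T_bt := by simp
  T_cj := by
    intro a b
    simp
  T_dj := by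
    intro a b
    simp
  T_ex := by
    intro a
    simp
  T_sb := by
    intro a f
    simp
  T_im1 := by
    intro a b ha hb
    simp only [M.fn_comp, M.right_pr, Kr.fn_btF, Kr.bt_im, Kr.fn_bxCF]
    exact Kr.cj_bx1 (Kr.gm_im.2 ⟨Kr.gm_bt ha, Kr.gm_bt hb⟩)
  T_im2 := by
    intro a b ha hb
    simp only [M.fn_comp, M.right_pr, Kr.fn_btF, Kr.bt_im, Kr.fn_bxCF]
    exact Kr.cj_bx2 (Kr.gm_im.2 ⟨Kr.gm_bt ha, Kr.gm_bt hb⟩)
  T_al1 := by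
    intro a ha
    simp only [M.fn_comp, M.right_pr, Kr.fn_btF, Kr.bt_al, Kr.fn_bxCF]
    exact Kr.cj_bx1 (Kr.gm_alc.2 (Kr.gm_bt ha))
  T_al2 := by
    intro a ha
    simp only [M.fn_comp, M.right_pr, Kr.fn_btF, Kr.bt_al, Kr.fn_bxCF]
    exact Kr.cj_bx2 (Kr.gm_alc.2 (Kr.gm_bt ha))
  sm2 := fun _ _ _ _ _ _ => ⟨rfl, rfl⟩
  sm1 := fun _ _ _ _ _ _ => rfl
  B_mp := by
    intro a b ha hb _
    simp only [M.fn_comp, M.right_pr, Kr.fn_btF, Kr.bt_im, Kr.fn_bxCF]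
    exact Kr.bx_mn2 (Kr.q_fst (Kr.gm_im.2 ⟨Kr.gm_bt ha, Kr.gm_bt hb⟩) (M.gm_bxC _))
  B_cj := by
    intro a b ha hb _
    simp only [M.fn_comp, M.right_pr, Kr.fn_btF, Kr.bt_cj, Kr.fn_bxCF]
    exact Kr.bx_mn2 (Kr.q_pr (Kr.gm_bt ha) (Kr.gm_bt hb))
  B_dj1 := by
    intro a b ha hb _
    simp only [M.fn_comp, M.right_pr, Kr.fn_btF, Kr.bt_dj, Kr.fn_bxCF]
    exact Kr.bx_mn (Kr.q_inl (Kr.gm_bt ha) (Kr.gm_bt hb))
  B_dj2 := by
    intro a b ha hb _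
    simp only [M.fn_comp, M.right_pr, Kr.fn_btF, Kr.bt_dj, Kr.fn_bxCF]
    exact Kr.bx_mn (Kr.q_inr (Kr.gm_bt ha) (Kr.gm_bt hb))
  B_ex := by
    intro a ha _
    simp only [M.fn_comp, M.right_pr, Kr.fn_btF, Kr.bt_ex, Kr.fn_bxCF]
    exact Kr.q_tr (Kr.bx_mn (Kr.q_exI (Kr.gm_bt ha)))
      (Kr.box_sb (Kr.gm_exc.2 (Kr.gm_bt ha)) M.gf3).1
  B_sb1 := by
    intro a f ha hf _
    simp only [M.fn_comp, M.right_pr, Kr.fn_btF, Kr.bt_sb, Kr.fn_bxCF]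
    exact (Kr.box_sb (Kr.gm_bt ha) hf).2
  B_sb2 := by
    intro a f ha hf _
    simp only [M.fn_comp, M.right_pr, Kr.fn_btF, Kr.bt_sb, Kr.fn_bxCF]
    exact (Kr.box_sb (Kr.gm_bt ha) hf).1
  B_eq := by
    intro f g hf hg _
    simp only [M.fn_comp, M.right_pr, Kr.fn_btF, Kr.bt_eq, Kr.fn_bxCF]
    exact Kr.q_tr (Kr.per_eq hf hg) (Kr.bx_cj (Kr.gm_eqc.2 ⟨hf, hg⟩))
  B_R := by
    intro a ha
    simp only [M.fn_comp, M.right_pr, Kr.fn_btF, Kr.fn_ndF, M.fn_zero, Kr.fn_bxCF]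
    exact Kr.q_bt (M.gm_bxC _)

/-- The box translation of a provable code is provable. -/
theorem Kr.Pv_bt {a : M.D w} (h : M.Pv a) : M.Pv (M.bt a) := by
  obtain ⟨p, rfl⟩ := h
  have := TrH.main (M := M) (tF := comp btF right) (BF := comp bxCF (comp btF right))
    (RF := ndF 1 zero zero) (Sm := eq zero zero) (e := M.zr (w := w))
    (fun v h => trH_bt _) (eq zero zero) (fun _ _ _ _ _ => ⟨rfl, rfl⟩) ?_ (p := p) rfl
  · simpa only [M.fn_comp, M.right_pr, Kr.fn_btF] using this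
  · intro v h p _
    refine ⟨rfl, ?_⟩
    simp only [M.fn_comp, M.right_pr, Kr.fn_btF, Kr.fn_bxCF]
    exact fun h => Kr.lob (Kr.gm_bt (M.gm_cc p)) h

/-- The box translation of a provable formula is provable. -/
theorem Prv.bx {P : Fm Empty} (h : Prv P) : Prv (bx P) := by
  rw [Prv_iff] at h ⊢
  have := Kr.Pv_bt h
  rwa [← std_nm, Kr.bt_enc, std_nm] at this

end HAr
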