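import Pool.Agent.Lib.MP_61e577_lc.Ar.Arith

/-! Codes of syntax: nodes, recursion and induction on codes, normal codes. -/

namespace HAr

open Fn Fm

variable {V : Type} {M : Kr V} {w : M.W}

def Kr.hd (M : Kr V) {w : M.W} (a : M.D w) : M.D w := M.fn hdF a
def Kr.tl (M : Kr V) {w : M.W} (a : M.D w) : M.D w := M.fn tlF a

@[simp] theorem Kr.fn_hdF (a : M.D w) : M.fn hdF a = M.hd a := rfl
@[simp] theorem Kr.fn_tlF (a : M.D w) : M.fn tlF a = M.tl a := rfl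
@[simp] theorem Kr.tr_hd {v : M.W} (h : w ≤ v) (a : M.D w) : M.tr h (M.hd a) = M.hd (M.tr h a) :=
  M.tr_fn h _ a
@[simp] theorem Kr.tr_tl {v : M.W} (h : w ≤ v) (a : M.D w) : M.tr h (M.tl a) = M.tl (M.tr h a) :=
  M.tr_fn h _ a

/-- The successor of the pair. -/
abbrev Kr.cs (M : Kr V) {w : M.W} (a b : M.D w) : M.D w := M.S (M.pr a b)

@[simp] theorem Kr.hd_S (a : M.D w) : M.hd (M.S a) = M.fn left a := by simp [Kr.hd, hdF]
@[simp] theorem Kr.tl_S (a : M.D w) : M.tl (M.S a) = M.fn right a := by simp [Kr.tl, tlF]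
@[simp] theorem Kr.hd_zr : M.hd (M.zr (w := w)) = M.zr := by simp [Kr.hd, hdF]
@[simp] theorem Kr.tl_zr : M.tl (M.zr (w := w)) = M.zr := by simp [Kr.tl, tlF]

theorem Kr.zr_or_cs (n : M.D w) : n = M.zr ∨ n = M.cs (M.hd n) (M.tl n) := by
  rcases M.zr_or_S n with h | ⟨m, rfl⟩
  · exact Or.inl h
  · right
    simp only [Kr.hd_S, Kr.tl_S]
    rw [Kr.cs, M.pr_eta]

theorem Kr.cs_inj {a b c d : M.D w} : M.cs a b = M.cs c d ↔ a = c ∧ b = d := by
  constructor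
  · intro h
    have h := M.succ_inj _ _ h
    exact ⟨by simpa using congrArg (M.fn left) h, by simpa using congrArg (M.fn right) h⟩
  · rintro ⟨rfl, rfl⟩; rfl

theorem Kr.cs_ne (a b : M.D w) : M.cs a b ≠ M.zr := M.succ_ne _

@[simp] theorem Kr.frec_zr (c g : Fn V) (a : M.D w) : M.fn (frec c g) (M.pr a M.zr) = M.fn c a := by
  simp [frec]

theorem Kr.frec_cs (c g : Fn V) (a x y : M.D w) : M.fn (frec c g) (M.pr a (M.cs x y)) =
    M.fn g (M.pr a (M.pr (M.pr x y)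
      (M.pr (M.fn (frec c g) (M.pr a (M.hd y))) (M.fn (frec c g) (M.pr a (M.tl y)))))) := by
  rcases M.zr_or_S y with rfl | ⟨n, rfl⟩
  · simp [frec]
  · simp [frec]

/-- Induction on codes. -/
theorem Kr.find (P : Fm V) {w : M.W} (a : M.D w) (h0 : M.F P (M.pr a M.zr))
    (hS : ∀ {v : M.W} (h : w ≤ v) (t m : M.D v), M.F P (M.pr (M.tr h a) (M.hd m)) →
      M.F P (M.pr (M.tr h a) (M.tl m)) → M.F P (M.pr (M.tr h a) (M.cs t m))) (n : M.D w) :
    M.F P (M.pr a n) := by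
  have key := M.tind (conj P (conj (sub P (pair left (comp hdF right)))
    (sub P (pair left (comp tlF right))))) a
    (by simpa [KD.F] using h0)
    (by
      intro v h x y hx hy
      simp only [KD.F, M.fn_pair, M.fn_comp, M.left_pr, M.right_pr] at hx hy ⊢
      refine ⟨hS h x y hy.2.1 hy.2.2, ?_, ?_⟩
      · simpa using hx.1
      · simpa using hy.1) n
  exact key.1

@[simp] theorem Kr.sw_nil (d : Fn V) (a n : M.D w) : M.fn (sw [] d) (M.pr a n) = M.fn d a := by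
  simp [sw]

@[simp] theorem Kr.sw_zr (f : Fn V) (fs : List (Fn V)) (d : Fn V) (a : M.D w) :
    M.fn (sw (f :: fs) d) (M.pr a M.zr) = M.fn f a := by
  simp [sw]

@[simp] theorem Kr.sw_S (f : Fn V) (fs : List (Fn V)) (d : Fn V) (a n : M.D w) :
    M.fn (sw (f :: fs) d) (M.pr a (M.S n)) = M.fn (sw fs d) (M.pr a n) := by
  simp [sw]

theorem Kr.sw_nm {fs : List (Fn V)} {d : Fn V} {a : M.D w} {k : ℕ} (h : k < fs.length) :
    M.fn (sw fs d) (M.pr a (M.nm k)) = M.fn fs[k] a := by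
  induction fs generalizing k with
  | nil => simp at h
  | cons f fs ih =>
    cases k with
    | zero => simp [Kr.nm]
    | succ k =>
      simp only [Kr.nm, Kr.sw_S]
      simpa using ih (by simpa using h)

/-- Iterated successor. -/
def Kr.up (M : Kr V) {w : M.W} : ℕ → M.D w → M.D w
  | 0, a => a
  | n + 1, a => M.S (Kr.up M n a)

theorem Kr.sw_up {fs : List (Fn V)} {d : Fn V} {a n : M.D w} :
    M.fn (sw fs d) (M.pr a (M.up fs.length n)) = M.fn d a := by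
  induction fs with
  | nil => simp [Kr.up]
  | cons f fs ih => simpa [Kr.up] using ih

/-- Every element is a small numeral or an iterated successor. -/
theorem Kr.small_or (n : ℕ) (a : M.D w) : (∃ k < n, a = M.nm k) ∨ ∃ b, a = M.up n b := by
  induction n generalizing a with
  | zero => exact Or.inr ⟨a, rfl⟩
  | succ n ih =>
    rcases M.zr_or_S a with rfl | ⟨m, rfl⟩
    · exact Or.inl ⟨0, by omega, rfl⟩
    · rcases ih m with ⟨k, hk, rfl⟩ | ⟨b, rfl⟩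
      · exact Or.inl ⟨k + 1, by omega, rfl⟩
      · exact Or.inr ⟨b, rfl⟩

/-- Nodes. -/
def Kr.nd (M : Kr V) {w : M.W} (k : ℕ) (a b : M.D w) : M.D w := M.cs (M.nm k) (M.cs a b)

@[simp] theorem Kr.fn_ndF (k : ℕ) (f g : Fn V) (d : M.D w) :
    M.fn (ndF k f g) d = M.nd k (M.fn f d) (M.fn g d) := by
  simp [ndF, Kr.nd]

@[simp] theorem Kr.tr_nd {v : M.W} (h : w ≤ v) (k : ℕ) (a b : M.D w) :
    M.tr h (M.nd k a b) = M.nd k (M.tr h a) (M.tr h b) := by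
  simp [Kr.nd]

theorem Kr.nd_inj {k : ℕ} {a b c d : M.D w} : M.nd k a b = M.nd k c d ↔ a = c ∧ b = d := by
  simp only [Kr.nd, Kr.cs_inj, true_and]

theorem Kr.nd_ne {k l : ℕ} (h : k ≠ l) (a b c d : M.D w) : M.nd k a b ≠ M.nd l c d := by
  intro e
  exact M.nm_ne h (Kr.cs_inj.1 e).1

@[simp] theorem Kr.tl_nd (k : ℕ) (a b : M.D w) : M.tl (M.nd k a b) = M.cs a b := by simp [Kr.nd]
@[simp] theorem Kr.hd_nd (k : ℕ) (a b : M.D w) : M.hd (M.nd k a b) = M.nm k := by simp [Kr.nd]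

/-- The code of the function `zero`. -/
def Kr.cz (M : Kr V) {w : M.W} : M.D w := M.nd 1 M.zr M.zr
/-- The code of the formula `bot`. -/
def Kr.cb (M : Kr V) {w : M.W} : M.D w := M.nd 1 M.zr M.zr

def Kr.nfn (M : Kr V) {w : M.W} (a : M.D w) : M.D w := M.fn nfnF a

@[simp] theorem Kr.fn_nfnF (a : M.D w) : M.fn nfnF a = M.nfn a := rfl
@[simp] theorem Kr.tr_nfn {v : M.W} (h : w ≤ v) (a : M.D w) :
    M.tr h (M.nfn a) = M.nfn (M.tr h a) := M.tr_fn h _ a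

@[simp] theorem Kr.nfn_zr : M.nfn (M.zr (w := w)) = M.nd 1 M.zr M.zr := by
  simp [Kr.nfn, nfnF]

theorem Kr.nfn_cs (t m : M.D w) : M.nfn (M.cs t m) =
    M.fn (sw [ndF 0 zero zero, ndF 1 zero zero, ndF 2 zero zero, ndF 3 zero zero, ndF 4 zero zero,
    ndF 5 left right, ndF 6 left right, ndF 7 left right, ndF 8 left right] (ndF 1 zero zero))
    (M.pr (M.pr (M.nfn (M.hd m)) (M.nfn (M.tl m))) t) := by
  simp only [Kr.nfn, nfnF, M.fn_comp, M.fn_pair, M.fn_zero, M.fn_idn, Kr.frec_cs, M.left_pr, M.right_pr]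

@[simp] theorem Kr.nfn_nd0 (a b : M.D w) : M.nfn (M.nd 0 a b) = M.nd 0 M.zr M.zr := by
  rw [Kr.nd, Kr.nfn_cs]; simp [Kr.nm]
@[simp] theorem Kr.nfn_nd1 (a b : M.D w) : M.nfn (M.nd 1 a b) = M.nd 1 M.zr M.zr := by
  rw [Kr.nd, Kr.nfn_cs]; simp [Kr.nm]
@[simp] theorem Kr.nfn_nd2 (a b : M.D w) : M.nfn (M.nd 2 a b) = M.nd 2 M.zr M.zr := by
  rw [Kr.nd, Kr.nfn_cs]; simp [Kr.nm]
@[simp] theorem Kr.nfn_nd3 (a b : M.D w) : M.nfn (M.nd 3 a b) = M.nd 3 M.zr M.zr := by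
  rw [Kr.nd, Kr.nfn_cs]; simp [Kr.nm]
@[simp] theorem Kr.nfn_nd4 (a b : M.D w) : M.nfn (M.nd 4 a b) = M.nd 4 M.zr M.zr := by
  rw [Kr.nd, Kr.nfn_cs]; simp [Kr.nm]
@[simp] theorem Kr.nfn_nd5 (a b : M.D w) : M.nfn (M.nd 5 a b) = M.nd 5 (M.nfn a) (M.nfn b) := by
  rw [Kr.nd, Kr.nfn_cs]; simp [Kr.nm]
@[simp] theorem Kr.nfn_nd6 (a b : M.D w) : M.nfn (M.nd 6 a b) = M.nd 6 (M.nfn a) (M.nfn b) := by
  rw [Kr.nd, Kr.nfn_cs]; simp [Kr.nm]
@[simp] theorem Kr.nfn_nd7 (a b : M.D w) : M.nfn (M.nd 7 a b) = M.nd 7 (M.nfn a) (M.nfn b) := by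
  rw [Kr.nd, Kr.nfn_cs]; simp [Kr.nm]
@[simp] theorem Kr.nfn_nd8 (a b : M.D w) : M.nfn (M.nd 8 a b) = M.nd 8 (M.nfn a) (M.nfn b) := by
  rw [Kr.nd, Kr.nfn_cs]; simp [Kr.nm]

/-- Case distinction for the normal form of a code. -/
theorem Kr.nfn_cases (a : M.D w) : (∃ k < 5, M.nfn a = M.nd k M.zr M.zr) ∨
    ∃ k, 5 ≤ k ∧ k < 9 ∧ M.nfn a = M.nd k (M.nfn (M.hd (M.tl a))) (M.nfn (M.tl (M.tl a))) := by
  rcases M.zr_or_cs a with rfl | h
  · exact Or.inl ⟨1, by norm_num, by simp⟩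
  · rw [h, Kr.nfn_cs]
    simp only [Kr.tl_S, M.right_pr]
    rcases M.small_or 9 (M.hd a) with ⟨k, hk, e⟩ | ⟨b, e⟩
    · rw [e, Kr.sw_nm (by simpa using hk)]
      interval_cases k <;> simp
      · exact Or.inl ⟨0, by norm_num, rfl⟩
      · exact Or.inl ⟨1, by norm_num, rfl⟩
      · exact Or.inl ⟨2, by norm_num, rfl⟩
      · exact Or.inl ⟨3, by norm_num, rfl⟩
      · exact Or.inl ⟨4, by norm_num, rfl⟩
      · exact Or.inr ⟨5, by norm_num, by norm_num, rfl⟩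
      · exact Or.inr ⟨6, by norm_num, by norm_num, rfl⟩
      · exact Or.inr ⟨7, by norm_num, by norm_num, rfl⟩
      · exact Or.inr ⟨8, by norm_num, by norm_num, rfl⟩
    · rw [e]
      have := M.sw_up (fs := [ndF 0 zero zero, ndF 1 zero zero, ndF 2 zero zero, ndF 3 zero zero,
        ndF 4 zero zero, ndF 5 left right, ndF 6 left right, ndF 7 left right, ndF 8 left right])
        (d := ndF 1 zero zero) (a := M.pr (M.nfn (M.hd (M.tl a))) (M.nfn (M.tl (M.tl a)))) (n := b)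
      simp only [List.length_cons, List.length_nil] at this
      rw [this]
      exact Or.inl ⟨1, by norm_num, by simp⟩

end HAr
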