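import Pool.Agent.Lib.MP_61e577_lc.Ar.Hk2

/-! Completeness of Heyting arithmetic for Kripke models. -/

namespace HAr

open Fn Fm

variable {V : Type}

namespace Wd

variable (w : Wd V)

theorem prv {p : Fm V} (hf : ∀ i ∈ w.A, Fr i p) (h : Prv p) : p ∈ w.G := by
  obtain ⟨q, hq⟩ := w.ne
  exact w.up q hq p hf (Le.pure h)

/-- Closure under consequences for substitution instances. -/
theorem upS {p : Fm V} (hp : p ∈ w.G) {P : Fm V} {f : Fn V} (hf : Dm w.A f)
    (h : Le p (sub P f)) : sub P f ∈ w.G := w.up p hp _ (hf.sub P).1 h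

theorem upE {p : Fm V} (hp : p ∈ w.G) {f g : Fn V} (hf : Dm w.A f) (hg : Dm w.A g)
    (h : Le p (eq f g)) : eq f g ∈ w.G :=
  w.up p hp _ (fun i hi => (hf.1 i hi).eq (hg.1 i hi)) h

theorem prvE {f g : Fn V} (hf : Dm w.A f) (hg : Dm w.A g) (h : qn f = qn g) : eq f g ∈ w.G :=
  w.prv (fun i hi => (hf.1 i hi).eq (hg.1 i hi)) (qn_eq.1 h)

theorem symmE {f g : Fn V} (hf : Dm w.A f) (hg : Dm w.A g) (h : eq f g ∈ w.G) :
    eq g f ∈ w.G := w.upE h hg hf (Prv.ax (Ax.symm _ _))

theorem transE {f g k : Fn V} (hf : Dm w.A f) (hk : Dm w.A k)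
    (h : eq f g ∈ w.G) (h' : eq g k ∈ w.G) : eq f k ∈ w.G :=
  w.upE (w.cj _ h _ h') hf hk (Le.uncurry (Prv.ax (Ax.trans _ _ _)))

/-- Equality in a world. -/
def S : Setoid {f : Fn V // Dm w.A f} where
  r f g := eq f.1 g.1 ∈ w.G
  iseqv := ⟨fun f => w.prvE f.2 f.2 rfl, fun {f g} h => w.symmE f.2 g.2 h,
    fun {f _ k} h1 h2 => w.transE f.2 k.2 h1 h2⟩

end Wd

instance : Preorder (Wd V) where
  le w v := v.A ⊆ w.A ∧ w.G ⊆ v.G
  le_refl _ := ⟨subset_rfl, subset_rfl⟩
  le_trans _ _ _ h1 h2 := ⟨h2.1.trans h1.1, h1.2.trans h2.2⟩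

/-- Restriction to a later world. -/
def Wd.res {w v : Wd V} (h : w ≤ v) : Quotient w.S → Quotient v.S :=
  Quotient.map' (s₁ := w.S) (s₂ := v.S) (fun f => ⟨f.1, f.2.mono h.1⟩) fun _ _ h1 => h.2 h1

/-- The data of the canonical model. -/
def canD (V : Type) : KD V where
  W := Wd V
  D w := Quotient w.S
  tr h := Wd.res h
  fn g {w} := Quotient.map' (s₁ := w.S) (s₂ := w.S) (fun f => ⟨comp g f.1, f.2.comp g⟩)
    fun a b h1 => w.upE (show eq a.1 b.1 ∈ w.G from h1) (a.2.comp g) (b.2.comp g)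
      (Prv.ax (Ax.congC _ _ _))
  pr {w} := Quotient.map₂ (sa := w.S) (sb := w.S) (sc := w.S)
    (fun f g => ⟨pair f.1 g.1, f.2.pair g.2⟩)
    fun a b h1 c d h2 => w.upE (w.cj _ (show eq a.1 b.1 ∈ w.G from h1) _
      (show eq c.1 d.1 ∈ w.G from h2)) (a.2.pair c.2) (b.2.pair d.2)
      (Le.uncurry (Prv.ax (Ax.congP _ _ _ _)))
  zr {w} := Quotient.mk w.S ⟨zero, Dm.zero _⟩
  pm i {w} := Quotient.lift (s := w.S) (fun f => sub (Fm.mv i) f.1 ∈ w.G) fun a b h1 =>
    propext ⟨fun h2 => w.upS (w.cj _ (show eq a.1 b.1 ∈ w.G from h1) _ h2) b.2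
      (Le.uncurry (Prv.ax (Ax.leib _ _ _))), fun h2 => w.upS (w.cj _ (show eq b.1 a.1 ∈ w.G from
      w.symmE a.2 b.2 h1) _ h2) a.2 (Le.uncurry (Prv.ax (Ax.leib _ _ _)))⟩

/-- The element of a world given by a function. -/
def el {w : Wd V} (f : Fn V) (hf : Dm w.A f) : (canD V).D w := Quotient.mk w.S ⟨f, hf⟩

theorem el_surj {w : Wd V} (d : (canD V).D w) : ∃ f hf, el (w := w) f hf = d := by
  obtain ⟨⟨f, hf⟩, h⟩ := Quotient.exists_rep d
  exact ⟨f, hf, h⟩

theorem el_eq {w : Wd V} {f g : Fn V} {hf : Dm w.A f} {hg : Dm w.A g} :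
    el (w := w) f hf = el g hg ↔ eq f g ∈ w.G := Quotient.eq (r := w.S)

theorem el_qn {w : Wd V} {f g : Fn V} {hf : Dm w.A f} {hg : Dm w.A g} (h : qn f = qn g) :
    el (w := w) f hf = el g hg := el_eq.2 (w.prvE hf hg h)

theorem tr_el {w v : Wd V} (h : w ≤ v) (f : Fn V) (hf : Dm w.A f) :
    (canD V).tr (w := w) (v := v) h (el f hf) = el f (hf.mono h.1) := rfl

theorem fn_el {w : Wd V} (g f : Fn V) (hf : Dm w.A f) :
    (canD V).fn g (el (w := w) f hf) = el (comp g f) (hf.comp g) := rfl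

theorem pr_el {w : Wd V} (f g : Fn V) (hf : Dm w.A f) (hg : Dm w.A g) :
    (canD V).pr (el (w := w) f hf) (el g hg) = el (pair f g) (hf.pair hg) := rfl

theorem zr_el {w : Wd V} : (canD V).zr (w := w) = el zero (Dm.zero _) := rfl

/-- The truth lemma. -/
theorem truth [Countable V] (P : Fm V) : ∀ {w : Wd V} (f : Fn V) (hf : Dm w.A f),
    (canD V).F P (el (w := w) f hf) ↔ sub P f ∈ w.G := by
  induction P with
  | mv i => exact fun f hf => Iff.rfl
  | eq a b =>
    intro w f hf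
    show el (w := w) (comp a f) _ = el (comp b f) _ ↔ _
    rw [el_eq]
    exact ⟨fun h => w.upS h hf (Prv.ax (Ax.eqSub _ _ _)),
      fun h => w.upE h (hf.comp a) (hf.comp b) (Prv.ax (Ax.subEq _ _ _))⟩
  | bot =>
    intro w f hf
    show False ↔ _
    exact ⟨False.elim, fun h => w.nb (w.up _ h _ (Fs.bot _).1 (Prv.ax (Ax.subBot _)))⟩
  | conj P Q ihP ihQ =>
    intro w f hf
    show (canD V).F P (el (w := w) f hf) ∧ (canD V).F Q (el (w := w) f hf) ↔ _
    rw [ihP, ihQ]
    exact ⟨fun h => w.upS (w.cj _ h.1 _ h.2) hf (sub_conj _ _ _),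
      fun h => ⟨w.upS h hf (Le.fst.sub _), w.upS h hf (Le.snd.sub _)⟩⟩
  | disj P Q ihP ihQ =>
    intro w f hf
    show (canD V).F P (el (w := w) f hf) ∨ (canD V).F Q (el (w := w) f hf) ↔ _
    rw [ihP, ihQ]
    constructor
    · rintro (h | h)
      · exact w.upS h hf (Le.inl.sub _)
      · exact w.upS h hf (Le.inr.sub _)
    · exact w.dj P Q f hf
  | imp P Q ihP ihQ =>
    intro w f hf
    show (∀ (v : Wd V) (h : w ≤ v), (canD V).F P ((canD V).tr (w := w) (v := v) h (el f hf)) →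
      (canD V).F Q ((canD V).tr (w := w) (v := v) h (el f hf))) ↔ _
    constructor
    · intro h
      by_contra hn
      obtain ⟨v, hvA, hv, hq⟩ := exists_world (V := V) w.inf
        (G0 := {p | ∃ c ∈ w.G, p = conj c (sub P f)}) (q := sub Q f) (by
          rintro p ⟨c, hc, rfl⟩ i hi
          exact (w.fr c hc i hi).conj ((hf.1 i hi).sub P)) (by
          obtain ⟨c, hc⟩ := w.ne
          exact ⟨_, c, hc, rfl⟩) (by
          rintro p ⟨c, hc, rfl⟩ p' ⟨c', hc', rfl⟩
          exact ⟨_, ⟨conj c c', w.cj _ hc _ hc', rfl⟩, Le.conj_mono Le.fst (Le.refl _),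
            Le.conj_mono Le.snd (Le.refl _)⟩) (fun i hi => (hf.1 i hi).sub Q) (by
          rintro p ⟨c, hc, rfl⟩ h1
          exact hn (w.upS hc hf (h1.curry.trans (Prv.ax (Ax.impSub _ _ _)))))
      have hwv : w ≤ v := by
        refine ⟨hvA, fun p hp => ?_⟩
        exact hv _ ⟨p, hp, rfl⟩ p (w.fr p hp) Le.fst
      have h1 := h v hwv
      rw [tr_el, ihP, ihQ] at h1
      obtain ⟨c, hc⟩ := w.ne
      exact hq (h1 (hv _ ⟨c, hc, rfl⟩ _ (hf.sub P).1 Le.snd))
    · intro h v hwv h1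
      rw [tr_el, ihP] at h1
      rw [tr_el, ihQ]
      exact v.upS (v.cj _ (hwv.2 h) _ h1) (hf.mono hwv.1)
        (Le.uncurry (Prv.ax (Ax.subImp _ _ _)))
  | ex P ih =>
    intro w f hf
    show (∃ e, (canD V).F P ((canD V).pr (el (w := w) f hf) e)) ↔ _
    constructor
    · rintro ⟨e, h⟩
      obtain ⟨g, hg, rfl⟩ := el_surj e
      rw [pr_el, ih] at h
      exact w.upS h hf (ex_intro _ _ _)
    · intro h
      obtain ⟨g, hg, h1⟩ := w.hk P f hf h
      refine ⟨el g hg, ?_⟩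
      rw [pr_el, ih]
      exact h1
  | all P ih =>
    intro w f hf
    show (∀ (v : Wd V) (h : w ≤ v) (e : (canD V).D v),
      (canD V).F P ((canD V).pr ((canD V).tr (w := w) (v := v) h (el f hf)) e)) ↔ _
    constructor
    · intro h
      by_contra hn
      obtain ⟨i, hi⟩ := w.inf.nonempty
      have hA' : (w.A \ {i}).Infinite := w.inf.sdiff (Set.finite_singleton i)
      have hfA : Dm (w.A \ {i}) f := hf.mono Set.sdiff_subset
      have hgi : Dm (w.A \ {i}) (get i : Fn V) := Dm.get (by simp)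
      obtain ⟨v, hvA, hv, hq⟩ := exists_world (V := V) hA' (G0 := w.G)
        (q := sub P (pair f (get i))) (fun p hp j hj => w.fr p hp j hj.1) w.ne
        (fun p hp p' hp' => ⟨_, w.cj _ hp _ hp', Le.fst, Le.snd⟩)
        ((hfA.pair hgi).sub P).1 (by
          intro c hc h1
          exact hn (w.upS hc hf (fresh_all (w.fr c hc i hi) (hf.1 i hi) h1)))
      have hwv : w ≤ v := by
        refine ⟨hvA.trans Set.sdiff_subset, fun p hp => ?_⟩
        exact hv p hp p (fun j hj => w.fr p hp j hj.1) (Le.refl _)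
      have h1 := h v hwv (el (get i) (hgi.mono hvA))
      rw [tr_el, pr_el, ih] at h1
      exact hq h1
    · intro h v hwv e
      obtain ⟨g, hg, rfl⟩ := el_surj e
      rw [tr_el, pr_el, ih]
      exact v.upS (hwv.2 h) ((hf.mono hwv.1).pair hg) (all_elim _ _ _)
  | sub P g ih =>
    intro w f hf
    show (canD V).F P ((canD V).fn g (el (w := w) f hf)) ↔ _
    rw [fn_el, ih]
    exact ⟨fun h => w.upS h hf (subComp_le _ _ _),
      fun h => w.upS h (hf.comp g) (subSub_le _ _ _)⟩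

/-- The canonical model. -/
def can (V : Type) [Countable V] : Kr V where
  toKD := canD V
  tr_refl {w} h d := by
    obtain ⟨f, hf, rfl⟩ := el_surj d
    rfl
  tr_tr {u v w} h k d := by
    obtain ⟨f, hf, rfl⟩ := el_surj d
    rfl
  tr_fn {w v} h g d := by
    obtain ⟨f, hf, rfl⟩ := el_surj d
    rfl
  tr_pr {w v} h d e := by
    obtain ⟨f, hf, rfl⟩ := el_surj d
    obtain ⟨g, hg, rfl⟩ := el_surj e
    rfl
  pm_mono {w v} h i d h1 := by
    obtain ⟨f, hf, rfl⟩ := el_surj d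
    exact h.2 h1
  fn_idn {w} d := by
    obtain ⟨f, hf, rfl⟩ := el_surj d
    exact el_qn (one_mul (qn f))
  fn_zero {w} d := by
    obtain ⟨f, hf, rfl⟩ := el_surj d
    exact el_qn (qn_zero_mul (qn f))
  fn_comp {w} a b d := by
    obtain ⟨f, hf, rfl⟩ := el_surj d
    exact el_qn (mul_assoc (qn a) (qn b) (qn f))
  fn_pair {w} a b d := by
    obtain ⟨f, hf, rfl⟩ := el_surj d
    exact el_qn (qn_pr_mul (qn a) (qn b) (qn f))
  left_pr {w} d e := by
    obtain ⟨f, hf, rfl⟩ := el_surj d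
    obtain ⟨g, hg, rfl⟩ := el_surj e
    exact el_qn (qn_left_pr (qn f) (qn g))
  right_pr {w} d e := by
    obtain ⟨f, hf, rfl⟩ := el_surj d
    obtain ⟨g, hg, rfl⟩ := el_surj e
    exact el_qn (qn_right_pr (qn f) (qn g))
  pr_eta {w} d := by
    obtain ⟨f, hf, rfl⟩ := el_surj d
    exact el_qn (qn_eta' (qn f))
  pr_zr {w} := el_qn qn_p00
  succ_pr {w} d e := by
    obtain ⟨f, hf, rfl⟩ := el_surj d
    obtain ⟨g, hg, rfl⟩ := el_surj e
    exact el_qn (qn_pS (qn f) (qn g))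
  succ_pr_zr {w} d := by
    obtain ⟨f, hf, rfl⟩ := el_surj d
    exact el_qn (qn_p0 (qn f))
  prec_zr {w} a b d := by
    obtain ⟨f, hf, rfl⟩ := el_surj d
    exact el_qn (qn_prec0 a b (qn f))
  prec_succ {w} a b d e := by
    obtain ⟨f, hf, rfl⟩ := el_surj d
    obtain ⟨g, hg, rfl⟩ := el_surj e
    exact el_qn (qn_precS a b (qn f) (qn g))
  trec_zr {w} a b d := by
    obtain ⟨f, hf, rfl⟩ := el_surj d
    exact el_qn (qn_trec0 a b (qn f))
  trec_succ {w} a b d e := by
    obtain ⟨f, hf, rfl⟩ := el_surj d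
    obtain ⟨g, hg, rfl⟩ := el_surj e
    exact el_qn (qn_trecS a b (qn f) (qn g))
  succ_ne {w} d h := by
    obtain ⟨f, hf, rfl⟩ := el_surj d
    have h1 : eq (comp succ f) zero ∈ w.G := el_eq.1 h
    refine w.nb (w.up _ h1 _ (Fs.bot _).1 ?_)
    have h2 : Le (V := V) (sub (eq succ zero) f) bot :=
      (Le.sub (Prv.ax Ax.sZ) f).trans (Prv.ax (Ax.subBot _))
    exact ((eq_le (Prv.ax (Ax.refl _)) (eq_symm (Prv.ax (Ax.zeroC f)))).trans
      (Prv.ax (Ax.eqSub _ _ _))).trans h2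
  succ_inj {w} d e h := by
    obtain ⟨f, hf, rfl⟩ := el_surj d
    obtain ⟨g, hg, rfl⟩ := el_surj e
    have h1 : eq (comp succ f) (comp succ g) ∈ w.G := el_eq.1 h
    refine el_eq.2 (w.upE h1 hf hg ?_)
    have h2 : Le (V := V) (sub (eq (comp succ left) (comp succ right)) (pair f g))
      (sub (eq left right) (pair f g)) := Le.sub (Prv.ax Ax.sI) _
    have h3 : Prv (eq (comp (comp succ left) (pair f g)) (comp succ f)) := by
      rw [← qn_eq]
      simp only [qn_comp, qn_pair, mul_assoc, qn_left_pr]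
    have h4 : Prv (eq (comp (comp succ right) (pair f g)) (comp succ g)) := by
      rw [← qn_eq]
      simp only [qn_comp, qn_pair, mul_assoc, qn_right_pr]
    have h5 : Le (eq (comp succ f) (comp succ g))
        (sub (eq (comp succ left) (comp succ right)) (pair f g)) :=
      (eq_le h3 (eq_symm h4)).trans (Prv.ax (Ax.eqSub _ _ _))
    exact (h5.trans h2).trans (Le.trans (Prv.ax (Ax.subEq _ _ _))
      (eq_le (eq_symm (Prv.ax (Ax.leftP _ _))) (Prv.ax (Ax.rightP _ _))))
  ind P {w} d h0 h1 n := by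
    obtain ⟨f, hf, rfl⟩ := el_surj d
    obtain ⟨g, hg, rfl⟩ := el_surj n
    have h0' : sub P (pair f zero) ∈ w.G := (truth P _ _).1 h0
    have h2 : sub (all (imp P (sub P (pair left (comp succ right))))) f ∈ w.G := by
      rw [← truth _ f hf]
      intro v hwv e v' hvv' h3
      obtain ⟨k, hk, rfl⟩ := el_surj e
      have h4 := h1 (hwv.trans hvv') (el k (hk.mono hvv'.1)) h3
      have h5 := (truth P _ _).1 h4
      show (canD V).F P ((canD V).fn (pair left (comp succ right))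
        ((canD V).tr (w := v) (v := v') hvv' ((canD V).pr _ _)))
      refine (truth P _ _).2 (v'.upS h5 (((hf.mono (hwv.trans hvv').1).pair
        (hk.mono hvv'.1)).comp _) (sub_congr P ?_))
      rw [← qn_eq]
      simp only [qn_comp, qn_pair, mul_assoc, qn_pr_mul, qn_right_pr, qn_left_pr]
    have h3 : Le (conj (sub P (pair f zero))
        (sub (all (imp P (sub P (pair left (comp succ right))))) f)) (sub (all P) f) := by
      have h4 := Le.sub (Prv.ax (Ax.ind P)) f
      have h5 : Le (sub P (pair f zero)) (sub (sub P (pair idn zero)) f) := by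
        refine (sub_congr P ?_).trans (subComp_le _ _ _)
        rw [← qn_eq]
        simp only [qn_comp, qn_pair, qn_pr_mul, qn_zero_mul, qn_idn, one_mul]
      exact Le.uncurry ((h5.trans h4).trans (Prv.ax (Ax.subImp _ _ _)))
    exact (truth P _ _).2 (w.upS (w.cj _ h0' _ h2) (hf.pair hg) (h3.trans (all_elim _ _ _)))

/-- Formulas which hold in all Kripke models are provable. -/
theorem complete [Countable V] {P : Fm V}
    (h : ∀ (M : Kr V) {w : M.W} (d : M.D w), M.F P d) : Prv P := by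
  by_contra hn
  have hA : {i : ℕ | i ≠ 0}.Infinite := by
    refine Set.infinite_of_injective_forall_mem (f := fun n : ℕ => n + 1) ?_ ?_
    · intro m n h
      simpa using h
    · intro n
      simp
  have hg : Dm {i : ℕ | i ≠ 0} (left : Fn V) := Dm.get (j := 0) (by simp)
  obtain ⟨w, hwA, _, hq⟩ := exists_world (V := V) hA
    (G0 := {imp bot bot}) (q := sub P left) (by
      rintro p rfl i _
      exact (Fr.bot i).imp (Fr.bot i)) ⟨_, rfl⟩ (by
      rintro p rfl p' rfl
      exact ⟨_, rfl, Le.refl _, Le.refl _⟩) (hg.sub P).1 (by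
      rintro c rfl h1
      exact hn (prv_of_sub_left (Prv.mp h1 (Le.refl _))))
  have h1 := h (can V) (w := w) (el left (hg.mono hwA))
  exact hq ((truth P _ _).1 h1)

end HAr
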