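import Pool.Agent.Lib.MP_61e577_lc.Ar.Sch

/-! The arithmetised proof predicate: the conclusion of a proof code; schematic necessitation. -/

namespace HAr

open Fn Fm

variable {V U : Type} {M : Kr V} {w : M.W}

theorem Kr.cnd_zr {t f g : Fn V} {d : M.D w} (h : M.fn t d = M.zr) :
    M.fn (cnd t f g) d = M.fn f d := by simp [cnd, h]

theorem Kr.cnd_S {t f g : Fn V} {d n : M.D w} (h : M.fn t d = M.S n) :
    M.fn (cnd t f g) d = M.fn g d := by simp [cnd, h]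

theorem Kr.cnq_eq {s t f g : Fn V} {d : M.D w} (h : M.fn s d = M.fn t d) :
    M.fn (cnq s t f g) d = M.fn f d := by
  refine M.cnd_zr ?_
  have := Kr.dst_eq_zr.2 h
  simpa [Kr.dst] using this

theorem Kr.cnq_ne {s t f g : Fn V} {d : M.D w} (h : M.fn s d ≠ M.fn t d) :
    M.fn (cnq s t f g) d = M.fn g d := by
  rcases M.eq_or_ne (M.fn s d) (M.fn t d) with e | ⟨m, e⟩
  · exact absurd e h
  · exact M.cnd_S (n := m) (by simpa [Kr.dst] using e)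

/-- The code of `eq zero zero`. -/
abbrev Kr.tc (M : Kr V) {w : M.W} : M.D w := M.nd 0 (M.nd 1 M.zr M.zr) (M.nd 1 M.zr M.zr)

@[simp] theorem Kr.fn_topF (d : M.D w) : M.fn topF d = M.tc := by simp [topF]

/-- The code of `left`. -/
abbrev Kr.lc (M : Kr V) {w : M.W} : M.D w := M.nd 3 M.zr M.zr

theorem Kr.mp_im (a b : M.D w) : M.fn mpF (M.pr (M.im a b) a) = b := by
  rw [mpF, Kr.cnq_eq] <;> simp

theorem Kr.mp_cases (a b : M.D w) : M.fn mpF (M.pr a b) = M.tc ∨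
    a = M.im b (M.fn mpF (M.pr a b)) := by
  by_cases h : a = M.im b (M.tl (M.tl a))
  · right
    conv_rhs => rw [h, Kr.mp_im]
    exact h
  · left
    rw [mpF, Kr.cnq_ne] <;> simp
    exact h

theorem Kr.exE_im (a b : M.D w) : M.fn exEF (M.im a (M.sbc b M.lc)) = M.im (M.exc a) b := by
  rw [exEF, Kr.cnq_eq] <;> simp

theorem Kr.exE_cases (u : M.D w) : M.fn exEF u = M.tc ∨
    ∃ a b, u = M.im a (M.sbc b M.lc) ∧ M.fn exEF u = M.im (M.exc a) b := by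
  by_cases h : u = M.im (M.hd (M.tl u)) (M.sbc (M.hd (M.tl (M.tl (M.tl u)))) M.lc)
  · right
    refine ⟨_, _, h, ?_⟩
    conv_lhs => rw [h, Kr.exE_im]
  · left
    rw [exEF, Kr.cnq_ne] <;> simp
    exact h

theorem Kr.allI_im (a b : M.D w) : M.fn allIF (M.im (M.sbc a M.lc) b) = M.im a (M.alc b) := by
  rw [allIF, Kr.cnq_eq] <;> simp

theorem Kr.allI_cases (u : M.D w) : M.fn allIF u = M.tc ∨
    ∃ a b, u = M.im (M.sbc a M.lc) b ∧ M.fn allIF u = M.im a (M.alc b) := by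
  by_cases h : u = M.im (M.sbc (M.hd (M.tl (M.hd (M.tl u)))) M.lc) (M.tl (M.tl u))
  · right
    refine ⟨_, _, h, ?_⟩
    conv_lhs => rw [h, Kr.allI_im]
  · left
    rw [allIF, Kr.cnq_ne] <;> simp
    exact h

theorem Kr.fn_axmF {k : ℕ} (hk : k < 47) (d : M.D w) : M.fn axmF (M.pr d (M.nm k)) =
    M.icm (fun i => M.nfn (M.fn (prj i) d)) (fun i => M.nfm (M.fn (prj i) d)) (axs[k]'hk) := by
  have h47 : axs.length = 47 := rfl
  rw [axmF, Kr.sw_nm (by simpa [h47] using hk)]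
  rw [List.getElem_map, Kr.fn_cdm]
  simp only [M.fn_comp, Kr.fn_nfnF, Kr.fn_nfmF]
  rfl

theorem Kr.axm_cases (d n : M.D w) : M.fn axmF (M.pr d n) = M.tc ∨
    ∃ (k : ℕ) (hk : k < 47), M.fn axmF (M.pr d n) =
    M.icm (fun i => M.nfn (M.fn (prj i) d)) (fun i => M.nfm (M.fn (prj i) d)) (axs[k]'hk) := by
  rcases M.small_or 47 n with ⟨k, hk, rfl⟩ | ⟨b, rfl⟩
  · exact Or.inr ⟨k, hk, Kr.fn_axmF hk d⟩
  · left
    have := M.sw_up (fs := axs.map (cdm (fun i => comp nfnF (prj i)) (fun i => comp nfmF (prj i))))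
      (d := topF) (a := d) (n := b)
    rw [List.length_map, show axs.length = 47 from rfl] at this
    rw [axmF, this, Kr.fn_topF]

def Kr.cc (M : Kr V) {w : M.W} (p : M.D w) : M.D w := M.fn conclF p

@[simp] theorem Kr.fn_conclF (a : M.D w) : M.fn conclF a = M.cc a := rfl
@[simp] theorem Kr.tr_cc {v : M.W} (h : w ≤ v) (a : M.D w) :
    M.tr h (M.cc a) = M.cc (M.tr h a) := M.tr_fn h _ a

@[simp] theorem Kr.cc_zr : M.cc (M.zr (w := w)) = M.tc := by simp [Kr.cc, conclF]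

theorem Kr.cc_cs (t m : M.D w) : M.cc (M.cs t m) = M.fn (sw ccL topF)
    (M.pr (M.pr (M.pr (M.cc (M.hd m)) (M.cc (M.tl m))) m) t) := by
  simp only [Kr.cc, conclF, M.fn_comp, M.fn_pair, M.fn_zero, M.fn_idn, Kr.frec_cs, M.left_pr,
    M.right_pr]

theorem Kr.cc_ax (n d : M.D w) : M.cc (M.cs M.zr (M.pr n d)) = M.fn axmF (M.pr d n) := by
  rw [Kr.cc_cs]; simp [ccL]

theorem Kr.cc_cs1 (m : M.D w) : M.cc (M.cs (M.nm 1) m) =
    M.fn mpF (M.pr (M.cc (M.hd m)) (M.cc (M.tl m))) := by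
  rw [Kr.cc_cs]; simp [ccL, Kr.nm]

theorem Kr.cc_cs2 (m : M.D w) : M.cc (M.cs (M.nm 2) m) =
    M.sbc (M.cc (M.hd m)) (M.nfn (M.tl m)) := by
  rw [Kr.cc_cs]; simp [ccL, Kr.nm]

theorem Kr.cc_cs3 (m : M.D w) : M.cc (M.cs (M.nm 3) m) = M.fn exEF (M.cc (M.hd m)) := by
  rw [Kr.cc_cs]; simp [ccL, Kr.nm]

theorem Kr.cc_cs4 (m : M.D w) : M.cc (M.cs (M.nm 4) m) = M.fn allIF (M.cc (M.hd m)) := by
  rw [Kr.cc_cs]; simp [ccL, Kr.nm]

theorem Kr.cc_mp (p q : M.D w) : M.cc (M.nd 1 p q) = M.fn mpF (M.pr (M.cc p) (M.cc q)) := by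
  rw [Kr.nd, Kr.cc_cs1]; simp

theorem Kr.cc_sb (p f : M.D w) : M.cc (M.nd 2 p f) = M.sbc (M.cc p) (M.nfn f) := by
  rw [Kr.nd, Kr.cc_cs2]; simp

theorem Kr.cc_exE (p q : M.D w) : M.cc (M.nd 3 p q) = M.fn exEF (M.cc p) := by
  rw [Kr.nd, Kr.cc_cs3]; simp

theorem Kr.cc_allI (p q : M.D w) : M.cc (M.nd 4 p q) = M.fn allIF (M.cc p) := by
  rw [Kr.nd, Kr.cc_cs4]; simp

/-- The code is an instance of an axiom scheme. -/
def Kr.IsAx (M : Kr V) {w : M.W} (a : M.D w) : Prop :=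
  ∃ (k : ℕ) (hk : k < 47) (ρ τ : ℕ → M.D w), (∀ i, M.gf (ρ i)) ∧ (∀ i, M.gm (τ i)) ∧
    a = M.icm ρ τ (axs[k]'hk)

/-- The default conclusion is an axiom. -/
theorem Kr.isAx_tc : M.IsAx (M.tc (w := w)) :=
  ⟨23, by decide, fun _ => M.nd 1 M.zr M.zr, fun _ => M.btc,
    fun _ => M.gf_small (by norm_num), fun _ => by simp, rfl⟩

theorem Kr.isAx_gm {a : M.D w} (h : M.IsAx a) : M.gm a := by
  obtain ⟨k, hk, ρ, τ, hρ, hτ, rfl⟩ := h
  exact Kr.gm_icm hρ hτ _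

/-- Case distinction for the conclusion of a proof code. -/
theorem Kr.cc_cases (t m : M.D w) :
    M.IsAx (M.cc (M.cs t m)) ∨
    M.cc (M.hd m) = M.im (M.cc (M.tl m)) (M.cc (M.cs t m)) ∨
    (∃ f, M.gf f ∧ M.cc (M.cs t m) = M.sbc (M.cc (M.hd m)) f) ∨
    (∃ a b, M.cc (M.hd m) = M.im a (M.sbc b M.lc) ∧ M.cc (M.cs t m) = M.im (M.exc a) b) ∨
    (∃ a b, M.cc (M.hd m) = M.im (M.sbc a M.lc) b ∧ M.cc (M.cs t m) = M.im a (M.alc b)) := by
  have top : M.cc (M.cs t m) = M.tc → M.IsAx (M.cc (M.cs t m)) := fun h => by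
    rw [h]; exact M.isAx_tc
  rcases M.small_or 5 t with ⟨k, hk, rfl⟩ | ⟨b, rfl⟩
  · interval_cases k
    · left
      rw [← M.pr_eta m, Kr.nm_zero, Kr.cc_ax]
      rcases M.axm_cases (M.fn right m) (M.fn left m) with h | ⟨k, hk, h⟩
      · rw [h]; exact M.isAx_tc
      · exact ⟨k, hk, _, _, fun i => M.gf_nfn _, fun i => M.gm_nfm _, h⟩
    · rw [Kr.cc_cs1]
      rcases M.mp_cases (M.cc (M.hd m)) (M.cc (M.tl m)) with h | h
      · left; rw [h]; exact M.isAx_tc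
      · exact Or.inr (Or.inl h)
    · rw [Kr.cc_cs2]
      exact Or.inr (Or.inr (Or.inl ⟨_, M.gf_nfn _, rfl⟩))
    · rw [Kr.cc_cs3]
      rcases M.exE_cases (M.cc (M.hd m)) with h | h
      · left; rw [h]; exact M.isAx_tc
      · exact Or.inr (Or.inr (Or.inr (Or.inl h)))
    · rw [Kr.cc_cs4]
      rcases M.allI_cases (M.cc (M.hd m)) with h | h
      · left; rw [h]; exact M.isAx_tc
      · exact Or.inr (Or.inr (Or.inr (Or.inr h)))
  · left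
    refine top ?_
    rw [Kr.cc_cs]
    have := M.sw_up (fs := ccL) (d := topF)
      (a := M.pr (M.pr (M.cc (M.hd m)) (M.cc (M.tl m))) m) (n := b)
    rw [show (ccL (V := V)).length = 5 from rfl] at this
    rw [this, Kr.fn_topF]

/-! ### Provability -/

/-- `a` is the conclusion of a proof code. -/
def Kr.Pv (M : Kr V) {w : M.W} (a : M.D w) : Prop := ∃ p, M.cc p = a

theorem Kr.F_prT {f : Fn V} {d : M.D w} : M.F (prT f) d ↔ M.Pv (M.fn f d) := by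
  simp [prT, KD.F, Kr.Pv]

theorem Kr.Pv_mono {v : M.W} (h : w ≤ v) {a : M.D w} (k : M.Pv a) : M.Pv (M.tr h a) := by
  obtain ⟨p, rfl⟩ := k
  exact ⟨M.tr h p, by simp⟩

theorem Kr.Pv_mp {a b : M.D w} (h : M.Pv (M.im a b)) (k : M.Pv a) : M.Pv b := by
  obtain ⟨p, hp⟩ := h
  obtain ⟨q, rfl⟩ := k
  exact ⟨M.nd 1 p q, by rw [Kr.cc_mp, hp, Kr.mp_im]⟩

theorem Kr.Pv_sb {a f : M.D w} (h : M.Pv a) (hf : M.gf f) : M.Pv (M.sbc a f) := by
  obtain ⟨p, rfl⟩ := h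
  refine ⟨M.nd 2 p f, ?_⟩
  rw [Kr.cc_sb]
  have : M.nfn f = f := hf
  rw [this]

theorem Kr.Pv_exE {a b : M.D w} (h : M.Pv (M.im a (M.sbc b M.lc))) :
    M.Pv (M.im (M.exc a) b) := by
  obtain ⟨p, hp⟩ := h
  exact ⟨M.nd 3 p M.zr, by rw [Kr.cc_exE, hp, Kr.exE_im]⟩

theorem Kr.Pv_allI {a b : M.D w} (h : M.Pv (M.im (M.sbc a M.lc) b)) :
    M.Pv (M.im a (M.alc b)) := by
  obtain ⟨p, hp⟩ := h
  exact ⟨M.nd 4 p M.zr, by rw [Kr.cc_allI, hp, Kr.allI_im]⟩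

/-- Induction on proof codes. -/
theorem Kr.cc_ind (P : Fm V) {w : M.W} (a : M.D w)
    (hax : ∀ {v : M.W} (h : w ≤ v) (p : M.D v), M.IsAx (M.cc p) → M.F P (M.pr (M.tr h a) p))
    (hS : ∀ {v : M.W} (h : w ≤ v) (t m : M.D v), M.F P (M.pr (M.tr h a) (M.hd m)) →
      M.F P (M.pr (M.tr h a) (M.tl m)) →
      (M.cc (M.hd m) = M.im (M.cc (M.tl m)) (M.cc (M.cs t m)) ∨
      (∃ f, M.gf f ∧ M.cc (M.cs t m) = M.sbc (M.cc (M.hd m)) f) ∨
      (∃ a b, M.cc (M.hd m) = M.im a (M.sbc b M.lc) ∧ M.cc (M.cs t m) = M.im (M.exc a) b) ∨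
      (∃ a b, M.cc (M.hd m) = M.im (M.sbc a M.lc) b ∧ M.cc (M.cs t m) = M.im a (M.alc b))) →
      M.F P (M.pr (M.tr h a) (M.cs t m))) (p : M.D w) : M.F P (M.pr a p) := by
  refine M.find P a ?_ ?_ p
  · have := hax (le_refl w) M.zr (by rw [Kr.cc_zr]; exact M.isAx_tc)
    simpa using this
  · intro v h t m h1 h2
    rcases M.cc_cases t m with h3 | h3
    · exact hax h _ h3
    · exact hS h t m h1 h2 h3

/-- Conclusions are good codes. -/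
theorem Kr.gm_cc (p : M.D w) : M.gm (M.cc p) := by
  have := M.cc_ind (eq (comp nfmF (comp conclF right)) (comp conclF right)) M.zr
    (fun {v} h p hp => by simpa [KD.F, Kr.gm] using M.isAx_gm hp)
    (fun {v} h t m h1 h2 h3 => by
      have h1 : M.gm (M.cc (M.hd m)) := by simpa [KD.F, Kr.gm] using h1
      have h2 : M.gm (M.cc (M.tl m)) := by simpa [KD.F, Kr.gm] using h2
      suffices M.gm (M.cc (M.cs t m)) by simpa [KD.F, Kr.gm] using this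
      rcases h3 with h3 | ⟨f, hf, h3⟩ | ⟨a, b, h3, h4⟩ | ⟨a, b, h3, h4⟩
      · rw [h3] at h1
        exact ((Kr.gm_bin (by norm_num) (by norm_num)).1 h1).2
      · rw [h3]
        simp [h1, hf]
      · rw [h3] at h1
        rw [h4]
        simp at h1 ⊢
        exact ⟨h1.1, h1.2.1⟩
      · rw [h3] at h1
        rw [h4]
        simp at h1 ⊢
        exact ⟨h1.1.1, h1.2⟩) p
  simpa [KD.F, Kr.gm] using this

theorem Kr.Pv_gm {a : M.D w} (h : M.Pv a) : M.gm a := by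
  obtain ⟨p, rfl⟩ := h
  exact M.gm_cc p

/-! ### Axioms are provable; schematic necessitation -/

/-- The first entries of a sequence. -/
def Kr.sq4 (M : Kr V) {w : M.W} (a b c d : M.D w) : M.D w :=
  M.pr a (M.pr b (M.pr c (M.pr d M.zr)))

theorem Kr.Pv_axm {k : ℕ} (hk : k < 47) {ρ τ : ℕ → M.D w} (hρ : ∀ i, M.gf (ρ i))
    (hτ : ∀ i, M.gm (τ i)) : M.Pv (M.icm ρ τ (axs[k]'hk)) := by
  have h1 : ∀ i, M.nfn (ρ i) = ρ i := hρ
  have h2 : ∀ i, M.nfm (τ i) = τ i := hτ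
  have key : ∀ x : M.D w, (M.icm (fun i => M.nfn (M.fn (prj i) x))
      (fun i => M.nfm (M.fn (prj i) x)) (axs[k]'hk) = M.icm ρ τ (axs[k]'hk)) →
      M.Pv (M.icm ρ τ (axs[k]'hk)) := fun x e =>
    ⟨M.cs M.zr (M.pr (M.nm k) x), by rw [Kr.cc_ax, Kr.fn_axmF hk, e]⟩
  interval_cases k
  all_goals first
    | refine key (M.sq4 (τ 0) (τ 1) (τ 2) (τ 3)) ?_
      simp [axs, Kr.icm, Kr.icf, prj, Kr.sq4, h2, lft]
      done
    | refine key (M.sq4 (τ 0) (τ 1) (ρ 2) (ρ 3)) ?_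
      simp [axs, Kr.icm, Kr.icf, prj, Kr.sq4, h1, h2, lft]
      done
    | refine key (M.sq4 (τ 0) (ρ 1) (ρ 2) (ρ 3)) ?_
      simp [axs, Kr.icm, Kr.icf, prj, Kr.sq4, h1, h2, lft]
      done
    | refine key (M.sq4 (ρ 0) (ρ 1) (ρ 2) (ρ 3)) ?_
      simp [axs, Kr.icm, Kr.icf, prj, Kr.sq4, h1, lft]

theorem Kr.Pv_ax {a : M.D w} (h : M.IsAx a) : M.Pv a := by
  obtain ⟨k, hk, ρ, τ, hρ, hτ, rfl⟩ := h
  exact Kr.Pv_axm hk hρ hτ

/-- Schematic necessitation: internal instances of provable schemes are provable. -/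
theorem Kr.D1 {φ : Fm U} (h : Prv φ) {w : M.W} {ρ τ : U → M.D w} (hρ : ∀ i, M.gf (ρ i))
    (hτ : ∀ i, M.gm (τ i)) : M.Pv (M.icm ρ τ φ) := by
  induction h with
  | ax h =>
    obtain ⟨k, hk, r, t, rfl⟩ := ax_axs h
    rw [Kr.icm_ms]
    exact Kr.Pv_axm hk (fun i => Kr.gf_icf hρ _) (fun i => Kr.gm_icm hρ hτ _)
  | mp _ _ h1 h2 => exact Kr.Pv_mp h1 h2
  | sb f _ h => exact Kr.Pv_sb h (Kr.gf_icf hρ f)
  | exE _ h => exact Kr.Pv_exE h
  | allI _ h => exact Kr.Pv_allI h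

end HAr
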