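import Pool.Agent.Lib.MP_61e577_lc.SynD

/-! Heyting arithmetic with symbols for all primitive recursive functions, in one variable
(a number codes a tuple by iterated Cantor pairing) and with explicit substitution; codes of
formulas and derivations; the provability predicate, the box translation, HA*, and the
arithmetical interpretations of modal formulas. The type `V` indexes metavariables for functions
and formulas; arithmetic proper is the case of no metavariables. -/

namespace HAr

/-- Unary functions. `prec` is primitive recursion on the second component, `trec` recursion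
along the pairing tree, both with the first component as parameter. -/
inductive Fn (V : Type) : Type
  | mv : V → Fn V
  | idn : Fn V
  | zero : Fn V
  | succ : Fn V
  | left : Fn V
  | right : Fn V
  | pair : Fn V → Fn V → Fn V
  | comp : Fn V → Fn V → Fn V
  | prec : Fn V → Fn V → Fn V
  | trec : Fn V → Fn V → Fn V
  deriving DecidableEq

/-- Formulas in one variable `x`. `ex P` is `exists y, P (x, y)`, `sub P f` is `P (f x)`. -/
inductive Fm (V : Type) : Type
  | mv : V → Fm V
  | eq : Fn V → Fn V → Fm V
  | bot : Fm V
  | conj : Fm V → Fm V → Fm V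
  | disj : Fm V → Fm V → Fm V
  | imp : Fm V → Fm V → Fm V
  | ex : Fm V → Fm V
  | all : Fm V → Fm V
  | sub : Fm V → Fn V → Fm V
  deriving DecidableEq

open Fn Fm

variable {V U : Type}

/-- `(x, y) ↦ (f x, y)`. -/
def lft (f : Fn V) : Fn V := pair (comp f left) right

/-- The axioms of Heyting arithmetic. -/
inductive Ax : Fm V → Prop
  | k (P Q : Fm V) : Ax (imp P (imp Q P))
  | s (P Q R : Fm V) : Ax (imp (imp P (imp Q R)) (imp (imp P Q) (imp P R)))
  | andI (P Q : Fm V) : Ax (imp P (imp Q (conj P Q)))
  | andL (P Q : Fm V) : Ax (imp (conj P Q) P)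
  | andR (P Q : Fm V) : Ax (imp (conj P Q) Q)
  | orL (P Q : Fm V) : Ax (imp P (disj P Q))
  | orR (P Q : Fm V) : Ax (imp Q (disj P Q))
  | orE (P Q R : Fm V) : Ax (imp (imp P R) (imp (imp Q R) (imp (disj P Q) R)))
  | botE (P : Fm V) : Ax (imp bot P)
  | exI (P : Fm V) : Ax (imp P (sub (ex P) left))
  | allE (P : Fm V) : Ax (imp (sub (all P) left) P)
  | subImp (P Q : Fm V) (f : Fn V) : Ax (imp (sub (imp P Q) f) (imp (sub P f) (sub Q f)))
  | impSub (P Q : Fm V) (f : Fn V) : Ax (imp (imp (sub P f) (sub Q f)) (sub (imp P Q) f))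
  | subOr (P Q : Fm V) (f : Fn V) : Ax (imp (sub (disj P Q) f) (disj (sub P f) (sub Q f)))
  | subBot (f : Fn V) : Ax (imp (sub bot f) bot)
  | subEx (P : Fm V) (f : Fn V) : Ax (imp (sub (ex P) f) (ex (sub P (lft f))))
  | allSub (P : Fm V) (f : Fn V) : Ax (imp (all (sub P (lft f))) (sub (all P) f))
  | subEq (f g h : Fn V) : Ax (imp (sub (eq f g) h) (eq (comp f h) (comp g h)))
  | eqSub (f g h : Fn V) : Ax (imp (eq (comp f h) (comp g h)) (sub (eq f g) h))
  | subSub (P : Fm V) (f g : Fn V) : Ax (imp (sub (sub P f) g) (sub P (comp f g)))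
  | subComp (P : Fm V) (f g : Fn V) : Ax (imp (sub P (comp f g)) (sub (sub P f) g))
  | subId (P : Fm V) : Ax (imp (sub P idn) P)
  | idSub (P : Fm V) : Ax (imp P (sub P idn))
  | refl (f : Fn V) : Ax (eq f f)
  | symm (f g : Fn V) : Ax (imp (eq f g) (eq g f))
  | trans (f g h : Fn V) : Ax (imp (eq f g) (imp (eq g h) (eq f h)))
  | congP (f f' g g' : Fn V) : Ax (imp (eq f f') (imp (eq g g') (eq (pair f g) (pair f' g'))))
  | congC (f g g' : Fn V) : Ax (imp (eq g g') (eq (comp f g) (comp f g')))
  | leib (P : Fm V) (f g : Fn V) : Ax (imp (eq f g) (imp (sub P f) (sub P g)))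
  | compA (f g h : Fn V) : Ax (eq (comp (comp f g) h) (comp f (comp g h)))
  | idL (f : Fn V) : Ax (eq (comp idn f) f)
  | idR (f : Fn V) : Ax (eq (comp f idn) f)
  | zeroC (f : Fn V) : Ax (eq (comp zero f) zero)
  | leftP (f g : Fn V) : Ax (eq (comp left (pair f g)) f)
  | rightP (f g : Fn V) : Ax (eq (comp right (pair f g)) g)
  | pairC (f g h : Fn V) : Ax (eq (comp (pair f g) h) (pair (comp f h) (comp g h)))
  | pairE : Ax (eq (pair left right) idn)
  | p00 : Ax (eq (pair zero zero) zero)
  | pS : Ax (eq (comp succ (pair left (comp succ right))) (pair (comp succ left) right))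
  | p0 : Ax (eq (comp succ (pair idn zero)) (pair zero succ))
  | prec0 (f g : Fn V) : Ax (eq (comp (prec f g) (pair idn zero)) f)
  | precS (f g : Fn V) : Ax (eq (comp (prec f g) (pair left (comp succ right)))
      (comp g (pair left (pair right (prec f g)))))
  | trec0 (f g : Fn V) : Ax (eq (comp (trec f g) (pair idn zero)) f)
  | trecS (f g : Fn V) : Ax (eq (comp (trec f g) (pair left (comp succ right)))
      (comp g (pair left (pair right (pair (comp (trec f g) (pair left (comp left right)))
        (comp (trec f g) (pair left (comp right right))))))))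
  | sZ : Ax (imp (eq succ zero) bot)
  | sI : Ax (imp (eq (comp succ left) (comp succ right)) (eq left right))
  | ind (P : Fm V) : Ax (imp (sub P (pair idn zero))
      (imp (all (imp P (sub P (pair left (comp succ right))))) (all P)))

/-- Provability in Heyting arithmetic. -/
inductive Prv : Fm V → Prop
  | ax {P : Fm V} : Ax P → Prv P
  | mp {P Q : Fm V} : Prv (imp P Q) → Prv P → Prv Q
  | sb {P : Fm V} (f : Fn V) : Prv P → Prv (sub P f)
  | exE {P Q : Fm V} : Prv (imp P (sub Q left)) → Prv (imp (ex P) Q)
  | allI {P Q : Fm V} : Prv (imp (sub Q left) P) → Prv (imp Q (all P))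

/-- Cantor pairing. -/
def cp (x y : ℕ) : ℕ := (x + y) * (x + y + 1) / 2 + x

/-- Constant numeral functions. -/
def cst : ℕ → Fn V
  | 0 => zero
  | n + 1 => comp succ (cst n)

/-- Predecessor. -/
def predF : Fn V := comp (prec zero (comp left right)) (pair zero idn)

/-- `(a, 0) ↦ f a`, `(a, n + 1) ↦ g (a, n)`. -/
def ifz (f g : Fn V) : Fn V := prec f (comp g (pair left (comp left right)))

/-- Addition. -/
def addF : Fn V := prec idn (comp succ (comp right right))

/-- Truncated subtraction. -/
def monF : Fn V := prec idn (comp predF (comp right right))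

/-- Zero exactly for equal components. -/
def dstF : Fn V := comp addF (pair monF (comp monF (pair right left)))

/-- Case distinction: `f` where `t` is zero, `g` elsewhere. -/
def cnd (t f g : Fn V) : Fn V := comp (ifz f (comp g left)) (pair idn t)

/-- Case distinction on the equality of `s` and `t`. -/
def cnq (s t f g : Fn V) : Fn V := cnd (comp dstF (pair s t)) f g

/-- First component of the predecessor. -/
def hdF : Fn V := comp left predF

/-- Second component of the predecessor. -/
def tlF : Fn V := comp right predF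

/-- Recursion on codes: the recursive calls are on the two components of the body. -/
def frec (c g : Fn V) : Fn V :=
  comp left (trec (pair c (pair c c))
    (pair (comp g (pair left (pair (comp left right) (comp right (comp right (comp right right))))))
      (pair (comp left (comp left (comp right right))) (comp left (comp right (comp right right))))))

/-- Case distinction on small numbers: `(a, k) ↦ fs[k] a`. -/
def sw : List (Fn V) → Fn V → Fn V
  | [], d => comp d left
  | f :: fs, d => ifz f (sw fs d)

/-- Nodes as functions. -/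
def ndF (k : ℕ) (f g : Fn V) : Fn V := comp succ (pair (cst k) (comp succ (pair f g)))

/-- Normalisation of function codes. -/
def nfnF : Fn V := comp (frec (ndF 1 zero zero)
  (comp (sw [ndF 0 zero zero, ndF 1 zero zero, ndF 2 zero zero, ndF 3 zero zero, ndF 4 zero zero,
    ndF 5 left right, ndF 6 left right, ndF 7 left right, ndF 8 left right] (ndF 1 zero zero))
    (pair (comp right right) (comp left (comp left right))))) (pair zero idn)

/-- The cases of the normalisation of formulas, in the environment of the two recursive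
values and the body. -/
def nfmL : List (Fn V) := [ndF 0 (comp nfnF (comp hdF right)) (comp nfnF (comp tlF right)),
  ndF 1 zero zero, ndF 2 (comp left left) (comp right left), ndF 3 (comp left left) (comp right left),
  ndF 4 (comp left left) (comp right left), ndF 5 (comp left left) zero,
  ndF 6 (comp left left) zero, ndF 7 (comp left left) (comp nfnF (comp tlF right))]

/-- Normalisation of formula codes. -/
def nfmF : Fn V := comp (frec (ndF 1 zero zero)
  (comp (sw nfmL (ndF 1 zero zero))
    (pair (pair (comp right right) (comp right (comp left right))) (comp left (comp left right)))))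
  (pair zero idn)

/-- The axiom schemes; metavariables are numbered. -/
def axs : List (Fm ℕ) :=
  [ imp (.mv 0) (imp (.mv 1) (.mv 0)),
    imp (imp (.mv 0) (imp (.mv 1) (.mv 2))) (imp (imp (.mv 0) (.mv 1)) (imp (.mv 0) (.mv 2))),
    imp (.mv 0) (imp (.mv 1) (conj (.mv 0) (.mv 1))),
    imp (conj (.mv 0) (.mv 1)) (.mv 0),
    imp (conj (.mv 0) (.mv 1)) (.mv 1),
    imp (.mv 0) (disj (.mv 0) (.mv 1)),
    imp (.mv 1) (disj (.mv 0) (.mv 1)),
    imp (imp (.mv 0) (.mv 2)) (imp (imp (.mv 1) (.mv 2)) (imp (disj (.mv 0) (.mv 1)) (.mv 2))),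
    imp bot (.mv 0),
    imp (.mv 0) (sub (ex (.mv 0)) left),
    imp (sub (all (.mv 0)) left) (.mv 0),
    imp (sub (imp (.mv 0) (.mv 1)) (.mv 2)) (imp (sub (.mv 0) (.mv 2)) (sub (.mv 1) (.mv 2))),
    imp (imp (sub (.mv 0) (.mv 2)) (sub (.mv 1) (.mv 2))) (sub (imp (.mv 0) (.mv 1)) (.mv 2)),
    imp (sub (disj (.mv 0) (.mv 1)) (.mv 2)) (disj (sub (.mv 0) (.mv 2)) (sub (.mv 1) (.mv 2))),
    imp (sub bot (.mv 0)) bot,
    imp (sub (ex (.mv 0)) (.mv 1)) (ex (sub (.mv 0) (lft (.mv 1)))),
    imp (all (sub (.mv 0) (lft (.mv 1)))) (sub (all (.mv 0)) (.mv 1)),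
    imp (sub (eq (.mv 0) (.mv 1)) (.mv 2)) (eq (comp (.mv 0) (.mv 2)) (comp (.mv 1) (.mv 2))),
    imp (eq (comp (.mv 0) (.mv 2)) (comp (.mv 1) (.mv 2))) (sub (eq (.mv 0) (.mv 1)) (.mv 2)),
    imp (sub (sub (.mv 0) (.mv 1)) (.mv 2)) (sub (.mv 0) (comp (.mv 1) (.mv 2))),
    imp (sub (.mv 0) (comp (.mv 1) (.mv 2))) (sub (sub (.mv 0) (.mv 1)) (.mv 2)),
    imp (sub (.mv 0) idn) (.mv 0),
    imp (.mv 0) (sub (.mv 0) idn),
    eq (.mv 0) (.mv 0),
    imp (eq (.mv 0) (.mv 1)) (eq (.mv 1) (.mv 0)),
    imp (eq (.mv 0) (.mv 1)) (imp (eq (.mv 1) (.mv 2)) (eq (.mv 0) (.mv 2))),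
    imp (eq (.mv 0) (.mv 1)) (imp (eq (.mv 2) (.mv 3)) (eq (pair (.mv 0) (.mv 2))
      (pair (.mv 1) (.mv 3)))),
    imp (eq (.mv 1) (.mv 2)) (eq (comp (.mv 0) (.mv 1)) (comp (.mv 0) (.mv 2))),
    imp (eq (.mv 1) (.mv 2)) (imp (sub (.mv 0) (.mv 1)) (sub (.mv 0) (.mv 2))),
    eq (comp (comp (.mv 0) (.mv 1)) (.mv 2)) (comp (.mv 0) (comp (.mv 1) (.mv 2))),
    eq (comp idn (.mv 0)) (.mv 0),
    eq (comp (.mv 0) idn) (.mv 0),
    eq (comp zero (.mv 0)) zero,
    eq (comp left (pair (.mv 0) (.mv 1))) (.mv 0),
    eq (comp right (pair (.mv 0) (.mv 1))) (.mv 1),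
    eq (comp (pair (.mv 0) (.mv 1)) (.mv 2)) (pair (comp (.mv 0) (.mv 2)) (comp (.mv 1) (.mv 2))),
    eq (pair left right) idn,
    eq (pair zero zero) zero,
    eq (comp succ (pair left (comp succ right))) (pair (comp succ left) right),
    eq (comp succ (pair idn zero)) (pair zero succ),
    eq (comp (prec (.mv 0) (.mv 1)) (pair idn zero)) (.mv 0),
    eq (comp (prec (.mv 0) (.mv 1)) (pair left (comp succ right)))
      (comp (.mv 1) (pair left (pair right (prec (.mv 0) (.mv 1))))),
    eq (comp (trec (.mv 0) (.mv 1)) (pair idn zero)) (.mv 0),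
    eq (comp (trec (.mv 0) (.mv 1)) (pair left (comp succ right)))
      (comp (.mv 1) (pair left (pair right (pair (comp (trec (.mv 0) (.mv 1))
        (pair left (comp left right))) (comp (trec (.mv 0) (.mv 1))
        (pair left (comp right right))))))),
    imp (eq succ zero) bot,
    imp (eq (comp succ left) (comp succ right)) (eq left right),
    imp (sub (.mv 0) (pair idn zero))
      (imp (all (imp (.mv 0) (sub (.mv 0) (pair left (comp succ right))))) (all (.mv 0))) ]

/-- Code building functions. -/
def cdf (ρ : U → Fn V) : Fn U → Fn V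
  | .mv i => ρ i
  | idn => ndF 0 zero zero
  | zero => ndF 1 zero zero
  | succ => ndF 2 zero zero
  | left => ndF 3 zero zero
  | right => ndF 4 zero zero
  | pair f g => ndF 5 (cdf ρ f) (cdf ρ g)
  | comp f g => ndF 6 (cdf ρ f) (cdf ρ g)
  | prec f g => ndF 7 (cdf ρ f) (cdf ρ g)
  | trec f g => ndF 8 (cdf ρ f) (cdf ρ g)

/-- Code building functions. -/
def cdm (ρ τ : U → Fn V) : Fm U → Fn V
  | .mv i => τ i
  | eq f g => ndF 0 (cdf ρ f) (cdf ρ g)
  | bot => ndF 1 zero zero
  | conj P Q => ndF 2 (cdm ρ τ P) (cdm ρ τ Q)
  | disj P Q => ndF 3 (cdm ρ τ P) (cdm ρ τ Q)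
  | imp P Q => ndF 4 (cdm ρ τ P) (cdm ρ τ Q)
  | ex P => ndF 5 (cdm ρ τ P) zero
  | all P => ndF 6 (cdm ρ τ P) zero
  | sub P f => ndF 7 (cdm ρ τ P) (cdf ρ f)

/-- The code of `eq zero zero` as a function. -/
def topF : Fn V := ndF 0 (ndF 1 zero zero) (ndF 1 zero zero)

/-- Modus ponens on codes. -/
def mpF : Fn V := cnq left (ndF 4 right (comp tlF (comp tlF left))) (comp tlF (comp tlF left)) topF

/-- The rule for the existential quantifier on codes. -/
def exEF : Fn V := cnq idn (ndF 4 (comp hdF tlF) (ndF 7 (comp hdF (comp tlF (comp tlF tlF)))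
  (ndF 3 zero zero))) (ndF 4 (ndF 5 (comp hdF tlF) zero) (comp hdF (comp tlF (comp tlF tlF)))) topF

/-- The rule for the universal quantifier on codes. -/
def allIF : Fn V := cnq idn (ndF 4 (ndF 7 (comp hdF (comp tlF (comp hdF tlF)))
  (ndF 3 zero zero)) (comp tlF tlF)) (ndF 4 (comp hdF (comp tlF (comp hdF tlF)))
  (ndF 6 (comp tlF tlF) zero)) topF

/-- Entries of a sequence. -/
def prj : ℕ → Fn V
  | 0 => left
  | i + 1 => comp (prj i) right

/-- Instances of axioms: at data and scheme number. -/
def axmF : Fn V := sw (axs.map (cdm (fun i => comp nfnF (prj i)) (fun i => comp nfmF (prj i)))) topF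

/-- The cases of the conclusion function, in the environment of the conclusions of the two
subproofs and the body. -/
def ccL : List (Fn V) := [comp axmF (pair (comp right right) (comp left right)), comp mpF left,
  ndF 7 (comp left left) (comp nfnF (comp tlF right)), comp exEF (comp left left),
  comp allIF (comp left left)]

/-- The conclusion of a proof code. -/
def conclF : Fn V := comp (frec topF
  (comp (sw ccL topF)
    (pair (pair (comp right right) (comp right (comp left right))) (comp left (comp left right)))))
  (pair zero idn)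

/-- The formula `the value of f is provable`. -/
def prT (f : Fn V) : Fm V := ex (eq (comp conclF right) (comp f left))

/-- The numeral of a number, as a function code. -/
def numF : Fn V :=
  comp (prec (ndF 1 zero zero) (ndF 6 (ndF 2 zero zero) (comp right right))) (pair zero idn)

/-- The formula: the value of `c` is provable at the argument. -/
def bxT (c : Fn V) : Fm V := prT (ndF 7 c numF)

/-- The function which computes `bxC`. -/
def bxCF : Fn V := cdm (fun _ => numF) (fun _ => topF) (bxT (.mv 0) : Fm ℕ)

/-- The cases of a translation, in the environment of the two recursive values, the body and the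
parameter. -/
def trL (qF bF rF : Fn V) : List (Fn V) :=
  [comp qF (pair (comp right right) (comp succ (pair (cst 0) (comp left right)))),
   comp rF (comp right right),
   ndF 2 (comp left left) (comp right left),
   ndF 3 (comp left left) (comp right left),
   ndF 2 (ndF 4 (comp left left) (comp right left)) (comp bF (pair (comp right right)
     (pair (comp succ (pair (cst 4) (comp left right))) (ndF 4 (comp left left) (comp right left))))),
   ndF 5 (comp left left) zero,
   ndF 2 (ndF 6 (comp left left) zero) (comp bF (pair (comp right right)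
     (pair (comp succ (pair (cst 6) (comp left right))) (ndF 6 (comp left left) zero)))),
   ndF 7 (comp left left) (comp tlF (comp left right))]

/-- The general translation: equations by `qF`, falsity by `rF`, implications and universal
quantifications get the additional conjunct computed by `bF` from the original code and the
translated code. -/
def trG (qF bF rF : Fn V) : Fn V := frec rF
  (comp (sw (trL qF bF rF) (comp rF (comp right right)))
    (pair (pair (comp right right) (pair (comp right (comp left right)) left))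
      (comp left (comp left right))))

/-- The box translation on codes, at `(0, a)`. -/
def btG : Fn V := trG (ndF 2 right (comp bxCF right)) (comp bxCF (comp right right))
  (ndF 1 zero zero)

/-- The box translation on codes. -/
def btF : Fn V := comp btG (pair zero idn)

/-- Nodes, on natural numbers. -/
def ndN (k a b : ℕ) : ℕ := cp k (cp a b + 1) + 1

/-- The code of a function. -/
def encF : Fn Empty → ℕ
  | .mv i => i.elim
  | idn => ndN 0 0 0
  | zero => ndN 1 0 0
  | succ => ndN 2 0 0
  | left => ndN 3 0 0
  | right => ndN 4 0 0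
  | pair f g => ndN 5 (encF f) (encF g)
  | comp f g => ndN 6 (encF f) (encF g)
  | prec f g => ndN 7 (encF f) (encF g)
  | trec f g => ndN 8 (encF f) (encF g)

/-- The code of a formula. -/
def encM : Fm Empty → ℕ
  | .mv i => i.elim
  | eq f g => ndN 0 (encF f) (encF g)
  | bot => ndN 1 0 0
  | conj P Q => ndN 2 (encM P) (encM Q)
  | disj P Q => ndN 3 (encM P) (encM Q)
  | imp P Q => ndN 4 (encM P) (encM Q)
  | ex P => ndN 5 (encM P) 0
  | all P => ndN 6 (encM P) 0
  | sub P f => ndN 7 (encM P) (encF f)

/-- The box translation of formulas. -/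
def bx : Fm Empty → Fm Empty
  | .mv i => i.elim
  | eq f g => conj (eq f g) (bxT (cst (encM (eq f g))))
  | bot => bot
  | conj P Q => conj (bx P) (bx Q)
  | disj P Q => disj (bx P) (bx Q)
  | imp P Q => conj (imp (bx P) (bx Q)) (bxT (cst (encM (imp (bx P) (bx Q)))))
  | ex P => ex (bx P)
  | all P => conj (all (bx P)) (bxT (cst (encM (all (bx P)))))
  | sub P f => sub (bx P) f

/-- Provability in HA*. -/
def HAst (P : Fm Empty) : Prop := Prv (bx P)

/-- The provability predicate of HA*: the box translation of the formula with the given code is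
provable in HA. -/
def prS : Fm Empty := prT btF

/-- The arithmetical interpretation of modal formulas; atoms are interpreted by the sentences
`sub (σ n) zero`. -/
def itp (σ : ℕ → Fm Empty) : HAs.Form → Fm Empty
  | .atom n => sub (σ n) zero
  | .bot => bot
  | .conj A B => conj (itp σ A) (itp σ B)
  | .disj A B => disj (itp σ A) (itp σ B)
  | .imp A B => imp (itp σ A) (itp σ B)
  | .box A => sub prS (cst (encM (itp σ A)))

end HAr
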