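import Pool.Agent.Lib.MP_61e577_lc.Ar.Rule

/-! Codes of actual functions and formulas, the standard model, and the adequacy of the
arithmetised proof predicate. -/

namespace HAr

open Fn Fm

variable {V : Type} {M : Kr V} {w : M.W}

/-- No values for no metavariables. -/
def eD (M : Kr V) (w : M.W) : Empty → M.D w := fun i => i.elim

theorem cp_inj {a b c d : ℕ} : cp a b = cp c d ↔ a = c ∧ b = d := by
  constructor
  · intro h
    have h1 : up (cp a b) = up (cp c d) := by rw [h]
    rw [up_mk, up_mk, Prod.mk.injEq] at h1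
    exact h1
  · rintro ⟨rfl, rfl⟩
    rfl

theorem ndN_inj {k a b l c d : ℕ} : ndN k a b = ndN l c d ↔ k = l ∧ a = c ∧ b = d := by
  unfold ndN
  rw [Nat.add_right_cancel_iff, cp_inj, Nat.add_right_cancel_iff, cp_inj]

theorem Kr.nm_ndN (k a b : ℕ) : M.nm (w := w) (ndN k a b) = M.nd k (M.nm a) (M.nm b) := by
  unfold ndN
  show M.S (M.nm (cp k (cp a b + 1))) = _
  rw [M.nm_cp]
  show M.S (M.pr (M.nm k) (M.S (M.nm (cp a b)))) = _
  rw [M.nm_cp]
  rfl

theorem Kr.nm_encF (f : Fn Empty) : M.nm (w := w) (encF f) = M.icf (eD M w) f := by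
  induction f with
  | mv i => exact i.elim
  | idn => rw [encF, M.nm_ndN]; rfl
  | zero => rw [encF, M.nm_ndN]; rfl
  | succ => rw [encF, M.nm_ndN]; rfl
  | left => rw [encF, M.nm_ndN]; rfl
  | right => rw [encF, M.nm_ndN]; rfl
  | pair f g hf hg => rw [encF, M.nm_ndN, hf, hg]; rfl
  | comp f g hf hg => rw [encF, M.nm_ndN, hf, hg]; rfl
  | prec f g hf hg => rw [encF, M.nm_ndN, hf, hg]; rfl
  | trec f g hf hg => rw [encF, M.nm_ndN, hf, hg]; rfl

theorem Kr.nm_encM (P : Fm Empty) : M.nm (w := w) (encM P) = M.icm (eD M w) (eD M w) P := by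
  induction P with
  | mv i => exact i.elim
  | eq f g => rw [encM, M.nm_ndN, M.nm_encF, M.nm_encF]; rfl
  | bot => rw [encM, M.nm_ndN]; rfl
  | conj P Q hP hQ => rw [encM, M.nm_ndN, hP, hQ]; rfl
  | disj P Q hP hQ => rw [encM, M.nm_ndN, hP, hQ]; rfl
  | imp P Q hP hQ => rw [encM, M.nm_ndN, hP, hQ]; rfl
  | ex P hP => rw [encM, M.nm_ndN, hP]; rfl
  | all P hP => rw [encM, M.nm_ndN, hP]; rfl
  | sub P f hP => rw [encM, M.nm_ndN, hP, M.nm_encF]; rfl

theorem Kr.gf_encF (f : Fn Empty) : M.gf (M.nm (w := w) (encF f)) := by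
  rw [M.nm_encF]
  exact Kr.gf_icf (fun i => i.elim) f

theorem Kr.gm_encM (P : Fm Empty) : M.gm (M.nm (w := w) (encM P)) := by
  rw [M.nm_encM]
  exact Kr.gm_icm (fun i => i.elim) (fun i => i.elim) P

theorem encF_inj : ∀ f g : Fn Empty, encF f = encF g → f = g := by
  intro f
  induction f with
  | mv i => exact i.elim
  | idn =>
    intro g h
    cases g <;> simp_all [encF, ndN_inj]
    rename_i i
    exact i.elim
  | zero =>
    intro g h
    cases g <;> simp_all [encF, ndN_inj]
    rename_i i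
    exact i.elim
  | succ =>
    intro g h
    cases g <;> simp_all [encF, ndN_inj]
    rename_i i
    exact i.elim
  | left =>
    intro g h
    cases g <;> simp_all [encF, ndN_inj]
    rename_i i
    exact i.elim
  | right =>
    intro g h
    cases g <;> simp_all [encF, ndN_inj]
    rename_i i
    exact i.elim
  | pair f f' hf hf' =>
    intro g h
    cases g <;> simp [encF, ndN_inj] at h ⊢
    all_goals first
      | exact ⟨hf _ h.1, hf' _ h.2⟩
      | (rename_i i; exact i.elim)
  | comp f f' hf hf' =>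
    intro g h
    cases g <;> simp [encF, ndN_inj] at h ⊢
    all_goals first
      | exact ⟨hf _ h.1, hf' _ h.2⟩
      | (rename_i i; exact i.elim)
  | prec f f' hf hf' =>
    intro g h
    cases g <;> simp [encF, ndN_inj] at h ⊢
    all_goals first
      | exact ⟨hf _ h.1, hf' _ h.2⟩
      | (rename_i i; exact i.elim)
  | trec f f' hf hf' =>
    intro g h
    cases g <;> simp [encF, ndN_inj] at h ⊢
    all_goals first
      | exact ⟨hf _ h.1, hf' _ h.2⟩
      | (rename_i i; exact i.elim)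

theorem encM_inj : ∀ P Q : Fm Empty, encM P = encM Q → P = Q := by
  intro P
  induction P with
  | mv i => exact i.elim
  | eq f g =>
    intro Q h
    cases Q <;> simp [encM, ndN_inj] at h ⊢
    all_goals first
      | exact ⟨encF_inj _ _ h.1, encF_inj _ _ h.2⟩
      | (rename_i i; exact i.elim)
  | bot =>
    intro Q h
    cases Q <;> simp_all [encM, ndN_inj]
    rename_i i
    exact i.elim
  | conj P P' hP hP' =>
    intro Q h
    cases Q <;> simp [encM, ndN_inj] at h ⊢
    all_goals first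
      | exact ⟨hP _ h.1, hP' _ h.2⟩
      | (rename_i i; exact i.elim)
  | disj P P' hP hP' =>
    intro Q h
    cases Q <;> simp [encM, ndN_inj] at h ⊢
    all_goals first
      | exact ⟨hP _ h.1, hP' _ h.2⟩
      | (rename_i i; exact i.elim)
  | imp P P' hP hP' =>
    intro Q h
    cases Q <;> simp [encM, ndN_inj] at h ⊢
    all_goals first
      | exact ⟨hP _ h.1, hP' _ h.2⟩
      | (rename_i i; exact i.elim)
  | ex P hP =>
    intro Q h
    cases Q <;> simp [encM, ndN_inj] at h ⊢
    all_goals first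
      | exact hP _ h
      | (rename_i i; exact i.elim)
  | all P hP =>
    intro Q h
    cases Q <;> simp [encM, ndN_inj] at h ⊢
    all_goals first
      | exact hP _ h
      | (rename_i i; exact i.elim)
  | sub P f hP =>
    intro Q h
    cases Q <;> simp [encM, ndN_inj] at h ⊢
    all_goals first
      | exact ⟨hP _ h.1, encF_inj _ _ h.2⟩
      | (rename_i i; exact i.elim)

/-- Functions without metavariables, in a language with metavariables. -/
def Fn.li (f : Fn Empty) : Fn V := f.ms fun i => i.elim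

/-- Formulas without metavariables, in a language with metavariables. -/
def Fm.li (P : Fm Empty) : Fm V := P.ms (fun i => i.elim) fun i => i.elim

/-- The standard model. -/
def std : Kr Empty where
  W := Unit
  D := fun _ => ℕ
  tr := fun _ x => x
  fn := fun f _ x => ev f x
  pr := fun x y => cp x y
  zr := Nat.zero
  pm := fun i => i.elim
  tr_refl := fun _ _ => rfl
  tr_tr := fun _ _ _ => rfl
  tr_fn := fun _ _ _ => rfl
  tr_pr := fun _ _ _ => rfl
  pm_mono := fun _ i => i.elim
  fn_idn := fun _ => rfl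
  fn_zero := fun _ => rfl
  fn_comp := fun _ _ _ => rfl
  fn_pair := fun _ _ _ => rfl
  left_pr := fun d e => by show (up (cp d e)).1 = d; rw [up_mk]
  right_pr := fun d e => by show (up (cp d e)).2 = e; rw [up_mk]
  pr_eta := fun d => cp_up d
  pr_zr := rfl
  succ_pr := fun a b => (cp_succ a b).symm
  succ_pr_zr := fun a => (cp_zero_succ a).symm
  prec_zr := fun f g a => by
    show ev (prec f g) (cp a 0) = ev f a
    simp only [ev, up_mk]
    rfl
  prec_succ := fun f g a n => by
    show ev (prec f g) (cp a (n + 1)) = ev g (cp a (cp n (ev (prec f g) (cp a n))))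
    simp only [ev, up_mk]
  trec_zr := fun f g a => by
    show ev (trec f g) (cp a 0) = ev f a
    simp only [ev, up_mk]
    rw [trn]
  trec_succ := fun f g a n => by
    show ev (trec f g) (cp a (n + 1)) = ev g (cp a (cp n (cp (ev (trec f g) (cp a (up n).1))
      (ev (trec f g) (cp a (up n).2)))))
    simp only [ev, up_mk]
    rw [trn]
  succ_ne := fun a => Nat.succ_ne_zero a
  succ_inj := fun a b h => Nat.succ_injective h
  ind := fun P w a h0 hS n => by
    induction (n : ℕ) with
    | zero => exact h0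
    | succ n ih => exact hS (le_refl w) n ih

/-- The only world of the standard model. -/
def stw : std.W := ()

/-- Elements of the standard model are numbers. -/
def stN (n : ℕ) : std.D stw := n

theorem stN_surj (b : std.D stw) : ∃ n : ℕ, b = stN n := ⟨b, rfl⟩

theorem stN_inj {a b : ℕ} (h : stN a = stN b) : a = b := h

theorem std_F (P : Fm Empty) (x : ℕ) : std.F P (stN x) ↔ tv P x := by
  induction P generalizing x with
  | mv i => exact i.elim
  | eq f g => exact Iff.rfl
  | bot => exact Iff.rfl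
  | conj P Q hP hQ => exact and_congr (hP x) (hQ x)
  | disj P Q hP hQ => exact or_congr (hP x) (hQ x)
  | imp P Q hP hQ =>
    constructor
    · intro h h1
      exact (hQ x).1 (h stw (le_refl _) ((hP x).2 h1))
    · intro h v k h1
      exact (hQ x).2 (h ((hP x).1 h1))
  | ex P hP =>
    constructor
    · rintro ⟨y, hy⟩
      exact ⟨y, (hP (cp x y)).1 hy⟩
    · rintro ⟨y, hy⟩
      exact ⟨y, (hP (cp x y)).2 hy⟩
  | all P hP =>
    constructor
    · intro h y
      exact (hP (cp x y)).1 (h stw (le_refl _) y)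
    · intro h v k y
      exact (hP (cp x y)).2 (h y)
  | sub P f hP => exact hP (ev f x)

theorem std_nm (n : ℕ) : std.nm (w := stw) n = stN n := by
  induction n with
  | zero => rfl
  | succ n ih =>
    show std.S (std.nm (w := stw) n) = _
    rw [ih]
    rfl

theorem std_fn (f : Fn Empty) (x : ℕ) : std.fn f (stN x) = stN (ev f x) := rfl

theorem std_nd (k a b : ℕ) : std.nd k (stN a) (stN b) = stN (ndN k a b) := by
  rw [← std_nm, ← std_nm, ← std_nm, Kr.nm_ndN]

theorem std_zr : std.zr (w := stw) = stN 0 := rfl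

/-- The components of the body of a code are smaller. -/
theorem std_hd_le (x : ℕ) : ∃ a b : ℕ, std.hd (stN x) = stN a ∧ std.tl (stN x) = stN b ∧
    a ≤ x ∧ b ≤ x ∧ (x ≠ 0 → a < x ∧ b < x) := by
  refine ⟨ev hdF x, ev tlF x, rfl, rfl, ?_⟩
  rcases Kr.zr_or_cs (M := std) (stN x) with h | h
  · have h0 : x = 0 := h
    subst h0
    have h1 : std.hd (stN 0) = std.zr := Kr.hd_zr
    have h2 : std.tl (stN 0) = std.zr := Kr.tl_zr
    have h1 : ev hdF 0 = 0 := h1
    have h2 : ev tlF 0 = 0 := h2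
    rw [h1, h2]
    exact ⟨le_rfl, le_rfl, fun h => absurd rfl h⟩
  · have h1 : x = cp (ev hdF x) (ev tlF x) + 1 := h
    have h2 := fst_le (cp (ev hdF x) (ev tlF x))
    rw [up_mk] at h2
    simp only at h2
    omega

theorem stN_cc0 : std.tc (w := stw) = stN (encM (eq zero zero)) := by
  rw [Kr.tc, std_zr, std_nd, std_nd]
  rfl

theorem std_cs_ne {p t m : ℕ} (h : stN p = std.cs (stN t) (stN m)) : p ≠ 0 := by
  rintro rfl
  exact Kr.cs_ne _ _ h.symm

section

attribute [local irreducible] stN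

/-- Every good function code of the standard model is the code of a function. -/
theorem std_gf : ∀ x : ℕ, std.gf (stN x) → ∃ f : Fn Empty, x = encF f := by
  intro x
  induction x using Nat.strong_induction_on with
  | _ x ih =>
  intro h
  rcases Kr.gf_cases h with ⟨k, hk, e⟩ | ⟨k, b, c, h5, h9, hb, hc, e⟩
  · rw [std_zr, std_nd] at e
    have e := stN_inj e
    interval_cases k
    · exact ⟨idn, e⟩
    · exact ⟨zero, e⟩
    · exact ⟨succ, e⟩
    · exact ⟨left, e⟩
    · exact ⟨right, e⟩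
  · obtain ⟨b, rfl⟩ := stN_surj b
    obtain ⟨c, rfl⟩ := stN_surj c
    rw [std_nd] at e
    have e1 := stN_inj e
    have h1 := fst_le (cp b c)
    have h2 := fst_le (cp k (cp b c + 1))
    rw [up_mk] at h1 h2
    simp only at h1 h2
    have hx : x = cp k (cp b c + 1) + 1 := e1
    obtain ⟨f, hf⟩ := ih b (by omega) hb
    obtain ⟨g, hg⟩ := ih c (by omega) hc
    rw [hf, hg] at e1
    interval_cases k
    · exact ⟨pair f g, e1⟩
    · exact ⟨comp f g, e1⟩
    · exact ⟨prec f g, e1⟩
    · exact ⟨trec f g, e1⟩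

/-- Every good formula code of the standard model is the code of a formula. -/
theorem std_gm : ∀ x : ℕ, std.gm (stN x) → ∃ P : Fm Empty, x = encM P := by
  intro x
  induction x using Nat.strong_induction_on with
  | _ x ih =>
  have small : ∀ k b c : ℕ, x = ndN k b c → b < x ∧ c < x := by
    intro k b c e1
    have h1 := fst_le (cp b c)
    have h2 := fst_le (cp k (cp b c + 1))
    rw [up_mk] at h1 h2
    simp only at h1 h2
    have hx : x = cp k (cp b c + 1) + 1 := e1
    omega
  intro h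
  rcases Kr.gm_cases h with ⟨f, g, hf, hg, e⟩ | e | ⟨k, b, c, h2, h5, hb, hc, e⟩ |
    ⟨k, b, h5, h7, hb, e⟩ | ⟨b, f, hb, hf, e⟩
  · obtain ⟨f, rfl⟩ := stN_surj f
    obtain ⟨g, rfl⟩ := stN_surj g
    rw [std_nd] at e
    have e1 := stN_inj e
    obtain ⟨f', hf'⟩ := std_gf f hf
    obtain ⟨g', hg'⟩ := std_gf g hg
    rw [hf', hg'] at e1
    exact ⟨eq f' g', e1⟩
  · rw [std_zr, std_nd] at e
    exact ⟨bot, stN_inj e⟩
  · obtain ⟨b, rfl⟩ := stN_surj b
    obtain ⟨c, rfl⟩ := stN_surj c
    rw [std_nd] at e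
    have e1 := stN_inj e
    obtain ⟨P, hP⟩ := ih b (small k b c e1).1 hb
    obtain ⟨Q, hQ⟩ := ih c (small k b c e1).2 hc
    rw [hP, hQ] at e1
    interval_cases k
    · exact ⟨conj P Q, e1⟩
    · exact ⟨disj P Q, e1⟩
    · exact ⟨imp P Q, e1⟩
  · obtain ⟨b, rfl⟩ := stN_surj b
    rw [std_zr, std_nd] at e
    have e1 := stN_inj e
    obtain ⟨P, hP⟩ := ih b (small k b 0 e1).1 hb
    rw [hP] at e1
    interval_cases k
    · exact ⟨ex P, e1⟩
    · exact ⟨all P, e1⟩
  · obtain ⟨b, rfl⟩ := stN_surj b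
    obtain ⟨f, rfl⟩ := stN_surj f
    rw [std_nd] at e
    have e1 := stN_inj e
    obtain ⟨P, hP⟩ := ih b (small 7 b f e1).1 hb
    obtain ⟨g, hg⟩ := std_gf f hf
    rw [hP, hg] at e1
    exact ⟨sub P g, e1⟩

theorem encM_imp {P : Fm Empty} {a b : ℕ} (h : encM P = ndN 4 a b) :
    ∃ A B, P = imp A B ∧ encM A = a ∧ encM B = b := by
  cases P <;> simp [encM, ndN_inj] at h
  · rename_i i
    exact i.elim
  · exact ⟨_, _, rfl, h⟩

theorem encM_sub {P : Fm Empty} {a b : ℕ} (h : encM P = ndN 7 a b) :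
    ∃ A f, P = sub A f ∧ encM A = a ∧ encF f = b := by
  cases P <;> simp [encM, ndN_inj] at h
  · rename_i i
    exact i.elim
  · exact ⟨_, _, rfl, h⟩

/-- Axiom instances of the standard model. -/
theorem std_isAx {c : ℕ} (h : std.IsAx (stN c)) : ∃ P : Fm Empty, Ax P ∧ c = encM P := by
  obtain ⟨k, hk, ρ, τ, hρ, hτ, e⟩ := h
  have h1 : ∀ i, ∃ f : Fn Empty, ρ i = stN (encF f) := by
    intro i
    obtain ⟨n, hn⟩ := stN_surj (ρ i)
    have h5 := hρ i
    rw [hn] at h5
    obtain ⟨f, hf⟩ := std_gf n h5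
    exact ⟨f, by rw [hn, hf]⟩
  have h2 : ∀ i, ∃ P : Fm Empty, τ i = stN (encM P) := by
    intro i
    obtain ⟨n, hn⟩ := stN_surj (τ i)
    have h5 := hτ i
    rw [hn] at h5
    obtain ⟨P, hP⟩ := std_gm n h5
    exact ⟨P, by rw [hn, hP]⟩
  choose r hr using h1
  choose t ht using h2
  refine ⟨(axs[k]'hk).ms r t, axs_ax k hk r t, ?_⟩
  have h3 : ρ = fun i => std.icf (eD std stw) (r i) := by
    funext i
    rw [hr i, ← Kr.nm_encF, std_nm]
  have h4 : τ = fun i => std.icm (eD std stw) (eD std stw) (t i) := by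
    funext i
    rw [ht i, ← Kr.nm_encM, std_nm]
  rw [h3, h4, ← Kr.icm_ms, ← Kr.nm_encM, std_nm] at e
  exact stN_inj e

theorem std_cc (p : ℕ) : ∃ P : Fm Empty, Prv P ∧ std.cc (stN p) = stN (encM P) := by
  induction p using Nat.strong_induction_on with
  | _ p ih =>
  rcases Kr.zr_or_cs (M := std) (stN p) with h | h
  · refine ⟨eq zero zero, Prv.ax (Ax.refl _), ?_⟩
    rw [h, Kr.cc_zr, stN_cc0]
  · obtain ⟨t, m, ht, hm, -, hm', -⟩ := std_hd_le p
    rw [ht, hm] at h
    have hp0 : p ≠ 0 := std_cs_ne h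
    have hmp : m < p := by
      obtain ⟨t', m', ht', hm1, -, -, h3⟩ := std_hd_le p
      rw [stN_inj (hm.symm.trans hm1)]
      exact (h3 hp0).2
    obtain ⟨q, q', hq, hq', hq1, hq2, -⟩ := std_hd_le m
    obtain ⟨P1, hP1, e1⟩ := ih q (by omega)
    obtain ⟨P2, hP2, e2⟩ := ih q' (by omega)
    obtain ⟨c, hc⟩ := stN_surj (std.cc (stN p))
    rcases Kr.cc_cases (M := std) (stN t) (stN m) with h1 | h1 | ⟨f, hf, h1⟩ |
      ⟨a, b, h1, h2⟩ | ⟨a, b, h1, h2⟩
    · rw [← h, hc] at h1
      obtain ⟨P, hP, e⟩ := std_isAx h1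
      exact ⟨P, Prv.ax hP, by rw [hc, e]⟩
    · rw [← h, hq, hq', e1, e2, hc] at h1
      simp only [Kr.im, std_nd] at h1
      obtain ⟨A, B, rfl, hA, hB⟩ := encM_imp (stN_inj h1)
      obtain rfl := encM_inj _ _ hA
      exact ⟨B, Prv.mp hP1 hP2, by rw [hc, hB]⟩
    · obtain ⟨f, rfl⟩ := stN_surj f
      obtain ⟨g, rfl⟩ := std_gf f hf
      rw [← h, hq, e1] at h1
      simp only [Kr.sbc, std_nd] at h1
      exact ⟨sub P1 g, Prv.sb g hP1, h1⟩
    · obtain ⟨a, rfl⟩ := stN_surj a
      obtain ⟨b, rfl⟩ := stN_surj b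
      rw [hq, e1] at h1
      simp only [Kr.im, Kr.sbc, Kr.lc, std_zr, std_nd] at h1
      rw [← h] at h2
      simp only [Kr.im, Kr.exc, std_zr, std_nd] at h2
      obtain ⟨A, B', rfl, hA, hB'⟩ := encM_imp (stN_inj h1)
      obtain ⟨B, g, rfl, hB, hg⟩ := encM_sub hB'
      obtain rfl : g = left := encF_inj _ _ hg
      refine ⟨imp (ex A) B, Prv.exE hP1, ?_⟩
      rw [h2, ← hA, ← hB]
      rfl
    · obtain ⟨a, rfl⟩ := stN_surj a
      obtain ⟨b, rfl⟩ := stN_surj b
      rw [hq, e1] at h1
      simp only [Kr.im, Kr.sbc, Kr.lc, std_zr, std_nd] at h1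
      rw [← h] at h2
      simp only [Kr.im, Kr.alc, std_zr, std_nd] at h2
      obtain ⟨A', B, rfl, hA', hB⟩ := encM_imp (stN_inj h1)
      obtain ⟨A, g, rfl, hA, hg⟩ := encM_sub hA'
      obtain rfl : g = left := encF_inj _ _ hg
      refine ⟨imp A (all B), Prv.allI hP1, ?_⟩
      rw [h2, ← hA, ← hB]
      rfl

end

/-- Provable formulas without metavariables are internally provable. -/
theorem Kr.Pv_enc {P : Fm Empty} (h : Prv P) {M : Kr V} {w : M.W} :
    M.Pv (M.nm (w := w) (encM P)) := by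
  rw [M.nm_encM]
  exact Kr.D1 h (fun i => i.elim) (fun i => i.elim)

/-- The arithmetised proof predicate is adequate. -/
theorem Prv_iff (P : Fm Empty) : Prv P ↔ std.Pv (stN (encM P)) := by
  constructor
  · intro h
    have := Kr.Pv_enc h (M := std) (w := stw)
    rwa [std_nm] at this
  · rintro ⟨p, hp⟩
    obtain ⟨Q, hQ, e⟩ := std_cc p
    have h1 : stN (encM P) = stN (encM Q) := hp.symm.trans e
    rw [encM_inj P Q (stN_inj h1)]
    exact hQ

end HAr
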