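import Pool.Agent.Lib.MP_61e577_lc.Ar.Box

/-! Evaluation traces: a universal evaluation predicate for function codes. -/

namespace HAr

open Fn Fm

variable {V U : Type} {M : Kr V} {w : M.W}

/-- The default result of a trace: the identity at zero. -/
def ev0 : Fn V := pair (ndF 0 zero zero) (pair zero zero)

/-- The code of `g o (left, (right, prec f g))`. -/
def pstF (f g : Fn V) : Fn V :=
  ndF 6 g (ndF 5 (ndF 3 zero zero) (ndF 5 (ndF 4 zero zero) (ndF 7 f g)))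

/-- The code of the step function of tree recursion. -/
def tstF (f g : Fn V) : Fn V :=
  ndF 6 g (ndF 5 (ndF 3 zero zero) (ndF 5 (ndF 4 zero zero) (ndF 5
    (ndF 6 (ndF 8 f g) (ndF 5 (ndF 3 zero zero) (ndF 6 (ndF 3 zero zero) (ndF 4 zero zero))))
    (ndF 6 (ndF 8 f g) (ndF 5 (ndF 3 zero zero) (ndF 6 (ndF 4 zero zero) (ndF 4 zero zero)))))))

/-- The code of `g o (left, (right, prec f g))`. -/
def Kr.pst (M : Kr V) {w : M.W} (f g : M.D w) : M.D w :=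
  M.nd 6 g (M.nd 5 (M.nd 3 M.zr M.zr) (M.nd 5 (M.nd 4 M.zr M.zr) (M.nd 7 f g)))

/-- The code of the step function of tree recursion. -/
def Kr.tst (M : Kr V) {w : M.W} (f g : M.D w) : M.D w :=
  M.nd 6 g (M.nd 5 (M.nd 3 M.zr M.zr) (M.nd 5 (M.nd 4 M.zr M.zr) (M.nd 5
    (M.nd 6 (M.nd 8 f g) (M.nd 5 (M.nd 3 M.zr M.zr) (M.nd 6 (M.nd 3 M.zr M.zr) (M.nd 4 M.zr M.zr))))
    (M.nd 6 (M.nd 8 f g) (M.nd 5 (M.nd 3 M.zr M.zr)
      (M.nd 6 (M.nd 4 M.zr M.zr) (M.nd 4 M.zr M.zr)))))))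

/-- The cases of the evaluation of a trace, in the environment `((r1, r2), m)` of the values of
the two subtraces and the body. -/
def evL : List (Fn V) :=
  [pair (ndF 0 zero zero) (pair right right),
   pair (ndF 1 zero zero) (pair right zero),
   pair (ndF 2 zero zero) (pair right (comp succ right)),
   pair (ndF 3 zero zero) (pair right (comp left right)),
   pair (ndF 4 zero zero) (pair right (comp right right)),
   cnq (comp left (comp right (comp left left))) (comp left (comp right (comp right left)))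
     (pair (ndF 5 (comp left (comp left left)) (comp left (comp right left)))
       (pair (comp left (comp right (comp left left)))
         (pair (comp right (comp right (comp left left))) (comp right (comp right (comp right left))))))
     ev0,
   cnq (comp right (comp right (comp left left))) (comp left (comp right (comp right left)))
     (pair (ndF 6 (comp left (comp right left)) (comp left (comp left left)))
       (pair (comp left (comp right (comp left left))) (comp right (comp right (comp right left)))))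
     ev0,
   pair (ndF 7 (comp left (comp left left)) (comp nfnF (comp tlF right)))
     (pair (pair (comp left (comp right (comp left left))) zero)
       (comp right (comp right (comp left left)))),
   comp (cnq left (pstF (comp hdF (comp tlF (comp tlF (comp tlF (comp tlF (comp tlF (comp tlF
         (comp tlF left)))))))) (comp hdF (comp tlF left)))
       (pair (ndF 7 (comp hdF (comp tlF (comp tlF (comp tlF (comp tlF (comp tlF (comp tlF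
         (comp tlF left)))))))) (comp hdF (comp tlF left)))
         (pair (pair (comp left (comp left right)) (comp succ (comp right (comp left right))))
           (comp right right))) ev0) (comp left left),
   pair (ndF 8 (comp left (comp left left)) (comp nfnF (comp tlF right)))
     (pair (pair (comp left (comp right (comp left left))) zero)
       (comp right (comp right (comp left left)))),
   comp (cnq left (tstF (comp hdF (comp tlF (comp hdF (comp tlF (comp hdF (comp tlF (comp tlF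
         (comp tlF (comp tlF (comp tlF (comp tlF (comp tlF left)))))))))))) (comp hdF (comp tlF left)))
       (pair (ndF 8 (comp hdF (comp tlF (comp hdF (comp tlF (comp hdF (comp tlF (comp tlF
         (comp tlF (comp tlF (comp tlF (comp tlF (comp tlF left)))))))))))) (comp hdF (comp tlF left)))
         (pair (pair (comp left (comp left right)) (comp succ (comp right (comp left right))))
           (comp right right))) ev0) (comp left left)]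

/-- The result `(f, (x, y))` of a trace. -/
def evF : Fn V := comp (frec ev0
  (comp (sw evL ev0)
    (pair (pair (comp right right) (comp right (comp left right))) (comp left (comp left right)))))
  (pair zero idn)

def Kr.evc (M : Kr V) {w : M.W} (q : M.D w) : M.D w := M.fn evF q

@[simp] theorem Kr.fn_evF (a : M.D w) : M.fn evF a = M.evc a := rfl
@[simp] theorem Kr.tr_evc {v : M.W} (h : w ≤ v) (a : M.D w) :
    M.tr h (M.evc a) = M.evc (M.tr h a) := M.tr_fn h _ a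

theorem Kr.evc_cs (t m : M.D w) : M.evc (M.cs t m) = M.fn (sw evL ev0)
    (M.pr (M.pr (M.pr (M.evc (M.hd m)) (M.evc (M.tl m))) m) t) := by
  simp only [Kr.evc, evF, M.fn_comp, M.fn_pair, M.fn_zero, M.fn_idn, Kr.frec_cs, M.left_pr,
    M.right_pr]

/-- Some trace has the result `(f, z)`. -/
def Kr.Ev (M : Kr V) {w : M.W} (f z : M.D w) : Prop := ∃ q, M.evc q = M.pr f z

/-- The formula: the value of `c` evaluates as the argument `(x, y)` says. -/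
def evT (c : Fn V) : Fm V := ex (eq (comp evF right) (comp (pair c idn) left))

theorem Kr.F_evT {c : Fn V} {d : M.D w} : M.F (evT c) d ↔ M.Ev (M.fn c d) d := by
  simp [evT, KD.F, Kr.Ev]

theorem Kr.Ev_mono {v : M.W} (h : w ≤ v) {f z : M.D w} (k : M.Ev f z) :
    M.Ev (M.tr h f) (M.tr h z) := by
  obtain ⟨q, hq⟩ := k
  exact ⟨M.tr h q, by rw [← M.tr_evc, hq, M.tr_pr]⟩

@[simp] theorem Kr.fn_ev0 (d : M.D w) :
    M.fn ev0 d = M.pr (M.nd 0 M.zr M.zr) (M.pr M.zr M.zr) := by simp [ev0]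

@[simp] theorem Kr.fn_pstF (f g : Fn V) (d : M.D w) :
    M.fn (pstF f g) d = M.pst (M.fn f d) (M.fn g d) := by simp [pstF, Kr.pst]

@[simp] theorem Kr.fn_tstF (f g : Fn V) (d : M.D w) :
    M.fn (tstF f g) d = M.tst (M.fn f d) (M.fn g d) := by simp [tstF, Kr.tst]

theorem Kr.evc_zr : M.evc (M.zr (w := w)) = M.pr (M.nd 0 M.zr M.zr) (M.pr M.zr M.zr) := by
  simp [Kr.evc, evF]

section
variable {f g a n x y z : M.D w}

/-! ### The value of a trace, case by case -/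

theorem Kr.evc_0 (m : M.D w) : M.evc (M.cs (M.nm 0) m) =
    M.pr (M.nd 0 M.zr M.zr) (M.pr m m) := by
  rw [Kr.evc_cs]; simp [evL, Kr.nm]

theorem Kr.evc_1 (m : M.D w) : M.evc (M.cs (M.nm 1) m) =
    M.pr (M.nd 1 M.zr M.zr) (M.pr m M.zr) := by
  rw [Kr.evc_cs]; simp [evL, Kr.nm]

theorem Kr.evc_2 (m : M.D w) : M.evc (M.cs (M.nm 2) m) =
    M.pr (M.nd 2 M.zr M.zr) (M.pr m (M.S m)) := by
  rw [Kr.evc_cs]; simp [evL, Kr.nm]

theorem Kr.evc_3 (m : M.D w) : M.evc (M.cs (M.nm 3) m) =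
    M.pr (M.nd 3 M.zr M.zr) (M.pr m (M.fn left m)) := by
  rw [Kr.evc_cs]; simp [evL, Kr.nm]

theorem Kr.evc_4 (m : M.D w) : M.evc (M.cs (M.nm 4) m) =
    M.pr (M.nd 4 M.zr M.zr) (M.pr m (M.fn right m)) := by
  rw [Kr.evc_cs]; simp [evL, Kr.nm]

theorem Kr.evc_5 {m f g x x' y z : M.D w} (h1 : M.evc (M.hd m) = M.pr f (M.pr x y))
    (h2 : M.evc (M.tl m) = M.pr g (M.pr x' z)) :
    (x = x' ∧ M.evc (M.cs (M.nm 5) m) = M.pr (M.nd 5 f g) (M.pr x (M.pr y z))) ∨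
    (x ≠ x' ∧ M.evc (M.cs (M.nm 5) m) = M.pr (M.nd 0 M.zr M.zr) (M.pr M.zr M.zr)) := by
  have h : M.evc (M.cs (M.nm 5) m) = M.fn (cnq (comp left (comp right (comp left left)))
      (comp left (comp right (comp right left)))
     (pair (ndF 5 (comp left (comp left left)) (comp left (comp right left)))
       (pair (comp left (comp right (comp left left)))
         (pair (comp right (comp right (comp left left))) (comp right (comp right (comp right left))))))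
     ev0) (M.pr (M.pr (M.evc (M.hd m)) (M.evc (M.tl m))) m) := by
    rw [Kr.evc_cs]; simp only [evL, Kr.nm, Kr.sw_S, Kr.sw_zr]
  rw [h1, h2] at h
  by_cases e : x = x'
  · subst e
    left
    refine ⟨rfl, ?_⟩
    rw [h, Kr.cnq_eq] <;> simp
  · right
    refine ⟨e, ?_⟩
    rw [h, Kr.cnq_ne] <;> simp
    exact e

theorem Kr.evc_6 {m f g x y y' z : M.D w} (h1 : M.evc (M.hd m) = M.pr g (M.pr x y))
    (h2 : M.evc (M.tl m) = M.pr f (M.pr y' z)) :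
    (y = y' ∧ M.evc (M.cs (M.nm 6) m) = M.pr (M.nd 6 f g) (M.pr x z)) ∨
    (y ≠ y' ∧ M.evc (M.cs (M.nm 6) m) = M.pr (M.nd 0 M.zr M.zr) (M.pr M.zr M.zr)) := by
  have h : M.evc (M.cs (M.nm 6) m) = M.fn (cnq (comp right (comp right (comp left left)))
      (comp left (comp right (comp right left)))
     (pair (ndF 6 (comp left (comp right left)) (comp left (comp left left)))
       (pair (comp left (comp right (comp left left))) (comp right (comp right (comp right left)))))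
     ev0) (M.pr (M.pr (M.evc (M.hd m)) (M.evc (M.tl m))) m) := by
    rw [Kr.evc_cs]; simp only [evL, Kr.nm, Kr.sw_S, Kr.sw_zr]
  rw [h1, h2] at h
  by_cases e : y = y'
  · subst e
    left
    refine ⟨rfl, ?_⟩
    rw [h, Kr.cnq_eq] <;> simp
  · right
    refine ⟨e, ?_⟩
    rw [h, Kr.cnq_ne] <;> simp
    exact e

theorem Kr.evc_7 {m f a y : M.D w} (h1 : M.evc (M.hd m) = M.pr f (M.pr a y)) :
    M.evc (M.cs (M.nm 7) m) = M.pr (M.nd 7 f (M.nfn (M.tl m))) (M.pr (M.pr a M.zr) y) := by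
  rw [Kr.evc_cs]; simp [evL, Kr.nm, h1]

theorem Kr.evc_9 {m f a y : M.D w} (h1 : M.evc (M.hd m) = M.pr f (M.pr a y)) :
    M.evc (M.cs (M.nm 9) m) = M.pr (M.nd 8 f (M.nfn (M.tl m))) (M.pr (M.pr a M.zr) y) := by
  rw [Kr.evc_cs]; simp [evL, Kr.nm, h1]

theorem Kr.evc_8 {m c a n y : M.D w} (h1 : M.evc (M.hd m) = M.pr c (M.pr (M.pr a n) y)) :
    (∃ f g, c = M.pst f g ∧
      M.evc (M.cs (M.nm 8) m) = M.pr (M.nd 7 f g) (M.pr (M.pr a (M.S n)) y)) ∨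
    ((∀ f g, c ≠ M.pst f g) ∧
      M.evc (M.cs (M.nm 8) m) = M.pr (M.nd 0 M.zr M.zr) (M.pr M.zr M.zr)) := by
  have h : M.evc (M.cs (M.nm 8) m) = M.fn (comp (cnq left (pstF (comp hdF (comp tlF (comp tlF
        (comp tlF (comp tlF (comp tlF (comp tlF
         (comp tlF left)))))))) (comp hdF (comp tlF left)))
       (pair (ndF 7 (comp hdF (comp tlF (comp tlF (comp tlF (comp tlF (comp tlF (comp tlF
         (comp tlF left)))))))) (comp hdF (comp tlF left)))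
         (pair (pair (comp left (comp left right)) (comp succ (comp right (comp left right))))
           (comp right right))) ev0) (comp left left))
      (M.pr (M.pr (M.evc (M.hd m)) (M.evc (M.tl m))) m) := by
    rw [Kr.evc_cs]; simp only [evL, Kr.nm, Kr.sw_S, Kr.sw_zr]
  simp only [M.fn_comp, M.left_pr] at h
  rw [h1] at h
  by_cases e : c = M.pst (M.hd (M.tl (M.tl (M.tl (M.tl (M.tl (M.tl (M.tl c)))))))) (M.hd (M.tl c))
  · left
    refine ⟨_, _, e, ?_⟩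
    rw [h, Kr.cnq_eq]
    · simp
    · simpa using e
  · right
    refine ⟨fun f g h2 => e ?_, ?_⟩
    · rw [h2]; simp [Kr.pst]
    rw [h, Kr.cnq_ne]
    · simp
    · simpa using e

theorem Kr.evc_10 {m c a n y : M.D w} (h1 : M.evc (M.hd m) = M.pr c (M.pr (M.pr a n) y)) :
    (∃ f g, c = M.tst f g ∧
      M.evc (M.cs (M.nm 10) m) = M.pr (M.nd 8 f g) (M.pr (M.pr a (M.S n)) y)) ∨
    ((∀ f g, c ≠ M.tst f g) ∧
      M.evc (M.cs (M.nm 10) m) = M.pr (M.nd 0 M.zr M.zr) (M.pr M.zr M.zr)) := by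
  have h : M.evc (M.cs (M.nm 10) m) = M.fn (comp (cnq left (tstF (comp hdF (comp tlF (comp hdF
        (comp tlF (comp hdF (comp tlF (comp tlF
         (comp tlF (comp tlF (comp tlF (comp tlF (comp tlF left)))))))))))) (comp hdF (comp tlF left)))
       (pair (ndF 8 (comp hdF (comp tlF (comp hdF (comp tlF (comp hdF (comp tlF (comp tlF
         (comp tlF (comp tlF (comp tlF (comp tlF (comp tlF left)))))))))))) (comp hdF (comp tlF left)))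
         (pair (pair (comp left (comp left right)) (comp succ (comp right (comp left right))))
           (comp right right))) ev0) (comp left left))
      (M.pr (M.pr (M.evc (M.hd m)) (M.evc (M.tl m))) m) := by
    rw [Kr.evc_cs]; simp only [evL, Kr.nm, Kr.sw_S, Kr.sw_zr]
  simp only [M.fn_comp, M.left_pr] at h
  rw [h1] at h
  by_cases e : c = M.tst (M.hd (M.tl (M.hd (M.tl (M.hd (M.tl (M.tl (M.tl (M.tl (M.tl (M.tl
      (M.tl c)))))))))))) (M.hd (M.tl c))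
  · left
    refine ⟨_, _, e, ?_⟩
    rw [h, Kr.cnq_eq]
    · simp
    · simpa using e
  · right
    refine ⟨fun f g h2 => e ?_, ?_⟩
    · rw [h2]; simp [Kr.tst]
    rw [h, Kr.cnq_ne]
    · simp
    · simpa using e

theorem Kr.pst_inj {f g f' g' : M.D w} (h : M.pst f g = M.pst f' g') : f = f' ∧ g = g' := by
  simp only [Kr.pst, Kr.nd_inj, true_and] at h
  exact ⟨h.2.1, h.1⟩

theorem Kr.tst_inj {f g f' g' : M.D w} (h : M.tst f g = M.tst f' g') : f = f' ∧ g = g' := by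
  simp only [Kr.tst, Kr.nd_inj, true_and] at h
  exact ⟨h.2.1.1.1, h.1⟩

theorem Kr.Ev_idn (x : M.D w) : M.Ev (M.nd 0 M.zr M.zr) (M.pr x x) := ⟨_, Kr.evc_0 x⟩
theorem Kr.Ev_zero (x : M.D w) : M.Ev (M.nd 1 M.zr M.zr) (M.pr x M.zr) := ⟨_, Kr.evc_1 x⟩
theorem Kr.Ev_succ (x : M.D w) : M.Ev (M.nd 2 M.zr M.zr) (M.pr x (M.S x)) := ⟨_, Kr.evc_2 x⟩
theorem Kr.Ev_left (x : M.D w) : M.Ev (M.nd 3 M.zr M.zr) (M.pr x (M.fn left x)) :=
  ⟨_, Kr.evc_3 x⟩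
theorem Kr.Ev_right (x : M.D w) : M.Ev (M.nd 4 M.zr M.zr) (M.pr x (M.fn right x)) :=
  ⟨_, Kr.evc_4 x⟩
theorem Kr.Ev_pair (h : M.Ev f (M.pr x y)) (k : M.Ev g (M.pr x z)) :
    M.Ev (M.nd 5 f g) (M.pr x (M.pr y z)) := by
  obtain ⟨p, hp⟩ := h
  obtain ⟨q, hq⟩ := k
  refine ⟨M.cs (M.nm 5) (M.cs p q), ?_⟩
  have h1 : M.evc (M.hd (M.cs p q)) = M.pr f (M.pr x y) := by simpa using hp
  have h2 : M.evc (M.tl (M.cs p q)) = M.pr g (M.pr x z) := by simpa using hq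
  rcases Kr.evc_5 h1 h2 with h | h
  · exact h.2
  · exact absurd rfl h.1
theorem Kr.Ev_comp (h : M.Ev g (M.pr x y)) (k : M.Ev f (M.pr y z)) :
    M.Ev (M.nd 6 f g) (M.pr x z) := by
  obtain ⟨p, hp⟩ := h
  obtain ⟨q, hq⟩ := k
  refine ⟨M.cs (M.nm 6) (M.cs p q), ?_⟩
  have h1 : M.evc (M.hd (M.cs p q)) = M.pr g (M.pr x y) := by simpa using hp
  have h2 : M.evc (M.tl (M.cs p q)) = M.pr f (M.pr y z) := by simpa using hq
  rcases Kr.evc_6 h1 h2 with h | h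
  · exact h.2
  · exact absurd rfl h.1
theorem Kr.Ev_prec0 (hg : M.gf g) (h : M.Ev f (M.pr a y)) :
    M.Ev (M.nd 7 f g) (M.pr (M.pr a M.zr) y) := by
  obtain ⟨p, hp⟩ := h
  refine ⟨M.cs (M.nm 7) (M.cs p g), ?_⟩
  have h1 : M.evc (M.hd (M.cs p g)) = M.pr f (M.pr a y) := by simpa using hp
  have hg : M.nfn g = g := hg
  rw [Kr.evc_7 h1, Kr.tl_S, M.right_pr, hg]
theorem Kr.Ev_precS (h : M.Ev (M.pst f g) (M.pr (M.pr a n) y)) :
    M.Ev (M.nd 7 f g) (M.pr (M.pr a (M.S n)) y) := by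
  obtain ⟨p, hp⟩ := h
  refine ⟨M.cs (M.nm 8) (M.cs p M.zr), ?_⟩
  have h1 : M.evc (M.hd (M.cs p M.zr)) = M.pr (M.pst f g) (M.pr (M.pr a n) y) := by simpa using hp
  rcases Kr.evc_8 h1 with ⟨f', g', e, h⟩ | h
  · obtain ⟨rfl, rfl⟩ := Kr.pst_inj e
    exact h
  · exact absurd rfl (h.1 f g)
theorem Kr.Ev_trec0 (hg : M.gf g) (h : M.Ev f (M.pr a y)) :
    M.Ev (M.nd 8 f g) (M.pr (M.pr a M.zr) y) := by
  obtain ⟨p, hp⟩ := h
  refine ⟨M.cs (M.nm 9) (M.cs p g), ?_⟩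
  have h1 : M.evc (M.hd (M.cs p g)) = M.pr f (M.pr a y) := by simpa using hp
  have hg : M.nfn g = g := hg
  rw [Kr.evc_9 h1, Kr.tl_S, M.right_pr, hg]
theorem Kr.Ev_trecS (h : M.Ev (M.tst f g) (M.pr (M.pr a n) y)) :
    M.Ev (M.nd 8 f g) (M.pr (M.pr a (M.S n)) y) := by
  obtain ⟨p, hp⟩ := h
  refine ⟨M.cs (M.nm 10) (M.cs p M.zr), ?_⟩
  have h1 : M.evc (M.hd (M.cs p M.zr)) = M.pr (M.tst f g) (M.pr (M.pr a n) y) := by simpa using hp
  rcases Kr.evc_10 h1 with ⟨f', g', e, h⟩ | h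
  · obtain ⟨rfl, rfl⟩ := Kr.tst_inj e
    exact h
  · exact absurd rfl (h.1 f g)

/-- Case distinction for evaluations. -/
theorem Kr.Ev_cases (h : M.Ev f z) :
    (f = M.nd 0 M.zr M.zr ∧ ∃ x, z = M.pr x x) ∨
    (f = M.nd 1 M.zr M.zr ∧ ∃ x, z = M.pr x M.zr) ∨
    (f = M.nd 2 M.zr M.zr ∧ ∃ x, z = M.pr x (M.S x)) ∨
    (f = M.nd 3 M.zr M.zr ∧ ∃ x, z = M.pr x (M.fn left x)) ∨
    (f = M.nd 4 M.zr M.zr ∧ ∃ x, z = M.pr x (M.fn right x)) ∨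
    (∃ b c x y y', f = M.nd 5 b c ∧ z = M.pr x (M.pr y y') ∧ M.Ev b (M.pr x y) ∧
      M.Ev c (M.pr x y')) ∨
    (∃ b c x y u, f = M.nd 6 b c ∧ z = M.pr x u ∧ M.Ev c (M.pr x y) ∧ M.Ev b (M.pr y u)) ∨
    (∃ b c x y, f = M.nd 7 b c ∧ z = M.pr (M.pr x M.zr) y ∧ M.gf c ∧ M.Ev b (M.pr x y)) ∨
    (∃ b c x n y, f = M.nd 7 b c ∧ z = M.pr (M.pr x (M.S n)) y ∧
      M.Ev (M.pst b c) (M.pr (M.pr x n) y)) ∨
    (∃ b c x y, f = M.nd 8 b c ∧ z = M.pr (M.pr x M.zr) y ∧ M.gf c ∧ M.Ev b (M.pr x y)) ∨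
    (∃ b c x n y, f = M.nd 8 b c ∧ z = M.pr (M.pr x (M.S n)) y ∧
      M.Ev (M.tst b c) (M.pr (M.pr x n) y)) := by
  obtain ⟨q, hq⟩ := h
  have inj : ∀ {a b c d : M.D w}, M.pr a b = M.pr c d → a = c ∧ b = d := fun {a b c d} h =>
    ⟨by simpa using congrArg (M.fn left) h, by simpa using congrArg (M.fn right) h⟩
  have dflt : M.evc q = M.pr (M.nd 0 M.zr M.zr) (M.pr M.zr M.zr) →
      (f = M.nd 0 M.zr M.zr ∧ ∃ x, z = M.pr x x) := fun e => by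
    rw [e] at hq
    obtain ⟨rfl, rfl⟩ := inj hq
    exact ⟨rfl, _, rfl⟩
  rcases M.zr_or_cs q with e | e
  · exact Or.inl (dflt (by rw [e, Kr.evc_zr]))
  obtain ⟨t, m, e⟩ : ∃ t m, q = M.cs t m := ⟨_, _, e⟩
  obtain ⟨f1, z1, h1⟩ : ∃ f1 z1, M.evc (M.hd m) = M.pr f1 z1 := ⟨_, _, (M.pr_eta _).symm⟩
  obtain ⟨x1, y1, rfl⟩ : ∃ x1 y1, z1 = M.pr x1 y1 := ⟨_, _, (M.pr_eta _).symm⟩
  obtain ⟨f2, z2, h2⟩ : ∃ f2 z2, M.evc (M.tl m) = M.pr f2 z2 := ⟨_, _, (M.pr_eta _).symm⟩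
  obtain ⟨x2, y2, rfl⟩ : ∃ x2 y2, z2 = M.pr x2 y2 := ⟨_, _, (M.pr_eta _).symm⟩
  obtain ⟨a1, n1, ex⟩ : ∃ a1 n1, x1 = M.pr a1 n1 := ⟨_, _, (M.pr_eta _).symm⟩
  subst e
  rcases M.small_or 11 t with ⟨k, hk, rfl⟩ | ⟨b, rfl⟩
  · interval_cases k
    · rw [Kr.evc_0] at hq
      obtain ⟨rfl, rfl⟩ := inj hq
      exact Or.inl ⟨rfl, _, rfl⟩
    · rw [Kr.evc_1] at hq
      obtain ⟨rfl, rfl⟩ := inj hq
      exact Or.inr (Or.inl ⟨rfl, _, rfl⟩)
    · rw [Kr.evc_2] at hq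
      obtain ⟨rfl, rfl⟩ := inj hq
      exact Or.inr (Or.inr (Or.inl ⟨rfl, _, rfl⟩))
    · rw [Kr.evc_3] at hq
      obtain ⟨rfl, rfl⟩ := inj hq
      exact Or.inr (Or.inr (Or.inr (Or.inl ⟨rfl, _, rfl⟩)))
    · rw [Kr.evc_4] at hq
      obtain ⟨rfl, rfl⟩ := inj hq
      exact Or.inr (Or.inr (Or.inr (Or.inr (Or.inl ⟨rfl, _, rfl⟩))))
    · rcases Kr.evc_5 h1 h2 with ⟨e, h⟩ | ⟨-, h⟩
      · subst e
        rw [h] at hq
        obtain ⟨rfl, rfl⟩ := inj hq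
        exact Or.inr (Or.inr (Or.inr (Or.inr (Or.inr (Or.inl ⟨_, _, _, _, _, rfl, rfl,
          ⟨_, h1⟩, ⟨_, h2⟩⟩)))))
      · exact Or.inl (dflt h)
    · rcases Kr.evc_6 h1 h2 with ⟨e, h⟩ | ⟨-, h⟩
      · subst e
        rw [h] at hq
        obtain ⟨rfl, rfl⟩ := inj hq
        exact Or.inr (Or.inr (Or.inr (Or.inr (Or.inr (Or.inr (Or.inl ⟨_, _, _, _, _, rfl, rfl,
          ⟨_, h1⟩, ⟨_, h2⟩⟩))))))
      · exact Or.inl (dflt h)
    · rw [Kr.evc_7 h1] at hq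
      obtain ⟨rfl, rfl⟩ := inj hq
      exact Or.inr (Or.inr (Or.inr (Or.inr (Or.inr (Or.inr (Or.inr (Or.inl ⟨_, _, _, _, rfl, rfl,
        M.gf_nfn _, ⟨_, h1⟩⟩)))))))
    · rw [ex] at h1
      rcases Kr.evc_8 h1 with ⟨f', g', e, h⟩ | ⟨-, h⟩
      · rw [h] at hq
        obtain ⟨rfl, rfl⟩ := inj hq
        rw [e] at h1
        exact Or.inr (Or.inr (Or.inr (Or.inr (Or.inr (Or.inr (Or.inr (Or.inr (Or.inl
          ⟨_, _, _, _, _, rfl, rfl, ⟨_, h1⟩⟩))))))))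
      · exact Or.inl (dflt h)
    · rw [Kr.evc_9 h1] at hq
      obtain ⟨rfl, rfl⟩ := inj hq
      exact Or.inr (Or.inr (Or.inr (Or.inr (Or.inr (Or.inr (Or.inr (Or.inr (Or.inr (Or.inl
        ⟨_, _, _, _, rfl, rfl, M.gf_nfn _, ⟨_, h1⟩⟩)))))))))
    · rw [ex] at h1
      rcases Kr.evc_10 h1 with ⟨f', g', e, h⟩ | ⟨-, h⟩
      · rw [h] at hq
        obtain ⟨rfl, rfl⟩ := inj hq
        rw [e] at h1
        exact Or.inr (Or.inr (Or.inr (Or.inr (Or.inr (Or.inr (Or.inr (Or.inr (Or.inr (Or.inr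
          ⟨_, _, _, _, _, rfl, rfl, ⟨_, h1⟩⟩)))))))))
      · exact Or.inl (dflt h)
  · refine Or.inl (dflt ?_)
    rw [Kr.evc_cs]
    have := M.sw_up (fs := evL) (d := ev0)
      (a := M.pr (M.pr (M.evc (M.hd m)) (M.evc (M.tl m))) m) (n := b)
    rw [show (evL (V := V)).length = 11 from rfl] at this
    rw [this, Kr.fn_ev0]

theorem Kr.pr_inj {a b c d : M.D w} (h : M.pr a b = M.pr c d) : a = c ∧ b = d :=
  ⟨by simpa using congrArg (M.fn left) h, by simpa using congrArg (M.fn right) h⟩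

theorem Kr.Ev_idn_inv (h : M.Ev (M.nd 0 M.zr M.zr) (M.pr x y)) : y = x := by
  rcases Kr.Ev_cases h with ⟨e, u, k⟩ | ⟨e, -⟩ | ⟨e, -⟩ | ⟨e, -⟩ | ⟨e, -⟩ | ⟨_, _, _, _, _, e, -⟩ |
    ⟨_, _, _, _, _, e, -⟩ | ⟨_, _, _, _, e, -⟩ | ⟨_, _, _, _, _, e, -⟩ | ⟨_, _, _, _, e, -⟩ |
    ⟨_, _, _, _, _, e, -⟩
  · obtain ⟨rfl, rfl⟩ := Kr.pr_inj k
    rfl
  all_goals exact absurd e (M.nd_ne (by norm_num) _ _ _ _)

theorem Kr.Ev_zero_inv (h : M.Ev (M.nd 1 M.zr M.zr) (M.pr x y)) : y = M.zr := by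
  rcases Kr.Ev_cases h with ⟨e, -⟩ | ⟨e, u, k⟩ | ⟨e, -⟩ | ⟨e, -⟩ | ⟨e, -⟩ | ⟨_, _, _, _, _, e, -⟩ |
    ⟨_, _, _, _, _, e, -⟩ | ⟨_, _, _, _, e, -⟩ | ⟨_, _, _, _, _, e, -⟩ | ⟨_, _, _, _, e, -⟩ |
    ⟨_, _, _, _, _, e, -⟩
  case' inr.inl =>
    obtain ⟨rfl, rfl⟩ := Kr.pr_inj k
    rfl
  all_goals exact absurd e (M.nd_ne (by norm_num) _ _ _ _)

theorem Kr.Ev_succ_inv (h : M.Ev (M.nd 2 M.zr M.zr) (M.pr x y)) : y = M.S x := by
  rcases Kr.Ev_cases h with ⟨e, -⟩ | ⟨e, -⟩ | ⟨e, u, k⟩ | ⟨e, -⟩ | ⟨e, -⟩ | ⟨_, _, _, _, _, e, -⟩ |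
    ⟨_, _, _, _, _, e, -⟩ | ⟨_, _, _, _, e, -⟩ | ⟨_, _, _, _, _, e, -⟩ | ⟨_, _, _, _, e, -⟩ |
    ⟨_, _, _, _, _, e, -⟩
  case' inr.inr.inl =>
    obtain ⟨rfl, rfl⟩ := Kr.pr_inj k
    rfl
  all_goals exact absurd e (M.nd_ne (by norm_num) _ _ _ _)

theorem Kr.Ev_left_inv (h : M.Ev (M.nd 3 M.zr M.zr) (M.pr x y)) : y = M.fn left x := by
  rcases Kr.Ev_cases h with ⟨e, -⟩ | ⟨e, -⟩ | ⟨e, -⟩ | ⟨e, u, k⟩ | ⟨e, -⟩ | ⟨_, _, _, _, _, e, -⟩ |
    ⟨_, _, _, _, _, e, -⟩ | ⟨_, _, _, _, e, -⟩ | ⟨_, _, _, _, _, e, -⟩ | ⟨_, _, _, _, e, -⟩ |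
    ⟨_, _, _, _, _, e, -⟩
  case' inr.inr.inr.inl =>
    obtain ⟨rfl, rfl⟩ := Kr.pr_inj k
    rfl
  all_goals exact absurd e (M.nd_ne (by norm_num) _ _ _ _)

theorem Kr.Ev_right_inv (h : M.Ev (M.nd 4 M.zr M.zr) (M.pr x y)) : y = M.fn right x := by
  rcases Kr.Ev_cases h with ⟨e, -⟩ | ⟨e, -⟩ | ⟨e, -⟩ | ⟨e, -⟩ | ⟨e, u, k⟩ | ⟨_, _, _, _, _, e, -⟩ |
    ⟨_, _, _, _, _, e, -⟩ | ⟨_, _, _, _, e, -⟩ | ⟨_, _, _, _, _, e, -⟩ | ⟨_, _, _, _, e, -⟩ |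
    ⟨_, _, _, _, _, e, -⟩
  case' inr.inr.inr.inr.inl =>
    obtain ⟨rfl, rfl⟩ := Kr.pr_inj k
    rfl
  all_goals exact absurd e (M.nd_ne (by norm_num) _ _ _ _)

theorem Kr.Ev_pair_inv (h : M.Ev (M.nd 5 f g) (M.pr x z)) : ∃ y y', z = M.pr y y' ∧
    M.Ev f (M.pr x y) ∧ M.Ev g (M.pr x y') := by
  rcases Kr.Ev_cases h with ⟨e, -⟩ | ⟨e, -⟩ | ⟨e, -⟩ | ⟨e, -⟩ | ⟨e, -⟩ |
    ⟨b, c, x', y, y', e, k, h1, h2⟩ |
    ⟨_, _, _, _, _, e, -⟩ | ⟨_, _, _, _, e, -⟩ | ⟨_, _, _, _, _, e, -⟩ | ⟨_, _, _, _, e, -⟩ |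
    ⟨_, _, _, _, _, e, -⟩
  case' inr.inr.inr.inr.inr.inl =>
    obtain ⟨rfl, rfl⟩ := Kr.pr_inj k
    obtain ⟨rfl, rfl⟩ := Kr.nd_inj.1 e
    exact ⟨y, y', rfl, h1, h2⟩
  all_goals exact absurd e (M.nd_ne (by norm_num) _ _ _ _)

theorem Kr.Ev_comp_inv (h : M.Ev (M.nd 6 f g) (M.pr x z)) : ∃ y,
    M.Ev g (M.pr x y) ∧ M.Ev f (M.pr y z) := by
  rcases Kr.Ev_cases h with ⟨e, -⟩ | ⟨e, -⟩ | ⟨e, -⟩ | ⟨e, -⟩ | ⟨e, -⟩ | ⟨_, _, _, _, _, e, -⟩ |
    ⟨b, c, x', y, u, e, k, h1, h2⟩ |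
    ⟨_, _, _, _, e, -⟩ | ⟨_, _, _, _, _, e, -⟩ | ⟨_, _, _, _, e, -⟩ |
    ⟨_, _, _, _, _, e, -⟩
  case' inr.inr.inr.inr.inr.inr.inl =>
    obtain ⟨rfl, rfl⟩ := Kr.pr_inj k
    obtain ⟨rfl, rfl⟩ := Kr.nd_inj.1 e
    exact ⟨y, h1, h2⟩
  all_goals exact absurd e (M.nd_ne (by norm_num) _ _ _ _)

theorem Kr.Ev_prec_inv (h : M.Ev (M.nd 7 f g) (M.pr x y)) :
    (∃ a, x = M.pr a M.zr ∧ M.Ev f (M.pr a y)) ∨
    ∃ a n, x = M.pr a (M.S n) ∧ M.Ev (M.pst f g) (M.pr (M.pr a n) y) := by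
  rcases Kr.Ev_cases h with ⟨e, -⟩ | ⟨e, -⟩ | ⟨e, -⟩ | ⟨e, -⟩ | ⟨e, -⟩ | ⟨_, _, _, _, _, e, -⟩ |
    ⟨_, _, _, _, _, e, -⟩ |
    ⟨b, c, a, y', e, k, h1, h2⟩ | ⟨b, c, a, n, y', e, k, h1⟩ | ⟨_, _, _, _, e, -⟩ |
    ⟨_, _, _, _, _, e, -⟩
  case' inr.inr.inr.inr.inr.inr.inr.inl =>
    obtain ⟨rfl, rfl⟩ := Kr.pr_inj k
    obtain ⟨rfl, rfl⟩ := Kr.nd_inj.1 e
    exact Or.inl ⟨a, rfl, h2⟩
  case' inr.inr.inr.inr.inr.inr.inr.inr.inl =>
    obtain ⟨rfl, rfl⟩ := Kr.pr_inj k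
    obtain ⟨rfl, rfl⟩ := Kr.nd_inj.1 e
    exact Or.inr ⟨a, n, rfl, h1⟩
  all_goals exact absurd e (M.nd_ne (by norm_num) _ _ _ _)

theorem Kr.Ev_trec_inv (h : M.Ev (M.nd 8 f g) (M.pr x y)) :
    (∃ a, x = M.pr a M.zr ∧ M.Ev f (M.pr a y)) ∨
    ∃ a n, x = M.pr a (M.S n) ∧ M.Ev (M.tst f g) (M.pr (M.pr a n) y) := by
  rcases Kr.Ev_cases h with ⟨e, -⟩ | ⟨e, -⟩ | ⟨e, -⟩ | ⟨e, -⟩ | ⟨e, -⟩ | ⟨_, _, _, _, _, e, -⟩ |
    ⟨_, _, _, _, _, e, -⟩ | ⟨_, _, _, _, e, -⟩ |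
    ⟨_, _, _, _, _, e, -⟩ |
    ⟨b, c, a, y', e, k, h1, h2⟩ | ⟨b, c, a, n, y', e, k, h1⟩
  case' inr.inr.inr.inr.inr.inr.inr.inr.inr.inl =>
    obtain ⟨rfl, rfl⟩ := Kr.pr_inj k
    obtain ⟨rfl, rfl⟩ := Kr.nd_inj.1 e
    exact Or.inl ⟨a, rfl, h2⟩
  case' inr.inr.inr.inr.inr.inr.inr.inr.inr.inr =>
    obtain ⟨rfl, rfl⟩ := Kr.pr_inj k
    obtain ⟨rfl, rfl⟩ := Kr.nd_inj.1 e
    exact Or.inr ⟨a, n, rfl, h1⟩
  all_goals exact absurd e (M.nd_ne (by norm_num) _ _ _ _)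

theorem Kr.gf_pst {f g : M.D w} (h : M.gf (M.pst f g)) : M.gf f ∧ M.gf g := by
  have h := (Kr.gf_nd (by norm_num) (by norm_num)).1 h
  have h2 := (Kr.gf_nd (by norm_num) (by norm_num)).1 h.2
  have h3 := (Kr.gf_nd (by norm_num) (by norm_num)).1 h2.2
  have h4 := (Kr.gf_nd (by norm_num) (by norm_num)).1 h3.2
  exact ⟨h4.1, h.1⟩

theorem Kr.gf_tst {f g : M.D w} (h : M.gf (M.tst f g)) : M.gf f ∧ M.gf g := by
  have h := (Kr.gf_nd (by norm_num) (by norm_num)).1 h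
  have h2 := (Kr.gf_nd (by norm_num) (by norm_num)).1 h.2
  have h3 := (Kr.gf_nd (by norm_num) (by norm_num)).1 h2.2
  have h4 := (Kr.gf_nd (by norm_num) (by norm_num)).1 h3.2
  have h5 := (Kr.gf_nd (by norm_num) (by norm_num)).1 h4.1
  have h6 := (Kr.gf_nd (by norm_num) (by norm_num)).1 h5.1
  exact ⟨h6.1, h.1⟩

theorem Kr.evc_gf_cs (t m : M.D w) (g1 : M.gf (M.fn left (M.evc (M.hd m))))
    (g2 : M.gf (M.fn left (M.evc (M.tl m)))) : M.gf (M.fn left (M.evc (M.cs t m))) := by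
  obtain ⟨f1, z1, h1⟩ : ∃ f1 z1, M.evc (M.hd m) = M.pr f1 z1 := ⟨_, _, (M.pr_eta _).symm⟩
  obtain ⟨x1, y1, rfl⟩ : ∃ x1 y1, z1 = M.pr x1 y1 := ⟨_, _, (M.pr_eta _).symm⟩
  obtain ⟨f2, z2, h2⟩ : ∃ f2 z2, M.evc (M.tl m) = M.pr f2 z2 := ⟨_, _, (M.pr_eta _).symm⟩
  obtain ⟨x2, y2, rfl⟩ : ∃ x2 y2, z2 = M.pr x2 y2 := ⟨_, _, (M.pr_eta _).symm⟩
  obtain ⟨a1, n1, ex⟩ : ∃ a1 n1, x1 = M.pr a1 n1 := ⟨_, _, (M.pr_eta _).symm⟩
  rw [h1, M.left_pr] at g1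
  rw [h2, M.left_pr] at g2
  rcases M.small_or 11 t with ⟨k, hk, rfl⟩ | ⟨b, rfl⟩
  · interval_cases k
    · rw [Kr.evc_0, M.left_pr]; exact M.gf_small (by norm_num)
    · rw [Kr.evc_1, M.left_pr]; exact M.gf_small (by norm_num)
    · rw [Kr.evc_2, M.left_pr]; exact M.gf_small (by norm_num)
    · rw [Kr.evc_3, M.left_pr]; exact M.gf_small (by norm_num)
    · rw [Kr.evc_4, M.left_pr]; exact M.gf_small (by norm_num)
    · rcases Kr.evc_5 h1 h2 with ⟨-, h⟩ | ⟨-, h⟩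
      · rw [h, M.left_pr]; exact (Kr.gf_nd (by norm_num) (by norm_num)).2 ⟨g1, g2⟩
      · rw [h, M.left_pr]; exact M.gf_small (by norm_num)
    · rcases Kr.evc_6 h1 h2 with ⟨-, h⟩ | ⟨-, h⟩
      · rw [h, M.left_pr]; exact (Kr.gf_nd (by norm_num) (by norm_num)).2 ⟨g2, g1⟩
      · rw [h, M.left_pr]; exact M.gf_small (by norm_num)
    · rw [Kr.evc_7 h1, M.left_pr]
      exact (Kr.gf_nd (by norm_num) (by norm_num)).2 ⟨g1, M.gf_nfn _⟩
    · rw [ex] at h1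
      rcases Kr.evc_8 h1 with ⟨f', g', e, h⟩ | ⟨-, h⟩
      · rw [h, M.left_pr]
        rw [e] at g1
        exact (Kr.gf_nd (by norm_num) (by norm_num)).2 (Kr.gf_pst g1)
      · rw [h, M.left_pr]; exact M.gf_small (by norm_num)
    · rw [Kr.evc_9 h1, M.left_pr]
      exact (Kr.gf_nd (by norm_num) (by norm_num)).2 ⟨g1, M.gf_nfn _⟩
    · rw [ex] at h1
      rcases Kr.evc_10 h1 with ⟨f', g', e, h⟩ | ⟨-, h⟩
      · rw [h, M.left_pr]
        rw [e] at g1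
        exact (Kr.gf_nd (by norm_num) (by norm_num)).2 (Kr.gf_tst g1)
      · rw [h, M.left_pr]; exact M.gf_small (by norm_num)
  · rw [Kr.evc_cs]
    have := M.sw_up (fs := evL) (d := ev0)
      (a := M.pr (M.pr (M.evc (M.hd m)) (M.evc (M.tl m))) m) (n := b)
    rw [show (evL (V := V)).length = 11 from rfl] at this
    rw [this, Kr.fn_ev0, M.left_pr]
    exact M.gf_small (by norm_num)

theorem Kr.evc_gf (q : M.D w) : M.gf (M.fn left (M.evc q)) := by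
  have := M.find (eq (comp nfnF (comp left (comp evF right))) (comp left (comp evF right))) M.zr
    (by simp [KD.F, Kr.evc_zr])
    (fun {v} h t m h1 h2 => by
      have h1 : M.gf (M.fn left (M.evc (M.hd m))) := by simpa [KD.F, Kr.gf] using h1
      have h2 : M.gf (M.fn left (M.evc (M.tl m))) := by simpa [KD.F, Kr.gf] using h2
      suffices M.gf (M.fn left (M.evc (M.cs t m))) by simpa [KD.F, Kr.gf] using this
      exact Kr.evc_gf_cs t m h1 h2) q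
  simpa [KD.F, Kr.gf] using this

theorem Kr.Ev_gf (h : M.Ev f z) : M.gf f := by
  obtain ⟨q, hq⟩ := h
  have := M.evc_gf q
  rwa [hq, M.left_pr] at this

end

end HAr
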