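import Pool.Agent.Lib.MP_61e577_lc.Ar.Evc

/-! Soundness and completeness of evaluation traces inside the proof predicate. -/

namespace HAr

open Fn Fm

variable {V U : Type} {M : Kr V} {w : M.W} {f x y : M.D w}

/-! ### What a trace says is provable -/

theorem Kr.Nv_pst {a b x n y : M.D w} (h : M.Nv (M.pst a b) (M.pr x n) y) :
    M.Nv (M.nd 7 a b) (M.pr x (M.S n)) y := by
  have g := Kr.Nv_gf h
  simp only [Kr.pst, Kr.gf_nd5, Kr.gf_nd6, Kr.gf_nd7] at g
  obtain ⟨hb, -, -, ha, -⟩ := g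
  refine Kr.Pe_trans ?_ h
  refine Kr.Pe_trans (Kr.Pe_comp (Kr.Pe_refl (Kr.gf_nd7.2 ⟨ha, hb⟩))
    (Kr.Pe_symm (Kr.Pe_pr _ _))) ?_
  rw [Kr.num_S]
  refine Kr.Pe_trans ?_ (Kr.Pe_comp (Kr.Pe_refl (Kr.Nv_gf h)) (Kr.Pe_pr _ _))
  exact Kr.Pe_eq (comp (prec (.mv 0) (.mv 1)) (pair (.mv 2) (comp succ (.mv 3))))
    (comp (comp (.mv 1) (pair left (pair right (prec (.mv 0) (.mv 1))))) (pair (.mv 2) (.mv 3)))
    (fun N w d => by simp) ha hb (Kr.gf_num x) (Kr.gf_num n)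

theorem Kr.Nv_tst {a b x n y : M.D w} (h : M.Nv (M.tst a b) (M.pr x n) y) :
    M.Nv (M.nd 8 a b) (M.pr x (M.S n)) y := by
  have g := Kr.Nv_gf h
  simp only [Kr.tst, Kr.gf_nd5, Kr.gf_nd6, Kr.gf_nd8] at g
  obtain ⟨hb, -, -, ⟨⟨ha, -⟩, -⟩, -⟩ := g
  refine Kr.Pe_trans ?_ h
  refine Kr.Pe_trans (Kr.Pe_comp (Kr.Pe_refl (Kr.gf_nd8.2 ⟨ha, hb⟩))
    (Kr.Pe_symm (Kr.Pe_pr _ _))) ?_
  rw [Kr.num_S]
  refine Kr.Pe_trans ?_ (Kr.Pe_comp (Kr.Pe_refl (Kr.Nv_gf h)) (Kr.Pe_pr _ _))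
  exact Kr.Pe_eq (comp (trec (.mv 0) (.mv 1)) (pair (.mv 2) (comp succ (.mv 3))))
    (comp (comp (.mv 1) (pair left (pair right (pair
      (comp (trec (.mv 0) (.mv 1)) (pair left (comp left right)))
      (comp (trec (.mv 0) (.mv 1)) (pair left (comp right right))))))) (pair (.mv 2) (.mv 3)))
    (fun N w d => by simp) ha hb (Kr.gf_num x) (Kr.gf_num n)

theorem Kr.Nv_ev0 : M.Nv (M.nd 0 M.zr M.zr) (M.zr (w := w)) M.zr := by
  have := M.Nv_idn (M.zr (w := w))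
  rwa [M.fn_idn] at this

/-- What the result of a trace says. -/
def Kr.Rv (M : Kr V) {w : M.W} (r : M.D w) : Prop :=
  M.Nv (M.fn left r) (M.fn left (M.fn right r)) (M.fn right (M.fn right r))

theorem Kr.Rv_pr {f x y : M.D w} : M.Rv (M.pr f (M.pr x y)) ↔ M.Nv f x y := by
  simp [Kr.Rv]

theorem Kr.Rv_pst (F G : Fn V) (r m : M.D w) {f1 x1 y1 : M.D w} (h1 : M.Nv f1 x1 y1) :
    M.Rv (M.fn (comp (cnq left (pstF F G) (pair (ndF 7 F G)
      (pair (pair (comp left (comp left right)) (comp succ (comp right (comp left right))))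
        (comp right right))) ev0) (comp left left))
      (M.pr (M.pr (M.pr f1 (M.pr x1 y1)) r) m)) := by
  rw [M.fn_comp]
  have e0 : M.fn (comp left left) (M.pr (M.pr (M.pr f1 (M.pr x1 y1)) r) m) =
      M.pr f1 (M.pr x1 y1) := by simp
  rw [e0]
  by_cases e : f1 = M.pst (M.fn F (M.pr f1 (M.pr x1 y1))) (M.fn G (M.pr f1 (M.pr x1 y1)))
  · rw [Kr.cnq_eq (by rw [Kr.fn_pstF, M.left_pr]; exact e)]
    simp only [M.fn_pair, M.fn_comp, Kr.fn_ndF, M.left_pr, M.right_pr, Kr.Rv_pr]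
    refine Kr.Nv_pst ?_
    rw [← e, M.pr_eta]
    exact h1
  · rw [Kr.cnq_ne (by rw [Kr.fn_pstF, M.left_pr]; exact e), Kr.fn_ev0, Kr.Rv_pr]
    exact Kr.Nv_ev0

theorem Kr.Rv_tst (F G : Fn V) (r m : M.D w) {f1 x1 y1 : M.D w} (h1 : M.Nv f1 x1 y1) :
    M.Rv (M.fn (comp (cnq left (tstF F G) (pair (ndF 8 F G)
      (pair (pair (comp left (comp left right)) (comp succ (comp right (comp left right))))
        (comp right right))) ev0) (comp left left))
      (M.pr (M.pr (M.pr f1 (M.pr x1 y1)) r) m)) := by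
  rw [M.fn_comp]
  have e0 : M.fn (comp left left) (M.pr (M.pr (M.pr f1 (M.pr x1 y1)) r) m) =
      M.pr f1 (M.pr x1 y1) := by simp
  rw [e0]
  by_cases e : f1 = M.tst (M.fn F (M.pr f1 (M.pr x1 y1))) (M.fn G (M.pr f1 (M.pr x1 y1)))
  · rw [Kr.cnq_eq (by rw [Kr.fn_tstF, M.left_pr]; exact e)]
    simp only [M.fn_pair, M.fn_comp, Kr.fn_ndF, M.left_pr, M.right_pr, Kr.Rv_pr]
    refine Kr.Nv_tst ?_
    rw [← e, M.pr_eta]
    exact h1
  · rw [Kr.cnq_ne (by rw [Kr.fn_tstF, M.left_pr]; exact e), Kr.fn_ev0, Kr.Rv_pr]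
    exact Kr.Nv_ev0

theorem Kr.Rv_step (t m f1 x1 y1 f2 x2 y2 : M.D w) (h1 : M.Nv f1 x1 y1) (h2 : M.Nv f2 x2 y2) :
    M.Rv (M.fn (sw evL ev0) (M.pr (M.pr (M.pr (M.pr f1 (M.pr x1 y1)) (M.pr f2 (M.pr x2 y2))) m)
      t)) := by
  rcases M.small_or 11 t with ⟨k, hk, rfl⟩ | ⟨b, rfl⟩
  · rw [Kr.sw_nm (by simpa [evL] using hk)]
    interval_cases k
    · simpa [evL, Kr.Rv] using M.Nv_idn m
    · simpa [evL, Kr.Rv] using M.Nv_zero m
    · simpa [evL, Kr.Rv] using M.Nv_succ m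
    · simpa [evL, Kr.Rv] using M.Nv_left m
    · simpa [evL, Kr.Rv] using M.Nv_right m
    · show M.Rv (M.fn (cnq _ _ _ _) _)
      by_cases e : x1 = x2
      · rw [Kr.cnq_eq (by simpa using e)]
        subst e
        simpa [Kr.Rv] using Kr.Nv_pair h1 h2
      · rw [Kr.cnq_ne (by simpa using e), Kr.fn_ev0, Kr.Rv_pr]
        exact Kr.Nv_ev0
    · show M.Rv (M.fn (cnq _ _ _ _) _)
      by_cases e : y1 = x2
      · rw [Kr.cnq_eq (by simpa using e)]
        subst e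
        simpa [Kr.Rv] using Kr.Nv_comp h1 h2
      · rw [Kr.cnq_ne (by simpa using e), Kr.fn_ev0, Kr.Rv_pr]
        exact Kr.Nv_ev0
    · simpa [evL, Kr.Rv] using Kr.Nv_prec0 h1 (M.gf_nfn (M.tl m))
    · exact Kr.Rv_pst _ _ _ _ h1
    · simpa [evL, Kr.Rv] using Kr.Nv_trec0 h1 (M.gf_nfn (M.tl m))
    · exact Kr.Rv_tst _ _ _ _ h1
  · have := M.sw_up (fs := evL) (d := ev0)
      (a := M.pr (M.pr (M.pr f1 (M.pr x1 y1)) (M.pr f2 (M.pr x2 y2))) m) (n := b)
    rw [show (evL : List (Fn V)).length = 11 from rfl] at this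
    rw [this, Kr.fn_ev0, Kr.Rv_pr]
    exact Kr.Nv_ev0

/-- The formula: what the result of the trace says. -/
def rvT : Fm V := prT (ndF 0 (ndF 6 (comp left (comp evF right))
  (comp numF (comp left (comp right (comp evF right)))))
  (comp numF (comp right (comp right (comp evF right)))))

theorem Kr.F_rvT {a q : M.D w} : M.F rvT (M.pr a q) ↔ M.Rv (M.evc q) := by
  rw [rvT, Kr.F_pe]
  simp only [Kr.fn_ndF, M.fn_comp, M.right_pr, Kr.fn_evF, Kr.fn_numF]
  exact Iff.rfl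

theorem Kr.Rv_evc (q : M.D w) : M.Rv (M.evc q) := by
  have := M.find rvT M.zr
    (by
      rw [Kr.F_rvT, Kr.evc_zr, Kr.Rv_pr]
      exact Kr.Nv_ev0)
    (fun {v} h t m h1 h2 => by
      rw [Kr.F_rvT] at h1 h2 ⊢
      rw [Kr.evc_cs]
      have e1 := M.pr_eta (M.evc (M.hd m))
      have e2 := M.pr_eta (M.evc (M.tl m))
      rw [← M.pr_eta (M.fn right (M.evc (M.hd m)))] at e1
      rw [← M.pr_eta (M.fn right (M.evc (M.tl m)))] at e2
      rw [← e1, ← e2]
      exact Kr.Rv_step t m _ _ _ _ _ _ h1 h2) q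
  rwa [Kr.F_rvT] at this

/-- What a trace says is provable. -/
theorem Kr.Ev_Pe (h : M.Ev f (M.pr x y)) : M.Pe (M.nd 6 f (M.num x)) (M.num y) := by
  obtain ⟨q, hq⟩ := h
  have := Kr.Rv_evc q
  rw [hq, Kr.Rv_pr] at this
  exact this

/-! ### Recursion on internal function codes, inside the proof predicate -/

theorem as4_map {X Y : Type} (g : X → Y) (a b c d : X) :
    (fun i => g (as4 a b c d i)) = as4 (g a) (g b) (g c) (g d) := by
  funext i
  match i with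
  | 0 => rfl
  | 1 => rfl
  | 2 => rfl
  | _ + 3 => rfl

/-- The code of a scheme about a function and a numeral. -/
def Kr.phc (M : Kr V) {w : M.W} (φ : Fm ℕ) (a b : M.D w) : M.D w :=
  M.icm (as4 a b a a) (fun _ => M.tc) φ

/-- The instance of a scheme for a function and a constant. -/
def phT (φ : Fm ℕ) (F c : Fn U) : Fm U := φ.ms (as4 F c F F) (fun _ => eq zero zero)

theorem Kr.icm_phT (ρ τ : U → M.D w) (φ : Fm ℕ) (F c : Fn U) :
    M.icm ρ τ (phT φ F c) = M.phc φ (M.icf ρ F) (M.icf ρ c) := by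
  rw [phT, Kr.icm_ms, as4_map (M.icf ρ)]
  exact rfl

/-- The formula: the scheme is provable for the argument, a function code, and its numeral. -/
def phcT (φ : Fm ℕ) : Fm V := prT (cdm (as4 idn numF idn idn) (fun _ => topF) φ)

theorem Kr.F_phcT {φ : Fm ℕ} {x : M.D w} : M.F (phcT φ) x ↔ M.Pv (M.phc φ x (M.num x)) := by
  rw [phcT, Kr.F_prT, Kr.fn_cdm, as4_map (fun f => M.fn f x)]
  simp only [Kr.fn_topF, M.fn_idn, Kr.fn_numF]
  exact Iff.rfl

theorem Kr.phc_small (φ : Fm ℕ) (k : ℕ) (C : Fn ℕ) (hC : ∀ (M : Kr V) (w : M.W) (ρ : ℕ → M.D w),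
    M.icf ρ C = M.nd k M.zr M.zr)
    (hs : ∀ (N : Kr ℕ) (w : N.W), (∀ (v : N.W) (_ : w ≤ v) (d : N.D v),
      N.fn (.mv 0) d = N.nd k N.zr N.zr) → ∀ d : N.D w, N.F (phT φ C (.mv 0)) d) :
    M.Pv (M.phc φ (M.nd k (M.zr (w := w)) M.zr) (M.num (M.nd k M.zr M.zr))) := by
  have := Kr.ruleC (M := M) (w := w) 1 [eq left (ndF k zero zero)] [] (phT φ C (.mv 0))
    (by intro θ hθ; rw [List.mem_singleton.1 hθ]; trivial)
    (by
      intro N u e hc hθ _ d
      have h1 := hθ _ (List.mem_singleton.2 rfl)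
      have h1 : N.fn left e = N.nd k N.zr N.zr := by simpa [KD.F] using h1
      refine hs N u ?_ d
      intro v h x
      rw [hc 0 (by norm_num) v h x, prj, ← N.tr_fn, h1, N.tr_nd, N.tr_zr])
    (ρ := fun _ => M.num (M.nd k M.zr M.zr)) (τ := fun _ => M.tc)
    (fun _ => Kr.gf_num _) (fun _ => by simp) (M.pr (M.nd k M.zr M.zr) M.zr)
    (by
      intro i hi
      obtain rfl : i = 0 := by omega
      simp [prj])
    (by
      intro θ hθ
      rw [List.mem_singleton.1 hθ]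
      simp [KD.F])
    (by intro ψ hψ; exact absurd hψ (by simp))
  rw [Kr.icm_phT, hC] at this
  exact this

theorem Kr.phc_bin (φ : Fm ℕ) (k : ℕ) (C : Fn ℕ) (hC : ∀ (M : Kr V) (w : M.W) (ρ : ℕ → M.D w),
    M.icf ρ C = M.nd k (ρ 3) (ρ 4))
    (hs : ∀ (N : Kr ℕ) (w : N.W) (a b : N.D w),
      (∀ (v : N.W) (h : w ≤ v) (d : N.D v), N.fn (.mv 0) d = N.nd k (N.tr h a) (N.tr h b)) →
      (∀ (v : N.W) (h : w ≤ v) (d : N.D v), N.fn (.mv 1) d = N.tr h a) →
      (∀ (v : N.W) (h : w ≤ v) (d : N.D v), N.fn (.mv 2) d = N.tr h b) →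
      (∀ (v : N.W) (_ : w ≤ v) (d : N.D v), N.F (phT φ (.mv 3) (.mv 1)) d) →
      (∀ (v : N.W) (_ : w ≤ v) (d : N.D v), N.F (phT φ (.mv 4) (.mv 2)) d) →
      ∀ d : N.D w, N.F (phT φ C (.mv 0)) d) {a b : M.D w} (ga : M.gf a) (gb : M.gf b)
    (ha : M.Pv (M.phc φ a (M.num a))) (hb : M.Pv (M.phc φ b (M.num b))) :
    M.Pv (M.phc φ (M.nd k a b) (M.num (M.nd k a b))) := by
  have := Kr.rule3 (M := M) (w := w) k idn idn
    [phT φ (.mv 3) (.mv 1), phT φ (.mv 4) (.mv 2)] (phT φ C (.mv 0))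
    (by
      intro N u a b h0 h1 h2 _ hh d
      exact hs N u a b h0 h1 h2 (hh _ (by simp)) (hh _ (by simp)) d)
    ga gb (τ := fun _ => M.tc) (fun _ => by simp) rfl (a := a) (b := b)
    (by
      intro ψ hψ
      simp only [List.mem_cons, List.not_mem_nil, or_false] at hψ
      rcases hψ with rfl | rfl
      · rw [Kr.icm_phT]; exact ha
      · rw [Kr.icm_phT]; exact hb)
  rw [Kr.icm_phT, hC] at this
  exact this

/-- The meaning of a scheme about a function and a constant. -/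
def Mng (φ : Fm ℕ) (Φ : ∀ (N : Kr ℕ) {w : N.W}, N.D w → Fn ℕ → Prop) : Prop :=
  ∀ (N : Kr ℕ) (w : N.W) (a : N.D w) (F c : Fn ℕ),
    (∀ (v : N.W) (h : w ≤ v) (d : N.D v), N.fn c d = N.tr h a) →
    ((∀ (v : N.W) (_ : w ≤ v) (d : N.D v), N.F (phT φ F c) d) ↔ Φ N a F)

/-- Recursion on function codes for schemes: what holds for the constructors in all models is
provable for all internal function codes. -/
theorem Kr.Pv_rec (φ : Fm ℕ) (Φ : ∀ (N : Kr ℕ) {w : N.W}, N.D w → Fn ℕ → Prop) (hm : Mng φ Φ)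
    (h0 : ∀ (N : Kr ℕ) (w : N.W), Φ N (N.nd 0 (N.zr (w := w)) N.zr) idn)
    (h1 : ∀ (N : Kr ℕ) (w : N.W), Φ N (N.nd 1 (N.zr (w := w)) N.zr) zero)
    (h2 : ∀ (N : Kr ℕ) (w : N.W), Φ N (N.nd 2 (N.zr (w := w)) N.zr) succ)
    (h3 : ∀ (N : Kr ℕ) (w : N.W), Φ N (N.nd 3 (N.zr (w := w)) N.zr) left)
    (h4 : ∀ (N : Kr ℕ) (w : N.W), Φ N (N.nd 4 (N.zr (w := w)) N.zr) right)
    (h5 : ∀ (N : Kr ℕ) (w : N.W) (a b : N.D w) (F G : Fn ℕ), Φ N a F → Φ N b G →
      Φ N (N.nd 5 a b) (pair F G))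
    (h6 : ∀ (N : Kr ℕ) (w : N.W) (a b : N.D w) (F G : Fn ℕ), Φ N a F → Φ N b G →
      Φ N (N.nd 6 a b) (comp F G))
    (h7 : ∀ (N : Kr ℕ) (w : N.W) (a b : N.D w) (F G : Fn ℕ), Φ N a F → Φ N b G →
      Φ N (N.nd 7 a b) (prec F G))
    (h8 : ∀ (N : Kr ℕ) (w : N.W) (a b : N.D w) (F G : Fn ℕ), Φ N a F → Φ N b G →
      Φ N (N.nd 8 a b) (trec F G)) {f : M.D w} (hf : M.gf f) :
    M.Pv (M.icm (as4 f (M.num f) f f) (fun _ => M.tc) φ) := by
  have small : ∀ (k : ℕ) (C : Fn ℕ) (_ : ∀ (M : Kr V) (w : M.W) (ρ : ℕ → M.D w),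
      M.icf ρ C = M.nd k M.zr M.zr) (_ : ∀ (N : Kr ℕ) (w : N.W),
      Φ N (N.nd k (N.zr (w := w)) N.zr) C) (v : M.W),
      M.Pv (M.phc φ (M.nd k (M.zr (w := v)) M.zr) (M.num (M.nd k M.zr M.zr))) := by
    intro k C hC hk v
    refine Kr.phc_small φ k C hC ?_
    intro N u hc d
    refine (hm N u (N.nd k N.zr N.zr) C (.mv 0) ?_).2 (hk N u) u (le_refl u) d
    intro v h x
    rw [hc v h x, N.tr_nd, N.tr_zr]
  have bin : ∀ (k : ℕ) (C : Fn ℕ) (_ : ∀ (M : Kr V) (w : M.W) (ρ : ℕ → M.D w),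
      M.icf ρ C = M.nd k (ρ 3) (ρ 4)) (_ : ∀ (N : Kr ℕ) (w : N.W) (a b : N.D w),
      Φ N a (.mv 3) → Φ N b (.mv 4) → Φ N (N.nd k a b) C) (v : M.W) (x y : M.D v)
      (_ : M.gf x) (_ : M.gf y) (_ : M.Pv (M.phc φ x (M.num x)))
      (_ : M.Pv (M.phc φ y (M.num y))), M.Pv (M.phc φ (M.nd k x y) (M.num (M.nd k x y))) := by
    intro k C hC hk v x y gx gy hx hy
    refine Kr.phc_bin φ k C hC ?_ gx gy hx hy
    intro N u a b e0 e1 e2 j1 j2 d
    refine (hm N u (N.nd k a b) C (.mv 0) ?_).2 (hk N u a b ((hm N u a _ _ e1).1 j1)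
      ((hm N u b _ _ e2).1 j2)) u (le_refl u) d
    intro v h x
    rw [e0 v h x, N.tr_nd]
  have key := M.gf_ind (sub (phcT φ) right) M.zr
    (by
      intro v h k hk
      show M.F (phcT φ) _
      rw [M.right_pr, Kr.F_phcT]
      interval_cases k
      · exact small 0 idn (fun _ _ _ => rfl) h0 v
      · exact small 1 zero (fun _ _ _ => rfl) h1 v
      · exact small 2 succ (fun _ _ _ => rfl) h2 v
      · exact small 3 left (fun _ _ _ => rfl) h3 v
      · exact small 4 right (fun _ _ _ => rfl) h4 v)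
    (by
      intro v h k x y k5 k9 gx gy hx hy
      have hx : M.F (phcT φ) _ := hx
      have hy : M.F (phcT φ) _ := hy
      rw [M.right_pr, Kr.F_phcT] at hx hy
      show M.F (phcT φ) _
      rw [M.right_pr, Kr.F_phcT]
      interval_cases k
      · exact bin 5 (pair (.mv 3) (.mv 4)) (fun _ _ _ => rfl)
          (fun N w a b ha hb => h5 N w a b _ _ ha hb) v x y gx gy hx hy
      · exact bin 6 (comp (.mv 3) (.mv 4)) (fun _ _ _ => rfl)
          (fun N w a b ha hb => h6 N w a b _ _ ha hb) v x y gx gy hx hy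
      · exact bin 7 (prec (.mv 3) (.mv 4)) (fun _ _ _ => rfl)
          (fun N w a b ha hb => h7 N w a b _ _ ha hb) v x y gx gy hx hy
      · exact bin 8 (trec (.mv 3) (.mv 4)) (fun _ _ _ => rfl)
          (fun N w a b ha hb => h8 N w a b _ _ ha hb) v x y gx gy hx hy)
    hf
  have key : M.F (phcT φ) _ := key
  rwa [M.right_pr, Kr.F_phcT] at key

/-! ### Soundness and completeness of traces -/

theorem ms_evF (r : U → Fn V) : (evF : Fn U).ms r = evF := rfl

theorem ms_evT (r : U → Fn V) (t : U → Fm V) (c : Fn U) : (evT c).ms r t = evT (c.ms r) := rfl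

/-- The formula: some trace has the result `(c, z)`. -/
def evA (c z : Fn V) : Fm V := ex (eq (comp evF right) (comp (pair c z) left))

theorem Kr.F_evA {c z : Fn V} {d : M.D w} : M.F (evA c z) d ↔ M.Ev (M.fn c d) (M.fn z d) := by
  simp [evA, KD.F, Kr.Ev]

/-- Traces for `a` give values of `F`. -/
def Kr.Snd (M : Kr V) {w : M.W} (a : M.D w) (F : Fn V) : Prop :=
  ∀ (v : M.W) (h : w ≤ v) (x y : M.D v), M.Ev (M.tr h a) (M.pr x y) → M.fn F x = y

/-- There are traces for `a` and all values of `F`. -/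
def Kr.Cpl (M : Kr V) {w : M.W} (a : M.D w) (F : Fn V) : Prop :=
  ∀ (v : M.W) (h : w ≤ v) (x : M.D v), M.Ev (M.tr h a) (M.pr x (M.fn F x))

theorem Kr.Snd_pair {a b : M.D w} {F G : Fn V} (h : M.Snd a F) (k : M.Snd b G) :
    M.Snd (M.nd 5 a b) (pair F G) := by
  intro v l x y e
  rw [Kr.tr_nd] at e
  obtain ⟨y1, y2, rfl, e1, e2⟩ := Kr.Ev_pair_inv e
  rw [M.fn_pair, h v l x y1 e1, k v l x y2 e2]

theorem Kr.Snd_comp {a b : M.D w} {F G : Fn V} (h : M.Snd a F) (k : M.Snd b G) :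
    M.Snd (M.nd 6 a b) (comp F G) := by
  intro v l x y e
  rw [Kr.tr_nd] at e
  obtain ⟨z, e1, e2⟩ := Kr.Ev_comp_inv e
  rw [M.fn_comp, k v l x z e1, h v l z y e2]

theorem Kr.Snd_prec {a b : M.D w} {F G : Fn V} (h : M.Snd a F) (k : M.Snd b G) :
    M.Snd (M.nd 7 a b) (prec F G) := by
  intro v l x y e
  obtain ⟨c, n, rfl⟩ : ∃ c n, x = M.pr c n := ⟨_, _, (M.pr_eta x).symm⟩
  have key := M.ind (all (imp (evA (comp left (comp left left))
      (pair (pair (comp right (comp left left)) (comp right left)) right))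
      (eq (comp (prec F G) (pair (comp right (comp left left)) (comp right left))) right)))
    (M.pr (M.tr l (M.nd 7 a b)) c)
    (by
      intro v2 l2 z v3 l3 e
      rw [Kr.F_evA] at e
      simp only [M.fn_comp, M.fn_pair, M.tr_pr, M.left_pr, M.right_pr, M.tr_tr, M.tr_zr,
        Kr.tr_nd] at e
      simp only [Kr.F_eq, M.fn_comp, M.fn_pair, M.tr_pr, M.left_pr, M.right_pr, M.tr_tr, M.tr_zr,
        M.prec_zr]
      rcases Kr.Ev_prec_inv e with ⟨a1, e1, e2⟩ | ⟨a1, n1, e1, e2⟩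
      · have e3 := congrArg (M.fn left) e1
        rw [M.left_pr, M.left_pr] at e3
        rw [e3]
        exact h _ _ _ _ e2
      · have e3 := congrArg (M.fn right) e1
        rw [M.right_pr, M.right_pr] at e3
        exact absurd e3.symm (M.succ_ne _))
    (by
      intro v1 l1 m ih v2 l2 z v3 l3 e
      rw [Kr.F_evA] at e
      simp only [M.fn_comp, M.fn_pair, M.tr_pr, M.left_pr, M.right_pr, M.tr_tr, M.tr_fn,
        Kr.tr_nd] at e
      simp only [Kr.F_eq, M.fn_comp, M.fn_pair, M.tr_pr, M.left_pr, M.right_pr, M.tr_tr, M.tr_fn,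
        M.prec_succ]
      rcases Kr.Ev_prec_inv e with ⟨a1, e1, e2⟩ | ⟨a1, n1, e1, e2⟩
      · have e3 := congrArg (M.fn right) e1
        rw [M.right_pr, M.right_pr] at e3
        exact absurd e3 (M.succ_ne _)
      · have e3 := congrArg (M.fn left) e1
        rw [M.left_pr, M.left_pr] at e3
        have e4 := congrArg (M.fn right) e1
        rw [M.right_pr, M.right_pr] at e4
        have e4 := M.succ_inj _ _ e4
        subst e3
        subst e4
        obtain ⟨y1, e5, e6⟩ := Kr.Ev_comp_inv e2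
        obtain ⟨y2, y3, rfl, e7, e8⟩ := Kr.Ev_pair_inv e5
        obtain ⟨y4, y5, rfl, e9, e10⟩ := Kr.Ev_pair_inv e8
        have e7 := Kr.Ev_left_inv e7
        have e9 := Kr.Ev_right_inv e9
        rw [M.left_pr] at e7
        rw [M.right_pr] at e9
        subst e7
        subst e9
        have ih := ih v3 (l2.trans l3) y5 v3 (le_refl v3)
        rw [Kr.F_evA] at ih
        simp only [Kr.F_eq, M.fn_comp, M.fn_pair, M.tr_pr, M.left_pr, M.right_pr, M.tr_tr,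
          M.tr_refl, Kr.tr_nd] at ih
        rw [ih e10]
        exact k _ _ _ _ e6) n
  have key := key v (le_refl v) y v (le_refl v)
  rw [Kr.F_evA] at key
  simp only [Kr.F_eq, M.fn_comp, M.fn_pair, M.tr_pr, M.left_pr, M.right_pr, M.tr_refl] at key
  exact key e

theorem Kr.Snd_trec {a b : M.D w} {F G : Fn V} (h : M.Snd a F) (k : M.Snd b G) :
    M.Snd (M.nd 8 a b) (trec F G) := by
  intro v l x y e
  obtain ⟨c, n, rfl⟩ : ∃ c n, x = M.pr c n := ⟨_, _, (M.pr_eta x).symm⟩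
  have key := M.tind (all (imp (evA (comp left (comp left left))
      (pair (pair (comp right (comp left left)) (comp right left)) right))
      (eq (comp (trec F G) (pair (comp right (comp left left)) (comp right left))) right)))
    (M.pr (M.tr l (M.nd 8 a b)) c)
    (by
      intro v2 l2 z v3 l3 e
      rw [Kr.F_evA] at e
      simp only [M.fn_comp, M.fn_pair, M.tr_pr, M.left_pr, M.right_pr, M.tr_tr, M.tr_zr,
        Kr.tr_nd] at e
      simp only [Kr.F_eq, M.fn_comp, M.fn_pair, M.tr_pr, M.left_pr, M.right_pr, M.tr_tr, M.tr_zr,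
        M.trec_zr]
      rcases Kr.Ev_trec_inv e with ⟨a1, e1, e2⟩ | ⟨a1, n1, e1, e2⟩
      · have e3 := congrArg (M.fn left) e1
        rw [M.left_pr, M.left_pr] at e3
        rw [e3]
        exact h _ _ _ _ e2
      · have e3 := congrArg (M.fn right) e1
        rw [M.right_pr, M.right_pr] at e3
        exact absurd e3.symm (M.succ_ne _))
    (by
      intro v1 l1 m1 m2 ih1 ih2 v2 l2 z v3 l3 e
      rw [Kr.F_evA] at e
      simp only [M.fn_comp, M.fn_pair, M.tr_pr, M.left_pr, M.right_pr, M.tr_tr, M.tr_fn,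
        Kr.tr_nd] at e
      simp only [Kr.F_eq, M.fn_comp, M.fn_pair, M.tr_pr, M.left_pr, M.right_pr, M.tr_tr, M.tr_fn,
        M.trec_succ]
      rcases Kr.Ev_trec_inv e with ⟨a1, e1, e2⟩ | ⟨a1, n1, e1, e2⟩
      · have e3 := congrArg (M.fn right) e1
        rw [M.right_pr, M.right_pr] at e3
        exact absurd e3 (M.succ_ne _)
      · have e3 := congrArg (M.fn left) e1
        rw [M.left_pr, M.left_pr] at e3
        have e4 := congrArg (M.fn right) e1
        rw [M.right_pr, M.right_pr] at e4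
        have e4 := M.succ_inj _ _ e4
        subst e3
        subst e4
        obtain ⟨y1, e5, e6⟩ := Kr.Ev_comp_inv e2
        obtain ⟨y2, y3, rfl, e7, e8⟩ := Kr.Ev_pair_inv e5
        obtain ⟨y4, y5, rfl, e9, e10⟩ := Kr.Ev_pair_inv e8
        obtain ⟨y6, y7, rfl, e11, e12⟩ := Kr.Ev_pair_inv e10
        obtain ⟨u1, f1, f2⟩ := Kr.Ev_comp_inv e11
        obtain ⟨u2, g1, g2⟩ := Kr.Ev_comp_inv e12
        obtain ⟨s1, s2, rfl, f3, f4⟩ := Kr.Ev_pair_inv f1
        obtain ⟨t1, t2, rfl, g3, g4⟩ := Kr.Ev_pair_inv g1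
        obtain ⟨s3, f5, f6⟩ := Kr.Ev_comp_inv f4
        obtain ⟨t3, g5, g6⟩ := Kr.Ev_comp_inv g4
        have e7 := Kr.Ev_left_inv e7
        have e9 := Kr.Ev_right_inv e9
        have f3 := Kr.Ev_left_inv f3
        have g3 := Kr.Ev_left_inv g3
        have f5 := Kr.Ev_right_inv f5
        have g5 := Kr.Ev_right_inv g5
        have f6 := Kr.Ev_left_inv f6
        have g6 := Kr.Ev_right_inv g6
        rw [M.left_pr] at e7 f3 g3
        rw [M.right_pr] at e9 f5 g5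
        subst e7 e9 f3 g3 f5 g5
        rw [M.left_pr] at f6
        rw [M.right_pr] at g6
        subst f6 g6
        have ih1 := ih1 v3 (l2.trans l3) y6 v3 (le_refl v3)
        have ih2 := ih2 v3 (l2.trans l3) y7 v3 (le_refl v3)
        rw [Kr.F_evA] at ih1 ih2
        simp only [Kr.F_eq, M.fn_comp, M.fn_pair, M.tr_pr, M.left_pr, M.right_pr, M.tr_tr,
          M.tr_refl, Kr.tr_nd] at ih1 ih2
        rw [ih1 f2, ih2 g2]
        exact k _ _ _ _ e6) n
  have key := key v (le_refl v) y v (le_refl v)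
  rw [Kr.F_evA] at key
  simp only [Kr.F_eq, M.fn_comp, M.fn_pair, M.tr_pr, M.left_pr, M.right_pr, M.tr_refl] at key
  exact key e

theorem Kr.Cpl_pair {a b : M.D w} {F G : Fn V} (h : M.Cpl a F) (k : M.Cpl b G) :
    M.Cpl (M.nd 5 a b) (pair F G) := by
  intro v l x
  rw [Kr.tr_nd, M.fn_pair]
  exact Kr.Ev_pair (h v l x) (k v l x)

theorem Kr.Cpl_comp {a b : M.D w} {F G : Fn V} (h : M.Cpl a F) (k : M.Cpl b G) :
    M.Cpl (M.nd 6 a b) (comp F G) := by
  intro v l x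
  rw [Kr.tr_nd, M.fn_comp]
  exact Kr.Ev_comp (k v l x) (h v l _)

theorem Kr.Cpl_prec {a b : M.D w} {F G : Fn V} (h : M.Cpl a F) (k : M.Cpl b G) :
    M.Cpl (M.nd 7 a b) (prec F G) := by
  intro v l x
  obtain ⟨c, n, rfl⟩ : ∃ c n, x = M.pr c n := ⟨_, _, (M.pr_eta x).symm⟩
  have key := M.ind (evA (comp left left) (pair (pair (comp right left) right)
      (comp (prec F G) (pair (comp right left) right)))) (M.pr (M.tr l (M.nd 7 a b)) c)
    (by
      rw [Kr.F_evA]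
      simp only [M.fn_comp, M.fn_pair, M.left_pr, M.right_pr, M.prec_zr, Kr.tr_nd]
      exact Kr.Ev_prec0 (Kr.Ev_gf (k v l c)) (h v l c))
    (by
      intro v1 l1 m ih
      rw [Kr.F_evA] at ih ⊢
      simp only [M.fn_comp, M.fn_pair, M.left_pr, M.right_pr, M.prec_succ, M.tr_pr, M.tr_tr,
        Kr.tr_nd] at ih ⊢
      refine Kr.Ev_precS (Kr.Ev_comp (Kr.Ev_pair (Kr.Ev_left _) (Kr.Ev_pair (Kr.Ev_right _) ih)) ?_)
      rw [M.left_pr, M.right_pr]
      exact k _ _ _) n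
  rw [Kr.F_evA] at key
  simp only [M.fn_comp, M.fn_pair, M.left_pr, M.right_pr] at key
  exact key

theorem Kr.Cpl_trec {a b : M.D w} {F G : Fn V} (h : M.Cpl a F) (k : M.Cpl b G) :
    M.Cpl (M.nd 8 a b) (trec F G) := by
  intro v l x
  obtain ⟨c, n, rfl⟩ : ∃ c n, x = M.pr c n := ⟨_, _, (M.pr_eta x).symm⟩
  have key := M.tind (evA (comp left left) (pair (pair (comp right left) right)
      (comp (trec F G) (pair (comp right left) right)))) (M.pr (M.tr l (M.nd 8 a b)) c)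
    (by
      rw [Kr.F_evA]
      simp only [M.fn_comp, M.fn_pair, M.left_pr, M.right_pr, M.trec_zr, Kr.tr_nd]
      exact Kr.Ev_trec0 (Kr.Ev_gf (k v l c)) (h v l c))
    (by
      intro v1 l1 m1 m2 ih1 ih2
      rw [Kr.F_evA] at ih1 ih2 ⊢
      simp only [M.fn_comp, M.fn_pair, M.left_pr, M.right_pr, M.trec_succ, M.tr_pr, M.tr_tr,
        Kr.tr_nd] at ih1 ih2 ⊢
      have e0 := Kr.Ev_left (M.pr (M.tr l1 c) (M.pr m1 m2))
      have e1 := Kr.Ev_right (M.pr (M.tr l1 c) (M.pr m1 m2))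
      rw [M.left_pr] at e0
      rw [M.right_pr] at e1
      have e2 := Kr.Ev_comp e1 (Kr.Ev_left (M.pr m1 m2))
      have e3 := Kr.Ev_comp e1 (Kr.Ev_right (M.pr m1 m2))
      rw [M.left_pr] at e2
      rw [M.right_pr] at e3
      have e4 := Kr.Ev_comp (Kr.Ev_pair e0 e2) ih1
      have e5 := Kr.Ev_comp (Kr.Ev_pair e0 e3) ih2
      exact Kr.Ev_trecS (Kr.Ev_comp (Kr.Ev_pair e0 (Kr.Ev_pair e1 (Kr.Ev_pair e4 e5)))
        (k _ _ _))) n
  rw [Kr.F_evA] at key
  simp only [M.fn_comp, M.fn_pair, M.left_pr, M.right_pr] at key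
  exact key

/-- Traces are sound, provably, for every internal function. -/
theorem Kr.Pv_evS {f : M.D w} (hf : M.gf f) : M.Pv (M.icm (as4 f (M.num f) f f) (fun _ => M.tc)
    (imp (evT (.mv 1)) (eq (comp (.mv 0) left) right) : Fm ℕ)) := by
  refine Kr.Pv_rec _ (fun N {_} a F => N.Snd a F) ?_ ?_ ?_ ?_ ?_ ?_ (fun N w a b F G => Kr.Snd_pair)
    (fun N w a b F G => Kr.Snd_comp) (fun N w a b F G => Kr.Snd_prec)
    (fun N w a b F G => Kr.Snd_trec) hf
  · intro N w a F c hc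
    constructor
    · intro h v l x y e
      have h1 := h v l (N.pr x y) v (le_refl v)
      rw [N.tr_refl] at h1
      have h2 : N.F (evT c) (N.pr x y) → N.fn (comp F left) (N.pr x y) = N.fn right (N.pr x y) := h1
      rw [Kr.F_evT, hc v l, N.fn_comp, N.left_pr, N.right_pr] at h2
      exact h2 e
    · intro h v l d v2 l2 e
      have e : N.F (evT c) (N.tr l2 d) := e
      rw [Kr.F_evT, hc v2 (l.trans l2), ← N.pr_eta (N.tr l2 d)] at e
      have := h v2 (l.trans l2) _ _ e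
      show N.fn (comp F left) (N.tr l2 d) = N.fn right (N.tr l2 d)
      rw [N.fn_comp]
      exact this
  · intro N w v l x y e
    rw [Kr.tr_nd, N.tr_zr] at e
    rw [N.fn_idn]
    exact (Kr.Ev_idn_inv e).symm
  · intro N w v l x y e
    rw [Kr.tr_nd, N.tr_zr] at e
    rw [N.fn_zero]
    exact (Kr.Ev_zero_inv e).symm
  · intro N w v l x y e
    rw [Kr.tr_nd, N.tr_zr] at e
    exact (Kr.Ev_succ_inv e).symm
  · intro N w v l x y e
    rw [Kr.tr_nd, N.tr_zr] at e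
    exact (Kr.Ev_left_inv e).symm
  · intro N w v l x y e
    rw [Kr.tr_nd, N.tr_zr] at e
    exact (Kr.Ev_right_inv e).symm

/-- Traces are complete, provably, for every internal function. -/
theorem Kr.Pv_evC {f : M.D w} (hf : M.gf f) : M.Pv (M.icm (as4 f (M.num f) f f) (fun _ => M.tc)
    (sub (evT (.mv 1)) (pair idn (.mv 0)) : Fm ℕ)) := by
  refine Kr.Pv_rec _ (fun N {_} a F => N.Cpl a F) ?_ ?_ ?_ ?_ ?_ ?_ (fun N w a b F G => Kr.Cpl_pair)
    (fun N w a b F G => Kr.Cpl_comp) (fun N w a b F G => Kr.Cpl_prec)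
    (fun N w a b F G => Kr.Cpl_trec) hf
  · intro N w a F c hc
    have e1 : ∀ (v : N.W) (l : w ≤ v) (d : N.D v), N.F (phT (sub (evT (.mv 1))
        (pair idn (.mv 0))) F c) d ↔ N.Ev (N.tr l a) (N.pr d (N.fn F d)) := by
      intro v l d
      show N.F (evT c) (N.fn (pair idn F) d) ↔ _
      rw [Kr.F_evT, hc v l, N.fn_pair, N.fn_idn]
    constructor
    · exact fun h v l x => (e1 v l x).1 (h v l x)
    · exact fun h v l x => (e1 v l x).2 (h v l x)
  · intro N w v l x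
    rw [Kr.tr_nd, N.tr_zr, N.fn_idn]
    exact Kr.Ev_idn x
  · intro N w v l x
    rw [Kr.tr_nd, N.tr_zr, N.fn_zero]
    exact Kr.Ev_zero x
  · intro N w v l x
    rw [Kr.tr_nd, N.tr_zr]
    exact Kr.Ev_succ x
  · intro N w v l x
    rw [Kr.tr_nd, N.tr_zr]
    exact Kr.Ev_left x
  · intro N w v l x
    rw [Kr.tr_nd, N.tr_zr]
    exact Kr.Ev_right x

end HAr
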