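import Pool.Agent.Lib.MP_61e577_lc.Ar.SndB2A

/-! Soundness of the rule (B2) of iH*. -/

namespace HAr

open Fn Fm

variable {V U : Type} {M : Kr V} {w : M.W} {σ : ℕ → Fm Empty}

/-- The bracket with instance provability (at zero) from `mv 1` with bound `mv 0` at the atoms
and the implications. -/
def bkT (σ : ℕ → Fm Empty) : HAs.Form → Fm ℕ
  | .atom n => sub (insT (.mv 0) (.mv 1) (cst (encM (bx (itp σ (.atom n)))))) zero
  | .bot => bot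
  | .conj A B => conj (bkT σ A) (bkT σ B)
  | .disj A B => disj (bkT σ A) (bkT σ B)
  | .imp A B => sub (insT (.mv 0) (.mv 1) (cst (encM (bx (itp σ (.imp A B)))))) zero
  | .box A => (bx (itp σ (.box A))).li

theorem b2_pos_ms {X : Type} (r : U → Fn X) (t : U → Fm X) : ∀ P : Fm U, P.Pos → (P.ms r t).Pos
  | .mv _, h => h.elim
  | eq _ _, _ => trivial
  | bot, _ => trivial
  | conj P Q, h => ⟨b2_pos_ms r t P h.1, b2_pos_ms r t Q h.2⟩
  | disj P Q, h => ⟨b2_pos_ms r t P h.1, b2_pos_ms r t Q h.2⟩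
  | imp _ _, h => h.elim
  | ex P, h => b2_pos_ms r t P h
  | all _, h => h.elim
  | sub P _, h => b2_pos_ms r t P h

theorem pos_bkT (σ : ℕ → Fm Empty) (A : HAs.Form) : (bkT σ A).Pos := by
  induction A with
  | atom n => exact trivial
  | bot => exact trivial
  | conj A B hA hB => exact ⟨hA, hB⟩
  | disj A B hA hB => exact ⟨hA, hB⟩
  | imp A B _ _ => exact trivial
  | box A _ => exact b2_pos_ms _ _ _ (pos_box σ A)

/-- The code of the bracket. -/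
def Kr.bk (M : Kr V) {w : M.W} (σ : ℕ → Fm Empty) (n F : M.D w) (A : HAs.Form) : M.D w :=
  M.icm (as4 (M.num n) (M.num F) (M.num F) (M.num F)) (fun _ => M.tc) (bkT σ A)

section
variable (σ) (n F : M.D w) (A B : HAs.Form)

theorem Kr.b2_bk_atom (k : ℕ) : M.bk σ n F (.atom k) = M.ic0 n F (M.am σ (.atom k)) := by
  show M.nd 7 (M.icm _ _ (insT (.mv 0) (.mv 1) (cst (encM (bx (itp σ (.atom k))))))) _ = _
  rw [Kr.insp_icm (n := n) (F := F) (c := M.am σ (.atom k)) rfl rfl (Kr.num_nm _ _).symm]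
  rfl

theorem Kr.b2_bk_im : M.bk σ n F (.imp A B) = M.ic0 n F (M.am σ (.imp A B)) := by
  show M.nd 7 (M.icm _ _ (insT (.mv 0) (.mv 1) (cst (encM (bx (itp σ (.imp A B))))))) _ = _
  rw [Kr.insp_icm (n := n) (F := F) (c := M.am σ (.imp A B)) rfl rfl (Kr.num_nm _ _).symm]
  rfl

theorem Kr.b2_bk_bt : M.bk σ n F .bot = M.btc := rfl

theorem Kr.b2_bk_cj : M.bk σ n F (.conj A B) = M.cj (M.bk σ n F A) (M.bk σ n F B) := rfl

theorem Kr.b2_bk_dj : M.bk σ n F (.disj A B) = M.dj (M.bk σ n F A) (M.bk σ n F B) := rfl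

theorem Kr.b2_bk_box : M.bk σ n F (.box A) = M.am σ (.box A) := by
  rw [Kr.bk, bkT, Kr.icm_li, Kr.am, Kr.nm_encM]

theorem Kr.b2_gm_bk : M.gm (M.bk σ n F A) :=
  Kr.gm_icm (Kr.gf_as4 (Kr.gf_num _) (Kr.gf_num _) (Kr.gf_num _) (Kr.gf_num _))
    (fun _ => by simp) _

end

/-- The bracket does not depend on the argument. -/
theorem Kr.b2_F_bkT {N : Kr ℕ} (σ : ℕ → Fm Empty) (A : HAs.Form) {u v : N.W} (h : u ≤ v)
    (d : N.D u) (e : N.D v) (k : N.F (bkT σ A) d) : N.F (bkT σ A) e := by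
  induction A generalizing u v with
  | atom n =>
    have k : N.F (insT (.mv 0) (.mv 1) (cst (encM (bx (itp σ (.atom n)))))) (N.fn zero d) := k
    have k := N.mono _ h _ k
    rw [N.tr_fn] at k
    show N.F (insT (.mv 0) (.mv 1) (cst (encM (bx (itp σ (.atom n)))))) (N.fn zero e)
    rwa [N.fn_zero] at k ⊢
  | bot => exact k.elim
  | conj A B hA hB => exact ⟨hA h d e k.1, hB h d e k.2⟩
  | disj A B hA hB => exact k.elim (fun k => Or.inl (hA h d e k)) fun k => Or.inr (hB h d e k)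
  | imp A B _ _ =>
    have k : N.F (insT (.mv 0) (.mv 1) (cst (encM (bx (itp σ (.imp A B)))))) (N.fn zero d) := k
    have k := N.mono _ h _ k
    rw [N.tr_fn] at k
    show N.F (insT (.mv 0) (.mv 1) (cst (encM (bx (itp σ (.imp A B)))))) (N.fn zero e)
    rwa [N.fn_zero] at k ⊢
  | box A _ =>
    have h1 := N.sound (inv_bx σ (.box A)).li (w := u) d
    have h2 : N.F (imp (bx (itp σ (.box A))).li (all (sub (bx (itp σ (.box A))).li right))) d := h1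
    have h3 := Kr.F_app h2 k v h e
    have h3 : N.F (bx (itp σ (.box A))).li (N.fn right (N.pr (N.tr h d) e)) := h3
    rw [N.right_pr] at h3
    exact h3

theorem Kr.b2_inv_bk (σ : ℕ → Fm Empty) (n F : M.D w) (A : HAs.Form) : M.inv (M.bk σ n F A) :=
  Kr.q0 (φ := imp (bkT σ A) (all (sub (bkT σ A) right)))
    (ρ := as4 (M.num n) (M.num F) (M.num F) (M.num F)) (τ := fun _ => M.tc)
    (Kr.gf_as4 (Kr.gf_num _) (Kr.gf_num _) (Kr.gf_num _) (Kr.gf_num _)) (fun _ => by simp)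
    (fun N u d v h k v' h' e => by
      show N.F (bkT σ A) (N.fn right (N.pr (N.tr h' (N.tr h d)) e))
      rw [N.right_pr]
      exact Kr.b2_F_bkT σ A h' _ e k)

theorem Kr.Gs.bk (n F : M.D w) (A : HAs.Form) : M.Gs (M.bk σ n F A) :=
  Kr.Gs.pos (bkT σ A) (pos_bkT σ A)
    (Kr.gf_as4 (Kr.gf_num _) (Kr.gf_num _) (Kr.gf_num _) (Kr.gf_num _)) (fun _ => by simp)
    (Kr.b2_inv_bk σ n F A)

/-! ### The translation with the bracket -/

section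
variable {n F R : M.D w}

/-- The parameter. -/
abbrev Kr.b2e (M : Kr V) {w : M.W} (n R F : M.D w) : M.D w := M.pr n (M.pr R (M.pr F M.zr))

theorem Kr.b2_RF : M.fn (comp left right) (M.b2e n R F) = R := by simp

theorem Kr.b2_BF (a : M.D w) : M.fn (BFl 1) (M.pr (M.b2e n R F) a) =
    M.dj (M.cj M.tc (M.iC n F a)) R := by
  rw [Kr.fn_BFl, Kr.b2_RF]
  have h : ∀ ρ τ : ℕ → M.D w, M.icm ρ τ (bxs 1) =
      M.nd 2 M.tc (M.icm ρ τ (insT (.mv 0) (.mv (0 + 2)) (.mv 1))) := fun ρ τ => rfl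
  rw [h, Kr.insp_icm (n := n) (F := F) (c := a)]
  · show M.fn (bxR 0) _ = _
    simp [bxR]
  · show M.fn (bxR 2) _ = _
    simp [bxR, prj]
  · show M.fn (bxR 1) _ = _
    simp [bxR]

theorem Kr.b2_trH (he : M.Va 1 (M.b2e n R F)) : ∀ (v : M.W) (h : w ≤ v),
    TrH M (trl 1) (BFl 1) (comp left right) smT (M.tr h (M.b2e n R F)) :=
  fun _ h => Kr.trH_trl (Kr.Va_mono h he)

theorem Kr.b2_trH0 (he : M.Va 1 (M.b2e n R F)) :
    TrH M (trl 1) (BFl 1) (comp left right) smT (M.b2e n R F) := Kr.trH_trl he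

theorem Kr.b2_gR (he : M.Va 1 (M.b2e n R F)) : M.gm R := by
  have := he.gR
  rwa [Kr.b2_RF] at this

theorem Kr.b2_iR (he : M.Va 1 (M.b2e n R F)) : M.inv R := by
  have := he.iR
  rwa [Kr.b2_RF] at this

theorem Kr.b2_pers (he : M.Va 1 (M.b2e n R F)) {a : M.D w} (ha : M.gm a)
    (hs : M.le (M.S a) n) :
    M.Pv (M.im (M.fn (trl 1) (M.pr (M.b2e n R F) a)) (M.dj (M.iC n F a) R)) := by
  have h := TrH.pers (Kr.b2_trH he) ha (Kr.F_smT.2 (by simpa using hs))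
  rw [Kr.b2_BF] at h
  have gR := Kr.b2_gR he
  exact Kr.q_tr h (Kr.b2_djm (Kr.q_snd (by simp) (M.gm_iC _ _ _)) (Kr.q_id gR))

theorem Kr.b2_pers0 (he : M.Va 1 (M.b2e n R F)) {a : M.D w} (ha : M.gm a)
    (hs : M.le (M.S a) n) :
    M.Pv (M.im (M.b2z (M.fn (trl 1) (M.pr (M.b2e n R F) a))) (M.dj (M.ic0 n F a) R)) := by
  have gR := Kr.b2_gR he
  exact Kr.q_tr (Kr.b2_mono (Kr.b2_pers he ha hs)) (Kr.q_tr (Kr.b2_dj1 (M.gm_iC _ _ _) gR)
    (Kr.b2_djm (Kr.q_id (Kr.b2_gm (M.gm_iC _ _ _))) (Kr.b2_inv2 gR (Kr.b2_iR he))))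

end

/-- With the bracket of some formulas as parameter formula, the translation of `E` implies the
bracket of `E` or the parameter formula. -/
theorem Kr.bk_tr {n F R : M.D w} (he : M.Va 1 (M.pr n (M.pr R (M.pr F M.zr))))
    (A : HAs.Form) (hA : M.le (M.S (M.am σ A)) n) :
    M.Pv (M.im (M.sbc (M.fn (trl 1) (M.pr (M.pr n (M.pr R (M.pr F M.zr))) (M.am σ A)))
      (M.nd 1 M.zr M.zr)) (M.dj (M.bk σ n F A) R)) := by
  have gR := Kr.b2_gR he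
  have H := Kr.b2_trH0 he
  induction A with
  | atom k => rw [Kr.b2_bk_atom]; exact Kr.b2_pers0 he (M.gm_am _ _) hA
  | bot =>
    rw [Kr.b2_am_bt, H.T_bt, Kr.b2_RF]
    exact Kr.q_tr (Kr.b2_inv2 gR (Kr.b2_iR he)) (Kr.q_inr Kr.gm_btc gR)
  | conj A B h1 h2 =>
    rw [Kr.b2_am_cj] at hA ⊢
    have h1 := h1 (Kr.insp_le1 hA)
    have h2 := h2 (Kr.insp_le2 hA)
    rw [H.T_cj, Kr.b2_bk_cj]
    exact Kr.q_tr (Kr.b2_cj1 (H.gT _ (M.gm_am _ _)) (H.gT _ (M.gm_am _ _)))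
      (Kr.q_tr (Kr.b2_cjm h1 h2) (Kr.b2_dst (Kr.b2_gm_bk _ _ _ _) (Kr.b2_gm_bk _ _ _ _) gR))
  | disj A B h1 h2 =>
    rw [Kr.b2_am_dj] at hA ⊢
    have h1 := h1 (Kr.insp_le1 hA)
    have h2 := h2 (Kr.insp_le2 hA)
    rw [H.T_dj, Kr.b2_bk_dj]
    have gA := Kr.b2_gm_bk (M := M) (w := w) σ n F A
    have gB := Kr.b2_gm_bk (M := M) (w := w) σ n F B
    exact Kr.q_tr (Kr.b2_dj1 (H.gT _ (M.gm_am _ _)) (H.gT _ (M.gm_am _ _)))
      (Kr.q_djE (Kr.q_tr h1 (Kr.b2_djm (Kr.q_inl gA gB) (Kr.q_id gR)))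
        (Kr.q_tr h2 (Kr.b2_djm (Kr.q_inr gA gB) (Kr.q_id gR))))
  | imp A B _ _ => rw [Kr.b2_bk_im]; exact Kr.b2_pers0 he (M.gm_am _ _) hA
  | box A _ =>
    rw [Kr.b2_bk_box]
    have h1 := H.pos2 (bx (itp σ (.box A))) (pos_box σ A) (ρ := eD M w) (τ := eD M w)
      (fun i => i.elim) (fun i => i.elim)
    rw [← Kr.nm_encM, Kr.b2_RF] at h1
    have g1 : M.gm (M.am σ (.box A) (w := w)) := M.gm_am _ _
    exact Kr.q_tr (Kr.b2_mono h1) (Kr.q_tr (Kr.b2_dj1 g1 gR)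
      (Kr.b2_djm (Kr.b2_inv2 g1 (Kr.inv_am _ _)) (Kr.b2_inv2 gR (Kr.b2_iR he))))

/-- Reflection at zero. -/
theorem Kr.b2_refl0 (n : M.D w) {F z : M.D w} (hF : M.gm F) (iF : M.inv F) (hz : M.gm z)
    (iz : M.inv z) : M.Pv (M.im (M.ic0 n F z) (M.im F z)) := by
  have h := Kr.refl_id (n := n) hF iF hz
  refine Kr.q_tr (Kr.b2_mono h) (Kr.q_tr (Kr.b2_im1 hF hz) ?_)
  exact Kr.q2 (A := imp (.mv 0) (sub (.mv 0) zero)) (B := imp (sub (.mv 1) zero) (.mv 1))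
    (φ := imp (imp (sub (.mv 0) zero) (sub (.mv 1) zero)) (imp (.mv 0) (.mv 1)))
    (ρ := fun _ => M.nd 0 M.zr M.zr) (τ := as4 F z z z) (fun _ => M.gf0)
    (Kr.gm_as4 hF hz hz hz) (Kr.b2_inv1 hF iF) (Kr.b2_inv2 hz iz)
    (fun N u hA hB d v l h v' l' h' => by
      refine Kr.F_app (hB v' (l.trans l') _) (h v' l' ?_)
      exact Kr.F_app (hA v' (l.trans l') _) h')

theorem Kr.b2_bk1 (n : M.D w) (B A : HAs.Form) : M.Pv (M.im (M.ic0 n (M.am σ B) (M.am σ A))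
    (M.am σ (.imp B A))) := by
  rw [Kr.b2_am_im]
  have h := Kr.b2_refl0 n (M.gm_am σ B) (Kr.inv_am σ B) (M.gm_am σ A) (Kr.inv_am σ A) (w := w)
  exact Kr.q_cj h (Kr.q_tr (Kr.Gs.ic0 n _ _).per (Kr.bx_mn h))

/-- The bracket with instance provability from `B` implies the modal bracket. -/
theorem Kr.bk_br (n : M.D w) (B A : HAs.Form) :
    M.Pv (M.im (M.bk σ n (M.am σ B) A) (M.am σ (HAs.br B A))) := by
  induction A with
  | atom k => rw [Kr.b2_bk_atom]; exact Kr.b2_bk1 n B _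
  | bot => rw [HAs.br, Kr.b2_bk_bt, Kr.b2_am_bt]; exact Kr.q_id Kr.gm_btc
  | conj C D h1 h2 => rw [HAs.br, Kr.b2_bk_cj, Kr.b2_am_cj]; exact Kr.b2_cjm h1 h2
  | disj C D h1 h2 => rw [HAs.br, Kr.b2_bk_dj, Kr.b2_am_dj]; exact Kr.b2_djm h1 h2
  | imp C D _ _ => rw [Kr.b2_bk_im]; exact Kr.b2_bk1 n B _
  | box C _ => rw [HAs.br, Kr.b2_bk_box]; exact Kr.q_id (M.gm_am _ _)

/-! ### The rule -/

theorem b2_br_dj (B : HAs.Form) (Z : List HAs.Form) :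
    HAs.br B (HAs.dj Z) = HAs.dj (Z.map (HAs.br B)) := by
  induction Z with
  | nil => rfl
  | cons E Z ih => simp only [HAs.dj, HAs.br, List.map_cons, ih]

theorem Kr.b2_bk_in (n F : M.D w) {E : HAs.Form} {Z : List HAs.Form} (hE : E ∈ Z) :
    M.Pv (M.im (M.bk σ n F E) (M.bk σ n F (HAs.dj Z))) := by
  induction Z with
  | nil => simp at hE
  | cons G Z ih =>
    rw [HAs.dj, Kr.b2_bk_dj]
    rcases List.mem_cons.1 hE with rfl | hE
    · exact Kr.q_inl (Kr.b2_gm_bk _ _ _ _) (Kr.b2_gm_bk _ _ _ _)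
    · exact Kr.q_tr (ih hE) (Kr.q_inr (Kr.b2_gm_bk _ _ _ _) (Kr.b2_gm_bk _ _ _ _))

/-- One implication. -/
theorem Kr.b2_one {n R s : M.D w} {B E G : HAs.Form} (he : M.Va 1 (M.b2e n R (M.am σ B)))
    (hs : M.Gs s) (hB : M.Pv (M.im s (M.prC (M.am σ B))))
    (hp : M.b2P n (M.im (M.am σ B) (M.im (M.am σ E) (M.am σ G))))
    (hEG : M.Pv (M.im (M.b2z (M.fn (trl 1) (M.pr (M.b2e n R (M.am σ B)) (M.am σ E))))
      (M.b2z (M.fn (trl 1) (M.pr (M.b2e n R (M.am σ B)) (M.am σ G)))))) :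
    M.Pv (M.im s (M.b2z (M.fn (trl 1) (M.pr (M.b2e n R (M.am σ B)) (M.am σ (.imp E G)))))) := by
  have gR := Kr.b2_gR he
  have H := Kr.b2_trH0 he
  have gE := H.gT _ (M.gm_am σ E)
  have gG := H.gT _ (M.gm_am σ G)
  have gEG : M.gm (M.im (M.am σ E (w := w)) (M.am σ G)) := Kr.gm_im.2 ⟨M.gm_am _ _, M.gm_am _ _⟩
  rw [Kr.b2_am_im, H.T_cj, Kr.trl_im, Kr.b2_BF]
  have h1 := Kr.b2_im2 gE gG hEG
  have h2 := Kr.b2_ic hp
  have h3 : M.Pv (M.dj (M.cj M.tc (M.iC n (M.am σ B) (M.im (M.am σ E) (M.am σ G)))) R) :=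
    Kr.Pv_mp (Kr.q_inl (Kr.gm_cj.2 ⟨by simp, M.gm_iC _ _ _⟩) gR)
      (Kr.Pv_mp (Kr.Pv_mp (Kr.q_pr (by simp) (M.gm_iC _ _ _)) Kr.Pv_tc) h2)
  have h4 : M.Pv (M.im s (M.bxC (M.im (M.am σ E) (M.am σ G)))) := by
    obtain ⟨q, hq, -⟩ := hp
    exact Kr.q_tr hB (Kr.q_tr (Kr.prC_bxC (M.gm_am _ _)) (Kr.bx_mn ⟨q, hq⟩))
  have h5 : M.Pv (M.im (M.bxC (M.im (M.am σ E (w := w)) (M.am σ G)))
      (M.fn (trl 1) (M.pr (M.b2e n R (M.am σ B)) (M.bxC (M.im (M.am σ E) (M.am σ G)))))) :=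
    H.pos1 (bxT (.mv 0) : Fm ℕ) trivial (ρ := fun _ => M.num (M.im (M.am σ E) (M.am σ G)))
      (τ := fun _ => M.tc) (fun _ => M.gf_num _) (fun _ => by simp)
  have h6 := Kr.q_tr (Kr.b2_inv1 hs.gm hs.inv) (Kr.b2_mono (Kr.q_tr h4 h5))
  have g2 := Kr.Pv_gm h3
  have g3 := H.gT _ (M.gm_bxC (M.im (M.am σ E) (M.am σ G)))
  have g4 := Kr.gm_im.2 ⟨gE, gG⟩
  have h7 : M.Pv (M.im s (M.b2z (M.cj (M.im (M.fn (trl 1) (M.pr (M.b2e n R (M.am σ B)) (M.am σ E)))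
      (M.fn (trl 1) (M.pr (M.b2e n R (M.am σ B)) (M.am σ G))))
      (M.dj (M.cj M.tc (M.iC n (M.am σ B) (M.im (M.am σ E) (M.am σ G)))) R)))) :=
    Kr.q_tr (Kr.q_cj (Kr.Pv_k hs.gm h1) (Kr.Pv_k hs.gm (Kr.Pv_sb h3 M.gf1))) (Kr.b2_cj2 g4 g2)
  exact Kr.q_tr (Kr.q_cj h7 h6) (Kr.b2_cj2 (Kr.gm_cj.2 ⟨g4, g2⟩) g3)

/-- The assumption implies its components. -/
theorem Kr.b2_comp (X : List (HAs.Form × HAs.Form)) {E G : HAs.Form} (h : (E, G) ∈ X) :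
    M.Pv (M.im (M.am σ (HAs.cj (HAs.imps X)) (w := w)) (M.im (M.am σ E) (M.am σ G))) := by
  induction X with
  | nil => simp at h
  | cons P X ih =>
    have e : HAs.cj (HAs.imps (P :: X)) = .conj (.imp P.1 P.2) (HAs.cj (HAs.imps X)) := rfl
    rw [e, Kr.b2_am_cj]
    rcases List.mem_cons.1 h with rfl | h
    · have g1 : M.gm (M.im (M.am σ E (w := w)) (M.am σ G)) :=
        Kr.gm_im.2 ⟨M.gm_am _ _, M.gm_am _ _⟩
      refine Kr.q_tr (Kr.q_fst (M.gm_am _ _) (M.gm_am _ _)) ?_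
      rw [Kr.b2_am_im]
      exact Kr.q_fst g1 (M.gm_bxC _)
    · exact Kr.q_tr (Kr.q_snd (M.gm_am _ _) (M.gm_am _ _)) (ih h)

theorem SndR.b2 (X : List (HAs.Form × HAs.Form)) (C : HAs.Form) :
    SndR σ (.conj (.imp (HAs.cj (HAs.imps X)) C) (.box (HAs.cj (HAs.imps X))))
      (HAs.dj ((X.map Prod.fst ++ [C]).map (HAs.br (HAs.cj (HAs.imps X))))) := by
  intro M w s hs h
  obtain ⟨B, hBdef⟩ : ∃ B, B = HAs.cj (HAs.imps X) := ⟨_, rfl⟩
  obtain ⟨Z, hZ⟩ : ∃ Z, Z = X.map Prod.fst ++ [C] := ⟨_, rfl⟩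
  rw [← hBdef] at h ⊢
  rw [← hZ, ← b2_br_dj]
  obtain ⟨p, hp⟩ := h
  -- the bound
  have hX : ∀ x ∈ (HAs.Form.bot, HAs.Form.bot) :: X,
      M.Pv (M.im (M.am σ B) (M.im (M.am σ x.1) (M.am σ x.2)) : M.D w) := by
    intro x hx
    rcases List.mem_cons.1 hx with rfl | hx
    · exact Kr.Pv_k (M.gm_am _ _) (Kr.q_id (M.gm_am _ _))
    · rw [hBdef]; exact Kr.b2_comp X hx
  obtain ⟨n1, hn1⟩ := Kr.b2_all (M := M) (w := w) ((HAs.Form.bot, HAs.Form.bot) :: X)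
    (fun x n => M.b2P n (M.im (M.am σ B) (M.im (M.am σ x.1) (M.am σ x.2))) )
    (fun x _ n n' hn k => Kr.b2P_mono hn k) (fun x hx => Kr.b2P_ex (hX x hx))
  obtain ⟨n2, hn2⟩ := Kr.b2_all (M := M) (w := w) Z
    (fun E n => M.le (M.S (M.am σ E)) n)
    (fun x _ n n' hn k => Kr.le_trans' k hn) (fun x _ => ⟨_, Kr.le_rfl' _⟩)
  obtain ⟨n3, hn3⟩ := Kr.Gd_ex p
  obtain ⟨n, hn⟩ : ∃ n, n = M.add (M.add n1 n2) n3 := ⟨_, rfl⟩
  have l1 : M.le n1 n := by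
    rw [hn]; exact Kr.le_trans' (Kr.b2_le_add _ _) (Kr.b2_le_add _ _)
  have l2 : M.le n2 n := by
    rw [hn]; exact Kr.le_trans' (Kr.b2_le_add' _ _) (Kr.b2_le_add _ _)
  have l3 : M.le n3 n := by rw [hn]; exact Kr.b2_le_add' _ _
  have hn1 : ∀ x ∈ (HAs.Form.bot, HAs.Form.bot) :: X,
      M.b2P n (M.im (M.am σ B) (M.im (M.am σ x.1) (M.am σ x.2))) :=
    fun x hx => Kr.b2P_mono l1 (hn1 x hx)
  have hn2 : ∀ E ∈ Z, M.le (M.S (M.am σ E)) n := fun E hE => Kr.le_trans' (hn2 E hE) l2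
  have hn3 : M.Gd n p := Kr.Gd_le hn3 l3 (Kr.le_rfl' p)
  -- the translation
  obtain ⟨R, hR⟩ : ∃ R, R = M.bk σ n (M.am σ B) (HAs.dj Z) := ⟨_, rfl⟩
  have GR : M.Gs R := by rw [hR]; exact Kr.Gs.bk _ _ _
  have he : M.Va 1 (M.b2e n R (M.am σ B)) := ⟨by rw [Kr.b2_RF]; exact GR.gm,
    by rw [Kr.b2_RF]; exact GR.inv, by
      intro i hi
      obtain rfl : i = 0 := by omega
      simp [ffF, prj]⟩
  have H := Kr.b2_trH0 he
  have hT := Kr.Pv_trl he (p := p) (by simpa using hn3)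
  rw [hp, Kr.trl_im] at hT
  have hT := Kr.q_tr (hs.tr 1 _ he) (Kr.b2_fst hT)
  rw [Kr.b2_am_cj, H.T_cj] at hT
  have hT := Kr.b2_fst' hT
  rw [Kr.b2_am_im, H.T_cj] at hT
  have hT := Kr.b2_fst' hT
  rw [Kr.trl_im] at hT
  have hT := Kr.b2_fst' hT
  -- provability of the assumption
  have hp' : M.Pv (M.im s (M.am σ (.conj (.imp B C) (.box B)))) := ⟨p, hp⟩
  rw [Kr.b2_am_cj] at hp'
  have hB := Kr.q_tr (Kr.b2_snd' hp') (Kr.am_box1 σ B)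
  -- elements of Z
  have hE : ∀ E ∈ Z, M.Pv (M.im (M.b2z (M.fn (trl 1) (M.pr (M.b2e n R (M.am σ B)) (M.am σ E))))
      R) := by
    intro E hE
    refine Kr.q_tr (Kr.bk_tr he E (hn2 E hE)) (Kr.q_djE ?_ (Kr.q_id GR.gm))
    rw [hR]
    exact Kr.b2_bk_in _ _ hE
  have hRT : ∀ E, M.Pv (M.im R
      (M.b2z (M.fn (trl 1) (M.pr (M.b2e n R (M.am σ B)) (M.am σ E))))) := by
    intro E
    have h1 := TrH.RT (Kr.b2_trH he) (M.gm_am σ E)
    rw [Kr.b2_RF] at h1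
    exact Kr.q_tr (Kr.b2_inv1 GR.gm GR.inv) (Kr.b2_mono h1)
  -- the translation of the assumption
  have hL : ∀ L : List (HAs.Form × HAs.Form), (∀ x ∈ L, x ∈ X) → M.Pv (M.im s
      (M.b2z (M.fn (trl 1) (M.pr (M.b2e n R (M.am σ B)) (M.am σ (HAs.cj (HAs.imps L))))))) := by
    intro L
    induction L with
    | nil =>
      intro _
      exact Kr.b2_one he hs hB (hn1 (.bot, .bot) (List.mem_cons_self ..))
        (Kr.q_id (Kr.b2_gm (H.gT _ (M.gm_am _ _))))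
    | cons x L ih =>
      intro hx
      have e : HAs.cj (HAs.imps (x :: L)) = .conj (.imp x.1 x.2) (HAs.cj (HAs.imps L)) := rfl
      rw [e, Kr.b2_am_cj, H.T_cj]
      refine Kr.q_tr (Kr.q_cj ?_ (ih fun y hy => hx y (List.mem_cons_of_mem _ hy)))
        (Kr.b2_cj2 (H.gT _ (M.gm_am _ _)) (H.gT _ (M.gm_am _ _)))
      have hxX := hx x (List.mem_cons_self ..)
      refine Kr.b2_one he hs hB (hn1 x (List.mem_cons_of_mem _ hxX)) ?_
      refine Kr.q_tr (hE x.1 ?_) (hRT x.2)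
      rw [hZ]
      exact List.mem_append.2 (Or.inl (List.mem_map.2 ⟨x, hxX, rfl⟩))
  have hb := hL X fun x hx => hx
  rw [← hBdef] at hb
  have hT := Kr.q_tr (Kr.b2_inv1 hs.gm hs.inv) (Kr.b2_mono hT)
  have hT := Kr.q_tr hT (Kr.b2_im1 (H.gT _ (M.gm_am _ _)) (H.gT _ (M.gm_am _ _)))
  have hT := Kr.Pv_s hT hb
  have hsR := Kr.q_tr hT (hE C (by rw [hZ]; simp))
  rw [hR] at hsR
  exact Kr.q_tr hsR (Kr.bk_br n B _)

theorem SndR.tri {A B : HAs.Form} (h : HAs.Tri A B) : SndR σ A B := by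
  induction h with
  | a1 h => exact SndR.of_imp (hast_ik4 σ h)
  | a2 _ _ h1 h2 => exact fun M w s hs h => h2 M w s hs (h1 M w s hs h)
  | a3 _ _ h1 h2 => exact SndR.conj h1 h2
  | a4 _ h => exact SndR.box h
  | b1 _ _ h1 h2 => exact SndR.b1 h1 h2
  | b2 X C => exact SndR.b2 X C
  | b3 C _ h => exact SndR.b3 C h

/-- Soundness of iH*: all arithmetical interpretations of its theorems are theorems of HA*. -/
theorem ih_sound {A : HAs.Form} (h : HAs.IH A) : HAst (itp σ A) := by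
  induction h with
  | ax h => exact hast_ipax σ h
  | k A B => exact hast_k σ A B
  | four A => exact hast_four σ A
  | lob A => exact hast_lob σ A
  | cp A => exact hast_cp σ A
  | tri h =>
    exact hast_boxes σ fun N w k => Kr.Pv_mp (SndR.tri h N w N.tc Kr.Gs.top
      (Kr.Pv_k (Kr.Pv_gm Kr.Pv_tc) k)) Kr.Pv_tc
  | nec _ ih => exact hast_nec σ ih
  | mp _ _ ih1 ih2 => exact HAst.mp ih1 ih2

end HAr
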