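import Pool.Agent.Lib.MP_61e577_lc.Ar.NodF
import Pool.Agent.Lib.MP_61e577_lc.Ar.SndB2

/-! The provability logic of HA* is iH*. -/

namespace HAr

open Fn Fm

/-- Two rules for HA*. -/
theorem HAst.of2 {P Q R : Fm Empty} (h : Prv (imp P (imp Q R))) (h1 : HAst P) (h2 : HAst Q) :
    HAst R := ((HAst.of h).mp h1).mp h2

/-- Necessitation for the box at the argument. -/
theorem prv_bxT {P : Fm Empty} (h : Prv P) : Prv (bxT (cst (encM P)) : Fm Empty) := by
  refine complete fun N w d => ?_
  rw [Kr.F_bxT, Kr.fn_cst]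
  exact Kr.Bx_of (Kr.Pv_enc h)

/-- Monotonicity of the provability predicate of HA*. -/
theorem hast_mono {P Q : Fm Empty} (h : HAst (imp P Q)) :
    HAst (imp (sub prS (cst (encM P))) (sub prS (cst (encM Q)))) := by
  have hpos : prS.Pos := by simp [prS, prT, Fm.Pos]
  have key : Prv (imp (bx (sub prS (cst (encM P)))) (bx (sub prS (cst (encM Q))))) := by
    refine complete fun N w d v k h1 => ?_
    have h1 : N.F (bx prS) (N.fn (cst (encM P)) (N.tr k d)) := h1
    show N.F (bx prS) (N.fn (cst (encM Q)) (N.tr k d))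
    rw [Kr.fn_cst] at h1 ⊢
    have h2 := N.sound (bx_pos prS hpos).2 (N.nm (encM P)) v (le_refl v)
    rw [N.tr_refl] at h2
    have h3 : N.F prS (N.nm (encM P)) := h2 h1
    have h4 := N.sound (bx_pos prS hpos).1 (N.nm (encM Q)) v (le_refl v)
    rw [N.tr_refl] at h4
    refine h4 ?_
    rw [prS, Kr.F_prT, Kr.fn_btF, Kr.bt_enc] at h3 ⊢
    have h5 : N.Pv (N.nm (w := v) (encM (imp (bx P) (bx Q)))) :=
      Kr.Pv_enc (Prv.mp (Prv.ax (Ax.andL _ _)) h)
    rw [encM, Kr.nm_ndN] at h5
    exact Kr.Pv_mp h5 h3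
  exact Prv.mp (Prv.mp (Prv.ax (Ax.andI _ _)) key) (prv_bxT key)

/-- Invariant formulas are equivalent to their instance at zero. -/
theorem inv_zero {P : Fm Empty} (h : Inv P) : Prv (imp (sub P zero) P) ∧
    Prv (imp P (sub P zero)) := by
  constructor
  · refine complete fun N w d v k h1 => ?_
    have h1 : N.F P (N.fn zero (N.tr k d)) := h1
    have h2 := N.sound h (N.fn zero (N.tr k d)) v (le_refl v)
    rw [N.tr_refl] at h2
    have h3 := h2 h1 v (le_refl v) (N.tr k d)
    simpa [KD.F] using h3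
  · refine complete fun N w d v k h1 => ?_
    have h2 := N.sound h (N.tr k d) v (le_refl v)
    rw [N.tr_refl] at h2
    have h3 := h2 h1 v (le_refl v) N.zr
    simpa [KD.F] using h3

/-- Interpretations and modal substitutions. -/
theorem itp_sb (σ : ℕ → Fm Empty) (s : ℕ → HAs.Form) (A : HAs.Form) :
    HAst (imp (itp (fun n => itp σ (s n)) A) (itp σ (HAs.sb s A))) ∧
    HAst (imp (itp σ (HAs.sb s A)) (itp (fun n => itp σ (s n)) A)) := by
  induction A with
  | atom n => exact ⟨HAst.of (inv_zero (inv_itp σ (s n))).1, HAst.of (inv_zero (inv_itp σ (s n))).2⟩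
  | bot =>
    have : Prv (imp bot bot : Fm Empty) := Prv.ax (Ax.botE _)
    exact ⟨HAst.of this, HAst.of this⟩
  | conj A B ihA ihB =>
    have key : ∀ P Q P' Q' : Fm Empty, HAst (imp P P') → HAst (imp Q Q') →
        HAst (imp (conj P Q) (conj P' Q')) := by
      intro P Q P' Q' h1 h2
      refine HAst.of2 ?_ h1 h2
      refine complete fun N w d v k a v2 k2 b v3 k3 c => ⟨?_, ?_⟩
      · have := a v3 (k2.trans k3)
        rw [← N.tr_tr k2 k3] at this
        exact this c.1
      · exact b v3 k3 c.2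
    exact ⟨key _ _ _ _ ihA.1 ihB.1, key _ _ _ _ ihA.2 ihB.2⟩
  | disj A B ihA ihB =>
    have key : ∀ P Q P' Q' : Fm Empty, HAst (imp P P') → HAst (imp Q Q') →
        HAst (imp (disj P Q) (disj P' Q')) := by
      intro P Q P' Q' h1 h2
      refine HAst.of2 ?_ h1 h2
      refine complete fun N w d v k a v2 k2 b v3 k3 c => ?_
      rcases c with c | c
      · left
        have := a v3 (k2.trans k3)
        rw [← N.tr_tr k2 k3] at this
        exact this c
      · right
        exact b v3 k3 c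
    exact ⟨key _ _ _ _ ihA.1 ihB.1, key _ _ _ _ ihA.2 ihB.2⟩
  | imp A B ihA ihB =>
    have key : ∀ P Q P' Q' : Fm Empty, HAst (imp P' P) → HAst (imp Q Q') →
        HAst (imp (imp P Q) (imp P' Q')) := by
      intro P Q P' Q' h1 h2
      refine HAst.of2 ?_ h1 h2
      refine complete fun N w d v k a v2 k2 b v3 k3 c v4 k4 e => ?_
      have h3 := a v4 (k2.trans (k3.trans k4))
      have h4 := b v4 (k3.trans k4)
      have h5 := c v4 k4
      simp only [N.tr_tr] at h3 h4 h5 e ⊢
      exact h4 (h5 (h3 e))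
    exact ⟨key _ _ _ _ ihA.2 ihB.1, key _ _ _ _ ihA.1 ihB.2⟩
  | box A ih => exact ⟨hast_mono ih.1, hast_mono ih.2⟩

/-- The provability logic of HA* is iH*. -/
theorem plHAst (A : HAs.Form) : HAs.IH A ↔ ∀ σ : ℕ → Fm Empty, HAst (itp σ A) := by
  constructor
  · exact fun h σ => ih_sound h
  · intro h
    by_contra hA
    obtain ⟨Φ, K, hK, ix, s, u, hu⟩ := HAs.refuted hA
    exact tree_refutes hK ix _ u hu ((itp_sb (sgK hK ix) s A).1.mp (h _))

end HAr
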