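import Pool.Agent.Lib.MP_61e577_lc.Ar.Insp

/-! The Solovay function of a finite frame. -/

namespace HAr

open Fn Fm

variable {V : Type} {M : Kr V} {w : M.W}

/-- Finite frames: points `0, .., N - 1`, a strict order and a modal relation. -/
structure Frm where
  N : ℕ
  lt : ℕ → ℕ → Prop
  R : ℕ → ℕ → Prop
  lt_N : ∀ {i j}, lt i j → i < N ∧ j < N
  lt_irrefl : ∀ i, ¬ lt i i
  lt_trans : ∀ {i j k}, lt i j → lt j k → lt i k
  R_lt : ∀ {i j}, R i j → lt i j
  lt_R : ∀ {i j k}, lt i j → R j k → R i k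
  R_lt' : ∀ {i j k}, R i j → lt j k → R i k

/-- Finite disjunctions. -/
def djs : List (Fm V) → Fm V
  | [] => bot
  | P :: L => disj P (djs L)

/-- The function with values `(position, rank)` reaches the point `i`, which has the position
`i + 1`; the root has the position `0`. -/
def rchS (h : Fn V) (i : ℕ) : Fm V := ex (eq (comp left (comp h right)) (cst (i + 1)))

open Classical in
/-- The list of the points with a property. -/
noncomputable def Frm.lst (F : Frm) (p : ℕ → Prop) : List ℕ := (List.range F.N).filter (p ·)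

/-- The function reaches a point with a property. -/
noncomputable def Frm.rcs (F : Frm) (h : Fn V) (p : ℕ → Prop) : Fm V :=
  djs ((F.lst p).map (rchS h))

/-- The limit of the function is `i`. -/
noncomputable def Frm.lamS (F : Frm) (h : Fn V) (i : ℕ) : Fm V :=
  conj (rchS h i) (imp (F.rcs h (F.lt i)) bot)

/-- The limit of the function is not `i`. -/
noncomputable def Frm.nlS (F : Frm) (h : Fn V) (i : ℕ) : Fm V := imp (F.lamS h i) bot

/-- The modal relation with the root, at positions. -/
def Frm.Rp (F : Frm) : ℕ → ℕ → Prop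
  | 0, _ => True
  | i + 1, j => F.R i j

/-- The order, at positions; not used at the root. -/
def Frm.ltp (F : Frm) : ℕ → ℕ → Prop
  | 0, _ => True
  | i + 1, j => F.lt i j

open Classical in
/-- The new state at the position `p`, for an instance derivation of the negation of the limit
`j`; in the environment `(c, (m, s))`. -/
noncomputable def Frm.mvF (F : Frm) (p j : ℕ) : Fn V :=
  if F.Rp p j then pair (cst (j + 1)) (comp left (comp left right))
  else if F.ltp p j then cnd (comp monF (pair (comp succ (comp left (comp left right)))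
    (comp right (comp right right))))
    (pair (cst (j + 1)) (comp left (comp left right))) (comp right right)
  else comp right right

/-- The new state at the position `p`, looking through a list of points. -/
noncomputable def Frm.jF (F : Frm) (p : ℕ) : List ℕ → Fn V
  | [] => comp right right
  | j :: js => cnq (comp left (comp insF (pair (pair (comp left (comp left right)) topF)
        (comp left (comp right (comp left right))))))
      (cdm (fun _ => left) (fun _ => topF) (F.nlS (.mv 0) j : Fm ℕ)) (F.mvF p j) (F.jF p js)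

/-- The new state, in the environment `(c, (m, s))`. -/
noncomputable def Frm.stF (F : Frm) : Fn V :=
  comp (sw ((List.range (F.N + 1)).map fun p => F.jF p (List.range F.N)) (comp right right))
    (pair idn (comp left (comp right right)))

/-- The state at the stage `m`, at `(c, m)`, where `c` is a function code. -/
noncomputable def Frm.gF (F : Frm) : Fn V := prec (pair zero zero) F.stF

/-- The code of `c` composed with `x ↦ (c, x)`. -/
def dgF : Fn V := ndF 6 idn (ndF 5 numF (ndF 0 zero zero))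

/-- The body of the fixed point. -/
def fixB (G : Fn Empty) : Fn Empty := comp G (pair (comp dgF left) right)

/-- The fixed point of a function of a code and an argument. -/
def fixF (G : Fn Empty) : Fn Empty := comp (fixB G) (pair (cst (encF (fixB G))) idn)

theorem frm_li_dgF : (dgF : Fn Empty).li = (dgF : Fn V) := by
  simp only [dgF, li_ndF, li_numF, li_idn, li_zero]

/-- The diagonal of a code, for abstract codes. -/
theorem Kr.frm_dg (B : Fn Empty) (n k : ℕ) (hn : M.nm (w := w) n = M.icf (eD M w) B)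
    (hk : M.nm (w := w) k = M.icf (eD M w) (comp B (pair (cst n) idn))) :
    M.fn dgF (M.nm (w := w) n) = M.nm k := by
  rw [hk]
  simp only [Kr.icf]
  rw [← hn, ← M.num_nm]
  simp [dgF]

/-- The fixed point, for abstract codes. -/
theorem Kr.frm_fix (G B : Fn Empty) (n k : ℕ) (hB : B = comp G (pair (comp dgF left) right))
    (hn : M.nm (w := w) n = M.icf (eD M w) B)
    (hk : M.nm (w := w) k = M.icf (eD M w) (comp B (pair (cst n) idn))) (x : M.D w) :
    M.fn (comp B (pair (cst n) idn)).li x = M.fn G.li (M.pr (M.nm k) x) := by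
  rw [← Kr.frm_dg B n k hn hk, li_comp, li_pair, li_cst, li_idn, M.fn_comp, M.fn_pair, M.fn_cst,
    M.fn_idn]
  generalize M.nm (w := w) n = c
  rw [hB, li_comp, li_pair, li_comp, frm_li_dgF, li_left, li_right, M.fn_comp, M.fn_pair,
    M.fn_comp, M.left_pr, M.right_pr]

/-- The fixed point applies `G` to its own code. -/
theorem Kr.fn_fixF (G : Fn Empty) (x : M.D w) :
    M.fn (fixF G).li x = M.fn G.li (M.pr (M.nm (encF (fixF G))) x) :=
  Kr.frm_fix G (fixB G) (encF (fixB G)) (encF (fixF G)) rfl (M.nm_encF (fixB G))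
    (M.nm_encF (fixF G)) x

/-- The Solovay function: values `(position, rank)`. -/
noncomputable def Frm.h (F : Frm) : Fn Empty := fixF F.gF

/-- The state at a stage. -/
noncomputable def Kr.st (M : Kr V) (F : Frm) {w : M.W} (m : M.D w) : M.D w := M.fn F.h.li m

/-- The code of the negation of the limit statement. -/
noncomputable def Kr.nl (M : Kr V) (F : Frm) {w : M.W} (j : ℕ) : M.D w :=
  M.nm (encM (F.nlS F.h j))

theorem frm_cst_inj : ∀ i j : ℕ, (cst i : Fn V) = cst j → i = j
  | 0, 0, _ => rfl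
  | 0, _ + 1, h => by simp [cst] at h
  | _ + 1, 0, h => by simp [cst] at h
  | i + 1, j + 1, h => by
    simp only [cst, Fn.comp.injEq, true_and] at h
    rw [frm_cst_inj i j h]

theorem Kr.frm_nm_inj {i j : ℕ} (h : M.nm (w := w) i = M.nm j) : i = j := by
  by_contra hne
  exact M.nm_ne hne h

theorem Kr.nl_inj {F : Frm} {i j : ℕ} (hi : i < F.N) (hj : j < F.N)
    (h : M.nl F (w := w) i = M.nl F j) : i = j := by
  have _ := hi
  have _ := hj
  have h1 := encM_inj _ _ (Kr.frm_nm_inj h)
  simp only [Frm.nlS, Frm.lamS, rchS, Fm.imp.injEq, Fm.conj.injEq, Fm.ex.injEq, Fm.eq.injEq,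
    true_and, and_true] at h1
  have := frm_cst_inj _ _ h1.1
  omega

/-! ### Removal of the metavariables -/

theorem frm_ms_djs {U : Type} (r : U → Fn V) (t : U → Fm V) (L : List (Fm U)) :
    (djs L).ms r t = djs (L.map fun P => P.ms r t) := by
  induction L with
  | nil => rfl
  | cons P L ih => rw [djs, Fm.ms, ih]; rfl

theorem frm_ms_rchS {U : Type} (r : U → Fn V) (t : U → Fm V) (h : Fn U) (i : ℕ) :
    (rchS h i).ms r t = rchS (h.ms r) i := by
  simp only [rchS, Fm.ms, Fn.ms, ms_cst]

theorem frm_ms_nlS {U : Type} (F : Frm) (r : U → Fn V) (t : U → Fm V) (h : Fn U) (i : ℕ) :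
    (F.nlS h i).ms r t = F.nlS (h.ms r) i := by
  have e : (fun P => Fm.ms r t P) ∘ rchS h = rchS (Fn.ms r h) := by
    funext j
    exact frm_ms_rchS r t h j
  simp only [Frm.nlS, Frm.lamS, Frm.rcs, Fm.ms, frm_ms_rchS, frm_ms_djs, List.map_map, e]

/-- The code which the function compares with is the code of the negation of the limit. -/
theorem Kr.frm_code (F : Frm) (j : ℕ) :
    M.icm (fun _ => M.nm (encF F.h)) (fun _ => M.tc) (F.nlS (.mv 0) j : Fm ℕ) =
      M.nl F (w := w) j := by
  have h := Kr.icm_ms (eD M w) (eD M w) (fun _ : ℕ => F.h) (fun _ => eq zero zero)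
    (F.nlS (.mv 0) j : Fm ℕ)
  rw [frm_ms_nlS] at h
  rw [Kr.nl, M.nm_encM, M.nm_encF]
  exact h.symm

theorem frm_li_mvF (F : Frm) (p j : ℕ) : (F.mvF p j : Fn Empty).li = (F.mvF p j : Fn V) := by
  unfold Frm.mvF
  split_ifs <;>
  simp only [li_pair, li_cst, li_comp, li_left, li_right, li_cnd, li_monF, li_succ]

theorem frm_li_jF (F : Frm) (p : ℕ) (js : List ℕ) :
    (F.jF p js : Fn Empty).li = (F.jF p js : Fn V) := by
  induction js with
  | nil => rfl
  | cons j js ih =>
    simp only [Frm.jF, li_cnq, li_comp, li_left, li_right, li_pair, insp_li_insF, li_topF, li_cdm,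
      frm_li_mvF, ih]

theorem frm_li_stF (F : Frm) : (F.stF : Fn Empty).li = (F.stF : Fn V) := by
  simp only [Frm.stF, li_comp, li_sw, li_pair, li_left, li_right, li_idn, List.map_map]
  congr 1
  congr 1
  refine List.map_congr_left fun p _ => ?_
  exact frm_li_jF F p _

theorem frm_li_gF (F : Frm) : (F.gF : Fn Empty).li = (F.gF : Fn V) := by
  simp only [Frm.gF, li_prec, li_pair, li_zero, frm_li_stF]

theorem Kr.frm_st (F : Frm) (m : M.D w) :
    M.st F m = M.fn F.gF (M.pr (M.nm (encF F.h)) m) := by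
  rw [Kr.st, Frm.h, Kr.fn_fixF, frm_li_gF]

theorem Kr.st_zr {F : Frm} : M.st F (M.zr (w := w)) = M.pr M.zr M.zr := by
  rw [Kr.frm_st, Frm.gF, M.prec_zr, M.fn_pair, M.fn_zero]

/-- The environment of the step. -/
noncomputable def Kr.frmE (M : Kr V) (F : Frm) {w : M.W} (m : M.D w) : M.D w :=
  M.pr (M.nm (encF F.h)) (M.pr m (M.st F m))

theorem Kr.frm_st_S (F : Frm) (m : M.D w) : M.st F (M.S m) = M.fn
    (sw ((List.range (F.N + 1)).map fun p => F.jF p (List.range F.N)) (comp right right))
    (M.pr (M.frmE F m) (M.fn left (M.st F m))) := by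
  rw [Kr.frm_st, Frm.gF, M.prec_succ]
  have h1 : M.fn (prec (pair zero zero) F.stF) (M.pr (M.nm (encF F.h)) m) = M.st F m := by
    rw [Kr.frm_st, Frm.gF]
  rw [h1, Frm.stF]
  simp only [M.fn_comp, M.fn_pair, M.fn_idn, M.left_pr, M.right_pr]
  rfl

/-- The step, at a position. -/
theorem Kr.frm_st_nm {F : Frm} {m : M.D w} {p : ℕ} (hp : p ≤ F.N)
    (h : M.fn left (M.st F m) = M.nm p) :
    M.st F (M.S m) = M.fn (F.jF p (List.range F.N)) (M.frmE F m) := by
  rw [Kr.frm_st_S, h, Kr.sw_nm (by simp; omega)]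
  simp

/-- The comparison in the step. -/
theorem Kr.frm_cnd (F : Frm) (m : M.D w) (j : ℕ) :
    M.fn (comp left (comp insF (pair (pair (comp left (comp left right)) topF)
        (comp left (comp right (comp left right)))))) (M.frmE F m) =
      M.fn left (M.ins (M.fn left m) M.tc (M.fn left (M.fn right m))) ∧
    M.fn (cdm (fun _ => left) (fun _ => topF) (F.nlS (.mv 0) j : Fm ℕ)) (M.frmE F m) =
      M.nl F j := by
  constructor
  · simp [Kr.frmE, Kr.ins]
  · rw [Kr.fn_cdm]
    simp only [Kr.frmE, M.left_pr, Kr.fn_topF]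
    exact Kr.frm_code F j

/-- The value of a move. -/
theorem Kr.frm_mv (F : Frm) (m : M.D w) (p j : ℕ) :
    M.fn (F.mvF p j) (M.frmE F m) = M.st F m ∨
    (M.fn (F.mvF p j) (M.frmE F m) = M.pr (M.nm (j + 1)) (M.fn left m) ∧
      (F.Rp p j ∨ (F.ltp p j ∧ M.le (M.S (M.fn left m)) (M.fn right (M.st F m))))) := by
  unfold Frm.mvF
  split_ifs with h1 h2
  · right
    refine ⟨?_, Or.inl h1⟩
    simp [Kr.frmE]
  · have e1 : M.fn (comp monF (pair (comp succ (comp left (comp left right)))
        (comp right (comp right right)))) (M.frmE F m) =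
        M.mon (M.S (M.fn left m)) (M.fn right (M.st F m)) := by
      simp [Kr.frmE, Kr.mon]
    rcases M.zr_or_S (M.mon (M.S (M.fn left m)) (M.fn right (M.st F m))) with h3 | ⟨k, h3⟩
    · right
      rw [Kr.cnd_zr (e1.trans h3)]
      refine ⟨?_, Or.inr ⟨h2, Kr.mon_eq_zr.1 h3⟩⟩
      simp [Kr.frmE]
    · left
      rw [Kr.cnd_S (e1.trans h3)]
      simp [Kr.frmE]
  · left
    simp [Kr.frmE]

/-- The value of a move which is made. -/
theorem Kr.frm_mv' {F : Frm} {m : M.D w} {p j : ℕ}
    (h : F.Rp p j ∨ (F.ltp p j ∧ M.le (M.S (M.fn left m)) (M.fn right (M.st F m)))) :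
    M.fn (F.mvF p j) (M.frmE F m) = M.pr (M.nm (j + 1)) (M.fn left m) := by
  unfold Frm.mvF
  split_ifs with h1 h2
  · simp [Kr.frmE]
  · have e1 : M.fn (comp monF (pair (comp succ (comp left (comp left right)))
        (comp right (comp right right)))) (M.frmE F m) =
        M.mon (M.S (M.fn left m)) (M.fn right (M.st F m)) := by
      simp [Kr.frmE, Kr.mon]
    rw [Kr.cnd_zr (e1.trans (Kr.mon_eq_zr.2 (h.resolve_left h1).2))]
    simp [Kr.frmE]
  · exact absurd (h.resolve_left h1).1 h2

/-- The search through the points. -/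
theorem Kr.frm_js (F : Frm) (m : M.D w) (p : ℕ) (js : List ℕ) (hjs : ∀ j ∈ js, j < F.N) :
    M.fn (F.jF p js) (M.frmE F m) = M.st F m ∨ ∃ j, j < F.N ∧
      M.fn left (M.ins (M.fn left m) M.tc (M.fn left (M.fn right m))) = M.nl F j ∧
      M.fn (F.jF p js) (M.frmE F m) = M.fn (F.mvF p j) (M.frmE F m) := by
  induction js with
  | nil =>
    left
    simp [Frm.jF, Kr.frmE]
  | cons j js ih =>
    have hc := Kr.frm_cnd F m j
    by_cases h : M.fn left (M.ins (M.fn left m) M.tc (M.fn left (M.fn right m))) = M.nl F j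
    · right
      refine ⟨j, hjs j (List.mem_cons_self ..), h, ?_⟩
      rw [Frm.jF, Kr.cnq_eq (by rw [hc.1, hc.2, h])]
    · rw [Frm.jF, Kr.cnq_ne (by rw [hc.1, hc.2]; exact h)]
      exact ih fun i hi => hjs i (List.mem_cons_of_mem _ hi)

theorem Kr.frm_js' {F : Frm} {m : M.D w} {p j : ℕ} (hj : j < F.N)
    (h : M.fn left (M.ins (M.fn left m) M.tc (M.fn left (M.fn right m))) = M.nl F j)
    (js : List ℕ) (hjs : ∀ j ∈ js, j < F.N) (hm : j ∈ js) :
    M.fn (F.jF p js) (M.frmE F m) = M.fn (F.mvF p j) (M.frmE F m) := by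
  induction js with
  | nil => exact absurd hm (by simp)
  | cons i js ih =>
    have hc := Kr.frm_cnd F m i
    by_cases hij : i = j
    · subst hij
      rw [Frm.jF, Kr.cnq_eq (by rw [hc.1, hc.2, h])]
    · have hne : M.nl F (w := w) j ≠ M.nl F i := fun e =>
        hij (Kr.nl_inj hj (hjs i (List.mem_cons_self ..)) e).symm
      rw [Frm.jF, Kr.cnq_ne (by rw [hc.1, hc.2, h]; exact hne)]
      refine ih (fun k hk => hjs k (List.mem_cons_of_mem _ hk)) ?_
      rcases List.mem_cons.1 hm with h1 | h1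
      · exact absurd h1.symm hij
      · exact h1

/-- The state does not change, or an instance derivation gives a move. -/
theorem Kr.st_S (F : Frm) (m : M.D w) : M.st F (M.S m) = M.st F m ∨
    ∃ i j x, i ≤ F.N ∧ j < F.N ∧ M.fn left (M.st F m) = M.nm i ∧
      M.st F (M.S m) = M.pr (M.nm (j + 1)) (M.fn left m) ∧
      M.ins (M.fn left m) M.tc (M.fn left (M.fn right m)) = M.pr (M.nl F j) x ∧
      (F.Rp i j ∨ (F.ltp i j ∧ M.le (M.S (M.fn left m)) (M.fn right (M.st F m)))) := by
  rcases M.small_or (F.N + 1) (M.fn left (M.st F m)) with ⟨i, hi, h⟩ | ⟨b, h⟩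
  · have h1 := Kr.frm_st_nm (by omega) h
    rcases Kr.frm_js F m i (List.range F.N) (fun j hj => List.mem_range.1 hj) with
      h2 | ⟨j, hj, h2, h3⟩
    · exact Or.inl (h1.trans h2)
    · rcases Kr.frm_mv F m i j with h4 | ⟨h4, h5⟩
      · exact Or.inl (h1.trans (h3.trans h4))
      · right
        refine ⟨i, j, M.fn right (M.ins (M.fn left m) M.tc (M.fn left (M.fn right m))), by omega,
          hj, h, h1.trans (h3.trans h4), ?_, h5⟩
        rw [← h2, M.pr_eta]
  · left
    rw [Kr.frm_st_S, h]
    have h1 := M.sw_up (fs := (List.range (F.N + 1)).map fun p => F.jF p (List.range F.N))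
      (d := comp right right) (a := M.frmE F m) (n := b)
    rw [List.length_map, List.length_range] at h1
    rw [h1]
    simp [Kr.frmE]

theorem Kr.frm_djs {N : Kr V} {u : N.W} (L : List (Fm V)) (d : N.D u) :
    N.F (djs L) d ↔ ∃ P ∈ L, N.F P d := by
  induction L with
  | nil =>
    constructor
    · intro h
      exact h.elim
    · rintro ⟨P, hP, -⟩
      exact absurd hP (by simp)
  | cons P L ih =>
    constructor
    · rintro (h | h)
      · exact ⟨P, List.mem_cons_self .., h⟩
      · obtain ⟨Q, hQ, h⟩ := ih.1 h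
        exact ⟨Q, List.mem_cons_of_mem _ hQ, h⟩
    · rintro ⟨Q, hQ, h⟩
      rcases List.mem_cons.1 hQ with rfl | hQ
      · exact Or.inl h
      · exact Or.inr (ih.2 ⟨Q, hQ, h⟩)

theorem Kr.st_pos (F : Frm) (m : M.D w) : ∃ i ≤ F.N, M.fn left (M.st F m) = M.nm i := by
  have key : ∀ {v : M.W} (a m : M.D v), M.F (djs ((List.range (F.N + 1)).map fun i =>
      eq (comp left (comp F.h.li right)) (cst i))) (M.pr a m) ↔
      ∃ i ≤ F.N, M.fn left (M.st F m) = M.nm i := by
    intro v a m
    rw [Kr.frm_djs]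
    constructor
    · rintro ⟨P, hP, h⟩
      obtain ⟨i, hi, rfl⟩ := List.mem_map.1 hP
      rw [List.mem_range] at hi
      rw [Kr.F_eq] at h
      simp only [M.fn_comp, M.right_pr, Kr.fn_cst] at h
      exact ⟨i, by omega, h⟩
    · rintro ⟨i, hi, h⟩
      refine ⟨_, List.mem_map.2 ⟨i, List.mem_range.2 (by omega), rfl⟩, ?_⟩
      rw [Kr.F_eq]
      simp only [M.fn_comp, M.right_pr, Kr.fn_cst]
      exact h
  rw [← key M.zr m]
  refine M.ind _ M.zr ?_ ?_ m
  · rw [key]
    exact ⟨0, Nat.zero_le _, by rw [Kr.st_zr, M.left_pr]; rfl⟩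
  · intro v h n hn
    rw [key] at hn ⊢
    rcases M.st_S F n with h1 | ⟨i, j, x, -, hj, -, h1, -⟩
    · rw [h1]
      exact hn
    · exact ⟨j + 1, hj, by rw [h1, M.left_pr]⟩

/-- Instance derivations give moves. -/
theorem Kr.st_move {F : Frm} {n d t x : M.D w} {i j : ℕ} (hi : i ≤ F.N) (hj : j < F.N)
    (h1 : M.fn left (M.st F (M.pr n (M.pr d t))) = M.nm i)
    (h2 : M.ins n M.tc d = M.pr (M.nl F j) x)
    (h3 : F.Rp i j ∨ (F.ltp i j ∧ M.le (M.S n) (M.fn right (M.st F (M.pr n (M.pr d t)))))) :
    M.st F (M.S (M.pr n (M.pr d t))) = M.pr (M.nm (j + 1)) n := by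
  rw [Kr.frm_st_nm hi h1, Kr.frm_js' hj ?_ (List.range F.N) (fun k hk => List.mem_range.1 hk)
    (List.mem_range.2 hj), Kr.frm_mv' ?_, M.left_pr]
  · rw [M.left_pr]
    exact h3
  · rw [M.left_pr, M.right_pr, M.left_pr, h2, M.left_pr]

end HAr
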