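import Pool.Agent.Lib.MP_61e577_lc.Ar.Trg

/-! The general translation theorem. -/

namespace HAr

open Fn Fm

variable {V U : Type} {M : Kr V} {w : M.W}

/-- The hypotheses on a translation `T a = tF (e, a)` with side formula `B a = BF (e, a)` and
parameter formula `R = RF e`; the side formula behaves well on the small codes. -/
structure TrH (M : Kr V) (tF BF RF : Fn V) (Sm : Fm V) {w : M.W} (e : M.D w) : Prop where
  gT : ∀ a, M.gm a → M.gm (M.fn tF (M.pr e a))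
  gB : ∀ a, M.gm a → M.gm (M.fn BF (M.pr e a))
  gR : M.gm (M.fn RF e)
  Rs1 : ∀ f, M.gf f → M.Pv (M.im (M.sbc (M.fn RF e) f) (M.fn RF e))
  Rs2 : ∀ f, M.gf f → M.Pv (M.im (M.fn RF e) (M.sbc (M.fn RF e) f))
  T_eq1 : ∀ f g, M.gf f → M.gf g →
    M.Pv (M.im (M.fn tF (M.pr e (M.eqc f g))) (M.dj (M.eqc f g) (M.fn RF e)))
  T_eq2 : ∀ f g, M.gf f → M.gf g →
    M.Pv (M.im (M.dj (M.eqc f g) (M.fn RF e)) (M.fn tF (M.pr e (M.eqc f g))))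
  T_bt : M.fn tF (M.pr e M.btc) = M.fn RF e
  T_cj : ∀ a b, M.fn tF (M.pr e (M.cj a b)) = M.cj (M.fn tF (M.pr e a)) (M.fn tF (M.pr e b))
  T_dj : ∀ a b, M.fn tF (M.pr e (M.dj a b)) = M.dj (M.fn tF (M.pr e a)) (M.fn tF (M.pr e b))
  T_ex : ∀ a, M.fn tF (M.pr e (M.exc a)) = M.exc (M.fn tF (M.pr e a))
  T_sb : ∀ a f, M.fn tF (M.pr e (M.sbc a f)) = M.sbc (M.fn tF (M.pr e a)) f
  T_im1 : ∀ a b, M.gm a → M.gm b → M.Pv (M.im (M.fn tF (M.pr e (M.im a b)))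
    (M.cj (M.im (M.fn tF (M.pr e a)) (M.fn tF (M.pr e b))) (M.fn BF (M.pr e (M.im a b)))))
  T_im2 : ∀ a b, M.gm a → M.gm b → M.Pv (M.im
    (M.cj (M.im (M.fn tF (M.pr e a)) (M.fn tF (M.pr e b))) (M.fn BF (M.pr e (M.im a b))))
    (M.fn tF (M.pr e (M.im a b))))
  T_al1 : ∀ a, M.gm a → M.Pv (M.im (M.fn tF (M.pr e (M.alc a)))
    (M.cj (M.alc (M.fn tF (M.pr e a))) (M.fn BF (M.pr e (M.alc a)))))
  T_al2 : ∀ a, M.gm a → M.Pv (M.im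
    (M.cj (M.alc (M.fn tF (M.pr e a))) (M.fn BF (M.pr e (M.alc a))))
    (M.fn tF (M.pr e (M.alc a))))
  sm2 : ∀ k a b, 2 ≤ k → k < 5 → M.F Sm (M.pr e (M.nd k a b)) →
    M.F Sm (M.pr e a) ∧ M.F Sm (M.pr e b)
  sm1 : ∀ k a b, 5 ≤ k → k < 8 → M.F Sm (M.pr e (M.nd k a b)) → M.F Sm (M.pr e a)
  B_mp : ∀ a b, M.gm a → M.gm b → M.F Sm (M.pr e (M.im a b)) →
    M.Pv (M.im (M.fn BF (M.pr e (M.im a b))) (M.im (M.fn BF (M.pr e a)) (M.fn BF (M.pr e b))))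
  B_cj : ∀ a b, M.gm a → M.gm b → M.F Sm (M.pr e (M.cj a b)) →
    M.Pv (M.im (M.fn BF (M.pr e a)) (M.im (M.fn BF (M.pr e b)) (M.fn BF (M.pr e (M.cj a b)))))
  B_dj1 : ∀ a b, M.gm a → M.gm b → M.F Sm (M.pr e (M.dj a b)) →
    M.Pv (M.im (M.fn BF (M.pr e a)) (M.fn BF (M.pr e (M.dj a b))))
  B_dj2 : ∀ a b, M.gm a → M.gm b → M.F Sm (M.pr e (M.dj a b)) →
    M.Pv (M.im (M.fn BF (M.pr e b)) (M.fn BF (M.pr e (M.dj a b))))
  B_ex : ∀ a, M.gm a → M.F Sm (M.pr e (M.exc a)) →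
    M.Pv (M.im (M.fn BF (M.pr e a)) (M.sbc (M.fn BF (M.pr e (M.exc a))) M.lc))
  B_sb1 : ∀ a f, M.gm a → M.gf f → M.F Sm (M.pr e (M.sbc a f)) →
    M.Pv (M.im (M.sbc (M.fn BF (M.pr e a)) f) (M.fn BF (M.pr e (M.sbc a f))))
  B_sb2 : ∀ a f, M.gm a → M.gf f → M.F Sm (M.pr e (M.sbc a f)) →
    M.Pv (M.im (M.fn BF (M.pr e (M.sbc a f))) (M.sbc (M.fn BF (M.pr e a)) f))
  B_eq : ∀ f g, M.gf f → M.gf g → M.F Sm (M.pr e (M.eqc f g)) →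
    M.Pv (M.im (M.eqc f g) (M.fn BF (M.pr e (M.eqc f g))))
  B_R : ∀ a, M.gm a → M.Pv (M.im (M.fn RF e) (M.fn BF (M.pr e a)))

/-! ### Propositional steps -/

theorem Kr.F_app {N : Kr U} {w : N.W} {P Q : Fm U} {d : N.D w} (h : N.F (imp P Q) d)
    (k : N.F P d) : N.F Q d := by
  have := h w (le_refl w)
  rw [N.tr_refl] at this
  exact this k

theorem Kr.F_wk2 (N : Kr U) {w : N.W} {P Q : Fm U} {d : N.D w} (h : N.F Q d) :
    N.F (imp P Q) d := fun _ l _ => N.mono Q l _ h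

theorem Kr.q0 {φ : Fm ℕ} {ρ τ : ℕ → M.D w} (hρ : ∀ i, M.gf (ρ i)) (hτ : ∀ i, M.gm (τ i))
    (h : ∀ (N : Kr ℕ) (w : N.W) (d : N.D w), N.F φ d) : M.Pv (M.icm ρ τ φ) :=
  Kr.rule [] φ (fun N w _ d => h N w d) hρ hτ (fun ψ hψ => absurd hψ (by simp))

theorem Kr.q1 {A φ : Fm ℕ} {ρ τ : ℕ → M.D w} (hρ : ∀ i, M.gf (ρ i)) (hτ : ∀ i, M.gm (τ i))
    (h1 : M.Pv (M.icm ρ τ A))
    (h : ∀ (N : Kr ℕ) (w : N.W), (∀ (v : N.W) (_ : w ≤ v) (e : N.D v), N.F A e) →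
      ∀ d : N.D w, N.F φ d) : M.Pv (M.icm ρ τ φ) := by
  refine Kr.rule [A] φ (fun N w hN => h N w (hN A (by simp))) hρ hτ fun ψ hψ => ?_
  rw [List.mem_singleton] at hψ
  rw [hψ]
  exact h1

theorem Kr.q2 {A B φ : Fm ℕ} {ρ τ : ℕ → M.D w} (hρ : ∀ i, M.gf (ρ i)) (hτ : ∀ i, M.gm (τ i))
    (h1 : M.Pv (M.icm ρ τ A)) (h2 : M.Pv (M.icm ρ τ B))
    (h : ∀ (N : Kr ℕ) (w : N.W), (∀ (v : N.W) (_ : w ≤ v) (e : N.D v), N.F A e) →
      (∀ (v : N.W) (_ : w ≤ v) (e : N.D v), N.F B e) →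
      ∀ d : N.D w, N.F φ d) : M.Pv (M.icm ρ τ φ) := by
  refine Kr.rule [A, B] φ (fun N w hN => h N w (hN A (by simp)) (hN B (by simp))) hρ hτ
    fun ψ hψ => ?_
  rw [List.mem_cons, List.mem_singleton] at hψ
  rcases hψ with hψ | hψ
  · rw [hψ]; exact h1
  · rw [hψ]; exact h2

theorem Kr.q3 {A B C φ : Fm ℕ} {ρ τ : ℕ → M.D w} (hρ : ∀ i, M.gf (ρ i)) (hτ : ∀ i, M.gm (τ i))
    (h1 : M.Pv (M.icm ρ τ A)) (h2 : M.Pv (M.icm ρ τ B)) (h3 : M.Pv (M.icm ρ τ C))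
    (h : ∀ (N : Kr ℕ) (w : N.W), (∀ (v : N.W) (_ : w ≤ v) (e : N.D v), N.F A e) →
      (∀ (v : N.W) (_ : w ≤ v) (e : N.D v), N.F B e) →
      (∀ (v : N.W) (_ : w ≤ v) (e : N.D v), N.F C e) →
      ∀ d : N.D w, N.F φ d) : M.Pv (M.icm ρ τ φ) := by
  refine Kr.rule [A, B, C] φ
    (fun N w hN => h N w (hN A (by simp)) (hN B (by simp)) (hN C (by simp))) hρ hτ
    fun ψ hψ => ?_
  rw [List.mem_cons, List.mem_cons, List.mem_singleton] at hψ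
  rcases hψ with hψ | hψ | hψ
  · rw [hψ]; exact h1
  · rw [hψ]; exact h2
  · rw [hψ]; exact h3

theorem Kr.im_gm {a b : M.D w} (h : M.Pv (M.im a b)) : M.gm a ∧ M.gm b :=
  Kr.gm_im.1 (Kr.Pv_gm h)

theorem Kr.q_id {a : M.D w} (ha : M.gm a) : M.Pv (M.im a a) :=
  Kr.q0 (φ := imp (.mv 0) (.mv 0)) (ρ := fun _ => M.nd 0 M.zr M.zr) (τ := as4 a a a a)
    (fun _ => M.gf0) (Kr.gm_as4 ha ha ha ha) (fun _ _ _ _ _ h => h)

theorem Kr.q_tr {a b c : M.D w} (h : M.Pv (M.im a b)) (k : M.Pv (M.im b c)) :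
    M.Pv (M.im a c) :=
  Kr.q2 (A := imp (.mv 0) (.mv 1)) (B := imp (.mv 1) (.mv 2)) (φ := imp (.mv 0) (.mv 2))
    (ρ := fun _ => M.nd 0 M.zr M.zr) (τ := as4 a b c c)
    (fun _ => M.gf0) (Kr.gm_as4 (Kr.im_gm h).1 (Kr.im_gm h).2 (Kr.im_gm k).2 (Kr.im_gm k).2) h k
    (fun _ _ hA hB _ v l h => Kr.F_app (hB v l _) (Kr.F_app (hA v l _) h))

theorem Kr.q_cj {r a b : M.D w} (h : M.Pv (M.im r a)) (k : M.Pv (M.im r b)) :
    M.Pv (M.im r (M.cj a b)) :=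
  Kr.q2 (A := imp (.mv 0) (.mv 1)) (B := imp (.mv 0) (.mv 2))
    (φ := imp (.mv 0) (conj (.mv 1) (.mv 2)))
    (ρ := fun _ => M.nd 0 M.zr M.zr) (τ := as4 r a b b)
    (fun _ => M.gf0) (Kr.gm_as4 (Kr.im_gm h).1 (Kr.im_gm h).2 (Kr.im_gm k).2 (Kr.im_gm k).2) h k
    (fun _ _ hA hB _ v l h => ⟨Kr.F_app (hA v l _) h, Kr.F_app (hB v l _) h⟩)

theorem Kr.q_fst {a b : M.D w} (ha : M.gm a) (hb : M.gm b) : M.Pv (M.im (M.cj a b) a) :=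
  Kr.q0 (φ := imp (conj (.mv 0) (.mv 1)) (.mv 0)) (ρ := fun _ => M.nd 0 M.zr M.zr)
    (τ := as4 a b b b) (fun _ => M.gf0) (Kr.gm_as4 ha hb hb hb) (fun _ _ _ _ _ h => h.1)

theorem Kr.q_snd {a b : M.D w} (ha : M.gm a) (hb : M.gm b) : M.Pv (M.im (M.cj a b) b) :=
  Kr.q0 (φ := imp (conj (.mv 0) (.mv 1)) (.mv 1)) (ρ := fun _ => M.nd 0 M.zr M.zr)
    (τ := as4 a b b b) (fun _ => M.gf0) (Kr.gm_as4 ha hb hb hb) (fun _ _ _ _ _ h => h.2)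

theorem Kr.q_inl {a b : M.D w} (ha : M.gm a) (hb : M.gm b) : M.Pv (M.im a (M.dj a b)) :=
  Kr.q0 (φ := imp (.mv 0) (disj (.mv 0) (.mv 1))) (ρ := fun _ => M.nd 0 M.zr M.zr)
    (τ := as4 a b b b) (fun _ => M.gf0) (Kr.gm_as4 ha hb hb hb) (fun _ _ _ _ _ h => Or.inl h)

theorem Kr.q_inr {a b : M.D w} (ha : M.gm a) (hb : M.gm b) : M.Pv (M.im b (M.dj a b)) :=
  Kr.q0 (φ := imp (.mv 1) (disj (.mv 0) (.mv 1))) (ρ := fun _ => M.nd 0 M.zr M.zr)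
    (τ := as4 a b b b) (fun _ => M.gf0) (Kr.gm_as4 ha hb hb hb) (fun _ _ _ _ _ h => Or.inr h)

theorem Kr.q_djE {a b c : M.D w} (h : M.Pv (M.im a c)) (k : M.Pv (M.im b c)) :
    M.Pv (M.im (M.dj a b) c) :=
  Kr.q2 (A := imp (.mv 0) (.mv 2)) (B := imp (.mv 1) (.mv 2))
    (φ := imp (disj (.mv 0) (.mv 1)) (.mv 2))
    (ρ := fun _ => M.nd 0 M.zr M.zr) (τ := as4 a b c c)
    (fun _ => M.gf0) (Kr.gm_as4 (Kr.im_gm h).1 (Kr.im_gm k).1 (Kr.im_gm k).2 (Kr.im_gm k).2) h k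
    (fun _ _ hA hB _ v l h => h.elim (fun h => Kr.F_app (hA v l _) h)
      fun h => Kr.F_app (hB v l _) h)

theorem Kr.q_wk {r a b : M.D w} (ha : M.gm a) (h : M.Pv (M.im r b)) :
    M.Pv (M.im r (M.im a b)) :=
  Kr.q1 (A := imp (.mv 0) (.mv 2)) (φ := imp (.mv 0) (imp (.mv 1) (.mv 2)))
    (ρ := fun _ => M.nd 0 M.zr M.zr) (τ := as4 r a b b)
    (fun _ => M.gf0) (Kr.gm_as4 (Kr.im_gm h).1 ha (Kr.im_gm h).2 (Kr.im_gm h).2) h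
    (fun N _ hA _ v l h => N.F_wk2 (Kr.F_app (hA v l _) h))

/-- From `a → b → c` to `a ∧ b → c`. -/
theorem Kr.q_un {a b c : M.D w} (h : M.Pv (M.im a (M.im b c))) : M.Pv (M.im (M.cj a b) c) :=
  Kr.q1 (A := imp (.mv 0) (imp (.mv 1) (.mv 2))) (φ := imp (conj (.mv 0) (.mv 1)) (.mv 2))
    (ρ := fun _ => M.nd 0 M.zr M.zr) (τ := as4 a b c c)
    (fun _ => M.gf0) (Kr.gm_as4 (Kr.im_gm h).1 (Kr.gm_im.1 (Kr.im_gm h).2).1
      (Kr.gm_im.1 (Kr.im_gm h).2).2 (Kr.gm_im.1 (Kr.im_gm h).2).2) h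
    (fun _ _ hA _ v l h => Kr.F_app (Kr.F_app (hA v l _) h.1) h.2)

theorem Kr.q_sb {a b f : M.D w} (h : M.Pv (M.im a b)) (hf : M.gf f) :
    M.Pv (M.im (M.sbc a f) (M.sbc b f)) :=
  Kr.q1 (A := imp (.mv 0) (.mv 1)) (φ := imp (sub (.mv 0) (.mv 0)) (sub (.mv 1) (.mv 0)))
    (ρ := fun _ => f) (τ := as4 a b b b)
    (fun _ => hf) (Kr.gm_as4 (Kr.im_gm h).1 (Kr.im_gm h).2 (Kr.im_gm h).2 (Kr.im_gm h).2) h
    (fun N _ hA d v l h => Kr.F_app (P := .mv 0) (Q := .mv 1)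
      (hA v l (N.fn (.mv 0) (N.tr l d))) h)

/-- Existential introduction, when the parameters do not depend on the last component. -/
theorem Kr.q_exR {r a : M.D w} (h : M.Pv (M.im r a)) (k : M.Pv (M.im (M.sbc r M.lc) r)) :
    M.Pv (M.im r (M.exc a)) :=
  Kr.q2 (A := imp (.mv 0) (.mv 1)) (B := imp (sub (.mv 0) left) (.mv 0))
    (φ := imp (.mv 0) (ex (.mv 1)))
    (ρ := fun _ => M.nd 0 M.zr M.zr) (τ := as4 r a a a)
    (fun _ => M.gf0) (Kr.gm_as4 (Kr.im_gm h).1 (Kr.im_gm h).2 (Kr.im_gm h).2 (Kr.im_gm h).2) h k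
    (fun N _ hA hB _ v l h => by
      refine ⟨N.zr, Kr.F_app (hA v l _) (Kr.F_app (hB v l _) ?_)⟩
      show N.F (.mv 0) (N.fn left _)
      rw [N.left_pr]
      exact h)

section
variable {tF BF RF : Fn V} {Sm : Fm V} {e : M.D w}

/-- The parameter formula implies every translated formula. -/
theorem TrH.RT (H : ∀ (v : M.W) (h : w ≤ v), TrH M tF BF RF Sm (M.tr h e)) {a : M.D w}
    (ha : M.gm a) : M.Pv (M.im (M.fn RF e) (M.fn tF (M.pr e a))) := by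
  have key : ∀ {v : M.W} (x y : M.D v), M.F (prT (ndF 4 (comp RF left) tF)) (M.pr x y) ↔
      M.Pv (M.im (M.fn RF x) (M.fn tF (M.pr x y))) := by
    intro v x y
    rw [Kr.F_prT]
    simp
  rw [← key]
  refine Kr.gm_ind _ e ?_ ?_ ?_ ?_ ?_ ha
  · intro v h f g hf hg
    rw [key]
    have T := H v h
    exact Kr.q_tr (Kr.q_inr (Kr.gm_eqc.2 ⟨hf, hg⟩) T.gR) (T.T_eq2 f g hf hg)
  · rw [key]
    have T := H w (le_refl w)
    rw [M.tr_refl] at T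
    rw [T.T_bt]
    exact Kr.q_id T.gR
  · intro v h k x y h2 h5 hx hy h1 h3
    rw [key] at h1 h3 ⊢
    have T := H v h
    interval_cases k
    · rw [T.T_cj]
      exact Kr.q_cj h1 h3
    · rw [T.T_dj]
      exact Kr.q_tr h1 (Kr.q_inl (T.gT x hx) (T.gT y hy))
    · exact Kr.q_tr (Kr.q_cj (Kr.q_wk (T.gT x hx) h3) (T.B_R _ (Kr.gm_im.2 ⟨hx, hy⟩)))
        (T.T_im2 x y hx hy)
  · intro v h k x h2 h5 hx h1
    rw [key] at h1 ⊢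
    have T := H v h
    have hl : M.Pv (M.im (M.sbc (M.fn RF (M.tr h e)) M.lc) (M.fn RF (M.tr h e))) :=
      T.Rs1 M.lc M.gf3
    interval_cases k
    · rw [T.T_ex]
      exact Kr.q_exR h1 hl
    · exact Kr.q_tr (Kr.q_cj (Kr.Pv_allI (Kr.q_tr hl h1)) (T.B_R _ (Kr.gm_alc.2 hx)))
        (T.T_al2 x hx)
  · intro v h x f hx hf h1
    rw [key] at h1 ⊢
    have T := H v h
    rw [T.T_sb]
    exact Kr.q_tr (T.Rs2 f hf) (Kr.q_sb h1 hf)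

/-- Translated formulas imply their side formulas. -/
theorem TrH.pers (H : ∀ (v : M.W) (h : w ≤ v), TrH M tF BF RF Sm (M.tr h e)) {a : M.D w}
    (ha : M.gm a) (hs : M.F Sm (M.pr e a)) :
    M.Pv (M.im (M.fn tF (M.pr e a)) (M.fn BF (M.pr e a))) := by
  have key : ∀ {v : M.W} (x y : M.D v), M.F (imp Sm (prT (ndF 4 tF BF))) (M.pr x y) ↔
      ∀ (u : M.W) (l : v ≤ u), M.F Sm (M.pr (M.tr l x) (M.tr l y)) →
      M.Pv (M.im (M.fn tF (M.pr (M.tr l x) (M.tr l y)))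
        (M.fn BF (M.pr (M.tr l x) (M.tr l y)))) := by
    intro v x y
    rw [Kr.F_imp]
    simp only [Kr.F_prT, M.tr_pr, Kr.fn_ndF]
  have fin : M.F (imp Sm (prT (ndF 4 tF BF))) (M.pr e a) := by
    refine Kr.gm_ind _ e ?_ ?_ ?_ ?_ ?_ ha
    · intro v h f g hf hg
      rw [key]
      intro u l hs
      have T := H u (h.trans l)
      rw [← M.tr_tr h l] at T
      rw [Kr.tr_nd] at hs ⊢
      have hf := Kr.gf_mono l hf
      have hg := Kr.gf_mono l hg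
      exact Kr.q_tr (T.T_eq1 _ _ hf hg) (Kr.q_djE (T.B_eq _ _ hf hg hs)
        (T.B_R _ (Kr.gm_eqc.2 ⟨hf, hg⟩)))
    · rw [key]
      intro u l hs
      have T := H u l
      rw [Kr.tr_nd, Kr.tr_zr] at hs ⊢
      rw [T.T_bt]
      exact T.B_R _ Kr.gm_btc
    · intro v h k x y h2 h5 hx hy h1 h3
      rw [key] at h1 h3 ⊢
      intro u l hs
      have T := H u (h.trans l)
      rw [← M.tr_tr h l] at T
      rw [Kr.tr_nd] at hs ⊢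
      have hs2 := T.sm2 k _ _ h2 h5 hs
      have h1 := h1 u l hs2.1
      have h3 := h3 u l hs2.2
      have hx := Kr.gm_mono l hx
      have hy := Kr.gm_mono l hy
      interval_cases k
      · rw [T.T_cj]
        exact Kr.q_tr (Kr.q_cj (Kr.q_tr (Kr.q_fst (T.gT _ hx) (T.gT _ hy)) h1)
          (Kr.q_tr (Kr.q_snd (T.gT _ hx) (T.gT _ hy)) h3)) (Kr.q_un (T.B_cj _ _ hx hy hs))
      · rw [T.T_dj]
        exact Kr.q_djE (Kr.q_tr h1 (T.B_dj1 _ _ hx hy hs)) (Kr.q_tr h3 (T.B_dj2 _ _ hx hy hs))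
      · exact Kr.q_tr (T.T_im1 _ _ hx hy) (Kr.q_snd (Kr.gm_im.2 ⟨T.gT _ hx, T.gT _ hy⟩)
          (T.gB _ (Kr.gm_im.2 ⟨hx, hy⟩)))
    · intro v h k x h2 h5 hx h1
      rw [key] at h1 ⊢
      intro u l hs
      have T := H u (h.trans l)
      rw [← M.tr_tr h l] at T
      rw [Kr.tr_nd, Kr.tr_zr] at hs ⊢
      have hs2 := T.sm1 k _ _ h2 (by omega) hs
      have h1 := h1 u l hs2
      have hx := Kr.gm_mono l hx
      interval_cases k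
      · rw [T.T_ex]
        exact Kr.Pv_exE (Kr.q_tr h1 (T.B_ex _ hx hs))
      · exact Kr.q_tr (T.T_al1 _ hx) (Kr.q_snd (Kr.gm_alc.2 (T.gT _ hx))
          (T.gB _ (Kr.gm_alc.2 hx)))
    · intro v h x f hx hf h1
      rw [key] at h1 ⊢
      intro u l hs
      have T := H u (h.trans l)
      rw [← M.tr_tr h l] at T
      rw [Kr.tr_nd] at hs ⊢
      have hs2 := T.sm1 7 _ _ (by norm_num) (by norm_num) hs
      have h1 := h1 u l hs2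
      have hx := Kr.gm_mono l hx
      have hf := Kr.gf_mono l hf
      rw [T.T_sb]
      exact Kr.q_tr (Kr.q_sb h1 hf) (T.B_sb1 _ _ hx hf hs)
  have := (key e a).1 fin w (le_refl w)
  rw [M.tr_refl, M.tr_refl] at this
  exact this hs

end

end HAr
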