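import Pool.Agent.Lib.MP_61e577_lc.Ar.GT

/-! The general translation of the axioms. -/

namespace HAr

open Fn Fm

/-! ### The translation of schemes -/

/-- Metavariables for the translations and the side formulas of schemes and for the functions. -/
abbrev GaV : Type := (Fm ℕ × Fin 3) ⊕ ℕ

theorem gaV_countable : Countable GaV := by
  have : Countable (Fm ℕ) := by
    obtain ⟨c, hc⟩ := Countable.exists_injective_nat ℕ
    exact (mcode_inj hc).countable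
  infer_instance

/-- Functions of schemes. -/
def gaf (f : Fn ℕ) : Fn GaV := f.ms fun i => .mv (Sum.inr i)

/-- The parameter formula. -/
def gaR : Fm GaV := .mv (Sum.inl (bot, 2))

/-- The side formula of a scheme. -/
def gaB (P : Fm ℕ) : Fm GaV := .mv (Sum.inl (P, 1))

/-- The translation of a scheme. -/
def gaT : Fm ℕ → Fm GaV
  | .mv i => .mv (Sum.inl (.mv i, 0))
  | eq f g => disj (eq (gaf f) (gaf g)) gaR
  | bot => gaR
  | conj P Q => conj (gaT P) (gaT Q)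
  | disj P Q => disj (gaT P) (gaT Q)
  | imp P Q => conj (imp (gaT P) (gaT Q)) (gaB (imp P Q))
  | ex P => ex (gaT P)
  | all P => conj (all (gaT P)) (gaB (all P))
  | sub P f => sub (gaT P) (gaf f)

/-- Subformulas of a scheme. -/
def gaS : Fm ℕ → List (Fm ℕ)
  | .mv i => [.mv i]
  | eq f g => [eq f g]
  | bot => [bot]
  | conj P Q => conj P Q :: (gaS P ++ gaS Q)
  | disj P Q => disj P Q :: (gaS P ++ gaS Q)
  | imp P Q => imp P Q :: (gaS P ++ gaS Q)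
  | ex P => ex P :: gaS P
  | all P => all P :: gaS P
  | sub P f => sub P f :: gaS P

@[simp] theorem gaS_self (P : Fm ℕ) : P ∈ gaS P := by cases P <;> simp [gaS]

/-- The facts about the subformulas. -/
structure GaH (N : Kr GaV) (w : N.W) (S : List (Fm ℕ)) : Prop where
  pers : ∀ P ∈ S, ∀ (v : N.W) (_ : w ≤ v) (x : N.D v), N.F (gaT P) x → N.F (gaB P) x
  rt : ∀ P ∈ S, ∀ (v : N.W) (_ : w ≤ v) (x : N.D v), N.F gaR x → N.F (gaT P) x
  mp : ∀ P Q, imp P Q ∈ S → ∀ (v : N.W) (_ : w ≤ v) (x : N.D v), N.F (gaB (imp P Q)) x →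
    N.F (gaB P) x → N.F (gaB Q) x
  sb : ∀ P f, sub P f ∈ S → ∀ (v : N.W) (_ : w ≤ v) (x : N.D v), N.F (gaB (sub P f)) x →
    N.F (gaB P) (N.fn (gaf f) x)
  rs1 : ∀ P f, sub P f ∈ S → ∀ (v : N.W) (_ : w ≤ v) (x : N.D v),
    N.F gaR (N.fn (gaf f) x) → N.F gaR x
  rs2 : ∀ P f, sub P f ∈ S → ∀ (v : N.W) (_ : w ≤ v) (x : N.D v),
    N.F gaR x → N.F gaR (N.fn (gaf f) x)

section sem

theorem ga_app {U : Type} {N : Kr U} {w : N.W} {x : N.D w} {P Q : Fm U} (h : N.F (imp P Q) x)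
    (k : N.F P x) : N.F Q x := by
  have := h w (le_refl w)
  rw [N.tr_refl] at this
  exact this k

variable {N : Kr GaV} {w : N.W} {x : N.D w}

theorem ga_im1 {A D : Fm ℕ} (H : GaH N w (gaS (imp A D))) (hB : N.F (gaB (imp A D)) x)
    (hf : ∀ (v : N.W) (_ : w ≤ v) (y : N.D v), N.F (gaT A) y → N.F (gaB D) y → N.F (gaT D) y) :
    N.F (gaT (imp A D)) x :=
  ⟨fun v h hA => hf v h _ hA (H.mp A D (by simp [gaS]) v h _ (N.mono _ h _ hB)
    (H.pers A (by simp [gaS]) v h _ hA)), hB⟩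

theorem ga_im2 {A C D : Fm ℕ} (H : GaH N w (gaS (imp A (imp C D))))
    (hB : N.F (gaB (imp A (imp C D))) x)
    (hf : ∀ (v : N.W) (_ : w ≤ v) (y : N.D v), N.F (gaT A) y → N.F (gaT C) y → N.F (gaB D) y →
      N.F (gaT D) y) :
    N.F (gaT (imp A (imp C D))) x := by
  refine ga_im1 H hB (fun v h y hA hB' => ⟨fun u k hC => ?_, hB'⟩)
  refine hf u (h.trans k) _ (N.mono _ k _ hA) hC ?_
  exact H.mp C D (by simp [gaS]) u (h.trans k) _ (N.mono _ k _ hB')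
    (H.pers C (by simp [gaS]) u (h.trans k) _ hC)

theorem ga_im3 {A C D E : Fm ℕ} (H : GaH N w (gaS (imp A (imp C (imp D E)))))
    (hB : N.F (gaB (imp A (imp C (imp D E)))) x)
    (hf : ∀ (v : N.W) (_ : w ≤ v) (y : N.D v), N.F (gaT A) y → N.F (gaT C) y → N.F (gaT D) y →
      N.F (gaT E) y) :
    N.F (gaT (imp A (imp C (imp D E)))) x := by
  refine ga_im2 H hB (fun v h y hA hC hB' => ⟨fun u k hD => ?_, hB'⟩)
  exact hf u (h.trans k) _ (N.mono _ k _ hA) (N.mono _ k _ hC) hD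

/-- The translated axioms follow from the facts about the subformulas. -/
theorem ga_ax {P : Fm ℕ} (hP : Ax P) (H : GaH N w (gaS P)) (hB : N.F (gaB P) x) :
    N.F (gaT P) x := by
  cases hP with
  | k P Q => exact ga_im2 H hB fun v h y h1 _ _ => h1
  | s P Q R => exact ga_im3 H hB fun v h y h1 h2 h3 => ga_app (ga_app h1.1 h3).1 (ga_app h2.1 h3)
  | andI P Q => exact ga_im2 H hB fun v h y h1 h2 _ => ⟨h1, h2⟩
  | andL P Q => exact ga_im1 H hB fun v h y h1 _ => h1.1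
  | andR P Q => exact ga_im1 H hB fun v h y h1 _ => h1.2
  | orL P Q => exact ga_im1 H hB fun v h y h1 _ => Or.inl h1
  | orR P Q => exact ga_im1 H hB fun v h y h1 _ => Or.inr h1
  | orE P Q R => exact ga_im3 H hB fun v h y h1 h2 h3 => h3.elim (ga_app h1.1) (ga_app h2.1)
  | botE P => exact ga_im1 H hB fun v h y h1 _ => H.rt P (by simp [gaS]) v h y h1
  | exI P => exact ga_im1 H hB fun v h y h1 _ => ga_app (N.ax (Ax.exI (gaT P)) y) h1
  | allE P => exact ga_im1 H hB fun v h y h1 _ => ga_app (N.ax (Ax.allE (gaT P)) y) h1.1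
  | subImp P Q f => exact ga_im2 H hB fun v h y h1 h2 _ => ga_app (x := N.fn (gaf f) y) h1.1 h2
  | impSub P Q f =>
    refine ga_im1 H hB fun v h y h1 h2 => ?_
    have h3 : N.F (sub (imp (gaT P) (gaT Q)) (gaf f)) y :=
      ga_app (N.ax (Ax.impSub (gaT P) (gaT Q) (gaf f)) y) h1.1
    exact ⟨h3, H.sb (imp P Q) f (by simp [gaS]) v h y h2⟩
  | subOr P Q f => exact ga_im1 H hB fun v h y h1 _ => h1
  | subBot f => exact ga_im1 H hB fun v h y h1 _ => H.rs1 bot f (by simp [gaS]) v h y h1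
  | subEx P f =>
    exact ga_im1 H hB fun v h y h1 _ => ga_app (N.ax (Ax.subEx (gaT P) (gaf f)) y) h1
  | allSub P f =>
    refine ga_im1 H hB fun v h y h1 h2 => ?_
    have h3 : N.F (sub (all (gaT P)) (gaf f)) y :=
      ga_app (N.ax (Ax.allSub (gaT P) (gaf f)) y) h1.1
    exact ⟨h3, H.sb (all P) f (by simp [gaS]) v h y h2⟩
  | subEq f g i =>
    exact ga_im1 H hB fun v h y h1 _ => h1.imp
      (fun h1 => ga_app (N.ax (Ax.subEq (gaf f) (gaf g) (gaf i)) y) h1)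
      (fun h1 => H.rs1 (eq f g) i (by simp [gaS]) v h y h1)
  | eqSub f g i =>
    refine ga_im1 H hB fun v h y h1 _ => ?_
    rcases h1 with h1 | h1
    · have h3 : N.F (sub (eq (gaf f) (gaf g)) (gaf i)) y :=
        ga_app (N.ax (Ax.eqSub (gaf f) (gaf g) (gaf i)) y) h1
      exact Or.inl h3
    · exact Or.inr (H.rs2 (eq f g) i (by simp [gaS]) v h y h1)
  | subSub P f g =>
    exact ga_im1 H hB fun v h y h1 _ => ga_app (N.ax (Ax.subSub (gaT P) (gaf f) (gaf g)) y) h1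
  | subComp P f g =>
    exact ga_im1 H hB fun v h y h1 _ => ga_app (N.ax (Ax.subComp (gaT P) (gaf f) (gaf g)) y) h1
  | subId P => exact ga_im1 H hB fun v h y h1 _ => ga_app (N.ax (Ax.subId (gaT P)) y) h1
  | idSub P => exact ga_im1 H hB fun v h y h1 _ => ga_app (N.ax (Ax.idSub (gaT P)) y) h1
  | refl f => exact Or.inl rfl
  | symm f g =>
    exact ga_im1 H hB fun v h y h1 _ => h1.imp
      (fun h1 => ga_app (N.ax (Ax.symm (gaf f) (gaf g)) y) h1) id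
  | trans f g i =>
    refine ga_im2 H hB fun v h y h1 h2 _ => ?_
    rcases h1 with h1 | h1
    · exact h2.imp (fun h2 => ga_app (ga_app (N.ax (Ax.trans (gaf f) (gaf g) (gaf i)) y) h1) h2) id
    · exact Or.inr h1
  | congP f f' g g' =>
    refine ga_im2 H hB fun v h y h1 h2 _ => ?_
    rcases h1 with h1 | h1
    · exact h2.imp (fun h2 => ga_app (ga_app (N.ax (Ax.congP (gaf f) (gaf f') (gaf g) (gaf g')) y)
        h1) h2) id
    · exact Or.inr h1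
  | congC f g g' =>
    exact ga_im1 H hB fun v h y h1 _ => h1.imp
      (fun h1 => ga_app (N.ax (Ax.congC (gaf f) (gaf g) (gaf g')) y) h1) id
  | leib P f g =>
    refine ga_im2 H hB fun v h y h1 h2 _ => ?_
    rcases h1 with h1 | h1
    · exact ga_app (ga_app (N.ax (Ax.leib (gaT P) (gaf f) (gaf g)) y) h1) h2
    · exact H.rt (sub P g) (by simp [gaS]) v h y h1
  | compA f g i => exact Or.inl (N.ax (Ax.compA (gaf f) (gaf g) (gaf i)) x)
  | idL f => exact Or.inl (N.ax (Ax.idL (gaf f)) x)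
  | idR f => exact Or.inl (N.ax (Ax.idR (gaf f)) x)
  | zeroC f => exact Or.inl (N.ax (Ax.zeroC (gaf f)) x)
  | leftP f g => exact Or.inl (N.ax (Ax.leftP (gaf f) (gaf g)) x)
  | rightP f g => exact Or.inl (N.ax (Ax.rightP (gaf f) (gaf g)) x)
  | pairC f g i => exact Or.inl (N.ax (Ax.pairC (gaf f) (gaf g) (gaf i)) x)
  | pairE => exact Or.inl (N.ax Ax.pairE x)
  | p00 => exact Or.inl (N.ax Ax.p00 x)
  | pS => exact Or.inl (N.ax Ax.pS x)
  | p0 => exact Or.inl (N.ax Ax.p0 x)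
  | prec0 f g => exact Or.inl (N.ax (Ax.prec0 (gaf f) (gaf g)) x)
  | precS f g => exact Or.inl (N.ax (Ax.precS (gaf f) (gaf g)) x)
  | trec0 f g => exact Or.inl (N.ax (Ax.trec0 (gaf f) (gaf g)) x)
  | trecS f g => exact Or.inl (N.ax (Ax.trecS (gaf f) (gaf g)) x)
  | sZ => exact ga_im1 H hB fun v h y h1 _ => h1.elim (fun h1 => (ga_app (N.ax Ax.sZ y) h1).elim) id
  | sI => exact ga_im1 H hB fun v h y h1 _ => h1.imp (fun h1 => ga_app (N.ax Ax.sI y) h1) id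
  | ind P =>
    refine ga_im2 H hB fun v h y h1 h2 h3 => ⟨?_, h3⟩
    exact ga_app (ga_app (N.ax (Ax.ind (gaT P)) y) h1) fun u k d => (h2.1 u k d).1

end sem

theorem Fn.ms_mv : ∀ f : Fn ℕ, f.ms (fun i => (.mv i : Fn ℕ)) = f
  | .mv _ => rfl
  | idn => rfl
  | zero => rfl
  | succ => rfl
  | left => rfl
  | right => rfl
  | pair f g => congrArg₂ pair (Fn.ms_mv f) (Fn.ms_mv g)
  | comp f g => congrArg₂ comp (Fn.ms_mv f) (Fn.ms_mv g)
  | prec f g => congrArg₂ prec (Fn.ms_mv f) (Fn.ms_mv g)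
  | trec f g => congrArg₂ trec (Fn.ms_mv f) (Fn.ms_mv g)

theorem Fm.ms_mv : ∀ P : Fm ℕ, P.ms (fun i => (.mv i : Fn ℕ)) (fun i => (.mv i : Fm ℕ)) = P
  | .mv _ => rfl
  | eq f g => congrArg₂ eq (Fn.ms_mv f) (Fn.ms_mv g)
  | bot => rfl
  | conj P Q => congrArg₂ conj (Fm.ms_mv P) (Fm.ms_mv Q)
  | disj P Q => congrArg₂ disj (Fm.ms_mv P) (Fm.ms_mv Q)
  | imp P Q => congrArg₂ imp (Fm.ms_mv P) (Fm.ms_mv Q)
  | ex P => congrArg ex (Fm.ms_mv P)
  | all P => congrArg all (Fm.ms_mv P)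
  | sub P f => congrArg₂ sub (Fm.ms_mv P) (Fn.ms_mv f)

/-- The facts about one subformula, as a list of formulas. -/
def gaL : Fm ℕ → List (Fm GaV)
  | imp P Q => [imp (gaT (imp P Q)) (gaB (imp P Q)), imp gaR (gaT (imp P Q)),
      imp (gaB (imp P Q)) (imp (gaB P) (gaB Q))]
  | sub P f => [imp (gaT (sub P f)) (gaB (sub P f)), imp gaR (gaT (sub P f)),
      imp (gaB (sub P f)) (sub (gaB P) (gaf f)), imp (sub gaR (gaf f)) gaR,
      imp gaR (sub gaR (gaf f))]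
  | P => [imp (gaT P) (gaB P), imp gaR (gaT P)]

theorem gaL_pers (P : Fm ℕ) : imp (gaT P) (gaB P) ∈ gaL P := by cases P <;> simp [gaL]

theorem gaL_rt (P : Fm ℕ) : imp gaR (gaT P) ∈ gaL P := by cases P <;> simp [gaL]

theorem gaH_of {N : Kr GaV} {w : N.W} {S : List (Fm ℕ)}
    (h : ∀ ψ ∈ S.flatMap gaL, ∀ (v : N.W) (_ : w ≤ v) (x : N.D v), N.F ψ x) : GaH N w S where
  pers := fun P hP v k x h1 => ga_app (h _ (List.mem_flatMap.2 ⟨P, hP, gaL_pers P⟩) v k x) h1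
  rt := fun P hP v k x h1 => ga_app (h _ (List.mem_flatMap.2 ⟨P, hP, gaL_rt P⟩) v k x) h1
  mp := fun P Q hP v k x h1 h2 => ga_app (ga_app (h (imp (gaB (imp P Q)) (imp (gaB P) (gaB Q)))
    (List.mem_flatMap.2 ⟨_, hP, by simp [gaL]⟩) v k x) h1) h2
  sb := fun P f hP v k x h1 => ga_app (Q := sub (gaB P) (gaf f))
    (h (imp (gaB (sub P f)) (sub (gaB P) (gaf f)))
    (List.mem_flatMap.2 ⟨_, hP, by simp [gaL]⟩) v k x) h1
  rs1 := fun P f hP v k x h1 => ga_app (P := sub gaR (gaf f)) (h (imp (sub gaR (gaf f)) gaR)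
    (List.mem_flatMap.2 ⟨_, hP, by simp [gaL]⟩) v k x) h1
  rs2 := fun P f hP v k x h1 => ga_app (Q := sub gaR (gaf f)) (h (imp gaR (sub gaR (gaf f)))
    (List.mem_flatMap.2 ⟨_, hP, by simp [gaL]⟩) v k x) h1

/-- The semantic rule for the translated axioms. -/
theorem ga_sem {P : Fm ℕ} (hP : Ax P) : Sem ((gaS P).flatMap gaL) (imp (gaB P) (gaT P)) := by
  intro N w h d v k hB
  exact ga_ax hP (gaH_of fun ψ hψ u l x => h ψ hψ u (k.trans l) x) hB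

/-! ### Monotonicity of the connectives for internal provability -/

variable {V : Type} {M : Kr V} {w : M.W} {a b c a' b' : M.D w}

theorem Kr.gi_refl (ha : M.gm a) : M.Pv (M.im a a) :=
  Kr.rule (U := ℕ) [] (imp (.mv 0) (.mv 0)) (fun _ _ _ _ _ _ h => h) (ρ := fun _ => M.nd 0 M.zr M.zr)
    (τ := fun _ => a) (fun _ => M.gf_small (by norm_num)) (fun _ => ha) (by simp)

theorem as4_gm {d : M.D w} (ha : M.gm a) (hb : M.gm b) (hc : M.gm c) (hd : M.gm d) :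
    ∀ i, M.gm (as4 a b c d i)
  | 0 => ha
  | 1 => hb
  | 2 => hc
  | _ + 3 => hd

theorem Kr.gi_trans (ha : M.gm a) (hb : M.gm b) (hc : M.gm c) (h : M.Pv (M.im a b))
    (k : M.Pv (M.im b c)) : M.Pv (M.im a c) := by
  refine Kr.rule (U := ℕ) [imp (.mv 0) (.mv 1), imp (.mv 1) (.mv 2)] (imp (.mv 0) (.mv 2))
    (fun N w hN d v l h1 => ?_) (ρ := fun _ => M.nd 0 M.zr M.zr)
    (τ := as4 a b c c) (fun _ => M.gf_small (by norm_num)) (as4_gm ha hb hc hc) ?_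
  · exact ga_app (hN (imp (.mv 1) (.mv 2)) (by simp) v l _)
      (ga_app (hN (imp (.mv 0) (.mv 1)) (by simp) v l _) h1)
  · intro ψ hψ
    simp only [List.mem_cons, List.not_mem_nil, or_false] at hψ
    rcases hψ with rfl | rfl
    · exact h
    · exact k

theorem Kr.gi_cj (ha : M.gm a) (hb : M.gm b) (ha' : M.gm a') (hb' : M.gm b')
    (h : M.Pv (M.im a a')) (k : M.Pv (M.im b b')) : M.Pv (M.im (M.cj a b) (M.cj a' b')) := by
  refine Kr.rule (U := ℕ) [imp (.mv 0) (.mv 2), imp (.mv 1) (.mv 3)]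
    (imp (conj (.mv 0) (.mv 1)) (conj (.mv 2) (.mv 3)))
    (fun N w hN d v l h1 => ?_) (ρ := fun _ => M.nd 0 M.zr M.zr)
    (τ := as4 a b a' b') (fun _ => M.gf_small (by norm_num)) (as4_gm ha hb ha' hb') ?_
  · exact ⟨ga_app (hN (imp (.mv 0) (.mv 2)) (by simp) v l _) h1.1,
      ga_app (hN (imp (.mv 1) (.mv 3)) (by simp) v l _) h1.2⟩
  · intro ψ hψ
    simp only [List.mem_cons, List.not_mem_nil, or_false] at hψ
    rcases hψ with rfl | rfl
    · exact h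
    · exact k

theorem Kr.gi_dj (ha : M.gm a) (hb : M.gm b) (ha' : M.gm a') (hb' : M.gm b')
    (h : M.Pv (M.im a a')) (k : M.Pv (M.im b b')) : M.Pv (M.im (M.dj a b) (M.dj a' b')) := by
  refine Kr.rule (U := ℕ) [imp (.mv 0) (.mv 2), imp (.mv 1) (.mv 3)]
    (imp (disj (.mv 0) (.mv 1)) (disj (.mv 2) (.mv 3)))
    (fun N w hN d v l h1 => ?_) (ρ := fun _ => M.nd 0 M.zr M.zr)
    (τ := as4 a b a' b') (fun _ => M.gf_small (by norm_num)) (as4_gm ha hb ha' hb') ?_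
  · exact h1.imp (ga_app (hN (imp (.mv 0) (.mv 2)) (by simp) v l _))
      (ga_app (hN (imp (.mv 1) (.mv 3)) (by simp) v l _))
  · intro ψ hψ
    simp only [List.mem_cons, List.not_mem_nil, or_false] at hψ
    rcases hψ with rfl | rfl
    · exact h
    · exact k

theorem Kr.gi_im (ha : M.gm a) (hb : M.gm b) (ha' : M.gm a') (hb' : M.gm b')
    (h : M.Pv (M.im a' a)) (k : M.Pv (M.im b b')) : M.Pv (M.im (M.im a b) (M.im a' b')) := by
  refine Kr.rule (U := ℕ) [imp (.mv 2) (.mv 0), imp (.mv 1) (.mv 3)]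
    (imp (imp (.mv 0) (.mv 1)) (imp (.mv 2) (.mv 3)))
    (fun N w hN d v l h1 u m h2 => ?_) (ρ := fun _ => M.nd 0 M.zr M.zr)
    (τ := as4 a b a' b') (fun _ => M.gf_small (by norm_num)) (as4_gm ha hb ha' hb') ?_
  · exact ga_app (hN (imp (.mv 1) (.mv 3)) (by simp) u (l.trans m) _)
      (h1 u m (ga_app (hN (imp (.mv 2) (.mv 0)) (by simp) u (l.trans m) _) h2))
  · intro ψ hψ
    simp only [List.mem_cons, List.not_mem_nil, or_false] at hψ
    rcases hψ with rfl | rfl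
    · exact h
    · exact k

theorem Kr.gi_ex (ha : M.gm a) (ha' : M.gm a') (h : M.Pv (M.im a a')) :
    M.Pv (M.im (M.exc a) (M.exc a')) := by
  refine Kr.rule (U := ℕ) [imp (.mv 0) (.mv 1)] (imp (ex (.mv 0)) (ex (.mv 1)))
    (fun N w hN d v l h1 => ?_) (ρ := fun _ => M.nd 0 M.zr M.zr)
    (τ := as4 a a' a a) (fun _ => M.gf_small (by norm_num)) (as4_gm ha ha' ha ha) ?_
  · obtain ⟨y, h1⟩ := h1
    exact ⟨y, ga_app (hN (imp (.mv 0) (.mv 1)) (by simp) v l _) h1⟩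
  · intro ψ hψ
    simp only [List.mem_cons, List.not_mem_nil, or_false] at hψ
    rcases hψ with rfl
    exact h

theorem Kr.gi_al (ha : M.gm a) (ha' : M.gm a') (h : M.Pv (M.im a a')) :
    M.Pv (M.im (M.alc a) (M.alc a')) := by
  refine Kr.rule (U := ℕ) [imp (.mv 0) (.mv 1)] (imp (all (.mv 0)) (all (.mv 1)))
    (fun N w hN d v l h1 u m y => ?_) (ρ := fun _ => M.nd 0 M.zr M.zr)
    (τ := as4 a a' a a) (fun _ => M.gf_small (by norm_num)) (as4_gm ha ha' ha ha) ?_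
  · exact ga_app (hN (imp (.mv 0) (.mv 1)) (by simp) u (l.trans m) _) (h1 u m y)
  · intro ψ hψ
    simp only [List.mem_cons, List.not_mem_nil, or_false] at hψ
    rcases hψ with rfl
    exact h

theorem Kr.gi_sb {f : M.D w} (ha : M.gm a) (ha' : M.gm a') (hf : M.gf f) (h : M.Pv (M.im a a')) :
    M.Pv (M.im (M.sbc a f) (M.sbc a' f)) := by
  refine Kr.rule (U := ℕ) [imp (.mv 0) (.mv 1)] (imp (sub (.mv 0) (.mv 0)) (sub (.mv 1) (.mv 0)))
    (fun N w hN d v l h1 => ?_) (ρ := fun _ => f)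
    (τ := as4 a a' a a) (fun _ => hf) (as4_gm ha ha' ha ha) ?_
  · exact ga_app (x := N.fn (.mv 0) (N.tr l d)) (P := .mv 0) (Q := .mv 1)
      (hN (imp (.mv 0) (.mv 1)) (by simp) v l _) h1
  · intro ψ hψ
    simp only [List.mem_cons, List.not_mem_nil, or_false] at hψ
    rcases hψ with rfl
    exact h

/-! ### The translation of axioms -/

/-- Values of the function metavariables. -/
def Kr.gaE (M : Kr V) {w : M.W} (ρ : ℕ → M.D w) : GaV → M.D w :=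
  Sum.elim (fun _ => M.nd 0 M.zr M.zr) ρ

/-- Values of the formula metavariables. -/
def Kr.gaG (M : Kr V) (tF BF RF : Fn V) {w : M.W} (e : M.D w) (ρ τ : ℕ → M.D w) : GaV → M.D w :=
  Sum.elim (fun p => if p.2 = 0 then M.fn tF (M.pr e (M.icm ρ τ p.1)) else
    if p.2 = 1 then M.fn BF (M.pr e (M.icm ρ τ p.1)) else M.fn RF e) (fun _ => M.btc)

theorem Kr.gaE_gf {ρ : ℕ → M.D w} (hρ : ∀ i, M.gf (ρ i)) : ∀ i, M.gf (M.gaE ρ i)
  | Sum.inl _ => M.gf_small (by norm_num)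
  | Sum.inr i => hρ i

theorem Kr.icf_gaf {ρ : ℕ → M.D w} (f : Fn ℕ) : M.icf (M.gaE ρ) (gaf f) = M.icf ρ f := by
  rw [gaf, Kr.icf_ms]
  rfl

variable {tF BF RF : Fn V} {Sm : Fm V} {e : M.D w} {ρ τ : ℕ → M.D w}

theorem TrH.gaG_gm (H : TrH M tF BF RF Sm e) (hρ : ∀ i, M.gf (ρ i)) (hτ : ∀ i, M.gm (τ i)) :
    ∀ i, M.gm (M.gaG tF BF RF e ρ τ i)
  | Sum.inl p => by
    have h := M.gm_icm hρ hτ p.1
    show M.gm (if p.2 = 0 then M.fn tF (M.pr e (M.icm ρ τ p.1)) else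
      if p.2 = 1 then M.fn BF (M.pr e (M.icm ρ τ p.1)) else M.fn RF e)
    split_ifs
    · exact H.gT _ h
    · exact H.gB _ h
    · exact H.gR
  | Sum.inr i => Kr.gm_btc

/-- The translation of an instance of a scheme. -/
theorem TrH.equ (H : TrH M tF BF RF Sm e) (hρ : ∀ i, M.gf (ρ i)) (hτ : ∀ i, M.gm (τ i)) :
    ∀ P : Fm ℕ,
      M.Pv (M.im (M.fn tF (M.pr e (M.icm ρ τ P))) (M.icm (M.gaE ρ) (M.gaG tF BF RF e ρ τ) (gaT P))) ∧
      M.Pv (M.im (M.icm (M.gaE ρ) (M.gaG tF BF RF e ρ τ) (gaT P)) (M.fn tF (M.pr e (M.icm ρ τ P)))) := by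
  have g1 : ∀ P, M.gm (M.icm ρ τ P) := M.gm_icm hρ hτ
  have g2 : ∀ P, M.gm (M.fn tF (M.pr e (M.icm ρ τ P))) := fun P => H.gT _ (g1 P)
  have g3 : ∀ P, M.gm (M.icm (M.gaE ρ) (M.gaG tF BF RF e ρ τ) P) :=
    M.gm_icm (Kr.gaE_gf hρ) (H.gaG_gm hρ hτ)
  have gB : ∀ P, M.gm (M.fn BF (M.pr e (M.icm ρ τ P))) := fun P => H.gB _ (g1 P)
  intro P
  induction P with
  | mv i => exact ⟨Kr.gi_refl (g2 _), Kr.gi_refl (g2 _)⟩
  | eq f g =>
    have h1 := H.T_eq1 _ _ (M.gf_icf hρ f) (M.gf_icf hρ g)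
    have h2 := H.T_eq2 _ _ (M.gf_icf hρ f) (M.gf_icf hρ g)
    have h3 : M.icm (M.gaE ρ) (M.gaG tF BF RF e ρ τ) (gaT (eq f g)) =
        M.dj (M.eqc (M.icf ρ f) (M.icf ρ g)) (M.fn RF e) := by
      show M.dj (M.eqc (M.icf (M.gaE ρ) (gaf f)) (M.icf (M.gaE ρ) (gaf g))) _ = _
      rw [Kr.icf_gaf, Kr.icf_gaf]
      rfl
    rw [h3]
    exact ⟨h1, h2⟩
  | bot =>
    have h3 : M.icm (M.gaE ρ) (M.gaG tF BF RF e ρ τ) (gaT bot) = M.fn RF e := rfl
    have h4 : M.fn tF (M.pr e (M.icm ρ τ bot)) = M.fn RF e := H.T_bt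
    rw [h3, h4]
    exact ⟨Kr.gi_refl H.gR, Kr.gi_refl H.gR⟩
  | conj P Q hP hQ =>
    have h4 : M.fn tF (M.pr e (M.icm ρ τ (conj P Q))) = _ := H.T_cj _ _
    rw [h4]
    exact ⟨Kr.gi_cj (g2 _) (g2 _) (g3 _) (g3 _) hP.1 hQ.1,
      Kr.gi_cj (g3 _) (g3 _) (g2 _) (g2 _) hP.2 hQ.2⟩
  | disj P Q hP hQ =>
    have h4 : M.fn tF (M.pr e (M.icm ρ τ (disj P Q))) = _ := H.T_dj _ _
    rw [h4]
    exact ⟨Kr.gi_dj (g2 _) (g2 _) (g3 _) (g3 _) hP.1 hQ.1,
      Kr.gi_dj (g3 _) (g3 _) (g2 _) (g2 _) hP.2 hQ.2⟩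
  | imp P Q hP hQ =>
    have h1 := H.T_im1 _ _ (g1 P) (g1 Q)
    have h2 := H.T_im2 _ _ (g1 P) (g1 Q)
    have k1 := Kr.gi_im (g2 _) (g2 _) (g3 _) (g3 _) hP.2 hQ.1
    have k2 := Kr.gi_im (g3 _) (g3 _) (g2 _) (g2 _) hP.1 hQ.2
    have m1 := Kr.gm_im.2 ⟨g2 P, g2 Q⟩
    have m2 := Kr.gm_im.2 ⟨g3 (gaT P), g3 (gaT Q)⟩
    have r := Kr.gi_refl (gB (imp P Q))
    exact ⟨Kr.gi_trans (g2 (imp P Q)) (Kr.gm_cj.2 ⟨m1, gB (imp P Q)⟩) (Kr.gm_cj.2 ⟨m2, gB (imp P Q)⟩) h1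
      (Kr.gi_cj m1 (gB (imp P Q)) m2 (gB (imp P Q)) k1 r),
      Kr.gi_trans (Kr.gm_cj.2 ⟨m2, gB (imp P Q)⟩) (Kr.gm_cj.2 ⟨m1, gB (imp P Q)⟩) (g2 (imp P Q))
      (Kr.gi_cj m2 (gB (imp P Q)) m1 (gB (imp P Q)) k2 r) h2⟩
  | ex P hP =>
    have h4 : M.fn tF (M.pr e (M.icm ρ τ (ex P))) = _ := H.T_ex _
    rw [h4]
    exact ⟨Kr.gi_ex (g2 _) (g3 _) hP.1, Kr.gi_ex (g3 _) (g2 _) hP.2⟩
  | all P hP =>
    have h1 := H.T_al1 _ (g1 P)
    have h2 := H.T_al2 _ (g1 P)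
    have k1 := Kr.gi_al (g2 _) (g3 _) hP.1
    have k2 := Kr.gi_al (g3 _) (g2 _) hP.2
    have m1 := Kr.gm_alc.2 (g2 P)
    have m2 := Kr.gm_alc.2 (g3 (gaT P))
    have r := Kr.gi_refl (gB (all P))
    exact ⟨Kr.gi_trans (g2 (all P)) (Kr.gm_cj.2 ⟨m1, gB (all P)⟩) (Kr.gm_cj.2 ⟨m2, gB (all P)⟩) h1
      (Kr.gi_cj m1 (gB (all P)) m2 (gB (all P)) k1 r),
      Kr.gi_trans (Kr.gm_cj.2 ⟨m2, gB (all P)⟩) (Kr.gm_cj.2 ⟨m1, gB (all P)⟩) (g2 (all P))
      (Kr.gi_cj m2 (gB (all P)) m1 (gB (all P)) k2 r) h2⟩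
  | sub P f hP =>
    have h4 : M.fn tF (M.pr e (M.icm ρ τ (sub P f))) = _ := H.T_sb _ _
    have h5 : M.icm (M.gaE ρ) (M.gaG tF BF RF e ρ τ) (gaT (sub P f)) =
        M.sbc (M.icm (M.gaE ρ) (M.gaG tF BF RF e ρ τ) (gaT P)) (M.icf ρ f) := by
      show M.sbc _ (M.icf (M.gaE ρ) (gaf f)) = _
      rw [Kr.icf_gaf]
    rw [h4, h5]
    exact ⟨Kr.gi_sb (g2 _) (g3 _) (M.gf_icf hρ f) hP.1, Kr.gi_sb (g3 _) (g2 _) (M.gf_icf hρ f) hP.2⟩

/-- Subformulas of small formulas are small. -/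
theorem TrH.small (H : TrH M tF BF RF Sm e) : ∀ P : Fm ℕ, M.F Sm (M.pr e (M.icm ρ τ P)) →
    ∀ Q ∈ gaS P, M.F Sm (M.pr e (M.icm ρ τ Q)) := by
  intro P
  induction P with
  | mv i => intro h Q hQ; simp [gaS] at hQ; subst hQ; exact h
  | eq f g => intro h Q hQ; simp [gaS] at hQ; subst hQ; exact h
  | bot => intro h Q hQ; simp [gaS] at hQ; subst hQ; exact h
  | conj A B hA hB =>
    intro h Q hQ
    have h1 := H.sm2 2 _ _ (by norm_num) (by norm_num) h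
    simp only [gaS, List.mem_cons, List.mem_append] at hQ
    rcases hQ with rfl | hQ | hQ
    · exact h
    · exact hA h1.1 Q hQ
    · exact hB h1.2 Q hQ
  | disj A B hA hB =>
    intro h Q hQ
    have h1 := H.sm2 3 _ _ (by norm_num) (by norm_num) h
    simp only [gaS, List.mem_cons, List.mem_append] at hQ
    rcases hQ with rfl | hQ | hQ
    · exact h
    · exact hA h1.1 Q hQ
    · exact hB h1.2 Q hQ
  | imp A B hA hB =>
    intro h Q hQ
    have h1 := H.sm2 4 _ _ (by norm_num) (by norm_num) h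
    simp only [gaS, List.mem_cons, List.mem_append] at hQ
    rcases hQ with rfl | hQ | hQ
    · exact h
    · exact hA h1.1 Q hQ
    · exact hB h1.2 Q hQ
  | ex A hA =>
    intro h Q hQ
    have h1 := H.sm1 5 _ _ (by norm_num) (by norm_num) h
    simp only [gaS, List.mem_cons] at hQ
    rcases hQ with rfl | hQ
    · exact h
    · exact hA h1 Q hQ
  | all A hA =>
    intro h Q hQ
    have h1 := H.sm1 6 _ _ (by norm_num) (by norm_num) h
    simp only [gaS, List.mem_cons] at hQ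
    rcases hQ with rfl | hQ
    · exact h
    · exact hA h1 Q hQ
  | sub A f hA =>
    intro h Q hQ
    have h1 := H.sm1 7 _ _ (by norm_num) (by norm_num) h
    simp only [gaS, List.mem_cons] at hQ
    rcases hQ with rfl | hQ
    · exact h
    · exact hA h1 Q hQ

/-- The facts about one subformula hold. -/
theorem TrH.facts (H : ∀ (v : M.W) (h : w ≤ v), TrH M tF BF RF Sm (M.tr h e))
    (hρ : ∀ i, M.gf (ρ i)) (hτ : ∀ i, M.gm (τ i)) (P : Fm ℕ)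
    (hs : M.F Sm (M.pr e (M.icm ρ τ P))) : ∀ ψ ∈ gaL P,
    M.Pv (M.icm (M.gaE ρ) (M.gaG tF BF RF e ρ τ) ψ) := by
  have H0 : TrH M tF BF RF Sm e := by
    have := H w (le_refl w)
    rwa [M.tr_refl] at this
  have g1 : ∀ P, M.gm (M.icm ρ τ P) := M.gm_icm hρ hτ
  have g2 : ∀ P, M.gm (M.fn tF (M.pr e (M.icm ρ τ P))) := fun P => H0.gT _ (g1 P)
  have g3 : ∀ P, M.gm (M.icm (M.gaE ρ) (M.gaG tF BF RF e ρ τ) P) :=
    M.gm_icm (Kr.gaE_gf hρ) (H0.gaG_gm hρ hτ)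
  have gB : ∀ P, M.gm (M.fn BF (M.pr e (M.icm ρ τ P))) := fun P => H0.gB _ (g1 P)
  have p1 : M.Pv (M.icm (M.gaE ρ) (M.gaG tF BF RF e ρ τ) (imp (gaT P) (gaB P))) :=
    Kr.gi_trans (g3 (gaT P)) (g2 P) (gB P) (H0.equ hρ hτ P).2 (TrH.pers H (g1 P) hs)
  have p2 : M.Pv (M.icm (M.gaE ρ) (M.gaG tF BF RF e ρ τ) (imp gaR (gaT P))) :=
    Kr.gi_trans H0.gR (g2 P) (g3 (gaT P)) (TrH.RT H (g1 P)) (H0.equ hρ hτ P).1
  intro ψ hψ
  cases P with
  | imp P Q =>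
    simp only [gaL, List.mem_cons, List.not_mem_nil, or_false] at hψ
    rcases hψ with rfl | rfl | rfl
    · exact p1
    · exact p2
    · exact H0.B_mp _ _ (g1 P) (g1 Q) hs
  | sub P f =>
    simp only [gaL, List.mem_cons, List.not_mem_nil, or_false] at hψ
    rcases hψ with rfl | rfl | rfl | rfl | rfl
    · exact p1
    · exact p2
    · have h1 := H0.B_sb2 _ _ (g1 P) (M.gf_icf hρ f) hs
      rw [← Kr.icf_gaf (ρ := ρ) f] at h1
      have h2 : M.icm ρ τ (sub P f) = M.sbc (M.icm ρ τ P) (M.icf (M.gaE ρ) (gaf f)) := by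
        rw [Kr.icf_gaf]
        rfl
      rw [← h2] at h1
      exact h1
    · have h1 := H0.Rs1 _ (M.gf_icf hρ f)
      rw [← Kr.icf_gaf (ρ := ρ) f] at h1
      exact h1
    · have h1 := H0.Rs2 _ (M.gf_icf hρ f)
      rw [← Kr.icf_gaf (ρ := ρ) f] at h1
      exact h1
  | _ =>
    simp only [gaL, List.mem_cons, List.not_mem_nil, or_false] at hψ
    rcases hψ with rfl | rfl
    · exact p1
    · exact p2

/-- Translations of axioms, under the side formula. -/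
theorem TrH.axm (H : ∀ (v : M.W) (h : w ≤ v), TrH M tF BF RF Sm (M.tr h e)) {c : M.D w}
    (hc : M.IsAx c) (hs : M.F Sm (M.pr e c)) :
    M.Pv (M.im (M.fn BF (M.pr e c)) (M.fn tF (M.pr e c))) := by
  have H0 : TrH M tF BF RF Sm e := by
    have := H w (le_refl w)
    rwa [M.tr_refl] at this
  obtain ⟨k, hk, ρ, τ, hρ, hτ, rfl⟩ := hc
  have g1 : ∀ P, M.gm (M.icm ρ τ P) := M.gm_icm hρ hτ
  have hax : Ax (axs[k]'hk) := by
    have := axs_ax k hk (fun i => (.mv i : Fn ℕ)) (fun i => (.mv i : Fm ℕ))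
    rwa [Fm.ms_mv] at this
  generalize axs[k]'hk = P at hax hs
  have := gaV_countable
  have h1 : M.Pv (M.icm (M.gaE ρ) (M.gaG tF BF RF e ρ τ) (imp (gaB P) (gaT P))) := by
    refine Kr.rule _ _ (ga_sem hax) (Kr.gaE_gf hρ) (H0.gaG_gm hρ hτ) (fun ψ hψ => ?_)
    obtain ⟨Q, hQ, hψ⟩ := List.mem_flatMap.1 hψ
    exact TrH.facts H hρ hτ Q (H0.small P hs Q hQ) ψ hψ
  exact Kr.gi_trans (H0.gB _ (g1 P)) (M.gm_icm (Kr.gaE_gf hρ) (H0.gaG_gm hρ hτ) _)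
    (H0.gT _ (g1 P)) h1 (H0.equ hρ hτ P).2

end HAr
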