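import Pool.Agent.Lib.MP_61e577_lc.Ar.GTa

/-! The general translation theorem. -/

namespace HAr

open Fn Fm

variable {V : Type} {M : Kr V} {w : M.W} {tF BF RF : Fn V} {Sm : Fm V} {e : M.D w}

/-- Assignments given by the first seven values. -/
private def gtm_as {X : Type} (a b c d f g h : X) : ℕ → X
  | 0 => a
  | 1 => b
  | 2 => c
  | 3 => d
  | 4 => f
  | 5 => g
  | _ => h

private theorem gtm_gm {a b c d f g h : M.D w} (ha : M.gm a) (hb : M.gm b) (hc : M.gm c)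
    (hd : M.gm d) (hf : M.gm f) (hg : M.gm g) (hh : M.gm h) :
    ∀ i, M.gm (gtm_as a b c d f g h i)
  | 0 => ha
  | 1 => hb
  | 2 => hc
  | 3 => hd
  | 4 => hf
  | 5 => hg
  | _ + 6 => hh

private theorem gtm_rule {a b c d f g h : M.D w} (l : List (Fm ℕ)) (φ : Fm ℕ) (hs : Sem l φ)
    (ha : M.gm a) (hb : M.gm b) (hc : M.gm c)
    (hd : M.gm d) (hf : M.gm f) (hg : M.gm g) (hh : M.gm h)
    (H : ∀ ψ ∈ l, M.Pv (M.icm (fun _ => M.nd 0 M.zr M.zr) (gtm_as a b c d f g h) ψ)) :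
    M.Pv (M.icm (fun _ => M.nd 0 M.zr M.zr) (gtm_as a b c d f g h) φ) :=
  Kr.rule l φ hs (fun _ => Kr.gf_nd0) (gtm_gm ha hb hc hd hf hg hh) H

private theorem gtm_andL {a b : M.D w} (ha : M.gm a) (hb : M.gm b) (h : M.Pv (M.cj a b)) :
    M.Pv a :=
  gtm_rule (a := a) (b := b) (c := a) (d := a) (f := a) (g := a) (h := a)
    [conj (.mv 0) (.mv 1)] (.mv 0)
    (fun N w hN d => (hN (conj (.mv 0) (.mv 1)) (by simp) w (le_refl w) d).1) ha hb ha ha ha ha ha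
    (fun ψ hψ => by
      rcases List.mem_singleton.1 hψ with rfl
      exact h)

private theorem gtm_imp {x y z : M.D w} (hx : M.gm x) (hy : M.gm y) (hz : M.gm z)
    (h1 : M.Pv x) (h2 : M.Pv (M.im (M.cj x y) z)) : M.Pv (M.im y z) :=
  gtm_rule (a := x) (b := y) (c := z) (d := x) (f := x) (g := x) (h := x)
    [.mv 0, imp (conj (.mv 0) (.mv 1)) (.mv 2)] (imp (.mv 1) (.mv 2))
    (fun N w hN d v k h3 => by
      have a1 := hN _ (List.mem_cons_self ..) v k (N.tr k d)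
      have a2 := hN (imp (conj (.mv 0) (.mv 1)) (.mv 2)) (by simp) v k (N.tr k d) v (le_refl v)
      rw [N.tr_refl] at a2
      exact a2 ⟨a1, h3⟩) hx hy hz hx hx hx hx
    (fun ψ hψ => by
      simp only [List.mem_cons, List.not_mem_nil, or_false] at hψ
      rcases hψ with rfl | rfl
      · exact h1
      · exact h2)

private theorem gtm_all {ta at' ba bi bA tA ti : M.D w} (h1 : M.gm ta) (h2 : M.gm at')
    (h3 : M.gm ba) (h4 : M.gm bi) (h5 : M.gm bA) (h6 : M.gm tA) (h7 : M.gm ti)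
    (k1 : M.Pv (M.im ta at')) (k2 : M.Pv (M.im ta ba)) (k3 : M.Pv (M.im bi (M.im ba bA)))
    (k4 : M.Pv (M.im (M.cj at' bA) tA)) (k5 : M.Pv (M.im (M.cj (M.im ta tA) bi) ti)) :
    M.Pv (M.im bi ti) :=
  gtm_rule (a := ta) (b := at') (c := ba) (d := bi) (f := bA) (g := tA) (h := ti)
    [imp (.mv 0) (.mv 1), imp (.mv 0) (.mv 2), imp (.mv 3) (imp (.mv 2) (.mv 4)),
      imp (conj (.mv 1) (.mv 4)) (.mv 5), imp (conj (imp (.mv 0) (.mv 5)) (.mv 3)) (.mv 6)]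
    (imp (.mv 3) (.mv 6))
    (fun N w hN d v k h3 => by
      have a5 := hN (imp (conj (imp (.mv 0) (.mv 5)) (.mv 3)) (.mv 6)) (by simp) v k
        (N.tr k d) v (le_refl v)
      rw [N.tr_refl] at a5
      refine a5 ⟨fun u l h0 => ?_, h3⟩
      have a1 := hN (imp (.mv 0) (.mv 1)) (by simp) u (k.trans l) (N.tr l (N.tr k d)) u
        (le_refl u)
      have a2 := hN (imp (.mv 0) (.mv 2)) (by simp) u (k.trans l) (N.tr l (N.tr k d)) u
        (le_refl u)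
      have a3 := hN (imp (.mv 3) (imp (.mv 2) (.mv 4))) (by simp) u (k.trans l)
        (N.tr l (N.tr k d)) u (le_refl u)
      have a4 := hN (imp (conj (.mv 1) (.mv 4)) (.mv 5)) (by simp) u (k.trans l)
        (N.tr l (N.tr k d)) u (le_refl u)
      rw [N.tr_refl] at a1 a2 a3 a4
      have a6 := a3 (N.mono _ l _ h3) u (le_refl u)
      rw [N.tr_refl] at a6
      exact a4 ⟨a1 h0, a6 (a2 h0)⟩) h1 h2 h3 h4 h5 h6 h7
    (fun ψ hψ => by
      simp only [List.mem_cons, List.not_mem_nil, or_false] at hψ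
      rcases hψ with rfl | rfl | rfl | rfl | rfl
      · exact k1
      · exact k2
      · exact k3
      · exact k4
      · exact k5)

private theorem gtm_H0 (H : ∀ (v : M.W) (h : w ≤ v), TrH M tF BF RF Sm (M.tr h e)) :
    TrH M tF BF RF Sm e := by
  have := H w (le_refl w)
  rwa [M.tr_refl] at this

private theorem gtm_H1 (H : ∀ (v : M.W) (h : w ≤ v), TrH M tF BF RF Sm (M.tr h e)) {v : M.W}
    (h : w ≤ v) : ∀ (u : M.W) (k : v ≤ u), TrH M tF BF RF Sm (M.tr k (M.tr h e)) := by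
  intro u k
  rw [M.tr_tr]
  exact H u _

theorem TrH.mp (H : ∀ (v : M.W) (h : w ≤ v), TrH M tF BF RF Sm (M.tr h e)) {a b : M.D w}
    (ha : M.gm a) (hb : M.gm b) (h1 : M.Pv (M.fn tF (M.pr e (M.im a b))))
    (h2 : M.Pv (M.fn tF (M.pr e a))) : M.Pv (M.fn tF (M.pr e b)) := by
  have H0 := gtm_H0 H
  have h3 := gtm_andL (Kr.gm_im.2 ⟨H0.gT a ha, H0.gT b hb⟩) (H0.gB _ (Kr.gm_im.2 ⟨ha, hb⟩))
    (Kr.Pv_mp (H0.T_im1 a b ha hb) h1)
  exact Kr.Pv_mp h3 h2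

theorem TrH.sb (H : ∀ (v : M.W) (h : w ≤ v), TrH M tF BF RF Sm (M.tr h e)) {a f : M.D w}
    (ha : M.gm a) (hf : M.gf f) (h1 : M.Pv (M.fn tF (M.pr e a))) :
    M.Pv (M.fn tF (M.pr e (M.sbc a f))) := by
  rw [(gtm_H0 H).T_sb]
  exact Kr.Pv_sb h1 hf

theorem TrH.exE (H : ∀ (v : M.W) (h : w ≤ v), TrH M tF BF RF Sm (M.tr h e)) {a b : M.D w}
    (ha : M.gm a) (hb : M.gm b) (hs : M.F Sm (M.pr e (M.im (M.exc a) b)))
    (h1 : M.Pv (M.fn tF (M.pr e (M.im a (M.sbc b M.lc))))) :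
    M.Pv (M.im (M.fn BF (M.pr e (M.im (M.exc a) b))) (M.fn tF (M.pr e (M.im (M.exc a) b)))) := by
  have H0 := gtm_H0 H
  have hb' : M.gm (M.sbc b M.lc) := Kr.gm_sbc.2 ⟨hb, Kr.gf_nd3⟩
  have hea : M.gm (M.exc a) := Kr.gm_exc.2 ha
  have h3 := gtm_andL (Kr.gm_im.2 ⟨H0.gT a ha, H0.gT _ hb'⟩) (H0.gB _ (Kr.gm_im.2 ⟨ha, hb'⟩))
    (Kr.Pv_mp (H0.T_im1 a _ ha hb') h1)
  rw [H0.T_sb] at h3
  have h4 := Kr.Pv_exE h3
  rw [← H0.T_ex] at h4
  exact gtm_imp (Kr.gm_im.2 ⟨H0.gT _ hea, H0.gT _ hb⟩) (H0.gB _ (Kr.gm_im.2 ⟨hea, hb⟩))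
    (H0.gT _ (Kr.gm_im.2 ⟨hea, hb⟩)) h4 (H0.T_im2 _ _ hea hb)

theorem TrH.allI (H : ∀ (v : M.W) (h : w ≤ v), TrH M tF BF RF Sm (M.tr h e)) {a b : M.D w}
    (ha : M.gm a) (hb : M.gm b) (hs : M.F Sm (M.pr e (M.im a (M.alc b))))
    (h1 : M.Pv (M.fn tF (M.pr e (M.im (M.sbc a M.lc) b)))) :
    M.Pv (M.im (M.fn BF (M.pr e (M.im a (M.alc b)))) (M.fn tF (M.pr e (M.im a (M.alc b))))) := by
  have H0 := gtm_H0 H
  have ha' : M.gm (M.sbc a M.lc) := Kr.gm_sbc.2 ⟨ha, Kr.gf_nd3⟩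
  have hab : M.gm (M.alc b) := Kr.gm_alc.2 hb
  have h3 := gtm_andL (Kr.gm_im.2 ⟨H0.gT _ ha', H0.gT _ hb⟩) (H0.gB _ (Kr.gm_im.2 ⟨ha', hb⟩))
    (Kr.Pv_mp (H0.T_im1 _ _ ha' hb) h1)
  rw [H0.T_sb] at h3
  have h4 := Kr.Pv_allI h3
  have hsa := (H0.sm2 4 a (M.alc b) (by norm_num) (by norm_num) hs).1
  exact gtm_all (H0.gT a ha) (Kr.gm_alc.2 (H0.gT b hb)) (H0.gB a ha)
    (H0.gB _ (Kr.gm_im.2 ⟨ha, hab⟩)) (H0.gB _ hab) (H0.gT _ hab)
    (H0.gT _ (Kr.gm_im.2 ⟨ha, hab⟩)) h4 (TrH.pers H ha hsa) (H0.B_mp a _ ha hab hs)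
    (H0.T_al2 b hb) (H0.T_im2 a _ ha hab)

private theorem gtm_F {G : Fm V} {p : M.D w} :
    M.F (imp G (prT (comp tF (pair left (comp conclF right))))) (M.pr e p) ↔
    ∀ (v : M.W) (h : w ≤ v), M.F G (M.pr (M.tr h e) (M.tr h p)) →
      M.Pv (M.fn tF (M.pr (M.tr h e) (M.cc (M.tr h p)))) := by
  rw [Kr.F_imp]
  refine forall_congr' fun v => forall_congr' fun h => ?_
  rw [Kr.F_prT, M.tr_pr, M.fn_comp, M.fn_pair, M.fn_comp, M.left_pr, M.right_pr, Kr.fn_conclF]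

/-- The general translation theorem. -/
theorem TrH.main (H : ∀ (v : M.W) (h : w ≤ v), TrH M tF BF RF Sm (M.tr h e)) (G : Fm V)
    (hG : ∀ (v : M.W) (h : w ≤ v) (t m : M.D v), M.F G (M.pr (M.tr h e) (M.cs t m)) →
      M.F G (M.pr (M.tr h e) (M.hd m)) ∧ M.F G (M.pr (M.tr h e) (M.tl m)))
    (hS : ∀ (v : M.W) (h : w ≤ v) (p : M.D v), M.F G (M.pr (M.tr h e) p) →
      M.F Sm (M.pr (M.tr h e) (M.cc p)) ∧
      (M.Pv (M.im (M.fn BF (M.pr (M.tr h e) (M.cc p))) (M.fn tF (M.pr (M.tr h e) (M.cc p)))) →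
        M.Pv (M.fn tF (M.pr (M.tr h e) (M.cc p))))) {p : M.D w} (hp : M.F G (M.pr e p)) :
    M.Pv (M.fn tF (M.pr e (M.cc p))) := by
  have key := M.cc_ind (imp G (prT (comp tF (pair left (comp conclF right))))) e
    (by
      intro v h p hax
      rw [gtm_F]
      intro u k h1
      rw [M.tr_tr] at h1 ⊢
      obtain ⟨h2, h3⟩ := hS u _ _ h1
      refine h3 ?_
      have h4 : M.IsAx (M.cc (M.tr k p)) := by
        obtain ⟨j, hj, ρ, τ, hρ, hτ, h4⟩ := hax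
        refine ⟨j, hj, fun i => M.tr k (ρ i), fun i => M.tr k (τ i), fun i => ?_, fun i => ?_, ?_⟩
        · exact Kr.gf_mono k (hρ i)
        · exact Kr.gm_mono k (hτ i)
        · rw [← Kr.tr_cc, h4, Kr.tr_icm]
      exact TrH.axm (gtm_H1 H (h.trans k)) h4 h2)
    (by
      intro v h t m h1 h2 h3
      rw [gtm_F] at h1 h2 ⊢
      intro u k h4
      have h1 := h1 u k
      have h2 := h2 u k
      have e0 : M.tr k (M.cs t m) = M.cs (M.tr k t) (M.tr k m) := by simp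
      have ehd : M.tr k (M.hd m) = M.hd (M.tr k m) := by simp
      have etl : M.tr k (M.tl m) = M.tl (M.tr k m) := by simp
      rw [M.tr_tr, ehd] at h1
      rw [M.tr_tr, etl] at h2
      rw [M.tr_tr] at h4 ⊢
      rw [e0] at h4
      obtain ⟨g1, g2⟩ := hG u _ _ _ h4
      have h1 := h1 g1
      have h2 := h2 g2
      obtain ⟨h5, h6⟩ := hS u _ _ h4
      rw [← e0] at h5 h6
      have H1 := gtm_H1 H (h.trans k)
      have c1 : M.cc (M.hd (M.tr k m)) = M.tr k (M.cc (M.hd m)) := by simp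
      have c2 : M.cc (M.tl (M.tr k m)) = M.tr k (M.cc (M.tl m)) := by simp
      have c3 : M.cc (M.tr k (M.cs t m)) = M.tr k (M.cc (M.cs t m)) := (Kr.tr_cc k _).symm
      have g3 := M.gm_cc (M.hd (M.tr k m))
      have g4 := M.gm_cc (M.tl (M.tr k m))
      have g5 := M.gm_cc (M.tr k (M.cs t m))
      rw [c1] at h1 g3
      rw [c2] at h2 g4
      rw [c3] at h5 h6 g5 ⊢
      rcases h3 with h3 | ⟨f, hf, h3⟩ | ⟨a, b, h3, h7⟩ | ⟨a, b, h3, h7⟩
      · rw [h3] at h1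
        have e1 : M.tr k (M.im (M.cc (M.tl m)) (M.cc (M.cs t m))) =
            M.im (M.tr k (M.cc (M.tl m))) (M.tr k (M.cc (M.cs t m))) := Kr.tr_nd k _ _ _
        rw [e1] at h1
        exact TrH.mp H1 g4 g5 h1 h2
      · rw [h3]
        have e1 : M.tr k (M.sbc (M.cc (M.hd m)) f) =
            M.sbc (M.tr k (M.cc (M.hd m))) (M.tr k f) := Kr.tr_nd k _ _ _
        rw [e1]
        exact TrH.sb H1 g3 (Kr.gf_mono k hf) h1
      · have e1 : M.tr k (M.im a (M.sbc b M.lc)) =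
            M.im (M.tr k a) (M.sbc (M.tr k b) M.lc) := by simp
        have e2 : M.tr k (M.im (M.exc a) b) = M.im (M.exc (M.tr k a)) (M.tr k b) := by simp
        rw [h3, e1] at h1 g3
        rw [h7, e2] at h5 h6 g5 ⊢
        refine h6 (TrH.exE H1 (Kr.gm_im.1 g3).1 (Kr.gm_im.1 g5).2 h5 h1)
      · have e1 : M.tr k (M.im (M.sbc a M.lc) b) =
            M.im (M.sbc (M.tr k a) M.lc) (M.tr k b) := by simp
        have e2 : M.tr k (M.im a (M.alc b)) = M.im (M.tr k a) (M.alc (M.tr k b)) := by simp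
        rw [h3, e1] at h1 g3
        rw [h7, e2] at h5 h6 g5 ⊢
        refine h6 (TrH.allI H1 (Kr.gm_im.1 g5).1 (Kr.gm_im.1 g3).2 h5 h1)) p
  rw [gtm_F] at key
  have key := key w (le_refl w)
  rw [M.tr_refl, M.tr_refl] at key
  exact key hp

end HAr
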