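import Pool.Agent.Lib.MP_61e577_lc.Ar.Kripke

/-! Derived rules of the one-variable calculus, provable equality of functions as a monoid, the
entries of the sequence coded by the variable, freshness. -/

namespace HAr

open Fn Fm

variable {V : Type}

/-! ### Propositional rules -/

/-- `P` provably implies `Q`. -/
def Le (P Q : Fm V) : Prop := Prv (imp P Q)

theorem Le.refl (P : Fm V) : Le P P :=
  Prv.mp (Prv.mp (Prv.ax (Ax.s P (imp P P) P)) (Prv.ax (Ax.k _ _))) (Prv.ax (Ax.k _ _))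

theorem Le.pure {P Q : Fm V} (h : Prv Q) : Le P Q := Prv.mp (Prv.ax (Ax.k _ _)) h

theorem Le.ap {P Q R : Fm V} (h1 : Le P (imp Q R)) (h2 : Le P Q) : Le P R :=
  Prv.mp (Prv.mp (Prv.ax (Ax.s _ _ _)) h1) h2

theorem Le.trans {P Q R : Fm V} (h1 : Le P Q) (h2 : Le Q R) : Le P R := (Le.pure h2).ap h1

theorem Le.mp {P Q : Fm V} (h1 : Le P Q) (h2 : Prv P) : Prv Q := Prv.mp h1 h2

theorem Le.fst {P Q : Fm V} : Le (conj P Q) P := Prv.ax (Ax.andL _ _)

theorem Le.snd {P Q : Fm V} : Le (conj P Q) Q := Prv.ax (Ax.andR _ _)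

theorem Le.conj {P Q R : Fm V} (h1 : Le R P) (h2 : Le R Q) : Le R (conj P Q) :=
  (h1.trans (Prv.ax (Ax.andI _ _))).ap h2

theorem Le.conj_mono {P P' Q Q' : Fm V} (h1 : Le P P') (h2 : Le Q Q') :
    Le (Fm.conj P Q) (Fm.conj P' Q') := (Le.fst.trans h1).conj (Le.snd.trans h2)

theorem Le.imp_right {P Q R : Fm V} (h : Le P Q) : Le (imp R P) (imp R Q) :=
  Prv.mp (Prv.ax (Ax.s _ _ _)) (Le.pure h)

theorem Le.curry {P Q R : Fm V} (h : Le (Fm.conj R P) Q) : Le R (imp P Q) :=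
  Le.trans (Prv.ax (Ax.andI _ _)) (Le.imp_right h)

theorem Le.uncurry {P Q R : Fm V} (h : Le R (imp P Q)) : Le (Fm.conj R P) Q :=
  (Le.fst.trans h).ap Le.snd

theorem Le.imp_left {P Q R : Fm V} (h : Le P Q) : Le (imp Q R) (imp P R) :=
  Le.curry ((Le.fst (P := imp Q R) (Q := P)).ap (Le.snd.trans h))

theorem Le.swap {P Q R : Fm V} (h : Le P (imp Q R)) : Le Q (imp P R) :=
  Le.curry ((Le.snd.trans h).ap Le.fst)

theorem Le.inl {P Q : Fm V} : Le P (disj P Q) := Prv.ax (Ax.orL _ _)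

theorem Le.inr {P Q : Fm V} : Le Q (disj P Q) := Prv.ax (Ax.orR _ _)

theorem Le.elim {C P Q R : Fm V} (h : Le C (disj P Q)) (h1 : Le (Fm.conj C P) R)
    (h2 : Le (Fm.conj C Q) R) : Le C R :=
  (((Le.pure (Prv.ax (Ax.orE P Q R))).ap h1.curry).ap h2.curry).ap h

theorem Le.bot {P : Fm V} : Le bot P := Prv.ax (Ax.botE _)

/-! ### Substitution -/

theorem Le.sub {P Q : Fm V} (h : Le P Q) (f : Fn V) : Le (sub P f) (sub Q f) :=
  Prv.mp (Prv.ax (Ax.subImp _ _ _)) (Prv.sb f h)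

theorem sub_congr {f g : Fn V} (P : Fm V) (h : Prv (eq f g)) : Le (sub P f) (sub P g) :=
  Prv.mp (Prv.ax (Ax.leib _ _ _)) h

theorem eq_symm {f g : Fn V} (h : Prv (eq f g)) : Prv (eq g f) :=
  Prv.mp (Prv.ax (Ax.symm _ _)) h

theorem subSub_le (P : Fm V) (f g : Fn V) : Le (sub (sub P f) g) (sub P (comp f g)) :=
  Prv.ax (Ax.subSub _ _ _)

theorem subComp_le (P : Fm V) (f g : Fn V) : Le (sub P (comp f g)) (sub (sub P f) g) :=
  Prv.ax (Ax.subComp _ _ _)

theorem sub_conj (P Q : Fm V) (f : Fn V) :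
    Le (Fm.conj (sub P f) (sub Q f)) (sub (Fm.conj P Q) f) :=
  Le.uncurry ((Le.sub (Prv.ax (Ax.andI P Q)) f).trans (Prv.ax (Ax.subImp _ _ _)))

/-! ### Functions up to provable equality -/

theorem comp_congr {f f' g g' : Fn V} (h1 : Prv (eq f f')) (h2 : Prv (eq g g')) :
    Prv (eq (comp f g) (comp f' g')) :=
  Prv.mp (Prv.mp (Prv.ax (Ax.trans _ _ _)) (Prv.mp (Prv.ax (Ax.subEq _ _ _)) (Prv.sb g h1)))
    (Prv.mp (Prv.ax (Ax.congC _ _ _)) h2)

theorem pair_congr {f f' g g' : Fn V} (h1 : Prv (eq f f')) (h2 : Prv (eq g g')) :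
    Prv (eq (pair f g) (pair f' g')) :=
  Prv.mp (Prv.mp (Prv.ax (Ax.congP _ _ _ _)) h1) h2

/-- Provable equality. -/
def fnS (V : Type) : Setoid (Fn V) where
  r f g := Prv (eq f g)
  iseqv := ⟨fun f => Prv.ax (Ax.refl f), eq_symm,
    fun h1 h2 => Prv.mp (Prv.mp (Prv.ax (Ax.trans _ _ _)) h1) h2⟩

/-- Functions up to provable equality. -/
def Qn (V : Type) : Type := Quotient (fnS V)

/-- The class of a function. -/
def qn (f : Fn V) : Qn V := Quotient.mk (fnS V) f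

theorem qn_eq {f g : Fn V} : qn f = qn g ↔ Prv (eq f g) := Quotient.eq (r := fnS V)

theorem qn_surj (a : Qn V) : ∃ f, qn f = a := Quotient.exists_rep a

instance : Mul (Qn V) := ⟨Quotient.map₂ comp fun _ _ h1 _ _ h2 => comp_congr h1 h2⟩

instance : One (Qn V) := ⟨qn idn⟩

theorem qn_comp (f g : Fn V) : qn (comp f g) = qn f * qn g := rfl

theorem qn_idn : qn (idn : Fn V) = 1 := rfl

/-- Pairing of classes. -/
def Qn.pr : Qn V → Qn V → Qn V := Quotient.map₂ pair fun _ _ h1 _ _ h2 => pair_congr h1 h2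

theorem qn_pair (f g : Fn V) : qn (pair f g) = Qn.pr (qn f) (qn g) := rfl

instance : Monoid (Qn V) where
  mul_assoc a b c := by
    obtain ⟨a, rfl⟩ := qn_surj a
    obtain ⟨b, rfl⟩ := qn_surj b
    obtain ⟨c, rfl⟩ := qn_surj c
    exact qn_eq.2 (Prv.ax (Ax.compA _ _ _))
  one_mul a := by
    obtain ⟨a, rfl⟩ := qn_surj a
    exact qn_eq.2 (Prv.ax (Ax.idL _))
  mul_one a := by
    obtain ⟨a, rfl⟩ := qn_surj a
    exact qn_eq.2 (Prv.ax (Ax.idR _))

theorem qn_zero_mul (a : Qn V) : qn zero * a = qn zero := by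
  obtain ⟨a, rfl⟩ := qn_surj a
  exact qn_eq.2 (Prv.ax (Ax.zeroC _))

theorem qn_left_pr (a b : Qn V) : qn left * Qn.pr a b = a := by
  obtain ⟨a, rfl⟩ := qn_surj a
  obtain ⟨b, rfl⟩ := qn_surj b
  exact qn_eq.2 (Prv.ax (Ax.leftP _ _))

theorem qn_right_pr (a b : Qn V) : qn right * Qn.pr a b = b := by
  obtain ⟨a, rfl⟩ := qn_surj a
  obtain ⟨b, rfl⟩ := qn_surj b
  exact qn_eq.2 (Prv.ax (Ax.rightP _ _))

theorem qn_pr_mul (a b c : Qn V) : Qn.pr a b * c = Qn.pr (a * c) (b * c) := by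
  obtain ⟨a, rfl⟩ := qn_surj a
  obtain ⟨b, rfl⟩ := qn_surj b
  obtain ⟨c, rfl⟩ := qn_surj c
  exact qn_eq.2 (Prv.ax (Ax.pairC _ _ _))

theorem qn_eta : Qn.pr (qn left) (qn right) = (1 : Qn V) := qn_eq.2 (Prv.ax Ax.pairE)

theorem qn_eta' (a : Qn V) : Qn.pr (qn left * a) (qn right * a) = a := by
  rw [← qn_pr_mul, qn_eta, one_mul]

theorem qn_p00 : Qn.pr (qn zero) (qn zero) = (qn zero : Qn V) := qn_eq.2 (Prv.ax Ax.p00)

theorem qn_pS (a b : Qn V) : qn succ * Qn.pr a (qn succ * b) = Qn.pr (qn succ * a) b := by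
  have h : qn succ * Qn.pr (qn left) (qn succ * qn right) =
    (Qn.pr (qn succ * qn left) (qn right) : Qn V) := qn_eq.2 (Prv.ax Ax.pS)
  have := congrArg (fun t => t * Qn.pr a b) h
  simpa only [mul_assoc, qn_pr_mul, qn_left_pr, qn_right_pr] using this

theorem qn_p0 (a : Qn V) : qn succ * Qn.pr a (qn zero) = Qn.pr (qn zero) (qn succ * a) := by
  have h : qn succ * Qn.pr 1 (qn zero) =
    (Qn.pr (qn zero) (qn succ) : Qn V) := qn_eq.2 (Prv.ax Ax.p0)
  have := congrArg (fun t => t * a) h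
  simpa only [mul_assoc, qn_pr_mul, qn_zero_mul, one_mul] using this

theorem qn_prec0 (f g : Fn V) (a : Qn V) : qn (prec f g) * Qn.pr a (qn zero) = qn f * a := by
  have h : qn (prec f g) * Qn.pr 1 (qn zero) = qn f := qn_eq.2 (Prv.ax (Ax.prec0 f g))
  have := congrArg (fun t => t * a) h
  simpa only [mul_assoc, qn_pr_mul, qn_zero_mul, one_mul] using this

theorem qn_precS (f g : Fn V) (a n : Qn V) : qn (prec f g) * Qn.pr a (qn succ * n) =
    qn g * Qn.pr a (Qn.pr n (qn (prec f g) * Qn.pr a n)) := by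
  have h : qn (prec f g) * Qn.pr (qn left) (qn succ * qn right) =
    qn g * Qn.pr (qn left) (Qn.pr (qn right) (qn (prec f g))) :=
    qn_eq.2 (Prv.ax (Ax.precS f g))
  have := congrArg (fun t => t * Qn.pr a n) h
  simpa only [mul_assoc, qn_pr_mul, qn_left_pr, qn_right_pr] using this

theorem qn_trec0 (f g : Fn V) (a : Qn V) : qn (trec f g) * Qn.pr a (qn zero) = qn f * a := by
  have h : qn (trec f g) * Qn.pr 1 (qn zero) = qn f := qn_eq.2 (Prv.ax (Ax.trec0 f g))
  have := congrArg (fun t => t * a) h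
  simpa only [mul_assoc, qn_pr_mul, qn_zero_mul, one_mul] using this

theorem qn_trecS (f g : Fn V) (a n : Qn V) : qn (trec f g) * Qn.pr a (qn succ * n) =
    qn g * Qn.pr a (Qn.pr n (Qn.pr (qn (trec f g) * Qn.pr a (qn left * n))
      (qn (trec f g) * Qn.pr a (qn right * n)))) := by
  have h : qn (trec f g) * Qn.pr (qn left) (qn succ * qn right) =
    qn g * Qn.pr (qn left) (Qn.pr (qn right)
      (Qn.pr (qn (trec f g) * Qn.pr (qn left) (qn left * qn right))
        (qn (trec f g) * Qn.pr (qn left) (qn right * qn right)))) :=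
    qn_eq.2 (Prv.ax (Ax.trecS f g))
  have := congrArg (fun t => t * Qn.pr a n) h
  simpa only [mul_assoc, qn_pr_mul, qn_left_pr, qn_right_pr] using this

/-! ### Entries of the sequence coded by the variable -/

/-- The `i`-th entry. -/
def get : ℕ → Fn V
  | 0 => left
  | i + 1 => comp (get i) right

/-- `(x, y) ↦ x` with the `i`-th entry replaced by `y`. -/
def st : ℕ → Fn V
  | 0 => pair right (comp right left)
  | i + 1 => pair (comp left left) (comp (st i) (pair (comp right left) right))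

theorem get_st (i : ℕ) : qn (get i) * qn (st i) = (qn right : Qn V) := by
  induction i with
  | zero => simp only [get, st, qn_pair, qn_comp, qn_left_pr]
  | succ i ih =>
    simp only [get, st, qn_pair, qn_comp, mul_assoc, qn_right_pr]
    rw [← mul_assoc, ih, qn_right_pr]

theorem get_st_ne {i j : ℕ} (h : j ≠ i) :
    qn (get j) * qn (st i) = (qn (get j) * qn left : Qn V) := by
  induction i generalizing j with
  | zero =>
    obtain ⟨j, rfl⟩ := Nat.exists_eq_succ_of_ne_zero h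
    simp only [get, st, qn_pair, qn_comp, mul_assoc, qn_right_pr]
  | succ i ih =>
    cases j with
    | zero => simp only [get, st, qn_pair, qn_comp, qn_left_pr]
    | succ j =>
      simp only [get, st, qn_pair, qn_comp, mul_assoc, qn_right_pr]
      rw [← mul_assoc, ih (by omega), mul_assoc, qn_left_pr]

/-! ### Freshness -/

/-- The function `f` does not depend on the `i`-th entry. -/
def FrF (i : ℕ) (f : Fn V) : Prop := qn f * qn (st i) = qn f * qn left

/-- The formula `P` does not depend on the `i`-th entry. -/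
def Fr (i : ℕ) (P : Fm V) : Prop :=
  Le (sub P (st i)) (sub P left) ∧ Le (sub P left) (sub P (st i))

theorem FrF.comp {i : ℕ} {f : Fn V} (h : FrF i f) (g : Fn V) : FrF i (comp g f) := by
  unfold FrF at *
  rw [qn_comp, mul_assoc, h, mul_assoc]

theorem FrF.pair {i : ℕ} {f g : Fn V} (h1 : FrF i f) (h2 : FrF i g) : FrF i (pair f g) := by
  unfold FrF at *
  rw [qn_pair, qn_pr_mul, h1, h2, qn_pr_mul]

theorem FrF.zero (i : ℕ) : FrF i (zero : Fn V) := by
  unfold FrF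
  rw [qn_zero_mul, qn_zero_mul]

theorem FrF.get {i j : ℕ} (h : j ≠ i) : FrF i (get j : Fn V) := get_st_ne h

theorem FrF.sub {i : ℕ} {f : Fn V} (h : FrF i f) (P : Fm V) : Fr i (sub P f) := by
  have h' : Prv (eq (Fn.comp f (st i)) (Fn.comp f left)) := qn_eq.1 h
  exact ⟨(subSub_le _ _ _).trans ((sub_congr P h').trans (subComp_le _ _ _)),
    (subSub_le _ _ _).trans ((sub_congr P (eq_symm h')).trans (subComp_le _ _ _))⟩

theorem eq_trans {f g h : Fn V} (h1 : Prv (eq f g)) (h2 : Prv (eq g h)) : Prv (eq f h) :=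
  Prv.mp (Prv.mp (Prv.ax (Ax.trans _ _ _)) h1) h2

theorem eq_le {f f' g g' : Fn V} (h1 : Prv (eq f' f)) (h2 : Prv (eq g g')) :
    Le (eq f g) (eq f' g') :=
  Le.ap (Le.trans (Le.ap (Le.trans (Le.pure h1) (Prv.ax (Ax.trans _ _ _))) (Le.refl _))
    (Prv.ax (Ax.trans _ _ _))) (Le.pure h2)

theorem FrF.eq {i : ℕ} {f g : Fn V} (h1 : FrF i f) (h2 : FrF i g) : Fr i (eq f g) := by
  have h1' : Prv (Fm.eq (Fn.comp f (st i)) (Fn.comp f left)) := qn_eq.1 h1
  have h2' : Prv (Fm.eq (Fn.comp g (st i)) (Fn.comp g left)) := qn_eq.1 h2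
  exact ⟨Le.trans (Prv.ax (Ax.subEq _ _ _)) ((eq_le (eq_symm h1') h2').trans
    (Prv.ax (Ax.eqSub _ _ _))), Le.trans (Prv.ax (Ax.subEq _ _ _)) ((eq_le h1' (eq_symm h2')).trans
    (Prv.ax (Ax.eqSub _ _ _)))⟩

theorem Fr.conj {i : ℕ} {P Q : Fm V} (h1 : Fr i P) (h2 : Fr i Q) : Fr i (conj P Q) :=
  ⟨(Le.conj (Le.fst.sub _) (Le.snd.sub _)).trans ((Le.conj_mono h1.1 h2.1).trans
    (sub_conj _ _ _)), (Le.conj (Le.fst.sub _) (Le.snd.sub _)).trans
    ((Le.conj_mono h1.2 h2.2).trans (sub_conj _ _ _))⟩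

theorem Fr.imp {i : ℕ} {P Q : Fm V} (h1 : Fr i P) (h2 : Fr i Q) : Fr i (imp P Q) :=
  ⟨Le.trans (Prv.ax (Ax.subImp _ _ _)) (((Le.imp_left h1.2).trans (Le.imp_right h2.1)).trans
    (Prv.ax (Ax.impSub _ _ _))),
    Le.trans (Prv.ax (Ax.subImp _ _ _)) (((Le.imp_left h1.1).trans (Le.imp_right h2.2)).trans
    (Prv.ax (Ax.impSub _ _ _)))⟩

theorem Fr.bot (i : ℕ) : Fr i (bot : Fm V) :=
  ⟨Le.trans (Prv.ax (Ax.subBot _)) Le.bot, Le.trans (Prv.ax (Ax.subBot _)) Le.bot⟩

theorem lft_le {i : ℕ} {f : Fn V} (h : FrF i f) :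
    qn (pair f (get i)) * qn (st i) = qn (lft f) := by
  unfold FrF at h
  rw [qn_pair, qn_pr_mul, h, get_st]
  rfl

/-- Elimination of a fresh constant, existential. -/
theorem fresh_ex {i : ℕ} {c q P : Fm V} {f : Fn V} (hc : Fr i c) (hq : Fr i q) (hf : FrF i f)
    (h : Le (conj c (sub P (pair f (get i)))) q) : Le (conj c (sub (ex P) f)) q := by
  have h1 : Le (sub P (pair f (get i))) (imp c q) := h.curry.swap
  have h2 := (h1.sub (st i)).trans (hc.imp hq).1
  have h3 : Le (sub P (lft f)) (sub (sub P (pair f (get i))) (st i)) :=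
    (sub_congr P (eq_symm (qn_eq.1 (lft_le hf)))).trans (subComp_le _ _ _)
  have h4 : Le (ex (sub P (lft f))) (imp c q) := Prv.exE (h3.trans h2)
  exact (Le.trans (Prv.ax (Ax.subEx _ _)) h4).swap.uncurry

/-- Elimination of a fresh constant, universal. -/
theorem fresh_all {i : ℕ} {c P : Fm V} {f : Fn V} (hc : Fr i c) (hf : FrF i f)
    (h : Le c (sub P (pair f (get i)))) : Le c (sub (all P) f) := by
  have h2 := hc.2.trans (h.sub (st i))
  have h3 : Le (sub (sub P (pair f (get i))) (st i)) (sub P (lft f)) :=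
    (subSub_le _ _ _).trans (sub_congr P (qn_eq.1 (lft_le hf)))
  have h4 : Le c (all (sub P (lft f))) := Prv.allI (h2.trans h3)
  exact h4.trans (Prv.ax (Ax.allSub _ _))

/-- Introduction of existential quantifiers. -/
theorem ex_intro (P : Fm V) (f g : Fn V) : Le (sub P (pair f g)) (sub (ex P) f) := by
  have h1 : Le (sub P (pair f g)) (sub (sub (ex P) left) (pair f g)) :=
    Le.sub (Prv.ax (Ax.exI P)) _
  exact h1.trans ((subSub_le _ _ _).trans (sub_congr _ (Prv.ax (Ax.leftP _ _))))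

/-- Elimination of universal quantifiers. -/
theorem all_elim (P : Fm V) (f g : Fn V) : Le (sub (all P) f) (sub P (pair f g)) := by
  have h1 : Le (sub (sub (all P) left) (pair f g)) (sub P (pair f g)) :=
    Le.sub (Prv.ax (Ax.allE P)) _
  exact ((sub_congr _ (eq_symm (Prv.ax (Ax.leftP f g)))).trans (subComp_le _ _ _)).trans h1

theorem prv_of_sub_left {P : Fm V} (h : Prv (sub P left)) : Prv P := by
  have h1 := Prv.sb (pair idn zero) h
  have h2 := Prv.mp (subSub_le _ _ _) h1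
  have h3 := Prv.mp (sub_congr P (Prv.ax (Ax.leftP idn zero))) h2
  exact Prv.mp (Prv.ax (Ax.subId P)) h3

end HAr
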