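import Pool.Agent.Lib.MP_61e577_lc.Ar.Hk1

/-! Countability of the syntax and the extension lemma. -/

namespace HAr

open Fn Fm

variable {V : Type}

/-! ### Countability -/

/-- Codes of functions. -/
def fcode (c : V → ℕ) : Fn V → ℕ
  | .mv i => Nat.pair 0 (c i)
  | idn => Nat.pair 1 0
  | zero => Nat.pair 2 0
  | succ => Nat.pair 3 0
  | left => Nat.pair 4 0
  | right => Nat.pair 5 0
  | pair f g => Nat.pair 6 (Nat.pair (fcode c f) (fcode c g))
  | comp f g => Nat.pair 7 (Nat.pair (fcode c f) (fcode c g))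
  | prec f g => Nat.pair 8 (Nat.pair (fcode c f) (fcode c g))
  | trec f g => Nat.pair 9 (Nat.pair (fcode c f) (fcode c g))

theorem fcode_inj {c : V → ℕ} (hc : Function.Injective c) : Function.Injective (fcode c) := by
  intro f
  induction f with
  | mv i =>
    intro g h
    cases g <;> simp [fcode, Nat.pair_eq_pair] at h ⊢
    exact hc h
  | idn => intro g h; cases g <;> simp [fcode, Nat.pair_eq_pair] at h ⊢
  | zero => intro g h; cases g <;> simp [fcode, Nat.pair_eq_pair] at h ⊢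
  | succ => intro g h; cases g <;> simp [fcode, Nat.pair_eq_pair] at h ⊢
  | left => intro g h; cases g <;> simp [fcode, Nat.pair_eq_pair] at h ⊢
  | right => intro g h; cases g <;> simp [fcode, Nat.pair_eq_pair] at h ⊢
  | pair a b iha ihb =>
    intro g h
    cases g <;> simp [fcode, Nat.pair_eq_pair] at h ⊢
    exact ⟨iha h.1, ihb h.2⟩
  | comp a b iha ihb =>
    intro g h
    cases g <;> simp [fcode, Nat.pair_eq_pair] at h ⊢
    exact ⟨iha h.1, ihb h.2⟩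
  | prec a b iha ihb =>
    intro g h
    cases g <;> simp [fcode, Nat.pair_eq_pair] at h ⊢
    exact ⟨iha h.1, ihb h.2⟩
  | trec a b iha ihb =>
    intro g h
    cases g <;> simp [fcode, Nat.pair_eq_pair] at h ⊢
    exact ⟨iha h.1, ihb h.2⟩

/-- Codes of formulas. -/
def mcode (c : V → ℕ) : Fm V → ℕ
  | .mv i => Nat.pair 0 (c i)
  | eq f g => Nat.pair 1 (Nat.pair (fcode c f) (fcode c g))
  | bot => Nat.pair 2 0
  | conj P Q => Nat.pair 3 (Nat.pair (mcode c P) (mcode c Q))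
  | disj P Q => Nat.pair 4 (Nat.pair (mcode c P) (mcode c Q))
  | imp P Q => Nat.pair 5 (Nat.pair (mcode c P) (mcode c Q))
  | ex P => Nat.pair 6 (mcode c P)
  | all P => Nat.pair 7 (mcode c P)
  | sub P f => Nat.pair 8 (Nat.pair (mcode c P) (fcode c f))

theorem mcode_inj {c : V → ℕ} (hc : Function.Injective c) : Function.Injective (mcode c) := by
  intro f
  induction f with
  | mv i =>
    intro g h
    cases g <;> simp [mcode, Nat.pair_eq_pair] at h ⊢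
    exact hc h
  | eq a b =>
    intro g h
    cases g <;> simp [mcode, Nat.pair_eq_pair] at h ⊢
    exact ⟨fcode_inj hc h.1, fcode_inj hc h.2⟩
  | bot => intro g h; cases g <;> simp [mcode, Nat.pair_eq_pair] at h ⊢
  | conj a b iha ihb =>
    intro g h
    cases g <;> simp [mcode, Nat.pair_eq_pair] at h ⊢
    exact ⟨iha h.1, ihb h.2⟩
  | disj a b iha ihb =>
    intro g h
    cases g <;> simp [mcode, Nat.pair_eq_pair] at h ⊢
    exact ⟨iha h.1, ihb h.2⟩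
  | imp a b iha ihb =>
    intro g h
    cases g <;> simp [mcode, Nat.pair_eq_pair] at h ⊢
    exact ⟨iha h.1, ihb h.2⟩
  | ex a iha =>
    intro g h
    cases g <;> simp [mcode, Nat.pair_eq_pair] at h ⊢
    exact iha h
  | all a iha =>
    intro g h
    cases g <;> simp [mcode, Nat.pair_eq_pair] at h ⊢
    exact iha h
  | sub a b iha =>
    intro g h
    cases g <;> simp [mcode, Nat.pair_eq_pair] at h ⊢
    exact ⟨iha h.1, fcode_inj hc h.2⟩

theorem exists_enum (V : Type) [Countable V] : ∃ e : ℕ → Fm V, Function.Surjective e := by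
  obtain ⟨c, hc⟩ := Countable.exists_injective_nat V
  have : Countable (Fm V) := (mcode_inj hc).countable
  have : Nonempty (Fm V) := ⟨bot⟩
  exact exists_surjective_nat _

/-! ### Worlds -/

/-- Functions of finite support which do not depend on the entries in `A`. -/
def Dm (A : Set ℕ) (f : Fn V) : Prop := (∀ i ∈ A, FrF i f) ∧ ∃ N, ∀ i, N ≤ i → FrF i f

/-- Formulas of finite support which do not depend on the entries in `A`. -/
def Fs (A : Set ℕ) (P : Fm V) : Prop := (∀ i ∈ A, Fr i P) ∧ ∃ N, ∀ i, N ≤ i → Fr i P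

theorem Dm.mono {A B : Set ℕ} (h : B ⊆ A) {f : Fn V} (hf : Dm A f) : Dm B f :=
  ⟨fun i hi => hf.1 i (h hi), hf.2⟩

theorem Dm.comp {A : Set ℕ} {f : Fn V} (hf : Dm A f) (g : Fn V) : Dm A (comp g f) :=
  ⟨fun i hi => (hf.1 i hi).comp g, hf.2.imp fun _ h i hi => (h i hi).comp g⟩

theorem Dm.pair {A : Set ℕ} {f g : Fn V} (hf : Dm A f) (hg : Dm A g) : Dm A (pair f g) := by
  obtain ⟨N, hN⟩ := hf.2
  obtain ⟨M, hM⟩ := hg.2
  exact ⟨fun i hi => (hf.1 i hi).pair (hg.1 i hi), max N M, fun i hi =>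
    (hN i (le_trans (le_max_left _ _) hi)).pair (hM i (le_trans (le_max_right _ _) hi))⟩

theorem Dm.zero (A : Set ℕ) : Dm A (zero : Fn V) := ⟨fun i _ => FrF.zero i, 0, fun i _ => FrF.zero i⟩

theorem Dm.get {A : Set ℕ} {j : ℕ} (h : j ∉ A) : Dm A (get j : Fn V) :=
  ⟨fun i hi => FrF.get (fun h1 => h (h1 ▸ hi)), j + 1, fun i hi => FrF.get (by omega)⟩

theorem Dm.sub {A : Set ℕ} {f : Fn V} (hf : Dm A f) (P : Fm V) : Fs A (sub P f) :=
  ⟨fun i hi => (hf.1 i hi).sub P, hf.2.imp fun _ h i hi => (h i hi).sub P⟩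

theorem Fs.conj {A : Set ℕ} {P Q : Fm V} (hf : Fs A P) (hg : Fs A Q) : Fs A (conj P Q) := by
  obtain ⟨N, hN⟩ := hf.2
  obtain ⟨M, hM⟩ := hg.2
  exact ⟨fun i hi => (hf.1 i hi).conj (hg.1 i hi), max N M, fun i hi =>
    (hN i (le_trans (le_max_left _ _) hi)).conj (hM i (le_trans (le_max_right _ _) hi))⟩

theorem Fs.bot (A : Set ℕ) : Fs A (bot : Fm V) := ⟨fun i _ => Fr.bot i, 0, fun i _ => Fr.bot i⟩

/-- Worlds of the canonical model. -/
structure Wd (V : Type) where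
  A : Set ℕ
  G : Set (Fm V)
  inf : A.Infinite
  fr : ∀ p ∈ G, ∀ i ∈ A, Fr i p
  up : ∀ p ∈ G, ∀ q, (∀ i ∈ A, Fr i q) → Le p q → q ∈ G
  cj : ∀ p ∈ G, ∀ q ∈ G, conj p q ∈ G
  ne : G.Nonempty
  nb : bot ∉ G
  dj : ∀ P Q f, Dm A f → sub (disj P Q) f ∈ G → sub P f ∈ G ∨ sub Q f ∈ G
  hk : ∀ P f, Dm A f → sub (ex P) f ∈ G → ∃ g, Dm A g ∧ sub P (pair f g) ∈ G

/-- One step of the construction. -/
theorem ext_step {A A2 : Set ℕ} (hinf : (A \ A2).Infinite)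
    {G0 : Set (Fm V)} (hG : ∀ p ∈ G0, ∀ i ∈ A, Fr i p) {q : Fm V} (hq : ∀ i ∈ A, Fr i q)
    (φ : Fm V) (hφ : Fs A2 φ) (hn : ∀ c ∈ G0, ¬ Le (conj c φ) q) (θ : Fm V) :
    ∃ φ' : Fm V, Fs A2 φ' ∧ (∀ c ∈ G0, ¬ Le (conj c φ') q) ∧ Le φ' φ ∧
      (Fs A2 θ → Le φ' θ ∨ ∃ c ∈ G0, Le (conj c (conj φ θ)) q) ∧
      (∀ P f, Dm A2 f → θ = sub (ex P) f → Le φ' θ → ∃ g, Dm A2 g ∧ Le φ' (sub P (pair f g))) := by
  classical
  by_cases hθ : Fs A2 θ ∧ ∀ c ∈ G0, ¬ Le (conj c (conj φ θ)) q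
  · by_cases he : ∃ P f, Dm A2 f ∧ θ = sub (ex P) f
    · obtain ⟨P, f, hf, rfl⟩ := he
      obtain ⟨N, hN⟩ := hφ.2
      obtain ⟨M, hM⟩ := hf.2
      obtain ⟨i, hi, hiN⟩ := hinf.exists_gt (max N M)
      have h1 : Dm A2 (get i : Fn V) := Dm.get hi.2
      refine ⟨conj (conj φ (sub (ex P) f)) (sub P (pair f (get i))),
        (hφ.conj (hf.sub _)).conj ((hf.pair h1).sub _), ?_, Le.fst.trans Le.fst,
        fun _ => Or.inl (Le.fst.trans Le.snd), ?_⟩
      · intro c hc h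
        have hNi : N ≤ i := le_trans (le_max_left _ _) hiN.le
        have hMi : M ≤ i := le_trans (le_max_right _ _) hiN.le
        have hcφ : Fr i (conj c (conj φ (sub (ex P) f))) :=
          (hG c hc i hi.1).conj ((hN i hNi).conj ((hM i hMi).sub _))
        have h2 : Le (conj (conj c (conj φ (sub (ex P) f))) (sub P (pair f (get i)))) q :=
          Le.trans ((Le.fst.trans Le.fst).conj ((Le.fst.trans Le.snd).conj Le.snd)) h
        have h3 := fresh_ex hcφ (hq i hi.1) (hM i hMi) h2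
        exact hθ.2 c hc (((Le.refl _).conj (Le.snd.trans Le.snd)).trans h3)
      · intro P' f' _ he _
        cases he
        exact ⟨get i, h1, Le.snd⟩
    · refine ⟨conj φ θ, hφ.conj hθ.1, hθ.2, Le.fst, fun _ => Or.inl Le.snd, ?_⟩
      intro P f hf h
      exact absurd ⟨P, f, hf, h⟩ he
  · refine ⟨φ, hφ, hn, Le.refl _, ?_, ?_⟩
    · intro h
      right
      by_contra h2
      push Not at h2
      exact hθ ⟨h, h2⟩
    · intro P f hf h1 h2
      exfalso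
      apply hθ
      subst h1
      refine ⟨hf.sub _, fun c hc h3 => hn c hc ?_⟩
      exact (Le.conj Le.fst (Le.snd.conj (Le.snd.trans h2))).trans h3

/-- The extension lemma. -/
theorem exists_world [Countable V] {A : Set ℕ} (hA : A.Infinite) {G0 : Set (Fm V)}
    (hG : ∀ p ∈ G0, ∀ i ∈ A, Fr i p) (hne : G0.Nonempty)
    (hdir : ∀ p ∈ G0, ∀ p' ∈ G0, ∃ r ∈ G0, Le r p ∧ Le r p') {q : Fm V}
    (hq : ∀ i ∈ A, Fr i q) (hn : ∀ c ∈ G0, ¬ Le c q) :
    ∃ w : Wd V, w.A ⊆ A ∧ (∀ p ∈ G0, ∀ p', (∀ i ∈ A, Fr i p') → Le p p' → p' ∈ w.G) ∧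
      q ∉ w.G := by
  classical
  obtain ⟨e, he⟩ := exists_enum V
  -- split the reserved entries
  obtain ⟨A2, hA2, hA2i, hA1i⟩ : ∃ A2 ⊆ A, A2.Infinite ∧ (A \ A2).Infinite := by
    have : Infinite A := hA.to_subtype
    let a : ℕ ↪ A := Infinite.natEmbedding A
    refine ⟨Set.range fun n => (a (2 * n) : ℕ), ?_, ?_, ?_⟩
    · rintro _ ⟨n, rfl⟩
      exact (a (2 * n)).2
    · apply Set.infinite_range_of_injective
      intro m n h
      have := a.injective (Subtype.ext h)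
      omega
    · refine Set.Infinite.mono (s := Set.range fun n => (a (2 * n + 1) : ℕ)) ?_ ?_
      · rintro _ ⟨n, rfl⟩
        refine ⟨(a (2 * n + 1)).2, ?_⟩
        rintro ⟨m, hm⟩
        have := a.injective (Subtype.ext hm)
        omega
      · apply Set.infinite_range_of_injective
        intro m n h
        have := a.injective (Subtype.ext h)
        omega
  let T : Type := {φ : Fm V // Fs A2 φ ∧ ∀ c ∈ G0, ¬ Le (conj c φ) q}
  have step : ∀ (φ : T) (θ : Fm V), ∃ φ' : T, Le φ'.1 φ.1 ∧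
      (Fs A2 θ → Le φ'.1 θ ∨ ∃ c ∈ G0, Le (conj c (conj φ.1 θ)) q) ∧
      (∀ P f, Dm A2 f → θ = sub (ex P) f → Le φ'.1 θ →
        ∃ g, Dm A2 g ∧ Le φ'.1 (sub P (pair f g))) := by
    rintro ⟨φ, h1, h2⟩ θ
    obtain ⟨φ', h3, h4, h5⟩ := ext_step hA1i hG hq φ h1 h2 θ
    exact ⟨⟨φ', h3, h4⟩, h5⟩
  choose nx hnx using step
  have tt0 : Le (V := V) (imp bot bot) (imp bot bot) := Le.refl _
  have http : Prv (V := V) (imp bot bot) := Le.refl _
  have htt : Fs A2 (imp bot bot : Fm V) :=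
    ⟨fun i _ => (Fr.bot i).imp (Fr.bot i), 0, fun i _ => (Fr.bot i).imp (Fr.bot i)⟩
  let φ0 : T := ⟨imp bot bot, htt, fun c hc h =>
    hn c hc (((Le.refl c).conj (Le.pure http)).trans h)⟩
  let Φ : ℕ → T := fun n => Nat.rec φ0 (fun n φ => nx φ (e n)) n
  have hΦ : ∀ n, Φ (n + 1) = nx (Φ n) (e n) := fun n => rfl
  have hmono : ∀ m n, m ≤ n → Le (Φ n).1 (Φ m).1 := by
    intro m n h
    induction n, h using Nat.le_induction with
    | base => exact Le.refl _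
    | succ n _ ih => exact ((hΦ n ▸ (hnx (Φ n) (e n)).1 : Le (Φ (n+1)).1 (Φ n).1)).trans ih
  let G : Set (Fm V) := {θ | (∀ i ∈ A2, Fr i θ) ∧ ∃ n, ∃ c ∈ G0, Le (conj c (Φ n).1) θ}
  have hqG : q ∉ G := by
    rintro ⟨_, n, c, hc, h⟩
    exact (Φ n).2.2 c hc h
  have hcj : ∀ p ∈ G, ∀ r ∈ G, conj p r ∈ G := by
    rintro p ⟨h1, n, c, hc, h2⟩ r ⟨h3, m, c', hc', h4⟩
    obtain ⟨c'', hc'', hl, hr⟩ := hdir c hc c' hc'
    refine ⟨fun i hi => (h1 i hi).conj (h3 i hi), max n m, c'', hc'', ?_⟩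
    exact ((Le.conj_mono hl (hmono _ _ (le_max_left _ _))).trans h2).conj
      ((Le.conj_mono hr (hmono _ _ (le_max_right _ _))).trans h4)
  have hup : ∀ p ∈ G, ∀ r, (∀ i ∈ A2, Fr i r) → Le p r → r ∈ G := by
    rintro p ⟨_, n, c, hc, h2⟩ r hr h
    exact ⟨hr, n, c, hc, h2.trans h⟩
  have hqA2 : ∀ i ∈ A2, Fr i q := fun i hi => hq i (hA2 hi)
  -- decided formulas
  have hdec : ∀ θ, Fs A2 θ → (∃ n, e n = θ ∧ Le (Φ (n + 1)).1 θ) ∨
      ∃ d ∈ G, Le (conj d θ) q := by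
    intro θ hθ
    obtain ⟨n, hn'⟩ := he θ
    rcases (hnx (Φ n) (e n)).2.1 (hn' ▸ hθ) with h | ⟨c, hc, h⟩
    · left
      exact ⟨n, hn', by rw [hΦ, ← hn']; exact h⟩
    · right
      refine ⟨conj c (Φ n).1, ⟨fun i hi => (hG c hc i (hA2 hi)).conj ((Φ n).2.1.1 i hi), n, c, hc,
        Le.refl _⟩, ?_⟩
      rw [hn'] at h
      exact (Le.conj (Le.fst.trans Le.fst) ((Le.fst.trans Le.snd).conj Le.snd)).trans h
  obtain ⟨c0, hc0⟩ := hne
  have hin : ∀ n θ, (∀ i ∈ A2, Fr i θ) → Le (Φ n).1 θ → θ ∈ G := by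
    intro n θ hθ h
    exact ⟨hθ, n, c0, hc0, Le.snd.trans h⟩
  refine ⟨⟨A2, G, hA2i, fun p hp => hp.1, hup, hcj, ?_, ?_, ?_, ?_⟩, hA2, ?_, hqG⟩
  · exact ⟨c0, fun i hi => hG c0 hc0 i (hA2 hi), 0, c0, hc0, Le.fst⟩
  · intro h
    exact hqG (hup _ h q hqA2 Le.bot)
  · intro P Q f hf h
    rcases hdec (sub P f) (hf.sub P) with ⟨n, _, h1⟩ | ⟨d, hd, h1⟩
    · exact Or.inl (hin (n + 1) _ (hf.sub P).1 h1)
    rcases hdec (sub Q f) (hf.sub Q) with ⟨n, _, h2⟩ | ⟨d', hd', h2⟩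
    · exact Or.inr (hin (n + 1) _ (hf.sub Q).1 h2)
    exfalso
    apply hqG
    refine hup _ (hcj _ (hcj _ hd _ hd') _ h) q hqA2 ?_
    refine Le.elim (Le.snd.trans (Prv.ax (Ax.subOr P Q f))) ?_ ?_
    · exact (Le.conj (Le.fst.trans (Le.fst.trans Le.fst)) Le.snd).trans h1
    · exact (Le.conj (Le.fst.trans (Le.fst.trans Le.snd)) Le.snd).trans h2
  · intro P f hf h
    rcases hdec (sub (ex P) f) (hf.sub _) with ⟨n, h0, h1⟩ | ⟨d, hd, h1⟩
    · rw [hΦ] at h1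
      obtain ⟨g, hg, h2⟩ := (hnx (Φ n) (e n)).2.2 P f hf h0 (h0 ▸ h1)
      exact ⟨g, hg, hin (n + 1) _ ((hf.pair hg).sub P).1 h2⟩
    · exact absurd (hup _ (hcj _ hd _ h) q hqA2 h1) hqG
  · intro p hp p' hp' h
    exact ⟨fun i hi => hp' i (hA2 hi), 0, p, hp, Le.fst.trans h⟩

end HAr
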