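import Pool.Agent.Lib.MP_61e577_lc.Ar.Evp
import Pool.Agent.Lib.MP_61e577_lc.Ar.Lob

/-! Instance provability with bounded lines: the instance `z (x)` follows from theorems with
proof codes below `n`, from the formula `F`, and from true equations, by modus ponens, evaluation
of substitutions, and introduction of conjunction, disjunction and existence; all lines are
below `n`. -/

namespace HAr

open Fn Fm

variable {V U : Type} {M : Kr V} {w : M.W}

/-- The default line. -/
def in0 : Fn V := pair topF zero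

/-- The line `(z, x)` if `z` is below the bound; in the environment
`((r1, r2), (m, (n, F)))`. -/
def chk (z x : Fn V) : Fn V :=
  cnd (comp monF (pair (comp succ z) (comp left (comp right right)))) (pair z x) in0

/-- The cases of the evaluation of instance derivations, in the environment
`((r1, r2), (m, (n, F)))`. -/
def insL : List (Fn V) :=
  [cnd (comp monF (pair (comp succ (comp hdF (comp left right))) (comp left (comp right right))))
     (chk (comp conclF (comp hdF (comp left right))) (comp tlF (comp left right))) in0,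
   chk (comp right (comp right right)) (comp left right),
   cnq (comp left left) (pair (ndF 4 (comp left (comp right left))
       (comp tlF (comp tlF (comp left (comp left left))))) (comp right (comp right left)))
     (chk (comp tlF (comp tlF (comp left (comp left left)))) (comp right (comp left left))) in0,
   cnq (comp right (comp right (comp evF (comp tlF (comp left right)))))
       (comp right (comp left left))
     (chk (ndF 7 (comp left (comp left left)) (comp left (comp evF (comp tlF (comp left right)))))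
       (comp left (comp right (comp evF (comp tlF (comp left right)))))) in0,
   cnq (comp left left) (pair (ndF 7 (comp hdF (comp tlF (comp left (comp left left))))
       (comp left (comp evF (comp tlF (comp left right)))))
       (comp left (comp right (comp evF (comp tlF (comp left right))))))
     (chk (comp hdF (comp tlF (comp left (comp left left))))
       (comp right (comp right (comp evF (comp tlF (comp left right)))))) in0,
   cnq (comp right (comp evF (comp hdF (comp left right))))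
       (comp right (comp evF (comp tlF (comp left right))))
     (chk (ndF 0 (comp left (comp evF (comp hdF (comp left right))))
       (comp left (comp evF (comp tlF (comp left right)))))
       (comp left (comp right (comp evF (comp hdF (comp left right)))))) in0,
   cnq (comp right (comp left left)) (comp right (comp right left))
     (chk (ndF 2 (comp left (comp left left)) (comp left (comp right left)))
       (comp right (comp left left))) in0,
   chk (ndF 3 (comp left (comp left left)) (comp nfmF (comp tlF (comp left right))))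
     (comp right (comp left left)),
   chk (ndF 3 (comp nfmF (comp tlF (comp left right))) (comp left (comp left left)))
     (comp right (comp left left)),
   chk (ndF 5 (comp left (comp left left)) zero) (comp left (comp right (comp left left)))]

/-- The line proved by an instance derivation, at `((n, F), d)`. -/
def insF : Fn V := frec in0 (comp (sw insL in0)
  (pair (pair (comp right right) (pair (comp right (comp left right)) left))
      (comp left (comp left right))))

def Kr.ins (M : Kr V) {w : M.W} (n F d : M.D w) : M.D w := M.fn insF (M.pr (M.pr n F) d)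

@[simp] theorem Kr.tr_ins {v : M.W} (h : w ≤ v) (n F d : M.D w) :
    M.tr h (M.ins n F d) = M.ins (M.tr h n) (M.tr h F) (M.tr h d) := by
  simp [Kr.ins]

@[simp] theorem Kr.ins_zr (n F : M.D w) : M.ins n F M.zr = M.pr M.tc M.zr := by
  simp [Kr.ins, insF, in0]

theorem Kr.ins_cs (n F t m : M.D w) : M.ins n F (M.cs t m) = M.fn (sw insL in0)
    (M.pr (M.pr (M.pr (M.ins n F (M.hd m)) (M.ins n F (M.tl m))) (M.pr m (M.pr n F))) t) := by
  rw [Kr.ins, insF, Kr.frec_cs]
  simp only [M.fn_comp, M.fn_pair, M.left_pr, M.right_pr]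
  rfl

/-- The instance `c (x)` is a line of an instance derivation. -/
def Kr.Ins (M : Kr V) {w : M.W} (n F c x : M.D w) : Prop := ∃ d, M.ins n F d = M.pr c x

theorem Kr.Ins_monoW {v : M.W} (h : w ≤ v) {n F c x : M.D w} (k : M.Ins n F c x) :
    M.Ins (M.tr h n) (M.tr h F) (M.tr h c) (M.tr h x) := by
  obtain ⟨d, hd⟩ := k
  exact ⟨M.tr h d, by rw [← M.tr_ins, hd, M.tr_pr]⟩

/-- The formula: the value of `c` has an instance derivation at the argument. -/
def insT (n F c : Fn V) : Fm V :=
  ex (eq (comp insF (pair (comp (pair n F) left) right)) (comp (pair c idn) left))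

theorem Kr.F_insT {n F c : Fn V} {d : M.D w} :
    M.F (insT n F c) d ↔ M.Ins (M.fn n d) (M.fn F d) (M.fn c d) d := by
  simp [insT, KD.F, Kr.Ins, Kr.ins]

/-- The code of the instance provability of `c` at the argument. -/
def Kr.iC (M : Kr V) {w : M.W} (n F c : M.D w) : M.D w :=
  M.icm (as4 (M.num n) (M.num F) (M.num c) (M.num c)) (fun _ => M.tc)
    (insT (.mv 0) (.mv 1) (.mv 2) : Fm ℕ)

/-- The function which computes `iC`, at `(n, (F, c))`. -/
def iCF : Fn V := cdm (as4 (comp numF left) (comp numF (comp left right))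
  (comp numF (comp right right)) (comp numF (comp right right))) (fun _ => topF)
  (insT (.mv 0) (.mv 1) (.mv 2) : Fm ℕ)

theorem Kr.fn_iCF (n F c : M.D w) : M.fn iCF (M.pr n (M.pr F c)) = M.iC n F c := by
  rw [iCF, Kr.fn_cdm, Kr.iC]
  have e1 : (fun i => M.fn (as4 (comp numF left) (comp numF (comp left right))
      (comp numF (comp right right)) (comp numF (comp right right)) i) (M.pr n (M.pr F c))) =
      as4 (M.num n) (M.num F) (M.num c) (M.num c) := by
    funext i
    match i with
    | 0 => simp [as4]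
    | 1 => simp [as4]
    | 2 => simp [as4]
    | _ + 3 => simp [as4]
  have e2 : (fun _ : ℕ => M.fn topF (M.pr n (M.pr F c))) = fun _ => M.tc := by
    funext i; simp
  rw [e1, e2]

@[simp] theorem Kr.tr_iC {v : M.W} (h : w ≤ v) (n F c : M.D w) :
    M.tr h (M.iC n F c) = M.iC (M.tr h n) (M.tr h F) (M.tr h c) := by
  rw [← Kr.fn_iCF, M.tr_fn, M.tr_pr, M.tr_pr, Kr.fn_iCF]

@[simp] theorem Kr.gm_iC (n F c : M.D w) : M.gm (M.iC n F c) :=
  Kr.gm_icm (Kr.gf_as4 (M.gf_num _) (M.gf_num _) (M.gf_num _) (M.gf_num _)) (fun _ => by simp) _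

/-- Components of nodes are smaller. -/
theorem Kr.le_cs1 (a b : M.D w) : M.le a (M.cs a b) := by
  have := (Kr.left_right_le (M.pr a b)).1
  rw [M.left_pr] at this
  exact Kr.le_S this

theorem Kr.le_cs2 (a b : M.D w) : M.le b (M.cs a b) := by
  have := (Kr.left_right_le (M.pr a b)).2
  rw [M.right_pr] at this
  exact Kr.le_S this

theorem Kr.le_nd1 (k : ℕ) (a b : M.D w) : M.le a (M.nd k a b) :=
  Kr.le_trans' (Kr.le_cs1 a b) (Kr.le_cs2 _ _)

theorem Kr.le_nd2 (k : ℕ) (a b : M.D w) : M.le b (M.nd k a b) :=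
  Kr.le_trans' (Kr.le_cs2 a b) (Kr.le_cs2 _ _)

@[simp] theorem Kr.fn_in0 (d : M.D w) : M.fn in0 d = M.pr M.tc M.zr := by simp [in0]

theorem Kr.fn_monF (a b : M.D w) : M.fn monF (M.pr a b) = M.mon a b := rfl

theorem Kr.chk_ok {z x : Fn V} {r m n F : M.D w}
    (h : M.le (M.S (M.fn z (M.pr r (M.pr m (M.pr n F))))) n) :
    M.fn (chk z x) (M.pr r (M.pr m (M.pr n F))) =
      M.pr (M.fn z (M.pr r (M.pr m (M.pr n F)))) (M.fn x (M.pr r (M.pr m (M.pr n F)))) := by
  rw [chk, Kr.cnd_zr, M.fn_pair]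
  simp only [M.fn_comp, M.fn_pair, M.right_pr, M.left_pr, Kr.fn_monF]
  exact Kr.mon_eq_zr.2 h

theorem Kr.chk_or (z x : Fn V) (r m n F : M.D w) :
    M.fn (chk z x) (M.pr r (M.pr m (M.pr n F))) = M.pr M.tc M.zr ∨
      (M.le (M.S (M.fn z (M.pr r (M.pr m (M.pr n F))))) n ∧
      M.fn (chk z x) (M.pr r (M.pr m (M.pr n F))) =
        M.pr (M.fn z (M.pr r (M.pr m (M.pr n F)))) (M.fn x (M.pr r (M.pr m (M.pr n F))))) := by
  rcases M.zr_or_S (M.mon (M.S (M.fn z (M.pr r (M.pr m (M.pr n F))))) n) with e | ⟨k, e⟩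
  · have h := Kr.mon_eq_zr.1 e
    exact Or.inr ⟨h, Kr.chk_ok h⟩
  · left
    rw [chk, Kr.cnd_S (n := k), Kr.fn_in0]
    simp only [M.fn_comp, M.fn_pair, M.right_pr, M.left_pr, Kr.fn_monF]
    exact e

theorem Kr.ins_nm {n F m : M.D w} {k : ℕ} (hk : k < 10) : M.ins n F (M.cs (M.nm k) m) =
    M.fn ((insL (V := V))[k]'hk)
      (M.pr (M.pr (M.ins n F (M.hd m)) (M.ins n F (M.tl m))) (M.pr m (M.pr n F))) := by
  rw [Kr.ins_cs, Kr.sw_nm (fs := insL) hk]

section
variable {n n' F c a b f g p x y z : M.D w}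

theorem Kr.Ins_thm (hp : M.le (M.S p) n) (hc : M.le (M.S (M.cc p)) n) (x : M.D w) :
    M.Ins n F (M.cc p) x := by
  refine ⟨M.cs (M.nm 0) (M.cs p x), ?_⟩
  rw [Kr.ins_nm (by norm_num)]
  simp only [insL, List.getElem_cons_zero]
  rw [Kr.cnd_zr, Kr.chk_ok]
  · simp
  · simpa using hc
  · simp only [M.fn_comp, M.fn_pair, M.right_pr, M.left_pr, Kr.fn_monF, Kr.fn_hdF, Kr.hd_S]
    exact Kr.mon_eq_zr.2 hp

theorem Kr.Ins_hyp (hF : M.le (M.S F) n) (x : M.D w) : M.Ins n F F x := by
  refine ⟨M.cs (M.nm 1) x, ?_⟩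
  rw [Kr.ins_nm (by norm_num)]
  simp only [insL, List.getElem_cons_zero, List.getElem_cons_succ]
  rw [Kr.chk_ok]
  · simp
  · simpa using hF

theorem Kr.Ins_mp (hb : M.le (M.S b) n) (h1 : M.Ins n F (M.im a b) x) (h2 : M.Ins n F a x) :
    M.Ins n F b x := by
  obtain ⟨d, hd⟩ := h1
  obtain ⟨e, he⟩ := h2
  refine ⟨M.cs (M.nm 2) (M.cs d e), ?_⟩
  rw [Kr.ins_nm (by norm_num)]
  simp only [insL, List.getElem_cons_zero, List.getElem_cons_succ, Kr.hd_S, Kr.tl_S, M.left_pr,
    M.right_pr, hd, he]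
  rw [Kr.cnq_eq, Kr.chk_ok]
  · simp
  · simpa using hb
  · simp

theorem Kr.Ins_sbI (hn : M.le (M.S (M.sbc a f)) n) (he : M.Ev f (M.pr x y))
    (h : M.Ins n F a y) : M.Ins n F (M.sbc a f) x := by
  obtain ⟨d, hd⟩ := h
  obtain ⟨e, he⟩ := he
  refine ⟨M.cs (M.nm 3) (M.cs d e), ?_⟩
  rw [Kr.ins_nm (by norm_num)]
  simp only [insL, List.getElem_cons_zero, List.getElem_cons_succ, Kr.hd_S, Kr.tl_S, M.left_pr,
    M.right_pr, hd]
  rw [Kr.cnq_eq, Kr.chk_ok]
  · simp [he]
  · simpa [he] using hn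
  · simp [he]

theorem Kr.Ins_sbE (hn : M.le (M.S a) n) (he : M.Ev f (M.pr x y))
    (h : M.Ins n F (M.sbc a f) x) : M.Ins n F a y := by
  obtain ⟨d, hd⟩ := h
  obtain ⟨e, he⟩ := he
  refine ⟨M.cs (M.nm 4) (M.cs d e), ?_⟩
  rw [Kr.ins_nm (by norm_num)]
  simp only [insL, List.getElem_cons_zero, List.getElem_cons_succ, Kr.hd_S, Kr.tl_S, M.left_pr,
    M.right_pr, hd]
  rw [Kr.cnq_eq, Kr.chk_ok]
  · simp [he]
  · simpa [he] using hn
  · simp [he]

theorem Kr.Ins_eq (hn : M.le (M.S (M.eqc f g)) n) (h1 : M.Ev f (M.pr x y))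
    (h2 : M.Ev g (M.pr x y)) : M.Ins n F (M.eqc f g) x := by
  obtain ⟨d, hd⟩ := h1
  obtain ⟨e, he⟩ := h2
  refine ⟨M.cs (M.nm 5) (M.cs d e), ?_⟩
  rw [Kr.ins_nm (by norm_num)]
  simp only [insL, List.getElem_cons_zero, List.getElem_cons_succ, Kr.hd_S, Kr.tl_S, M.left_pr,
    M.right_pr]
  rw [Kr.cnq_eq, Kr.chk_ok]
  · simp [hd, he]
  · simpa [hd, he] using hn
  · simp [hd, he]

theorem Kr.Ins_cj (hn : M.le (M.S (M.cj a b)) n) (h1 : M.Ins n F a x) (h2 : M.Ins n F b x) :
    M.Ins n F (M.cj a b) x := by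
  obtain ⟨d, hd⟩ := h1
  obtain ⟨e, he⟩ := h2
  refine ⟨M.cs (M.nm 6) (M.cs d e), ?_⟩
  rw [Kr.ins_nm (by norm_num)]
  simp only [insL, List.getElem_cons_zero, List.getElem_cons_succ, Kr.hd_S, Kr.tl_S, M.left_pr,
    M.right_pr, hd, he]
  rw [Kr.cnq_eq, Kr.chk_ok]
  · simp
  · simpa using hn
  · simp

theorem Kr.Ins_dj1 (hn : M.le (M.S (M.dj a b)) n) (hb : M.gm b) (h : M.Ins n F a x) :
    M.Ins n F (M.dj a b) x := by
  obtain ⟨d, hd⟩ := h
  have hb : M.nfm b = b := hb
  refine ⟨M.cs (M.nm 7) (M.cs d b), ?_⟩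
  rw [Kr.ins_nm (by norm_num)]
  simp only [insL, List.getElem_cons_zero, List.getElem_cons_succ, Kr.hd_S, Kr.tl_S, M.left_pr,
    M.right_pr, hd]
  rw [Kr.chk_ok]
  · simp [hb]
  · simpa [hb] using hn

theorem Kr.Ins_dj2 (hn : M.le (M.S (M.dj a b)) n) (ha : M.gm a) (h : M.Ins n F b x) :
    M.Ins n F (M.dj a b) x := by
  obtain ⟨d, hd⟩ := h
  have ha : M.nfm a = a := ha
  refine ⟨M.cs (M.nm 8) (M.cs d a), ?_⟩
  rw [Kr.ins_nm (by norm_num)]
  simp only [insL, List.getElem_cons_zero, List.getElem_cons_succ, Kr.hd_S, Kr.tl_S, M.left_pr,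
    M.right_pr, hd]
  rw [Kr.chk_ok]
  · simp [ha]
  · simpa [ha] using hn

theorem Kr.Ins_ex (hn : M.le (M.S (M.exc a)) n) (h : M.Ins n F a (M.pr x y)) :
    M.Ins n F (M.exc a) x := by
  obtain ⟨d, hd⟩ := h
  refine ⟨M.cs (M.nm 9) (M.cs d M.zr), ?_⟩
  rw [Kr.ins_nm (by norm_num)]
  simp only [insL, List.getElem_cons_zero, List.getElem_cons_succ, Kr.hd_S, Kr.tl_S, M.left_pr,
    M.right_pr, hd]
  rw [Kr.chk_ok]
  · simp
  · simpa using hn

/-- Case distinction for the line of an instance derivation; the lines of the two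
subderivations are `r`, `s`. -/
theorem Kr.ins_cases (n F t m : M.D w) :
    (M.ins n F (M.cs t m) = M.pr M.tc M.zr) ∨
    (∃ z x, M.ins n F (M.cs t m) = M.pr z x ∧ M.le (M.S z) n ∧
    ((∃ p, M.le (M.S p) n ∧ z = M.cc p) ∨
    (z = F) ∨
    (∃ a, M.ins n F (M.hd m) = M.pr (M.im a z) x ∧ M.ins n F (M.tl m) = M.pr a x) ∨
    (∃ a f y, M.ins n F (M.hd m) = M.pr a y ∧ M.Ev f (M.pr x y) ∧ z = M.sbc a f) ∨
    (∃ f y, M.ins n F (M.hd m) = M.pr (M.sbc z f) y ∧ M.Ev f (M.pr y x)) ∨
    (∃ f g y, M.Ev f (M.pr x y) ∧ M.Ev g (M.pr x y) ∧ z = M.eqc f g) ∨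
    (∃ a b, M.ins n F (M.hd m) = M.pr a x ∧ M.ins n F (M.tl m) = M.pr b x ∧ z = M.cj a b) ∨
    (∃ a b, M.gm b ∧ M.ins n F (M.hd m) = M.pr a x ∧ z = M.dj a b) ∨
    (∃ a b, M.gm a ∧ M.ins n F (M.hd m) = M.pr b x ∧ z = M.dj a b) ∨
    (∃ a y, M.ins n F (M.hd m) = M.pr a (M.pr x y) ∧ z = M.exc a))) := by
  obtain ⟨a1, x1, h1⟩ : ∃ a1 x1, M.ins n F (M.hd m) = M.pr a1 x1 := ⟨_, _, (M.pr_eta _).symm⟩
  obtain ⟨a2, x2, h2⟩ : ∃ a2 x2, M.ins n F (M.tl m) = M.pr a2 x2 := ⟨_, _, (M.pr_eta _).symm⟩
  obtain ⟨f1, z1, k1⟩ : ∃ f1 z1, M.evc (M.hd m) = M.pr f1 z1 := ⟨_, _, (M.pr_eta _).symm⟩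
  obtain ⟨u1, v1, rfl⟩ : ∃ u1 v1, z1 = M.pr u1 v1 := ⟨_, _, (M.pr_eta _).symm⟩
  obtain ⟨f2, z2, k2⟩ : ∃ f2 z2, M.evc (M.tl m) = M.pr f2 z2 := ⟨_, _, (M.pr_eta _).symm⟩
  obtain ⟨u2, v2, rfl⟩ : ∃ u2 v2, z2 = M.pr u2 v2 := ⟨_, _, (M.pr_eta _).symm⟩
  rcases M.small_or 10 t with ⟨k, hk, rfl⟩ | ⟨b, rfl⟩
  · interval_cases k
    · have hi := M.ins_nm (n := n) (F := F) (m := m) (k := 0) (by norm_num)
      simp only [insL, List.getElem_cons_zero] at hi
      rcases M.zr_or_S (M.mon (M.S (M.hd m)) n) with e | ⟨j, e⟩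
      · have e' := Kr.mon_eq_zr.1 e
        rw [Kr.cnd_zr] at hi
        · rcases Kr.chk_or (comp conclF (comp hdF (comp left right))) (comp tlF (comp left right))
            (M.pr (M.ins n F (M.hd m)) (M.ins n F (M.tl m))) m n F with h | ⟨hl, h⟩
          · exact Or.inl (hi.trans h)
          · right
            rw [h] at hi
            simp only [M.fn_comp, M.left_pr, M.right_pr, Kr.fn_hdF, Kr.fn_tlF,
              Kr.fn_conclF] at hi hl
            exact ⟨_, _, hi, hl, Or.inl ⟨_, e', rfl⟩⟩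
        · simpa only [M.fn_comp, M.fn_pair, M.right_pr, M.left_pr, Kr.fn_monF,
            Kr.fn_hdF] using e
      · rw [Kr.cnd_S (n := j), Kr.fn_in0] at hi
        · exact Or.inl hi
        · simpa only [M.fn_comp, M.fn_pair, M.right_pr, M.left_pr, Kr.fn_monF,
            Kr.fn_hdF] using e
    · have hi := M.ins_nm (n := n) (F := F) (m := m) (k := 1) (by norm_num)
      simp only [insL, List.getElem_cons_zero, List.getElem_cons_succ] at hi
      rcases Kr.chk_or (comp right (comp right right)) (comp left right)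
            (M.pr (M.ins n F (M.hd m)) (M.ins n F (M.tl m))) m n F with h | ⟨hl, h⟩
      · exact Or.inl (hi.trans h)
      · right
        rw [h] at hi
        simp only [M.fn_comp, M.left_pr, M.right_pr] at hi hl
        exact ⟨_, _, hi, hl, Or.inr (Or.inl rfl)⟩
    · have hi := M.ins_nm (n := n) (F := F) (m := m) (k := 2) (by norm_num)
      simp only [insL, List.getElem_cons_zero, List.getElem_cons_succ] at hi
      rw [h1, h2] at hi
      by_cases e : M.pr a1 x1 = M.pr (M.nd 4 a2 (M.tl (M.tl a1))) x2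
      · rw [Kr.cnq_eq (by simpa using e)] at hi
        rcases Kr.chk_or (comp tlF (comp tlF (comp left (comp left left))))
          (comp right (comp left left)) (M.pr (M.pr a1 x1) (M.pr a2 x2)) m n F with h | ⟨hl, h⟩
        · exact Or.inl (hi.trans h)
        · right
          rw [h] at hi
          simp only [M.fn_comp, M.left_pr, M.right_pr, Kr.fn_tlF] at hi hl
          obtain ⟨e1, rfl⟩ := Kr.pr_inj e
          exact ⟨_, _, hi, hl, Or.inr (Or.inr (Or.inl ⟨a2, h1.trans (congrArg (fun u => M.pr u x1) e1), h2⟩))⟩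
      · rw [Kr.cnq_ne (by simpa using e), Kr.fn_in0] at hi
        exact Or.inl hi
    · have hi := M.ins_nm (n := n) (F := F) (m := m) (k := 3) (by norm_num)
      simp only [insL, List.getElem_cons_zero, List.getElem_cons_succ] at hi
      rw [h1, h2] at hi
      by_cases e : v2 = x1
      · rw [Kr.cnq_eq (by simpa [k2] using e)] at hi
        rcases Kr.chk_or (ndF 7 (comp left (comp left left))
            (comp left (comp evF (comp tlF (comp left right)))))
          (comp left (comp right (comp evF (comp tlF (comp left right)))))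
          (M.pr (M.pr a1 x1) (M.pr a2 x2)) m n F with h | ⟨hl, h⟩
        · exact Or.inl (hi.trans h)
        · right
          rw [h] at hi
          simp only [M.fn_comp, M.left_pr, M.right_pr, Kr.fn_tlF, Kr.fn_ndF, Kr.fn_evF,
            k2] at hi hl
          exact ⟨_, _, hi, hl, Or.inr (Or.inr (Or.inr (Or.inl ⟨a1, f2, x1, h1,
            ⟨_, by rw [k2, e]⟩, rfl⟩)))⟩
      · rw [Kr.cnq_ne (by simpa [k2] using e), Kr.fn_in0] at hi
        exact Or.inl hi
    · have hi := M.ins_nm (n := n) (F := F) (m := m) (k := 4) (by norm_num)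
      simp only [insL, List.getElem_cons_zero, List.getElem_cons_succ] at hi
      rw [h1, h2] at hi
      by_cases e : M.pr a1 x1 = M.pr (M.nd 7 (M.hd (M.tl a1)) f2) u2
      · rw [Kr.cnq_eq (by simpa [k2] using e)] at hi
        rcases Kr.chk_or (comp hdF (comp tlF (comp left (comp left left))))
          (comp right (comp right (comp evF (comp tlF (comp left right)))))
          (M.pr (M.pr a1 x1) (M.pr a2 x2)) m n F with h | ⟨hl, h⟩
        · exact Or.inl (hi.trans h)
        · right
          rw [h] at hi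
          simp only [M.fn_comp, M.left_pr, M.right_pr, Kr.fn_tlF, Kr.fn_hdF, Kr.fn_evF,
            k2] at hi hl
          obtain ⟨e1, rfl⟩ := Kr.pr_inj e
          exact ⟨_, _, hi, hl, Or.inr (Or.inr (Or.inr (Or.inr (Or.inl ⟨f2, x1,
            h1.trans (congrArg (fun u => M.pr u x1) e1), ⟨_, k2⟩⟩))))⟩
      · rw [Kr.cnq_ne (by simpa [k2] using e), Kr.fn_in0] at hi
        exact Or.inl hi
    · have hi := M.ins_nm (n := n) (F := F) (m := m) (k := 5) (by norm_num)
      simp only [insL, List.getElem_cons_zero, List.getElem_cons_succ] at hi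
      rw [h1, h2] at hi
      by_cases e : M.pr u1 v1 = M.pr u2 v2
      · rw [Kr.cnq_eq (by simpa [k1, k2] using e)] at hi
        rcases Kr.chk_or (ndF 0 (comp left (comp evF (comp hdF (comp left right))))
          (comp left (comp evF (comp tlF (comp left right)))))
          (comp left (comp right (comp evF (comp hdF (comp left right)))))
          (M.pr (M.pr a1 x1) (M.pr a2 x2)) m n F with h | ⟨hl, h⟩
        · exact Or.inl (hi.trans h)
        · right
          rw [h] at hi
          simp only [M.fn_comp, M.left_pr, M.right_pr, Kr.fn_tlF, Kr.fn_hdF, Kr.fn_ndF,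
            Kr.fn_evF, k1, k2] at hi hl
          obtain ⟨rfl, rfl⟩ := Kr.pr_inj e
          exact ⟨_, _, hi, hl, Or.inr (Or.inr (Or.inr (Or.inr (Or.inr (Or.inl ⟨f1, f2, v1,
            ⟨_, k1⟩, ⟨_, k2⟩, rfl⟩)))))⟩
      · rw [Kr.cnq_ne (by simpa [k1, k2] using e), Kr.fn_in0] at hi
        exact Or.inl hi
    · have hi := M.ins_nm (n := n) (F := F) (m := m) (k := 6) (by norm_num)
      simp only [insL, List.getElem_cons_zero, List.getElem_cons_succ] at hi
      rw [h1, h2] at hi
      by_cases e : x1 = x2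
      · rw [Kr.cnq_eq (by simpa using e)] at hi
        rcases Kr.chk_or (ndF 2 (comp left (comp left left)) (comp left (comp right left)))
          (comp right (comp left left))
          (M.pr (M.pr a1 x1) (M.pr a2 x2)) m n F with h | ⟨hl, h⟩
        · exact Or.inl (hi.trans h)
        · right
          rw [h] at hi
          simp only [M.fn_comp, M.left_pr, M.right_pr, Kr.fn_ndF] at hi hl
          subst e
          exact ⟨_, _, hi, hl, Or.inr (Or.inr (Or.inr (Or.inr (Or.inr (Or.inr (Or.inl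
            ⟨a1, a2, h1, h2, rfl⟩))))))⟩
      · rw [Kr.cnq_ne (by simpa using e), Kr.fn_in0] at hi
        exact Or.inl hi
    · have hi := M.ins_nm (n := n) (F := F) (m := m) (k := 7) (by norm_num)
      simp only [insL, List.getElem_cons_zero, List.getElem_cons_succ] at hi
      rw [h1, h2] at hi
      rcases Kr.chk_or (ndF 3 (comp left (comp left left)) (comp nfmF (comp tlF (comp left right))))
        (comp right (comp left left))
        (M.pr (M.pr a1 x1) (M.pr a2 x2)) m n F with h | ⟨hl, h⟩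
      · exact Or.inl (hi.trans h)
      · right
        rw [h] at hi
        simp only [M.fn_comp, M.left_pr, M.right_pr, Kr.fn_ndF, Kr.fn_nfmF, Kr.fn_tlF] at hi hl
        exact ⟨_, _, hi, hl, Or.inr (Or.inr (Or.inr (Or.inr (Or.inr (Or.inr (Or.inr (Or.inl
          ⟨a1, M.nfm (M.tl m), M.gm_nfm _, h1, rfl⟩)))))))⟩
    · have hi := M.ins_nm (n := n) (F := F) (m := m) (k := 8) (by norm_num)
      simp only [insL, List.getElem_cons_zero, List.getElem_cons_succ] at hi
      rw [h1, h2] at hi
      rcases Kr.chk_or (ndF 3 (comp nfmF (comp tlF (comp left right))) (comp left (comp left left)))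
        (comp right (comp left left))
        (M.pr (M.pr a1 x1) (M.pr a2 x2)) m n F with h | ⟨hl, h⟩
      · exact Or.inl (hi.trans h)
      · right
        rw [h] at hi
        simp only [M.fn_comp, M.left_pr, M.right_pr, Kr.fn_ndF, Kr.fn_nfmF, Kr.fn_tlF] at hi hl
        exact ⟨_, _, hi, hl, Or.inr (Or.inr (Or.inr (Or.inr (Or.inr (Or.inr (Or.inr (Or.inr
          (Or.inl ⟨M.nfm (M.tl m), a1, M.gm_nfm _, h1, rfl⟩))))))))⟩
    · have hi := M.ins_nm (n := n) (F := F) (m := m) (k := 9) (by norm_num)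
      simp only [insL, List.getElem_cons_zero, List.getElem_cons_succ] at hi
      rw [h1, h2] at hi
      rcases Kr.chk_or (ndF 5 (comp left (comp left left)) zero)
        (comp left (comp right (comp left left)))
        (M.pr (M.pr a1 x1) (M.pr a2 x2)) m n F with h | ⟨hl, h⟩
      · exact Or.inl (hi.trans h)
      · right
        rw [h] at hi
        simp only [M.fn_comp, M.left_pr, M.right_pr, Kr.fn_ndF, M.fn_zero] at hi hl
        exact ⟨_, _, hi, hl, Or.inr (Or.inr (Or.inr (Or.inr (Or.inr (Or.inr (Or.inr (Or.inr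
          (Or.inr ⟨a1, M.fn right x1, by rw [h1, M.pr_eta], rfl⟩))))))))⟩
  · left
    rw [Kr.ins_cs]
    have := M.sw_up (fs := insL) (d := in0)
      (a := M.pr (M.pr (M.ins n F (M.hd m)) (M.ins n F (M.tl m))) (M.pr m (M.pr n F))) (n := b)
    rw [show (insL (V := V)).length = 10 from rfl] at this
    rw [this, Kr.fn_in0]

end

end HAr
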