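import Pool.Agent.Lib.MP_61e577_lc.Ar.Ins

/-! Properties of instance provability. -/

namespace HAr

open Fn Fm

variable {V U : Type} {M : Kr V} {w : M.W} {n n' F c x : M.D w}

/-- The formula: the line is a good code. -/
theorem Kr.insp_F {n F d : M.D w} : M.F (eq (comp nfmF (comp left insF)) (comp left insF))
    (M.pr (M.pr n F) d) ↔ M.gm (M.fn left (M.ins n F d)) := by
  simp [KD.F, Kr.gm, Kr.ins]

/-- Lines are good codes. -/
theorem Kr.Ins_gm (hF : M.gm F) (h : M.Ins n F c x) : M.gm c := by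
  obtain ⟨d, hd⟩ := h
  have key := M.find (eq (comp nfmF (comp left insF)) (comp left insF)) (M.pr n F)
    (by
      rw [Kr.insp_F, Kr.ins_zr, M.left_pr]
      exact M.isAx_gm M.isAx_tc)
    (by
      intro v h t m h1 h2
      have gF := Kr.gm_mono h hF
      rw [M.tr_pr, Kr.insp_F] at h1 h2 ⊢
      rcases Kr.ins_cases (M.tr h n) (M.tr h F) t m with h3 | ⟨z, x, h3, -, h4⟩
      · rw [h3, M.left_pr]
        exact M.isAx_gm M.isAx_tc
      · rw [h3, M.left_pr]
        rcases h4 with ⟨p, -, rfl⟩ | rfl | ⟨a, h5, h6⟩ | ⟨a, f, y, h5, h6, rfl⟩ | ⟨f, y, h5, h6⟩ |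
          ⟨f, g, y, h5, h6, rfl⟩ | ⟨a, b, h5, h6, rfl⟩ | ⟨a, b, h5, h6, rfl⟩ |
          ⟨a, b, h5, h6, rfl⟩ | ⟨a, y, h5, rfl⟩
        · exact M.gm_cc p
        · exact gF
        · rw [h5, M.left_pr, Kr.gm_im] at h1
          exact h1.2
        · rw [h5, M.left_pr] at h1
          exact Kr.gm_sbc.2 ⟨h1, Kr.Ev_gf h6⟩
        · rw [h5, M.left_pr, Kr.gm_sbc] at h1
          exact h1.1
        · exact Kr.gm_eqc.2 ⟨Kr.Ev_gf h5, Kr.Ev_gf h6⟩
        · rw [h5, M.left_pr] at h1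
          rw [h6, M.left_pr] at h2
          exact Kr.gm_cj.2 ⟨h1, h2⟩
        · rw [h6, M.left_pr] at h1
          exact Kr.gm_dj.2 ⟨h1, h5⟩
        · rw [h6, M.left_pr] at h1
          exact Kr.gm_dj.2 ⟨h5, h1⟩
        · rw [h5, M.left_pr] at h1
          exact Kr.gm_exc.2 h1) d
  rw [Kr.insp_F, hd, M.left_pr] at key
  exact key

/-- Lines are small. -/
theorem Kr.Ins_lt (h : M.Ins n F c x) : c = M.tc ∨ M.le (M.S c) n := by
  obtain ⟨d, hd⟩ := h
  have hc : c = M.fn left (M.ins n F d) := by rw [hd, M.left_pr]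
  rcases M.zr_or_cs d with rfl | h1
  · left
    rw [hc, Kr.ins_zr, M.left_pr]
  · rw [h1] at hc
    rcases Kr.ins_cases n F (M.hd d) (M.tl d) with h3 | ⟨z, x, h3, h4, -⟩
    · left
      rw [hc, h3, M.left_pr]
    · right
      rw [hc, h3, M.left_pr]
      exact h4

/-- The base line. -/
theorem Kr.insp_tc (n F : M.D w) : M.Ins n F M.tc M.zr := ⟨M.zr, Kr.ins_zr n F⟩

/-- Instance provability is monotone in the bound. -/
theorem Kr.Ins_le (hn : M.le n n') (h : M.Ins n F c x) : M.Ins n' F c x := by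
  obtain ⟨d, hd⟩ := h
  have key := M.find (ex (eq (comp insF (pair (pair (comp right (comp left (comp left left)))
      (comp right (comp left left))) right))
    (comp insF (pair (pair (comp left (comp left (comp left left)))
      (comp right (comp left left))) (comp right left))))) (M.pr (M.pr n n') F)
    (by
      refine ⟨M.zr, ?_⟩
      show M.fn _ _ = M.fn _ _
      simp only [M.fn_comp, M.fn_pair, M.left_pr, M.right_pr]
      exact (Kr.ins_zr n' F).trans (Kr.ins_zr n F).symm)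
    (by
      intro v h t m h1 h2
      have hn' := Kr.le_mono h hn
      have h1 : M.Ins (M.tr h n') (M.tr h F)
          (M.fn left (M.ins (M.tr h n) (M.tr h F) (M.hd m)))
          (M.fn right (M.ins (M.tr h n) (M.tr h F) (M.hd m))) := by
        obtain ⟨e, he⟩ := h1
        have he : M.fn _ _ = M.fn _ _ := he
        simp only [M.fn_comp, M.fn_pair, M.left_pr, M.right_pr, M.tr_pr] at he
        refine ⟨e, ?_⟩
        rw [M.pr_eta]
        exact he
      have h2 : M.Ins (M.tr h n') (M.tr h F)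
          (M.fn left (M.ins (M.tr h n) (M.tr h F) (M.tl m)))
          (M.fn right (M.ins (M.tr h n) (M.tr h F) (M.tl m))) := by
        obtain ⟨e, he⟩ := h2
        have he : M.fn _ _ = M.fn _ _ := he
        simp only [M.fn_comp, M.fn_pair, M.left_pr, M.right_pr, M.tr_pr] at he
        refine ⟨e, ?_⟩
        rw [M.pr_eta]
        exact he
      suffices hs : M.Ins (M.tr h n') (M.tr h F)
          (M.fn left (M.ins (M.tr h n) (M.tr h F) (M.cs t m)))
          (M.fn right (M.ins (M.tr h n) (M.tr h F) (M.cs t m))) by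
        obtain ⟨e, he⟩ := hs
        rw [M.pr_eta] at he
        refine ⟨e, ?_⟩
        show M.fn _ _ = M.fn _ _
        simp only [M.fn_comp, M.fn_pair, M.left_pr, M.right_pr, M.tr_pr]
        exact he
      rcases Kr.ins_cases (M.tr h n) (M.tr h F) t m with h3 | ⟨z, x, h3, h4, h5⟩
      · rw [h3, M.left_pr, M.right_pr]
        exact Kr.insp_tc _ _
      · rw [h3, M.left_pr, M.right_pr]
        have h4 := M.le_trans' h4 hn'
        rcases h5 with ⟨p, h5, rfl⟩ | rfl | ⟨a, h5, h6⟩ | ⟨a, f, y, h5, h6, rfl⟩ | ⟨f, y, h5, h6⟩ |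
          ⟨f, g, y, h5, h6, rfl⟩ | ⟨a, b, h5, h6, rfl⟩ | ⟨a, b, h5, h6, rfl⟩ |
          ⟨a, b, h5, h6, rfl⟩ | ⟨a, y, h5, rfl⟩
        · exact Kr.Ins_thm (M.le_trans' h5 hn') h4 x
        · exact Kr.Ins_hyp h4 x
        · rw [h5, M.left_pr, M.right_pr] at h1
          rw [h6, M.left_pr, M.right_pr] at h2
          exact Kr.Ins_mp h4 h1 h2
        · rw [h5, M.left_pr, M.right_pr] at h1
          exact Kr.Ins_sbI h4 h6 h1
        · rw [h5, M.left_pr, M.right_pr] at h1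
          exact Kr.Ins_sbE h4 h6 h1
        · exact Kr.Ins_eq h4 h5 h6
        · rw [h5, M.left_pr, M.right_pr] at h1
          rw [h6, M.left_pr, M.right_pr] at h2
          exact Kr.Ins_cj h4 h1 h2
        · rw [h6, M.left_pr, M.right_pr] at h1
          exact Kr.Ins_dj1 h4 h5 h1
        · rw [h6, M.left_pr, M.right_pr] at h1
          exact Kr.Ins_dj2 h4 h5 h1
        · rw [h5, M.left_pr, M.right_pr] at h1
          exact Kr.Ins_ex h4 h1) d
  obtain ⟨e, he⟩ := key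
  have he : M.fn _ _ = M.fn _ _ := he
  simp only [M.fn_comp, M.fn_pair, M.left_pr, M.right_pr] at he
  exact ⟨e, he.trans hd⟩

/-- Instance provability without an assumption implies provability. -/
theorem Kr.Ins_Bx (h : M.Ins n M.tc c x) : M.Bx c x := by
  obtain ⟨d, hd⟩ := h
  have htc : ∀ {v : M.W} (y : M.D v), M.Bx M.tc y := fun y => Kr.Bx_of (Kr.Pv_ax M.isAx_tc)
  have key := M.find (prT (ndF 7 (comp left insF) (comp numF (comp right insF)))) (M.pr n M.tc)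
    (by
      rw [Kr.F_prT]
      simp only [Kr.fn_ndF, M.fn_comp, Kr.fn_numF]
      have h0 : M.fn insF (M.pr (M.pr n M.tc) M.zr) = M.pr M.tc M.zr := Kr.ins_zr n M.tc
      rw [h0, M.left_pr, M.right_pr]
      exact htc _)
    (by
      intro v h t m h1 h2
      have e0 : M.tr h (M.pr n M.tc) = M.pr (M.tr h n) M.tc := by simp
      rw [e0, Kr.F_prT] at h1 h2 ⊢
      simp only [Kr.fn_ndF, M.fn_comp, Kr.fn_numF] at h1 h2 ⊢
      have h1 : M.Bx (M.fn left (M.ins (M.tr h n) M.tc (M.hd m)))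
        (M.fn right (M.ins (M.tr h n) M.tc (M.hd m))) := h1
      have h2 : M.Bx (M.fn left (M.ins (M.tr h n) M.tc (M.tl m)))
        (M.fn right (M.ins (M.tr h n) M.tc (M.tl m))) := h2
      show M.Bx (M.fn left (M.ins (M.tr h n) M.tc (M.cs t m)))
        (M.fn right (M.ins (M.tr h n) M.tc (M.cs t m)))
      rcases Kr.ins_cases (M.tr h n) M.tc t m with h3 | ⟨z, x, h3, -, h5⟩
      · rw [h3, M.left_pr, M.right_pr]
        exact htc _
      · rw [h3, M.left_pr, M.right_pr]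
        rcases h5 with ⟨p, h5, rfl⟩ | rfl | ⟨a, h5, h6⟩ | ⟨a, f, y, h5, h6, rfl⟩ | ⟨f, y, h5, h6⟩ |
          ⟨f, g, y, h5, h6, rfl⟩ | ⟨a, b, h5, h6, rfl⟩ | ⟨a, b, h5, h6, rfl⟩ |
          ⟨a, b, h5, h6, rfl⟩ | ⟨a, y, h5, rfl⟩
        · exact Kr.Bx_of ⟨p, rfl⟩
        · exact htc _
        · rw [h5, M.left_pr, M.right_pr] at h1
          rw [h6, M.left_pr, M.right_pr] at h2
          have g1 := Kr.gm_im.1 (Kr.Bx_gm h1)
          exact Kr.Bx_K g1.1 g1.2 h1 h2
        · rw [h5, M.left_pr, M.right_pr] at h1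
          exact Kr.Bx_sb (Kr.Ev_Pe h6) h1
        · rw [h5, M.left_pr, M.right_pr] at h1
          exact Kr.Bx_of_sb (Kr.Ev_Pe h6) h1
        · exact Kr.Bx_eq (Kr.Ev_Pe h5) (Kr.Ev_Pe h6)
        · rw [h5, M.left_pr, M.right_pr] at h1
          rw [h6, M.left_pr, M.right_pr] at h2
          exact Kr.Bx_cj h1 h2
        · rw [h6, M.left_pr, M.right_pr] at h1
          exact Kr.Bx_dj (Kr.Bx_gm h1) h5 (Or.inl h1)
        · rw [h6, M.left_pr, M.right_pr] at h1
          exact Kr.Bx_dj h5 (Kr.Bx_gm h1) (Or.inr h1)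
        · rw [h5, M.left_pr, M.right_pr] at h1
          exact Kr.Bx_ex h1) d
  rw [Kr.F_prT] at key
  simp only [Kr.fn_ndF, M.fn_comp, Kr.fn_numF] at key
  have hd' : M.fn insF (M.pr (M.pr n M.tc) d) = M.pr c x := hd
  rw [hd', M.left_pr, M.right_pr] at key
  exact key

/-! ### Codes of the formulas of instance provability -/

theorem insp_li_evF : (evF : Fn Empty).li = (evF : Fn V) := rfl

theorem insp_li_in0 : (in0 : Fn Empty).li = (in0 : Fn V) := rfl

theorem insp_li_chk (f g : Fn Empty) : (chk f g).li = (chk f.li g.li : Fn V) := rfl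

theorem insp_li_insF : (insF : Fn Empty).li = (insF : Fn V) := by
  unfold insF
  simp only [li_frec, li_comp, li_sw, li_pair, li_left, li_right, insp_li_in0, insL, List.map_cons,
    List.map_nil, insp_li_chk, li_conclF, li_cnd, li_cnq, li_tlF, li_hdF, li_monF, li_succ, li_ndF,
    insp_li_evF, li_nfmF, li_zero]

theorem insp_ms_insF (r : U → Fn V) : (insF : Fn U).ms r = insF := by
  rw [← insp_li_insF, Fn.ms_li, insp_li_insF]

theorem insp_ms_evF (r : U → Fn V) : (evF : Fn U).ms r = evF := by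
  rw [← insp_li_evF, Fn.ms_li, insp_li_evF]

theorem insp_ms_insT (r : U → Fn V) (t : U → Fm V) (a b c : Fn U) :
    (insT a b c).ms r t = insT (a.ms r) (b.ms r) (c.ms r) := by
  simp only [insT, Fm.ms, Fn.ms, insp_ms_insF]

theorem insp_ms_evT (r : U → Fn V) (t : U → Fm V) (c : Fn U) :
    (evT c).ms r t = evT (c.ms r) := by
  simp only [evT, Fm.ms, Fn.ms, insp_ms_evF]

/-- The code of the formula of instance provability. -/
theorem Kr.insp_icm {ρ τ : U → M.D w} {A B C : Fn U} {n F c : M.D w}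
    (h1 : M.icf ρ A = M.num n) (h2 : M.icf ρ B = M.num F) (h3 : M.icf ρ C = M.num c) :
    M.icm ρ τ (insT A B C) = M.iC n F c := by
  have h := Kr.icm_ms ρ τ (as4 A B C C) (fun _ => eq zero zero)
    (insT (.mv 0) (.mv 1) (.mv 2) : Fm ℕ)
  rw [insp_ms_insT] at h
  refine h.trans ?_
  rw [Kr.iC]
  congr 1
  funext i
  match i with
  | 0 => exact h1
  | 1 => exact h2
  | 2 => exact h3
  | _ + 3 => exact h3

/-- The code of the completeness of traces. -/
theorem Kr.insp_evC {ρ τ : U → M.D w} {A B : Fn U} {f : M.D w} (h1 : M.icf ρ A = M.num f)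
    (h2 : M.icf ρ B = f) (hf : M.gf f) : M.Pv (M.icm ρ τ (sub (evT A) (pair idn B))) := by
  have h := Kr.icm_ms ρ τ (as4 B A B B) (fun _ => eq zero zero)
    (sub (evT (.mv 1)) (pair idn (.mv 0)) : Fm ℕ)
  rw [Fm.ms, insp_ms_evT] at h
  have e : (fun i => M.icf ρ (as4 B A B B i)) = as4 f (M.num f) f f := by
    funext i
    match i with
    | 0 => exact h2
    | 1 => exact h1
    | 2 => exact h2
    | _ + 3 => exact h2
  rw [e] at h
  have h3 : M.icm ρ τ (sub (evT A) (pair idn B)) = M.icm (as4 f (M.num f) f f) (fun _ => M.tc)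
      (sub (evT (.mv 1)) (pair idn (.mv 0)) : Fm ℕ) := h
  rw [h3]
  exact Kr.Pv_evC hf

/-- Assignments given by the first seven values. -/
def inspAs {X : Type} (c a b n F f g : X) : ℕ → X
  | 0 => c
  | 1 => a
  | 2 => b
  | 3 => n
  | 4 => F
  | 5 => f
  | _ => g

/-- The rule with five constants: a node, its components, the bound and the assumption. -/
theorem Kr.insp_rule (k : ℕ) (p q : Fn Empty) (hyps : List (Fm ℕ)) (φ : Fm ℕ)
    (hs : ∀ (N : Kr ℕ) (w : N.W) (a b n F : N.D w),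
      (∀ (v : N.W) (h : w ≤ v) (d : N.D v), N.fn (.mv 0) d = N.nd k (N.tr h a) (N.tr h b)) →
      (∀ (v : N.W) (h : w ≤ v) (d : N.D v), N.fn (.mv 1) d = N.tr h a) →
      (∀ (v : N.W) (h : w ≤ v) (d : N.D v), N.fn (.mv 2) d = N.tr h b) →
      (∀ (v : N.W) (h : w ≤ v) (d : N.D v), N.fn (.mv 3) d = N.tr h n) →
      (∀ (v : N.W) (h : w ≤ v) (d : N.D v), N.fn (.mv 4) d = N.tr h F) →
      N.le (N.S (N.nd k a b)) n → N.fn p.li (N.pr a b) = N.fn q.li (N.pr a b) →
      (∀ ψ ∈ hyps, ∀ (v : N.W) (_ : w ≤ v) (d : N.D v), N.F ψ d) → ∀ d : N.D w, N.F φ d)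
    {a b n F f g : M.D w} (hf : M.gf f) (hg : M.gf g) {τ : ℕ → M.D w} (hτ : ∀ i, M.gm (τ i))
    (hn : M.le (M.S (M.nd k a b)) n) (hpq : M.fn p.li (M.pr a b) = M.fn q.li (M.pr a b))
    (hh : ∀ ψ ∈ hyps, M.Pv (M.icm (inspAs (M.num (M.nd k a b)) (M.num a) (M.num b) (M.num n)
      (M.num F) f g) τ ψ)) :
    M.Pv (M.icm (inspAs (M.num (M.nd k a b)) (M.num a) (M.num b) (M.num n) (M.num F) f g) τ φ) := by
  refine Kr.ruleC 5 [eq left (ndF k (prj 1) (prj 2)), leT (comp succ left) (prj 3),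
      eq (comp p (pair (prj 1) (prj 2))) (comp q (pair (prj 1) (prj 2)))] hyps φ
    (by
      intro θ hθ
      simp only [List.mem_cons, List.not_mem_nil, or_false] at hθ
      rcases hθ with rfl | rfl | rfl <;> trivial) ?_ ?_ hτ
    (M.pr (M.nd k a b) (M.pr a (M.pr b (M.pr n (M.pr F M.zr))))) ?_ ?_ hh
  · intro N u e hc hθ hN d
    have h1 := hθ (eq left (ndF k (prj 1) (prj 2))) (by simp)
    have h2 := hθ (leT (comp succ left) (prj 3)) (by simp)
    have h3 := hθ (eq (comp p (pair (prj 1) (prj 2))) (comp q (pair (prj 1) (prj 2)))) (by simp)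
    have h1 : N.fn (prj 0) e = N.nd k (N.fn (prj 1) e) (N.fn (prj 2) e) := by
      simpa [KD.F, prj] using h1
    rw [li_leT, Kr.F_leT, li_comp, li_succ, li_left, li_prj, N.fn_comp] at h2
    have h2 : N.le (N.S (N.fn (prj 0) e)) (N.fn (prj 3) e) := h2
    have h3 : N.fn p.li (N.pr (N.fn (prj 1) e) (N.fn (prj 2) e)) =
        N.fn q.li (N.pr (N.fn (prj 1) e) (N.fn (prj 2) e)) := by
      simpa [KD.F, prj] using h3
    rw [h1] at h2
    refine hs N u (N.fn (prj 1) e) (N.fn (prj 2) e) (N.fn (prj 3) e) (N.fn (prj 4) e)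
      ?_ ?_ ?_ ?_ ?_ h2 h3 hN d
    · intro v h x
      rw [hc 0 (by norm_num) v h x, ← N.tr_fn, h1, N.tr_nd]
    · intro v h x
      rw [hc 1 (by norm_num) v h x, ← N.tr_fn]
    · intro v h x
      rw [hc 2 (by norm_num) v h x, ← N.tr_fn]
    · intro v h x
      rw [hc 3 (by norm_num) v h x, ← N.tr_fn]
    · intro v h x
      rw [hc 4 (by norm_num) v h x, ← N.tr_fn]
  · intro i
    match i with
    | 0 => exact Kr.gf_num _
    | 1 => exact Kr.gf_num _
    | 2 => exact Kr.gf_num _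
    | 3 => exact Kr.gf_num _
    | 4 => exact Kr.gf_num _
    | 5 => exact hf
    | _ + 6 => exact hg
  · intro i hi
    interval_cases i <;> simp [prj, inspAs]
  · intro θ hθ
    simp only [List.mem_cons, List.not_mem_nil, or_false] at hθ
    rcases hθ with rfl | rfl | rfl
    · simp [KD.F, prj]
    · rw [li_leT, Kr.F_leT]
      simpa [prj] using hn
    · simpa [KD.F, prj] using hpq

/-! ### The cases of positive formulas -/

theorem Kr.insp_eq {f g n F : M.D w} (hf : M.gf f) (hg : M.gf g)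
    (hn : M.le (M.S (M.eqc f g)) n) : M.Pv (M.im (M.eqc f g) (M.iC n F (M.eqc f g))) := by
  have := Kr.insp_rule 0 idn idn [sub (evT (.mv 1)) (pair idn (.mv 5)),
      sub (evT (.mv 2)) (pair idn (.mv 6))]
    (imp (eq (.mv 5) (.mv 6)) (insT (.mv 3) (.mv 4) (.mv 0))) ?_ (a := f) (b := g) (n := n)
    (F := F) hf hg (τ := fun _ => M.tc) (fun _ => by simp) hn rfl ?_
  · rw [Kr.icm, Kr.insp_icm (n := n) (F := F) (c := M.eqc f g) rfl rfl rfl] at this
    exact this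
  · intro N u a b n F h0 h1 h2 h3 h4 hn _ hN d v h e
    have e : N.fn (.mv 5) (N.tr h d) = N.fn (.mv 6) (N.tr h d) := e
    have a1 : N.F (evT (.mv 1)) (N.fn (pair idn (.mv 5)) (N.tr h d)) :=
      hN (sub (evT (.mv 1)) (pair idn (.mv 5))) (by simp) v h (N.tr h d)
    have a2 : N.F (evT (.mv 2)) (N.fn (pair idn (.mv 6)) (N.tr h d)) :=
      hN (sub (evT (.mv 2)) (pair idn (.mv 6))) (by simp) v h (N.tr h d)
    rw [Kr.F_evT, h1 v h, N.fn_pair, N.fn_idn] at a1
    rw [Kr.F_evT, h2 v h, N.fn_pair, N.fn_idn, ← e] at a2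
    rw [Kr.F_insT, h0 v h, h3 v h, h4 v h]
    refine Kr.Ins_eq ?_ a1 a2
    have := N.le_mono h hn
    rwa [N.tr_fn, N.tr_nd] at this
  · intro ψ hψ
    simp only [List.mem_cons, List.not_mem_nil, or_false] at hψ
    rcases hψ with rfl | rfl
    · exact Kr.insp_evC (f := f) rfl rfl hf
    · exact Kr.insp_evC (f := g) rfl rfl hg

theorem Kr.insp_bt {n F : M.D w} : M.Pv (M.im M.btc (M.iC n F M.btc)) := by
  have := Kr.rule (M := M) (w := w) [] (imp bot (insT (.mv 0) (.mv 1) (.mv 2)) : Fm ℕ)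
    (fun N u _ d v h e => e.elim) (ρ := as4 (M.num n) (M.num F) (M.num M.btc) (M.num M.btc))
    (τ := fun _ => M.tc) (Kr.gf_as4 (Kr.gf_num _) (Kr.gf_num _) (Kr.gf_num _) (Kr.gf_num _))
    (fun _ => by simp) (fun ψ hψ => absurd hψ (by simp))
  exact this

theorem Kr.insp_cj {a b n F : M.D w} (ha : M.gm a) (hb : M.gm b)
    (hn : M.le (M.S (M.cj a b)) n) (h : M.Pv (M.im a (M.iC n F a)))
    (k : M.Pv (M.im b (M.iC n F b))) : M.Pv (M.im (M.cj a b) (M.iC n F (M.cj a b))) := by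
  have := Kr.insp_rule 2 idn idn [imp (.mv 0) (insT (.mv 3) (.mv 4) (.mv 1)),
      imp (.mv 1) (insT (.mv 3) (.mv 4) (.mv 2))]
    (imp (conj (.mv 0) (.mv 1)) (insT (.mv 3) (.mv 4) (.mv 0))) ?_ (a := a) (b := b) (n := n)
    (F := F) (Kr.gf_num a) (Kr.gf_num a) (τ := as4 a b M.tc M.tc)
    (Kr.gm_as4 ha hb (by simp) (by simp)) hn rfl ?_
  · rw [Kr.icm, Kr.insp_icm (n := n) (F := F) (c := M.cj a b) rfl rfl rfl] at this
    exact this
  · intro N u a b n F h0 h1 h2 h3 h4 hn _ hN d v h e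
    have a1 := hN (imp (.mv 0) (insT (.mv 3) (.mv 4) (.mv 1))) (by simp) v h (N.tr h d) v
      (le_refl v)
    have a2 := hN (imp (.mv 1) (insT (.mv 3) (.mv 4) (.mv 2))) (by simp) v h (N.tr h d) v
      (le_refl v)
    rw [N.tr_refl, Kr.F_insT, h1 v h, h3 v h, h4 v h] at a1
    rw [N.tr_refl, Kr.F_insT, h2 v h, h3 v h, h4 v h] at a2
    rw [Kr.F_insT, h0 v h, h3 v h, h4 v h]
    refine Kr.Ins_cj ?_ (a1 e.1) (a2 e.2)
    have := N.le_mono h hn
    rwa [N.tr_fn, N.tr_nd] at this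
  · intro ψ hψ
    simp only [List.mem_cons, List.not_mem_nil, or_false] at hψ
    rcases hψ with rfl | rfl
    · rw [Kr.icm, Kr.insp_icm (n := n) (F := F) (c := a) rfl rfl rfl]; exact h
    · rw [Kr.icm, Kr.insp_icm (n := n) (F := F) (c := b) rfl rfl rfl]; exact k

theorem Kr.insp_dj {a b n F : M.D w} (ha : M.gm a) (hb : M.gm b)
    (hn : M.le (M.S (M.dj a b)) n) (h : M.Pv (M.im a (M.iC n F a)))
    (k : M.Pv (M.im b (M.iC n F b))) : M.Pv (M.im (M.dj a b) (M.iC n F (M.dj a b))) := by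
  have := Kr.insp_rule 3 (pair (comp nfmF left) (comp nfmF right)) idn
    [imp (.mv 0) (insT (.mv 3) (.mv 4) (.mv 1)), imp (.mv 1) (insT (.mv 3) (.mv 4) (.mv 2))]
    (imp (disj (.mv 0) (.mv 1)) (insT (.mv 3) (.mv 4) (.mv 0))) ?_ (a := a) (b := b) (n := n)
    (F := F) (Kr.gf_num a) (Kr.gf_num a) (τ := as4 a b M.tc M.tc)
    (Kr.gm_as4 ha hb (by simp) (by simp)) hn ?_ ?_
  · rw [Kr.icm, Kr.insp_icm (n := n) (F := F) (c := M.dj a b) rfl rfl rfl] at this
    exact this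
  · intro N u a b n F h0 h1 h2 h3 h4 hn hab hN d v h e
    have a1 := hN (imp (.mv 0) (insT (.mv 3) (.mv 4) (.mv 1))) (by simp) v h (N.tr h d) v
      (le_refl v)
    have a2 := hN (imp (.mv 1) (insT (.mv 3) (.mv 4) (.mv 2))) (by simp) v h (N.tr h d) v
      (le_refl v)
    rw [N.tr_refl, Kr.F_insT, h1 v h, h3 v h, h4 v h] at a1
    rw [N.tr_refl, Kr.F_insT, h2 v h, h3 v h, h4 v h] at a2
    rw [Kr.F_insT, h0 v h, h3 v h, h4 v h]
    have hab : N.pr (N.nfm a) (N.nfm b) = N.pr a b := by simpa using hab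
    have ga : N.nfm a = a := by simpa using congrArg (N.fn left) hab
    have gb : N.nfm b = b := by simpa using congrArg (N.fn right) hab
    have hn := N.le_mono h hn
    rw [N.tr_fn, N.tr_nd] at hn
    rcases e with e | e
    · exact Kr.Ins_dj1 hn (Kr.gm_mono h gb) (a1 e)
    · exact Kr.Ins_dj2 hn (Kr.gm_mono h ga) (a2 e)
  · have h1 : M.nfm a = a := ha
    have h2 : M.nfm b = b := hb
    simp [h1, h2]
  · intro ψ hψ
    simp only [List.mem_cons, List.not_mem_nil, or_false] at hψ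
    rcases hψ with rfl | rfl
    · rw [Kr.icm, Kr.insp_icm (n := n) (F := F) (c := a) rfl rfl rfl]; exact h
    · rw [Kr.icm, Kr.insp_icm (n := n) (F := F) (c := b) rfl rfl rfl]; exact k

theorem Kr.insp_ex {a n F : M.D w} (ha : M.gm a) (hn : M.le (M.S (M.exc a)) n)
    (h : M.Pv (M.im a (M.iC n F a))) : M.Pv (M.im (M.exc a) (M.iC n F (M.exc a))) := by
  have := Kr.insp_rule 5 right zero [imp (.mv 0) (insT (.mv 3) (.mv 4) (.mv 1))]
    (imp (ex (.mv 0)) (insT (.mv 3) (.mv 4) (.mv 0))) ?_ (a := a) (b := M.zr) (n := n)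
    (F := F) (Kr.gf_num a) (Kr.gf_num a) (τ := fun _ => a) (fun _ => ha) hn (by simp) ?_
  · rw [Kr.icm, Kr.insp_icm (n := n) (F := F) (c := M.exc a) rfl rfl rfl] at this
    exact this
  · intro N u a b n F h0 h1 h2 h3 h4 hn hb hN d v h e
    obtain ⟨y, hy⟩ := e
    have a1 := hN (imp (.mv 0) (insT (.mv 3) (.mv 4) (.mv 1))) (by simp) v h
      (N.pr (N.tr h d) y) v (le_refl v)
    rw [N.tr_refl, Kr.F_insT, h1 v h, h3 v h, h4 v h] at a1
    have hb : b = N.zr := by simpa using hb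
    rw [Kr.F_insT, h0 v h, h3 v h, h4 v h, hb, N.tr_zr]
    refine Kr.Ins_ex ?_ (a1 hy)
    have := N.le_mono h hn
    rwa [N.tr_fn, N.tr_nd, hb, N.tr_zr] at this
  · intro ψ hψ
    rw [List.mem_singleton.1 hψ]
    rw [Kr.icm, Kr.insp_icm (n := n) (F := F) (c := a) rfl rfl rfl]
    exact h

theorem Kr.insp_sb {a f n F : M.D w} (ha : M.gm a) (hf : M.gf f)
    (hn : M.le (M.S (M.sbc a f)) n) (h : M.Pv (M.im a (M.iC n F a))) :
    M.Pv (M.im (M.sbc a f) (M.iC n F (M.sbc a f))) := by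
  have := Kr.insp_rule 7 idn idn [imp (.mv 0) (insT (.mv 3) (.mv 4) (.mv 1)),
      sub (evT (.mv 2)) (pair idn (.mv 5))]
    (imp (sub (.mv 0) (.mv 5)) (insT (.mv 3) (.mv 4) (.mv 0))) ?_ (a := a) (b := f) (n := n)
    (F := F) hf hf (τ := fun _ => a) (fun _ => ha) hn rfl ?_
  · rw [Kr.icm, Kr.insp_icm (n := n) (F := F) (c := M.sbc a f) rfl rfl rfl] at this
    exact this
  · intro N u a b n F h0 h1 h2 h3 h4 hn _ hN d v h e
    have e : N.F (.mv 0) (N.fn (.mv 5) (N.tr h d)) := e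
    have a1 := hN (imp (.mv 0) (insT (.mv 3) (.mv 4) (.mv 1))) (by simp) v h
      (N.fn (.mv 5) (N.tr h d)) v (le_refl v)
    have a2 : N.F (evT (.mv 2)) (N.fn (pair idn (.mv 5)) (N.tr h d)) :=
      hN (sub (evT (.mv 2)) (pair idn (.mv 5))) (by simp) v h (N.tr h d)
    rw [N.tr_refl, Kr.F_insT, h1 v h, h3 v h, h4 v h] at a1
    rw [Kr.F_evT, h2 v h, N.fn_pair, N.fn_idn] at a2
    rw [Kr.F_insT, h0 v h, h3 v h, h4 v h]
    refine Kr.Ins_sbI ?_ a2 (a1 e)
    have := N.le_mono h hn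
    rwa [N.tr_fn, N.tr_nd] at this
  · intro ψ hψ
    simp only [List.mem_cons, List.not_mem_nil, or_false] at hψ
    rcases hψ with rfl | rfl
    · rw [Kr.icm, Kr.insp_icm (n := n) (F := F) (c := a) rfl rfl rfl]; exact h
    · exact Kr.insp_evC (f := f) rfl rfl hf

/-- The first component of a node below the bound is below the bound. -/
theorem Kr.insp_le1 {k : ℕ} {a b n : M.D w} (h : M.le (M.S (M.nd k a b)) n) :
    M.le (M.S a) n := M.le_trans' (Kr.S_le_S.2 (M.le_nd1 k a b)) h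

theorem Kr.insp_le2 {k : ℕ} {a b n : M.D w} (h : M.le (M.S (M.nd k a b)) n) :
    M.le (M.S b) n := M.le_trans' (Kr.S_le_S.2 (M.le_nd2 k a b)) h

theorem Kr.insp_pos : ∀ (φ : Fm U), φ.Pos → ∀ {ρ τ : U → M.D w}, (∀ i, M.gf (ρ i)) →
    (∀ i, M.gm (τ i)) → ∀ {n F : M.D w}, M.le (M.S (M.icm ρ τ φ)) n →
    M.Pv (M.im (M.icm ρ τ φ) (M.iC n F (M.icm ρ τ φ)))
  | .mv _, hp, _, _, _, _, _, _, _ => hp.elim
  | eq f g, _, _, _, hρ, _, _, _, hn => Kr.insp_eq (Kr.gf_icf hρ f) (Kr.gf_icf hρ g) hn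
  | bot, _, _, _, _, _, _, _, _ => Kr.insp_bt
  | conj P Q, hp, _, _, hρ, hτ, _, _, hn => Kr.insp_cj (Kr.gm_icm hρ hτ P) (Kr.gm_icm hρ hτ Q)
      hn (Kr.insp_pos P hp.1 hρ hτ (Kr.insp_le1 hn)) (Kr.insp_pos Q hp.2 hρ hτ (Kr.insp_le2 hn))
  | disj P Q, hp, _, _, hρ, hτ, _, _, hn => Kr.insp_dj (Kr.gm_icm hρ hτ P) (Kr.gm_icm hρ hτ Q)
      hn (Kr.insp_pos P hp.1 hρ hτ (Kr.insp_le1 hn)) (Kr.insp_pos Q hp.2 hρ hτ (Kr.insp_le2 hn))
  | imp _ _, hp, _, _, _, _, _, _, _ => hp.elim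
  | ex P, hp, _, _, hρ, hτ, _, _, hn => Kr.insp_ex (Kr.gm_icm hρ hτ P) hn
      (Kr.insp_pos P hp hρ hτ (Kr.insp_le1 hn))
  | all _, hp, _, _, _, _, _, _, _ => hp.elim
  | sub P f, hp, _, _, hρ, hτ, _, _, hn => Kr.insp_sb (Kr.gm_icm hρ hτ P) (Kr.gf_icf hρ f) hn
      (Kr.insp_pos P hp hρ hτ (Kr.insp_le1 hn))

/-- True positive formulas are instance provable, provably. -/
theorem Kr.Pv_posI (φ : Fm U) (hφ : φ.Pos) {ρ τ : U → M.D w} (hρ : ∀ i, M.gf (ρ i))
    (hτ : ∀ i, M.gm (τ i)) {n F : M.D w} (hF : M.gm F) (hn : M.le (M.S (M.icm ρ τ φ)) n) :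
    M.Pv (M.im (M.icm ρ τ φ) (M.iC n F (M.icm ρ τ φ))) := by
  have _ := hF
  exact Kr.insp_pos φ hφ hρ hτ hn

end HAr
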