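import Pool.Agent.Lib.MP_61e577_lc.Ar.GTm
import Pool.Agent.Lib.MP_61e577_lc.Ar.BtT

/-! Positive formulas under translations. -/

namespace HAr

open Fn Fm

variable {V U : Type} {M : Kr V} {w : M.W}

/-! ### Propositional steps -/

private theorem pos_cjm {a b a' b' : M.D w} (h : M.Pv (M.im a a')) (k : M.Pv (M.im b b')) :
    M.Pv (M.im (M.cj a b) (M.cj a' b')) :=
  Kr.q_cj (Kr.q_tr (Kr.q_fst (Kr.im_gm h).1 (Kr.im_gm k).1) h)
    (Kr.q_tr (Kr.q_snd (Kr.im_gm h).1 (Kr.im_gm k).1) k)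

private theorem pos_djm {a b a' b' : M.D w} (h : M.Pv (M.im a a')) (k : M.Pv (M.im b b')) :
    M.Pv (M.im (M.dj a b) (M.dj a' b')) :=
  Kr.q_djE (Kr.q_tr h (Kr.q_inl (Kr.im_gm h).2 (Kr.im_gm k).2))
    (Kr.q_tr k (Kr.q_inr (Kr.im_gm h).2 (Kr.im_gm k).2))

/-- Existential quantification is monotone. -/
private theorem pos_exm {a b : M.D w} (h : M.Pv (M.im a b)) :
    M.Pv (M.im (M.exc a) (M.exc b)) :=
  Kr.q1 (A := imp (.mv 0) (.mv 1)) (φ := imp (ex (.mv 0)) (ex (.mv 1)))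
    (ρ := fun _ => M.nd 0 M.zr M.zr) (τ := as4 a b b b)
    (fun _ => M.gf0) (Kr.gm_as4 (Kr.im_gm h).1 (Kr.im_gm h).2 (Kr.im_gm h).2 (Kr.im_gm h).2) h
    (fun N _ hA _ v l h => by
      obtain ⟨y, hy⟩ := h
      exact ⟨y, Kr.F_app (hA v l _) hy⟩)

/-- Distributivity. -/
private theorem pos_dst {a b r : M.D w} (ha : M.gm a) (hb : M.gm b) (hr : M.gm r) :
    M.Pv (M.im (M.cj (M.dj a r) (M.dj b r)) (M.dj (M.cj a b) r)) :=
  Kr.q0 (φ := imp (conj (disj (.mv 0) (.mv 2)) (disj (.mv 1) (.mv 2)))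
      (disj (conj (.mv 0) (.mv 1)) (.mv 2))) (ρ := fun _ => M.nd 0 M.zr M.zr)
    (τ := as4 a b r r) (fun _ => M.gf0) (Kr.gm_as4 ha hb hr hr)
    (fun N _ _ _ _ h => by
      rcases h with ⟨h1 | h1, h2 | h2⟩
      · exact Or.inl ⟨h1, h2⟩
      · exact Or.inr h2
      · exact Or.inr h1
      · exact Or.inr h1)

/-- A closed disjunct can be moved out of an existential quantification. -/
private theorem pos_exd {a r : M.D w} (ha : M.gm a)
    (k : M.Pv (M.im r (M.sbc r M.lc))) :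
    M.Pv (M.im (M.exc (M.dj a r)) (M.dj (M.exc a) r)) :=
  Kr.q1 (A := imp (.mv 1) (sub (.mv 1) left))
    (φ := imp (ex (disj (.mv 0) (.mv 1))) (disj (ex (.mv 0)) (.mv 1)))
    (ρ := fun _ => M.nd 0 M.zr M.zr) (τ := as4 a r r r)
    (fun _ => M.gf0) (Kr.gm_as4 ha (Kr.im_gm k).1 (Kr.im_gm k).1 (Kr.im_gm k).1) k
    (fun N _ hA _ v l h => by
      obtain ⟨y, hy | hy⟩ := h
      · exact Or.inl ⟨y, hy⟩
      · refine Or.inr ?_
        have h2 : N.F (.mv 1) (N.fn left _) :=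
          Kr.F_app (P := .mv 1) (Q := sub (.mv 1) left) (hA v l _) hy
        rw [N.left_pr] at h2
        exact h2)

private theorem pos_sbd {a r f : M.D w} (ha : M.gm a) (hf : M.gf f)
    (k : M.Pv (M.im (M.sbc r f) r)) :
    M.Pv (M.im (M.sbc (M.dj a r) f) (M.dj (M.sbc a f) r)) :=
  Kr.q1 (A := imp (sub (.mv 1) (.mv 0)) (.mv 1))
    (φ := imp (sub (disj (.mv 0) (.mv 1)) (.mv 0)) (disj (sub (.mv 0) (.mv 0)) (.mv 1)))
    (ρ := fun _ => f) (τ := as4 a r r r)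
    (fun _ => hf) (Kr.gm_as4 ha (Kr.im_gm k).2 (Kr.im_gm k).2 (Kr.im_gm k).2) k
    (fun N _ hA _ v l h => by
      rcases h with h | h
      · exact Or.inl h
      · exact Or.inr (Kr.F_app (hA v l _) h))

section
variable {tF BF RF : Fn V} {Sm : Fm V} {e : M.D w}

theorem TrH.pos1 (H : TrH M tF BF RF Sm e) (φ : Fm U) (hφ : φ.Pos) {ρ τ : U → M.D w}
    (hρ : ∀ i, M.gf (ρ i)) (hτ : ∀ i, M.gm (τ i)) :
    M.Pv (M.im (M.icm ρ τ φ) (M.fn tF (M.pr e (M.icm ρ τ φ)))) := by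
  induction φ with
  | mv _ => exact hφ.elim
  | eq f g =>
    have hf := Kr.gf_icf hρ f
    have hg := Kr.gf_icf hρ g
    exact Kr.q_tr (Kr.q_inl (Kr.gm_eqc.2 ⟨hf, hg⟩) H.gR) (H.T_eq2 _ _ hf hg)
  | bot =>
    exact Kr.q_bt (H.gT _ Kr.gm_btc)
  | conj P Q hP hQ =>
    have := pos_cjm (hP hφ.1) (hQ hφ.2)
    rw [← H.T_cj] at this
    exact this
  | disj P Q hP hQ =>
    have := pos_djm (hP hφ.1) (hQ hφ.2)
    rw [← H.T_dj] at this
    exact this
  | imp _ _ => exact hφ.elim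
  | ex P hP =>
    have := pos_exm (hP hφ)
    rw [← H.T_ex] at this
    exact this
  | all _ => exact hφ.elim
  | sub P f hP =>
    have := Kr.q_sb (hP hφ) (Kr.gf_icf hρ f)
    rw [← H.T_sb] at this
    exact this

theorem TrH.pos2 (H : TrH M tF BF RF Sm e) (φ : Fm U) (hφ : φ.Pos) {ρ τ : U → M.D w}
    (hρ : ∀ i, M.gf (ρ i)) (hτ : ∀ i, M.gm (τ i)) :
    M.Pv (M.im (M.fn tF (M.pr e (M.icm ρ τ φ))) (M.dj (M.icm ρ τ φ) (M.fn RF e))) := by
  induction φ with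
  | mv _ => exact hφ.elim
  | eq f g => exact H.T_eq1 _ _ (Kr.gf_icf hρ f) (Kr.gf_icf hρ g)
  | bot =>
    have := Kr.q_inr (M := M) (w := w) Kr.gm_btc H.gR
    nth_rewrite 1 [← H.T_bt] at this
    exact this
  | conj P Q hP hQ =>
    have := Kr.q_tr (pos_cjm (hP hφ.1) (hQ hφ.2))
      (pos_dst (Kr.gm_icm hρ hτ P) (Kr.gm_icm hρ hτ Q) H.gR)
    rw [← H.T_cj] at this
    exact this
  | disj P Q hP hQ =>
    have gP := Kr.gm_icm hρ hτ P
    have gQ := Kr.gm_icm hρ hτ Q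
    have := Kr.q_djE
      (Kr.q_tr (hP hφ.1) (pos_djm (Kr.q_inl gP gQ) (Kr.q_id H.gR)))
      (Kr.q_tr (hQ hφ.2) (pos_djm (Kr.q_inr gP gQ) (Kr.q_id H.gR)))
    rw [← H.T_dj] at this
    exact this
  | imp _ _ => exact hφ.elim
  | ex P hP =>
    have := Kr.q_tr (pos_exm (hP hφ)) (pos_exd (Kr.gm_icm hρ hτ P) (H.Rs2 _ M.gf3))
    rw [← H.T_ex] at this
    exact this
  | all _ => exact hφ.elim
  | sub P f hP =>
    have hf := Kr.gf_icf hρ f
    have := Kr.q_tr (Kr.q_sb (hP hφ) hf) (pos_sbd (Kr.gm_icm hρ hτ P) hf (H.Rs1 _ hf))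
    rw [← H.T_sb] at this
    exact this

end

/-! ### Positive formulas under the box translation -/

/-- Positive formulas imply their box translation. -/
theorem Kr.bt_pos1 (φ : Fm U) (hφ : φ.Pos) {ρ τ : U → M.D w}
    (hρ : ∀ i, M.gf (ρ i)) (hτ : ∀ i, M.gm (τ i)) :
    M.Pv (M.im (M.icm ρ τ φ) (M.bt (M.icm ρ τ φ))) := by
  have := (trH_bt (M.zr (w := w))).pos1 φ hφ hρ hτ
  simpa only [M.fn_comp, M.right_pr, Kr.fn_btF] using this

/-- The box translation of a positive formula implies the formula. -/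
theorem Kr.bt_pos2 (φ : Fm U) (hφ : φ.Pos) {ρ τ : U → M.D w}
    (hρ : ∀ i, M.gf (ρ i)) (hτ : ∀ i, M.gm (τ i)) :
    M.Pv (M.im (M.bt (M.icm ρ τ φ)) (M.icm ρ τ φ)) := by
  have := (trH_bt (M.zr (w := w))).pos2 φ hφ hρ hτ
  simp only [M.fn_comp, M.right_pr, Kr.fn_btF, Kr.fn_ndF, M.fn_zero] at this
  have g := Kr.gm_icm hρ hτ φ
  exact Kr.q_tr this (Kr.q_djE (Kr.q_id g) (Kr.q_bt g))

/-- Positive formulas are equivalent to their box translation. -/
theorem bx_pos (P : Fm Empty) (hP : P.Pos) : Prv (imp P (bx P)) ∧ Prv (imp (bx P) P) := by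
  have e1 : std.icm (eD std stw) (eD std stw) P = stN (encM P) := by
    rw [← Kr.nm_encM, std_nm]
  have e2 : std.bt (std.icm (eD std stw) (eD std stw) P) = stN (encM (bx P)) := by
    rw [← Kr.nm_encM, Kr.bt_enc, std_nm]
  constructor
  · rw [Prv_iff]
    have := Kr.bt_pos1 (M := std) (w := stw) P hP (ρ := eD std stw) (τ := eD std stw)
      (fun i => i.elim) (fun i => i.elim)
    rw [e2, e1, Kr.im, std_nd] at this
    exact this
  · rw [Prv_iff]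
    have := Kr.bt_pos2 (M := std) (w := stw) P hP (ρ := eD std stw) (τ := eD std stw)
      (fun i => i.elim) (fun i => i.elim)
    rw [e2, e1, Kr.im, std_nd] at this
    exact this

end HAr
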