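import Pool.Agent.Lib.MP_61e577_lc.Ar.Tn

/-! Reflection for instance provability under a translation. -/

namespace HAr

open Fn Fm

variable {V U : Type} {M : Kr V} {w : M.W}

/-- Invariance of a formula code: it implies all its instances. -/
def Kr.inv (M : Kr V) {w : M.W} (a : M.D w) : Prop :=
  M.Pv (M.im a (M.alc (M.sbc a (M.nd 4 M.zr M.zr))))

/-! ### Bounded quantification with a decidable condition -/

theorem Kr.not_S_le (a : M.D w) : ¬ M.le (M.S a) a := by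
  rintro ⟨k, hk⟩
  rw [M.S_add, ← M.add_S] at hk
  have : M.add a (M.S k) = M.add a M.zr := by rw [hk, M.add_zr]
  exact M.succ_ne _ (M.add_left_cancel this)

theorem Kr.lt_or_ge (a n : M.D w) : M.le (M.S a) n ∨ M.le n a := by
  rcases M.le_total' (M.S a) n with h | h
  · exact Or.inl h
  · rcases M.le_S_cases h with h | h
    · exact Or.inr h
    · rw [h]
      exact Or.inl (M.le_rfl' _)

/-- The condition on `(c, n)`, in the variable `(c, x)` and the constant `n`. -/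
def cdT (p q : Fn Empty) (Q : Fm ℕ) : Fm ℕ :=
  imp (eq (comp p.li (pair left (.mv 0))) (comp q.li (pair left (.mv 0)))) Q

theorem ms_cdT (p q : Fn Empty) (Q : Fm ℕ) (r : ℕ → Fn ℕ) (t : ℕ → Fm ℕ) (hr : r 0 = .mv 0) :
    (cdT p q Q).ms r t = cdT p q (Q.ms r t) := by
  simp only [cdT, Fm.ms, Fn.ms, Fn.ms_li, hr]

theorem Kr.bqs (p q : Fn Empty) {a n : M.D w} (ha : M.gm a)
    (h : ∀ (v : M.W) (k : w ≤ v) (c : M.D v), M.le (M.S c) (M.tr k n) →
      M.fn p.li (M.pr c (M.tr k n)) = M.fn q.li (M.pr c (M.tr k n)) →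
      M.Pv (M.sbc (M.tr k a) (M.atc c))) :
    M.Pv (M.icm (fun _ => M.num n) (fun _ => a)
      (imp (leT (comp succ left) (.mv 0)) (cdT p q (.mv 0)) : Fm ℕ)) := by
  have hg : M.gm (M.icm (fun _ => M.num n) (fun _ => a) (cdT p q (.mv 0))) :=
    Kr.gm_icm (fun _ => M.gf_num n) (fun _ => ha) _
  have := Kr.bq (n := n) hg (by
    intro v k c hc
    rw [Kr.tr_icm]
    simp only [Kr.tr_num]
    have fin : M.Pv (M.icm (as4 (M.num (M.tr k n)) (M.num c) (M.num c) (M.num c))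
        (fun _ => M.tr k a) (sub ((cdT p q (.mv 0)).ms (fun _ => .mv 0) (fun _ => .mv 0))
          (pair (.mv 1) idn))) → M.Pv (M.sbc (M.icm (fun _ => M.num (M.tr k n))
          (fun _ => M.tr k a) (cdT p q (.mv 0))) (M.atc c)) := by
      intro h1
      rw [Kr.icm, Kr.icm_ms] at h1
      exact h1
    refine fin ?_
    rw [ms_cdT p q (.mv 0) (fun _ => .mv 0) (fun _ => .mv 0) rfl]
    have e1 := M.eq_or_ne (M.fn p.li (M.pr c (M.tr k n))) (M.fn q.li (M.pr c (M.tr k n)))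
    rcases e1 with e1 | e1
    · have h1 := h v k c hc e1
      refine Kr.rule [sub (.mv 0) (pair (.mv 1) idn)]
        (sub (cdT p q (.mv 0)) (pair (.mv 1) idn)) ?_
        (Kr.gf_as4 (M.gf_num _) (M.gf_num _) (M.gf_num _) (M.gf_num _))
        (fun _ => Kr.gm_mono k ha) ?_
      · intro N u hN d v l _
        have := hN (sub (.mv 0) (pair (.mv 1) idn)) (by simp) u (le_refl u) d
        exact N.mono (.mv 0) l _ this
      · intro ψ hψ
        rw [List.mem_singleton.1 hψ]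
        exact h1
    · refine Kr.ruleC 2
        [ex (eq (comp dstF (pair (comp p (pair (comp (prj 1) left) (comp (prj 0) left)))
          (comp q (pair (comp (prj 1) left) (comp (prj 0) left))))) (comp succ right))] []
        (sub (cdT p q (.mv 0)) (pair (.mv 1) idn))
        (by intro θ hθ; rw [List.mem_singleton.1 hθ]; trivial)
        (by
          intro N u e hc hθ _ d v l e2
          have h2 := hθ _ (List.mem_singleton.2 rfl)
          simp only [li_ex, li_eq, li_comp, li_dstF, li_pair, li_left, li_succ, li_right,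
            li_prj] at h2
          obtain ⟨m, h2⟩ := h2
          have e2 : N.fn (comp p.li (pair left (.mv 0))) (N.tr l (N.fn (pair (.mv 1) idn) d)) =
            N.fn (comp q.li (pair left (.mv 0))) (N.tr l (N.fn (pair (.mv 1) idn) d)) := e2
          have h3 : N.dst (N.fn p.li (N.pr (N.fn (prj 1) e) (N.fn (prj 0) e)))
              (N.fn q.li (N.pr (N.fn (prj 1) e) (N.fn (prj 0) e))) = N.S m := by
            have h2 : N.F (eq _ _) (N.pr e m) := h2
            rw [Kr.F_eq] at h2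
            simpa [Kr.dst, prj] using h2
          simp only [N.fn_comp, N.fn_pair, N.tr_pr, N.left_pr, N.fn_idn] at e2
          rw [hc 0 (by norm_num) v l, hc 1 (by norm_num) u (le_refl u), N.tr_refl, ← N.tr_fn,
            ← N.tr_pr, ← N.tr_fn, ← N.tr_fn] at e2
          have h4 := congrArg (N.tr l) h3
          rw [N.tr_dst, Kr.dst_eq_zr.2 e2, N.tr_fn] at h4
          exact absurd h4.symm (N.succ_ne _))
        (Kr.gf_as4 (M.gf_num _) (M.gf_num _) (M.gf_num _) (M.gf_num _))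
        (fun _ => Kr.gm_mono k ha) (M.pr (M.tr k n) (M.pr c M.zr))
        (by
          intro i hi
          interval_cases i <;> simp [prj, as4])
        (by
          intro θ hθ
          rw [List.mem_singleton.1 hθ]
          obtain ⟨m, e1⟩ := e1
          simp only [li_ex, li_eq, li_comp, li_dstF, li_pair, li_left, li_succ, li_right, li_prj]
          refine ⟨m, ?_⟩
          show M.F (eq _ _) _
          rw [Kr.F_eq]
          simpa [Kr.dst, prj] using e1)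
        (by intro ψ hψ; exact absurd hψ (by simp)))
  exact this

/-! ### Case statements -/

/-- The code of a scheme in one formula metavariable. -/
def Kr.qc (M : Kr V) {w : M.W} (t : M.D w) (Q : Fm ℕ) : M.D w :=
  M.icm (fun _ => M.nd 0 M.zr M.zr) (fun _ => t) Q

theorem Kr.gm_qc {t : M.D w} (h : M.gm t) (Q : Fm ℕ) : M.gm (M.qc t Q) :=
  Kr.gm_icm (fun _ => M.gf0) (fun _ => h) Q

theorem Kr.tr_qc {v : M.W} (h : w ≤ v) (t : M.D w) (Q : Fm ℕ) :
    M.tr h (M.qc t Q) = M.qc (M.tr h t) Q := by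
  rw [Kr.qc, Kr.tr_icm, Kr.tr_nd, M.tr_zr]
  exact rfl

theorem Kr.icm_qc {ρ τ : ℕ → M.D w} (Q : Fm ℕ) (hQ : Q.ms (fun _ => idn) (fun _ => .mv 0) = Q) :
    M.icm ρ τ Q = M.qc (τ 0) Q := by
  have := Kr.icm_ms ρ τ (fun _ : ℕ => idn) (fun _ => .mv 0) Q
  rw [hQ] at this
  exact this

theorem Kr.F_imp2 {N : Kr U} {w : N.W} {P Q R : Fm U} {d : N.D w} : N.F (imp P (imp Q R)) d ↔
    ∀ (v : N.W) (h : w ≤ v), N.F P (N.tr h d) → N.F Q (N.tr h d) → N.F R (N.tr h d) := by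
  constructor
  · intro h v l p q
    have := h v l p v (le_refl v)
    rw [N.tr_refl] at this
    exact this q
  · intro h v l p v2 l2 q
    rw [N.tr_tr] at q ⊢
    refine h v2 (l.trans l2) ?_ q
    rw [← N.tr_tr l l2]
    exact N.mono P l2 _ p

/-- The case statements follow from statements about constants. -/
theorem Kr.qcase (k : ℕ) (Q : Fm ℕ) (hQ : Q.ms (fun _ => idn) (fun _ => .mv 0) = Q)
    (hyps : List (Fm ℕ))
    (hs : ∀ (N : Kr ℕ) (w : N.W) (a b : N.D w),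
      (∀ (v : N.W) (h : w ≤ v) (d : N.D v), N.fn (.mv 0) d = N.tr h (N.nd k a b)) →
      (∀ (v : N.W) (h : w ≤ v) (d : N.D v), N.fn (.mv 1) d = N.tr h a) →
      (∀ (v : N.W) (h : w ≤ v) (d : N.D v), N.fn (.mv 2) d = N.tr h b) →
      (∀ ψ ∈ hyps, ∀ (v : N.W) (_ : w ≤ v) (d : N.D v), N.F ψ d) →
      ∀ d : N.D w, N.F Q (N.pr (N.nd k a b) d))
    {a b f g : M.D w} (hf : M.gf f) (hg : M.gf g) {τ : ℕ → M.D w} (hτ : ∀ i, M.gm (τ i))
    (hh : ∀ ψ ∈ hyps, M.Pv (M.icm (as5 (M.num (M.nd k a b)) (M.num a) (M.num b) f g) τ ψ)) :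
    M.Pv (M.sbc (M.qc (τ 0) Q) (M.atc (M.nd k a b))) := by
  have := Kr.rule3 k idn idn hyps (sub Q (pair (.mv 0) idn)) ?_ (a := a) (b := b) hf hg hτ rfl hh
  · rw [Kr.icm, Kr.icm_qc Q hQ] at this
    exact this
  · intro N u a b h0 h1 h2 _ hN d
    show N.F Q _
    rw [N.fn_pair, N.fn_idn, h0 u (le_refl u), N.tr_refl, N.tr_refl]
    exact hs N u a b (fun v l x => by rw [h0 v l x, N.tr_nd]) h1 h2 hN d

/-- The formula metavariable `0` at a constant. -/
def at0 (i : ℕ) : Fm ℕ := sub (.mv 0) (pair (.mv i) idn)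

theorem Kr.F_at0 {N : Kr ℕ} {w : N.W} {i : ℕ} {a : N.D w}
    (h : ∀ (v : N.W) (h : w ≤ v) (d : N.D v), N.fn (.mv i) d = N.tr h a) {v : N.W} (l : w ≤ v)
    (x : N.D v) : N.F (at0 i) x ↔ N.F (.mv 0) (N.pr (N.tr l a) x) := by
  show N.F (.mv 0) (N.fn (pair (.mv i) idn) x) ↔ _
  rw [N.fn_pair, N.fn_idn, h v l]

/-- Soundness of traces, as a scheme. -/
def evS (i j : ℕ) : Fm ℕ := imp (evT (.mv j)) (eq (comp (.mv i) left) right)

theorem Kr.F_evS {N : Kr ℕ} {w : N.W} {i j : ℕ} {a : N.D w}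
    (h : ∀ (v : N.W) (h : w ≤ v) (d : N.D v), N.fn (.mv j) d = N.tr h a)
    (k : ∀ (v : N.W) (_ : w ≤ v) (d : N.D v), N.F (evS i j) d) {v : N.W} (l : w ≤ v)
    {x y : N.D v} (e : N.Ev (N.tr l a) (N.pr x y)) : N.fn (.mv i) x = y := by
  have h1 : N.F (eq (comp (.mv i) left) right) (N.pr x y) := by
    refine Kr.F_app (k v l (N.pr x y)) ?_
    rw [Kr.F_evT, h v l]
    exact e
  rw [Kr.F_eq, N.fn_comp, N.left_pr, N.right_pr] at h1
  exact h1

theorem Kr.Pv_evS' {ρ τ : ℕ → M.D w} {i j : ℕ} (hf : M.gf (ρ i)) (hj : ρ j = M.num (ρ i)) :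
    M.Pv (M.icm ρ τ (evS i j)) := by
  have h1 := Kr.Pv_evS hf
  have h2 := Kr.icm_phT ρ τ (imp (evT (.mv 1)) (eq (comp (.mv 0) left) right) : Fm ℕ)
    (.mv i) (.mv j)
  have h3 : phT (imp (evT (.mv 1)) (eq (comp (.mv 0) left) right) : Fm ℕ) (.mv i : Fn ℕ) (.mv j)
    = evS i j := rfl
  rw [h3] at h2
  rw [h2]
  show M.Pv (M.phc _ (ρ i) (ρ j))
  rw [hj]
  exact h1

/-- The first component of the code. -/
def hdL : Fn V := comp hdF (comp tlF left)

/-- The second component of the code. -/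
def tlL : Fn V := comp tlF (comp tlF left)

@[simp] theorem Kr.fn_hdL (k : ℕ) (a b x : M.D w) : M.fn hdL (M.pr (M.nd k a b) x) = a := by
  simp [hdL]

@[simp] theorem Kr.fn_tlL (k : ℕ) (a b x : M.D w) : M.fn tlL (M.pr (M.nd k a b) x) = b := by
  simp [tlL]

def Qth : Fm ℕ := sub (.mv 0) (pair (comp conclF left) right)
def Qmp : Fm ℕ := imp (.mv 0) (imp (sub (.mv 0) (pair hdL right)) (sub (.mv 0) (pair tlL right)))
def QsI : Fm ℕ := imp (evA tlL right) (imp (sub (.mv 0) (pair hdL (comp right right)))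
  (sub (.mv 0) (pair left (comp left right))))
def QsE : Fm ℕ := imp (evA tlL right) (imp (sub (.mv 0) (pair left (comp left right)))
  (sub (.mv 0) (pair hdL (comp right right))))
def Qeq : Fm ℕ := imp (evA hdL right) (imp (evA tlL right)
  (sub (.mv 0) (pair left (comp left right))))
def Qcj : Fm ℕ := imp (sub (.mv 0) (pair hdL right)) (imp (sub (.mv 0) (pair tlL right)) (.mv 0))
def Qd1 : Fm ℕ := imp (sub (.mv 0) (pair hdL right)) (.mv 0)
def Qd2 : Fm ℕ := imp (sub (.mv 0) (pair tlL right)) (.mv 0)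
def Qex : Fm ℕ := imp (sub (.mv 0) (pair hdL right)) (sub (.mv 0) (pair left (comp left right)))

section
variable {tF BF RF : Fn V} {Sm : Fm V} {e : M.D w}

theorem TrH.here (H : ∀ (v : M.W) (h : w ≤ v), TrH M tF BF RF Sm (M.tr h e)) :
    TrH M tF BF RF Sm e := by
  have := H w (le_refl w)
  rwa [M.tr_refl] at this

theorem TrH.later (H : ∀ (v : M.W) (h : w ≤ v), TrH M tF BF RF Sm (M.tr h e)) {v : M.W}
    (h : w ≤ v) : ∀ (u : M.W) (k : v ≤ u), TrH M tF BF RF Sm (M.tr k (M.tr h e)) := by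
  intro u k
  rw [M.tr_tr]
  exact H u _

theorem TrH.gtn (H : ∀ (v : M.W) (h : w ≤ v), TrH M tF BF RF Sm (M.tr h e)) (n : M.D w) :
    M.gm (M.tn tF e n) := Kr.gm_tn (fun v h a ha => (H v h).gT a ha) n

theorem TrH.Ttc (H : ∀ (v : M.W) (h : w ≤ v), TrH M tF BF RF Sm (M.tr h e)) :
    M.Pv (M.fn tF (M.pr e M.tc)) := by
  have T := TrH.here H
  refine Kr.Pv_mp (T.T_eq2 _ _ M.gf1 M.gf1) ?_
  exact Kr.Pv_mp (Kr.q_inl (Kr.gm_eqc.2 ⟨M.gf1, M.gf1⟩) T.gR) (Kr.Pv_ax M.isAx_tc)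

theorem TrH.out (H : ∀ (v : M.W) (h : w ≤ v), TrH M tF BF RF Sm (M.tr h e)) {c : M.D w}
    (hc : M.gm c) (n : M.D w) :
    M.Pv (M.im (M.sbc (M.tn tF e n) (M.atc c)) (M.fn tF (M.pr e c))) :=
  Kr.tn_out (fun v h a ha => (H v h).gT a ha) (TrH.Ttc H) hc n

theorem TrH.inn (H : ∀ (v : M.W) (h : w ≤ v), TrH M tF BF RF Sm (M.tr h e)) {c : M.D w}
    (hc : M.gm c) {n : M.D w} (hn : M.le (M.S c) n) :
    M.Pv (M.im (M.fn tF (M.pr e c)) (M.sbc (M.tn tF e n) (M.atc c))) :=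
  Kr.tn_in (fun v h a ha => (H v h).gT a ha) hc hn

theorem Kr.gm_as5 {a b c d e : M.D w} (ha : M.gm a) (hb : M.gm b) (hc : M.gm c) (hd : M.gm d)
    (he : M.gm e) : ∀ i, M.gm (as5 a b c d e i)
  | 0 => ha
  | 1 => hb
  | 2 => hc
  | 3 => hd
  | _ + 4 => he

theorem Kr.S_le_of {a b n : M.D w} (h : M.le a b) (k : M.le (M.S b) n) : M.le (M.S a) n :=
  M.le_trans' (Kr.S_le_S.2 h) k

theorem TrH.cmp (H : ∀ (v : M.W) (h : w ≤ v), TrH M tF BF RF Sm (M.tr h e)) {n a b : M.D w}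
    (hg : M.gm (M.nd 4 a b)) (hn : M.le (M.S (M.nd 4 a b)) n) :
    M.Pv (M.sbc (M.qc (M.tn tF e n) Qmp) (M.atc (M.nd 4 a b))) := by
  have T := TrH.here H
  have g2 := Kr.gm_im.1 hg
  refine Kr.qcase 4 Qmp rfl [imp (at0 0) (.mv 1), imp (at0 1) (.mv 2),
    imp (.mv 1) (conj (imp (.mv 2) (.mv 3)) (.mv 4)), imp (.mv 3) (at0 2)] ?_ M.gf0 M.gf0
    (τ := as5 (M.tn tF e n) (M.fn tF (M.pr e (M.nd 4 a b))) (M.fn tF (M.pr e a))
      (M.fn tF (M.pr e b)) (M.fn BF (M.pr e (M.nd 4 a b))))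
    (Kr.gm_as5 (TrH.gtn H n) (T.gT _ hg) (T.gT _ g2.1) (T.gT _ g2.2) (T.gB _ hg)) ?_
  · intro N u a b h0 h1 h2 hN d
    rw [Qmp, Kr.F_imp2]
    intro v l p q
    have q : N.F (.mv 0) _ := q
    show N.F (.mv 0) _
    simp only [N.tr_pr, Kr.tr_nd, N.fn_pair, N.right_pr, Kr.fn_hdL, Kr.fn_tlL] at p q ⊢
    rw [← Kr.tr_nd] at p
    rw [← Kr.F_at0 h0] at p
    rw [← Kr.F_at0 h1] at q
    rw [← Kr.F_at0 h2]
    simp only [List.forall_mem_cons] at hN
    obtain ⟨i1, i2, i3, i4, -⟩ := hN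
    exact Kr.F_app (i4 v l _) (Kr.F_app (Kr.F_app (i3 v l _) (Kr.F_app (i1 v l _) p)).1
      (Kr.F_app (i2 v l _) q))
  · intro ψ hψ
    simp only [List.mem_cons, List.not_mem_nil, or_false] at hψ
    rcases hψ with rfl | rfl | rfl | rfl
    · exact TrH.out H hg n
    · exact TrH.out H g2.1 n
    · exact T.T_im1 a b g2.1 g2.2
    · exact TrH.inn H g2.2 (Kr.S_le_of (M.le_nd2 4 a b) hn)

theorem TrH.ccj (H : ∀ (v : M.W) (h : w ≤ v), TrH M tF BF RF Sm (M.tr h e)) {n a b : M.D w}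
    (hg : M.gm (M.nd 2 a b)) (hn : M.le (M.S (M.nd 2 a b)) n) :
    M.Pv (M.sbc (M.qc (M.tn tF e n) Qcj) (M.atc (M.nd 2 a b))) := by
  have T := TrH.here H
  have g2 := Kr.gm_cj.1 hg
  refine Kr.qcase 2 Qcj rfl [imp (at0 1) (.mv 2), imp (at0 2) (.mv 3),
    imp (conj (.mv 2) (.mv 3)) (at0 0)] ?_ M.gf0 M.gf0
    (τ := as5 (M.tn tF e n) M.btc (M.fn tF (M.pr e a)) (M.fn tF (M.pr e b)) M.btc)
    (Kr.gm_as5 (TrH.gtn H n) M.gm_btc (T.gT _ g2.1) (T.gT _ g2.2) M.gm_btc) ?_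
  · intro N u a b h0 h1 h2 hN d
    rw [Qcj, Kr.F_imp2]
    intro v l p q
    have p : N.F (.mv 0) _ := p
    have q : N.F (.mv 0) _ := q
    simp only [N.tr_pr, Kr.tr_nd, N.fn_pair, N.right_pr, Kr.fn_hdL, Kr.fn_tlL] at p q ⊢
    rw [← Kr.tr_nd]
    rw [← Kr.F_at0 h1] at p
    rw [← Kr.F_at0 h2] at q
    rw [← Kr.F_at0 h0]
    simp only [List.forall_mem_cons] at hN
    obtain ⟨i1, i2, i3, -⟩ := hN
    exact Kr.F_app (i3 v l _) ⟨Kr.F_app (i1 v l _) p, Kr.F_app (i2 v l _) q⟩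
  · intro ψ hψ
    simp only [List.mem_cons, List.not_mem_nil, or_false] at hψ
    rcases hψ with rfl | rfl | rfl
    · exact TrH.out H g2.1 n
    · exact TrH.out H g2.2 n
    · have := TrH.inn H hg hn
      rw [T.T_cj] at this
      exact this

theorem TrH.cd1 (H : ∀ (v : M.W) (h : w ≤ v), TrH M tF BF RF Sm (M.tr h e)) {n a b : M.D w}
    (hg : M.gm (M.nd 3 a b)) (hn : M.le (M.S (M.nd 3 a b)) n) :
    M.Pv (M.sbc (M.qc (M.tn tF e n) Qd1) (M.atc (M.nd 3 a b))) := by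
  have T := TrH.here H
  have g2 := Kr.gm_dj.1 hg
  refine Kr.qcase 3 Qd1 rfl [imp (at0 1) (.mv 2), imp (disj (.mv 2) (.mv 3)) (at0 0)] ?_
    M.gf0 M.gf0
    (τ := as5 (M.tn tF e n) M.btc (M.fn tF (M.pr e a)) (M.fn tF (M.pr e b)) M.btc)
    (Kr.gm_as5 (TrH.gtn H n) M.gm_btc (T.gT _ g2.1) (T.gT _ g2.2) M.gm_btc) ?_
  · intro N u a b h0 h1 h2 hN d v l p
    have p : N.F (.mv 0) _ := p
    simp only [N.tr_pr, Kr.tr_nd, N.fn_pair, N.right_pr, Kr.fn_hdL] at p ⊢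
    rw [← Kr.tr_nd]
    rw [← Kr.F_at0 h1] at p
    rw [← Kr.F_at0 h0]
    simp only [List.forall_mem_cons] at hN
    obtain ⟨i1, i2, -⟩ := hN
    exact Kr.F_app (i2 v l _) (Or.inl (Kr.F_app (i1 v l _) p))
  · intro ψ hψ
    simp only [List.mem_cons, List.not_mem_nil, or_false] at hψ
    rcases hψ with rfl | rfl
    · exact TrH.out H g2.1 n
    · have := TrH.inn H hg hn
      rw [T.T_dj] at this
      exact this

theorem TrH.cd2 (H : ∀ (v : M.W) (h : w ≤ v), TrH M tF BF RF Sm (M.tr h e)) {n a b : M.D w}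
    (hg : M.gm (M.nd 3 a b)) (hn : M.le (M.S (M.nd 3 a b)) n) :
    M.Pv (M.sbc (M.qc (M.tn tF e n) Qd2) (M.atc (M.nd 3 a b))) := by
  have T := TrH.here H
  have g2 := Kr.gm_dj.1 hg
  refine Kr.qcase 3 Qd2 rfl [imp (at0 2) (.mv 3), imp (disj (.mv 2) (.mv 3)) (at0 0)] ?_
    M.gf0 M.gf0
    (τ := as5 (M.tn tF e n) M.btc (M.fn tF (M.pr e a)) (M.fn tF (M.pr e b)) M.btc)
    (Kr.gm_as5 (TrH.gtn H n) M.gm_btc (T.gT _ g2.1) (T.gT _ g2.2) M.gm_btc) ?_
  · intro N u a b h0 h1 h2 hN d v l p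
    have p : N.F (.mv 0) _ := p
    simp only [N.tr_pr, Kr.tr_nd, N.fn_pair, N.right_pr, Kr.fn_tlL] at p ⊢
    rw [← Kr.tr_nd]
    rw [← Kr.F_at0 h2] at p
    rw [← Kr.F_at0 h0]
    simp only [List.forall_mem_cons] at hN
    obtain ⟨i1, i2, -⟩ := hN
    exact Kr.F_app (i2 v l _) (Or.inr (Kr.F_app (i1 v l _) p))
  · intro ψ hψ
    simp only [List.mem_cons, List.not_mem_nil, or_false] at hψ
    rcases hψ with rfl | rfl
    · exact TrH.out H g2.2 n
    · have := TrH.inn H hg hn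
      rw [T.T_dj] at this
      exact this

theorem TrH.cex (H : ∀ (v : M.W) (h : w ≤ v), TrH M tF BF RF Sm (M.tr h e)) {n a : M.D w}
    (hg : M.gm (M.nd 5 a M.zr)) (hn : M.le (M.S (M.nd 5 a M.zr)) n) :
    M.Pv (M.sbc (M.qc (M.tn tF e n) Qex) (M.atc (M.nd 5 a M.zr))) := by
  have T := TrH.here H
  have g2 := Kr.gm_exc.1 hg
  refine Kr.qcase 5 Qex rfl [imp (at0 1) (.mv 2), imp (ex (.mv 2)) (at0 0)] ?_
    M.gf0 M.gf0
    (τ := as5 (M.tn tF e n) M.btc (M.fn tF (M.pr e a)) M.btc M.btc)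
    (Kr.gm_as5 (TrH.gtn H n) M.gm_btc (T.gT _ g2) M.gm_btc M.gm_btc) ?_
  · intro N u a b h0 h1 h2 hN d v l p
    have p : N.F (.mv 0) _ := p
    show N.F (.mv 0) _
    simp only [N.tr_pr, Kr.tr_nd, N.fn_pair, N.fn_comp, N.left_pr, N.right_pr, Kr.fn_hdL]
      at p ⊢
    rw [← Kr.tr_nd]
    rw [← Kr.F_at0 h1] at p
    rw [← Kr.F_at0 h0]
    simp only [List.forall_mem_cons] at hN
    obtain ⟨i1, i2, -⟩ := hN
    refine Kr.F_app (i2 v l _) ⟨N.fn right (N.tr l d), ?_⟩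
    rw [N.pr_eta]
    exact Kr.F_app (i1 v l _) p
  · intro ψ hψ
    simp only [List.mem_cons, List.not_mem_nil, or_false] at hψ
    rcases hψ with rfl | rfl
    · exact TrH.out H g2 n
    · have := TrH.inn H hg hn
      rw [T.T_ex] at this
      exact this

theorem TrH.csI (H : ∀ (v : M.W) (h : w ≤ v), TrH M tF BF RF Sm (M.tr h e)) {n a f : M.D w}
    (hg : M.gm (M.nd 7 a f)) (hn : M.le (M.S (M.nd 7 a f)) n) :
    M.Pv (M.sbc (M.qc (M.tn tF e n) QsI) (M.atc (M.nd 7 a f))) := by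
  have T := TrH.here H
  have g2 := Kr.gm_sbc.1 hg
  refine Kr.qcase 7 QsI rfl [imp (at0 1) (.mv 2), imp (sub (.mv 2) (.mv 3)) (at0 0), evS 3 2] ?_
    g2.2 g2.2
    (τ := as5 (M.tn tF e n) M.btc (M.fn tF (M.pr e a)) M.btc M.btc)
    (Kr.gm_as5 (TrH.gtn H n) M.gm_btc (T.gT _ g2.1) M.gm_btc M.gm_btc) ?_
  · intro N u a b h0 h1 h2 hN d
    rw [QsI, Kr.F_imp2]
    intro v l p q
    have q : N.F (.mv 0) _ := q
    show N.F (.mv 0) _
    rw [Kr.F_evA] at p
    simp only [N.tr_pr, Kr.tr_nd, N.fn_pair, N.fn_comp, N.left_pr, N.right_pr, Kr.fn_hdL,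
      Kr.fn_tlL] at p q ⊢
    rw [← N.pr_eta (N.tr l d)] at p
    simp only [List.forall_mem_cons] at hN
    obtain ⟨i1, i2, i3, -⟩ := hN
    have e1 := Kr.F_evS h2 i3 l p
    rw [← Kr.tr_nd]
    rw [← Kr.F_at0 h1] at q
    rw [← Kr.F_at0 h0]
    refine Kr.F_app (i2 v l _) ?_
    show N.F (.mv 2) _
    rw [e1]
    exact Kr.F_app (i1 v l _) q
  · intro ψ hψ
    simp only [List.mem_cons, List.not_mem_nil, or_false] at hψ
    rcases hψ with rfl | rfl | rfl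
    · exact TrH.out H g2.1 n
    · have := TrH.inn H hg hn
      rw [T.T_sb] at this
      exact this
    · exact Kr.Pv_evS' (i := 3) (j := 2) g2.2 rfl

theorem TrH.csE (H : ∀ (v : M.W) (h : w ≤ v), TrH M tF BF RF Sm (M.tr h e)) {n a f : M.D w}
    (hg : M.gm (M.nd 7 a f)) (hn : M.le (M.S (M.nd 7 a f)) n) :
    M.Pv (M.sbc (M.qc (M.tn tF e n) QsE) (M.atc (M.nd 7 a f))) := by
  have T := TrH.here H
  have g2 := Kr.gm_sbc.1 hg
  refine Kr.qcase 7 QsE rfl [imp (.mv 2) (at0 1), imp (at0 0) (sub (.mv 2) (.mv 3)), evS 3 2] ?_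
    g2.2 g2.2
    (τ := as5 (M.tn tF e n) M.btc (M.fn tF (M.pr e a)) M.btc M.btc)
    (Kr.gm_as5 (TrH.gtn H n) M.gm_btc (T.gT _ g2.1) M.gm_btc M.gm_btc) ?_
  · intro N u a b h0 h1 h2 hN d
    rw [QsE, Kr.F_imp2]
    intro v l p q
    have q : N.F (.mv 0) _ := q
    show N.F (.mv 0) _
    rw [Kr.F_evA] at p
    simp only [N.tr_pr, Kr.tr_nd, N.fn_pair, N.fn_comp, N.left_pr, N.right_pr, Kr.fn_hdL,
      Kr.fn_tlL] at p q ⊢
    rw [← N.pr_eta (N.tr l d)] at p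
    simp only [List.forall_mem_cons] at hN
    obtain ⟨i1, i2, i3, -⟩ := hN
    have e1 := Kr.F_evS h2 i3 l p
    rw [← Kr.tr_nd] at q
    rw [← Kr.F_at0 h0] at q
    rw [← Kr.F_at0 h1]
    refine Kr.F_app (i1 v l _) ?_
    have q1 := Kr.F_app (i2 v l _) q
    have q2 : N.F (.mv 2) _ := q1
    rw [e1] at q2
    exact q2
  · intro ψ hψ
    simp only [List.mem_cons, List.not_mem_nil, or_false] at hψ
    rcases hψ with rfl | rfl | rfl
    · exact TrH.inn H g2.1 (Kr.S_le_of (M.le_nd1 7 a f) hn)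
    · have := TrH.out H hg n
      rw [T.T_sb] at this
      exact this
    · exact Kr.Pv_evS' (i := 3) (j := 2) g2.2 rfl

theorem TrH.ceq (H : ∀ (v : M.W) (h : w ≤ v), TrH M tF BF RF Sm (M.tr h e)) {n f g : M.D w}
    (hg : M.gm (M.nd 0 f g)) (hn : M.le (M.S (M.nd 0 f g)) n) :
    M.Pv (M.sbc (M.qc (M.tn tF e n) Qeq) (M.atc (M.nd 0 f g))) := by
  have T := TrH.here H
  have g2 := Kr.gm_eqc.1 hg
  refine Kr.qcase 0 Qeq rfl [imp (disj (eq (.mv 3) (.mv 4)) (.mv 2)) (.mv 1),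
    imp (.mv 1) (at0 0), evS 3 1, evS 4 2] ?_ g2.1 g2.2
    (τ := as5 (M.tn tF e n) (M.fn tF (M.pr e (M.nd 0 f g))) (M.fn RF e) M.btc M.btc)
    (Kr.gm_as5 (TrH.gtn H n) (T.gT _ hg) T.gR M.gm_btc M.gm_btc) ?_
  · intro N u a b h0 h1 h2 hN d
    rw [Qeq, Kr.F_imp2]
    intro v l p q
    show N.F (.mv 0) _
    rw [Kr.F_evA] at p q
    simp only [N.tr_pr, Kr.tr_nd, N.fn_pair, N.fn_comp, N.left_pr, N.right_pr, Kr.fn_hdL,
      Kr.fn_tlL] at p q ⊢
    rw [← N.pr_eta (N.tr l d)] at p q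
    simp only [List.forall_mem_cons] at hN
    obtain ⟨i1, i2, i3, i4, -⟩ := hN
    have e1 := Kr.F_evS h1 i3 l p
    have e2 := Kr.F_evS h2 i4 l q
    rw [← Kr.tr_nd]
    rw [← Kr.F_at0 h0]
    exact Kr.F_app (i2 v l _) (Kr.F_app (i1 v l _) (Or.inl (e1.trans e2.symm)))
  · intro ψ hψ
    simp only [List.mem_cons, List.not_mem_nil, or_false] at hψ
    rcases hψ with rfl | rfl | rfl | rfl
    · exact T.T_eq2 f g g2.1 g2.2
    · exact TrH.inn H hg hn
    · exact Kr.Pv_evS' (i := 3) (j := 1) g2.1 rfl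
    · exact Kr.Pv_evS' (i := 4) (j := 2) g2.2 rfl

theorem TrH.cth (H : ∀ (v : M.W) (h : w ≤ v), TrH M tF BF RF Sm (M.tr h e)) {n p : M.D w}
    (hp : M.Pv (M.fn tF (M.pr e (M.cc p)))) (hn : M.le (M.S (M.cc p)) n) :
    M.Pv (M.sbc (M.qc (M.tn tF e n) Qth) (M.atc p)) := by
  have h1 := Kr.Pv_mp (TrH.inn H (M.gm_cc p) hn) hp
  have := Kr.ruleC (M := M) (w := w) 2 [eq (prj 1) (comp conclF (prj 0))] [at0 1]
    (sub Qth (pair (.mv 0) idn)) (by intro θ hθ; rw [List.mem_singleton.1 hθ]; trivial)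
    (by
      intro N u e hc hθ hN d
      have h1 := hθ _ (List.mem_singleton.2 rfl)
      simp only [li_eq, li_prj, li_comp, li_conclF, Kr.F_eq, N.fn_comp, Kr.fn_conclF] at h1
      have h2 := hN _ (List.mem_singleton.2 rfl) u (le_refl u) d
      rw [Kr.F_at0 (N := N) (w := u) (a := N.fn (prj 1) e)
        (fun v l x => by rw [hc 1 (by norm_num) v l x, N.tr_fn]) (le_refl u), N.tr_refl, h1] at h2
      show N.F (.mv 0) _
      simp only [N.fn_pair, N.fn_comp, N.left_pr, N.right_pr, N.fn_idn, Kr.fn_conclF]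
      rw [hc 0 (by norm_num) u (le_refl u), N.tr_refl]
      exact h2)
    (ρ := as4 (M.num p) (M.num (M.cc p)) (M.num p) (M.num p)) (τ := fun _ => M.tn tF e n)
    (Kr.gf_as4 (M.gf_num _) (M.gf_num _) (M.gf_num _) (M.gf_num _))
    (fun _ => TrH.gtn H n) (M.pr p (M.pr (M.cc p) M.zr))
    (by
      intro i hi
      interval_cases i <;> simp [prj, as4])
    (by
      intro θ hθ
      rw [List.mem_singleton.1 hθ]
      simp [Kr.F_eq, prj])
    (by
      intro ψ hψ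
      rw [List.mem_singleton.1 hψ]
      exact h1)
  rw [Kr.icm, Kr.icm_qc Qth rfl] at this
  exact this

/-! ### The case statements for all codes below the bound -/

/-- A case statement for all codes below the bound which satisfy the condition. -/
def bqT (p q : Fn Empty) (Q : Fm ℕ) : Fm ℕ := imp (leT (comp succ left) (.mv 0)) (cdT p q Q)

theorem Kr.Pv_bqT {ρ τ : ℕ → M.D w} {n : M.D w} (p q : Fn Empty) (Q : Fm ℕ)
    (hQ : Q.ms (fun _ => idn) (fun _ => .mv 0) = Q) (h0 : ρ 0 = M.num n) (hg : M.gm (τ 0))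
    (h : ∀ (v : M.W) (k : w ≤ v) (c : M.D v), M.le (M.S c) (M.tr k n) →
      M.fn p.li (M.pr c (M.tr k n)) = M.fn q.li (M.pr c (M.tr k n)) →
      M.Pv (M.sbc (M.qc (M.tr k (τ 0)) Q) (M.atc c))) : M.Pv (M.icm ρ τ (bqT p q Q)) := by
  have h1 := Kr.bqs p q (n := n) (Kr.gm_qc hg Q) (by
    intro v k c h1 h2
    rw [Kr.tr_qc]
    exact h v k c h1 h2)
  have h2 := Kr.icm_ms ρ τ (fun _ : ℕ => .mv 0) (fun _ => Q)
    (imp (leT (comp succ left) (.mv 0)) (cdT p q (.mv 0)) : Fm ℕ)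
  have h3 : (imp (leT (comp succ left) (.mv 0)) (cdT p q (.mv 0)) : Fm ℕ).ms
      (fun _ : ℕ => .mv 0) (fun _ => Q) = bqT p q Q := by
    have h4 := ms_cdT p q (.mv 0) (fun _ => .mv 0) (fun _ => Q) rfl
    show imp ((leT (comp succ left) (.mv 0)).ms _ _) ((cdT p q (.mv 0)).ms _ _) = _
    rw [h4]
    rfl
  rw [h3] at h2
  rw [h2, Kr.icm_qc Q hQ]
  show M.Pv (M.icm (fun _ => ρ 0) _ _)
  rw [h0]
  exact h1

theorem Kr.F_bqT {N : Kr ℕ} {u : N.W} {n : N.D u}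
    (hn : ∀ (v : N.W) (l : u ≤ v) (d : N.D v), N.fn (.mv 0) d = N.tr l n)
    {p q : Fn Empty} {Q : Fm ℕ} (h : ∀ (v : N.W) (_ : u ≤ v) (d : N.D v), N.F (bqT p q Q) d)
    {v : N.W} (l : u ≤ v) {c x : N.D v} (hc : N.le (N.S c) (N.tr l n))
    (hpq : N.fn p.li (N.pr c (N.tr l n)) = N.fn q.li (N.pr c (N.tr l n))) :
    N.F Q (N.pr c x) := by
  refine Kr.F_app (Kr.F_app (h v l (N.pr c x)) ?_) ?_
  · rw [Kr.F_leT, N.fn_comp, N.left_pr, hn v l]
    exact hc
  · rw [Kr.F_eq, N.fn_comp, N.fn_comp, N.fn_pair, N.left_pr, hn v l]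
    exact hpq

/-- Condition: the first component is good and a node. -/
def cndP : Fn Empty := pair (comp nfmF left) left
def cndQ (k : ℕ) : Fn Empty := pair left (ndF k hdL tlL)
def cndE : Fn Empty := pair left (ndF 5 hdL zero)
def cndT : Fn Empty := comp monF (pair (comp succ (comp conclF left)) right)

@[simp] theorem li_hdL : (hdL : Fn Empty).li = (hdL : Fn V) := rfl
@[simp] theorem li_tlL : (tlL : Fn Empty).li = (tlL : Fn V) := rfl

theorem Kr.cnd_iff (k : ℕ) (c n : M.D w) : M.fn cndP.li (M.pr c n) = M.fn (cndQ k).li (M.pr c n) ↔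
    M.gm c ∧ ∃ a b, c = M.nd k a b := by
  simp only [cndP, cndQ, li_pair, li_comp, li_nfmF, li_left, li_ndF, li_hdL, li_tlL, M.fn_pair,
    M.fn_comp, M.left_pr, Kr.fn_ndF, Kr.fn_nfmF]
  constructor
  · intro h
    have h1 := congrArg (M.fn left) h
    have h2 := congrArg (M.fn right) h
    rw [M.left_pr, M.left_pr] at h1
    rw [M.right_pr, M.right_pr] at h2
    exact ⟨h1, _, _, h2⟩
  · rintro ⟨h1, a, b, rfl⟩
    have h1 : M.nfm (M.nd k a b) = M.nd k a b := h1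
    rw [h1, Kr.fn_hdL, Kr.fn_tlL]

theorem Kr.cndE_iff (c n : M.D w) : M.fn cndP.li (M.pr c n) = M.fn cndE.li (M.pr c n) ↔
    M.gm c ∧ ∃ a, c = M.nd 5 a M.zr := by
  simp only [cndP, cndE, li_pair, li_comp, li_nfmF, li_left, li_ndF, li_hdL, li_zero, M.fn_pair,
    M.fn_comp, M.left_pr, Kr.fn_ndF, Kr.fn_nfmF, M.fn_zero]
  constructor
  · intro h
    have h1 := congrArg (M.fn left) h
    have h2 := congrArg (M.fn right) h
    rw [M.left_pr, M.left_pr] at h1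
    rw [M.right_pr, M.right_pr] at h2
    exact ⟨h1, _, h2⟩
  · rintro ⟨h1, a, rfl⟩
    have h1 : M.nfm (M.nd 5 a M.zr) = M.nd 5 a M.zr := h1
    rw [h1, Kr.fn_hdL]

theorem Kr.cndT_iff (p n : M.D w) : M.fn cndT.li (M.pr p n) = M.fn (zero : Fn Empty).li (M.pr p n) ↔
    M.le (M.S (M.cc p)) n := by
  simp only [cndT, li_pair, li_comp, li_conclF, li_left, li_right, li_zero, li_succ, li_monF,
    M.fn_pair, M.fn_comp, M.left_pr, M.right_pr, M.fn_zero, Kr.fn_conclF]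
  exact Kr.mon_eq_zr
end

/-! ### The induction in the model -/

/-- The induction on instance derivations, for a formula of the lines. -/
theorem Kr.ins_ind (N : Kr ℕ) {u : N.W} {n F : N.D u} (gF : N.gm F)
    (htc : ∀ (v : N.W) (_ : u ≤ v) (x : N.D v), N.F (.mv 0) (N.pr N.tc x))
    (hhy : ∀ (v : N.W) (l : u ≤ v) (x : N.D v), N.le (N.S (N.tr l F)) (N.tr l n) →
      N.F (.mv 0) (N.pr (N.tr l F) x))
    (hth : ∀ (v : N.W) (l : u ≤ v) (p x : N.D v), N.le (N.S p) (N.tr l n) →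
      N.le (N.S (N.cc p)) (N.tr l n) → N.F (.mv 0) (N.pr (N.cc p) x))
    (hmp : ∀ (v : N.W) (l : u ≤ v) (a b x : N.D v), N.le (N.S (N.nd 4 a b)) (N.tr l n) →
      N.gm (N.nd 4 a b) → N.F (.mv 0) (N.pr (N.nd 4 a b) x) → N.F (.mv 0) (N.pr a x) →
      N.F (.mv 0) (N.pr b x))
    (hsI : ∀ (v : N.W) (l : u ≤ v) (a f x y : N.D v), N.le (N.S (N.nd 7 a f)) (N.tr l n) →
      N.gm (N.nd 7 a f) → N.Ev f (N.pr x y) → N.F (.mv 0) (N.pr a y) →
      N.F (.mv 0) (N.pr (N.nd 7 a f) x))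
    (hsE : ∀ (v : N.W) (l : u ≤ v) (a f x y : N.D v), N.le (N.S (N.nd 7 a f)) (N.tr l n) →
      N.gm (N.nd 7 a f) → N.Ev f (N.pr x y) → N.F (.mv 0) (N.pr (N.nd 7 a f) x) →
      N.F (.mv 0) (N.pr a y))
    (heq : ∀ (v : N.W) (l : u ≤ v) (f g x y : N.D v), N.le (N.S (N.nd 0 f g)) (N.tr l n) →
      N.gm (N.nd 0 f g) → N.Ev f (N.pr x y) → N.Ev g (N.pr x y) →
      N.F (.mv 0) (N.pr (N.nd 0 f g) x))
    (hcj : ∀ (v : N.W) (l : u ≤ v) (a b x : N.D v), N.le (N.S (N.nd 2 a b)) (N.tr l n) →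
      N.gm (N.nd 2 a b) → N.F (.mv 0) (N.pr a x) → N.F (.mv 0) (N.pr b x) →
      N.F (.mv 0) (N.pr (N.nd 2 a b) x))
    (hd1 : ∀ (v : N.W) (l : u ≤ v) (a b x : N.D v), N.le (N.S (N.nd 3 a b)) (N.tr l n) →
      N.gm (N.nd 3 a b) → N.F (.mv 0) (N.pr a x) → N.F (.mv 0) (N.pr (N.nd 3 a b) x))
    (hd2 : ∀ (v : N.W) (l : u ≤ v) (a b x : N.D v), N.le (N.S (N.nd 3 a b)) (N.tr l n) →
      N.gm (N.nd 3 a b) → N.F (.mv 0) (N.pr b x) → N.F (.mv 0) (N.pr (N.nd 3 a b) x))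
    (hex : ∀ (v : N.W) (l : u ≤ v) (a x y : N.D v), N.le (N.S (N.nd 5 a N.zr)) (N.tr l n) →
      N.gm (N.nd 5 a N.zr) → N.F (.mv 0) (N.pr a (N.pr x y)) →
      N.F (.mv 0) (N.pr (N.nd 5 a N.zr) x)) (d : N.D u) :
    N.F (.mv 0) (N.ins n F d) := by
  have key := N.find (sub (.mv 0) insF) (N.pr n F)
    (by
      show N.F (.mv 0) (N.ins n F N.zr)
      rw [Kr.ins_zr]
      exact htc u (le_refl u) _)
    (by
      intro v l t m ih1 ih2
      rw [N.tr_pr] at ih1 ih2 ⊢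
      have ih1 : N.F (.mv 0) (N.ins (N.tr l n) (N.tr l F) (N.hd m)) := ih1
      have ih2 : N.F (.mv 0) (N.ins (N.tr l n) (N.tr l F) (N.tl m)) := ih2
      show N.F (.mv 0) (N.ins (N.tr l n) (N.tr l F) (N.cs t m))
      have gF2 := Kr.gm_mono l gF
      rcases N.ins_cases (N.tr l n) (N.tr l F) t m with e | ⟨z, x, e, hz, h⟩
      · rw [e]
        exact htc v l _
      · have gz : N.gm z := Kr.Ins_gm gF2 ⟨_, e⟩
        rw [e]
        rcases h with ⟨p, hp, rfl⟩ | rfl | ⟨a, e1, e2⟩ | ⟨a, f, y, e1, e2, rfl⟩ | ⟨f, y, e1, e2⟩ |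
          ⟨f, g, y, e1, e2, rfl⟩ | ⟨a, b, e1, e2, rfl⟩ | ⟨a, b, e1, e2, rfl⟩ | ⟨a, b, e1, e2, rfl⟩ |
          ⟨a, y, e1, rfl⟩
        · exact hth v l p x hp hz
        · exact hhy v l x hz
        · rw [e1] at ih1
          rw [e2] at ih2
          rcases Kr.Ins_lt ⟨_, e1⟩ with h1 | h1
          · exact absurd h1 (N.nd_ne (by norm_num) _ _ _ _)
          · exact hmp v l a z x h1 (Kr.Ins_gm gF2 ⟨_, e1⟩) ih1 ih2
        · rw [e1] at ih1
          exact hsI v l a f x y hz gz e2 ih1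
        · rw [e1] at ih1
          rcases Kr.Ins_lt ⟨_, e1⟩ with h1 | h1
          · exact absurd h1 (N.nd_ne (by norm_num) _ _ _ _)
          · exact hsE v l z f y x h1 (Kr.Ins_gm gF2 ⟨_, e1⟩) e2 ih1
        · exact heq v l f g x y hz gz e1 e2
        · rw [e1] at ih1
          rw [e2] at ih2
          exact hcj v l a b x hz gz ih1 ih2
        · rw [e2] at ih1
          exact hd1 v l a b x hz gz ih1
        · rw [e2] at ih1
          exact hd2 v l a b x hz gz ih1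
        · rw [e1] at ih1
          exact hex v l a x y hz gz ih1) d
  exact key

section
variable {tF BF RF : Fn V} {Sm : Fm V} {e : M.D w}

/-- The hypotheses of the last rule. -/
def rfH : List (Fm ℕ) := [bqT cndT zero Qth, bqT cndP (cndQ 4) Qmp, bqT cndP (cndQ 7) QsI,
  bqT cndP (cndQ 7) QsE, bqT cndP (cndQ 0) Qeq, bqT cndP (cndQ 2) Qcj, bqT cndP (cndQ 3) Qd1,
  bqT cndP (cndQ 3) Qd2, bqT cndP cndE Qex, imp (leT (comp succ (.mv 1)) (.mv 0))
    (imp (.mv 1) (at0 1)), imp (.mv 1) (all (sub (.mv 1) right)), at0 3, imp (at0 2) (.mv 2)]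

theorem rf_sem (N : Kr ℕ) (u : N.W) (n F z : N.D u)
    (h0 : ∀ (v : N.W) (l : u ≤ v) (d : N.D v), N.fn (.mv 0) d = N.tr l n)
    (h1 : ∀ (v : N.W) (l : u ≤ v) (d : N.D v), N.fn (.mv 1) d = N.tr l F)
    (h2 : ∀ (v : N.W) (l : u ≤ v) (d : N.D v), N.fn (.mv 2) d = N.tr l z)
    (h3 : ∀ (v : N.W) (l : u ≤ v) (d : N.D v), N.fn (.mv 3) d = N.tr l N.tc) (gF : N.gm F)
    (hN : ∀ ψ ∈ rfH, ∀ (v : N.W) (_ : u ≤ v) (d : N.D v), N.F ψ d) (d : N.D u) :
    N.F (imp (insT (.mv 0) (.mv 1) (.mv 2)) (imp (.mv 1) (.mv 2))) d := by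
  simp only [rfH, List.forall_mem_cons] at hN
  obtain ⟨k1, k2, k3, k4, k5, k6, k7, k8, k9, k10, k11, k12, k13, -⟩ := hN
  rw [Kr.F_imp2]
  intro v l p q
  rw [Kr.F_insT, h0 v l, h1 v l, h2 v l] at p
  obtain ⟨D, hD⟩ := p
  have all1 : ∀ (v2 : N.W) (l2 : v ≤ v2) (y : N.D v2), N.F (.mv 1) y := by
    intro v2 l2 y
    have := Kr.F_app (k11 v l _) q v2 l2 y
    have this : N.F (.mv 1) (N.fn right (N.pr _ y)) := this
    rwa [N.right_pr] at this
  have key := Kr.ins_ind N (u := v) (n := N.tr l n) (F := N.tr l F) (Kr.gm_mono l gF)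
    (by
      intro v2 l2 x
      have := k12 v2 (l.trans l2) x
      rw [Kr.F_at0 h3 (l.trans l2)] at this
      simpa using this)
    (by
      intro v2 l2 x hx
      rw [N.tr_tr, N.tr_tr] at hx
      have := Kr.F_app (Kr.F_app (k10 v2 (l.trans l2) x) (by
        rw [Kr.F_leT, N.fn_comp, h0 v2 (l.trans l2), h1 v2 (l.trans l2)]
        exact hx)) (all1 v2 l2 x)
      rw [Kr.F_at0 h1 (l.trans l2)] at this
      rw [N.tr_tr]
      exact this)
    (by
      intro v2 l2 p x h4 h5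
      rw [N.tr_tr] at h4 h5
      have := Kr.F_bqT h0 k1 (l.trans l2) (x := x) h4 ((Kr.cndT_iff _ _).2 h5)
      have this : N.F (.mv 0) _ := this
      simpa only [N.fn_pair, N.fn_comp, N.left_pr, N.right_pr, Kr.fn_conclF] using this)
    (by
      intro v2 l2 a b x h4 h5 h6 h7
      rw [N.tr_tr] at h4
      have := Kr.F_bqT h0 k2 (l.trans l2) (x := x) h4 ((Kr.cnd_iff 4 _ _).2 ⟨h5, _, _, rfl⟩)
      rw [Qmp] at this
      have := Kr.F_app (Kr.F_app this h6) (by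
        show N.F (.mv 0) _
        rw [N.fn_pair, Kr.fn_hdL, N.right_pr]
        exact h7)
      have this : N.F (.mv 0) _ := this
      rwa [N.fn_pair, Kr.fn_tlL, N.right_pr] at this)
    (by
      intro v2 l2 a f x y h4 h5 h6 h7
      rw [N.tr_tr] at h4
      have := Kr.F_bqT h0 k3 (l.trans l2) (x := N.pr x y) h4
        ((Kr.cnd_iff 7 _ _).2 ⟨h5, _, _, rfl⟩)
      rw [QsI] at this
      have := Kr.F_app (Kr.F_app this (by
        rw [Kr.F_evA, Kr.fn_tlL, N.right_pr]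
        exact h6)) (by
        show N.F (.mv 0) _
        rw [N.fn_pair, Kr.fn_hdL, N.fn_comp, N.right_pr, N.right_pr]
        exact h7)
      have this : N.F (.mv 0) _ := this
      rwa [N.fn_pair, N.fn_comp, N.left_pr, N.right_pr, N.left_pr] at this)
    (by
      intro v2 l2 a f x y h4 h5 h6 h7
      rw [N.tr_tr] at h4
      have := Kr.F_bqT h0 k4 (l.trans l2) (x := N.pr x y) h4
        ((Kr.cnd_iff 7 _ _).2 ⟨h5, _, _, rfl⟩)
      rw [QsE] at this
      have := Kr.F_app (Kr.F_app this (by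
        rw [Kr.F_evA, Kr.fn_tlL, N.right_pr]
        exact h6)) (by
        show N.F (.mv 0) _
        rw [N.fn_pair, N.fn_comp, N.left_pr, N.right_pr, N.left_pr]
        exact h7)
      have this : N.F (.mv 0) _ := this
      rwa [N.fn_pair, Kr.fn_hdL, N.fn_comp, N.right_pr, N.right_pr] at this)
    (by
      intro v2 l2 f g x y h4 h5 h6 h7
      rw [N.tr_tr] at h4
      have := Kr.F_bqT h0 k5 (l.trans l2) (x := N.pr x y) h4
        ((Kr.cnd_iff 0 _ _).2 ⟨h5, _, _, rfl⟩)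
      rw [Qeq] at this
      have := Kr.F_app (Kr.F_app this (by
        rw [Kr.F_evA, Kr.fn_hdL, N.right_pr]
        exact h6)) (by
        rw [Kr.F_evA, Kr.fn_tlL, N.right_pr]
        exact h7)
      have this : N.F (.mv 0) _ := this
      rwa [N.fn_pair, N.fn_comp, N.left_pr, N.right_pr, N.left_pr] at this)
    (by
      intro v2 l2 a b x h4 h5 h6 h7
      rw [N.tr_tr] at h4
      have := Kr.F_bqT h0 k6 (l.trans l2) (x := x) h4 ((Kr.cnd_iff 2 _ _).2 ⟨h5, _, _, rfl⟩)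
      rw [Qcj] at this
      exact Kr.F_app (Kr.F_app this (by
        show N.F (.mv 0) _
        rw [N.fn_pair, Kr.fn_hdL, N.right_pr]
        exact h6)) (by
        show N.F (.mv 0) _
        rw [N.fn_pair, Kr.fn_tlL, N.right_pr]
        exact h7))
    (by
      intro v2 l2 a b x h4 h5 h6
      rw [N.tr_tr] at h4
      have := Kr.F_bqT h0 k7 (l.trans l2) (x := x) h4 ((Kr.cnd_iff 3 _ _).2 ⟨h5, _, _, rfl⟩)
      rw [Qd1] at this
      exact Kr.F_app this (by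
        show N.F (.mv 0) _
        rw [N.fn_pair, Kr.fn_hdL, N.right_pr]
        exact h6))
    (by
      intro v2 l2 a b x h4 h5 h6
      rw [N.tr_tr] at h4
      have := Kr.F_bqT h0 k8 (l.trans l2) (x := x) h4 ((Kr.cnd_iff 3 _ _).2 ⟨h5, _, _, rfl⟩)
      rw [Qd2] at this
      exact Kr.F_app this (by
        show N.F (.mv 0) _
        rw [N.fn_pair, Kr.fn_tlL, N.right_pr]
        exact h6))
    (by
      intro v2 l2 a x y h4 h5 h6
      rw [N.tr_tr] at h4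
      have := Kr.F_bqT h0 k9 (l.trans l2) (x := N.pr x y) h4 ((Kr.cndE_iff _ _).2 ⟨h5, _, rfl⟩)
      rw [Qex] at this
      have := Kr.F_app this (by
        show N.F (.mv 0) _
        rw [N.fn_pair, Kr.fn_hdL, N.right_pr]
        exact h6)
      have this : N.F (.mv 0) _ := this
      rwa [N.fn_pair, N.fn_comp, N.left_pr, N.right_pr, N.left_pr] at this) D
  rw [hD] at key
  refine Kr.F_app (k13 v l _) ?_
  rw [Kr.F_at0 h2 l]
  exact key

theorem Kr.icm_insT {ρ τ : ℕ → M.D w} {n F z : M.D w} (h0 : ρ 0 = M.num n) (h1 : ρ 1 = M.num F)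
    (h2 : ρ 2 = M.num z) : M.icm ρ τ (insT (.mv 0) (.mv 1) (.mv 2)) = M.iC n F z := by
  have h := Kr.icm_ms ρ τ (as4 (.mv 0) (.mv 1) (.mv 2) (.mv 2)) (fun _ => eq zero zero)
    (insT (.mv 0) (.mv 1) (.mv 2) : Fm ℕ)
  have h3 : (insT (.mv 0) (.mv 1) (.mv 2) : Fm ℕ).ms (as4 (.mv 0) (.mv 1) (.mv 2) (.mv 2))
    (fun _ => eq zero zero) = (insT (.mv 0) (.mv 1) (.mv 2) : Fm ℕ) := rfl
  rw [h3] at h
  rw [h, as4_map (M.icf ρ)]
  show M.icm (as4 (ρ 0) (ρ 1) (ρ 2) (ρ 2)) _ _ = _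
  rw [h0, h1, h2]
  rfl

/-- Reflection: instance provability of `z` from `F` implies that the translation of `F` implies
the translation of `z`. -/
theorem TrH.refl (H : ∀ (v : M.W) (h : w ≤ v), TrH M tF BF RF Sm (M.tr h e)) {n F z : M.D w}
    (hF : M.gm F) (hi : M.inv (M.fn tF (M.pr e F)))
    (hp : ∀ (v : M.W) (h : w ≤ v) (p : M.D v), M.le (M.S p) (M.tr h n) →
      M.le (M.S (M.cc p)) (M.tr h n) → M.Pv (M.fn tF (M.pr (M.tr h e) (M.cc p))))
    (hz : M.gm z) :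
    M.Pv (M.im (M.iC n F z) (M.im (M.fn tF (M.pr e F)) (M.fn tF (M.pr e z)))) := by
  have T := TrH.here H
  have gt := TrH.gtn H n
  have hρ : ∀ i, M.gf (as4 (M.num n) (M.num F) (M.num z) (M.num M.tc) i) :=
    Kr.gf_as4 (M.gf_num _) (M.gf_num _) (M.gf_num _) (M.gf_num _)
  have hτ : ∀ i, M.gm (as4 (M.tn tF e n) (M.fn tF (M.pr e F)) (M.fn tF (M.pr e z))
      (M.fn tF (M.pr e z)) i) := Kr.gm_as4 gt (T.gT _ hF) (T.gT _ hz) (T.gT _ hz)
  have bq : ∀ (p q : Fn Empty) (Q : Fm ℕ) (_ : Q.ms (fun _ => idn) (fun _ => .mv 0) = Q)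
      (_ : ∀ (v : M.W) (k : w ≤ v) (c : M.D v), M.le (M.S c) (M.tr k n) →
      M.fn p.li (M.pr c (M.tr k n)) = M.fn q.li (M.pr c (M.tr k n)) →
      M.Pv (M.sbc (M.qc (M.tn tF (M.tr k e) (M.tr k n)) Q) (M.atc c))),
      M.Pv (M.icm (as4 (M.num n) (M.num F) (M.num z) (M.num M.tc)) (as4 (M.tn tF e n)
        (M.fn tF (M.pr e F)) (M.fn tF (M.pr e z)) (M.fn tF (M.pr e z))) (bqT p q Q)) := by
    intro p q Q hQ h
    refine Kr.Pv_bqT p q Q hQ rfl gt ?_
    intro v k c h1 h2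
    show M.Pv (M.sbc (M.qc (M.tr k (M.tn tF e n)) Q) (M.atc c))
    rw [Kr.tr_tn]
    exact h v k c h1 h2
  have nd : ∀ (k : ℕ) (Q : Fm ℕ) (_ : Q.ms (fun _ => idn) (fun _ => .mv 0) = Q)
      (_ : ∀ (v : M.W) (l : w ≤ v) (a b : M.D v), M.gm (M.nd k a b) →
      M.le (M.S (M.nd k a b)) (M.tr l n) →
      M.Pv (M.sbc (M.qc (M.tn tF (M.tr l e) (M.tr l n)) Q) (M.atc (M.nd k a b)))),
      M.Pv (M.icm (as4 (M.num n) (M.num F) (M.num z) (M.num M.tc)) (as4 (M.tn tF e n)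
        (M.fn tF (M.pr e F)) (M.fn tF (M.pr e z)) (M.fn tF (M.pr e z)))
        (bqT cndP (cndQ k) Q)) := by
    intro k Q hQ h
    refine bq _ _ Q hQ ?_
    intro v l c h1 h2
    obtain ⟨g, a, b, rfl⟩ := (Kr.cnd_iff k _ _).1 h2
    exact h v l a b g h1
  have := Kr.ruleC (M := M) (w := w) 4 [eq (prj 3) topF, eq (comp nfmF (prj 1)) (prj 1)] rfH
    (imp (insT (.mv 0) (.mv 1) (.mv 2)) (imp (.mv 1) (.mv 2)))
    (by
      intro θ hθ
      simp only [List.mem_cons, List.not_mem_nil, or_false] at hθ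
      rcases hθ with rfl | rfl <;> trivial)
    (by
      intro N u e hc hθ hN d
      have f1 := hθ (eq (prj 3) topF) (by simp)
      have f2 := hθ (eq (comp nfmF (prj 1)) (prj 1)) (by simp)
      simp only [li_eq, li_prj, li_comp, li_topF, li_nfmF, Kr.F_eq, N.fn_comp, Kr.fn_topF,
        Kr.fn_nfmF] at f1 f2
      exact rf_sem N u (N.fn (prj 0) e) (N.fn (prj 1) e) (N.fn (prj 2) e)
        (fun v l x => by rw [hc 0 (by norm_num) v l x, N.tr_fn])
        (fun v l x => by rw [hc 1 (by norm_num) v l x, N.tr_fn])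
        (fun v l x => by rw [hc 2 (by norm_num) v l x, N.tr_fn])
        (fun v l x => by rw [hc 3 (by norm_num) v l x, ← N.tr_fn, f1]) f2 hN d)
    hρ hτ (M.sq4 n F z M.tc)
    (by
      intro i hi
      interval_cases i <;> simp [prj, as4, Kr.sq4])
    (by
      intro θ hθ
      simp only [List.mem_cons, List.not_mem_nil, or_false] at hθ
      rcases hθ with rfl | rfl
      · simp [Kr.F_eq, prj, Kr.sq4]
      · have hF : M.nfm F = F := hF
        simp [Kr.F_eq, prj, Kr.sq4, hF])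
    (by
      simp only [rfH, List.forall_mem_cons]
      refine ⟨?_, ?_, ?_, ?_, ?_, ?_, ?_, ?_, ?_, ?_, ?_, ?_, ?_, ?_⟩
      · refine bq _ _ Qth rfl ?_
        intro v k c h1 h2
        have h2 := (Kr.cndT_iff _ _).1 h2
        exact TrH.cth (TrH.later H k) (hp v k c h1 h2) h2
      · exact nd 4 Qmp rfl (fun v l a b g h => TrH.cmp (TrH.later H l) g h)
      · exact nd 7 QsI rfl (fun v l a b g h => TrH.csI (TrH.later H l) g h)
      · exact nd 7 QsE rfl (fun v l a b g h => TrH.csE (TrH.later H l) g h)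
      · exact nd 0 Qeq rfl (fun v l a b g h => TrH.ceq (TrH.later H l) g h)
      · exact nd 2 Qcj rfl (fun v l a b g h => TrH.ccj (TrH.later H l) g h)
      · exact nd 3 Qd1 rfl (fun v l a b g h => TrH.cd1 (TrH.later H l) g h)
      · exact nd 3 Qd2 rfl (fun v l a b g h => TrH.cd2 (TrH.later H l) g h)
      · refine bq _ _ Qex rfl ?_
        intro v k c h1 h2
        obtain ⟨g, a, rfl⟩ := (Kr.cndE_iff _ _).1 h2
        exact TrH.cex (TrH.later H k) g h1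
      · rcases M.lt_or_ge F n with h | h
        · refine Kr.rule [imp (.mv 1) (at0 1)] _ ?_ hρ hτ ?_
          · intro N u hN d v l _
            exact N.mono _ l _ (hN _ (List.mem_singleton.2 rfl) u (le_refl u) d)
          · intro ψ hψ
            rw [List.mem_singleton.1 hψ]
            exact TrH.inn H hF h
        · refine Kr.ruleC 2 [leT (prj 0) (prj 1)] [] _ ?_ ?_ hρ hτ (M.sq4 n F z M.tc) ?_ ?_ ?_
          · intro θ hθ
            rw [List.mem_singleton.1 hθ]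
            trivial
          · intro N u e hc hθ _ d v l h1
            have f1 := hθ _ (List.mem_singleton.2 rfl)
            rw [li_leT, Kr.F_leT, li_prj, li_prj] at f1
            have f2 := Kr.le_mono l f1
            rw [N.tr_fn, N.tr_fn] at f2
            rw [Kr.F_leT, N.fn_comp, hc 0 (by norm_num) v l, hc 1 (by norm_num) v l] at h1
            exact absurd (N.le_trans' h1 f2) (N.not_S_le _)
          · intro i hi
            interval_cases i <;> simp [prj, as4, Kr.sq4]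
          · intro θ hθ
            rw [List.mem_singleton.1 hθ, li_leT, Kr.F_leT]
            simpa [prj, Kr.sq4] using h
          · intro ψ hψ
            exact absurd hψ (by simp)
      · exact hi
      · exact Kr.tn_tc (fun v h a ha => (H v h).gT a ha) n
      · exact TrH.out H hz n
      · intro ψ hψ
        exact absurd hψ (by simp))
  have this : M.Pv (M.im (M.icm (as4 (M.num n) (M.num F) (M.num z) (M.num M.tc))
      (as4 (M.tn tF e n) (M.fn tF (M.pr e F)) (M.fn tF (M.pr e z)) (M.fn tF (M.pr e z)))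
      (insT (.mv 0) (.mv 1) (.mv 2))) (M.im (M.fn tF (M.pr e F)) (M.fn tF (M.pr e z)))) := this
  rw [Kr.icm_insT rfl rfl rfl] at this
  exact this

end

end HAr
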