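import Pool.Agent.Lib.MP_61e577_lc.Ar.BtT
import Pool.Agent.Lib.MP_61e577_lc.Ar.Refl
import Pool.Agent.Lib.MP_61e577_lc.Ar.Pos
import Pool.Agent.Lib.MP_61e577_lc.Syn

/-! HA* and the arithmetical interpretations of modal formulas. -/

namespace HAr

open Fn Fm

variable {V U : Type} {M : Kr V} {w : M.W}

theorem HAst.of {P : Fm Empty} (h : Prv P) : HAst P := h.bx

theorem HAst.mp {P Q : Fm Empty} (h : HAst (imp P Q)) (k : HAst P) : HAst Q :=
  Prv.mp (Prv.mp (Prv.ax (Ax.andL _ _)) h) k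

/-- Invariance: the formula does not depend on the argument. -/
def Inv (P : Fm V) : Prop := Prv (imp P (all (sub P right)))

/-! ### Independence of the argument -/

/-- Semantic independence of the argument. -/
def ItpInd (P : Fm Empty) : Prop :=
  ∀ (N : Kr Empty) (w : N.W) (d e : N.D w), N.F P d → N.F P e

theorem ItpInd.inv {P : Fm Empty} (h : ItpInd P) : Inv P := by
  refine complete fun N w d v k h1 u l e => ?_
  exact h N u _ _ (N.mono P l _ h1)

theorem ItpInd.imp {P Q : Fm Empty} (hP : ItpInd P) (hQ : ItpInd Q) : ItpInd (imp P Q) :=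
  fun N _ _ _ h v l h1 => hQ N v _ _ (h v l (hP N v _ _ h1))

theorem itp_ind (σ : ℕ → Fm Empty) (A : HAs.Form) : ItpInd (itp σ A) := by
  induction A with
  | atom n =>
    intro N w d e h
    have h : N.F (σ n) (N.fn zero d) := h
    show N.F (σ n) (N.fn zero e)
    rw [N.fn_zero] at h ⊢
    exact h
  | bot => exact fun _ _ _ _ h => h
  | conj A B hA hB => exact fun N w d e h => ⟨hA N w d e h.1, hB N w d e h.2⟩
  | disj A B hA hB =>
    exact fun N w d e h => h.elim (fun h => Or.inl (hA N w d e h)) fun h => Or.inr (hB N w d e h)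
  | imp A B hA hB => exact hA.imp hB
  | box A _ =>
    intro N w d e h
    have h : N.F prS (N.fn (cst (encM (itp σ A))) d) := h
    show N.F prS (N.fn (cst (encM (itp σ A))) e)
    rw [Kr.fn_cst] at h ⊢
    exact h

theorem inv_itp (σ : ℕ → Fm Empty) (A : HAs.Form) : Inv (itp σ A) := (itp_ind σ A).inv

/-- Invariant formulas which are provable at an argument are provable. -/
theorem Kr.itp_un {a f : M.D w} (hf : M.gf f) (hi : M.inv a) (h : M.Pv (M.sbc a f)) :
    M.Pv a :=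
  Kr.q2 (A := Fm.imp (.mv 0) (all (sub (.mv 0) right))) (B := sub (.mv 0) (.mv 0))
    (φ := (.mv 0)) (ρ := fun _ => f) (τ := fun _ => a) (fun _ => hf)
    (fun _ => (Kr.im_gm hi).1) hi h
    (fun _ u hA hB d => Kr.F_all'.1 (Kr.F_app (P := .mv 0) (hA u (le_refl u) _)
      (hB u (le_refl u) d)) u (le_refl u) d)

theorem Kr.itp_inv {P : Fm Empty} (h : Inv P) : M.inv (M.nm (w := w) (encM P)) := by
  have h1 := Kr.Pv_enc h (M := M) (w := w)
  simp only [encM, encF, Kr.nm_ndN] at h1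
  exact h1

theorem Kr.itp_Bx {P : Fm Empty} (h : Inv P) {x : M.D w} :
    M.Bx (M.nm (encM P)) x ↔ M.Pv (M.nm (w := w) (encM P)) :=
  ⟨fun h1 => Kr.itp_un (M.gf_num x) (Kr.itp_inv h) h1, fun h1 => Kr.Bx_of h1⟩

theorem itp_ind_bxT {P : Fm Empty} (h : Inv P) : ItpInd (bxT (cst (encM P))) := by
  intro N w d e h1
  rw [Kr.F_bxT, Kr.fn_cst, Kr.itp_Bx h] at h1 ⊢
  exact h1

theorem itp_ind_bx (σ : ℕ → Fm Empty) (A : HAs.Form) : ItpInd (bx (itp σ A)) := by
  induction A with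
  | atom n =>
    intro N w d e h
    have h : N.F (bx (σ n)) (N.fn zero d) := h
    show N.F (bx (σ n)) (N.fn zero e)
    rw [N.fn_zero] at h ⊢
    exact h
  | bot => exact fun _ _ _ _ h => h
  | conj A B hA hB => exact fun N w d e h => ⟨hA N w d e h.1, hB N w d e h.2⟩
  | disj A B hA hB =>
    exact fun N w d e h => h.elim (fun h => Or.inl (hA N w d e h)) fun h => Or.inr (hB N w d e h)
  | imp A B hA hB =>
    exact fun N w d e h => ⟨hA.imp hB N w d e h.1, itp_ind_bxT (hA.imp hB).inv N w d e h.2⟩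
  | box A _ =>
    intro N w d e h
    have h : N.F (bx prS) (N.fn (cst (encM (itp σ A))) d) := h
    show N.F (bx prS) (N.fn (cst (encM (itp σ A))) e)
    rw [Kr.fn_cst] at h ⊢
    exact h

theorem inv_bx (σ : ℕ → Fm Empty) (A : HAs.Form) : Inv (bx (itp σ A)) := (itp_ind_bx σ A).inv

/-- The code of the box translation of the interpretation of `A`. -/
def Kr.am (M : Kr V) {w : M.W} (σ : ℕ → Fm Empty) (A : HAs.Form) : M.D w :=
  M.nm (encM (bx (itp σ A)))

@[simp] theorem Kr.tr_am {σ : ℕ → Fm Empty} {A : HAs.Form} {v : M.W} (h : w ≤ v) :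
    M.tr h (M.am σ A) = M.am σ A := by simp [Kr.am]

@[simp] theorem Kr.gm_am (σ : ℕ → Fm Empty) (A : HAs.Form) : M.gm (M.am σ A (w := w)) :=
  M.gm_encM _

theorem Kr.inv_am (σ : ℕ → Fm Empty) (A : HAs.Form) : M.inv (M.am σ A (w := w)) :=
  Kr.itp_inv (inv_bx σ A)

/-- The code of the sentence: `a` is provable. -/
def Kr.prC (M : Kr V) {w : M.W} (a : M.D w) : M.D w :=
  M.icm (fun _ => M.num a) (fun _ => M.tc) (prT (.mv 0) : Fm ℕ)

@[simp] theorem Kr.gm_prC (a : M.D w) : M.gm (M.prC a) :=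
  Kr.gm_icm (fun _ => M.gf_num _) (fun _ => by simp) _

@[simp] theorem Kr.tr_prC {v : M.W} (h : w ≤ v) (a : M.D w) :
    M.tr h (M.prC a) = M.prC (M.tr h a) := by
  rw [Kr.prC, Kr.tr_icm, Kr.prC]
  simp

theorem Kr.itp_icm_prT {ρ τ : U → M.D w} {c : Fn U} {a : M.D w} (h : M.icf ρ c = M.num a) :
    M.icm ρ τ (prT c) = M.prC a := by
  rw [Kr.prC]
  simp only [prT, Kr.icm, Kr.icf, h]
  rw [M.icf_conclF ρ, M.icf_conclF fun _ => M.num a]

theorem Kr.inv_prC (a : M.D w) : M.inv (M.prC a) := by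
  have key : M.Pv (M.icm (fun _ => M.num a) (fun _ => M.tc)
      (imp (prT (.mv 0)) (all (sub (prT (.mv 0)) right)) : Fm ℕ)) := by
    refine Kr.ruleC 1 [] [] _ (by simp) ?_ (fun _ => M.gf_num _)
      (fun _ => by simp) (M.pr a M.zr) ?_ (by simp) (by simp)
    · intro N w e hc _ _ d v k h1 u l x
      have h2 := N.mono _ l _ h1
      rw [Kr.F_prT, hc _ (by norm_num) _ (k.trans l)] at h2
      show N.F (prT (.mv 0)) _
      rw [Kr.F_prT, hc _ (by norm_num) _ (k.trans l)]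
      exact h2
    · intro i hi
      obtain rfl : i = 0 := by omega
      simp [prj]
  exact key

theorem Kr.per_prC (a : M.D w) : M.per (M.prC a) :=
  Kr.per_pos _ (by simp [prT, Fm.Pos]) (fun _ => M.gf_num _) (fun _ => by simp)

theorem Kr.prC_nec {a : M.D w} (h : M.Pv a) : M.Pv (M.prC a) := by
  refine Kr.ruleC 1 [prT left] [] _ (by simp [prT, Fm.Pos]) ?_ (fun _ => M.gf_num _)
    (fun _ => by simp) (M.pr a M.zr) ?_ ?_ (by simp)
  · intro N w e hc hθ _ d
    have h1 := hθ _ (List.mem_cons_self ..)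
    rw [li_prT, Kr.F_prT, li_left] at h1
    rw [Kr.F_prT, Kr.cst_mv hc (by norm_num) d]
    exact h1
  · intro i hi
    obtain rfl : i = 0 := by omega
    simp [prj]
  · simpa [Kr.F_prT] using h

theorem Kr.prC_K {a b : M.D w} :
    M.Pv (M.im (M.prC (M.im a b)) (M.im (M.prC a) (M.prC b))) := by
  have key : M.Pv (M.icm (as4 (M.num (M.im a b)) (M.num a) (M.num b) (M.num b))
      (fun _ => M.tc) (imp (prT (.mv 0)) (imp (prT (.mv 1)) (prT (.mv 2))) : Fm ℕ)) := by
    refine Kr.ruleC 3 [eq (prj 0) (ndF 4 (prj 1) (prj 2))] [] _ (by simp [Fm.Pos]) ?_ ?_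
      (fun _ => by simp) (M.sq4 (M.im a b) a b M.zr) ?_ ?_ (by simp)
    · intro N w e hc hθ _ d
      have h1 := hθ _ (List.mem_cons_self ..)
      simp only [li_eq, li_prj, li_ndF, Kr.F_eq, Kr.fn_ndF] at h1
      intro v k h4 u l h5
      rw [Kr.F_prT] at h4 h5 ⊢
      rw [hc _ (by norm_num) _ (k.trans l)] at h5 ⊢
      rw [hc _ (by norm_num) _ k] at h4
      have h4 := Kr.Pv_mono l h4
      rw [N.tr_fn, N.tr_tr, ← N.tr_fn, h1, Kr.tr_nd, N.tr_fn, N.tr_fn] at h4
      exact Kr.Pv_mp h4 h5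
    · rintro (_ | _ | _ | i) <;> exact M.gf_num _
    · intro i hi
      interval_cases i <;> simp [prj, Kr.sq4, as4]
    · simp [KD.F, Kr.sq4, prj]
  have e : M.icm (as4 (M.num (M.im a b)) (M.num a) (M.num b) (M.num b))
      (fun _ => M.tc) (imp (prT (.mv 0)) (imp (prT (.mv 1)) (prT (.mv 2))) : Fm ℕ) =
      M.im (M.prC (M.im a b)) (M.im (M.prC a) (M.prC b)) := by
    rw [Kr.icm, Kr.icm, Kr.itp_icm_prT (a := M.im a b), Kr.itp_icm_prT (a := a), Kr.itp_icm_prT (a := b)]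
    · rfl
    · rfl
    · rfl
  rwa [e] at key

theorem Kr.prC_bxC {a : M.D w} (ha : M.gm a) : M.Pv (M.im (M.prC a) (M.bxC a)) := by
  have _ := ha
  have key : M.Pv (M.icm (fun _ => M.num a) (fun _ => M.tc)
      (imp (prT (.mv 0)) (bxT (.mv 0)) : Fm ℕ)) := by
    refine Kr.ruleC 1 [] [] _ (by simp) ?_ (fun _ => M.gf_num _)
      (fun _ => by simp) (M.pr a M.zr) ?_ (by simp) (by simp)
    · intro N w e hc _ _ d v k h1
      rw [Kr.F_prT] at h1
      rw [Kr.F_bxT]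
      exact Kr.Bx_of h1
    · intro i hi
      obtain rfl : i = 0 := by omega
      simp [prj]
  exact key

theorem Kr.bxC_prC {a : M.D w} (ha : M.gm a) (hi : M.inv a) :
    M.Pv (M.im (M.bxC a) (M.prC a)) := by
  have _ := ha
  have key : M.Pv (M.icm (fun _ => M.num a) (fun _ => M.tc)
      (imp (bxT (.mv 0)) (prT (.mv 0)) : Fm ℕ)) := by
    refine Kr.ruleC 1 [prT (ndF 4 (prj 0) (ndF 6 (ndF 7 (prj 0) (ndF 4 zero zero)) zero))] [] _
      (by simp [prT, Fm.Pos]) ?_ (fun _ => M.gf_num _)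
      (fun _ => by simp) (M.pr a M.zr) ?_ ?_ (by simp)
    · intro N w e hc hθ _ d v k h1
      have h2 := hθ _ (List.mem_cons_self ..)
      rw [li_prT, Kr.F_prT] at h2
      simp only [li_ndF, li_prj, li_zero, Kr.fn_ndF, N.fn_zero] at h2
      have h3 := Kr.Pv_mono k h2
      simp only [Kr.tr_nd, N.tr_fn, N.tr_zr] at h3
      rw [Kr.F_bxT, hc _ (by norm_num) _ k] at h1
      rw [Kr.F_prT, hc _ (by norm_num) _ k]
      exact Kr.itp_un (N.gf_num _) h3 h1
    · intro i hi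
      obtain rfl : i = 0 := by omega
      simp [prj]
    · intro θ hθ
      rw [List.mem_singleton] at hθ
      subst hθ
      rw [li_prT, Kr.F_prT]
      simp only [li_ndF, li_zero, Kr.fn_ndF, M.fn_zero, prj, li_left, M.left_pr]
      exact hi
  exact key

/-- Loeb's theorem for invariant formulas. -/
theorem Kr.prC_lob {a : M.D w} (ha : M.gm a) (hi : M.inv a)
    (h : M.Pv (M.im (M.prC a) a)) : M.Pv a :=
  Kr.lob ha (Kr.q_tr (Kr.bxC_prC ha hi) h)

/-- The interpretation of a box, in a model. -/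
theorem Kr.itp_F_box (σ : ℕ → Fm Empty) (A : HAs.Form) {N : Kr Empty} {u : N.W} {d : N.D u} :
    N.F (bx (itp σ (.box A))) d ↔ N.Pv (N.am σ A (w := u)) := by
  have hp : (prS : Fm Empty).Pos := by simp [prS, prT, Fm.Pos]
  have h1 : ∀ x : N.D u, N.F (bx prS) x ↔ N.F prS x := fun x =>
    ⟨Kr.F_app (N.sound (bx_pos prS hp).2 x), Kr.F_app (N.sound (bx_pos prS hp).1 x)⟩
  show N.F (bx prS) (N.fn (cst (encM (itp σ A))) d) ↔ _
  rw [h1, Kr.fn_cst, prS, Kr.F_prT, Kr.fn_btF, Kr.bt_enc]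
  rfl

/-- The interpretation of a box, externally. -/
theorem bx_box (σ : ℕ → Fm Empty) (A : HAs.Form) :
    Prv (imp (bx (itp σ (.box A))) (prT (cst (encM (bx (itp σ A)))))) ∧
    Prv (imp (prT (cst (encM (bx (itp σ A))))) (bx (itp σ (.box A)))) := by
  have h : ∀ (N : Kr Empty) (u : N.W) (d : N.D u),
      N.F (bx (itp σ (.box A))) d ↔ N.F (prT (cst (encM (bx (itp σ A))))) d := by
    intro N u d
    rw [Kr.itp_F_box, Kr.F_prT, Kr.fn_cst, Kr.am]
  exact ⟨complete fun N w d v _ h1 => (h N v _).1 h1, complete fun N w d v _ h1 => (h N v _).2 h1⟩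

/-- The code of `a is provable`, for actual formulas. -/
theorem Kr.itp_prC_enc (P : Fm Empty) : M.prC (M.nm (w := w) (encM P)) =
    M.nm (encM (prT (cst (encM P)))) := by
  rw [Kr.nm_encM (prT (cst (encM P)))]
  exact (Kr.itp_icm_prT (Kr.num_nm (eD M w) _).symm).symm

/-- The interpretation of a box. -/
theorem Kr.am_box1 (σ : ℕ → Fm Empty) (A : HAs.Form) :
    M.Pv (M.im (M.am σ (.box A)) (M.prC (M.am σ A (w := w)))) := by
  have h := Kr.Pv_enc (bx_box σ A).1 (M := M) (w := w)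
  rw [encM, Kr.nm_ndN, ← Kr.itp_prC_enc] at h
  exact h

theorem Kr.am_box2 (σ : ℕ → Fm Empty) (A : HAs.Form) :
    M.Pv (M.im (M.prC (M.am σ A (w := w))) (M.am σ (.box A))) := by
  have h := Kr.Pv_enc (bx_box σ A).2 (M := M) (w := w)
  rw [encM, Kr.nm_ndN, ← Kr.itp_prC_enc] at h
  exact h

/-- Interpreted boxes are positive. -/
theorem pos_box (σ : ℕ → Fm Empty) (A : HAs.Form) : (bx (itp σ (.box A))).Pos := by
  show (bx prS).Pos
  rw [prS, prT, bx, bx]
  exact ⟨trivial, trivial⟩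

/-! ### Semantics of the interpretation -/

theorem Kr.itp_F_imp (σ : ℕ → Fm Empty) (A B : HAs.Form) {N : Kr Empty} {u : N.W} {d : N.D u} :
    N.F (bx (itp σ (.imp A B))) d ↔
      (∀ (v : N.W) (h : u ≤ v), N.F (bx (itp σ A)) (N.tr h d) → N.F (bx (itp σ B)) (N.tr h d)) ∧
      N.Pv (N.im (N.am σ A) (N.am σ B (w := u))) := by
  have hi : Inv (imp (bx (itp σ A)) (bx (itp σ B))) := ((itp_ind_bx σ A).imp (itp_ind_bx σ B)).inv
  have h1 : N.F (bxT (cst (encM (imp (bx (itp σ A)) (bx (itp σ B)))))) d ↔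
      N.Pv (N.im (N.am σ A) (N.am σ B (w := u))) := by
    rw [Kr.F_bxT, Kr.fn_cst, Kr.itp_Bx hi, encM, Kr.nm_ndN]
    rfl
  rw [← h1]
  rfl

theorem Kr.itp_am_imp (σ : ℕ → Fm Empty) (A B : HAs.Form) :
    M.am σ (.imp A B) (w := w) = M.cj (M.im (M.am σ A) (M.am σ B))
      (M.bxC (M.im (M.am σ A) (M.am σ B))) := by
  have h : M.am σ (.imp A B) (w := w) =
      M.nm (ndN 2 (encM (imp (bx (itp σ A)) (bx (itp σ B))))
        (encM (bxT (cst (encM (imp (bx (itp σ A)) (bx (itp σ B)))))))) := rfl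
  rw [h, Kr.nm_ndN, ← Kr.bxC_enc, encM, Kr.nm_ndN]
  rfl

theorem Kr.itp_Pv_imp {σ : ℕ → Fm Empty} {A B : HAs.Form} :
    M.Pv (M.am σ (.imp A B) (w := w)) ↔ M.Pv (M.im (M.am σ A) (M.am σ B (w := w))) := by
  rw [Kr.itp_am_imp]
  have g : M.gm (M.im (M.am σ A) (M.am σ B (w := w))) := Kr.gm_im.2 ⟨M.gm_am _ _, M.gm_am _ _⟩
  exact ⟨fun h => Kr.Pv_mp (Kr.q_fst g (M.gm_bxC _)) h,
    fun h => Kr.Pv_mp (Kr.Pv_mp (Kr.q_pr g (M.gm_bxC _)) h) (Kr.box_nec h)⟩

/-- Semantic proofs of implications in HA*. -/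
theorem itp_sem {σ : ℕ → Fm Empty} {A B : HAs.Form}
    (h : ∀ (N : Kr Empty) (w : N.W) (d : N.D w), N.F (bx (itp σ A)) d → N.F (bx (itp σ B)) d) :
    HAst (itp σ (.imp A B)) := by
  have h1 : Prv (imp (bx (itp σ A)) (bx (itp σ B))) := complete fun N w d v _ h1 => h N v _ h1
  refine complete fun N w d => ?_
  rw [Kr.itp_F_imp]
  refine ⟨N.sound h1 d, ?_⟩
  have h2 := Kr.Pv_enc h1 (M := N) (w := w)
  rw [encM, Kr.nm_ndN] at h2
  exact h2

/-! ### Soundness of the modal axioms other than those of the relation -/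

theorem hast_ipax (σ : ℕ → Fm Empty) {A : HAs.Form} (h : HAs.IPax A) : HAst (itp σ A) := by
  refine HAst.of (Prv.ax ?_)
  cases h with
  | k A B => exact Ax.k _ _
  | s A B C => exact Ax.s _ _ _
  | andl A B => exact Ax.andL _ _
  | andr A B => exact Ax.andR _ _
  | andi A B => exact Ax.andI _ _
  | orl A B => exact Ax.orL _ _
  | orr A B => exact Ax.orR _ _
  | ore A B C => exact Ax.orE _ _ _
  | exf A => exact Ax.botE _

theorem hast_k (σ : ℕ → Fm Empty) (A B : HAs.Form) :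
    HAst (itp σ (.imp (.box (.imp A B)) (.imp (.box A) (.box B)))) := by
  refine itp_sem fun N w d h => ?_
  rw [Kr.itp_F_box, Kr.itp_Pv_imp] at h
  rw [Kr.itp_F_imp]
  constructor
  · intro v l h1
    rw [Kr.itp_F_box] at h1 ⊢
    have h2 := Kr.Pv_mono l h
    rw [Kr.tr_nd, Kr.tr_am, Kr.tr_am] at h2
    exact Kr.Pv_mp h2 h1
  · exact Kr.q_tr (N.am_box1 σ A) (Kr.q_tr (Kr.Pv_mp Kr.prC_K (Kr.prC_nec h)) (N.am_box2 σ B))

theorem hast_four (σ : ℕ → Fm Empty) (A : HAs.Form) :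
    HAst (itp σ (.imp (.box A) (.box (.box A)))) := by
  refine itp_sem fun N w d h => ?_
  rw [Kr.itp_F_box] at h ⊢
  exact Kr.Pv_mp (N.am_box2 σ A) (Kr.prC_nec h)

theorem hast_nec (σ : ℕ → Fm Empty) {A : HAs.Form} (h : HAst (itp σ A)) :
    HAst (itp σ (.box A)) := by
  refine complete fun N w d => ?_
  rw [Kr.itp_F_box]
  exact Kr.Pv_enc h

theorem hast_lob (σ : ℕ → Fm Empty) (A : HAs.Form) :
    HAst (itp σ (.imp (.box (.imp (.box A) A)) (.box A))) := by
  refine itp_sem fun N w d h => ?_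
  rw [Kr.itp_F_box, Kr.itp_Pv_imp] at h
  rw [Kr.itp_F_box]
  exact Kr.prC_lob (N.gm_am σ A) (N.inv_am σ A) (Kr.q_tr (N.am_box2 σ A) h)

/-- The box translation is persistent. -/
theorem itp_per (P : Fm Empty) : Prv (imp (bx P) (bxT (cst (encM (bx P))))) := by
  rw [Prv_iff]
  have h := TrH.pers (M := std) (tF := comp btF right) (BF := comp bxCF (comp btF right))
    (RF := ndF 1 zero zero) (Sm := eq zero zero) (e := std.zr (w := stw))
    (a := std.nm (w := stw) (encM P)) (fun v h => trH_bt _) (std.gm_encM P) rfl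
  simp only [std.fn_comp, std.right_pr, Kr.fn_btF, Kr.fn_bxCF, Kr.bt_enc, Kr.bxC_enc] at h
  rw [← std_nm, encM, Kr.nm_ndN]
  exact h

theorem hast_cp (σ : ℕ → Fm Empty) (A : HAs.Form) :
    HAst (itp σ (.imp A (.box A))) := by
  refine itp_sem fun N w d h => ?_
  rw [Kr.itp_F_box]
  have h1 := Kr.F_app (N.sound (itp_per (itp σ A)) d) h
  rw [Kr.F_bxT, Kr.fn_cst, Kr.itp_Bx (inv_bx σ A)] at h1
  exact h1

theorem hast_ik4 (σ : ℕ → Fm Empty) {A : HAs.Form} (h : HAs.IK4 A) : HAst (itp σ A) := by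
  induction h with
  | ax h => exact hast_ipax σ h
  | k A B => exact hast_k σ A B
  | four A => exact hast_four σ A
  | nec _ ih => exact hast_nec σ ih
  | mp _ _ ih1 ih2 => exact HAst.mp ih1 ih2

/-- An implication between boxes is a theorem of HA* if it is valid in all models. -/
theorem hast_boxes (σ : ℕ → Fm Empty) {A B : HAs.Form}
    (h : ∀ (N : Kr Empty) (w : N.W), N.Pv (N.am σ A (w := w)) → N.Pv (N.am σ B (w := w))) :
    HAst (itp σ (.imp (.box A) (.box B))) := by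
  refine itp_sem fun N w d h1 => ?_
  rw [Kr.itp_F_box] at h1 ⊢
  exact h N w h1

end HAr
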