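import Pool.Agent.Lib.MP_61e577_lc.Ar.Base

/-! Kripke models of Heyting arithmetic and soundness. -/

namespace HAr

open Fn Fm

/-- The data of a Kripke model: worlds, growing domains, functions. -/
structure KD (V : Type) where
  W : Type
  [pre : Preorder W]
  D : W → Type
  tr : {w v : W} → w ≤ v → D w → D v
  fn : Fn V → {w : W} → D w → D w
  pr : {w : W} → D w → D w → D w
  zr : {w : W} → D w
  pm : V → {w : W} → D w → Prop

attribute [instance] KD.pre

variable {V : Type}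

/-- Forcing. -/
def KD.F (M : KD V) : Fm V → {w : M.W} → M.D w → Prop
  | .mv i, _, d => M.pm i d
  | eq f g, _, d => M.fn f d = M.fn g d
  | bot, _, _ => False
  | conj P Q, _, d => M.F P d ∧ M.F Q d
  | disj P Q, _, d => M.F P d ∨ M.F Q d
  | imp P Q, w, d => ∀ (v : M.W) (h : w ≤ v), M.F P (M.tr h d) → M.F Q (M.tr h d)
  | ex P, _, d => ∃ e, M.F P (M.pr d e)
  | all P, w, d => ∀ (v : M.W) (h : w ≤ v) (e : M.D v), M.F P (M.pr (M.tr h d) e)
  | sub P f, _, d => M.F P (M.fn f d)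

/-- Kripke models of Heyting arithmetic. -/
structure Kr (V : Type) extends KD V where
  tr_refl : ∀ {w : W} (h : w ≤ w) (d : D w), tr h d = d
  tr_tr : ∀ {u v w : W} (h : u ≤ v) (k : v ≤ w) (d : D u), tr k (tr h d) = tr (h.trans k) d
  tr_fn : ∀ {w v : W} (h : w ≤ v) (f : Fn V) (d : D w), tr h (fn f d) = fn f (tr h d)
  tr_pr : ∀ {w v : W} (h : w ≤ v) (d e : D w), tr h (pr d e) = pr (tr h d) (tr h e)
  pm_mono : ∀ {w v : W} (h : w ≤ v) (i : V) (d : D w), pm i d → pm i (tr h d)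
  fn_idn : ∀ {w : W} (d : D w), fn idn d = d
  fn_zero : ∀ {w : W} (d : D w), fn zero d = zr
  fn_comp : ∀ {w : W} (f g : Fn V) (d : D w), fn (comp f g) d = fn f (fn g d)
  fn_pair : ∀ {w : W} (f g : Fn V) (d : D w), fn (pair f g) d = pr (fn f d) (fn g d)
  left_pr : ∀ {w : W} (d e : D w), fn left (pr d e) = d
  right_pr : ∀ {w : W} (d e : D w), fn right (pr d e) = e
  pr_eta : ∀ {w : W} (d : D w), pr (fn left d) (fn right d) = d
  pr_zr : ∀ {w : W}, pr (w := w) zr zr = zr
  succ_pr : ∀ {w : W} (a b : D w), fn succ (pr a (fn succ b)) = pr (fn succ a) b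
  succ_pr_zr : ∀ {w : W} (a : D w), fn succ (pr a zr) = pr zr (fn succ a)
  prec_zr : ∀ {w : W} (f g : Fn V) (a : D w), fn (prec f g) (pr a zr) = fn f a
  prec_succ : ∀ {w : W} (f g : Fn V) (a n : D w),
    fn (prec f g) (pr a (fn succ n)) = fn g (pr a (pr n (fn (prec f g) (pr a n))))
  trec_zr : ∀ {w : W} (f g : Fn V) (a : D w), fn (trec f g) (pr a zr) = fn f a
  trec_succ : ∀ {w : W} (f g : Fn V) (a n : D w),
    fn (trec f g) (pr a (fn succ n)) = fn g (pr a (pr n
      (pr (fn (trec f g) (pr a (fn left n))) (fn (trec f g) (pr a (fn right n))))))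
  succ_ne : ∀ {w : W} (a : D w), fn succ a ≠ zr
  succ_inj : ∀ {w : W} (a b : D w), fn succ a = fn succ b → a = b
  ind : ∀ (P : Fm V) {w : W} (a : D w), toKD.F P (pr a zr) →
    (∀ {v : W} (h : w ≤ v) (n : D v), toKD.F P (pr (tr h a) n) →
      toKD.F P (pr (tr h a) (fn succ n))) → ∀ n : D w, toKD.F P (pr a n)

variable {M : Kr V}

theorem Kr.tr_zr {w v : M.W} (h : w ≤ v) : M.tr h M.zr = M.zr := by
  have := M.tr_fn h zero M.zr
  rwa [M.fn_zero, M.fn_zero] at this

theorem Kr.mono : ∀ (P : Fm V) {w v : M.W} (h : w ≤ v) (d : M.D w), M.F P d → M.F P (M.tr h d)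
  | .mv i, _, _, h, d, h1 => M.pm_mono h i d h1
  | eq f g, _, _, h, d, h1 => by
    have h1 : M.fn f d = M.fn g d := h1
    show M.fn f (M.tr h d) = M.fn g (M.tr h d)
    rw [← M.tr_fn, ← M.tr_fn, h1]
  | bot, _, _, _, _, h1 => h1
  | conj P Q, _, _, h, d, h1 => ⟨Kr.mono P h d h1.1, Kr.mono Q h d h1.2⟩
  | disj P Q, _, _, h, d, h1 => h1.elim (fun h1 => Or.inl (Kr.mono P h d h1))
      fun h1 => Or.inr (Kr.mono Q h d h1)
  | imp P Q, _, _, h, d, h1 => fun _ k h2 => by
    rw [M.tr_tr] at h2 ⊢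
    exact h1 _ _ h2
  | ex P, _, _, h, d, h1 => by
    obtain ⟨e, h1⟩ := h1
    refine ⟨M.tr h e, ?_⟩
    rw [← M.tr_pr]
    exact Kr.mono P h _ h1
  | all P, _, _, h, d, h1 => fun _ k e => by
    rw [M.tr_tr]
    exact h1 _ _ e
  | sub P f, _, _, h, d, h1 => by
    have := Kr.mono P h _ h1
    rwa [M.tr_fn] at this

theorem Kr.F_imp {P Q : Fm V} {w : M.W} {d : M.D w} : M.F (imp P Q) d ↔
    ∀ (v : M.W) (h : w ≤ v), M.F P (M.tr h d) → M.F Q (M.tr h d) := Iff.rfl

theorem Kr.F_all {P : Fm V} {w : M.W} {d : M.D w} : M.F (all P) d ↔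
    ∀ (v : M.W) (h : w ≤ v) (e : M.D v), M.F P (M.pr (M.tr h d) e) := Iff.rfl

theorem Kr.F_eq {f g : Fn V} {w : M.W} {d : M.D w} : M.F (eq f g) d ↔ M.fn f d = M.fn g d :=
  Iff.rfl

/-- Axioms hold in Kripke models. -/
theorem Kr.ax {P : Fm V} (hP : Ax P) {w : M.W} (d : M.D w) : M.F P d := by
  cases hP with
  | k P Q => exact fun _ h h1 v k _ => M.mono _ k _ h1
  | s P Q R =>
    intro v h h1 v2 h2 h3 v3 h4 h5
    have a := h1 _ (h2.trans h4)
    rw [← M.tr_tr h2 h4] at a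
    have b := a h5 _ (le_refl v3)
    rw [M.tr_refl] at b
    exact b (h3 _ h4 h5)
  | andI P Q => exact fun _ h h1 v k h2 => ⟨M.mono _ k _ h1, h2⟩
  | andL P Q => exact fun _ h h1 => h1.1
  | andR P Q => exact fun _ h h1 => h1.2
  | orL P Q => exact fun _ h h1 => Or.inl h1
  | orR P Q => exact fun _ h h1 => Or.inr h1
  | orE P Q R =>
    intro v h h1 v2 h2 h3 v3 h4 h5
    rcases h5 with h5 | h5
    · have a := h1 _ (h2.trans h4)
      rw [← M.tr_tr h2 h4] at a
      exact a h5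
    · exact h3 _ h4 h5
  | botE P => exact fun _ h h1 => h1.elim
  | exI P =>
    intro v h h1
    refine ⟨M.fn right (M.tr h d), ?_⟩
    rw [M.pr_eta]
    exact h1
  | allE P =>
    intro v h h1
    have := h1 _ (le_refl v) (M.fn right (M.tr h d))
    rwa [M.tr_refl, M.pr_eta] at this
  | subImp P Q f =>
    intro v h h1 v2 h2 h3
    have := h1 _ h2
    rw [M.tr_fn] at this
    exact this h3
  | impSub P Q f =>
    intro v h h1 v2 h2 h3
    have := h1 _ h2
    rw [M.tr_fn] at h3 ⊢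
    exact this h3
  | subOr P Q f => exact fun _ h h1 => h1
  | subBot f => exact fun _ h h1 => h1
  | subEx P f =>
    intro v h h1
    obtain ⟨e, h1⟩ := h1
    refine ⟨e, ?_⟩
    show M.F P _
    rwa [lft, M.fn_pair, M.fn_comp, M.left_pr, M.right_pr]
  | allSub P f =>
    intro v h h1 v2 h2 e
    have := h1 _ h2 e
    have this : M.F P _ := this
    rw [lft, M.fn_pair, M.fn_comp, M.left_pr, M.right_pr] at this
    rwa [M.tr_fn]
  | subEq f g h =>
    intro v k h1
    show M.fn _ _ = M.fn _ _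
    rw [M.fn_comp, M.fn_comp]
    exact h1
  | eqSub f g h =>
    intro v k h1
    have h1 : M.fn _ _ = M.fn _ _ := h1
    rw [M.fn_comp, M.fn_comp] at h1
    exact h1
  | subSub P f g =>
    intro v k h1
    show M.F P _
    rw [M.fn_comp]
    exact h1
  | subComp P f g =>
    intro v k h1
    have h1 : M.F P _ := h1
    rw [M.fn_comp] at h1
    exact h1
  | subId P =>
    intro v k h1
    have h1 : M.F P _ := h1
    rwa [M.fn_idn] at h1
  | idSub P =>
    intro v k h1
    show M.F P _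
    rwa [M.fn_idn]
  | refl f => exact rfl
  | symm f g => exact fun _ h h1 => Eq.symm h1
  | trans f g h =>
    intro v k h1 v2 k2 h2
    have h3 := M.mono (eq f g) k2 _ h1
    exact Eq.trans h3 h2
  | congP f f' g g' =>
    intro v k h1 v2 k2 h2
    have h3 : M.fn _ _ = M.fn _ _ := M.mono (eq f f') k2 _ h1
    have h2 : M.fn _ _ = M.fn _ _ := h2
    show M.fn _ _ = M.fn _ _
    rw [M.fn_pair, M.fn_pair, h3, h2]
  | congC f g g' =>
    intro v k h1
    have h1 : M.fn _ _ = M.fn _ _ := h1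
    show M.fn _ _ = M.fn _ _
    rw [M.fn_comp, M.fn_comp, h1]
  | leib P f g =>
    intro v k h1 v2 k2 h2
    have h3 : M.fn _ _ = M.fn _ _ := M.mono (eq f g) k2 _ h1
    have h2 : M.F P _ := h2
    show M.F P _
    rwa [← h3]
  | compA f g h => show M.fn _ _ = M.fn _ _; simp only [M.fn_comp]
  | idL f => show M.fn _ _ = M.fn _ _; simp only [M.fn_comp, M.fn_idn]
  | idR f => show M.fn _ _ = M.fn _ _; simp only [M.fn_comp, M.fn_idn]
  | zeroC f => show M.fn _ _ = M.fn _ _; simp only [M.fn_comp, M.fn_zero]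
  | leftP f g => show M.fn _ _ = M.fn _ _; simp only [M.fn_comp, M.fn_pair, M.left_pr]
  | rightP f g => show M.fn _ _ = M.fn _ _; simp only [M.fn_comp, M.fn_pair, M.right_pr]
  | pairC f g h => show M.fn _ _ = M.fn _ _; simp only [M.fn_comp, M.fn_pair]
  | pairE => show M.fn _ _ = M.fn _ _; simp only [M.fn_pair, M.pr_eta, M.fn_idn]
  | p00 => show M.fn _ _ = M.fn _ _; simp only [M.fn_pair, M.fn_zero, M.pr_zr]
  | pS => show M.fn _ _ = M.fn _ _; simp only [M.fn_comp, M.fn_pair, M.succ_pr]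
  | p0 => show M.fn _ _ = M.fn _ _; simp only [M.fn_comp, M.fn_pair, M.fn_zero, M.fn_idn,
      M.succ_pr_zr]
  | prec0 f g => show M.fn _ _ = M.fn _ _; simp only [M.fn_comp, M.fn_pair, M.fn_zero, M.fn_idn,
      M.prec_zr]
  | precS f g =>
    show M.fn _ _ = M.fn _ _
    simp only [M.fn_comp, M.fn_pair, M.prec_succ]
    rw [M.pr_eta]
  | trec0 f g => show M.fn _ _ = M.fn _ _; simp only [M.fn_comp, M.fn_pair, M.fn_zero, M.fn_idn,
      M.trec_zr]
  | trecS f g =>
    show M.fn _ _ = M.fn _ _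
    simp only [M.fn_comp, M.fn_pair, M.trec_succ]
  | sZ =>
    intro v k h1
    have h1 : M.fn _ _ = M.fn _ _ := h1
    rw [M.fn_zero] at h1
    exact M.succ_ne _ h1
  | sI =>
    intro v k h1
    have h1 : M.fn _ _ = M.fn _ _ := h1
    rw [M.fn_comp, M.fn_comp] at h1
    exact M.succ_inj _ _ h1
  | ind P =>
    intro v h h1 v2 h2 h3 v3 h4 e
    have h1 : M.F P (M.fn (pair idn zero) (M.tr h d)) := h1
    rw [M.fn_pair, M.fn_idn, M.fn_zero] at h1
    refine M.ind P _ ?_ ?_ e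
    · have := M.mono P (h2.trans h4) _ h1
      rw [M.tr_pr, M.tr_zr, ← M.tr_tr h2 h4] at this
      exact this
    · intro v5 h5 n h6
      have a := h3 _ (h4.trans h5) n _ (le_refl v5)
      rw [M.tr_refl, ← M.tr_tr h4 h5] at a
      have a : M.F P (M.fn (pair left (comp succ right)) _) := a h6
      rwa [M.fn_pair, M.fn_comp, M.left_pr, M.right_pr] at a

/-- Soundness for Kripke models. -/
theorem Kr.sound {P : Fm V} (hP : Prv P) : ∀ {w : M.W} (d : M.D w), M.F P d := by
  induction hP with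
  | ax h => exact fun d => M.ax h d
  | mp _ _ h1 h2 =>
    intro w d
    have := h1 d _ (le_refl w)
    rw [M.tr_refl] at this
    exact this (h2 d)
  | sb f _ h => exact fun d => h _
  | @exE P Q _ h =>
    intro w d v k h1
    obtain ⟨e, h1⟩ := h1
    have := h (M.pr (M.tr k d) e) _ (le_refl v)
    rw [M.tr_refl] at this
    have this : M.F Q (M.fn left _) := this h1
    rwa [M.left_pr] at this
  | @allI P Q _ h =>
    intro w d v k h1 v2 k2 e
    have := h (M.pr (M.tr k2 (M.tr k d)) e) _ (le_refl v2)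
    rw [M.tr_refl] at this
    refine this ?_
    show M.F Q (M.fn left _)
    rw [M.left_pr]
    exact M.mono _ k2 _ h1

end HAr
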