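import Pool.Agent.Lib.MP_61e577_lc.Ar.Trlp
import Pool.Agent.Lib.MP_61e577_lc.Ar.Pos

/-! Markov's rule for positive formulas. -/

namespace HAr

open Fn Fm

variable {V : Type} {M : Kr V} {w : M.W}

/-- The side formula of the translation with no formulas is provable. -/
private theorem mkv_B {e c : M.D w} (hR : M.gm (M.fn (comp left right) e)) :
    M.Pv (M.fn (BFl 0) (M.pr e c)) := by
  have e1 : M.fn (BFl 0) (M.pr e c) = M.dj M.tc (M.fn (comp left right) e) := by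
    rw [BFl, Kr.fn_cdm]
    simp [Kr.icm, Kr.icf, bxs]
  rw [e1]
  exact Kr.Pv_mp (Kr.q_inl (Kr.Pv_gm (Kr.Pv_ax M.isAx_tc)) hR) (Kr.Pv_ax M.isAx_tc)

/-- Markov's rule for positive formulas which do not depend on the argument. -/
theorem Kr.markov {U : Type} [Countable U] (φ : Fm U) (hφ : φ.Pos) {ρ τ : U → M.D w}
    (hρ : ∀ i, M.gf (ρ i)) (hτ : ∀ i, M.gm (τ i)) (hi : M.inv (M.icm ρ τ φ))
    (h : M.Pv (M.im (M.im (M.icm ρ τ φ) M.btc) M.btc)) : M.Pv (M.icm ρ τ φ) := by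
  have ga : M.gm (M.icm ρ τ φ) := Kr.gm_icm hρ hτ φ
  obtain ⟨p, hp⟩ := h
  obtain ⟨n, hn⟩ := Kr.Gd_ex (M := M) (w := w) p
  have hR : M.fn (comp left right) (M.pr n (M.pr (M.icm ρ τ φ) M.zr)) = M.icm ρ τ φ := by simp
  have hL : M.fn left (M.pr n (M.pr (M.icm ρ τ φ) M.zr)) = n := by simp
  generalize M.pr n (M.pr (M.icm ρ τ φ) M.zr) = e at hR hL
  have hV : M.Va 0 e := ⟨by rw [hR]; exact ga, by rw [hR]; exact hi,
    fun i hi => absurd hi (Nat.not_lt_zero i)⟩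
  have H := Kr.trH_trl hV
  have h1 := Kr.Pv_trl (l := 0) hV (by rw [hL]; exact hn)
  rw [hp] at h1
  have h2 := H.pos2 φ hφ hρ hτ
  rw [hR] at h2
  generalize M.icm ρ τ φ = a at *
  have h3 : M.Pv (M.im (M.fn (trl 0) (M.pr e a)) a) :=
    Kr.q_tr h2 (Kr.q_djE (Kr.q_id ga) (Kr.q_id ga))
  have gn : M.gm (M.im a M.btc) := Kr.gm_im.2 ⟨ga, Kr.gm_btc⟩
  have h4 := Kr.q_tr (H.T_im1 _ _ gn Kr.gm_btc)
    (Kr.q_fst (Kr.gm_im.2 ⟨H.gT _ gn, H.gT _ Kr.gm_btc⟩) (H.gB _ (Kr.gm_im.2 ⟨gn, Kr.gm_btc⟩)))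
  have h5 := Kr.Pv_mp h4 h1
  rw [H.T_bt, hR] at h5
  have h6 := H.T_im2 a _ ga Kr.gm_btc
  rw [H.T_bt, hR] at h6
  have hB : M.Pv (M.fn (BFl 0) (M.pr e (M.im a M.btc))) := mkv_B (by rw [hR]; exact ga)
  have h7 := Kr.Pv_mp (Kr.Pv_mp (Kr.q_pr (Kr.Pv_gm h3) (Kr.Pv_gm hB)) h3) hB
  exact Kr.Pv_mp h5 (Kr.Pv_mp h6 h7)

end HAr
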