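import Pool.Agent.Lib.MP_61e577_lc.Ar.Code

/-! Normal codes of functions and formulas. -/

namespace HAr

open Fn Fm

variable {V : Type} {M : Kr V} {w : M.W}

/-- Good function codes. -/
def Kr.gf (M : Kr V) {w : M.W} (a : M.D w) : Prop := M.nfn a = a

theorem Kr.gf_mono {v : M.W} (h : w ≤ v) {a : M.D w} (k : M.gf a) : M.gf (M.tr h a) := by
  unfold Kr.gf at *
  rw [← M.tr_nfn, k]

theorem Kr.gf_small {k : ℕ} (hk : k < 5) : M.gf (M.nd k (M.zr (w := w)) M.zr) := by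
  interval_cases k <;> simp [Kr.gf]

theorem Kr.gf_nd {k : ℕ} (h5 : 5 ≤ k) (h9 : k < 9) {a b : M.D w} :
    M.gf (M.nd k a b) ↔ M.gf a ∧ M.gf b := by
  interval_cases k <;> simp [Kr.gf, Kr.nd_inj]

theorem Kr.gf_nfn (a : M.D w) : M.gf (M.nfn a) := by
  have := M.find (eq (comp nfnF (comp nfnF right)) (comp nfnF right)) M.zr (by simp [KD.F])
    (fun {v} h t m h1 h2 => by
      have h1 : M.gf (M.nfn (M.hd m)) := by simpa [KD.F, Kr.gf] using h1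
      have h2 : M.gf (M.nfn (M.tl m)) := by simpa [KD.F, Kr.gf] using h2
      suffices M.gf (M.nfn (M.cs t m)) by simpa [KD.F, Kr.gf] using this
      rcases M.nfn_cases (M.cs t m) with ⟨k, hk, e⟩ | ⟨k, h5, h9, e⟩
      · rw [e]; exact M.gf_small hk
      · rw [e]
        rw [Kr.gf_nd h5 h9]
        simp only [Kr.tl_S, M.right_pr]
        exact ⟨h1, h2⟩) a
  simpa [KD.F, Kr.gf] using this

/-- Case distinction for good function codes. -/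
theorem Kr.gf_cases {a : M.D w} (h : M.gf a) : (∃ k < 5, a = M.nd k M.zr M.zr) ∨
    ∃ k b c, 5 ≤ k ∧ k < 9 ∧ M.gf b ∧ M.gf c ∧ a = M.nd k b c := by
  rcases M.nfn_cases a with ⟨k, hk, e⟩ | ⟨k, h5, h9, e⟩
  · exact Or.inl ⟨k, hk, h ▸ e⟩
  · exact Or.inr ⟨k, _, _, h5, h9, M.gf_nfn _, M.gf_nfn _, h ▸ e⟩

/-- Induction on good function codes. -/
theorem Kr.gf_ind (P : Fm V) {w : M.W} (a : M.D w)
    (h0 : ∀ {v : M.W} (_ : w ≤ v), ∀ k < 5, M.F P (M.pr (M.tr ‹w ≤ v› a) (M.nd k M.zr M.zr)))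
    (h1 : ∀ {v : M.W} (h : w ≤ v) (k : ℕ) (x y : M.D v), 5 ≤ k → k < 9 → M.gf x → M.gf y →
      M.F P (M.pr (M.tr h a) x) → M.F P (M.pr (M.tr h a) y) →
      M.F P (M.pr (M.tr h a) (M.nd k x y))) {x : M.D w} (hx : M.gf x) : M.F P (M.pr a x) := by
  have := M.find (sub P (pair left (comp nfnF right))) a
    (by have := h0 (le_refl w) 1 (by norm_num); simpa [KD.F] using this)
    (fun {v} h t m e1 e2 => by
      have e1 : M.F P (M.pr (M.tr h a) (M.nfn (M.hd m))) := by simpa [KD.F] using e1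
      have e2 : M.F P (M.pr (M.tr h a) (M.nfn (M.tl m))) := by simpa [KD.F] using e2
      suffices M.F P (M.pr (M.tr h a) (M.nfn (M.cs t m))) by simpa [KD.F] using this
      rcases M.nfn_cases (M.cs t m) with ⟨k, hk, e⟩ | ⟨k, h5, h9, e⟩
      · rw [e]; exact h0 h k hk
      · rw [e]
        simp only [Kr.tl_S, M.right_pr]
        exact h1 h k _ _ h5 h9 (M.gf_nfn _) (M.gf_nfn _) e1 e2) x
  have e : M.nfn x = x := hx
  simpa [KD.F, e] using this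

/-! ### Formulas -/

abbrev Kr.eqc (M : Kr V) {w : M.W} (a b : M.D w) : M.D w := M.nd 0 a b
abbrev Kr.btc (M : Kr V) {w : M.W} : M.D w := M.nd 1 M.zr M.zr
abbrev Kr.cj (M : Kr V) {w : M.W} (a b : M.D w) : M.D w := M.nd 2 a b
abbrev Kr.dj (M : Kr V) {w : M.W} (a b : M.D w) : M.D w := M.nd 3 a b
abbrev Kr.im (M : Kr V) {w : M.W} (a b : M.D w) : M.D w := M.nd 4 a b
abbrev Kr.exc (M : Kr V) {w : M.W} (a : M.D w) : M.D w := M.nd 5 a M.zr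
abbrev Kr.alc (M : Kr V) {w : M.W} (a : M.D w) : M.D w := M.nd 6 a M.zr
abbrev Kr.sbc (M : Kr V) {w : M.W} (a f : M.D w) : M.D w := M.nd 7 a f

def Kr.nfm (M : Kr V) {w : M.W} (a : M.D w) : M.D w := M.fn nfmF a

@[simp] theorem Kr.fn_nfmF (a : M.D w) : M.fn nfmF a = M.nfm a := rfl
@[simp] theorem Kr.tr_nfm {v : M.W} (h : w ≤ v) (a : M.D w) :
    M.tr h (M.nfm a) = M.nfm (M.tr h a) := M.tr_fn h _ a

@[simp] theorem Kr.nfm_zr : M.nfm (M.zr (w := w)) = M.btc := by simp [Kr.nfm, nfmF]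

theorem Kr.nfm_cs (t m : M.D w) : M.nfm (M.cs t m) = M.fn (sw nfmL (ndF 1 zero zero))
    (M.pr (M.pr (M.pr (M.nfm (M.hd m)) (M.nfm (M.tl m))) m) t) := by
  simp only [Kr.nfm, nfmF, M.fn_comp, M.fn_pair, M.fn_zero, M.fn_idn, Kr.frec_cs, M.left_pr,
    M.right_pr]

@[simp] theorem Kr.nfm_eqc (a b : M.D w) : M.nfm (M.nd 0 a b) = M.nd 0 (M.nfn a) (M.nfn b) := by
  rw [Kr.nd, Kr.nfm_cs]; simp [Kr.nm, nfmL]
@[simp] theorem Kr.nfm_btc (a b : M.D w) : M.nfm (M.nd 1 a b) = M.nd 1 M.zr M.zr := by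
  rw [Kr.nd, Kr.nfm_cs]; simp [Kr.nm, nfmL]
@[simp] theorem Kr.nfm_cj (a b : M.D w) : M.nfm (M.nd 2 a b) = M.nd 2 (M.nfm a) (M.nfm b) := by
  rw [Kr.nd, Kr.nfm_cs]; simp [Kr.nm, nfmL]
@[simp] theorem Kr.nfm_dj (a b : M.D w) : M.nfm (M.nd 3 a b) = M.nd 3 (M.nfm a) (M.nfm b) := by
  rw [Kr.nd, Kr.nfm_cs]; simp [Kr.nm, nfmL]
@[simp] theorem Kr.nfm_im (a b : M.D w) : M.nfm (M.nd 4 a b) = M.nd 4 (M.nfm a) (M.nfm b) := by
  rw [Kr.nd, Kr.nfm_cs]; simp [Kr.nm, nfmL]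
@[simp] theorem Kr.nfm_exc (a b : M.D w) : M.nfm (M.nd 5 a b) = M.nd 5 (M.nfm a) M.zr := by
  rw [Kr.nd, Kr.nfm_cs]; simp [Kr.nm, nfmL]
@[simp] theorem Kr.nfm_alc (a b : M.D w) : M.nfm (M.nd 6 a b) = M.nd 6 (M.nfm a) M.zr := by
  rw [Kr.nd, Kr.nfm_cs]; simp [Kr.nm, nfmL]
@[simp] theorem Kr.nfm_sbc (a b : M.D w) : M.nfm (M.nd 7 a b) = M.nd 7 (M.nfm a) (M.nfn b) := by
  rw [Kr.nd, Kr.nfm_cs]; simp [Kr.nm, nfmL]

/-- Case distinction for the normal form of a formula code. -/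
theorem Kr.nfm_cases (a : M.D w) :
    (M.nfm a = M.nd 0 (M.nfn (M.hd (M.tl a))) (M.nfn (M.tl (M.tl a)))) ∨
    M.nfm a = M.nd 1 M.zr M.zr ∨
    (∃ k, 2 ≤ k ∧ k < 5 ∧ M.nfm a = M.nd k (M.nfm (M.hd (M.tl a))) (M.nfm (M.tl (M.tl a)))) ∨
    (∃ k, 5 ≤ k ∧ k < 7 ∧ M.nfm a = M.nd k (M.nfm (M.hd (M.tl a))) M.zr) ∨
    M.nfm a = M.nd 7 (M.nfm (M.hd (M.tl a))) (M.nfn (M.tl (M.tl a))) := by
  rcases M.zr_or_cs a with rfl | h
  · exact Or.inr (Or.inl (by simp))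
  · rw [h, Kr.nfm_cs]
    simp only [Kr.tl_S, M.right_pr]
    rcases M.small_or 8 (M.hd a) with ⟨k, hk, e⟩ | ⟨b, e⟩
    · rw [e, Kr.sw_nm (by simpa [nfmL] using hk)]
      interval_cases k <;> simp [nfmL]
      · exact Or.inr (Or.inr (Or.inl ⟨2, by norm_num, by norm_num, rfl⟩))
      · exact Or.inr (Or.inr (Or.inl ⟨3, by norm_num, by norm_num, rfl⟩))
      · exact Or.inr (Or.inr (Or.inl ⟨4, by norm_num, by norm_num, rfl⟩))
      · exact Or.inr (Or.inr (Or.inr (Or.inl ⟨5, by norm_num, by norm_num, rfl⟩)))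
      · exact Or.inr (Or.inr (Or.inr (Or.inl ⟨6, by norm_num, by norm_num, rfl⟩)))
    · rw [e]
      have := M.sw_up (fs := nfmL) (d := ndF 1 zero zero)
        (a := M.pr (M.pr (M.nfm (M.hd (M.tl a))) (M.nfm (M.tl (M.tl a)))) (M.tl a)) (n := b)
      simp only [nfmL, List.length_cons, List.length_nil] at this
      simp only [nfmL]
      rw [this]
      exact Or.inr (Or.inl (by simp))

/-- Good formula codes. -/
def Kr.gm (M : Kr V) {w : M.W} (a : M.D w) : Prop := M.nfm a = a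

theorem Kr.gm_mono {v : M.W} (h : w ≤ v) {a : M.D w} (k : M.gm a) : M.gm (M.tr h a) := by
  unfold Kr.gm at *
  rw [← M.tr_nfm, k]

@[simp] theorem Kr.gm_eqc {a b : M.D w} : M.gm (M.nd 0 a b) ↔ M.gf a ∧ M.gf b := by
  simp [Kr.gm, Kr.gf, Kr.nd_inj]
@[simp] theorem Kr.gm_btc : M.gm (M.nd 1 (M.zr (w := w)) M.zr) := by simp [Kr.gm]
@[simp] theorem Kr.gm_cj {a b : M.D w} : M.gm (M.nd 2 a b) ↔ M.gm a ∧ M.gm b := by
  simp [Kr.gm, Kr.nd_inj]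
@[simp] theorem Kr.gm_dj {a b : M.D w} : M.gm (M.nd 3 a b) ↔ M.gm a ∧ M.gm b := by
  simp [Kr.gm, Kr.nd_inj]
@[simp] theorem Kr.gm_im {a b : M.D w} : M.gm (M.nd 4 a b) ↔ M.gm a ∧ M.gm b := by
  simp [Kr.gm, Kr.nd_inj]
@[simp] theorem Kr.gm_exc {a : M.D w} : M.gm (M.nd 5 a M.zr) ↔ M.gm a := by
  simp [Kr.gm, Kr.nd_inj]
@[simp] theorem Kr.gm_alc {a : M.D w} : M.gm (M.nd 6 a M.zr) ↔ M.gm a := by
  simp [Kr.gm, Kr.nd_inj]
@[simp] theorem Kr.gm_sbc {a b : M.D w} : M.gm (M.nd 7 a b) ↔ M.gm a ∧ M.gf b := by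
  simp [Kr.gm, Kr.gf, Kr.nd_inj]

theorem Kr.gm_bin {k : ℕ} (h2 : 2 ≤ k) (h5 : k < 5) {a b : M.D w} :
    M.gm (M.nd k a b) ↔ M.gm a ∧ M.gm b := by
  interval_cases k <;> simp

theorem Kr.gm_un {k : ℕ} (h2 : 5 ≤ k) (h5 : k < 7) {a : M.D w} :
    M.gm (M.nd k a M.zr) ↔ M.gm a := by
  interval_cases k <;> simp

theorem Kr.gm_nfm (a : M.D w) : M.gm (M.nfm a) := by
  have := M.find (eq (comp nfmF (comp nfmF right)) (comp nfmF right)) M.zr (by simp [KD.F])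
    (fun {v} h t m h1 h2 => by
      have h1 : M.gm (M.nfm (M.hd m)) := by simpa [KD.F, Kr.gm] using h1
      have h2 : M.gm (M.nfm (M.tl m)) := by simpa [KD.F, Kr.gm] using h2
      suffices M.gm (M.nfm (M.cs t m)) by simpa [KD.F, Kr.gm] using this
      rcases M.nfm_cases (M.cs t m) with e | e | ⟨k, a1, a2, e⟩ | ⟨k, a1, a2, e⟩ | e
      · rw [e]; simp [Kr.gf_nfn]
      · rw [e]; simp
      · rw [e, Kr.gm_bin a1 a2]
        simp only [Kr.tl_S, M.right_pr]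
        exact ⟨h1, h2⟩
      · rw [e, Kr.gm_un a1 a2]
        simp only [Kr.tl_S, M.right_pr]
        exact h1
      · rw [e, Kr.gm_sbc]
        simp only [Kr.tl_S, M.right_pr]
        exact ⟨h1, M.gf_nfn _⟩) a
  simpa [KD.F, Kr.gm] using this

/-- Case distinction for good formula codes. -/
theorem Kr.gm_cases {a : M.D w} (h : M.gm a) :
    (∃ f g, M.gf f ∧ M.gf g ∧ a = M.nd 0 f g) ∨ a = M.nd 1 M.zr M.zr ∨
    (∃ k b c, 2 ≤ k ∧ k < 5 ∧ M.gm b ∧ M.gm c ∧ a = M.nd k b c) ∨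
    (∃ k b, 5 ≤ k ∧ k < 7 ∧ M.gm b ∧ a = M.nd k b M.zr) ∨
    ∃ b f, M.gm b ∧ M.gf f ∧ a = M.nd 7 b f := by
  rcases M.nfm_cases a with e | e | ⟨k, a1, a2, e⟩ | ⟨k, a1, a2, e⟩ | e
  · exact Or.inl ⟨_, _, M.gf_nfn _, M.gf_nfn _, h ▸ e⟩
  · exact Or.inr (Or.inl (h ▸ e))
  · exact Or.inr (Or.inr (Or.inl ⟨k, _, _, a1, a2, M.gm_nfm _, M.gm_nfm _, h ▸ e⟩))
  · exact Or.inr (Or.inr (Or.inr (Or.inl ⟨k, _, a1, a2, M.gm_nfm _, h ▸ e⟩)))
  · exact Or.inr (Or.inr (Or.inr (Or.inr ⟨_, _, M.gm_nfm _, M.gf_nfn _, h ▸ e⟩)))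

/-- Induction on good formula codes. -/
theorem Kr.gm_ind (P : Fm V) {w : M.W} (a : M.D w)
    (heq : ∀ {v : M.W} (h : w ≤ v) (f g : M.D v), M.gf f → M.gf g →
      M.F P (M.pr (M.tr h a) (M.nd 0 f g)))
    (hbt : M.F P (M.pr a (M.nd 1 M.zr M.zr)))
    (hbin : ∀ {v : M.W} (h : w ≤ v) (k : ℕ) (x y : M.D v), 2 ≤ k → k < 5 → M.gm x → M.gm y →
      M.F P (M.pr (M.tr h a) x) → M.F P (M.pr (M.tr h a) y) →
      M.F P (M.pr (M.tr h a) (M.nd k x y)))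
    (hun : ∀ {v : M.W} (h : w ≤ v) (k : ℕ) (x : M.D v), 5 ≤ k → k < 7 → M.gm x →
      M.F P (M.pr (M.tr h a) x) → M.F P (M.pr (M.tr h a) (M.nd k x M.zr)))
    (hsb : ∀ {v : M.W} (h : w ≤ v) (x f : M.D v), M.gm x → M.gf f →
      M.F P (M.pr (M.tr h a) x) → M.F P (M.pr (M.tr h a) (M.nd 7 x f)))
    {x : M.D w} (hx : M.gm x) : M.F P (M.pr a x) := by
  have := M.find (sub P (pair left (comp nfmF right))) a (by simpa [KD.F] using hbt)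
    (fun {v} h t m e1 e2 => by
      have e1 : M.F P (M.pr (M.tr h a) (M.nfm (M.hd m))) := by simpa [KD.F] using e1
      have e2 : M.F P (M.pr (M.tr h a) (M.nfm (M.tl m))) := by simpa [KD.F] using e2
      suffices M.F P (M.pr (M.tr h a) (M.nfm (M.cs t m))) by simpa [KD.F] using this
      rcases M.nfm_cases (M.cs t m) with e | e | ⟨k, a1, a2, e⟩ | ⟨k, a1, a2, e⟩ | e
      · rw [e]; exact heq h _ _ (M.gf_nfn _) (M.gf_nfn _)
      · rw [e]; simpa using M.mono P h _ hbt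
      · rw [e]
        simp only [Kr.tl_S, M.right_pr]
        exact hbin h k _ _ a1 a2 (M.gm_nfm _) (M.gm_nfm _) e1 e2
      · rw [e]
        simp only [Kr.tl_S, M.right_pr]
        exact hun h k _ a1 a2 (M.gm_nfm _) e1
      · rw [e]
        simp only [Kr.tl_S, M.right_pr]
        exact hsb h _ _ (M.gm_nfm _) (M.gf_nfn _) e1) x
  have e : M.nfm x = x := hx
  simpa [KD.F, e] using this

end HAr
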