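import Pool.Agent.Lib.MP_61e577_lc.Ar.Sol
import Pool.Agent.Lib.MP_61e577_lc.Ar.Mkv

/-! What is provable about the limit of the Solovay function. -/

namespace HAr

open Fn Fm

variable {V : Type} {M : Kr V} {w : M.W} {F : Frm} {i j k : ℕ}

theorem Kr.solp_nm_inj {a b : ℕ} (h : M.nm (w := w) a = M.nm b) : a = b :=
  not_not.1 fun h1 => Kr.nm_ne h1 h

/-- A bound for the instance provability of a provable formula. -/
theorem Kr.solp_ins {a : M.D w} (hp : M.Pv a) : ∃ n d, M.ins n M.tc d = M.pr a M.zr := by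
  obtain ⟨p, rfl⟩ := hp
  refine ⟨M.add (M.S p) (M.S (M.cc p)), ?_⟩
  refine Kr.Ins_thm ⟨_, rfl⟩ ?_ M.zr
  rw [M.add_comm]
  exact ⟨_, rfl⟩

/-- The stage of a triple is not smaller than the last component. -/
theorem Kr.solp_le (n d t : M.D w) : M.le t (M.pr n (M.pr d t)) := by
  have h1 := (M.left_right_le (M.pr n (M.pr d t))).2
  have h2 := (M.left_right_le (M.pr d t)).2
  rw [M.right_pr] at h1 h2
  exact M.le_trans' h2 h1

/-- (H3) If `i` is reached, and the negation of the limit `j` is provable for some `j` in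
`R i`, then a point above `i` is reached. -/
theorem Kr.H3 (h : M.rc F (w := w) i) (hR : F.R i j) (hp : M.Pv (M.nl F (w := w) j)) :
    ∃ k, F.lt i k ∧ M.rc F (w := w) k := by
  have hi := Kr.rc_N h
  obtain ⟨t, ht⟩ := h
  obtain ⟨n, d, hd⟩ := Kr.solp_ins hp
  obtain ⟨i0, -, h0⟩ := Kr.st_pos F (M.pr n (M.pr d t))
  obtain ⟨j', rfl, hj'⟩ := Kr.st_le (Kr.solp_le n d t) ht h0
  rcases hj' with rfl | hj'
  · refine ⟨j, F.R_lt hR, M.S (M.pr n (M.pr d t)), ?_⟩
    · rw [Kr.st_move (F := F) (i := j' + 1) (j := j) hi (F.lt_N (F.R_lt hR)).2 h0 hd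
        (Or.inl hR), M.left_pr]
  · exact ⟨j', hj', _, h0⟩

/-- If the negation of some limit is provable then some point is reached. -/
theorem Kr.H0 (hj : j < F.N) (hp : M.Pv (M.nl F (w := w) j)) :
    ∃ k, M.rc F (w := w) k := by
  obtain ⟨n, d, hd⟩ := Kr.solp_ins hp
  obtain ⟨i0, hi0, h0⟩ := Kr.st_pos F (M.pr n (M.pr d M.zr))
  rcases i0 with _ | k
  · refine ⟨j, M.S (M.pr n (M.pr d M.zr)), ?_⟩
    rw [Kr.st_move (F := F) (i := 0) (j := j) hi0 hj h0 hd (Or.inl trivial), M.left_pr]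
  · exact ⟨k, _, h0⟩

/-- A change of the state at a reached point is a move to a point above it. -/
theorem Kr.solp_move {m m' : M.D w} (h : M.le m m') (hne : M.st F m ≠ M.st F m') {i : ℕ}
    (hi : M.fn left (M.st F m) = M.nm (i + 1)) :
    ∃ j t, M.fn left (M.st F t) = M.nm (j + 1) ∧ F.lt i j ∧
      (F.R i j ∨ M.le (M.S (M.fn right (M.st F t))) (M.fn right (M.st F m))) := by
  obtain ⟨m1, -, -, h3, h4⟩ := Kr.st_first h hne
  rcases Kr.st_S F m1 with h5 | ⟨a, j, x, ha, hj, h5, h6, h7, h8⟩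
  · exact absurd (h5.trans h3) h4
  · rw [h3, hi] at h5
    obtain rfl := (Kr.solp_nm_inj h5).symm
    refine ⟨j, M.S m1, ?_, ?_, ?_⟩
    · rw [h6, M.left_pr]
    · rcases h8 with h8 | h8
      · exact F.R_lt h8
      · exact h8.1
    · rcases h8 with h8 | h8
      · exact Or.inl h8
      · right
        rw [h6, M.right_pr, ← h3]
        exact h8.2

theorem Kr.solp_tc : M.tc (w := w) = M.nm (encM (eq zero zero)) := by
  rw [M.nm_encM]
  rfl

/-- The scheme: instance provability of the negation of the limit. -/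
noncomputable def solpI (F : Frm) (j : ℕ) : Fm ℕ :=
  insT (.mv 0) (cst (encM (eq zero zero))) (cst (encM (F.nlS F.h j)))

theorem Kr.F_solpI {N : Kr ℕ} {u : N.W} {d : N.D u} :
    N.F (solpI F j) d ↔ N.Ins (N.fn (.mv 0) d) N.tc (N.nl F j) d := by
  rw [solpI, Kr.F_insT, Kr.fn_cst, Kr.fn_cst, ← Kr.solp_tc]
  rfl

theorem Kr.solp_icm {ρ τ : ℕ → M.D w} {n : M.D w} (h : ρ 0 = M.num n) :
    M.icm ρ τ (solpI F j) = M.iC n M.tc (M.nl F j) := by
  refine Kr.insp_icm h ?_ ?_
  · rw [Kr.solp_tc, Kr.num_nm ρ]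
  · rw [Kr.nl, Kr.num_nm ρ]

theorem Kr.solp_li {ρ τ : ℕ → M.D w} (P : Fm Empty) :
    M.icm ρ τ (P.li : Fm ℕ) = M.nm (encM P) := by
  rw [Kr.icm_li, Kr.nm_encM]

/-- The schemes of reflection. -/
noncomputable def solpR (F : Frm) (j : ℕ) : Fm ℕ := imp (solpI F j) (F.nlS F.h j).li

theorem Kr.solp_refl {ρ τ : ℕ → M.D w} {n : M.D w} (h : ρ 0 = M.num n) :
    M.Pv (M.icm ρ τ (solpR F j)) := by
  have h1 := Kr.refl_tc (n := n) (z := M.nl F (w := w) j) (Kr.gm_encM _)
  have h2 : M.icm ρ τ (solpR F j) = M.im (M.icm ρ τ (solpI F j))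
    (M.icm ρ τ (F.nlS F.h j).li) := rfl
  rw [h2, Kr.solp_icm h, Kr.solp_li]
  exact h1

/-- Reflection in a model: the limit is not `j`. -/
theorem Kr.solp_use {N : Kr ℕ} {u : N.W} (hN : ∀ (v : N.W) (_ : u ≤ v) (d : N.D v),
    N.F (solpR F j) d) {n : N.D u} (hn : ∀ d : N.D u, N.fn (.mv 0) d = n) {x : N.D u}
    (h : N.Ins n N.tc (N.nl F j) x) (hj : N.rc F (w := u) j) :
    ∃ (v : N.W) (_ : u ≤ v) (k : ℕ), F.lt j k ∧ N.rc F (w := v) k := by
  by_contra hc
  push Not at hc
  have h1 := hN u (le_refl u) x u (le_refl u)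
  rw [N.tr_refl] at h1
  have h2 := h1 (by rw [Kr.F_solpI, hn]; exact h)
  rw [li_nlS] at h2
  have h3 := h2 u (le_refl u)
  rw [N.tr_refl] at h3
  refine h3 ?_
  rw [Kr.F_lamS]
  exact ⟨hj, fun v hv k hk => hc v hv k hk⟩

/-- (H4) For every bound, it is provable that under the limit `i` the negation of the limit
`j` above or equal to `i` is not instance provable. -/
theorem Kr.H4 (hi : i < F.N) (h : i = j ∨ F.lt i j) (n : M.D w) :
    M.Pv (M.im (M.nm (encM (F.lamS F.h i))) (M.im (M.iC n M.tc (M.nl F j)) M.btc)) := by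
  have key : M.Pv (M.icm (fun _ => M.num n) (fun _ => M.tc)
      (imp (F.lamS F.h i).li (imp (solpI F j) bot) : Fm ℕ)) := by
    refine Kr.ruleC 1 [] [solpR F i, solpR F j] _ (by simp) ?_ (fun _ => M.gf_num _)
      (fun _ => by simp) (M.pr n M.zr) ?_ (by simp) ?_
    · intro N u e hc _ hN d v0 hv0 h1 v hv h2
      have hcv : ∀ x : N.D v, N.fn (.mv 0) x = N.fn left (N.tr (hv0.trans hv) e) := by
        intro x
        rw [hc 0 (by norm_num) v (hv0.trans hv) x]
        rfl
      have hN1 : ∀ (v' : N.W) (_ : v ≤ v') (x : N.D v'), N.F (solpR F i) x :=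
        fun v' hv' x => hN _ (by simp) v' ((hv0.trans hv).trans hv') x
      have hN2 : ∀ (v' : N.W) (_ : v ≤ v') (x : N.D v'), N.F (solpR F j) x :=
        fun v' hv' x => hN _ (by simp) v' ((hv0.trans hv).trans hv') x
      rw [li_lamS, Kr.F_lamS] at h1
      obtain ⟨h3, h4⟩ := h1
      have h3 := Kr.rc_mono hv h3
      have h4 : ∀ (v' : N.W) (_ : v ≤ v') (a : ℕ), F.lt i a → ¬ N.rc F (w := v') a :=
        fun v' hv' a ha => h4 v' (hv.trans hv') a ha
      rw [Kr.F_solpI, hcv] at h2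
      rcases h with rfl | h
      · obtain ⟨v', hv', a, ha, h5⟩ := Kr.solp_use hN1 hcv h2 h3
        exact h4 v' hv' a ha h5
      · obtain ⟨m0, hm0⟩ := h3
        generalize N.fn left (N.tr (hv0.trans hv) e) = q at h2 hcv
        have hcase : N.le (N.S q) (N.fn right (N.st F m0)) ∨
            N.le (N.fn right (N.st F m0)) q := by
          rcases N.le_total' (N.S q) (N.fn right (N.st F m0)) with h5 | h5
          · exact Or.inl h5
          · rcases Kr.le_S_cases h5 with h6 | h6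
            · exact Or.inr h6
            · left
              rw [h6]
              exact N.le_rfl' _
        rcases hcase with h5 | h5
        · obtain ⟨y, hy⟩ := h2
          have hst : N.st F m0 = N.st F (N.pr q (N.pr y m0)) := by
            by_contra hne
            obtain ⟨a, t, h6, h7, -⟩ := Kr.solp_move (Kr.solp_le q y m0) hne hm0
            exact h4 v (le_refl v) a h7 ⟨t, h6⟩
          have h6 := Kr.st_move (F := F) (i := i + 1) (j := j) hi (F.lt_N h).2
            (by rw [← hst]; exact hm0) hy (Or.inr ⟨h, by rw [← hst]; exact h5⟩)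
          refine h4 v (le_refl v) j h ⟨N.S (N.pr q (N.pr y m0)), ?_⟩
          rw [h6, N.left_pr]
        · obtain ⟨x', hx'⟩ := Kr.st_ins hm0
          obtain ⟨v', hv', a, ha, h6⟩ := Kr.solp_use hN1 hcv (Kr.Ins_le h5 hx') ⟨m0, hm0⟩
          exact h4 v' hv' a ha h6
    · intro i hi
      obtain rfl : i = 0 := by omega
      simp [prj]
    · intro ψ hψ
      simp only [List.mem_cons, List.not_mem_nil, or_false] at hψ
      rcases hψ with rfl | rfl
      · exact Kr.solp_refl rfl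
      · exact Kr.solp_refl rfl
  have e : M.icm (fun _ => M.num n) (fun _ => M.tc)
      (imp (F.lamS F.h i).li (imp (solpI F j) bot) : Fm ℕ) =
      M.im (M.nm (encM (F.lamS F.h i))) (M.im (M.iC n M.tc (M.nl F j)) M.btc) := by
    show M.im (M.icm _ _ (F.lamS F.h i).li) (M.im (M.icm _ _ (solpI F j)) M.btc) = _
    rw [Kr.solp_li, Kr.solp_icm rfl]
  rwa [e] at key

/-- Points above a point. -/
noncomputable def Frm.ab (F : Frm) (i : ℕ) : Finset ℕ :=
  open Classical in (Finset.range F.N).filter (F.lt i)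

theorem Frm.ab_lt (h : F.lt i j) : (F.ab j).card < (F.ab i).card := by
  classical
  refine Finset.card_lt_card ?_
  rw [Finset.ssubset_iff_of_subset]
  · refine ⟨j, ?_, ?_⟩
    · simp only [Frm.ab, Finset.mem_filter, Finset.mem_range]
      exact ⟨(F.lt_N h).2, h⟩
    · simp only [Frm.ab, Finset.mem_filter, Finset.mem_range]
      exact fun h1 => F.lt_irrefl j h1.2
  · intro a ha
    simp only [Frm.ab, Finset.mem_filter, Finset.mem_range] at ha ⊢
    exact ⟨ha.1, F.lt_trans h ha.2⟩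

/-- If no point of `R i` is ever reached then no point equal to `i` or above `i` has a rank
below the bound of the reflection. -/
theorem Kr.solp_no {N : Kr ℕ} {u : N.W} {r : N.D u}
    (hr : ∀ (v : N.W) (h : u ≤ v) (d : N.D v), N.fn (.mv 0) d = N.tr h r)
    (hN : ∀ a < F.N, ∀ (v : N.W) (_ : u ≤ v) (d : N.D v), N.F (solpR F a) d)
    (hR : ∀ (v : N.W) (_ : u ≤ v) (a : ℕ), F.R i a → ¬ N.rc F (w := v) a) :
    ∀ (c k : ℕ), (F.ab k).card = c → (k = i ∨ F.lt i k) → ∀ (v : N.W) (h : u ≤ v) (m : N.D v),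
      N.fn left (N.st F m) = N.nm (k + 1) → ¬ N.le (N.fn right (N.st F m)) (N.tr h r) := by
  intro c
  induction c using Nat.strong_induction_on with
  | _ c ih =>
  intro k hk hik v h m hm hle
  obtain ⟨x, hx⟩ := Kr.st_ins hm
  have hkN : k < F.N := Kr.rc_N (F := F) ⟨m, hm⟩
  obtain ⟨v', hv', a, ha, t, ht⟩ := Kr.solp_use
    (fun v' hv' x => hN k hkN v' (h.trans hv') x) (fun d => hr v h d) (Kr.Ins_le hle hx)
    ⟨m, hm⟩
  have hm' : N.fn left (N.st F (N.tr hv' m)) = N.nm (k + 1) := by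
    have := congrArg (N.tr hv') hm
    rwa [N.tr_fn, Kr.tr_nm, Kr.st, N.tr_fn] at this
  have hle' : N.le (N.fn right (N.st F (N.tr hv' m))) (N.tr (h.trans hv') r) := by
    have := Kr.le_mono hv' hle
    rwa [N.tr_fn, Kr.st, N.tr_fn, N.tr_tr] at this
  have hmt : N.le (N.tr hv' m) t := by
    rcases N.le_total' (N.tr hv' m) t with h1 | h1
    · exact h1
    · obtain ⟨b, hb, h2⟩ := Kr.st_le h1 ht hm'
      obtain rfl : k = b := Nat.succ_injective hb
      rcases h2 with rfl | h2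
      · exact absurd ha (F.lt_irrefl k)
      · exact absurd (F.lt_trans ha h2) (F.lt_irrefl k)
  have hne : N.st F (N.tr hv' m) ≠ N.st F t := by
    intro h1
    rw [h1, ht] at hm'
    have := Nat.succ_injective (Kr.solp_nm_inj hm')
    rw [this] at ha
    exact F.lt_irrefl k ha
  obtain ⟨b, s, h1, h2, h3⟩ := Kr.solp_move hmt hne hm'
  have hib : F.lt i b := by
    rcases hik with rfl | hik
    · exact h2
    · exact F.lt_trans hik h2
  rcases h3 with h3 | h3
  · refine hR v' (h.trans hv') b ?_ ⟨s, h1⟩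
    rcases hik with rfl | hik
    · exact h3
    · exact F.lt_R hik h3
  · have h4 := F.ab_lt h2
    refine ih _ (by rw [← hk]; exact h4) b rfl (Or.inr hib) v' (h.trans hv') s h1 ?_
    exact N.le_trans' (N.le_trans' (N.le_S (N.le_rfl' _)) h3) hle'

theorem solp_djs {U : Type} {L : List (Fm U)} (h : ∀ P ∈ L, P.Pos) : (djs L).Pos := by
  induction L with
  | nil => trivial
  | cons P L ih =>
    exact ⟨h P (List.mem_cons_self ..), ih fun Q hQ => h Q (List.mem_cons_of_mem _ hQ)⟩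

theorem solp_rcs {U : Type} (h : Fn U) (p : ℕ → Prop) : (F.rcs h p).Pos := by
  refine solp_djs fun P hP => ?_
  obtain ⟨a, -, rfl⟩ := List.mem_map.1 hP
  trivial

/-- The statement that a point with some property is reached does not depend on the
argument. -/
theorem Kr.solp_inv (p : ℕ → Prop) : M.inv (M.nm (w := w) (encM (F.rcs F.h p))) := by
  have h1 : Prv (imp (F.rcs F.h p).li (all (sub (F.rcs F.h p).li right)) : Fm ℕ) := by
    refine complete fun N u d v h h2 v' h' e => ?_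
    rw [li_rcs] at h2 ⊢
    show N.F (F.rcs F.h.li p) _
    rw [Kr.F_rcs] at h2 ⊢
    obtain ⟨a, ha, hp, h3⟩ := h2
    exact ⟨a, ha, hp, Kr.rc_mono h' h3⟩
  have h2 := Kr.D1 h1 (M := M) (w := w) (ρ := fun _ => M.nd 0 M.zr M.zr) (τ := fun _ => M.tc)
    (fun _ => by simp) (fun _ => by simp)
  have h3 : M.Pv (M.im (M.icm (fun _ => M.nd 0 M.zr M.zr) (fun _ => M.tc)
    ((F.rcs F.h p).li : Fm ℕ)) (M.alc (M.sbc (M.icm (fun _ => M.nd 0 M.zr M.zr) (fun _ => M.tc)
    ((F.rcs F.h p).li : Fm ℕ)) (M.nd 4 M.zr M.zr)))) := h2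
  rw [Kr.solp_li] at h3
  exact h3

/-- (H2) If `i` is reached then it is provable that a point in `R i` is reached. -/
theorem Kr.H2 (h : M.rc F (w := w) i) :
    M.Pv (M.nm (w := w) (encM (F.rcs F.h (F.R i)))) := by
  obtain ⟨m, hm⟩ := h
  have key : M.Pv (M.icm (as4 (M.num (M.fn right (M.st F m))) (M.num m) (M.num m) (M.num m))
      (fun _ => M.tc) (imp (imp (F.rcs F.h (F.R i)).li bot) bot : Fm ℕ)) := by
    refine Kr.ruleC 2 [eq (comp F.h (prj 1)) (pair (cst (i + 1)) (prj 0))]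
      ((List.range F.N).map (solpR F)) _ ?_ ?_
      (Kr.gf_as4 (M.gf_num _) (M.gf_num _) (M.gf_num _) (M.gf_num _))
      (fun _ => by simp) (M.pr (M.fn right (M.st F m)) (M.pr m M.zr)) ?_ ?_ ?_
    · intro θ hθ
      rw [List.mem_singleton.1 hθ]
      trivial
    · intro N u e hc hθ hN d v hv h1
      have h2 := hθ _ (List.mem_singleton.2 rfl)
      have h3 : N.st F (N.fn (prj 1) e) = N.pr (N.nm (i + 1)) (N.fn (prj 0) e) := by
        simpa [KD.F, Kr.st] using h2
      have h4 : N.st F (N.tr hv (N.fn (prj 1) e)) =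
          N.pr (N.nm (i + 1)) (N.tr hv (N.fn (prj 0) e)) := by
        have := congrArg (N.tr hv) h3
        rwa [N.tr_pr, Kr.tr_nm, Kr.st, N.tr_fn] at this
      refine Kr.solp_no (F := F) (i := i) (N := N) (u := v) (r := N.tr hv (N.fn (prj 0) e))
        ?_ ?_ ?_ _ i rfl (Or.inl rfl) v (le_refl v) (N.tr hv (N.fn (prj 1) e)) ?_ ?_
      · intro v' h' x
        rw [hc 0 (by norm_num) v' (hv.trans h') x, ← N.tr_fn, N.tr_tr]
      · intro a ha v' h' x
        exact hN _ (List.mem_map.2 ⟨a, List.mem_range.2 ha, rfl⟩) v' (hv.trans h') x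
      · intro v' h' a ha h5
        refine h1 v' h' ?_
        rw [li_rcs, Kr.F_rcs]
        exact ⟨a, Kr.rc_N h5, ha, h5⟩
      · rw [h4, N.left_pr]
      · rw [h4, N.right_pr, N.tr_refl]
        exact N.le_rfl' _
    · intro i hi
      interval_cases i <;> simp [prj, as4]
    · intro θ hθ
      rw [List.mem_singleton.1 hθ]
      show M.fn _ _ = M.fn _ _
      have h1 : M.fn F.h.li m = M.pr (M.nm (i + 1)) (M.fn right (M.st F m)) := by
        rw [← hm, M.pr_eta]
        rfl
      have h2 : M.fn (comp F.h (prj 1)).li (M.pr (M.fn right (M.st F m)) (M.pr m M.zr)) =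
          M.fn F.h.li m := by simp [prj]
      have h3 : M.fn (pair (cst (i + 1)) (prj 0)).li (M.pr (M.fn right (M.st F m))
          (M.pr m M.zr)) = M.pr (M.nm (i + 1)) (M.fn right (M.st F m)) := by simp [prj]
      exact h2.trans (h1.trans h3.symm)
    · intro ψ hψ
      obtain ⟨a, -, rfl⟩ := List.mem_map.1 hψ
      exact Kr.solp_refl rfl
  have key2 : M.Pv (M.im (M.im (M.nm (w := w) (encM (F.rcs F.h (F.R i)))) M.btc) M.btc) := by
    have h1 : M.Pv (M.im (M.im (M.icm (as4 (M.num (M.fn right (M.st F m))) (M.num m) (M.num m)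
      (M.num m)) (fun _ => M.tc) ((F.rcs F.h (F.R i)).li : Fm ℕ)) M.btc) M.btc) := key
    rwa [Kr.solp_li] at h1
  have h3 := Kr.solp_inv (M := M) (w := w) (F := F) (F.R i)
  rw [M.nm_encM] at key2 h3 ⊢
  exact Kr.markov (F.rcs F.h (F.R i)) (solp_rcs _ _) (fun i => i.elim) (fun i => i.elim) h3 key2

/-- (H5) In the standard model no point is reached. -/
theorem H5 (i : ℕ) : ¬ std.rc F (w := stw) i := by
  have key : ∀ (c i : ℕ), (F.ab i).card = c → ¬ std.rc F (w := stw) i := by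
    intro c
    induction c using Nat.strong_induction_on with
    | _ c ih =>
    intro i hi h
    have h1 := Kr.H2 h
    rw [std_nm, ← Prv_iff] at h1
    have h2 : Prv ((F.rcs F.h (F.R i)).li : Fm Empty) := h1.ms _ _
    have h3 := std.sound h2 (stN 0)
    rw [li_rcs, Kr.F_rcs] at h3
    obtain ⟨k, -, hk, h4⟩ := h3
    exact ih _ (by rw [← hi]; exact F.ab_lt (F.R_lt hk)) k rfl h4
  exact key _ i rfl

end HAr
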