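import Pool.Agent.Lib.MP_61e577_lc.Ar.Sel
import Pool.Agent.Lib.MP_61e577_lc.Ar.Solp
import Pool.Agent.Lib.MP_61e577_lc.Ar.Itp

/-! The frame of a finite refutation structure, the interpretation, and what HA proves about the
translations belonging to the nodes of the tree model. -/

namespace HAr

open Fn Fm

variable {Φ Ψ : Finset HAs.Form} {K : Finset HAs.Spot}

/-- The `i`-th spot. -/
noncomputable def ptK (K : Finset HAs.Spot) (i : ℕ) : HAs.Spot := K.toList.getD i ⟨∅, ∅, ∅⟩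

/-- The number of a spot. -/
noncomputable def idK (K : Finset HAs.Spot) (k : HAs.Spot) : ℕ := K.toList.idxOf k

theorem idK_lt {k : HAs.Spot} (h : k ∈ K) : idK K k < K.card := by
  rw [← Finset.length_toList]
  exact List.idxOf_lt_length_of_mem (Finset.mem_toList.2 h)

theorem ptK_idK {k : HAs.Spot} (h : k ∈ K) : ptK K (idK K k) = k := by
  have h1 : K.toList.idxOf k < K.toList.length :=
    List.idxOf_lt_length_of_mem (Finset.mem_toList.2 h)
  rw [ptK, idK, List.getD_eq_getElem _ _ h1, List.getElem_idxOf]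

theorem ptK_mem {i : ℕ} (h : i < K.card) : ptK K i ∈ K := by
  rw [← Finset.length_toList] at h
  rw [ptK, List.getD_eq_getElem _ _ h]
  exact Finset.mem_toList.1 (List.getElem_mem _)

theorem idK_ptK {i : ℕ} (h : i < K.card) : idK K (ptK K i) = i := by
  rw [← Finset.length_toList] at h
  rw [ptK, List.getD_eq_getElem _ _ h, idK]
  exact List.Nodup.idxOf_getElem (Finset.nodup_toList K) i h

/-- The frame. -/
noncomputable def frmK (hK : HAs.IsSys Φ K) : Frm where
  N := K.card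
  lt i j := i < K.card ∧ j < K.card ∧ i ≠ j ∧ (ptK K i).le (ptK K j)
  R i j := i < K.card ∧ j < K.card ∧ (ptK K i).R (ptK K j)
  lt_N := fun h => ⟨h.1, h.2.1⟩
  lt_irrefl := fun _ h => h.2.2.1 rfl
  lt_trans := by
    rintro i j k ⟨hi, hj, hij, h1⟩ ⟨-, hk, hjk, h2⟩
    refine ⟨hi, hk, ?_, HAs.Spot.le_trans h1 h2⟩
    rintro rfl
    have h3 := HAs.Spot.le_antisymm h1 h2
    exact hij (by rw [← idK_ptK hi, ← idK_ptK hj, h3])
  R_lt := by
    rintro i j ⟨hi, hj, h⟩
    refine ⟨hi, hj, ?_, hK.R_le (ptK_mem hi) (ptK_mem hj) h⟩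
    rintro rfl
    exact ssubset_irrefl _ h.2.2
  lt_R := by
    rintro i j k ⟨hi, hj, -, h1⟩ ⟨-, hk, h2⟩
    exact ⟨hi, hk, HAs.Spot.le_R h1 h2⟩
  R_lt' := by
    rintro i j k ⟨hi, hj, h1⟩ ⟨-, hk, -, h2⟩
    exact ⟨hi, hk, HAs.Spot.R_le h1 h2⟩

/-- The interpretation of the atoms: the atom `n` says that some point with `n` is reached. -/
noncomputable def sgK (hK : HAs.IsSys Φ K) (ix : HAs.Spot → ℕ) (n : ℕ) : Fm Empty :=
  (frmK hK).rcs (frmK hK).h fun i => ∃ k ∈ K, ix k = n ∧ k.le (ptK K i)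

/-- Finite sequences. -/
def Kr.sqn {V : Type} (M : Kr V) {w : M.W} : List (M.D w) → M.D w
  | [] => M.zr
  | a :: l => M.pr a (Kr.sqn M l)

open Classical in
/-- The conjunction of the implications of `Ψ` which hold at a node. -/
noncomputable def Gv (hK : HAs.IsSys Φ K) (ix : HAs.Spot → ℕ) (Ψ : Finset HAs.Form)
    (v : HAs.Wd K) : HAs.Form :=
  HAs.cj (Ψ.toList.filter fun A => (∃ B C, A = .imp B C) ∧ (HAs.tm hK ix).frc A v)

section
variable (hK : HAs.IsSys Φ K) (ix : HAs.Spot → ℕ) (Ψ : Finset HAs.Form) (M : Kr Empty)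
  {w : M.W} (u : HAs.Wd K)

/-- The parameter of the translation of a node. -/
noncomputable def Kr.eu (n : M.D w) : M.D w :=
  M.pr n (M.pr M.btc (M.sqn ((HAs.ch u).map fun v => M.am (sgK hK ix) (Gv hK ix Ψ v))))

/-- The translation of a node. -/
noncomputable def Kr.tu (n a : M.D w) : M.D w :=
  M.fn (trl (HAs.ch u).length) (M.pr (M.eu hK ix Ψ u n) a)

/-- The code of the limit statement of a node. -/
noncomputable def Kr.lu {w : M.W} : M.D w :=
  M.nm (encM ((frmK hK).lamS (frmK hK).h (idK K u.1.tag)))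

end

theorem Kr.fn_prj_sqn {V : Type} (M : Kr V) {w : M.W} :
    ∀ (L : List (M.D w)) (i : ℕ) (h : i < L.length), M.fn (prj i) (M.sqn L) = L[i]
  | [], i, h => absurd h (by simp)
  | a :: L, 0, _ => by simp [Kr.sqn, prj]
  | a :: L, i + 1, h => by
    have h1 : i < L.length := by simpa using h
    simp only [Kr.sqn, prj, M.fn_comp, M.right_pr, List.getElem_cons_succ]
    exact Kr.fn_prj_sqn M L i h1

theorem Kr.inv_btc {V : Type} (M : Kr V) {w : M.W} : M.inv (M.btc (w := w)) :=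
  Kr.q0 (φ := imp bot (all (sub bot right))) (ρ := fun _ => M.nd 0 M.zr M.zr)
    (τ := fun _ => M.btc) (fun _ => M.gf0) (fun _ => M.gm_btc) (fun _ _ _ _ _ h => h.elim)

theorem Kr.Va_eu (hK : HAs.IsSys Φ K) (ix : HAs.Spot → ℕ) (Ψ : Finset HAs.Form) (M : Kr Empty)
    {w : M.W} (u : HAs.Wd K) (n : M.D w) : M.Va (HAs.ch u).length (M.eu hK ix Ψ u n) := by
  have e1 : M.fn (comp left right) (M.eu hK ix Ψ u n) = M.btc := by simp [Kr.eu]
  refine ⟨?_, ?_, ?_⟩
  · rw [e1]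
    exact M.gm_btc
  · rw [e1]
    exact M.inv_btc
  · intro i hi
    have e2 : M.fn (ffF i) (M.eu hK ix Ψ u n) = M.fn (prj i) (M.sqn ((HAs.ch u).map fun v =>
        M.am (sgK hK ix) (Gv hK ix Ψ v))) := by
      simp [ffF, Kr.eu]
    rw [e2, Kr.fn_prj_sqn _ _ _ (by simpa using hi), List.getElem_map]
    exact Kr.gm_am _ _

/-- HA proves that under the limit of the node, the translation of the node behaves like forcing
at the node. -/
def NodeOK (hK : HAs.IsSys Φ K) (ix : HAs.Spot → ℕ) (Ψ : Finset HAs.Form) (u : HAs.Wd K) :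
    Prop :=
  ∃ n0 : ℕ, ∀ (M : Kr Empty) (w : M.W) (n : M.D w), M.le (M.nm n0) n → ∀ A ∈ Ψ,
    ((HAs.tm hK ix).frc A u →
      M.Pv (M.im (M.lu hK u) (M.tu hK ix Ψ u n (M.am (sgK hK ix) A)))) ∧
    (¬ (HAs.tm hK ix).frc A u →
      M.Pv (M.im (M.lu hK u) (M.im (M.tu hK ix Ψ u n (M.am (sgK hK ix) A)) M.btc))) ∧
    (∀ B C, A = .imp B C → (∃ v : HAs.Wd K, v.1.inn u.1 ∧ (HAs.tm hK ix).frc B v ∧
      ¬ (HAs.tm hK ix).frc C v) →
      M.Pv (M.im (M.lu hK u) (M.im (M.tu hK ix Ψ u n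
        (M.im (M.am (sgK hK ix) B) (M.am (sgK hK ix) C))) M.btc)))

/-- HA proves that if the point is reached, formulas valid at all its modal successors are
provable. -/
def PtOK (hK : HAs.IsSys Φ K) (ix : HAs.Spot → ℕ) (Ψ : Finset HAs.Form) (k : HAs.Spot) :
    Prop :=
  ∀ A ∈ Ψ, HAs.valR hK ix k A → ∀ (M : Kr Empty) (w : M.W),
    M.rc (frmK hK) (w := w) (idK K k) → M.Pv (M.am (sgK hK ix) A (w := w))

end HAr
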