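import Pool.Agent.Lib.MP_61e577_lc.Ar.Nod

/-! Provable formulas and reached points. -/

namespace HAr

open Fn Fm

variable {Φ Ψ : Finset HAs.Form} {K : Finset HAs.Spot}

theorem frmK_lt (hK : HAs.IsSys Φ K) {k : HAs.Spot} (hk : k ∈ K) {j : ℕ}
    (h : (frmK hK).lt (idK K k) j) : ptK K j ∈ K ∧ idK K (ptK K j) = j ∧ k.le (ptK K j) ∧
      k ≠ ptK K j := by
  obtain ⟨-, hj, hne, h1⟩ := h
  rw [ptK_idK hk] at h1
  refine ⟨ptK_mem hj, idK_ptK hj, h1, ?_⟩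
  intro e
  exact hne (by rw [e, idK_ptK hj])

theorem frmK_R (hK : HAs.IsSys Φ K) {k l : HAs.Spot} (hk : k ∈ K) (hl : l ∈ K) (h : k.R l) :
    (frmK hK).R (idK K k) (idK K l) := by
  refine ⟨idK_lt hk, idK_lt hl, ?_⟩
  rw [ptK_idK hk, ptK_idK hl]
  exact h

theorem Kr.q_ng {V : Type} {M : Kr V} {w : M.W} {a b : M.D w}
    (h : M.Pv (M.im a (M.im b M.btc))) (k : M.Pv b) : M.Pv (M.im a M.btc) := by
  refine Kr.q2 (A := imp (.mv 0) (imp (.mv 1) bot)) (B := .mv 1) (φ := imp (.mv 0) bot)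
    (ρ := fun _ => M.nd 0 M.zr M.zr) (τ := as4 a b M.btc M.btc)
    (fun _ => M.gf0) (Kr.gm_as4 (Kr.im_gm h).1 (Kr.Pv_gm k) M.gm_btc M.gm_btc) h k ?_
  intro N u hA hB d v l e
  exact Kr.F_app (Kr.F_app (hA v l _) e) (hB v l _)

/-- If a node does not force a formula whose interpretation is provable, then the negation of
its limit statement is provable. -/
theorem NodeOK.nl (hK : HAs.IsSys Φ K) {ix : HAs.Spot → ℕ} {v : HAs.Wd K}
    (h : NodeOK hK ix Ψ v) {A : HAs.Form} (hA : A ∈ Ψ) (hv : ¬ (HAs.tm hK ix).frc A v)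
    {M : Kr Empty} {w : M.W} (hp : M.Pv (M.am (sgK hK ix) A (w := w))) :
    M.Pv (M.nl (frmK hK) (w := w) (idK K v.1.tag)) := by
  obtain ⟨n0, hn0⟩ := h
  obtain ⟨p, hp⟩ := hp
  obtain ⟨n, hn⟩ := M.Gd_ex p
  have h1 : M.Gd (M.add n (M.nm n0)) p := Kr.Gd_le hn ⟨_, rfl⟩ (M.le_rfl' p)
  have h2 : M.le (M.nm n0) (M.add n (M.nm n0)) := by
    rw [M.add_comm]
    exact ⟨_, rfl⟩
  have h3 := (hn0 M w (M.add n (M.nm n0)) h2 A hA).2.1 hv
  have h4 : M.Pv (M.tu hK ix Ψ v (M.add n (M.nm n0)) (M.am (sgK hK ix) A)) := by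
    rw [← hp]
    refine Kr.Pv_trl (M.Va_eu hK ix Ψ v _) ?_
    rw [Kr.eu, M.left_pr]
    exact h1
  have h5 : M.nl (frmK hK) (w := w) (idK K v.1.tag) = M.im (M.lu hK v) M.btc := by
    unfold Kr.nl Frm.nlS Kr.lu
    generalize (frmK hK).lamS (frmK hK).h (idK K v.1.tag) = P
    rw [encM, M.nm_ndN, encM, M.nm_ndN]
    rfl
  rw [h5]
  exact Kr.q_ng h3 h4

/-- If a formula is provable then a point is reached at whose modal successors it is valid. -/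
theorem eqR (hK : HAs.IsSys Φ K) (ix : HAs.Spot → ℕ) {k : HAs.Spot} (hk : k ∈ K)
    (hN : ∀ v : HAs.Wd K, k.R v.1.tag → NodeOK hK ix Ψ v) {A : HAs.Form} (hA : A ∈ Ψ)
    (M : Kr Empty) (w : M.W) (hr : M.rc (frmK hK) (w := w) (idK K k))
    (hp : M.Pv (M.am (sgK hK ix) A (w := w))) :
    ∃ l ∈ K, k.le l ∧ M.rc (frmK hK) (w := w) (idK K l) ∧ HAs.valR hK ix l A := by
  classical
  obtain ⟨c, hc⟩ : ∃ c, (K.filter fun m => k.le m).card = c := ⟨_, rfl⟩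
  induction c using Nat.strong_induction_on generalizing k with
  | _ c ih =>
  by_cases hval : HAs.valR hK ix k A
  · exact ⟨k, hk, HAs.Spot.le_refl k, hr, hval⟩
  · unfold HAs.valR at hval
    push Not at hval
    obtain ⟨v, hkv, hv⟩ := hval
    have h1 := (hN v hkv).nl hK hA hv hp
    obtain ⟨j, hj, hrj⟩ := Kr.H3 hr (frmK_R hK hk (HAs.tagK v) hkv) h1
    obtain ⟨h2, h3, h4, h5⟩ := frmK_lt hK hk hj
    rw [← h3] at hrj
    have h6 : (K.filter fun m => (ptK K j).le m).card < c := by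
      rw [← hc]
      refine Finset.card_lt_card ?_
      rw [Finset.ssubset_iff_of_subset]
      · refine ⟨k, ?_, ?_⟩
        · rw [Finset.mem_filter]
          exact ⟨hk, HAs.Spot.le_refl k⟩
        · rw [Finset.mem_filter]
          exact fun h => h5 (HAs.Spot.le_antisymm h4 h.2)
      · intro m hm
        rw [Finset.mem_filter] at hm ⊢
        exact ⟨hm.1, HAs.Spot.le_trans h4 hm.2⟩
    obtain ⟨l, hl, h7, h8, h9⟩ := ih _ h6 h2 (fun v hv => hN v (HAs.Spot.le_R h4 hv)) hrj rfl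
    exact ⟨l, hl, HAs.Spot.le_trans h4 h7, h8, h9⟩

end HAr
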