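import Pool.Agent.Lib.MP_61e577_lc.Ar.NodNA

/-! The translation of a node: the side formula and standard bounds. -/

namespace HAr

open Fn Fm

variable {Φ Ψ : Finset HAs.Form} {K : Finset HAs.Spot} {V : Type}

/-- The proof code of a theorem is a standard number. -/
theorem nodn_code {P : Fm Empty} (h : Prv P) : ∃ p : ℕ, ∀ (M : Kr V) (w : M.W),
    M.cc (M.nm p) = (M.nm (encM P) : M.D w) := by
  obtain ⟨q, hq⟩ := (Prv_iff P).1 h
  obtain ⟨p, hp⟩ := stN_surj q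
  rw [hp] at hq
  refine ⟨p, ?_⟩
  generalize encM P = k at hq
  have h1 : std.F ((eq (comp conclF (cst p)) (cst k) : Fm Empty).li : Fm Empty)
      (std.zr (w := stw)) := by
    rw [li_eq, li_comp, li_conclF, li_cst, li_cst]
    show std.fn _ _ = std.fn _ _
    rw [std.fn_comp, Kr.fn_cst, Kr.fn_cst, Kr.fn_conclF, std_nm, std_nm]
    exact hq
  have h2 := Kr.sigma (eq (comp conclF (cst p)) (cst k) : Fm Empty) trivial h1
  have h3 : Prv (sub (eq (comp conclF (cst p)) (cst k)) zero : Fm Empty) := by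
    rw [Prv_iff, ← std_nm, Kr.nm_encM]
    rw [Kr.num_zr] at h2
    exact h2
  intro M w
  have h4 : Prv ((sub (eq (comp conclF (cst p)) (cst k)) zero : Fm Empty).li : Fm V) := h3.ms _ _
  have h5 := M.sound h4 (M.zr (w := w))
  rw [li_sub, li_eq, li_comp, li_conclF, li_cst, li_cst] at h5
  have h5 : M.fn _ _ = M.fn _ _ := h5
  rw [M.fn_comp, Kr.fn_cst, Kr.fn_cst, Kr.fn_conclF] at h5
  exact h5

/-- Comparison of standard numbers. -/
theorem Kr.nodn_nm (M : Kr V) {w : M.W} (a b : ℕ) : M.le (M.nm a (w := w)) (M.nm (a + b)) := by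
  induction b with
  | zero => exact Kr.le_rfl' _
  | succ b ih => exact Kr.le_S ih

theorem Kr.nodn_nm' (M : Kr V) {w : M.W} {a b : ℕ} (h : a ≤ b) :
    M.le (M.nm a (w := w)) (M.nm b) := by
  obtain ⟨c, rfl⟩ := Nat.exists_eq_add_of_le h
  exact Kr.nodn_nm M a c

/-- A standard bound for the proof code of a theorem. -/
theorem nodn_std {P : Fm Empty} (h : Prv P) : ∃ n0 : ℕ, ∀ (M : Kr V) (w : M.W) (n : M.D w),
    M.le (M.nm n0) n → M.b2P n (M.nm (encM P)) := by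
  obtain ⟨p, hp⟩ := nodn_code (V := V) h
  generalize encM P = k at hp
  refine ⟨p + 1 + (k + 1), fun M w n hn => ⟨M.nm p, hp M w, ?_, ?_⟩⟩
  · exact Kr.le_trans' (Kr.nodn_nm' M (a := p + 1) (by omega)) hn
  · exact Kr.le_trans' (Kr.nodn_nm' M (a := k + 1) (by omega)) hn

/-- The conjunction of instance provabilities: introduction. -/
theorem Kr.nodn_bxs1 (M : Kr V) {w : M.W} {n c s : M.D w} {ρ τ : ℕ → M.D w} {f : ℕ → M.D w}
    (h0 : ρ 0 = M.num n) (h1 : ρ 1 = M.num c) (hs : M.gm s) : ∀ l : ℕ,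
    (∀ i < l, ρ (i + 2) = M.num (f i)) → (∀ i < l, M.Pv (M.im s (M.iC n (f i) c))) →
    M.Pv (M.im s (M.icm ρ τ (bxs l)))
  | 0, _, _ => by
    have e : M.icm ρ τ (bxs 0) = M.tc := rfl
    rw [e]
    exact Kr.Pv_k hs Kr.Pv_tc
  | l + 1, h2, h3 => by
    have e : M.icm ρ τ (bxs (l + 1)) = M.cj (M.icm ρ τ (bxs l))
        (M.icm ρ τ (insT (.mv 0) (.mv (l + 2)) (.mv 1))) := rfl
    have e1 : M.icm ρ τ (insT (.mv 0) (.mv (l + 2)) (.mv 1)) = M.iC n (f l) c :=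
      Kr.insp_icm (A := .mv 0) (B := .mv (l + 2)) (C := .mv 1) h0 (h2 l (Nat.lt_succ_self l)) h1
    rw [e, e1]
    exact Kr.q_cj (Kr.nodn_bxs1 M h0 h1 hs l (fun i hi => h2 i (by omega))
      fun i hi => h3 i (by omega)) (h3 l (Nat.lt_succ_self l))

/-- The conjunction of instance provabilities: elimination. -/
theorem Kr.nodn_bxs2 (M : Kr V) {w : M.W} {n c : M.D w} {ρ τ : ℕ → M.D w} {f : ℕ → M.D w}
    (h0 : ρ 0 = M.num n) (h1 : ρ 1 = M.num c) : ∀ l : ℕ,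
    (∀ i < l, ρ (i + 2) = M.num (f i)) → M.gm (M.icm ρ τ (bxs l)) ∧ ∀ i < l,
    M.Pv (M.im (M.icm ρ τ (bxs l)) (M.iC n (f i) c))
  | 0, _ => by
    refine ⟨?_, fun i hi => absurd hi (Nat.not_lt_zero i)⟩
    have e : M.icm ρ τ (bxs 0) = M.tc := rfl
    rw [e]
    exact Kr.Pv_gm Kr.Pv_tc
  | l + 1, h2 => by
    have e : M.icm ρ τ (bxs (l + 1)) = M.cj (M.icm ρ τ (bxs l))
        (M.icm ρ τ (insT (.mv 0) (.mv (l + 2)) (.mv 1))) := rfl
    have e1 : M.icm ρ τ (insT (.mv 0) (.mv (l + 2)) (.mv 1)) = M.iC n (f l) c :=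
      Kr.insp_icm (A := .mv 0) (B := .mv (l + 2)) (C := .mv 1) h0 (h2 l (Nat.lt_succ_self l)) h1
    rw [e, e1]
    obtain ⟨g, ih⟩ := Kr.nodn_bxs2 M (τ := τ) h0 h1 l (fun i hi => h2 i (by omega))
    refine ⟨Kr.gm_cj.2 ⟨g, M.gm_iC _ _ _⟩, fun i hi => ?_⟩
    rcases Nat.lt_succ_iff_lt_or_eq.1 hi with hi | rfl
    · exact Kr.q_tr (Kr.q_fst g (M.gm_iC _ _ _)) (ih i hi)
    · exact Kr.q_snd g (M.gm_iC _ _ _)

/-- Entries of a finite sequence. -/
theorem Kr.nodn_prj (M : Kr V) {w : M.W} : ∀ (L : List (M.D w)) (i : ℕ) (h : i < L.length),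
    M.fn (prj i) (M.sqn L) = L[i]
  | [], i, h => absurd h (Nat.not_lt_zero i)
  | a :: L, 0, _ => by
    show M.fn left (M.pr a (M.sqn L)) = a
    rw [M.left_pr]
  | a :: L, i + 1, h => by
    show M.fn (comp (prj i) right) (M.pr a (M.sqn L)) = _
    rw [M.fn_comp, M.right_pr, Kr.nodn_prj M L i (Nat.lt_of_succ_lt_succ h)]
    rfl

section
variable (hK : HAs.IsSys Φ K) (ix : HAs.Spot → ℕ) (Ψ : Finset HAs.Form) (M : Kr Empty)
  {w : M.W} (u : HAs.Wd K) (n : M.D w)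

theorem Kr.nodn_H : TrH M (trl (HAs.ch u).length) (BFl (HAs.ch u).length) (comp left right) smT
    (M.eu hK ix Ψ u n) := Kr.trH_trl (M.Va_eu hK ix Ψ u n)

/-- The parameter formula is falsity. -/
theorem Kr.nodn_RF : M.fn (comp left right) (M.eu hK ix Ψ u n) = M.btc := by
  simp [Kr.eu]

/-- The side formula of the translation of a node. -/
noncomputable def Kr.bu (c : M.D w) : M.D w :=
  M.fn (BFl (HAs.ch u).length) (M.pr (M.eu hK ix Ψ u n) c)

/-- The formula of the `i`-th child. -/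
theorem Kr.nodn_ff {i : ℕ} (hi : i < (HAs.ch u).length) (c : M.D w) :
    M.fn (bxR (i + 2)) (M.pr (M.eu hK ix Ψ u n) c) =
      M.num (M.am (sgK hK ix) (Gv hK ix Ψ ((HAs.ch u)[i]))) := by
  have h := M.nodn_prj ((HAs.ch u).map fun v => M.am (sgK hK ix) (Gv hK ix Ψ v) (w := w)) i
    (by rwa [List.length_map])
  rw [bxR, M.fn_comp, Kr.fn_numF, M.fn_comp, M.fn_comp, M.fn_comp, M.left_pr, Kr.eu,
    M.right_pr, M.right_pr, h, List.getElem_map]

/-- Instance provability from all children gives the side formula. -/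
theorem Kr.nodn_side1 {s c : M.D w} (hs : M.gm s)
    (h : ∀ v ∈ HAs.ch u, M.Pv (M.im s (M.iC n (M.am (sgK hK ix) (Gv hK ix Ψ v)) c))) :
    M.Pv (M.im s (M.bu hK ix Ψ u n c)) := by
  classical
  obtain ⟨f, hf⟩ : ∃ f : ℕ → M.D w, ∀ (i : ℕ) (hi : i < (HAs.ch u).length),
      f i = M.am (sgK hK ix) (Gv hK ix Ψ ((HAs.ch u)[i])) :=
    ⟨fun i => if hi : i < (HAs.ch u).length then M.am (sgK hK ix) (Gv hK ix Ψ ((HAs.ch u)[i]))
      else M.zr, fun i hi => dif_pos hi⟩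
  rw [Kr.bu, Kr.fn_BFl]
  have h1 := M.nodn_bxs1 (n := n) (c := c) (s := s) (f := f)
    (ρ := fun i => M.fn (bxR i) (M.pr (M.eu hK ix Ψ u n) c))
    (τ := fun _ => M.fn (comp left right) (M.eu hK ix Ψ u n)) (by simp [bxR, Kr.eu])
    (by simp [bxR]) hs (HAs.ch u).length
    (fun i hi => by
      show M.fn (bxR (i + 2)) _ = _
      rw [Kr.nodn_ff hK ix Ψ M u n hi c, hf i hi])
    (fun i hi => by
      rw [hf i hi]
      exact h _ (List.getElem_mem hi))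
  refine Kr.q_tr h1 (Kr.q_inl (Kr.im_gm h1).2 ?_)
  rw [Kr.nodn_RF]
  exact Kr.gm_btc

/-- The side formula gives instance provability from every child. -/
theorem Kr.nodn_side2 {x : HAs.Wd K} (hx : x ∈ HAs.ch u) (c : M.D w) :
    M.Pv (M.im (M.bu hK ix Ψ u n c) (M.iC n (M.am (sgK hK ix) (Gv hK ix Ψ x)) c)) := by
  classical
  obtain ⟨f, hf⟩ : ∃ f : ℕ → M.D w, ∀ (i : ℕ) (hi : i < (HAs.ch u).length),
      f i = M.am (sgK hK ix) (Gv hK ix Ψ ((HAs.ch u)[i])) :=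
    ⟨fun i => if hi : i < (HAs.ch u).length then M.am (sgK hK ix) (Gv hK ix Ψ ((HAs.ch u)[i]))
      else M.zr, fun i hi => dif_pos hi⟩
  obtain ⟨i, hi, rfl⟩ := List.getElem_of_mem hx
  rw [Kr.bu, Kr.fn_BFl]
  obtain ⟨g, h1⟩ := M.nodn_bxs2 (n := n) (c := c) (f := f)
    (ρ := fun i => M.fn (bxR i) (M.pr (M.eu hK ix Ψ u n) c))
    (τ := fun _ => M.fn (comp left right) (M.eu hK ix Ψ u n)) (by simp [bxR, Kr.eu])
    (by simp [bxR]) (HAs.ch u).length
    (fun i hi => by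
      show M.fn (bxR (i + 2)) _ = _
      rw [Kr.nodn_ff hK ix Ψ M u n hi c, hf i hi])
  have h2 := h1 i hi
  rw [hf i hi] at h2
  refine Kr.q_djE h2 ?_
  rw [Kr.nodn_RF]
  exact Kr.q_bt (M.gm_iC _ _ _)

end

end HAr
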