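import Pool.Agent.Lib.MP_61e577_lc.Ar.NodNB
import Pool.Agent.Lib.MP_61e577_lc.Ar.NodNC

/-! The induction step for nodes. -/

namespace HAr

open Fn Fm

variable {Φ Ψ : Finset HAs.Form} {K : Finset HAs.Spot}

/-! ### Propositional steps -/

section
variable {M : Kr Empty} {w : M.W} {s a b c : M.D w}

theorem Kr.nodn_cmp (h : M.Pv (M.im b a)) (k : M.Pv (M.im s (M.im a c))) :
    M.Pv (M.im s (M.im b c)) :=
  Kr.q2 (A := imp (.mv 1) (.mv 0)) (B := imp (.mv 2) (imp (.mv 0) (.mv 3)))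
    (φ := imp (.mv 2) (imp (.mv 1) (.mv 3)))
    (ρ := fun _ => M.nd 0 M.zr M.zr) (τ := as4 a b s c)
    (fun _ => M.gf0) (Kr.gm_as4 (Kr.im_gm h).2 (Kr.im_gm h).1 (Kr.im_gm k).1
      (Kr.gm_im.1 (Kr.im_gm k).2).2) h k
    (fun N _ hA hB d v l h v2 l2 h2 => by
      have h3 : N.F (imp (.mv 0) (.mv 3)) (N.tr l d) := Kr.F_app (hB v l _) h
      exact h3 v2 l2 (Kr.F_app (hA v2 (l.trans l2) _) h2))

theorem Kr.nodn_cmp2 (h : M.Pv (M.im s (M.im a b))) (k : M.Pv (M.im b c)) :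
    M.Pv (M.im s (M.im a c)) :=
  Kr.q2 (A := imp (.mv 2) (imp (.mv 0) (.mv 1))) (B := imp (.mv 1) (.mv 3))
    (φ := imp (.mv 2) (imp (.mv 0) (.mv 3)))
    (ρ := fun _ => M.nd 0 M.zr M.zr) (τ := as4 a b s c)
    (fun _ => M.gf0) (Kr.gm_as4 (Kr.gm_im.1 (Kr.im_gm h).2).1 (Kr.gm_im.1 (Kr.im_gm h).2).2
      (Kr.im_gm h).1 (Kr.im_gm k).2) h k
    (fun N _ hA hB d v l h v2 l2 h2 => by
      have h3 : N.F (imp (.mv 0) (.mv 1)) (N.tr l d) := Kr.F_app (hA v l _) h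
      exact Kr.F_app (hB v2 (l.trans l2) _) (h3 v2 l2 h2))

theorem Kr.nodn_dj (h : M.Pv (M.im s (M.im a c))) (k : M.Pv (M.im s (M.im b c))) :
    M.Pv (M.im s (M.im (M.dj a b) c)) :=
  Kr.q2 (A := imp (.mv 2) (imp (.mv 0) (.mv 3))) (B := imp (.mv 2) (imp (.mv 1) (.mv 3)))
    (φ := imp (.mv 2) (imp (disj (.mv 0) (.mv 1)) (.mv 3)))
    (ρ := fun _ => M.nd 0 M.zr M.zr) (τ := as4 a b s c)
    (fun _ => M.gf0) (Kr.gm_as4 (Kr.gm_im.1 (Kr.im_gm h).2).1 (Kr.gm_im.1 (Kr.im_gm k).2).1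
      (Kr.im_gm h).1 (Kr.gm_im.1 (Kr.im_gm k).2).2) h k
    (fun N _ hA hB d v l h v2 l2 h2 => by
      have h3 : N.F (imp (.mv 0) (.mv 3)) (N.tr l d) := Kr.F_app (hA v l _) h
      have h4 : N.F (imp (.mv 1) (.mv 3)) (N.tr l d) := Kr.F_app (hB v l _) h
      rcases h2 with h2 | h2
      · exact h3 v2 l2 h2
      · exact h4 v2 l2 h2)

/-- If the antecedent holds and the succedent fails then the implication fails. -/
theorem Kr.nodn_t3 {t : M.D w} (h : M.Pv (M.im t (M.im a b))) (h1 : M.Pv (M.im s a))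
    (h2 : M.Pv (M.im s (M.im b M.btc))) : M.Pv (M.im s (M.im t M.btc)) :=
  Kr.q3 (A := imp (.mv 3) (imp (.mv 0) (.mv 1))) (B := imp (.mv 2) (.mv 0))
    (C := imp (.mv 2) (imp (.mv 1) bot)) (φ := imp (.mv 2) (imp (.mv 3) bot))
    (ρ := fun _ => M.nd 0 M.zr M.zr) (τ := as4 a b s t)
    (fun _ => M.gf0) (Kr.gm_as4 (Kr.im_gm h1).2 (Kr.gm_im.1 (Kr.im_gm h).2).2
      (Kr.im_gm h1).1 (Kr.im_gm h).1) h h1 h2
    (fun N _ hA hB hC d v l h v2 l2 h3 => by
      have h4 := Kr.F_app (hA v2 (l.trans l2) _) h3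
      have h5 : N.F (imp (.mv 1) bot) (N.tr l d) := Kr.F_app (hC v l _) h
      have h6 := N.mono (.mv 0) l2 _ (Kr.F_app (hB v l _) h)
      exact h5 v2 l2 (Kr.F_app h4 h6))

end

/-! ### Codes of theorems -/

theorem Kr.nodn_im (M : Kr Empty) {w : M.W} (P Q : Fm Empty) :
    M.nm (encM (imp P Q)) = M.im (M.nm (encM P)) (M.nm (encM Q) : M.D w) := by
  show M.nm (ndN 4 _ _) = _
  rw [Kr.nm_ndN]

theorem Kr.nodn_pv (M : Kr Empty) {w : M.W} {P Q : Fm Empty} (h : Prv (imp P Q)) :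
    M.Pv (M.im (M.nm (encM P)) (M.nm (encM Q)) : M.D w) := by
  have := Kr.Pv_enc h (M := M) (w := w)
  rwa [Kr.nodn_im] at this

theorem Kr.nodn_pvn (M : Kr Empty) {w : M.W} {P Q : Fm Empty} (h : Prv (imp P (imp Q bot))) :
    M.Pv (M.im (M.nm (encM P)) (M.im (M.nm (encM Q)) M.btc) : M.D w) := by
  have h1 := Kr.nodn_pv M (w := w) h
  rw [Kr.nodn_im] at h1
  have e : M.nm (encM bot) = (M.btc : M.D w) := by
    show M.nm (ndN 1 0 0) = _
    rw [Kr.nm_ndN]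
    rfl
  rwa [e] at h1

/-- The conjunction of a list implies its members. -/
theorem nodn_mem (σ : ℕ → Fm Empty) {A : HAs.Form} : ∀ {L : List HAs.Form}, A ∈ L →
    Prv (imp (bx (itp σ (HAs.cj L))) (bx (itp σ A)))
  | B :: L, h => by
    rcases List.mem_cons.1 h with rfl | h
    · exact Prv.ax (Ax.andL _ _)
    · have h1 := nodn_mem σ h
      have h2 : Prv (imp (bx (itp σ (HAs.cj (B :: L)))) (bx (itp σ (HAs.cj L)))) :=
        Prv.ax (Ax.andR _ _)
      refine complete fun N w d v k h3 => ?_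
      have h4 := N.sound h2 (N.tr k d) v (le_refl v)
      have h5 := N.sound h1 (N.tr k d) v (le_refl v)
      rw [N.tr_refl] at h4 h5
      exact h5 (h4 h3)

/-- The implications which hold at a node follow from their conjunction. -/
theorem nodn_one (hK : HAs.IsSys Φ K) (ix : HAs.Spot → ℕ) {v : HAs.Wd K} {B C : HAs.Form}
    (hA : .imp B C ∈ Ψ) (hf : (HAs.tm hK ix).frc (.imp B C) v) :
    Prv (imp (bx (itp (sgK hK ix) (Gv hK ix Ψ v)))
      (imp (bx (itp (sgK hK ix) B)) (bx (itp (sgK hK ix) C)))) := by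
  have h1 : Prv (imp (bx (itp (sgK hK ix) (Gv hK ix Ψ v)))
      (bx (itp (sgK hK ix) (.imp B C)))) := by
    rw [Gv]
    refine nodn_mem (sgK hK ix) ?_
    rw [List.mem_filter]
    refine ⟨Finset.mem_toList.2 hA, ?_⟩
    simp only [decide_eq_true_eq]
    exact ⟨⟨B, C, rfl⟩, hf⟩
  have h2 : Prv (imp (bx (itp (sgK hK ix) (.imp B C)))
      (imp (bx (itp (sgK hK ix) B)) (bx (itp (sgK hK ix) C)))) := Prv.ax (Ax.andL _ _)
  refine complete fun N w d v' k h3 => ?_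
  have h4 := N.sound h1 (N.tr k d) v' (le_refl v')
  have h5 := N.sound h2 (N.tr k d) v' (le_refl v')
  rw [N.tr_refl] at h4 h5
  exact h5 (h4 h3)

/-- Finitely many standard bounds. -/
theorem nodn_all {ι : Type*} (L : List ι) (P : ι → ℕ → Prop)
    (hm : ∀ i ∈ L, ∀ n n', n ≤ n' → P i n → P i n') (he : ∀ i ∈ L, ∃ n, P i n) :
    ∃ n, ∀ i ∈ L, P i n := by
  induction L with
  | nil => exact ⟨0, fun i hi => absurd hi (by simp)⟩
  | cons i L ih =>
    obtain ⟨n, hn⟩ := ih (fun j hj => hm j (List.mem_cons_of_mem _ hj))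
      (fun j hj => he j (List.mem_cons_of_mem _ hj))
    obtain ⟨m, hm'⟩ := he i (List.mem_cons_self ..)
    refine ⟨max m n, fun j hj => ?_⟩
    rcases List.mem_cons.1 hj with rfl | hj
    · exact hm j (List.mem_cons_self ..) _ _ (le_max_left _ _) hm'
    · exact hm j (List.mem_cons_of_mem _ hj) _ _ (le_max_right _ _) (hn j hj)

/-- The standard bound of a node: the implications which hold at the children are instance
provable from their conjunctions. -/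
theorem nodn_bd (hK : HAs.IsSys Φ K) (ix : HAs.Spot → ℕ) (Ψ : Finset HAs.Form)
    (u : HAs.Wd K) : ∃ n0 : ℕ, ∀ v ∈ HAs.ch u, ∀ B C, .imp B C ∈ Ψ →
      (HAs.tm hK ix).frc (.imp B C) v →
      ∀ (M : Kr Empty) (w : M.W) (n : M.D w), M.le (M.nm n0) n →
      M.Pv (M.iC n (M.am (sgK hK ix) (Gv hK ix Ψ v))
        (M.im (M.am (sgK hK ix) B) (M.am (sgK hK ix) C))) := by
  have mono : ∀ (P : Fm Empty) (a b : ℕ), a ≤ b →
      (∀ (M : Kr Empty) (w : M.W) (n : M.D w), M.le (M.nm a) n → M.b2P n (M.nm (encM P))) →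
      ∀ (M : Kr Empty) (w : M.W) (n : M.D w), M.le (M.nm b) n → M.b2P n (M.nm (encM P)) :=
    fun P a b hab h M w n hn => h M w n (Kr.le_trans' (Kr.nodn_nm' M hab) hn)
  obtain ⟨n0, h0⟩ := nodn_all (HAs.ch u) (fun v n0 => ∀ A ∈ Ψ.toList, ∀ B C, A = .imp B C →
      (HAs.tm hK ix).frc (.imp B C) v →
      ∀ (M : Kr Empty) (w : M.W) (n : M.D w), M.le (M.nm n0) n →
      M.b2P n (M.nm (encM (imp (bx (itp (sgK hK ix) (Gv hK ix Ψ v)))
      (imp (bx (itp (sgK hK ix) B)) (bx (itp (sgK hK ix) C)))))))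
    (fun v _ a b hab h A hA B C e hf => mono _ a b hab (h A hA B C e hf)) (fun v _ => by
      refine nodn_all Ψ.toList (fun A n0 => ∀ B C, A = .imp B C →
        (HAs.tm hK ix).frc (.imp B C) v →
        ∀ (M : Kr Empty) (w : M.W) (n : M.D w), M.le (M.nm n0) n →
        M.b2P n (M.nm (encM (imp (bx (itp (sgK hK ix) (Gv hK ix Ψ v)))
        (imp (bx (itp (sgK hK ix) B)) (bx (itp (sgK hK ix) C)))))))
        (fun A _ a b hab h B C e hf => mono _ a b hab (h B C e hf)) (fun A hA => ?_)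
      by_cases h : (∃ B C, A = .imp B C) ∧ (HAs.tm hK ix).frc A v
      · obtain ⟨⟨B, C, rfl⟩, hf⟩ := h
        obtain ⟨n0, h1⟩ := nodn_std (V := Empty)
          (nodn_one hK ix (Ψ := Ψ) (Finset.mem_toList.1 hA) hf)
        refine ⟨n0, fun B' C' e _ => ?_⟩
        obtain ⟨rfl, rfl⟩ : B = B' ∧ C = C' := by
          injection e with e1 e2
          exact ⟨e1, e2⟩
        exact h1
      · exact ⟨0, fun B C e hf => absurd ⟨⟨B, C, e⟩, e ▸ hf⟩ h⟩)
  refine ⟨n0, fun v hv B C hA hf M w n hn => ?_⟩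
  have h1 := h0 v hv _ (Finset.mem_toList.2 hA) B C rfl hf M w n hn
  rw [Kr.nodn_im, Kr.nodn_im] at h1
  exact Kr.b2_ic h1

section
variable (hK : HAs.IsSys Φ K) (ix : HAs.Spot → ℕ) (Ψ : Finset HAs.Form) (M : Kr Empty)
  {w : M.W} (u : HAs.Wd K) (n : M.D w)

/-- Positive formulas which hold under the limit. -/
theorem Kr.nodn_p1 {P : Fm Empty} (hP : P.Pos) (h : Prv (imp (lamK hK u.1.tag) P)) :
    M.Pv (M.im (M.lu hK u) (M.tu hK ix Ψ u n (M.nm (encM P)))) := by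
  have h1 := Kr.nodn_pv M (w := w) h
  have h2 := (Kr.nodn_H hK ix Ψ M u n).pos1 P hP (ρ := eD M w) (τ := eD M w)
    (fun i => i.elim) (fun i => i.elim)
  rw [← Kr.nm_encM] at h2
  exact Kr.q_tr h1 h2

/-- Positive formulas which fail under the limit. -/
theorem Kr.nodn_p2 {P : Fm Empty} (hP : P.Pos) (h : Prv (imp (lamK hK u.1.tag) (imp P bot))) :
    M.Pv (M.im (M.lu hK u) (M.im (M.tu hK ix Ψ u n (M.nm (encM P))) M.btc)) := by
  have h1 := Kr.nodn_pvn M (w := w) h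
  have h2 := (Kr.nodn_H hK ix Ψ M u n).pos2 P hP (ρ := eD M w) (τ := eD M w)
    (fun i => i.elim) (fun i => i.elim)
  rw [← Kr.nm_encM, Kr.nodn_RF] at h2
  have gP := M.gm_encM P (w := w)
  exact Kr.nodn_cmp (Kr.q_tr h2 (Kr.q_djE (Kr.q_id gP) (Kr.q_bt gP))) h1

end

theorem nodn_pos_bxT (k : ℕ) : (bxT (cst k) : Fm Empty).Pos := trivial

/-- The nodes. -/
theorem nodeOK_step (hK : HAs.IsSys Φ K) (ix : HAs.Spot → ℕ) (hΨ : HAs.SubCl Ψ)
    (u : HAs.Wd K) (hP : PtOK hK ix Ψ u.1.tag)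
    (hN : ∀ v : HAs.Wd K, u.1.tag.R v.1.tag → NodeOK hK ix Ψ v)
    (hC : ∀ v ∈ HAs.ch u, NodeOK hK ix Ψ v) : NodeOK hK ix Ψ u := by
  obtain ⟨n0, h0⟩ := nodn_bd hK ix Ψ u
  refine ⟨n0, fun M w n hn => ?_⟩
  have hk : u.1.tag ∈ K := HAs.tagK u
  have H := Kr.nodn_H hK ix Ψ M u n
  have gT : ∀ a, M.gm a → M.gm (M.tu hK ix Ψ u n a) := H.gT
  have gs : M.gm (M.lu hK u (w := w)) := M.gm_encM _
  have gam : ∀ A, M.gm (M.am (sgK hK ix) A (w := w)) := fun A => M.gm_am _ _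
  -- the third clause
  have third : ∀ B C, .imp B C ∈ Ψ →
      (∀ A ∈ [B, C], ((HAs.tm hK ix).frc A u →
        M.Pv (M.im (M.lu hK u) (M.tu hK ix Ψ u n (M.am (sgK hK ix) A)))) ∧
        (¬ (HAs.tm hK ix).frc A u →
        M.Pv (M.im (M.lu hK u) (M.im (M.tu hK ix Ψ u n (M.am (sgK hK ix) A)) M.btc)))) →
      (∃ v : HAs.Wd K, v.1.inn u.1 ∧ (HAs.tm hK ix).frc B v ∧ ¬ (HAs.tm hK ix).frc C v) →
      M.Pv (M.im (M.lu hK u) (M.im (M.tu hK ix Ψ u n
        (M.im (M.am (sgK hK ix) B) (M.am (sgK hK ix) C))) M.btc)) := by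
    intro B C hA ih hv
    obtain ⟨v, hv, hB, hCv⟩ := hv
    have t1 := H.T_im1 _ _ (gam B) (gam C)
    rcases HAs.inn_iff.1 hv with rfl | ⟨x, hx, hvx⟩
    · have t2 := Kr.b2_fst' t1
      exact Kr.nodn_t3 t2 ((ih B (by simp)).1 hB) ((ih C (by simp)).2 hCv)
    · have t2 := Kr.b2_snd' t1
      have t3 := Kr.q_tr t2 (Kr.nodn_side2 hK ix Ψ M u n hx _)
      exact Kr.nodn_cmp t3 (Kr.nodn_child2 hK ix hx (hC x hx) hA ⟨v, hvx, hB, hCv⟩ M w n)
  -- the first two clauses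
  have two : ∀ A : HAs.Form, A ∈ Ψ → ((HAs.tm hK ix).frc A u →
        M.Pv (M.im (M.lu hK u) (M.tu hK ix Ψ u n (M.am (sgK hK ix) A)))) ∧
        (¬ (HAs.tm hK ix).frc A u →
        M.Pv (M.im (M.lu hK u) (M.im (M.tu hK ix Ψ u n (M.am (sgK hK ix) A)) M.btc))) := by
    intro A
    induction A with
    | atom m =>
      intro _
      exact ⟨fun h => Kr.nodn_p1 hK ix Ψ M u n (nodn_pos_at hK ix m) (nodn_at1 hK ix hk h),
        fun h => Kr.nodn_p2 hK ix Ψ M u n (nodn_pos_at hK ix m) (nodn_at2 hK ix hk h)⟩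
    | bot =>
      intro _
      refine ⟨fun h => h.elim, fun _ => ?_⟩
      have e : M.tu hK ix Ψ u n (M.am (sgK hK ix) .bot) = M.btc := by
        rw [Kr.b2_am_bt]
        exact H.T_bt.trans (Kr.nodn_RF hK ix Ψ M u n)
      rw [e]
      exact Kr.Pv_k gs (Kr.q_id Kr.gm_btc)
    | conj A B ihA ihB =>
      intro hAB
      have hA := ihA (hΨ.conj hAB).1
      have hB := ihB (hΨ.conj hAB).2
      have e : M.tu hK ix Ψ u n (M.am (sgK hK ix) (.conj A B)) =
          M.cj (M.tu hK ix Ψ u n (M.am (sgK hK ix) A))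
            (M.tu hK ix Ψ u n (M.am (sgK hK ix) B)) := by
        rw [Kr.b2_am_cj]
        exact H.T_cj _ _
      rw [e]
      refine ⟨fun h => Kr.q_cj (hA.1 h.1) (hB.1 h.2), fun h => ?_⟩
      by_cases hf : (HAs.tm hK ix).frc A u
      · exact Kr.nodn_cmp (Kr.q_snd (gT _ (gam A)) (gT _ (gam B))) (hB.2 fun h1 => h ⟨hf, h1⟩)
      · exact Kr.nodn_cmp (Kr.q_fst (gT _ (gam A)) (gT _ (gam B))) (hA.2 hf)
    | disj A B ihA ihB =>
      intro hAB
      have hA := ihA (hΨ.disj hAB).1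
      have hB := ihB (hΨ.disj hAB).2
      have e : M.tu hK ix Ψ u n (M.am (sgK hK ix) (.disj A B)) =
          M.dj (M.tu hK ix Ψ u n (M.am (sgK hK ix) A))
            (M.tu hK ix Ψ u n (M.am (sgK hK ix) B)) := by
        rw [Kr.b2_am_dj]
        exact H.T_dj _ _
      rw [e]
      refine ⟨fun h => ?_, fun h => ?_⟩
      · rcases h with h | h
        · exact Kr.q_tr (hA.1 h) (Kr.q_inl (gT _ (gam A)) (gT _ (gam B)))
        · exact Kr.q_tr (hB.1 h) (Kr.q_inr (gT _ (gam A)) (gT _ (gam B)))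
      · exact Kr.nodn_dj (hA.2 fun h1 => h (Or.inl h1)) (hB.2 fun h1 => h (Or.inr h1))
    | imp B C ihB ihC =>
      intro hA
      have hB := ihB (hΨ.imp hA).1
      have hCC := ihC (hΨ.imp hA).2
      have ez : M.im (M.am (sgK hK ix) B (w := w)) (M.am (sgK hK ix) C) =
          M.nm (encM (imp (bx (itp (sgK hK ix) B)) (bx (itp (sgK hK ix) C)))) :=
        (Kr.nodn_im M _ _).symm
      have e : M.tu hK ix Ψ u n (M.am (sgK hK ix) (.imp B C)) =
          M.cj (M.tu hK ix Ψ u n (M.im (M.am (sgK hK ix) B) (M.am (sgK hK ix) C)))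
            (M.tu hK ix Ψ u n (M.nm (encM (bxT (cst (encM (imp (bx (itp (sgK hK ix) B))
              (bx (itp (sgK hK ix) C))))))))) := by
        rw [Kr.b2_am_im, ← Kr.bxC_enc, ← ez]
        exact H.T_cj _ _
      have gz : M.gm (M.im (M.am (sgK hK ix) B (w := w)) (M.am (sgK hK ix) C)) :=
        Kr.gm_im.2 ⟨gam B, gam C⟩
      have gTz := gT _ gz
      have gTb := gT _ (M.gm_encM (w := w) (bxT (cst (encM (imp (bx (itp (sgK hK ix) B))
              (bx (itp (sgK hK ix) C)))))))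
      rw [e]
      constructor
      · intro hf
        refine Kr.q_cj ?_ ?_
        · refine Kr.q_tr (Kr.q_cj ?_ ?_) (H.T_im2 _ _ (gam B) (gam C))
          · by_cases hfB : (HAs.tm hK ix).frc B u
            · exact Kr.q_wk (gT _ (gam B)) (hCC.1 (hf u ((HAs.tm hK ix).refl u) hfB))
            · exact Kr.nodn_cmp2 (hB.2 hfB) (Kr.q_bt (gT _ (gam C)))
          · refine Kr.nodn_side1 hK ix Ψ M u n gs fun v hv => ?_
            refine Kr.Pv_k gs (h0 v hv B C hA ?_ M w n hn)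
            have h1 : (HAs.tm hK ix).le u v :=
              (HAs.Nd.up_iff hK v.2 u.2).2 (Or.inl (HAs.inn_iff.2 (Or.inr ⟨v, hv,
                HAs.inn_iff.2 (Or.inl rfl)⟩)))
            exact HAs.Mdl.frc_mono h1 hf
        · refine Kr.nodn_p1 hK ix Ψ M u n (nodn_pos_bxT _) (nodn_im1 hK ix hP hA ?_)
          exact fun z hz => HAs.Mdl.frc_mono (HAs.Nd.up_R hz) hf
      · intro hf
        have hf : ∃ v : HAs.Wd K, (HAs.tm hK ix).le u v ∧ (HAs.tm hK ix).frc B v ∧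
            ¬ (HAs.tm hK ix).frc C v := by
          by_contra hc
          push Not at hc
          exact hf fun v h1 h2 => hc v h1 h2
        obtain ⟨v, hv, hfB, hfC⟩ := hf
        rcases (HAs.Nd.up_iff hK v.2 u.2).1 hv with hv | hv
        · refine Kr.nodn_cmp (Kr.q_fst gTz gTb) (third B C hA ?_ ⟨v, hv, hfB, hfC⟩)
          intro A hA'
          simp only [List.mem_cons, List.not_mem_nil, or_false] at hA'
          rcases hA' with rfl | rfl
          · exact hB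
          · exact hCC
        · refine Kr.nodn_cmp (Kr.q_snd gTz gTb) (Kr.nodn_p2 hK ix Ψ M u n (nodn_pos_bxT _)
            (nodn_im2 hK ix hk hv (hN v hv) (hΨ.imp hA).1 (hΨ.imp hA).2 hfB hfC))
    | box C _ =>
      intro hA
      refine ⟨fun h => Kr.nodn_p1 hK ix Ψ M u n (pos_box _ _)
        (nodn_bx1 hK ix hP (hΨ.box hA) h), fun h => ?_⟩
      have h : ∃ v : HAs.Wd K, u.1.tag.R v.1.tag ∧ ¬ (HAs.tm hK ix).frc C v := by
        by_contra hc
        push Not at hc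
        exact h fun v h1 => hc v h1
      obtain ⟨v, hv, hf⟩ := h
      exact Kr.nodn_p2 hK ix Ψ M u n (pos_box _ _)
        (nodn_bx2 hK ix hk hv (hN v hv) (hΨ.box hA) hf)
  intro A hA
  refine ⟨(two A hA).1, (two A hA).2, ?_⟩
  rintro B C rfl hv
  refine third B C hA ?_ hv
  intro A hA'
  simp only [List.mem_cons, List.not_mem_nil, or_false] at hA'
  rcases hA' with rfl | rfl
  · exact two _ (hΨ.imp hA).1
  · exact two _ (hΨ.imp hA).2

end HAr
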