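import Pool.Agent.Lib.MP_61e577_lc.Ar.NodP
import Pool.Agent.Lib.MP_61e577_lc.Ar.NodN
import Pool.Agent.Lib.MP_61e577_lc.Fwd

/-! All nodes; formulas refuted in the tree model. -/

namespace HAr

open Fn Fm

variable {Φ Ψ : Finset HAs.Form} {K : Finset HAs.Spot}

open Classical in
/-- The number of modal successors of a spot. -/
noncomputable def muK (K : Finset HAs.Spot) (k : HAs.Spot) : ℕ := (K.filter fun l => k.R l).card

theorem muK_le {k l : HAs.Spot} (h : k.le l) : muK K l ≤ muK K k := by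
  classical
  refine Finset.card_le_card fun m hm => ?_
  rw [Finset.mem_filter] at hm ⊢
  exact ⟨hm.1, HAs.Spot.le_R h hm.2⟩

theorem muK_lt (hK : HAs.IsSys Φ K) {k l : HAs.Spot} (hl : l ∈ K) (h : k.R l) :
    muK K l < muK K k := by
  classical
  refine Finset.card_lt_card ?_
  refine (Finset.ssubset_iff_of_subset ?_).2 ⟨l, ?_, ?_⟩
  · intro m hm
    rw [Finset.mem_filter] at hm ⊢
    exact ⟨hm.1, HAs.Spot.R_le h (hK.R_le hl hm.1 hm.2)⟩
  · rw [Finset.mem_filter]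
    exact ⟨hl, h⟩
  · intro hm
    rw [Finset.mem_filter] at hm
    exact HAs.not_R_self hm.2

theorem nodeOK_aux (hK : HAs.IsSys Φ K) (ix : HAs.Spot → ℕ) (hΨ : HAs.SubCl Ψ) : ∀ m : ℕ,
    (∀ k ∈ K, muK K k < m → PtOK hK ix Ψ k) ∧
    (∀ u : HAs.Wd K, muK K u.1.tag < m → NodeOK hK ix Ψ u) := by
  intro m
  induction m with
  | zero => exact ⟨fun k _ h => absurd h (by omega), fun u h => absurd h (by omega)⟩
  | succ m ih =>
    have hP : ∀ k ∈ K, muK K k < m + 1 → PtOK hK ix Ψ k := by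
      intro k hk hm
      refine ptOK_step hK ix hΨ hk (fun l hl hkl => ih.1 l hl ?_) ?_
      · have := muK_lt hK hl hkl
        omega
      · rintro v ⟨l, hl, h1, h2⟩
        refine ih.2 v ?_
        have h3 := muK_lt hK hl h1
        have h4 := muK_lt hK (HAs.tagK v) h2
        omega
    refine ⟨hP, fun u => ?_⟩
    refine HAs.ch_ind (p := fun u => muK K u.1.tag < m + 1 → NodeOK hK ix Ψ u) ?_ u
    intro u hu hm
    refine nodeOK_step hK ix hΨ u (hP _ (HAs.tagK u) hm) (fun v hv => ih.2 v ?_)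
      (fun v hv => hu v hv ?_)
    · have := muK_lt hK (HAs.tagK v) hv
      omega
    · have := muK_le (K := K) (HAs.mem_ch_le hv)
      omega

theorem nodeOK (hK : HAs.IsSys Φ K) (ix : HAs.Spot → ℕ) (hΨ : HAs.SubCl Ψ)
    (u : HAs.Wd K) : NodeOK hK ix Ψ u :=
  (nodeOK_aux hK ix hΨ (muK K u.1.tag + 1)).2 u (Nat.lt_succ_self _)

/-- Formulas refuted in the tree model are not theorems of HA* under the interpretation. -/
theorem tree_refutes (hK : HAs.IsSys Φ K) (ix : HAs.Spot → ℕ) (A : HAs.Form)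
    (u : HAs.Wd K) (h : ¬ (HAs.tm hK ix).frc A u) : ¬ HAst (itp (sgK hK ix) A) := by
  intro hA
  obtain ⟨n0, hn0⟩ := nodeOK hK ix (HAs.subcl A) u
  obtain ⟨p, hp⟩ : std.Pv (std.am (sgK hK ix) A (w := stw)) := Kr.Pv_enc hA
  obtain ⟨n1, hn1⟩ := Kr.Gd_ex p
  let n : std.D stw := std.add n1 (std.nm n0)
  have h1 : std.le n1 n := ⟨_, rfl⟩
  have h2 : std.le (std.nm n0) n := ⟨n1, std.add_comm _ _⟩
  have h3 := (hn0 std stw n h2 A (HAs.mem_sub_self A)).2.1 h
  have h4 : std.Pv (std.tu hK ix (HAs.sub A) u n (std.am (sgK hK ix) A)) := by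
    have := Kr.Pv_trl (Kr.Va_eu hK ix (HAs.sub A) std u n) (p := p) (by
      have e : std.fn left (std.eu hK ix (HAs.sub A) u n) = n := by simp [Kr.eu]
      rw [e]
      exact Kr.Gd_le hn1 h1 (std.le_rfl' p))
    rw [hp] at this
    exact this
  have h5 := Kr.Pv_gm h3
  rw [Kr.gm_im] at h5
  have h6 := Kr.Pv_s h3 (Kr.Pv_k h5.1 h4)
  have h7 : std.im (std.lu hK u) std.btc = std.nl (frmK hK) (w := stw) (idK K u.1.tag) := by
    simp only [Kr.lu, Kr.nl, Frm.nlS, encM, Kr.nm_ndN, Kr.nm_zero]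
  rw [h7] at h6
  obtain ⟨k, hk⟩ := Kr.H0 (idK_lt (HAs.tagK u)) h6
  exact H5 k hk

end HAr
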