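import Pool.Agent.Lib.MP_61e577_lc.Ar.Snd

/-! Auxiliary facts for the rule (B2): substitution of zero, codes of interpretations, bounds. -/

namespace HAr

open Fn Fm

variable {V U : Type} {M : Kr V} {w : M.W} {σ : ℕ → Fm Empty}

/-! ### Substitution of zero -/

/-- The instance at zero. -/
abbrev Kr.b2z (M : Kr V) {w : M.W} (a : M.D w) : M.D w := M.sbc a (M.nd 1 M.zr M.zr)

section
variable {a b c s : M.D w}

theorem Kr.b2_gm (h : M.gm a) : M.gm (M.b2z a) := Kr.gm_sbc.2 ⟨h, M.gf1⟩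

theorem Kr.b2_mono (h : M.Pv (M.im a b)) : M.Pv (M.im (M.b2z a) (M.b2z b)) := Kr.q_sb h M.gf1

theorem Kr.b2_cj1 (ha : M.gm a) (hb : M.gm b) :
    M.Pv (M.im (M.b2z (M.cj a b)) (M.cj (M.b2z a) (M.b2z b))) :=
  Kr.q0 (φ := imp (sub (conj (.mv 0) (.mv 1)) zero) (conj (sub (.mv 0) zero) (sub (.mv 1) zero)))
    (ρ := fun _ => M.nd 0 M.zr M.zr) (τ := as4 a b b b) (fun _ => M.gf0)
    (Kr.gm_as4 ha hb hb hb) (fun _ _ _ _ _ h => h)

theorem Kr.b2_cj2 (ha : M.gm a) (hb : M.gm b) :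
    M.Pv (M.im (M.cj (M.b2z a) (M.b2z b)) (M.b2z (M.cj a b))) :=
  Kr.q0 (φ := imp (conj (sub (.mv 0) zero) (sub (.mv 1) zero)) (sub (conj (.mv 0) (.mv 1)) zero))
    (ρ := fun _ => M.nd 0 M.zr M.zr) (τ := as4 a b b b) (fun _ => M.gf0)
    (Kr.gm_as4 ha hb hb hb) (fun _ _ _ _ _ h => h)

theorem Kr.b2_dj1 (ha : M.gm a) (hb : M.gm b) :
    M.Pv (M.im (M.b2z (M.dj a b)) (M.dj (M.b2z a) (M.b2z b))) :=
  Kr.q0 (φ := imp (sub (disj (.mv 0) (.mv 1)) zero) (disj (sub (.mv 0) zero) (sub (.mv 1) zero)))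
    (ρ := fun _ => M.nd 0 M.zr M.zr) (τ := as4 a b b b) (fun _ => M.gf0)
    (Kr.gm_as4 ha hb hb hb) (fun _ _ _ _ _ h => h)

theorem Kr.b2_im1 (ha : M.gm a) (hb : M.gm b) :
    M.Pv (M.im (M.b2z (M.im a b)) (M.im (M.b2z a) (M.b2z b))) :=
  Kr.q0 (φ := imp (sub (imp (.mv 0) (.mv 1)) zero) (imp (sub (.mv 0) zero) (sub (.mv 1) zero)))
    (ρ := fun _ => M.nd 0 M.zr M.zr) (τ := as4 a b b b) (fun _ => M.gf0)
    (Kr.gm_as4 ha hb hb hb) (fun N _ d => N.ax (Ax.subImp _ _ _) d)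

theorem Kr.b2_im2 (ha : M.gm a) (hb : M.gm b) (h : M.Pv (M.im (M.b2z a) (M.b2z b))) :
    M.Pv (M.b2z (M.im a b)) :=
  Kr.Pv_mp (Kr.q0 (φ := imp (imp (sub (.mv 0) zero) (sub (.mv 1) zero))
      (sub (imp (.mv 0) (.mv 1)) zero))
    (ρ := fun _ => M.nd 0 M.zr M.zr) (τ := as4 a b b b) (fun _ => M.gf0)
    (Kr.gm_as4 ha hb hb hb) (fun N _ d => N.ax (Ax.impSub _ _ _) d)) h

theorem Kr.b2_inv1 (ha : M.gm a) (hi : M.inv a) : M.Pv (M.im a (M.b2z a)) :=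
  Kr.q1 (A := imp (.mv 0) (all (sub (.mv 0) right))) (φ := imp (.mv 0) (sub (.mv 0) zero))
    (ρ := fun _ => M.nd 0 M.zr M.zr) (τ := as4 a a a a) (fun _ => M.gf0)
    (Kr.gm_as4 ha ha ha ha) hi (fun N _ hA d v l h => by
      have h1 := Kr.F_app (hA v l (N.tr l d)) h v (le_refl v) (N.fn zero (N.tr l d))
      have h1 : N.F (.mv 0) (N.fn right _) := h1
      rwa [N.right_pr] at h1)

theorem Kr.b2_inv2 (ha : M.gm a) (hi : M.inv a) : M.Pv (M.im (M.b2z a) a) :=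
  Kr.q1 (A := imp (.mv 0) (all (sub (.mv 0) right))) (φ := imp (sub (.mv 0) zero) (.mv 0))
    (ρ := fun _ => M.nd 0 M.zr M.zr) (τ := as4 a a a a) (fun _ => M.gf0)
    (Kr.gm_as4 ha ha ha ha) hi (fun N _ hA d v l h => by
      have h : N.F (.mv 0) (N.fn zero (N.tr l d)) := h
      have h1 := Kr.F_app (hA v l (N.fn zero (N.tr l d))) h v (le_refl v) (N.tr l d)
      have h1 : N.F (.mv 0) (N.fn right _) := h1
      rwa [N.right_pr] at h1)

theorem Kr.b2_cjm {a' b' : M.D w} (h : M.Pv (M.im a a')) (k : M.Pv (M.im b b')) :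
    M.Pv (M.im (M.cj a b) (M.cj a' b')) :=
  Kr.q_cj (Kr.q_tr (Kr.q_fst (Kr.im_gm h).1 (Kr.im_gm k).1) h)
    (Kr.q_tr (Kr.q_snd (Kr.im_gm h).1 (Kr.im_gm k).1) k)

theorem Kr.b2_djm {a' b' : M.D w} (h : M.Pv (M.im a a')) (k : M.Pv (M.im b b')) :
    M.Pv (M.im (M.dj a b) (M.dj a' b')) :=
  Kr.q_djE (Kr.q_tr h (Kr.q_inl (Kr.im_gm h).2 (Kr.im_gm k).2))
    (Kr.q_tr k (Kr.q_inr (Kr.im_gm h).2 (Kr.im_gm k).2))

/-- Distributivity. -/
theorem Kr.b2_dst {r : M.D w} (ha : M.gm a) (hb : M.gm b) (hr : M.gm r) :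
    M.Pv (M.im (M.cj (M.dj a r) (M.dj b r)) (M.dj (M.cj a b) r)) :=
  Kr.q0 (φ := imp (conj (disj (.mv 0) (.mv 2)) (disj (.mv 1) (.mv 2)))
      (disj (conj (.mv 0) (.mv 1)) (.mv 2))) (ρ := fun _ => M.nd 0 M.zr M.zr)
    (τ := as4 a b r r) (fun _ => M.gf0) (Kr.gm_as4 ha hb hr hr)
    (fun N _ _ _ _ h => by
      rcases h with ⟨h1 | h1, h2 | h2⟩
      · exact Or.inl ⟨h1, h2⟩
      · exact Or.inr h2
      · exact Or.inr h1
      · exact Or.inr h1)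

/-- Projections of a provable conjunction. -/
theorem Kr.b2_fst (h : M.Pv (M.cj a b)) : M.Pv a :=
  Kr.Pv_mp (Kr.q_fst (Kr.gm_cj.1 (Kr.Pv_gm h)).1 (Kr.gm_cj.1 (Kr.Pv_gm h)).2) h

theorem Kr.b2_fst' (h : M.Pv (M.im s (M.cj a b))) : M.Pv (M.im s a) :=
  Kr.q_tr h (Kr.q_fst (Kr.gm_cj.1 (Kr.im_gm h).2).1 (Kr.gm_cj.1 (Kr.im_gm h).2).2)

theorem Kr.b2_snd' (h : M.Pv (M.im s (M.cj a b))) : M.Pv (M.im s b) :=
  Kr.q_tr h (Kr.q_snd (Kr.gm_cj.1 (Kr.im_gm h).2).1 (Kr.gm_cj.1 (Kr.im_gm h).2).2)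

end

/-! ### Codes of interpretations -/

section
variable (σ) (A B : HAs.Form)

theorem Kr.b2_am_cj : M.am σ (.conj A B) (w := w) = M.cj (M.am σ A) (M.am σ B) := by
  simp only [Kr.am, itp, bx, encM, Kr.nm_ndN]

theorem Kr.b2_am_dj : M.am σ (.disj A B) (w := w) = M.dj (M.am σ A) (M.am σ B) := by
  simp only [Kr.am, itp, bx, encM, Kr.nm_ndN]

theorem Kr.b2_am_bt : M.am σ .bot (w := w) = M.btc := by
  simp only [Kr.am, itp, bx, encM, Kr.nm_ndN]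
  rfl

theorem Kr.b2_am_im : M.am σ (.imp A B) (w := w) =
    M.cj (M.im (M.am σ A) (M.am σ B)) (M.bxC (M.im (M.am σ A) (M.am σ B))) := by
  have h : M.im (M.am σ A (w := w)) (M.am σ B) =
      M.nm (encM (imp (bx (itp σ A)) (bx (itp σ B)))) := by
    rw [encM, Kr.nm_ndN]; rfl
  rw [h, Kr.bxC_enc]
  show M.nm (encM (bx (imp (itp σ A) (itp σ B)))) = _
  rw [bx]
  show M.nm (ndN 2 _ _) = _
  rw [Kr.nm_ndN]

end

/-! ### Bounds -/

theorem Kr.b2_le_add (a b : M.D w) : M.le a (M.add a b) := ⟨b, rfl⟩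

theorem Kr.b2_le_add' (a b : M.D w) : M.le b (M.add a b) := by
  rw [Kr.add_comm]; exact Kr.b2_le_add b a

/-- Finitely many bounds. -/
theorem Kr.b2_all {ι : Type*} (L : List ι) (P : ι → M.D w → Prop)
    (hm : ∀ i ∈ L, ∀ n n', M.le n n' → P i n → P i n') (he : ∀ i ∈ L, ∃ n, P i n) :
    ∃ n, ∀ i ∈ L, P i n := by
  induction L with
  | nil => exact ⟨M.zr, fun i hi => absurd hi (by simp)⟩
  | cons i L ih =>
    obtain ⟨n, hn⟩ := ih (fun j hj => hm j (List.mem_cons_of_mem _ hj))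
      (fun j hj => he j (List.mem_cons_of_mem _ hj))
    obtain ⟨m, hm'⟩ := he i (List.mem_cons_self ..)
    refine ⟨M.add m n, fun j hj => ?_⟩
    rcases List.mem_cons.1 hj with rfl | hj
    · exact hm j (List.mem_cons_self ..) _ _ (Kr.b2_le_add _ _) hm'
    · exact hm j (List.mem_cons_of_mem _ hj) _ _ (Kr.b2_le_add' _ _) (hn j hj)

/-- The bound is good for a theorem: it is larger than some proof code and the theorem. -/
def Kr.b2P (M : Kr V) {w : M.W} (n c : M.D w) : Prop :=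
  ∃ q, M.cc q = c ∧ M.le (M.S q) n ∧ M.le (M.S c) n

theorem Kr.b2P_mono {n n' c : M.D w} (h : M.le n n') (k : M.b2P n c) : M.b2P n' c := by
  obtain ⟨q, h1, h2, h3⟩ := k
  exact ⟨q, h1, Kr.le_trans' h2 h, Kr.le_trans' h3 h⟩

theorem Kr.b2P_ex {c : M.D w} (h : M.Pv c) : ∃ n, M.b2P n c := by
  obtain ⟨q, h⟩ := h
  exact ⟨M.add (M.S q) (M.S c), q, h, Kr.b2_le_add _ _, Kr.b2_le_add' _ _⟩

/-- A theorem `F -> c` with a small proof gives the instance provability of `c` from `F`. -/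
theorem Kr.b2_ic {n F c : M.D w} (h : M.b2P n (M.im F c)) : M.Pv (M.iC n F c) := by
  obtain ⟨q, h1, h2, h3⟩ := h
  have h4 := Kr.Pv_gm (⟨q, h1⟩ : M.Pv (M.im F c))
  have := Kr.ruleC (M := M) (w := w) 4 [eq (comp conclF (prj 3)) (ndF 4 (prj 1) (prj 2)),
      leT (comp succ (prj 3)) (prj 0), leT (comp succ (comp conclF (prj 3))) (prj 0)] []
    (insT (.mv 0) (.mv 1) (.mv 2))
    (by
      intro θ hθ
      simp only [List.mem_cons, List.not_mem_nil, or_false] at hθ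
      rcases hθ with rfl | rfl | rfl <;> trivial)
    (by
      intro N u e hc hθ _ d
      have k1 := hθ (eq (comp conclF (prj 3)) (ndF 4 (prj 1) (prj 2))) (by simp)
      have k2 := hθ (leT (comp succ (prj 3)) (prj 0)) (by simp)
      have k3 := hθ (leT (comp succ (comp conclF (prj 3))) (prj 0)) (by simp)
      have k1 : N.cc (N.fn (prj 3) e) = N.nd 4 (N.fn (prj 1) e) (N.fn (prj 2) e) := by
        simpa [KD.F] using k1
      rw [li_leT, Kr.F_leT, li_comp, li_succ, li_prj, li_prj, N.fn_comp] at k2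
      rw [li_leT, Kr.F_leT, li_comp, li_succ, li_comp, li_conclF, li_prj, li_prj, N.fn_comp,
        N.fn_comp, Kr.fn_conclF] at k3
      have e0 := hc 0 (by norm_num) u (le_refl u) d
      have e1 := hc 1 (by norm_num) u (le_refl u) d
      have e2 := hc 2 (by norm_num) u (le_refl u) d
      rw [N.tr_refl] at e0 e1 e2
      rw [Kr.F_insT, e0, e1, e2]
      have i1 := Kr.Ins_thm (F := N.fn (prj 1) e) k2 k3 d
      rw [k1] at i1 k3
      exact Kr.Ins_mp (Kr.le_trans' (Kr.S_le_S.2 (Kr.le_nd2 _ _ _)) k3) i1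
        (Kr.Ins_hyp (Kr.le_trans' (Kr.S_le_S.2 (Kr.le_nd1 _ _ _)) k3) d))
    (ρ := as4 (M.num n) (M.num F) (M.num c) (M.num q)) (τ := fun _ => M.tc)
    (Kr.gf_as4 (Kr.gf_num _) (Kr.gf_num _) (Kr.gf_num _) (Kr.gf_num _)) (fun _ => by simp)
    (M.pr n (M.pr F (M.pr c (M.pr q M.zr))))
    (by
      intro i hi
      interval_cases i <;> simp [prj, as4])
    (by
      intro θ hθ
      simp only [List.mem_cons, List.not_mem_nil, or_false] at hθ
      rcases hθ with rfl | rfl | rfl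
      · simpa [KD.F, prj] using h1
      · rw [li_leT, Kr.F_leT]
        simpa [prj] using h2
      · rw [li_leT, Kr.F_leT]
        simpa [prj, h1] using h3)
    (by intro ψ hψ; exact absurd hψ (by simp))
  rwa [Kr.insp_icm (n := n) (F := F) (c := c) rfl rfl rfl] at this

end HAr
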