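import Pool.Agent.Lib.MP_61e577_lc.Ar.Nod
import Pool.Agent.Lib.MP_61e577_lc.Ar.SndB2A

/-! What HA proves under the limit of a spot: atoms, boxes and the boxes of implications. -/

namespace HAr

open Fn Fm

variable {Φ Ψ : Finset HAs.Form} {K : Finset HAs.Spot}

/-- The limit statement of a spot. -/
noncomputable def lamK (hK : HAs.IsSys Φ K) (k : HAs.Spot) : Fm Empty :=
  (frmK hK).lamS (frmK hK).h (idK K k)

private theorem nodna_liF (f : Fn Empty) : (f.li : Fn Empty) = f := by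
  induction f with
  | mv i => exact i.elim
  | pair f g hf hg => exact congrArg₂ pair hf hg
  | comp f g hf hg => exact congrArg₂ comp hf hg
  | prec f g hf hg => exact congrArg₂ prec hf hg
  | trec f g hf hg => exact congrArg₂ trec hf hg
  | _ => rfl

/-- The limit of a spot, in a model. -/
theorem Kr.nodn_F_lam (hK : HAs.IsSys Φ K) {k : HAs.Spot} {M : Kr Empty} {w : M.W} {d : M.D w} :
    M.F (lamK hK k) d ↔ M.rc (frmK hK) (w := w) (idK K k) ∧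
      ∀ (v : M.W) (_ : w ≤ v) (j : ℕ), (frmK hK).lt (idK K k) j →
        ¬ M.rc (frmK hK) (w := v) j := by
  have h := Kr.F_lamS (M := M) (F := frmK hK) (i := idK K k) d
  rw [nodna_liF] at h
  exact h

theorem Kr.nodn_lu (hK : HAs.IsSys Φ K) (M : Kr Empty) {w : M.W} (u : HAs.Wd K) :
    M.lu hK u (w := w) = M.nm (encM (lamK hK u.1.tag)) := rfl

/-- The box translation of a positive formula is positive. -/
theorem nodn_bx_pos : ∀ P : Fm Empty, P.Pos → (bx P).Pos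
  | .mv i, _ => i.elim
  | eq _ _, _ => ⟨trivial, trivial⟩
  | bot, _ => trivial
  | conj P Q, h => ⟨nodn_bx_pos P h.1, nodn_bx_pos Q h.2⟩
  | disj P Q, h => ⟨nodn_bx_pos P h.1, nodn_bx_pos Q h.2⟩
  | imp _ _, h => h.elim
  | ex P, h => nodn_bx_pos P h
  | all _, h => h.elim
  | sub P _, h => nodn_bx_pos P h

theorem nodn_pos_sg (hK : HAs.IsSys Φ K) (ix : HAs.Spot → ℕ) (m : ℕ) : (sgK hK ix m).Pos :=
  solp_rcs _ _

/-- Interpreted atoms are positive. -/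
theorem nodn_pos_at (hK : HAs.IsSys Φ K) (ix : HAs.Spot → ℕ) (m : ℕ) :
    (bx (itp (sgK hK ix) (.atom m))).Pos := nodn_bx_pos _ (nodn_pos_sg hK ix m)

/-- Interpreted atoms in a model. -/
theorem Kr.nodn_F_at (hK : HAs.IsSys Φ K) (ix : HAs.Spot → ℕ) {m : ℕ} {M : Kr Empty} {w : M.W}
    {d : M.D w} : M.F (bx (itp (sgK hK ix) (.atom m))) d ↔
      ∃ i < K.card, (∃ l ∈ K, ix l = m ∧ l.le (ptK K i)) ∧ M.rc (frmK hK) (w := w) i := by
  have hp := bx_pos (sgK hK ix m) (nodn_pos_sg hK ix m)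
  have h1 : ∀ x : M.D w, M.F (bx (sgK hK ix m)) x ↔ M.F (sgK hK ix m) x := fun x =>
    ⟨Kr.F_app (M.sound hp.2 x), Kr.F_app (M.sound hp.1 x)⟩
  have h2 := Kr.F_rcs (M := M) (F := frmK hK)
    (fun i => ∃ k ∈ K, ix k = m ∧ k.le (ptK K i)) (M.fn zero d)
  rw [nodna_liF] at h2
  exact (h1 _).trans h2

/-- The atoms of a spot hold under its limit. -/
theorem nodn_at1 (hK : HAs.IsSys Φ K) (ix : HAs.Spot → ℕ) {m : ℕ} {k : HAs.Spot} (hk : k ∈ K)
    (h : ∃ l ∈ K, ix l = m ∧ l.le k) :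
    Prv (imp (lamK hK k) (bx (itp (sgK hK ix) (.atom m)))) := by
  refine complete fun N w d v l h1 => ?_
  rw [Kr.nodn_F_lam] at h1
  rw [Kr.nodn_F_at]
  refine ⟨idK K k, idK_lt hk, ?_, h1.1⟩
  rw [ptK_idK hk]
  exact h

/-- The other atoms do not hold under its limit. -/
theorem nodn_at2 (hK : HAs.IsSys Φ K) (ix : HAs.Spot → ℕ) {m : ℕ} {k : HAs.Spot} (hk : k ∈ K)
    (h : ¬ ∃ l ∈ K, ix l = m ∧ l.le k) :
    Prv (imp (lamK hK k) (imp (bx (itp (sgK hK ix) (.atom m))) bot)) := by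
  refine complete fun N w d v l h1 u l2 h2 => ?_
  have h1 := N.mono _ l2 _ h1
  rw [Kr.nodn_F_lam] at h1
  rw [Kr.nodn_F_at] at h2
  obtain ⟨i, hi, ⟨k', hk', hm, hle⟩, hr⟩ := h2
  rcases Kr.rc_lin hr h1.1 with h3 | h3 | h3
  · rw [h3, ptK_idK hk] at hle
    exact h ⟨k', hk', hm, hle⟩
  · have h4 := h3.2.2.2
    rw [ptK_idK hk] at h4
    exact h ⟨k', hk', hm, HAs.Spot.le_trans hle h4⟩
  · exact h1.2 u (le_refl u) i h3 hr

/-- Boxes valid at the modal successors hold under the limit. -/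
theorem nodn_bx1 (hK : HAs.IsSys Φ K) (ix : HAs.Spot → ℕ) {k : HAs.Spot}
    (hP : PtOK hK ix Ψ k) {C : HAs.Form} (hC : C ∈ Ψ) (h : HAs.valR hK ix k C) :
    Prv (imp (lamK hK k) (bx (itp (sgK hK ix) (.box C)))) := by
  refine complete fun N w d v l h1 => ?_
  rw [Kr.nodn_F_lam] at h1
  rw [Kr.itp_F_box]
  exact hP C hC h N v h1.1

/-- If a formula is provable in a model, under the limit of a spot, then no node of a modal
successor can have a refutable translation of it. -/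
theorem Kr.nodn_no (hK : HAs.IsSys Φ K) (ix : HAs.Spot → ℕ) {k : HAs.Spot} {v : HAs.Wd K}
    (hk : k ∈ K) (hv : k.R v.1.tag) {M : Kr Empty} {w : M.W} {d : M.D w}
    (hl : M.F (lamK hK k) d) {z : M.D w} (hz : M.Pv z)
    (h : ∃ n0 : ℕ, ∀ n : M.D w, M.le (M.nm n0) n →
      M.Pv (M.im (M.lu hK v) (M.im (M.tu hK ix Ψ v n z) M.btc))) : False := by
  obtain ⟨p, rfl⟩ := hz
  obtain ⟨n0, h⟩ := h
  obtain ⟨n1, h1⟩ := M.Gd_ex p
  have h2 := h (M.add n1 (M.nm n0)) (Kr.b2_le_add' _ _)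
  have h3 : M.Pv (M.tu hK ix Ψ v (M.add n1 (M.nm n0)) (M.cc p)) := by
    refine Kr.Pv_trl (M.Va_eu hK ix Ψ v _) ?_
    rw [Kr.eu, M.left_pr]
    exact Kr.Gd_le h1 (Kr.b2_le_add _ _) (M.le_rfl' p)
  have h4 := Kr.Pv_s h2 (Kr.Pv_k (Kr.im_gm h2).1 h3)
  have h5 : M.Pv (M.nl (frmK hK) (w := w) (idK K v.1.tag)) := by
    have e : M.nm (w := w) (encM bot) = M.btc := by
      rw [encM, Kr.nm_ndN]
      rfl
    rw [Kr.nl, Frm.nlS, encM, Kr.nm_ndN, e]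
    exact h4
  have hR : (frmK hK).R (idK K k) (idK K v.1.tag) := by
    refine ⟨idK_lt hk, idK_lt (HAs.tagK v), ?_⟩
    rw [ptK_idK hk, ptK_idK (HAs.tagK v)]
    exact hv
  rw [Kr.nodn_F_lam] at hl
  obtain ⟨j, hj1, hj2⟩ := Kr.H3 hl.1 hR h5
  exact hl.2 w (le_refl w) j hj1 hj2

/-- Boxes refuted at a modal successor are refuted under the limit. -/
theorem nodn_bx2 (hK : HAs.IsSys Φ K) (ix : HAs.Spot → ℕ) {k : HAs.Spot} (hk : k ∈ K)
    {v : HAs.Wd K} (hv : k.R v.1.tag) (hN : NodeOK hK ix Ψ v) {C : HAs.Form} (hC : C ∈ Ψ)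
    (h : ¬ (HAs.tm hK ix).frc C v) :
    Prv (imp (lamK hK k) (imp (bx (itp (sgK hK ix) (.box C))) bot)) := by
  refine complete fun N w d v' l h1 u m h2 => ?_
  rw [Kr.itp_F_box] at h2
  obtain ⟨n0, hN⟩ := hN
  exact Kr.nodn_no hK ix hk hv (N.mono _ m _ h1) h2
    ⟨n0, fun n hn => (hN N u n hn C hC).2.1 h⟩

/-- Translated implications with a true premise and a false conclusion are refutable. -/
theorem Kr.nodn_comb {V : Type} {M : Kr V} {w : M.W} {tF BF RF : Fn V} {Sm : Fm V} {e : M.D w}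
    (H : TrH M tF BF RF Sm e) {a b s : M.D w} (ha : M.gm a) (hb : M.gm b)
    (h1 : M.Pv (M.im s (M.fn tF (M.pr e a))))
    (h2 : M.Pv (M.im s (M.im (M.fn tF (M.pr e b)) M.btc))) :
    M.Pv (M.im s (M.im (M.fn tF (M.pr e (M.im a b))) M.btc)) := by
  have gA := H.gT _ ha
  have gB := H.gT _ hb
  have gI := H.gT _ (Kr.gm_im.2 ⟨ha, hb⟩)
  have h3 := Kr.q_tr (H.T_im1 a b ha hb)
    (Kr.q_fst (Kr.gm_im.2 ⟨gA, gB⟩) (H.gB _ (Kr.gm_im.2 ⟨ha, hb⟩)))
  exact Kr.q3 (A := imp (.mv 0) (.mv 1)) (B := imp (.mv 0) (imp (.mv 2) bot))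
    (C := imp (.mv 3) (imp (.mv 1) (.mv 2))) (φ := imp (.mv 0) (imp (.mv 3) bot))
    (ρ := fun _ => M.nd 0 M.zr M.zr)
    (τ := as4 s (M.fn tF (M.pr e a)) (M.fn tF (M.pr e b)) (M.fn tF (M.pr e (M.im a b))))
    (fun _ => M.gf0) (Kr.gm_as4 (Kr.im_gm h1).1 gA gB gI) h1 h2 h3
    (fun N u hA hB hC d v l k1 v2 l2 k2 => by
      have a1 := N.mono _ l2 _ (Kr.F_app (hA v l _) k1)
      have a2 := N.mono _ l2 _ (Kr.F_app (hB v l _) k1)
      have a3 := Kr.F_app (hC v2 (l.trans l2) _) k2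
      exact Kr.F_app a2 (Kr.F_app a3 a1))

/-- Valid implications are provable at the argument, under the limit. -/
theorem nodn_im1 (hK : HAs.IsSys Φ K) (ix : HAs.Spot → ℕ) {k : HAs.Spot}
    (hP : PtOK hK ix Ψ k) {B C : HAs.Form} (hA : .imp B C ∈ Ψ)
    (h : HAs.valR hK ix k (.imp B C)) :
    Prv (imp (lamK hK k)
      (bxT (cst (encM (imp (bx (itp (sgK hK ix) B)) (bx (itp (sgK hK ix) C))))))) := by
  refine complete fun N w d v l h1 => ?_
  rw [Kr.nodn_F_lam] at h1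
  have h2 := hP _ hA h N v h1.1
  rw [Kr.itp_Pv_imp] at h2
  rw [Kr.F_bxT, Kr.fn_cst, encM, Kr.nm_ndN]
  exact Kr.Bx_of h2

/-- Implications refuted at a modal successor are not provable at the argument, under the
limit. -/
theorem nodn_im2 (hK : HAs.IsSys Φ K) (ix : HAs.Spot → ℕ) {k : HAs.Spot} (hk : k ∈ K)
    {v : HAs.Wd K} (hv : k.R v.1.tag) (hN : NodeOK hK ix Ψ v) {B C : HAs.Form} (hB : B ∈ Ψ)
    (hC : C ∈ Ψ) (h1 : (HAs.tm hK ix).frc B v) (h2 : ¬ (HAs.tm hK ix).frc C v) :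
    Prv (imp (lamK hK k) (imp
      (bxT (cst (encM (imp (bx (itp (sgK hK ix) B)) (bx (itp (sgK hK ix) C)))))) bot)) := by
  refine complete fun N w d v' l h3 u m h4 => ?_
  have hi : Inv (imp (bx (itp (sgK hK ix) B)) (bx (itp (sgK hK ix) C))) :=
    ((itp_ind_bx _ B).imp (itp_ind_bx _ C)).inv
  rw [Kr.F_bxT, Kr.fn_cst, Kr.itp_Bx hi, encM, Kr.nm_ndN] at h4
  obtain ⟨n0, hN⟩ := hN
  refine Kr.nodn_no (Ψ := Ψ) hK ix hk hv (N.mono _ m _ h3) h4 ⟨n0, fun n hn => ?_⟩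
  exact Kr.nodn_comb (Kr.trH_trl (N.Va_eu hK ix Ψ v n)) (N.gm_am _ B) (N.gm_am _ C)
    ((hN N u n hn B hB).1 h1) ((hN N u n hn C hC).2.1 h2)

end HAr
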