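import Pool.Agent.Lib.MP_61e577_lc.Ar.Trlp

/-! Reflection under the translation, from an invariant formula. -/

namespace HAr

open Fn Fm

variable {V U : Type} {M : Kr V} {w : M.W}

/-- Reflection under a translation, for an invariant formula which implies the translation of the
assumption. -/
theorem TrH.reflG {tF BF RF : Fn V} {Sm : Fm V} {e : M.D w}
    (H : ∀ (v : M.W) (h : w ≤ v), TrH M tF BF RF Sm (M.tr h e)) {n F z a : M.D w}
    (hF : M.gm F) (ha : M.gm a) (hi : M.inv a) (haF : M.Pv (M.im a (M.fn tF (M.pr e F))))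
    (hp : ∀ (v : M.W) (h : w ≤ v) (p : M.D v), M.le (M.S p) (M.tr h n) →
      M.le (M.S (M.cc p)) (M.tr h n) → M.Pv (M.fn tF (M.pr (M.tr h e) (M.cc p))))
    (hz : M.gm z) :
    M.Pv (M.im (M.iC n F z) (M.im a (M.fn tF (M.pr e z)))) := by
  have T := TrH.here H
  have gt := TrH.gtn H n
  have hρ : ∀ i, M.gf (as4 (M.num n) (M.num F) (M.num z) (M.num M.tc) i) :=
    Kr.gf_as4 (M.gf_num _) (M.gf_num _) (M.gf_num _) (M.gf_num _)
  have hτ : ∀ i, M.gm (as4 (M.tn tF e n) a (M.fn tF (M.pr e z))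
      (M.fn tF (M.pr e z)) i) := Kr.gm_as4 gt ha (T.gT _ hz) (T.gT _ hz)
  have bq : ∀ (p q : Fn Empty) (Q : Fm ℕ) (_ : Q.ms (fun _ => idn) (fun _ => .mv 0) = Q)
      (_ : ∀ (v : M.W) (k : w ≤ v) (c : M.D v), M.le (M.S c) (M.tr k n) →
      M.fn p.li (M.pr c (M.tr k n)) = M.fn q.li (M.pr c (M.tr k n)) →
      M.Pv (M.sbc (M.qc (M.tn tF (M.tr k e) (M.tr k n)) Q) (M.atc c))),
      M.Pv (M.icm (as4 (M.num n) (M.num F) (M.num z) (M.num M.tc)) (as4 (M.tn tF e n)
        a (M.fn tF (M.pr e z)) (M.fn tF (M.pr e z))) (bqT p q Q)) := by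
    intro p q Q hQ h
    refine Kr.Pv_bqT p q Q hQ rfl gt ?_
    intro v k c h1 h2
    show M.Pv (M.sbc (M.qc (M.tr k (M.tn tF e n)) Q) (M.atc c))
    rw [Kr.tr_tn]
    exact h v k c h1 h2
  have nd : ∀ (k : ℕ) (Q : Fm ℕ) (_ : Q.ms (fun _ => idn) (fun _ => .mv 0) = Q)
      (_ : ∀ (v : M.W) (l : w ≤ v) (a b : M.D v), M.gm (M.nd k a b) →
      M.le (M.S (M.nd k a b)) (M.tr l n) →
      M.Pv (M.sbc (M.qc (M.tn tF (M.tr l e) (M.tr l n)) Q) (M.atc (M.nd k a b)))),
      M.Pv (M.icm (as4 (M.num n) (M.num F) (M.num z) (M.num M.tc)) (as4 (M.tn tF e n)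
        a (M.fn tF (M.pr e z)) (M.fn tF (M.pr e z)))
        (bqT cndP (cndQ k) Q)) := by
    intro k Q hQ h
    refine bq _ _ Q hQ ?_
    intro v l c h1 h2
    obtain ⟨g, a, b, rfl⟩ := (Kr.cnd_iff k _ _).1 h2
    exact h v l a b g h1
  have := Kr.ruleC (M := M) (w := w) 4 [eq (prj 3) topF, eq (comp nfmF (prj 1)) (prj 1)] rfH
    (imp (insT (.mv 0) (.mv 1) (.mv 2)) (imp (.mv 1) (.mv 2)))
    (by
      intro θ hθ
      simp only [List.mem_cons, List.not_mem_nil, or_false] at hθ
      rcases hθ with rfl | rfl <;> trivial)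
    (by
      intro N u e hc hθ hN d
      have f1 := hθ (eq (prj 3) topF) (by simp)
      have f2 := hθ (eq (comp nfmF (prj 1)) (prj 1)) (by simp)
      simp only [li_eq, li_prj, li_comp, li_topF, li_nfmF, Kr.F_eq, N.fn_comp, Kr.fn_topF,
        Kr.fn_nfmF] at f1 f2
      exact rf_sem N u (N.fn (prj 0) e) (N.fn (prj 1) e) (N.fn (prj 2) e)
        (fun v l x => by rw [hc 0 (by norm_num) v l x, N.tr_fn])
        (fun v l x => by rw [hc 1 (by norm_num) v l x, N.tr_fn])
        (fun v l x => by rw [hc 2 (by norm_num) v l x, N.tr_fn])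
        (fun v l x => by rw [hc 3 (by norm_num) v l x, ← N.tr_fn, f1]) f2 hN d)
    hρ hτ (M.sq4 n F z M.tc)
    (by
      intro i hi
      interval_cases i <;> simp [prj, as4, Kr.sq4])
    (by
      intro θ hθ
      simp only [List.mem_cons, List.not_mem_nil, or_false] at hθ
      rcases hθ with rfl | rfl
      · simp [Kr.F_eq, prj, Kr.sq4]
      · have hF : M.nfm F = F := hF
        simp [Kr.F_eq, prj, Kr.sq4, hF])
    (by
      simp only [rfH, List.forall_mem_cons]
      refine ⟨?_, ?_, ?_, ?_, ?_, ?_, ?_, ?_, ?_, ?_, ?_, ?_, ?_, ?_⟩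
      · refine bq _ _ Qth rfl ?_
        intro v k c h1 h2
        have h2 := (Kr.cndT_iff _ _).1 h2
        exact TrH.cth (TrH.later H k) (hp v k c h1 h2) h2
      · exact nd 4 Qmp rfl (fun v l a b g h => TrH.cmp (TrH.later H l) g h)
      · exact nd 7 QsI rfl (fun v l a b g h => TrH.csI (TrH.later H l) g h)
      · exact nd 7 QsE rfl (fun v l a b g h => TrH.csE (TrH.later H l) g h)
      · exact nd 0 Qeq rfl (fun v l a b g h => TrH.ceq (TrH.later H l) g h)
      · exact nd 2 Qcj rfl (fun v l a b g h => TrH.ccj (TrH.later H l) g h)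
      · exact nd 3 Qd1 rfl (fun v l a b g h => TrH.cd1 (TrH.later H l) g h)
      · exact nd 3 Qd2 rfl (fun v l a b g h => TrH.cd2 (TrH.later H l) g h)
      · refine bq _ _ Qex rfl ?_
        intro v k c h1 h2
        obtain ⟨g, a, rfl⟩ := (Kr.cndE_iff _ _).1 h2
        exact TrH.cex (TrH.later H k) g h1
      · rcases M.lt_or_ge F n with h | h
        · refine Kr.rule [imp (.mv 1) (at0 1)] _ ?_ hρ hτ ?_
          · intro N u hN d v l _
            exact N.mono _ l _ (hN _ (List.mem_singleton.2 rfl) u (le_refl u) d)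
          · intro ψ hψ
            rw [List.mem_singleton.1 hψ]
            exact Kr.q_tr haF (TrH.inn H hF h)
        · refine Kr.ruleC 2 [leT (prj 0) (prj 1)] [] _ ?_ ?_ hρ hτ (M.sq4 n F z M.tc) ?_ ?_ ?_
          · intro θ hθ
            rw [List.mem_singleton.1 hθ]
            trivial
          · intro N u e hc hθ _ d v l h1
            have f1 := hθ _ (List.mem_singleton.2 rfl)
            rw [li_leT, Kr.F_leT, li_prj, li_prj] at f1
            have f2 := Kr.le_mono l f1
            rw [N.tr_fn, N.tr_fn] at f2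
            rw [Kr.F_leT, N.fn_comp, hc 0 (by norm_num) v l, hc 1 (by norm_num) v l] at h1
            exact absurd (N.le_trans' h1 f2) (N.not_S_le _)
          · intro i hi
            interval_cases i <;> simp [prj, as4, Kr.sq4]
          · intro θ hθ
            rw [List.mem_singleton.1 hθ, li_leT, Kr.F_leT]
            simpa [prj, Kr.sq4] using h
          · intro ψ hψ
            exact absurd hψ (by simp)
      · exact hi
      · exact Kr.tn_tc (fun v h a ha => (H v h).gT a ha) n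
      · exact TrH.out H hz n
      · intro ψ hψ
        exact absurd hψ (by simp))
  have this : M.Pv (M.im (M.icm (as4 (M.num n) (M.num F) (M.num z) (M.num M.tc))
      (as4 (M.tn tF e n) a (M.fn tF (M.pr e z)) (M.fn tF (M.pr e z)))
      (insT (.mv 0) (.mv 1) (.mv 2))) (M.im a (M.fn tF (M.pr e z)))) := this
  rw [Kr.icm_insT rfl rfl rfl] at this
  exact this

/-- Reflection under the translation, for an invariant formula. -/
theorem Kr.refl_trlG {l : ℕ} {e n F z a : M.D w} (he : M.Va l e) (hF : M.gm F) (ha : M.gm a)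
    (hi : M.inv a) (haF : M.Pv (M.im a (M.fn (trl l) (M.pr e F)))) (hz : M.gm z)
    (hn : M.Gd (M.fn left e) n) :
    M.Pv (M.im (M.iC n F z) (M.im a (M.fn (trl l) (M.pr e z)))) := by
  refine TrH.reflG (fun v h => Kr.trH_trl (Kr.Va_mono h he)) hF ha hi haF ?_ hz
  intro v h p h1 _
  refine Kr.Pv_trl (Kr.Va_mono h he) ?_
  have h2 := Kr.Gd_mono h hn
  rw [M.tr_fn] at h2
  exact Kr.Gd_le h2 (M.le_rfl' _) (M.le_trans' (M.le_S (M.le_rfl' p)) h1)

end HAr
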