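import Pool.Agent.Lib.MP_61e577_lc.Ar.NodNA
import Pool.Agent.Lib.MP_61e577_lc.Ar.ReflG

/-! The third clause at the children of a node. -/

namespace HAr

open Fn Fm

variable {Φ Ψ : Finset HAs.Form} {K : Finset HAs.Spot}

/-- A theorem with a small proof can be applied in instance derivations. -/
theorem Kr.nodnb_mp {V : Type} {M : Kr V} {w : M.W} {n F s c : M.D w}
    (h : M.b2P n (M.im s c)) : M.Pv (M.im (M.iC n F s) (M.iC n F c)) := by
  obtain ⟨q, h1, h2, h3⟩ := h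
  have key := Kr.ruleC (M := M) (w := w) 5 [eq (comp conclF (prj 4)) (ndF 4 (prj 2) (prj 3)),
      leT (comp succ (prj 4)) (prj 0), leT (comp succ (comp conclF (prj 4))) (prj 0)] []
    (imp (insT (.mv 0) (.mv 1) (.mv 2)) (insT (.mv 0) (.mv 1) (.mv 3)))
    (by
      intro θ hθ
      simp only [List.mem_cons, List.not_mem_nil, or_false] at hθ
      rcases hθ with rfl | rfl | rfl <;> trivial)
    (by
      intro N u e hc hθ _ d v l p
      have k1 := hθ (eq (comp conclF (prj 4)) (ndF 4 (prj 2) (prj 3))) (by simp)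
      have k2 := hθ (leT (comp succ (prj 4)) (prj 0)) (by simp)
      have k3 := hθ (leT (comp succ (comp conclF (prj 4))) (prj 0)) (by simp)
      have k1 : N.cc (N.fn (prj 4) e) = N.nd 4 (N.fn (prj 2) e) (N.fn (prj 3) e) := by
        simpa [KD.F] using k1
      rw [li_leT, Kr.F_leT, li_comp, li_succ, li_prj, li_prj, N.fn_comp] at k2
      rw [li_leT, Kr.F_leT, li_comp, li_succ, li_comp, li_conclF, li_prj, li_prj, N.fn_comp,
        N.fn_comp, Kr.fn_conclF] at k3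
      have k1 := congrArg (N.tr l) k1
      have k2 := Kr.le_mono l k2
      have k3 := Kr.le_mono l k3
      rw [Kr.tr_cc, Kr.tr_nd] at k1
      rw [N.tr_fn] at k2
      rw [N.tr_fn, Kr.tr_cc] at k3
      rw [Kr.F_insT, hc 0 (by norm_num) v l, hc 1 (by norm_num) v l,
        hc 2 (by norm_num) v l, ← N.tr_fn, ← N.tr_fn, ← N.tr_fn] at p
      rw [Kr.F_insT, hc 0 (by norm_num) v l, hc 1 (by norm_num) v l,
        hc 3 (by norm_num) v l, ← N.tr_fn, ← N.tr_fn, ← N.tr_fn]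
      have i1 := Kr.Ins_thm (F := N.tr l (N.fn (prj 1) e)) k2 k3 (N.tr l d)
      rw [k1] at i1 k3
      exact Kr.Ins_mp (Kr.le_trans' (Kr.S_le_S.2 (Kr.le_nd2 _ _ _)) k3) i1 p)
    (ρ := as5 (M.num n) (M.num F) (M.num s) (M.num c) (M.num q)) (τ := fun _ => M.tc)
    (Kr.gf_as5 (Kr.gf_num _) (Kr.gf_num _) (Kr.gf_num _) (Kr.gf_num _) (Kr.gf_num _))
    (fun _ => by simp)
    (M.pr n (M.pr F (M.pr s (M.pr c (M.pr q M.zr)))))
    (by
      intro i hi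
      interval_cases i <;> simp [prj, as5])
    (by
      intro θ hθ
      simp only [List.mem_cons, List.not_mem_nil, or_false] at hθ
      rcases hθ with rfl | rfl | rfl
      · simp [KD.F, prj, h1]
      · rw [li_leT, Kr.F_leT]
        simpa [prj] using h2
      · rw [li_leT, Kr.F_leT]
        simpa [prj, h1] using h3)
    (by simp)
  have key : M.Pv (M.im _ _) := key
  rwa [Kr.insp_icm (n := n) (F := F) (c := s) rfl rfl rfl,
    Kr.insp_icm (n := n) (F := F) (c := c) rfl rfl rfl] at key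

/-- The limit statement does not depend on the argument. -/
theorem Kr.nodn_inv_lu (hK : HAs.IsSys Φ K) (M : Kr Empty) {w : M.W} (u : HAs.Wd K) :
    M.inv (M.lu hK u (w := w)) := by
  have h1 : Prv (imp ((frmK hK).lamS (frmK hK).h (idK K u.1.tag)).li
      (all (sub ((frmK hK).lamS (frmK hK).h (idK K u.1.tag)).li right)) : Fm ℕ) := by
    refine complete fun N u d v h h2 v' h' e => ?_
    rw [li_lamS] at h2 ⊢
    show N.F ((frmK hK).lamS (frmK hK).h.li _) _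
    rw [Kr.F_lamS] at h2 ⊢
    exact ⟨Kr.rc_mono h' h2.1, fun v2 l2 j hj => h2.2 v2 (h'.trans l2) j hj⟩
  have h2 := Kr.D1 h1 (M := M) (w := w) (ρ := fun _ => M.nd 0 M.zr M.zr) (τ := fun _ => M.tc)
    (fun _ => by simp) (fun _ => by simp)
  have h3 : M.Pv (M.im (M.icm (fun _ => M.nd 0 M.zr M.zr) (fun _ => M.tc)
    (((frmK hK).lamS (frmK hK).h (idK K u.1.tag)).li : Fm ℕ))
      (M.alc (M.sbc (M.icm (fun _ => M.nd 0 M.zr M.zr) (fun _ => M.tc)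
    (((frmK hK).lamS (frmK hK).h (idK K u.1.tag)).li : Fm ℕ)) (M.nd 4 M.zr M.zr)))) := h2
  rw [Kr.solp_li] at h3
  exact h3

/-- A propositional step. -/
theorem Kr.nodnb_pr {V : Type} {M : Kr V} {w : M.W} {s a b c : M.D w}
    (h : M.Pv (M.im s (M.im a b))) (k : M.Pv (M.im a (M.im b c))) :
    M.Pv (M.im s (M.im a c)) := by
  have g1 := Kr.im_gm h
  have g2 := Kr.gm_im.1 (Kr.im_gm k).2
  exact Kr.q2 (A := imp (.mv 0) (imp (.mv 1) (.mv 2))) (B := imp (.mv 1) (imp (.mv 2) (.mv 3)))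
    (φ := imp (.mv 0) (imp (.mv 1) (.mv 3))) (ρ := fun _ => M.nd 0 M.zr M.zr)
    (τ := as4 s a b c) (fun _ => M.gf0) (Kr.gm_as4 g1.1 (Kr.im_gm k).1 g2.1 g2.2) h k
    (fun N u hA hB d => by
      rw [Kr.F_imp2]
      intro v l p q
      exact Kr.F_app (Kr.F_app (hB v l _) q) (Kr.F_app (Kr.F_app (hA v l _) p) q))

/-- A propositional step. -/
theorem Kr.nodnb_pr2 {V : Type} {M : Kr V} {w : M.W} {s a b c : M.D w}
    (h : M.Pv (M.im s b)) (k : M.Pv (M.im a (M.im b c))) :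
    M.Pv (M.im a (M.im s c)) := by
  have g2 := Kr.gm_im.1 (Kr.im_gm k).2
  exact Kr.q2 (A := imp (.mv 0) (.mv 2)) (B := imp (.mv 1) (imp (.mv 2) (.mv 3)))
    (φ := imp (.mv 1) (imp (.mv 0) (.mv 3))) (ρ := fun _ => M.nd 0 M.zr M.zr)
    (τ := as4 s a b c) (fun _ => M.gf0) (Kr.gm_as4 (Kr.im_gm h).1 (Kr.im_gm k).1 g2.1 g2.2) h k
    (fun N u hA hB d => by
      rw [Kr.F_imp2]
      intro v l p q
      exact Kr.F_app (Kr.F_app (hB v l _) p) (Kr.F_app (hA v l _) q))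

theorem Kr.nodnb_gm_lu (hK : HAs.IsSys Φ K) (M : Kr Empty) {w : M.W} (u : HAs.Wd K) :
    M.gm (M.lu hK u (w := w)) := Kr.gm_encM _

/-- Translations of conjunctions. -/
theorem Kr.nodnb_cj (σ : ℕ → Fm Empty) {M : Kr Empty} {w : M.W} {l : ℕ} {e s : M.D w}
    (hs : M.gm s) (h0 : M.Pv (M.fn (trl l) (M.pr e (M.am σ (.imp .bot .bot))))) :
    ∀ L : List HAs.Form, (∀ A ∈ L, M.Pv (M.im s (M.fn (trl l) (M.pr e (M.am σ A))))) →
      M.Pv (M.im s (M.fn (trl l) (M.pr e (M.am σ (HAs.cj L)))))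
  | [], _ => Kr.Pv_k hs h0
  | A :: L, h => by
    have h1 : M.am σ (HAs.cj (A :: L)) (w := w) = M.cj (M.am σ A) (M.am σ (HAs.cj L)) :=
      Kr.b2_am_cj σ A (HAs.cj L)
    rw [h1, Kr.trl_cj]
    exact Kr.q_cj (h A (by simp)) (Kr.nodnb_cj σ hs h0 L fun B hB => h B (by simp [hB]))

/-- The translation of the conjunction of the implications which hold at a node is provable
under its limit. -/
theorem Kr.nodn_TF (hK : HAs.IsSys Φ K) (ix : HAs.Spot → ℕ) {x : HAs.Wd K}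
    (hx : NodeOK hK ix Ψ x) (M : Kr Empty) (w : M.W) :
    ∃ n0 : M.D w, ∀ n, M.le n0 n →
      M.Pv (M.im (M.lu hK x) (M.tu hK ix Ψ x n (M.am (sgK hK ix) (Gv hK ix Ψ x)))) := by
  obtain ⟨n1, hn1⟩ := hx
  have h0 : M.Pv (M.am (sgK hK ix) (.imp .bot .bot) (w := w)) :=
    Kr.Pv_enc (hast_ipax (sgK hK ix) (HAs.IPax.exf .bot))
  obtain ⟨p, hp⟩ := h0
  obtain ⟨n2, hn2⟩ := M.Gd_ex p
  refine ⟨M.add (M.nm n1) n2, fun n hn => ?_⟩
  have hn3 : M.le (M.nm n1) n := M.le_trans' (Kr.b2_le_add _ _) hn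
  have hn4 : M.le n2 n := M.le_trans' (Kr.b2_le_add' _ _) hn
  have he : M.fn left (M.eu hK ix Ψ x n) = n := by simp [Kr.eu]
  have h1 : M.Pv (M.fn (trl (HAs.ch x).length)
      (M.pr (M.eu hK ix Ψ x n) (M.am (sgK hK ix) (.imp .bot .bot)))) := by
    rw [← hp]
    refine Kr.Pv_trl (M.Va_eu hK ix Ψ x n) ?_
    rw [he]
    exact Kr.Gd_le hn2 hn4 (M.le_rfl' _)
  refine Kr.nodnb_cj (sgK hK ix) (Kr.nodnb_gm_lu hK M x) h1 _ fun A hA => ?_
  rw [List.mem_filter] at hA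
  have hA2 : (∃ B C, A = .imp B C) ∧ (HAs.tm hK ix).frc A x := by simpa using hA.2
  exact (hn1 M w n hn3 A (Finset.mem_toList.1 hA.1)).1 hA2.2

/-- Instance provability of a refuted implication at a child refutes the limit of the child. -/
theorem Kr.nodn_child (hK : HAs.IsSys Φ K) (ix : HAs.Spot → ℕ) {x : HAs.Wd K}
    (hx : NodeOK hK ix Ψ x) {B C : HAs.Form} (hA : .imp B C ∈ Ψ)
    (h : ∃ v : HAs.Wd K, v.1.inn x.1 ∧ (HAs.tm hK ix).frc B v ∧ ¬ (HAs.tm hK ix).frc C v)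
    (M : Kr Empty) (w : M.W) (n : M.D w) :
    M.Pv (M.im (M.iC n (M.am (sgK hK ix) (Gv hK ix Ψ x))
      (M.im (M.am (sgK hK ix) B) (M.am (sgK hK ix) C))) (M.nl (frmK hK) (idK K x.1.tag))) := by
  obtain ⟨n1, hn1⟩ := id hx
  obtain ⟨n2, hn2⟩ := Kr.nodn_TF hK ix hx M w
  obtain ⟨n3, hn3⟩ := M.Gd_ex n
  obtain ⟨m, m1, m2, m3⟩ : ∃ m : M.D w, M.le (M.nm n1) m ∧ M.le n2 m ∧ M.le n3 m :=
    ⟨M.add (M.nm n1) (M.add n2 n3), Kr.b2_le_add _ _,
      M.le_trans' (Kr.b2_le_add _ _) (Kr.b2_le_add' _ _),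
      M.le_trans' (Kr.b2_le_add' _ _) (Kr.b2_le_add' _ _)⟩
  have he : M.fn left (M.eu hK ix Ψ x m) = m := by simp [Kr.eu]
  have gz : M.gm (M.im (M.am (sgK hK ix) B) (M.am (sgK hK ix) C (w := w))) :=
    Kr.gm_im.2 ⟨Kr.gm_am _ _, Kr.gm_am _ _⟩
  have h1 : M.Pv (M.im (M.iC n (M.am (sgK hK ix) (Gv hK ix Ψ x))
      (M.im (M.am (sgK hK ix) B) (M.am (sgK hK ix) C))) (M.im (M.lu hK x)
        (M.tu hK ix Ψ x m (M.im (M.am (sgK hK ix) B) (M.am (sgK hK ix) C))))) := by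
    refine Kr.refl_trlG (M.Va_eu hK ix Ψ x m) (Kr.gm_am _ _) (Kr.nodnb_gm_lu hK M x)
      (Kr.nodn_inv_lu hK M x) (hn2 m m2) gz ?_
    rw [he]
    exact Kr.Gd_le hn3 m3 (M.le_rfl' _)
  have h2 := (hn1 M w m m1 _ hA).2.2 B C rfl h
  have h3 : M.nl (frmK hK) (idK K x.1.tag) (w := w) = M.im (M.lu hK x) M.btc := by
    rw [Kr.nl, Frm.nlS, encM, Kr.nm_ndN]
    congr 1
    rw [encM, Kr.nm_ndN]
    rfl
  rw [h3]
  exact Kr.nodnb_pr h1 h2

/-- The refutation of the side formula under the limit of the parent. -/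
theorem Kr.nodn_child2 (hK : HAs.IsSys Φ K) (ix : HAs.Spot → ℕ) {u x : HAs.Wd K}
    (hu : x ∈ HAs.ch u) (hx : NodeOK hK ix Ψ x) {B C : HAs.Form} (hA : .imp B C ∈ Ψ)
    (h : ∃ v : HAs.Wd K, v.1.inn x.1 ∧ (HAs.tm hK ix).frc B v ∧ ¬ (HAs.tm hK ix).frc C v)
    (M : Kr Empty) (w : M.W) (n : M.D w) :
    M.Pv (M.im (M.lu hK u) (M.im (M.iC n (M.am (sgK hK ix) (Gv hK ix Ψ x))
      (M.im (M.am (sgK hK ix) B) (M.am (sgK hK ix) C))) M.btc)) := by
  have h1 := Kr.nodn_child hK ix hx hA h M w n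
  generalize hS : M.iC n (M.am (sgK hK ix) (Gv hK ix Ψ x))
      (M.im (M.am (sgK hK ix) B) (M.am (sgK hK ix) C)) = S at h1 ⊢
  obtain ⟨n1, hn1⟩ := Kr.b2P_ex h1
  obtain ⟨m, m1, m2⟩ : ∃ m : M.D w, M.le n1 m ∧ M.le (M.S S) m :=
    ⟨M.add n1 (M.S S), Kr.b2_le_add _ _, Kr.b2_le_add' _ _⟩
  have h2 : M.Pv (M.im S (M.iC m M.tc S)) := by
    rw [← hS] at m2 ⊢
    exact Kr.Pv_posI (insT (.mv 0) (.mv 1) (.mv 2) : Fm ℕ) trivial
      (Kr.gf_as4 (M.gf_num _) (M.gf_num _) (M.gf_num _) (M.gf_num _)) (fun _ => by simp)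
      (Kr.Pv_gm Kr.Pv_tc) m2
  have h3 : M.Pv (M.im (M.iC m M.tc S) (M.iC m M.tc (M.nl (frmK hK) (idK K x.1.tag)))) :=
    Kr.nodnb_mp (Kr.b2P_mono m1 hn1)
  have hu1 : u.1.tag ∈ K := HAs.tagK u
  have hx1 : x.1.tag ∈ K := HAs.tagK x
  have h4 : idK K u.1.tag = idK K x.1.tag ∨ (frmK hK).lt (idK K u.1.tag) (idK K x.1.tag) := by
    by_cases he : idK K u.1.tag = idK K x.1.tag
    · exact Or.inl he
    · refine Or.inr ⟨idK_lt hu1, idK_lt hx1, he, ?_⟩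
      rw [ptK_idK hu1, ptK_idK hx1]
      exact HAs.mem_ch_le hu
  have h5 := Kr.H4 (F := frmK hK) (M := M) (w := w) (idK_lt hu1) h4 m
  exact Kr.nodnb_pr2 (Kr.q_tr h2 h3) h5

end HAr
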