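import Pool.Agent.Lib.MP_61e577_lc.Ar.NodE

/-! The induction step for points. -/

namespace HAr

open Fn Fm

variable {Φ Ψ : Finset HAs.Form} {K : Finset HAs.Spot}

theorem nodp_liF (f : Fn Empty) : (f.li : Fn Empty) = f := by
  induction f with
  | mv i => exact i.elim
  | pair f g hf hg => exact congrArg₂ pair hf hg
  | comp f g hf hg => exact congrArg₂ comp hf hg
  | prec f g hf hg => exact congrArg₂ prec hf hg
  | trec f g hf hg => exact congrArg₂ trec hf hg
  | _ => rfl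

/-- The inclusion is the identity if there are no metavariables. -/
theorem nodp_li (P : Fm Empty) : (P.li : Fm Empty) = P := by
  induction P with
  | mv i => exact i.elim
  | eq f g => exact congrArg₂ eq (nodp_liF f) (nodp_liF g)
  | bot => rfl
  | conj P Q hP hQ => exact congrArg₂ conj hP hQ
  | disj P Q hP hQ => exact congrArg₂ disj hP hQ
  | imp P Q hP hQ => exact congrArg₂ imp hP hQ
  | ex P hP => exact congrArg ex hP
  | all P hP => exact congrArg all hP
  | sub P f hP => exact congrArg₂ sub hP (nodp_liF f)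

theorem Kr.nodp_rcs {N : Kr Empty} {w : N.W} {F : Frm} (p : ℕ → Prop) (d : N.D w) :
    N.F (F.rcs F.h p) d ↔ ∃ i < F.N, p i ∧ N.rc F (w := w) i := by
  rw [← Kr.F_rcs (M := N) (F := F) p d, ← li_rcs, nodp_li]

/-- Interpreted formulas do not depend on the argument. -/
theorem Kr.nodp_inv {N : Kr Empty} {w : N.W} (σ : ℕ → Fm Empty) (A : HAs.Form) {d e : N.D w}
    (h : N.F (bx (itp σ A)) d) : N.F (bx (itp σ A)) e := by
  have h1 := Kr.F_app (N.sound (inv_bx σ A) d) h w (le_refl w) e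
  have h1 : N.F (bx (itp σ A)) (N.fn right _) := h1
  rwa [N.right_pr] at h1

/-- The code of an interpreted implication. -/
theorem Kr.nodp_am_im {V : Type} {N : Kr V} {w : N.W} (σ : ℕ → Fm Empty) (A B : HAs.Form) :
    N.am σ (.imp A B) (w := w) =
      N.cj (N.nm (encM (imp (bx (itp σ A)) (bx (itp σ B)))))
        (N.bxC (N.nm (encM (imp (bx (itp σ A)) (bx (itp σ B)))))) := by
  rw [Kr.bxC_enc]
  show N.nm (encM (bx (imp (itp σ A) (itp σ B)))) = _
  rw [bx]
  show N.nm (ndN 2 _ _) = _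
  rw [Kr.nm_ndN]

theorem nodp_enc (P : Fm Empty) :
    encM (imp (sub P zero) P) = ndN 4 (ndN 7 (encM P) (ndN 1 0 0)) (encM P) := by
  rw [encM, encM, encF]

/-- Provability of an interpreted implication. -/
theorem Kr.nodp_im {V : Type} {N : Kr V} {w : N.W} (σ : ℕ → Fm Empty) (A B : HAs.Form) :
    N.Bx (N.nm (encM (imp (bx (itp σ A)) (bx (itp σ B))))) (N.zr (w := w)) ↔
      N.Pv (N.am σ (.imp A B) (w := w)) := by
  have g : N.gm (N.nm (encM (imp (bx (itp σ A)) (bx (itp σ B)))) : N.D w) := Kr.gm_encM _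
  rw [Kr.nodp_am_im]
  constructor
  · intro h
    have h1 : Prv (imp (sub (imp (bx (itp σ A)) (bx (itp σ B))) zero)
        (imp (bx (itp σ A)) (bx (itp σ B)))) := by
      refine complete fun M v d u hu h2 u' hu' h3 => ?_
      have h4 := Kr.nodp_inv σ A (e := M.tr hu' (M.fn zero (M.tr hu d))) h3
      exact Kr.nodp_inv σ B (h2 u' hu' h4)
    have h2 := Kr.Pv_enc h1 (M := N) (w := w)
    rw [nodp_enc, Kr.nm_ndN, Kr.nm_ndN, Kr.nm_ndN] at h2
    have h3 : N.Pv (N.nm (encM (imp (bx (itp σ A)) (bx (itp σ B)))) : N.D w) := by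
      refine Kr.Pv_mp h2 ?_
      rw [Kr.Bx, Kr.num_zr] at h
      exact h
    exact Kr.Pv_mp (Kr.Pv_mp (Kr.q_pr g (N.gm_bxC _)) h3) (Kr.box_nec h3)
  · intro h
    refine Kr.Bx_of (Kr.Pv_mp (Kr.q_fst g (N.gm_bxC _)) h)

theorem frmK_N (hK : HAs.IsSys Φ K) : (frmK hK).N = K.card := rfl

/-- The points. -/
theorem ptOK_step (hK : HAs.IsSys Φ K) (ix : HAs.Spot → ℕ) (hΨ : HAs.SubCl Ψ) {k : HAs.Spot}
    (hk : k ∈ K) (hP : ∀ l ∈ K, k.R l → PtOK hK ix Ψ l)
    (hN : ∀ v : HAs.Wd K, (∃ l ∈ K, k.R l ∧ l.R v.1.tag) → NodeOK hK ix Ψ v) :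
    PtOK hK ix Ψ k := by
  intro A hA hv M w hrc
  have h1 := Kr.H2 hrc
  suffices h2 : Prv (imp ((frmK hK).rcs (frmK hK).h ((frmK hK).R (idK K k)))
      (bx (itp (sgK hK ix) A))) by
    have h3 := Kr.Pv_enc h2 (M := M) (w := w)
    rw [encM, Kr.nm_ndN] at h3
    exact Kr.Pv_mp h3 h1
  refine complete fun N w0 d0 v0 h0 h2 => ?_
  rw [Kr.nodp_rcs] at h2
  obtain ⟨j, hj, ⟨hi0, hj0, hRj⟩, hrj⟩ := h2
  rw [ptK_idK hk] at hRj
  -- the last reached points
  have hmx : ∀ v : {v : N.W // v0 ≤ v}, ∃ i, (i = j ∨ (frmK hK).lt j i) ∧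
      N.rc (frmK hK) (w := v.1) i ∧ ∀ i', (frmK hK).lt i i' → ¬ N.rc (frmK hK) (w := v.1) i' :=
    fun v => Kr.rc_max (Kr.rc_mono v.2 hrj)
  choose c hc1 hc2 hc3 using hmx
  have hcN : ∀ v, c v < K.card := fun v => Kr.rc_N (hc2 v)
  have hlast : ∀ v i, N.rc (frmK hK) (w := v.1) i → (ptK K i).le (ptK K (c v)) := by
    intro v i hi
    rcases Kr.rc_lin hi (hc2 v) with h | h | h
    · rw [h]
      exact HAs.Spot.le_refl _
    · exact h.2.2.2
    · exact absurd hi (hc3 v i h)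
  have hkL : ∀ v, k.R (ptK K (c v)) := by
    intro v
    rcases hc1 v with h | h
    · rw [h]
      exact hRj
    · exact HAs.Spot.R_le hRj h.2.2.2
  -- provability and validity
  have hpv : ∀ B ∈ Ψ, ∀ v, N.Pv (N.am (sgK hK ix) B (w := v.1)) ↔
      HAs.valR hK ix (ptK K (c v)) B := by
    intro B hB v
    have hL : ptK K (c v) ∈ K := ptK_mem (hcN v)
    have hr : N.rc (frmK hK) (w := v.1) (idK K (ptK K (c v))) := by
      rw [idK_ptK (hcN v)]
      exact hc2 v
    constructor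
    · intro h
      obtain ⟨l, hl, hle, hrl, hval⟩ := eqR hK ix hL
        (fun u hu => hN u ⟨_, hL, hkL v, hu⟩) hB N v.1 hr h
      have h3 := hlast v _ hrl
      rw [ptK_idK hl] at h3
      rwa [HAs.Spot.le_antisymm hle h3]
    · intro h
      exact hP _ hL (hkL v) B hB h N v.1 hr
  obtain ⟨u, hu1, hu2⟩ := HAs.sel hK ix hΨ (W := {v : N.W // v0 ≤ v}) (fun u v => u.1 ≤ v.1)
    (fun v => le_refl _) (fun _ _ _ h h' => le_trans h h') (fun v => ptK K (c v))
    (fun v => ptK_mem (hcN v))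
    (fun u v h => hlast v _ (Kr.rc_mono h (hc2 u)))
    (fun B v => N.F (bx (itp (sgK hK ix) B)) (N.zr (w := v.1)))
    (fun B u v h h' => by
      have := N.mono _ h _ h'
      rwa [N.tr_zr] at this)
    (fun n v => by
      show N.F (bx (sgK hK ix n)) (N.fn zero N.zr) ↔ _
      have hps := bx_pos (sgK hK ix n) (solp_rcs _ _)
      have e1 : N.F (bx (sgK hK ix n)) (N.fn zero (N.zr (w := v.1))) ↔
          N.F (sgK hK ix n) (N.fn zero (N.zr (w := v.1))) :=
        ⟨Kr.F_app (N.sound hps.2 _), Kr.F_app (N.sound hps.1 _)⟩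
      rw [e1, sgK, Kr.nodp_rcs]
      constructor
      · rintro ⟨i, hi, ⟨l, hl, h3, h4⟩, hri⟩
        exact ⟨l, hl, h3, HAs.Spot.le_trans h4 (hlast v i hri)⟩
      · intro h
        exact ⟨c v, hcN v, h, hc2 v⟩)
    (fun v h => h)
    (fun B C v => Iff.rfl)
    (fun B C v => Iff.rfl)
    (fun B C v hBC => by
      rw [← hpv _ hBC v, ← Kr.nodp_im]
      have e1 : N.F (bx (itp (sgK hK ix) (.imp B C))) (N.zr (w := v.1)) ↔
          (∀ (u : N.W) (h : v.1 ≤ u), N.F (bx (itp (sgK hK ix) B)) (N.tr h (N.zr (w := v.1))) →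
            N.F (bx (itp (sgK hK ix) C)) (N.tr h (N.zr (w := v.1)))) ∧
          N.F (bxT (cst (encM (imp (bx (itp (sgK hK ix) B)) (bx (itp (sgK hK ix) C))))))
            (N.zr (w := v.1)) := Iff.rfl
      rw [e1, Kr.F_bxT, Kr.fn_cst]
      refine and_congr ⟨fun h u hu h3 => ?_, fun h u hu h3 => ?_⟩ Iff.rfl
      · have := h u.1 hu
        rw [N.tr_zr] at this
        exact this h3
      · rw [N.tr_zr] at h3 ⊢
        exact h ⟨u, v.2.trans hu⟩ hu h3)
    (fun B v hB => by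
      have e1 : N.F (bx (itp (sgK hK ix) (.box B))) (N.zr (w := v.1)) ↔
          N.F (prT (cst (encM (bx (itp (sgK hK ix) B))))) (N.zr (w := v.1)) :=
        ⟨Kr.F_app (N.sound (bx_box _ B).1 _), Kr.F_app (N.sound (bx_box _ B).2 _)⟩
      rw [← hpv _ (hΨ.box hB) v, e1, Kr.F_prT, Kr.fn_cst]
      exact Iff.rfl)
    ⟨v0, le_refl v0⟩
  have h3 : N.F (bx (itp (sgK hK ix) A)) (N.zr (w := v0)) := by
    refine (hu2 A hA).1 (hv u ?_)
    rw [hu1]
    exact hkL _
  exact Kr.nodp_inv _ A h3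

end HAr
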