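import Pool.Agent.Lib.MP_61e577_lc.Ar.Red

/-! Numerals, evaluation of actual functions at numerals, provable completeness for positive
formulas, and the rule with constants. -/

namespace HAr

open Fn Fm

variable {V U : Type} {M : Kr V} {w : M.W}

def Kr.num (M : Kr V) {w : M.W} (a : M.D w) : M.D w := M.fn numF a

@[simp] theorem Kr.fn_numF (a : M.D w) : M.fn numF a = M.num a := rfl
@[simp] theorem Kr.tr_num {v : M.W} (h : w ≤ v) (a : M.D w) :
    M.tr h (M.num a) = M.num (M.tr h a) := M.tr_fn h _ a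

@[simp] theorem Kr.num_zr : M.num (M.zr (w := w)) = M.nd 1 M.zr M.zr := by
  simp [Kr.num, numF]

@[simp] theorem Kr.num_S (a : M.D w) : M.num (M.S a) = M.nd 6 (M.nd 2 M.zr M.zr) (M.num a) := by
  simp [Kr.num, numF]

theorem Kr.num_nm (ρ : U → M.D w) : ∀ n : ℕ, M.num (M.nm n) = M.icf ρ (cst n)
  | 0 => by simp [cst, Kr.icf]
  | n + 1 => by simp only [Kr.nm, Kr.num_S, cst, Kr.icf, Kr.num_nm ρ n]

@[simp] theorem Kr.gf_num (a : M.D w) : M.gf (M.num a) := by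
  have := M.ind (eq (comp nfnF (comp numF right)) (comp numF right)) M.zr (by simp [KD.F])
    (fun {v} h n h1 => by
      have h1 : M.nfn (M.num n) = M.num n := by simpa [KD.F] using h1
      simp [KD.F, h1]) a
  simpa [KD.F, Kr.gf] using this

/-- Provable equality of function codes. -/
def Kr.Pe (M : Kr V) {w : M.W} (f g : M.D w) : Prop := M.Pv (M.eqc f g)

theorem Kr.gf_as4 {a b c d : M.D w} (ha : M.gf a) (hb : M.gf b) (hc : M.gf c) (hd : M.gf d) :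
    ∀ i, M.gf (as4 a b c d i)
  | 0 => ha
  | 1 => hb
  | 2 => hc
  | _ + 3 => hd

theorem Kr.gm_as4 {a b c d : M.D w} (ha : M.gm a) (hb : M.gm b) (hc : M.gm c) (hd : M.gm d) :
    ∀ i, M.gm (as4 a b c d i)
  | 0 => ha
  | 1 => hb
  | 2 => hc
  | _ + 3 => hd

theorem Kr.Pe_left {f g : M.D w} (h : M.Pe f g) : M.gf f := (Kr.gm_eqc.1 (M.Pv_gm h)).1

theorem Kr.Pe_right {f g : M.D w} (h : M.Pe f g) : M.gf g := (Kr.gm_eqc.1 (M.Pv_gm h)).2

/-- The semantic rule for provable equality, four metavariables. -/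
theorem Kr.Pe_rule (l : List (Fn ℕ × Fn ℕ)) (f g : Fn ℕ)
    (h : ∀ (N : Kr ℕ) (w : N.W), (∀ p ∈ l, ∀ (v : N.W) (_ : w ≤ v) (e : N.D v),
      N.fn p.1 e = N.fn p.2 e) → ∀ d : N.D w, N.fn f d = N.fn g d)
    {a b c d : M.D w} (ha : M.gf a) (hb : M.gf b) (hc : M.gf c) (hd : M.gf d)
    (hh : ∀ p ∈ l, M.Pe (M.icf (as4 a b c d) p.1) (M.icf (as4 a b c d) p.2)) :
    M.Pe (M.icf (as4 a b c d) f) (M.icf (as4 a b c d) g) := by
  refine Kr.rule (τ := fun _ => M.btc) (l.map fun p => eq p.1 p.2) (eq f g) ?_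
    (Kr.gf_as4 ha hb hc hd) (fun _ => Kr.gm_btc) ?_
  · intro N v hN x
    refine h N v (fun p hp u k e => ?_) x
    exact hN _ (List.mem_map.2 ⟨p, hp, rfl⟩) u k e
  · intro ψ hψ
    obtain ⟨p, hp, rfl⟩ := List.mem_map.1 hψ
    exact hh p hp

theorem Kr.Pe_refl {f : M.D w} (h : M.gf f) : M.Pe f f :=
  Kr.Pe_rule [] (.mv 0) (.mv 0) (fun _ _ _ _ => rfl) h h h h (fun p hp => absurd hp (by simp))

theorem Kr.Pe_symm {f g : M.D w} (h : M.Pe f g) : M.Pe g f :=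
  Kr.Pe_rule [(.mv 0, .mv 1)] (.mv 1) (.mv 0)
    (fun N w hN d => (hN _ (List.mem_singleton.2 rfl) w (le_refl w) d).symm)
    (Kr.Pe_left h) (Kr.Pe_right h) (Kr.Pe_left h) (Kr.Pe_left h)
    (fun p hp => by rw [List.mem_singleton.1 hp]; exact h)

theorem Kr.Pe_trans {f g k : M.D w} (h : M.Pe f g) (h2 : M.Pe g k) : M.Pe f k :=
  Kr.Pe_rule [(.mv 0, .mv 1), (.mv 1, .mv 2)] (.mv 0) (.mv 2)
    (fun N w hN d => (hN (.mv 0, .mv 1) (by simp) w (le_refl w) d).trans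
      (hN (.mv 1, .mv 2) (by simp) w (le_refl w) d))
    (Kr.Pe_left h) (Kr.Pe_right h) (Kr.Pe_right h2) (Kr.Pe_left h)
    (fun p hp => by
      simp only [List.mem_cons, List.not_mem_nil, or_false] at hp
      rcases hp with rfl | rfl
      · exact h
      · exact h2)

theorem Kr.Pe_comp {f g f' g' : M.D w} (h : M.Pe f f') (h2 : M.Pe g g') :
    M.Pe (M.nd 6 f g) (M.nd 6 f' g') :=
  Kr.Pe_rule [(.mv 0, .mv 1), (.mv 2, .mv 3)] (comp (.mv 0) (.mv 2)) (comp (.mv 1) (.mv 3))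
    (fun N w hN d => by
      have e1 := hN (.mv 0, .mv 1) (by simp) w (le_refl w) (N.fn (.mv 3) d)
      have e2 := hN (.mv 2, .mv 3) (by simp) w (le_refl w) d
      simp only [N.fn_comp] at e1 e2 ⊢
      rw [e2, e1])
    (Kr.Pe_left h) (Kr.Pe_right h) (Kr.Pe_left h2) (Kr.Pe_right h2)
    (fun p hp => by
      simp only [List.mem_cons, List.not_mem_nil, or_false] at hp
      rcases hp with rfl | rfl
      · exact h
      · exact h2)

theorem Kr.Pe_pair {f g f' g' : M.D w} (h : M.Pe f f') (h2 : M.Pe g g') :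
    M.Pe (M.nd 5 f g) (M.nd 5 f' g') :=
  Kr.Pe_rule [(.mv 0, .mv 1), (.mv 2, .mv 3)] (pair (.mv 0) (.mv 2)) (pair (.mv 1) (.mv 3))
    (fun N w hN d => by
      have e1 := hN (.mv 0, .mv 1) (by simp) w (le_refl w) d
      have e2 := hN (.mv 2, .mv 3) (by simp) w (le_refl w) d
      simp only [N.fn_pair] at e1 e2 ⊢
      rw [e2, e1])
    (Kr.Pe_left h) (Kr.Pe_right h) (Kr.Pe_left h2) (Kr.Pe_right h2)
    (fun p hp => by
      simp only [List.mem_cons, List.not_mem_nil, or_false] at hp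
      rcases hp with rfl | rfl
      · exact h
      · exact h2)

/-- Equations valid in all models give provable equalities. -/
theorem Kr.Pe_eq (f g : Fn ℕ) (h : ∀ (N : Kr ℕ) (w : N.W) (d : N.D w), N.fn f d = N.fn g d)
    {a b c d : M.D w} (ha : M.gf a) (hb : M.gf b) (hc : M.gf c) (hd : M.gf d) :
    M.Pe (M.icf (as4 a b c d) f) (M.icf (as4 a b c d) g) :=
  Kr.Pe_rule [] f g (fun N w _ d => h N w d) ha hb hc hd (fun p hp => absurd hp (by simp))

theorem Kr.F_pe {f g : Fn V} {d : M.D w} :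
    M.F (prT (ndF 0 f g)) d ↔ M.Pe (M.fn f d) (M.fn g d) := by
  rw [Kr.F_prT, Kr.fn_ndF, Kr.Pe]

theorem Kr.gf0 : M.gf (M.nd 0 (M.zr (w := w)) M.zr) := M.gf_small (by norm_num)
theorem Kr.gf1 : M.gf (M.nd 1 (M.zr (w := w)) M.zr) := M.gf_small (by norm_num)
theorem Kr.gf2 : M.gf (M.nd 2 (M.zr (w := w)) M.zr) := M.gf_small (by norm_num)
theorem Kr.gf3 : M.gf (M.nd 3 (M.zr (w := w)) M.zr) := M.gf_small (by norm_num)
theorem Kr.gf4 : M.gf (M.nd 4 (M.zr (w := w)) M.zr) := M.gf_small (by norm_num)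

/-- Numerals are constant. -/
theorem Kr.Pe_num (a : M.D w) {f : M.D w} (hf : M.gf f) : M.Pe (M.nd 6 (M.num a) f) (M.num a) := by
  have hz : ∀ {v : M.W} {x : M.D v}, M.gf x → M.Pe (M.nd 6 (M.nd 1 M.zr M.zr) x)
      (M.nd 1 M.zr M.zr) := fun hx =>
    Kr.Pe_eq (comp zero (.mv 0)) zero (fun N w d => by simp) hx hx hx hx
  have := M.ind (prT (ndF 0 (ndF 6 (comp numF right) left) (comp numF right))) f
    (by rw [Kr.F_pe]; simpa using hz hf)
    (fun {v} h n h1 => by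
      rw [Kr.F_pe] at h1 ⊢
      have h1 : M.Pe (M.nd 6 (M.num n) (M.tr h f)) (M.num n) := by simpa using h1
      suffices M.Pe (M.nd 6 (M.num (M.S n)) (M.tr h f)) (M.num (M.S n)) by simpa using this
      rw [Kr.num_S]
      refine Kr.Pe_trans ?_ (Kr.Pe_comp (Kr.Pe_refl Kr.gf2) h1)
      exact Kr.Pe_eq (comp (comp (.mv 0) (.mv 1)) (.mv 2)) (comp (.mv 0) (comp (.mv 1) (.mv 2)))
        (fun N w d => by simp) Kr.gf2 (Kr.gf_num _) (Kr.gf_mono h hf) Kr.gf2) a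
  rw [Kr.F_pe] at this
  simpa using this

/-- Numerals of pairs. -/
theorem Kr.Pe_pr (a b : M.D w) : M.Pe (M.nd 5 (M.num a) (M.num b)) (M.num (M.pr a b)) := by
  have := M.ind (prT (ndF 0 (ndF 5 (comp numF (comp left right)) (comp numF (comp right right)))
    (comp numF right))) M.zr
    (by
      rw [Kr.F_pe]
      have : M.Pe (M.nd 5 (M.nd 1 (M.zr (w := w)) M.zr) (M.nd 1 M.zr M.zr)) (M.nd 1 M.zr M.zr) :=
        Kr.Pe_eq (pair zero zero) zero (fun N w d => by simp [N.pr_zr]) Kr.gf1 Kr.gf1 Kr.gf1 Kr.gf1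
      simpa using this)
    (fun {v} h n h1 => by
      obtain ⟨x, y, rfl⟩ : ∃ x y, n = M.pr x y := ⟨_, _, (M.pr_eta n).symm⟩
      rw [Kr.F_pe] at h1 ⊢
      have h1 : M.Pe (M.nd 5 (M.num x) (M.num y)) (M.num (M.pr x y)) := by simpa using h1
      suffices M.Pe (M.nd 5 (M.num (M.fn left (M.fn succ (M.pr x y)))) (M.num (M.fn right
        (M.fn succ (M.pr x y))))) (M.num (M.fn succ (M.pr x y))) by simpa using this
      rcases M.zr_or_S y with rfl | ⟨z, rfl⟩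
      · rw [Kr.num_S, M.succ_pr_zr, M.left_pr, M.right_pr, Kr.num_zr, Kr.num_S]
        rw [Kr.num_zr] at h1
        refine Kr.Pe_trans ?_ (Kr.Pe_comp (Kr.Pe_refl Kr.gf2) h1)
        exact Kr.Pe_eq (pair zero (comp succ (.mv 0))) (comp succ (pair (.mv 0) zero))
          (fun N w d => by simp [N.succ_pr_zr]) (Kr.gf_num _) (Kr.gf_num x) (Kr.gf_num x)
          (Kr.gf_num x)
      · rw [Kr.num_S, M.succ_pr, M.left_pr, M.right_pr, Kr.num_S]
        rw [Kr.num_S] at h1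
        refine Kr.Pe_trans ?_ (Kr.Pe_comp (Kr.Pe_refl Kr.gf2) h1)
        exact Kr.Pe_eq (pair (comp succ (.mv 0)) (.mv 1)) (comp succ (pair (.mv 0)
          (comp succ (.mv 1)))) (fun N w d => by simp [N.succ_pr]) (Kr.gf_num x) (Kr.gf_num z)
          (Kr.gf_num x) (Kr.gf_num x)) (M.pr a b)
  rw [Kr.F_pe] at this
  simpa using this

theorem Kr.Pe_lft (a b : M.D w) : M.Pe (M.nd 6 (M.nd 3 M.zr M.zr) (M.num (M.pr a b))) (M.num a) := by
  refine Kr.Pe_trans (Kr.Pe_comp (Kr.Pe_refl Kr.gf3) (Kr.Pe_symm (Kr.Pe_pr a b))) ?_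
  exact Kr.Pe_eq (comp left (pair (.mv 0) (.mv 1))) (.mv 0) (fun N w d => by simp) (Kr.gf_num a)
    (Kr.gf_num b) (Kr.gf_num a) (Kr.gf_num a)

theorem Kr.Pe_rgt (a b : M.D w) : M.Pe (M.nd 6 (M.nd 4 M.zr M.zr) (M.num (M.pr a b))) (M.num b) := by
  refine Kr.Pe_trans (Kr.Pe_comp (Kr.Pe_refl Kr.gf4) (Kr.Pe_symm (Kr.Pe_pr a b))) ?_
  exact Kr.Pe_eq (comp right (pair (.mv 0) (.mv 1))) (.mv 1) (fun N w d => by simp) (Kr.gf_num a)
    (Kr.gf_num b) (Kr.gf_num a) (Kr.gf_num a)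

theorem Kr.gf_eD (f : Fn Empty) : M.gf (M.icf (eD M w) f) := Kr.gf_icf (fun i => i.elim) f

theorem Kr.fn_cdE (f : Fn Empty) (d : M.D w) :
    M.fn (cdf (fun i => i.elim) f) d = M.icf (eD M w) f := by
  rw [Kr.fn_cdf]
  congr 1
  funext i
  exact i.elim

/-- Evaluation of actual functions at numerals. -/
theorem Kr.Pe_fn (f : Fn Empty) (x : M.D w) :
    M.Pe (M.nd 6 (M.icf (eD M w) f) (M.num x)) (M.num (M.fn f.li x)) := by
  induction f generalizing w with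
  | mv i => exact i.elim
  | idn =>
    rw [li_idn, M.fn_idn]
    exact Kr.Pe_eq (comp idn (.mv 0)) (.mv 0) (fun N w d => by simp) (Kr.gf_num x) (Kr.gf_num x)
      (Kr.gf_num x) (Kr.gf_num x)
  | zero =>
    rw [li_zero, M.fn_zero, Kr.num_zr]
    exact Kr.Pe_eq (comp zero (.mv 0)) zero (fun N w d => by simp) (Kr.gf_num x) (Kr.gf_num x)
      (Kr.gf_num x) (Kr.gf_num x)
  | succ =>
    rw [li_succ, Kr.num_S]
    exact Kr.Pe_refl ((Kr.gf_nd (by norm_num) (by norm_num)).2 ⟨Kr.gf2, Kr.gf_num x⟩)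
  | left =>
    obtain ⟨a, b, rfl⟩ : ∃ a b, x = M.pr a b := ⟨_, _, (M.pr_eta x).symm⟩
    rw [li_left, M.left_pr]
    exact Kr.Pe_lft a b
  | right =>
    obtain ⟨a, b, rfl⟩ : ∃ a b, x = M.pr a b := ⟨_, _, (M.pr_eta x).symm⟩
    rw [li_right, M.right_pr]
    exact Kr.Pe_rgt a b
  | pair f g hf hg =>
    rw [li_pair, M.fn_pair]
    refine Kr.Pe_trans ?_ (Kr.Pe_trans (Kr.Pe_pair (hf x) (hg x)) (Kr.Pe_pr _ _))
    exact Kr.Pe_eq (comp (pair (.mv 0) (.mv 1)) (.mv 2)) (pair (comp (.mv 0) (.mv 2))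
      (comp (.mv 1) (.mv 2))) (fun N w d => by simp) (Kr.gf_eD f) (Kr.gf_eD g) (Kr.gf_num x)
      (Kr.gf_num x)
  | comp f g hf hg =>
    rw [li_comp, M.fn_comp]
    refine Kr.Pe_trans ?_ (Kr.Pe_trans (Kr.Pe_comp (Kr.Pe_refl (Kr.gf_eD f)) (hg x)) (hf _))
    exact Kr.Pe_eq (comp (comp (.mv 0) (.mv 1)) (.mv 2)) (comp (.mv 0) (comp (.mv 1) (.mv 2)))
      (fun N w d => by simp) (Kr.gf_eD f) (Kr.gf_eD g) (Kr.gf_num x) (Kr.gf_num x)
  | prec f g hf hg =>
    obtain ⟨a, n, rfl⟩ : ∃ a n, x = M.pr a n := ⟨_, _, (M.pr_eta x).symm⟩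
    have := M.ind (prT (ndF 0 (ndF 6 (cdf (fun i => i.elim) (prec f g)) numF)
      (comp numF (prec f g).li))) a
      (by
        rw [Kr.F_pe]
        simp only [Kr.fn_ndF, Kr.fn_cdE, M.fn_comp, Kr.fn_numF, li_prec, M.prec_zr]
        refine Kr.Pe_trans ?_ (hf a)
        refine Kr.Pe_trans (Kr.Pe_comp (Kr.Pe_refl (Kr.gf_eD (prec f g)))
          (Kr.Pe_symm (Kr.Pe_pr _ _))) ?_
        rw [Kr.num_zr]
        exact Kr.Pe_eq (comp (prec (.mv 0) (.mv 1)) (pair (.mv 2) zero)) (comp (.mv 0) (.mv 2))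
          (fun N w d => by simp) (Kr.gf_eD f) (Kr.gf_eD g) (Kr.gf_num a) (Kr.gf_num a))
      (fun {v} h n h1 => by
        rw [Kr.F_pe] at h1 ⊢
        simp only [Kr.fn_ndF, Kr.fn_cdE, M.fn_comp, Kr.fn_numF, li_prec, M.prec_succ] at h1 ⊢
        refine Kr.Pe_trans ?_ (hg _)
        refine Kr.Pe_trans (Kr.Pe_comp (Kr.Pe_refl (Kr.gf_eD (prec f g)))
          (Kr.Pe_symm (Kr.Pe_pr _ _))) ?_
        rw [Kr.num_S]
        have h2 := Kr.Pe_trans (Kr.Pe_comp (Kr.Pe_refl (Kr.gf_eD (prec f g))) (Kr.Pe_pr _ _)) h1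
        have h3 := Kr.Pe_trans (Kr.Pe_pair (Kr.Pe_refl (Kr.gf_num n)) h2) (Kr.Pe_pr _ _)
        have h4 := Kr.Pe_trans (Kr.Pe_pair (Kr.Pe_refl (Kr.gf_num (M.tr h a))) h3) (Kr.Pe_pr _ _)
        refine Kr.Pe_trans ?_ (Kr.Pe_comp (Kr.Pe_refl (Kr.gf_eD g)) h4)
        exact Kr.Pe_eq (comp (prec (.mv 0) (.mv 1)) (pair (.mv 2) (comp succ (.mv 3))))
          (comp (.mv 1) (pair (.mv 2) (pair (.mv 3) (comp (prec (.mv 0) (.mv 1))
            (pair (.mv 2) (.mv 3)))))) (fun N w d => by simp) (Kr.gf_eD f) (Kr.gf_eD g)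
          (Kr.gf_num _) (Kr.gf_num n)) n
    rw [Kr.F_pe] at this
    simpa only [Kr.fn_ndF, Kr.fn_cdE, M.fn_comp, Kr.fn_numF] using this
  | trec f g hf hg =>
    obtain ⟨a, n, rfl⟩ : ∃ a n, x = M.pr a n := ⟨_, _, (M.pr_eta x).symm⟩
    have := M.tind (prT (ndF 0 (ndF 6 (cdf (fun i => i.elim) (trec f g)) numF)
      (comp numF (trec f g).li))) a
      (by
        rw [Kr.F_pe]
        simp only [Kr.fn_ndF, Kr.fn_cdE, M.fn_comp, Kr.fn_numF, li_trec, M.trec_zr]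
        refine Kr.Pe_trans ?_ (hf a)
        refine Kr.Pe_trans (Kr.Pe_comp (Kr.Pe_refl (Kr.gf_eD (trec f g)))
          (Kr.Pe_symm (Kr.Pe_pr _ _))) ?_
        rw [Kr.num_zr]
        exact Kr.Pe_eq (comp (trec (.mv 0) (.mv 1)) (pair (.mv 2) zero)) (comp (.mv 0) (.mv 2))
          (fun N w d => by simp) (Kr.gf_eD f) (Kr.gf_eD g) (Kr.gf_num a) (Kr.gf_num a))
      (fun {v} h x y h1 h2 => by
        rw [Kr.F_pe] at h1 h2 ⊢
        simp only [Kr.fn_ndF, Kr.fn_cdE, M.fn_comp, Kr.fn_numF, li_trec, M.trec_succ, M.left_pr,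
          M.right_pr] at h1 h2 ⊢
        refine Kr.Pe_trans ?_ (hg _)
        refine Kr.Pe_trans (Kr.Pe_comp (Kr.Pe_refl (Kr.gf_eD (trec f g)))
          (Kr.Pe_symm (Kr.Pe_pr _ _))) ?_
        rw [Kr.num_S]
        have l1 : M.Pe (M.nd 5 (M.num (M.tr h a)) (M.nd 6 (M.nd 3 M.zr M.zr) (M.num (M.pr x y))))
            (M.num (M.pr (M.tr h a) x)) := Kr.Pe_trans (Kr.Pe_pair (Kr.Pe_refl
          (Kr.gf_num (M.tr h a))) (Kr.Pe_lft x y)) (Kr.Pe_pr _ _)
        have l2 : M.Pe (M.nd 5 (M.num (M.tr h a)) (M.nd 6 (M.nd 4 M.zr M.zr) (M.num (M.pr x y))))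
            (M.num (M.pr (M.tr h a) y)) := Kr.Pe_trans (Kr.Pe_pair (Kr.Pe_refl
          (Kr.gf_num (M.tr h a))) (Kr.Pe_rgt x y)) (Kr.Pe_pr _ _)
        have k1 := Kr.Pe_trans (Kr.Pe_comp (Kr.Pe_refl (Kr.gf_eD (trec f g))) l1) h1
        have k2 := Kr.Pe_trans (Kr.Pe_comp (Kr.Pe_refl (Kr.gf_eD (trec f g))) l2) h2
        have k3 := Kr.Pe_trans (Kr.Pe_pair k1 k2) (Kr.Pe_pr _ _)
        have k4 := Kr.Pe_trans (Kr.Pe_pair (Kr.Pe_refl (Kr.gf_num (M.pr x y))) k3) (Kr.Pe_pr _ _)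
        have k5 := Kr.Pe_trans (Kr.Pe_pair (Kr.Pe_refl (Kr.gf_num (M.tr h a))) k4) (Kr.Pe_pr _ _)
        refine Kr.Pe_trans ?_ (Kr.Pe_comp (Kr.Pe_refl (Kr.gf_eD g)) k5)
        exact Kr.Pe_eq (comp (trec (.mv 0) (.mv 1)) (pair (.mv 2) (comp succ (.mv 3))))
          (comp (.mv 1) (pair (.mv 2) (pair (.mv 3) (pair (comp (trec (.mv 0) (.mv 1))
            (pair (.mv 2) (comp left (.mv 3)))) (comp (trec (.mv 0) (.mv 1))
            (pair (.mv 2) (comp right (.mv 3)))))))) (fun N w d => by simp) (Kr.gf_eD f)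
          (Kr.gf_eD g) (Kr.gf_num _) (Kr.gf_num (M.pr x y))) n
    rw [Kr.F_pe] at this
    simpa only [Kr.fn_ndF, Kr.fn_cdE, M.fn_comp, Kr.fn_numF] using this

/-- Positive formulas. -/
def Fm.Pos {V : Type} : Fm V → Prop
  | .mv _ => False
  | eq _ _ => True
  | bot => True
  | conj P Q => P.Pos ∧ Q.Pos
  | disj P Q => P.Pos ∧ Q.Pos
  | imp _ _ => False
  | ex P => P.Pos
  | all _ => False
  | sub P _ => P.Pos

/-- True positive sentences are provable. -/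
theorem Kr.sigma (P : Fm Empty) (hP : P.Pos) {x : M.D w} (h : M.F P.li x) :
    M.Pv (M.sbc (M.icm (eD M w) (eD M w) P) (M.num x)) := by
  have gE : ∀ Q : Fm Empty, M.gm (M.icm (eD M w) (eD M w) Q) :=
    fun Q => Kr.gm_icm (fun i => i.elim) (fun i => i.elim) Q
  induction P generalizing x with
  | mv i => exact i.elim
  | eq f g =>
    have e : M.fn f.li x = M.fn g.li x := h
    have h1 := Kr.Pe_fn f x
    rw [e] at h1
    have h2 := Kr.Pe_trans h1 (Kr.Pe_symm (Kr.Pe_fn g x))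
    refine Kr.rule (ρ := as4 (M.icf (eD M w) f) (M.icf (eD M w) g) (M.num x) (M.num x))
      (τ := fun _ => M.btc) [eq (comp (.mv 0) (.mv 2)) (comp (.mv 1) (.mv 2))]
      (sub (eq (.mv 0) (.mv 1)) (.mv 2)) ?_
      (Kr.gf_as4 (Kr.gf_eD f) (Kr.gf_eD g) (Kr.gf_num x) (Kr.gf_num x)) (fun _ => Kr.gm_btc) ?_
    · intro N v hN d
      have := hN _ (List.mem_singleton.2 rfl) v (le_refl v) d
      simpa [KD.F] using this
    · intro ψ hψ
      rw [List.mem_singleton.1 hψ]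
      exact h2
  | bot => exact h.elim
  | conj P Q h1 h2 =>
    have k1 := h1 hP.1 h.1
    have k2 := h2 hP.2 h.2
    refine Kr.rule (ρ := fun _ => M.num x) (τ := as4 (M.icm (eD M w) (eD M w) P)
      (M.icm (eD M w) (eD M w) Q) M.btc M.btc) [sub (.mv 0) (.mv 0), sub (.mv 1) (.mv 0)]
      (sub (conj (.mv 0) (.mv 1)) (.mv 0)) ?_
      (fun _ => Kr.gf_num x) (Kr.gm_as4 (gE P) (gE Q) Kr.gm_btc Kr.gm_btc) ?_
    · intro N v hN d
      exact ⟨hN (sub (.mv 0) (.mv 0)) (by simp) v (le_refl v) d,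
        hN (sub (.mv 1) (.mv 0)) (by simp) v (le_refl v) d⟩
    · intro ψ hψ
      simp only [List.mem_cons, List.not_mem_nil, or_false] at hψ
      rcases hψ with rfl | rfl
      · exact k1
      · exact k2
  | disj P Q h1 h2 =>
    rcases h with h | h
    · have k1 := h1 hP.1 h
      refine Kr.rule (ρ := fun _ => M.num x) (τ := as4 (M.icm (eD M w) (eD M w) P)
        (M.icm (eD M w) (eD M w) Q) M.btc M.btc) [sub (.mv 0) (.mv 0)]
        (sub (disj (.mv 0) (.mv 1)) (.mv 0)) ?_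
        (fun _ => Kr.gf_num x) (Kr.gm_as4 (gE P) (gE Q) Kr.gm_btc Kr.gm_btc) ?_
      · intro N v hN d
        exact Or.inl (hN (sub (.mv 0) (.mv 0)) (by simp) v (le_refl v) d)
      · intro ψ hψ
        rw [List.mem_singleton.1 hψ]
        exact k1
    · have k1 := h2 hP.2 h
      refine Kr.rule (ρ := fun _ => M.num x) (τ := as4 (M.icm (eD M w) (eD M w) P)
        (M.icm (eD M w) (eD M w) Q) M.btc M.btc) [sub (.mv 1) (.mv 0)]
        (sub (disj (.mv 0) (.mv 1)) (.mv 0)) ?_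
        (fun _ => Kr.gf_num x) (Kr.gm_as4 (gE P) (gE Q) Kr.gm_btc Kr.gm_btc) ?_
      · intro N v hN d
        exact Or.inr (hN (sub (.mv 1) (.mv 0)) (by simp) v (le_refl v) d)
      · intro ψ hψ
        rw [List.mem_singleton.1 hψ]
        exact k1
  | imp P Q => exact hP.elim
  | ex P h1 =>
    obtain ⟨y, hy⟩ := h
    have k1 := h1 hP hy
    refine Kr.rule (ρ := as4 (M.num x) (M.num y) (M.num (M.pr x y)) (M.num x))
      (τ := fun _ => M.icm (eD M w) (eD M w) P)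
      [sub (.mv 0) (.mv 2), eq (pair (.mv 0) (.mv 1)) (.mv 2)]
      (sub (ex (.mv 0)) (.mv 0)) ?_
      (Kr.gf_as4 (Kr.gf_num _) (Kr.gf_num _) (Kr.gf_num _) (Kr.gf_num _)) (fun _ => gE P) ?_
    · intro N v hN d
      have a1 := hN (sub (.mv 0) (.mv 2)) (by simp) v (le_refl v) d
      have a2 := hN (eq (pair (.mv 0) (.mv 1)) (.mv 2)) (by simp) v (le_refl v) d
      have a1 : N.pm 0 (N.fn (.mv 2) d) := a1
      have a2 : N.fn (pair (.mv 0) (.mv 1)) d = N.fn (.mv 2) d := a2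
      refine ⟨N.fn (.mv 1) d, ?_⟩
      show N.pm 0 (N.pr (N.fn (.mv 0) d) (N.fn (.mv 1) d))
      rw [← N.fn_pair, a2]
      exact a1
    · intro ψ hψ
      simp only [List.mem_cons, List.not_mem_nil, or_false] at hψ
      rcases hψ with rfl | rfl
      · exact k1
      · exact Kr.Pe_pr x y
  | all P => exact hP.elim
  | sub P f h1 =>
    have k1 := h1 hP h
    refine Kr.rule (ρ := as4 (M.icf (eD M w) f) (M.num x) (M.num (M.fn f.li x)) (M.num x))
      (τ := fun _ => M.icm (eD M w) (eD M w) P)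
      [sub (.mv 0) (.mv 2), eq (comp (.mv 0) (.mv 1)) (.mv 2)]
      (sub (sub (.mv 0) (.mv 0)) (.mv 1)) ?_
      (Kr.gf_as4 (Kr.gf_eD f) (Kr.gf_num _) (Kr.gf_num _) (Kr.gf_num _)) (fun _ => gE P) ?_
    · intro N v hN d
      have a1 := hN (sub (.mv 0) (.mv 2)) (by simp) v (le_refl v) d
      have a2 := hN (eq (comp (.mv 0) (.mv 1)) (.mv 2)) (by simp) v (le_refl v) d
      have a1 : N.pm 0 (N.fn (.mv 2) d) := a1
      have a2 : N.fn (comp (.mv 0) (.mv 1)) d = N.fn (.mv 2) d := a2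
      show N.pm 0 (N.fn (.mv 0) (N.fn (.mv 1) d))
      rw [← N.fn_comp, a2]
      exact a1
    · intro ψ hψ
      simp only [List.mem_cons, List.not_mem_nil, or_false] at hψ
      rcases hψ with rfl | rfl
      · exact k1
      · exact Kr.Pe_fn f x

/-- Semantic consequence with `k` constants (the metavariables `0, .., k - 1` for functions are
constant, with the values the entries of `e`) and positive facts `θs` about them. -/
def SemC (k : ℕ) (θs : List (Fm Empty)) (hyps : List (Fm ℕ)) (φ : Fm ℕ) : Prop :=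
  ∀ (N : Kr ℕ) (w : N.W) (e : N.D w),
    (∀ i < k, ∀ (v : N.W) (h : w ≤ v) (d : N.D v), N.fn (.mv i) d = N.fn (prj i) (N.tr h e)) →
    (∀ θ ∈ θs, N.F θ.li e) →
    (∀ ψ ∈ hyps, ∀ (v : N.W) (_ : w ≤ v) (d : N.D v), N.F ψ d) →
    ∀ d : N.D w, N.F φ d

theorem ms_prj (r : U → Fn V) : ∀ i : ℕ, (prj i : Fn U).ms r = prj i
  | 0 => rfl
  | i + 1 => by simp only [prj, Fn.ms, ms_prj r i]

theorem Fn.ms_li (r : U → Fn V) (f : Fn Empty) : (f.li : Fn U).ms r = f.li := by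
  induction f with
  | mv i => exact i.elim
  | idn => rfl
  | zero => rfl
  | succ => rfl
  | left => rfl
  | right => rfl
  | pair f g h1 h2 => simp only [li_pair, Fn.ms, h1, h2]
  | comp f g h1 h2 => simp only [li_comp, Fn.ms, h1, h2]
  | prec f g h1 h2 => simp only [li_prec, Fn.ms, h1, h2]
  | trec f g h1 h2 => simp only [li_trec, Fn.ms, h1, h2]

theorem Fm.ms_li (r : U → Fn V) (t : U → Fm V) (P : Fm Empty) :
    (P.li : Fm U).ms r t = P.li := by
  induction P with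
  | mv i => exact i.elim
  | eq f g => simp only [li_eq, Fm.ms, Fn.ms_li]
  | bot => rfl
  | conj P Q h1 h2 => simp only [li_conj, Fm.ms, h1, h2]
  | disj P Q h1 h2 => simp only [li_disj, Fm.ms, h1, h2]
  | imp P Q h1 h2 => simp only [li_imp, Fm.ms, h1, h2]
  | ex P h1 => simp only [li_ex, Fm.ms, h1]
  | all P h1 => simp only [li_all, Fm.ms, h1]
  | sub P f h1 => simp only [li_sub, Fm.ms, h1, Fn.ms_li]

theorem Kr.icf_li (ρ : U → M.D w) (f : Fn Empty) : M.icf ρ f.li = M.icf (eD M w) f := by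
  rw [Fn.li, Kr.icf_ms]
  congr 1
  funext i
  exact i.elim

theorem Kr.icm_li (ρ τ : U → M.D w) (P : Fm Empty) :
    M.icm ρ τ P.li = M.icm (eD M w) (eD M w) P := by
  rw [Fm.li, Kr.icm_ms]
  congr 1 <;>
  · funext i
    exact i.elim

/-- An additional value. -/
def optD {X : Type} (x : X) (ρ : ℕ → X) : Option ℕ → X
  | none => x
  | some i => ρ i

/-- The rule with constants. -/
theorem Kr.ruleC (k : ℕ) (θs : List (Fm Empty)) (hyps : List (Fm ℕ)) (φ : Fm ℕ)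
    (hp : ∀ θ ∈ θs, θ.Pos) (hs : SemC k θs hyps φ) {M : Kr V} {w : M.W} {ρ τ : ℕ → M.D w}
    (hρ : ∀ i, M.gf (ρ i)) (hτ : ∀ i, M.gm (τ i)) (c : M.D w)
    (hc : ∀ i < k, ρ i = M.num (M.fn (prj i) c)) (hθ : ∀ θ ∈ θs, M.F θ.li c)
    (hh : ∀ ψ ∈ hyps, M.Pv (M.icm ρ τ ψ)) : M.Pv (M.icm ρ τ φ) := by
  have ren : ∀ P : Fm ℕ, M.icm (optD (M.num c) ρ) (optD M.btc τ)
      (P.ms (fun i => Fn.mv (some i)) (fun i => Fm.mv (some i))) = M.icm ρ τ P := by
    intro P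
    rw [Kr.icm_ms]
    rfl
  rw [← ren]
  refine Kr.rule (hyps.map (fun P => P.ms (fun i => Fn.mv (some i)) (fun i => Fm.mv (some i))) ++
    (θs.map (fun θ => sub θ.li (.mv none)) ++
    ((List.range k).map (fun i => eq (.mv (some i)) (comp (prj i) (.mv none))) ++
    [eq (comp (.mv none) zero) (.mv none)]))) _ ?_ ?_ ?_ ?_
  · intro N u hN d
    have hN1 : ∀ P ∈ hyps, ∀ (v : N.W) (_ : u ≤ v) (e : N.D v),
        N.F (P.ms (fun i => Fn.mv (some i)) (fun i => Fm.mv (some i))) e := fun P hP =>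
      hN _ (List.mem_append.2 (Or.inl (List.mem_map.2 ⟨P, hP, rfl⟩)))
    have hN2 : ∀ θ ∈ θs, ∀ (v : N.W) (_ : u ≤ v) (e : N.D v),
        N.F (sub θ.li (.mv none)) e := fun θ hθ =>
      hN _ (List.mem_append.2 (Or.inr (List.mem_append.2 (Or.inl (List.mem_map.2 ⟨θ, hθ, rfl⟩)))))
    have hN3 : ∀ i < k, ∀ (v : N.W) (_ : u ≤ v) (e : N.D v),
        N.F (eq (.mv (some i)) (comp (prj i) (.mv none))) e := fun i hi =>
      hN _ (List.mem_append.2 (Or.inr (List.mem_append.2 (Or.inr (List.mem_append.2 (Or.inl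
        (List.mem_map.2 ⟨i, List.mem_range.2 hi, rfl⟩)))))))
    have hN4 : ∀ (v : N.W) (_ : u ≤ v) (e : N.D v),
        N.F (eq (comp (.mv none) zero) (.mv none)) e :=
      hN _ (List.mem_append.2 (Or.inr (List.mem_append.2 (Or.inr (List.mem_append.2 (Or.inr
        (List.mem_singleton.2 rfl)))))))
    have hN5 : ∀ (v : N.W) (h : u ≤ v) (e : N.D v),
        N.fn (.mv none) e = N.tr h (N.fn (.mv none) N.zr) := by
      intro v h e
      have : N.fn (comp (.mv none) zero) e = N.fn (.mv none) e := hN4 v h e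
      rw [N.tr_fn, N.tr_zr, ← this, N.fn_comp, N.fn_zero]
    rw [← Kr.redD_F]
    refine hs (N.red (fun i => Fn.mv (some i)) (fun i => Fm.mv (some i))) u
      (N.fn (.mv none) N.zr) ?_ ?_ ?_ d
    · intro i hi v h e
      have e1 : N.fn (.mv (some i)) e = N.fn (comp (prj i) (.mv none)) e := hN3 i hi v h e
      rw [N.fn_comp, hN5 v h e] at e1
      show N.fn (.mv (some i)) e = N.fn ((prj i : Fn ℕ).ms _) (N.tr h (N.fn (.mv none) N.zr))
      rw [ms_prj]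
      exact e1
    · intro θ hθ
      have := (Kr.redD_F N (fun i => Fn.mv (some i)) (fun i => Fm.mv (some i)) θ.li
        (w := u) (N.fn (.mv none) N.zr)).2
      rw [Fm.ms_li] at this
      refine this ?_
      exact hN2 θ hθ u (le_refl u) N.zr
    · intro ψ hψ v h e
      exact (Kr.redD_F N (fun i => Fn.mv (some i)) (fun i => Fm.mv (some i)) ψ (w := v) e).2
        (hN1 ψ hψ v h e)
  · rintro (_ | i)
    · exact Kr.gf_num c
    · exact hρ i
  · rintro (_ | i)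
    · exact Kr.gm_btc
    · exact hτ i
  · intro ψ hψ
    rcases List.mem_append.1 hψ with hψ | hψ
    · obtain ⟨P, hP, rfl⟩ := List.mem_map.1 hψ
      rw [ren]
      exact hh P hP
    rcases List.mem_append.1 hψ with hψ | hψ
    · obtain ⟨θ, hm, rfl⟩ := List.mem_map.1 hψ
      have := Kr.sigma θ (hp θ hm) (hθ θ hm)
      rw [← Kr.icm_li (optD (M.num c) ρ) (optD M.btc τ)] at this
      exact this
    rcases List.mem_append.1 hψ with hψ | hψ
    · obtain ⟨i, hi, rfl⟩ := List.mem_map.1 hψ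
      have := Kr.Pe_symm (Kr.Pe_fn (prj i) c)
      rw [← Kr.icf_li (optD (M.num c) ρ), li_prj, ← hc i (List.mem_range.1 hi), li_prj] at this
      exact this
    · rw [List.mem_singleton.1 hψ]
      exact Kr.Pe_num c Kr.gf1

end HAr
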