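import Pool.Agent.Lib.MP_61e577_lc.Ar.Dfn

/-! Ordinary Heyting arithmetic with symbols for all primitive recursive functions, natural
deduction, de Bruijn variables; and its translation into the one-variable calculus. -/

namespace HAo

/-- Symbols for the primitive recursive functions with `n` arguments. -/
inductive PR : ℕ → Type
  | zero : PR 0
  | succ : PR 1
  | proj {n : ℕ} (i : Fin n) : PR n
  | comp {m n : ℕ} (f : PR m) (g : Fin m → PR n) : PR n
  | prec {n : ℕ} (f : PR n) (g : PR (n + 2)) : PR (n + 1)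

/-- Terms. -/
inductive T : Type
  | var (i : ℕ) : T
  | app {n : ℕ} (f : PR n) (ts : Fin n → T) : T

/-- The term zero. -/
def T.z : T := T.app PR.zero Fin.elim0

/-- The successor of a term. -/
def T.s (t : T) : T := T.app PR.succ fun _ => t

/-- Formulas; the variable 0 is bound by a quantifier. -/
inductive A : Type
  | eq (s t : T) : A
  | bot : A
  | conj (a b : A) : A
  | disj (a b : A) : A
  | imp (a b : A) : A
  | ex (a : A) : A
  | all (a : A) : A

/-- Substitution in terms. -/
def T.sb (σ : ℕ → T) : T → T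
  | var i => σ i
  | app f ts => app f fun i => (ts i).sb σ

/-- The substitution under a quantifier. -/
def lf (σ : ℕ → T) : ℕ → T
  | 0 => T.var 0
  | i + 1 => (σ i).sb fun j => T.var (j + 1)

/-- Substitution in formulas. -/
def A.sb : (ℕ → T) → A → A
  | σ, eq s t => eq (s.sb σ) (t.sb σ)
  | _, bot => bot
  | σ, conj a b => conj (a.sb σ) (b.sb σ)
  | σ, disj a b => disj (a.sb σ) (b.sb σ)
  | σ, imp a b => imp (a.sb σ) (b.sb σ)
  | σ, ex a => ex (a.sb (lf σ))
  | σ, all a => all (a.sb (lf σ))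

/-- Shift of all variables. -/
def A.wk (a : A) : A := a.sb fun i => T.var (i + 1)

/-- The substitution of `t` for the variable 0. -/
def at0 (t : T) : ℕ → T
  | 0 => t
  | i + 1 => T.var i

/-- The substitution of the successor of the variable 0 for the variable 0. -/
def suc0 : ℕ → T
  | 0 => T.s (T.var 0)
  | i + 1 => T.var (i + 1)

/-- Natural deduction for intuitionistic logic with the axioms of Heyting arithmetic. -/
inductive Pf : List A → A → Prop
  | hyp {G : List A} {a : A} : a ∈ G → Pf G a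
  | botE {G : List A} (a : A) : Pf G A.bot → Pf G a
  | conjI {G : List A} {a b : A} : Pf G a → Pf G b → Pf G (A.conj a b)
  | conjL {G : List A} {a b : A} : Pf G (A.conj a b) → Pf G a
  | conjR {G : List A} {a b : A} : Pf G (A.conj a b) → Pf G b
  | disjL {G : List A} {a : A} (b : A) : Pf G a → Pf G (A.disj a b)
  | disjR {G : List A} (a : A) {b : A} : Pf G b → Pf G (A.disj a b)
  | disjE {G : List A} {a b c : A} : Pf G (A.disj a b) → Pf (a :: G) c → Pf (b :: G) c → Pf G c
  | impI {G : List A} {a b : A} : Pf (a :: G) b → Pf G (A.imp a b)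
  | impE {G : List A} {a b : A} : Pf G (A.imp a b) → Pf G a → Pf G b
  | allI {G : List A} {a : A} : Pf (G.map A.wk) a → Pf G (A.all a)
  | allE {G : List A} {a : A} (t : T) : Pf G (A.all a) → Pf G (a.sb (at0 t))
  | exI {G : List A} {a : A} (t : T) : Pf G (a.sb (at0 t)) → Pf G (A.ex a)
  | exE {G : List A} {a b : A} : Pf G (A.ex a) → Pf (a :: G.map A.wk) b.wk → Pf G b
  | refl {G : List A} (t : T) : Pf G (A.eq t t)
  | leib {G : List A} (a : A) {s t : T} : Pf G (A.eq s t) → Pf G (a.sb (at0 s)) →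
      Pf G (a.sb (at0 t))
  | proj {G : List A} {n : ℕ} (i : Fin n) (ts : Fin n → T) :
      Pf G (A.eq (T.app (PR.proj i) ts) (ts i))
  | comp {G : List A} {m n : ℕ} (f : PR m) (g : Fin m → PR n) (ts : Fin n → T) :
      Pf G (A.eq (T.app (PR.comp f g) ts) (T.app f fun i => T.app (g i) ts))
  | prec0 {G : List A} {n : ℕ} (f : PR n) (g : PR (n + 2)) (ts : Fin n → T) :
      Pf G (A.eq (T.app (PR.prec f g) (Fin.cons T.z ts)) (T.app f ts))
  | precS {G : List A} {n : ℕ} (f : PR n) (g : PR (n + 2)) (t : T) (ts : Fin n → T) :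
      Pf G (A.eq (T.app (PR.prec f g) (Fin.cons (T.s t) ts))
        (T.app g (Fin.cons t (Fin.cons (T.app (PR.prec f g) (Fin.cons t ts)) ts))))
  | sZ {G : List A} {t : T} : Pf G (A.eq (T.s t) T.z) → Pf G A.bot
  | sI {G : List A} {s t : T} : Pf G (A.eq (T.s s) (T.s t)) → Pf G (A.eq s t)
  | ind {G : List A} (a : A) : Pf G (a.sb (at0 T.z)) → Pf G (A.all (A.imp a (a.sb suc0))) →
      Pf G (A.all a)

open HAr

/-- Tuples as iterated pairs. -/
def tup : {n : ℕ} → (Fin n → Fn Empty) → Fn Empty
  | 0, _ => Fn.zero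
  | _ + 1, f => Fn.pair (f 0) (tup fun i => f i.succ)

/-- Components of tuples. -/
def cmp : ℕ → Fn Empty
  | 0 => Fn.left
  | i + 1 => Fn.comp (cmp i) Fn.right

/-- Translation of function symbols. -/
def PR.tl : {n : ℕ} → PR n → Fn Empty
  | _, .zero => Fn.zero
  | _, .succ => Fn.comp Fn.succ Fn.left
  | _, .proj i => cmp i
  | _, .comp f g => Fn.comp f.tl (tup fun i => (g i).tl)
  | _, .prec f g => Fn.comp (Fn.prec f.tl (Fn.comp g.tl
      (Fn.pair (Fn.comp Fn.left Fn.right) (Fn.pair (Fn.comp Fn.right Fn.right) Fn.left))))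
      (Fn.pair Fn.right Fn.left)

/-- Variables. -/
def vr : ℕ → Fn Empty
  | 0 => Fn.right
  | i + 1 => Fn.comp (vr i) Fn.left

/-- Translation of terms. -/
def T.tl : T → Fn Empty
  | .var i => vr i
  | .app f ts => Fn.comp f.tl (tup fun i => (ts i).tl)

/-- Translation of formulas. -/
def A.tl : A → Fm Empty
  | .eq s t => Fm.eq s.tl t.tl
  | .bot => Fm.bot
  | .conj a b => Fm.conj a.tl b.tl
  | .disj a b => Fm.disj a.tl b.tl
  | .imp a b => Fm.imp a.tl b.tl
  | .ex a => Fm.ex a.tl
  | .all a => Fm.all a.tl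

/-- All variables are below `n`. -/
def T.bd (n : ℕ) : T → Prop
  | var i => i < n
  | app _ ts => ∀ i, (ts i).bd n

/-- All free variables are below `n`. -/
def A.bd : ℕ → A → Prop
  | n, eq s t => s.bd n ∧ t.bd n
  | _, bot => True
  | n, conj a b => a.bd n ∧ b.bd n
  | n, disj a b => a.bd n ∧ b.bd n
  | n, imp a b => a.bd n ∧ b.bd n
  | n, ex a => a.bd (n + 1)
  | n, all a => a.bd (n + 1)

end HAo
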