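import Pool.Agent.Lib.MP_61e577_lc.Ar.Ord
import Pool.Agent.Lib.MP_61e577_lc.Ar.Complete
import Pool.Agent.Lib.MP_61e577_lc.Ar.Arith

/-! The theorems of ordinary Heyting arithmetic are provable in the one-variable calculus:
soundness of natural deduction in the Kripke models of the one-variable calculus, and
completeness. -/

namespace HAo

open HAr

variable (M : Kr Empty) {w : M.W}

/-- Tuples of elements as iterated pairs. -/
def ordA_tup {w : M.W} : {n : ℕ} → (Fin n → M.D w) → M.D w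
  | 0, _ => M.zr
  | _ + 1, x => M.pr (x 0) (ordA_tup fun i => x i.succ)

theorem ordA_fn_tup {n : ℕ} (f : Fin n → Fn Empty) (d : M.D w) :
    M.fn (tup f) d = ordA_tup M fun i => M.fn (f i) d := by
  induction n with
  | zero => exact M.fn_zero d
  | succ n ih =>
    rw [tup, M.fn_pair, ih, ordA_tup]

theorem ordA_fn_cmp {n : ℕ} (i : Fin n) (x : Fin n → M.D w) :
    M.fn (cmp i) (ordA_tup M x) = x i := by
  induction n with
  | zero => exact i.elim0
  | succ n ih =>
    rw [ordA_tup]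
    refine Fin.cases ?_ (fun j => ?_) i
    · rw [Fin.val_zero, cmp, M.left_pr]
    · rw [Fin.val_succ, cmp, M.fn_comp, M.right_pr, ih]

theorem ordA_proj {n : ℕ} (i : Fin n) (x : Fin n → M.D w) :
    M.fn (PR.proj i).tl (ordA_tup M x) = x i := by
  rw [PR.tl]
  exact ordA_fn_cmp M i x

theorem ordA_comp {m n : ℕ} (f : PR m) (g : Fin m → PR n) (x : Fin n → M.D w) :
    M.fn (PR.comp f g).tl (ordA_tup M x) =
      M.fn f.tl (ordA_tup M fun i => M.fn (g i).tl (ordA_tup M x)) := by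
  rw [PR.tl, M.fn_comp, ordA_fn_tup]

theorem ordA_prec0 {n : ℕ} (f : PR n) (g : PR (n + 2)) (x : Fin n → M.D w) :
    M.fn (PR.prec f g).tl (M.pr M.zr (ordA_tup M x)) = M.fn f.tl (ordA_tup M x) := by
  rw [PR.tl]
  simp only [M.fn_comp, M.fn_pair, M.right_pr, M.left_pr, M.prec_zr]

theorem ordA_precS {n : ℕ} (f : PR n) (g : PR (n + 2)) (a : M.D w) (x : Fin n → M.D w) :
    M.fn (PR.prec f g).tl (M.pr (M.fn Fn.succ a) (ordA_tup M x)) =
      M.fn g.tl (M.pr a (M.pr (M.fn (PR.prec f g).tl (M.pr a (ordA_tup M x)))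
        (ordA_tup M x))) := by
  rw [PR.tl]
  simp only [M.fn_comp, M.fn_pair, M.right_pr, M.left_pr, M.prec_succ]

theorem ordA_app {n : ℕ} (f : PR n) (ts : Fin n → T) (d : M.D w) :
    M.fn (T.app f ts).tl d = M.fn f.tl (ordA_tup M fun i => M.fn (ts i).tl d) := by
  rw [T.tl, M.fn_comp, ordA_fn_tup]

theorem ordA_z (d : M.D w) : M.fn T.z.tl d = M.zr := by
  rw [T.z, T.tl, M.fn_comp, PR.tl, M.fn_zero]

theorem ordA_s (t : T) (d : M.D w) : M.fn (T.s t).tl d = M.fn Fn.succ (M.fn t.tl d) := by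
  rw [T.s, ordA_app, PR.tl, M.fn_comp, ordA_tup, M.left_pr]

theorem ordA_vrS (i : ℕ) (d e : M.D w) : M.fn (vr (i + 1)) (M.pr d e) = M.fn (vr i) d := by
  rw [vr, M.fn_comp, M.left_pr]

theorem ordA_vr0 (d e : M.D w) : M.fn (vr 0) (M.pr d e) = e := M.right_pr d e

/-- Substitution in terms. -/
theorem ordA_sbT (t : T) (σ : ℕ → T) (d d1 : M.D w)
    (h : ∀ i, M.fn (vr i) d1 = M.fn (σ i).tl d) : M.fn (t.sb σ).tl d = M.fn t.tl d1 := by
  induction t with
  | var i => exact (h i).symm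
  | app f ts ih =>
    rw [T.sb, ordA_app, ordA_app]
    congr 2
    funext i
    exact ih i

theorem ordA_lf (σ : ℕ → T) (d d1 e : M.D w) (h : ∀ i, M.fn (vr i) d1 = M.fn (σ i).tl d) (i : ℕ) :
    M.fn (vr i) (M.pr d1 e) = M.fn (lf σ i).tl (M.pr d e) := by
  cases i with
  | zero =>
    rw [ordA_vr0]
    exact (ordA_vr0 M d e).symm
  | succ i =>
    rw [ordA_vrS, h i, lf]
    refine (ordA_sbT M (σ i) _ (M.pr d e) d fun j => ?_).symm
    rw [T.tl, ordA_vrS]

/-- Substitution in formulas. -/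
theorem ordA_sb (a : A) : ∀ (σ : ℕ → T) {w : M.W} (d d1 : M.D w),
    (∀ i, M.fn (vr i) d1 = M.fn (σ i).tl d) → (M.F (a.sb σ).tl d ↔ M.F a.tl d1) := by
  induction a with
  | eq s t =>
    intro σ w d d1 h
    show M.fn (s.sb σ).tl d = M.fn (t.sb σ).tl d ↔ M.fn s.tl d1 = M.fn t.tl d1
    rw [ordA_sbT M s σ d d1 h, ordA_sbT M t σ d d1 h]
  | bot => exact fun σ w d d1 h => Iff.rfl
  | conj a b iha ihb => exact fun σ w d d1 h => and_congr (iha σ d d1 h) (ihb σ d d1 h)
  | disj a b iha ihb => exact fun σ w d d1 h => or_congr (iha σ d d1 h) (ihb σ d d1 h)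
  | imp a b iha ihb =>
    intro σ w d d1 h
    refine forall_congr' fun v => forall_congr' fun k => ?_
    have h' : ∀ i, M.fn (vr i) (M.tr k d1) = M.fn (σ i).tl (M.tr k d) := fun i => by
      rw [← M.tr_fn, h i, M.tr_fn]
    exact imp_congr (iha σ _ _ h') (ihb σ _ _ h')
  | ex a ih =>
    intro σ w d d1 h
    exact exists_congr fun e => ih (lf σ) _ _ (ordA_lf M σ d d1 e h)
  | all a ih =>
    intro σ w d d1 h
    refine forall_congr' fun v => forall_congr' fun k => forall_congr' fun e => ?_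
    have h' : ∀ i, M.fn (vr i) (M.tr k d1) = M.fn (σ i).tl (M.tr k d) := fun i => by
      rw [← M.tr_fn, h i, M.tr_fn]
    exact ih (lf σ) _ _ (ordA_lf M σ _ _ e h')

theorem ordA_wk (a : A) (d e : M.D w) : M.F a.wk.tl (M.pr d e) ↔ M.F a.tl d := by
  refine ordA_sb M a _ _ _ fun i => ?_
  rw [T.tl, ordA_vrS]

theorem ordA_at0 (a : A) (t : T) (d : M.D w) :
    M.F (a.sb (at0 t)).tl d ↔ M.F a.tl (M.pr d (M.fn t.tl d)) := by
  refine ordA_sb M a _ _ _ fun i => ?_
  cases i with
  | zero => rw [ordA_vr0, at0]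
  | succ i => rw [ordA_vrS, at0, T.tl]

theorem ordA_suc0 (a : A) (d n : M.D w) :
    M.F (a.sb suc0).tl (M.pr d n) ↔ M.F a.tl (M.pr d (M.fn Fn.succ n)) := by
  refine ordA_sb M a _ _ _ fun i => ?_
  cases i with
  | zero => rw [ordA_vr0, suc0, ordA_s, T.tl, ordA_vr0]
  | succ i => rw [ordA_vrS, suc0, T.tl, ordA_vrS]

/-- Natural deduction is sound for the Kripke models of the one-variable calculus. -/
theorem ordA_sound {G : List A} {a : A} (h : Pf G a) : ∀ {w : M.W} (d : M.D w),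
    (∀ g ∈ G, M.F g.tl d) → M.F a.tl d := by
  induction h with
  | hyp h => exact fun d hG => hG _ h
  | botE a _ ih => exact fun d hG => (ih d hG).elim
  | conjI _ _ ih1 ih2 => exact fun d hG => ⟨ih1 d hG, ih2 d hG⟩
  | conjL _ ih => exact fun d hG => (ih d hG).1
  | conjR _ ih => exact fun d hG => (ih d hG).2
  | disjL b _ ih => exact fun d hG => Or.inl (ih d hG)
  | disjR a _ ih => exact fun d hG => Or.inr (ih d hG)
  | disjE _ _ _ ih ih1 ih2 =>
    intro w d hG
    rcases ih d hG with h1 | h1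
    · refine ih1 d fun g hg => ?_
      rcases List.mem_cons.1 hg with rfl | hg
      · exact h1
      · exact hG g hg
    · refine ih2 d fun g hg => ?_
      rcases List.mem_cons.1 hg with rfl | hg
      · exact h1
      · exact hG g hg
  | impI _ ih =>
    intro w d hG v k h1
    refine ih (M.tr k d) fun g hg => ?_
    rcases List.mem_cons.1 hg with rfl | hg
    · exact h1
    · exact M.mono _ k _ (hG g hg)
  | impE _ _ ih1 ih2 =>
    intro w d hG
    have h1 := ih1 d hG _ (le_refl w)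
    rw [M.tr_refl] at h1
    exact h1 (ih2 d hG)
  | allI _ ih =>
    intro w d hG v k e
    refine ih _ fun g hg => ?_
    obtain ⟨b, hb, rfl⟩ := List.mem_map.1 hg
    exact (ordA_wk M b _ _).2 (M.mono _ k _ (hG b hb))
  | allE t _ ih =>
    intro w d hG
    rw [ordA_at0]
    have h1 := ih d hG _ (le_refl w) (M.fn t.tl d)
    rwa [M.tr_refl] at h1
  | exI t _ ih =>
    intro w d hG
    exact ⟨M.fn t.tl d, (ordA_at0 M _ t d).1 (ih d hG)⟩
  | exE _ _ ih1 ih2 =>
    intro w d hG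
    obtain ⟨e, he⟩ := ih1 d hG
    refine (ordA_wk M _ d e).1 (ih2 _ fun g hg => ?_)
    rcases List.mem_cons.1 hg with rfl | hg
    · exact he
    · obtain ⟨b, hb, rfl⟩ := List.mem_map.1 hg
      exact (ordA_wk M b _ _).2 (hG b hb)
  | refl t => exact fun d hG => rfl
  | leib a _ _ ih1 ih2 =>
    intro w d hG
    have h1 : M.fn _ d = M.fn _ d := ih1 d hG
    have h2 := (ordA_at0 M _ _ d).1 (ih2 d hG)
    rw [h1] at h2
    exact (ordA_at0 M _ _ d).2 h2
  | proj i ts =>
    intro w d hG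
    show M.fn _ d = M.fn _ d
    rw [ordA_app, ordA_proj]
  | comp f g ts =>
    intro w d hG
    show M.fn _ d = M.fn _ d
    rw [ordA_app, ordA_comp, ordA_app]
    congr 2
    funext i
    exact (ordA_app M (g i) ts d).symm
  | prec0 f g ts =>
    intro w d hG
    show M.fn _ d = M.fn _ d
    rw [ordA_app, ordA_app, ordA_tup]
    simp only [Fin.cons_zero, Fin.cons_succ]
    rw [ordA_z, ordA_prec0]
  | precS f g t ts =>
    intro w d hG
    show M.fn _ d = M.fn _ d
    rw [ordA_app, ordA_app, ordA_tup, ordA_tup, ordA_tup]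
    simp only [Fin.cons_zero, Fin.cons_succ]
    rw [ordA_s, ordA_precS, ordA_app, ordA_tup]
    simp only [Fin.cons_zero, Fin.cons_succ]
  | sZ _ ih =>
    intro w d hG
    have h1 : M.fn _ d = M.fn _ d := ih d hG
    rw [ordA_s, ordA_z] at h1
    exact (M.succ_ne _ h1).elim
  | sI _ ih =>
    intro w d hG
    have h1 : M.fn _ d = M.fn _ d := ih d hG
    rw [ordA_s, ordA_s] at h1
    exact M.succ_inj _ _ h1
  | ind a _ _ ih1 ih2 =>
    intro w d hG v k e
    have h1 := M.mono _ k _ ((ordA_at0 M _ _ d).1 (ih1 d hG))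
    rw [ordA_z, M.tr_pr, Kr.tr_zr] at h1
    refine M.ind _ (M.tr k d) h1 (fun {u} l n h2 => ?_) e
    rw [M.tr_tr] at h2 ⊢
    have h3 := ih2 d hG u (k.trans l) n u (le_refl u)
    rw [M.tr_refl] at h3
    exact (ordA_suc0 M a _ _).1 (h3 h2)

/-- The theorems of ordinary Heyting arithmetic are provable in the one-variable calculus. -/
theorem adeq1 (a : A) (h : Pf [] a) : Prv a.tl :=
  HAr.complete fun M _ d => ordA_sound M h d fun _ hg => absurd hg List.not_mem_nil

end HAo
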