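import Pool.Agent.Lib.MP_61e577_lc.Ar.OrdR
import Pool.Agent.Lib.MP_61e577_lc.Ar.OrdA

/-! Every sentence of the one-variable calculus is equivalent to the translation of a sentence of
ordinary Heyting arithmetic. -/

namespace HAo

open HAr

variable (N : Kr Empty)

/-- The data of a model of ordinary arithmetic from a model of the one-variable calculus. -/
def ofKD (N : Kr Empty) : KOD where
  W := N.W
  D := N.D
  tr := N.tr
  fn := fun f _ x => N.fn f.tl (ordA_tup N x)

theorem ofKD_val {w : N.W} {n : ℕ} {e : ℕ → N.D w} {d : N.D w}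
    (h : ∀ i < n, N.fn (vr i) d = e i) : ∀ t : T, t.bd n → (ofKD N).val (w := w) e t = N.fn t.tl d
  | .var i, hi => (h i hi).symm
  | .app f ts, hi => by
    show N.fn f.tl (ordA_tup N fun i => (ofKD N).val e (ts i)) = _
    rw [ordA_app]
    congr 2
    funext i
    exact ofKD_val h (ts i) (hi i)

theorem ofKD_pr {w : N.W} {n : ℕ} {e : ℕ → N.D w} {d : N.D w}
    (h : ∀ i < n, N.fn (vr i) d = e i) (x : N.D w) :
    ∀ i < n + 1, N.fn (vr i) (N.pr d x) = ec x e i := by
  intro i hi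
  cases i with
  | zero => exact ordA_vr0 N d x
  | succ i =>
    rw [ordA_vrS]
    exact h i (Nat.lt_of_succ_lt_succ hi)

theorem ofKD_tr {w v : N.W} {n : ℕ} {e : ℕ → N.D w} {d : N.D w}
    (h : ∀ i < n, N.fn (vr i) d = e i) (k : w ≤ v) :
    ∀ i < n, N.fn (vr i) (N.tr k d) = N.tr k (e i) := by
  intro i hi
  rw [← h i hi, N.tr_fn]

theorem ofKD_F : ∀ (a : A) {n : ℕ} (_ : a.bd n) {w : N.W} {e : ℕ → N.D w} {d : N.D w}
    (_ : ∀ i < n, N.fn (vr i) d = e i), (ofKD N).F a (w := w) e ↔ N.F a.tl d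
  | .eq s t, n, ha, w, e, d, h => by
    have h1 := ofKD_val N h s ha.1
    have h2 := ofKD_val N h t ha.2
    constructor
    · intro h3
      exact (h1.symm.trans h3).trans h2
    · intro h3
      exact (h1.trans h3).trans h2.symm
  | .bot, _, _, _, _, _, _ => Iff.rfl
  | .conj a b, n, ha, w, e, d, h => and_congr (ofKD_F a ha.1 h) (ofKD_F b ha.2 h)
  | .disj a b, n, ha, w, e, d, h => or_congr (ofKD_F a ha.1 h) (ofKD_F b ha.2 h)
  | .imp a b, n, ha, w, e, d, h => by
    show (∀ (v : N.W) (k : w ≤ v), _ → _) ↔ ∀ (v : N.W) (k : w ≤ v), _ → _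
    exact forall_congr' fun v => forall_congr' fun k =>
      imp_congr (ofKD_F a ha.1 (ofKD_tr N h k)) (ofKD_F b ha.2 (ofKD_tr N h k))
  | .ex a, n, ha, w, e, d, h => by
    show (∃ x, _) ↔ ∃ x, _
    exact exists_congr fun x => ofKD_F a ha (ofKD_pr N h x)
  | .all a, n, ha, w, e, d, h => by
    show (∀ (v : N.W) (k : w ≤ v) (x : N.D v), _) ↔ ∀ (v : N.W) (k : w ≤ v) (x : N.D v), _
    exact forall_congr' fun v => forall_congr' fun k => forall_congr' fun x =>
      ofKD_F a ha (ofKD_pr N (ofKD_tr N h k) x)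

theorem ofKD_code {w : N.W} : ∀ (n : ℕ) (e : ℕ → N.D w), ∃ d, ∀ i < n, N.fn (vr i) d = e i
  | 0, _ => ⟨N.zr, fun i hi => absurd hi (Nat.not_lt_zero i)⟩
  | n + 1, e => by
    obtain ⟨d, hd⟩ := ofKD_code n fun i => e (i + 1)
    refine ⟨N.pr d (e 0), fun i hi => ?_⟩
    rw [ofKD_pr N hd (e 0) i hi]
    cases i <;> rfl

theorem tr_tup {w v : N.W} (k : w ≤ v) : ∀ {n : ℕ} (x : Fin n → N.D w),
    N.tr k (ordA_tup N x) = ordA_tup N fun i => N.tr k (x i)
  | 0, x => N.tr_zr k
  | n + 1, x => by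
    rw [ordA_tup, N.tr_pr, tr_tup k]
    rfl

theorem ofKD_zero {w : N.W} (x : Fin 0 → N.D w) : (ofKD N).fn PR.zero (w := w) x = N.zr :=
  N.fn_zero _

theorem ofKD_succ {w : N.W} (a : N.D w) :
    (ofKD N).fn PR.succ (w := w) (fun _ => a) = N.fn Fn.succ a := by
  show N.fn (Fn.comp Fn.succ Fn.left) (N.pr a _) = _
  rw [N.fn_comp, N.left_pr]

/-- A model of ordinary arithmetic from a model of the one-variable calculus. -/
def ofKr (N : Kr Empty) : KO where
  toKOD := ofKD N
  tr_refl := N.tr_refl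
  tr_tr := N.tr_tr
  tr_fn := by
    intro w v h n f d
    show N.tr h (N.fn f.tl (ordA_tup N d)) = N.fn f.tl (ordA_tup N fun i => N.tr h (d i))
    rw [N.tr_fn, tr_tup]
  fn_proj := fun i x => ordA_proj N i x
  fn_comp := fun f g x => ordA_comp N f g x
  fn_prec0 := by
    intro w n f g d
    rw [ofKD_zero]
    exact ordA_prec0 N f g d
  fn_precS := by
    intro w n f g a d
    rw [ofKD_succ]
    exact ordA_precS N f g a d
  succ_ne := by
    intro w a
    rw [ofKD_succ, ofKD_zero]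
    exact N.succ_ne a
  succ_inj := by
    intro w a b
    rw [ofKD_succ, ofKD_succ]
    exact N.succ_inj a b
  ind := by
    intro a w e h0 hS x
    obtain ⟨n, hn⟩ := a.exists_bd
    obtain ⟨d, hd⟩ := ofKD_code N n e
    have hn' := a.bd_mono (Nat.le_succ n) hn
    rw [ofKD_zero] at h0
    refine (ofKD_F N a hn' (ofKD_pr N hd x)).2 (N.ind a.tl d ?_ ?_ x)
    · exact (ofKD_F N a hn' (ofKD_pr N hd N.zr)).1 h0
    · intro v k y h1
      have h2 := hS k y ((ofKD_F N a hn' (ofKD_pr N (ofKD_tr N hd k) y)).2 h1)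
      rw [ofKD_succ] at h2
      exact (ofKD_F N a hn' (ofKD_pr N (ofKD_tr N hd k) _)).1 h2

variable {N} {w : N.W}

/-- Application of unary symbols. -/
def oF (N : Kr Empty) (f : PR 1) {w : N.W} (a : N.D w) : N.D w := (ofKr N).f1 (w := w) f a

/-- The defined pairing. -/
def oP (N : Kr Empty) {w : N.W} (a b : N.D w) : N.D w := (ofKr N).pr (w := w) a b

theorem oF_def (f : PR 1) (a : N.D w) : oF N f a = N.fn f.tl (N.pr a N.zr) := rfl

theorem oP_def (a b : N.D w) : oP N a b = N.fn pairP.tl (N.pr a (N.pr b N.zr)) := rfl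

theorem oZ : ((ofKr N).z (w := w) : N.D w) = N.zr := ofKD_zero N _

theorem oS (a : N.D w) : ((ofKr N).s (w := w) a : N.D w) = N.fn Fn.succ a := ofKD_succ N a

theorem oP_zr : oP N (N.zr (w := w)) N.zr = N.zr := by
  have h : (ofKr N).pr (w := w) ((ofKr N).z (w := w)) ((ofKr N).z (w := w)) =
    (ofKr N).z (w := w) := (ofKr N).pr_z_z
  have e : (ofKr N).z (w := w) = N.zr := oZ
  rw [e] at h
  exact h

theorem oP_s (a b : N.D w) : N.fn Fn.succ (oP N a (N.fn Fn.succ b)) = oP N (N.fn Fn.succ a) b := by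
  have h := (ofKr N).s_pr (w := w) a b
  have e : ∀ c : N.D w, (ofKr N).s (w := w) c = N.fn Fn.succ c := oS
  rw [e, e, e] at h
  exact h

theorem oP_sz (a : N.D w) : N.fn Fn.succ (oP N a N.zr) = oP N N.zr (N.fn Fn.succ a) := by
  have h := (ofKr N).s_pr_z (w := w) a
  have e : ∀ c : N.D w, (ofKr N).s (w := w) c = N.fn Fn.succ c := oS
  have e1 : (ofKr N).z (w := w) = N.zr := oZ
  rw [e, e, e1] at h
  exact h

/-- The pairings agree. -/
theorem oP_eq (a b : N.D w) : oP N a b = N.pr a b := by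
  have key : ∀ n : N.D w, oP N (N.fn Fn.left n) (N.fn Fn.right n) = n := by
    intro n
    have h := N.ind_eq (w := w) (Fn.comp (Fn.comp pairP.tl
      (Fn.pair Fn.left (Fn.pair Fn.right Fn.zero))) Fn.right) Fn.right N.zr
      (by
        have h1 := oP_zr (N := N) (w := w)
        rw [oP_def] at h1
        simpa using h1)
      (fun {v} k m e => by
        have e : oP N (N.fn Fn.left m) (N.fn Fn.right m) = m := by
          rw [oP_def]
          simpa using e
        have goal : oP N (N.fn Fn.left (N.fn Fn.succ m)) (N.fn Fn.right (N.fn Fn.succ m)) =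
            N.fn Fn.succ m := by
          obtain ⟨x, y, rfl⟩ : ∃ x y, m = N.pr x y := ⟨_, _, (N.pr_eta m).symm⟩
          rw [N.left_pr, N.right_pr] at e
          rcases N.zr_or_S y with rfl | ⟨z, rfl⟩
          · rw [N.succ_pr_zr, N.left_pr, N.right_pr, ← oP_sz, e, N.succ_pr_zr]
          · have e : oP N x (N.fn Fn.succ z) = N.pr x (N.fn Fn.succ z) := e
            show oP N (N.fn Fn.left (N.fn Fn.succ (N.pr x (N.fn Fn.succ z))))
              (N.fn Fn.right (N.fn Fn.succ (N.pr x (N.fn Fn.succ z)))) =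
              N.fn Fn.succ (N.pr x (N.fn Fn.succ z))
            rw [N.succ_pr, N.left_pr, N.right_pr, ← oP_s, e, N.succ_pr]
        rw [oP_def] at goal
        simpa using goal) n
    rw [oP_def]
    simpa using h
  have := key (N.pr a b)
  rwa [N.left_pr, N.right_pr] at this

theorem oL (a b : N.D w) : oF N leftP (N.pr a b) = a := by
  have h : oF N leftP (oP N a b) = a := (ofKr N).lt_pr (w := w) a b
  rwa [oP_eq] at h

theorem oR (a b : N.D w) : oF N rightP (N.pr a b) = b := by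
  have h : oF N rightP (oP N a b) = b := (ofKr N).rt_pr (w := w) a b
  rwa [oP_eq] at h

theorem oF_prec_z (f g : PR 1) (a : N.D w) : oF N (precP f g) (N.pr a N.zr) = oF N f a := by
  have h : oF N (precP f g) (oP N a ((ofKr N).z (w := w))) = oF N f a :=
    (ofKr N).prec_z f g (w := w) a
  have e : ((ofKr N).z (w := w) : N.D w) = N.zr := oZ
  rwa [e, oP_eq] at h

theorem oF_prec_s (f g : PR 1) (a n : N.D w) : oF N (precP f g) (N.pr a (N.fn Fn.succ n)) =
    oF N g (N.pr a (N.pr n (oF N (precP f g) (N.pr a n)))) := by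
  have h : oF N (precP f g) (oP N a ((ofKr N).s (w := w) n)) =
    oF N g (oP N a (oP N n (oF N (precP f g) (oP N a n)))) :=
    (ofKr N).prec_s f g (w := w) a n
  have e : ((ofKr N).s (w := w) n : N.D w) = N.fn Fn.succ n := oS n
  rwa [e, oP_eq, oP_eq, oP_eq, oP_eq] at h

theorem oF_trec_z (f g : PR 1) (a : N.D w) : oF N (trecP f g) (N.pr a N.zr) = oF N f a := by
  have h : oF N (trecP f g) (oP N a ((ofKr N).z (w := w))) = oF N f a :=
    (ofKr N).trec_z f g (w := w) a
  have e : ((ofKr N).z (w := w) : N.D w) = N.zr := oZ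
  rwa [e, oP_eq] at h

theorem oF_trec_s (f g : PR 1) (a x y : N.D w) :
    oF N (trecP f g) (N.pr a (N.fn Fn.succ (N.pr x y))) =
    oF N g (N.pr a (N.pr (N.pr x y) (N.pr (oF N (trecP f g) (N.pr a x))
      (oF N (trecP f g) (N.pr a y))))) := by
  have h : oF N (trecP f g) (oP N a ((ofKr N).s (w := w) (N.pr x y))) =
    oF N g (oP N a (oP N (N.pr x y) (oP N (oF N (trecP f g) (oP N a (oF N leftP (N.pr x y))))
      (oF N (trecP f g) (oP N a (oF N rightP (N.pr x y))))))) :=
    (ofKr N).trec_s f g (w := w) a (N.pr x y)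
  have e : ((ofKr N).s (w := w) (N.pr x y) : N.D w) = N.fn Fn.succ (N.pr x y) := oS _
  rwa [e, oL, oR, oP_eq, oP_eq, oP_eq, oP_eq, oP_eq, oP_eq] at h

/-- The functions agree. -/
theorem oF_sym : ∀ (f : Fn Empty) {w : N.W} (d : N.D w), oF N (sym f) d = N.fn f d
  | .mv i, _, _ => i.elim
  | .idn, w, d => by
    rw [N.fn_idn]
    exact (ofKr N).f1_proj (w := w) d
  | .zero, w, d => by
    rw [N.fn_zero, ← oZ]
    exact (ofKr N).f1_zrP (w := w) d
  | .succ, _, d => oS d
  | .left, _, d => by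
    have := oL (N.fn Fn.left d) (N.fn Fn.right d)
    rwa [N.pr_eta] at this
  | .right, _, d => by
    have := oR (N.fn Fn.left d) (N.fn Fn.right d)
    rwa [N.pr_eta] at this
  | .pair f g, w, d => by
    have h : oF N (sym (Fn.pair f g)) d = oP N (oF N (sym f) d) (oF N (sym g) d) :=
      (ofKr N).f1_c2 (w := w) pairP (sym f) (sym g) d
    rw [h, oF_sym f, oF_sym g, oP_eq, N.fn_pair]
  | .comp f g, w, d => by
    have h : oF N (sym (Fn.comp f g)) d = oF N (sym f) (oF N (sym g) d) :=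
      (ofKr N).f1_c1 (w := w) (sym f) (sym g) d
    rw [h, oF_sym g, oF_sym f, N.fn_comp]
  | .prec f g, w, d => by
    have h := N.ind_eq (w := w) (Fn.comp (sym (Fn.prec f g)).tl (Fn.pair Fn.idn Fn.zero))
      (Fn.prec f g) (N.fn Fn.left d)
      (by
        have h1 := oF_prec_z (sym f) (sym g) (N.fn Fn.left d)
        rw [oF_sym f, oF_def] at h1
        simpa [sym] using h1)
      (fun {v} k n e => by
        have h1 := oF_prec_s (sym f) (sym g) (N.tr k (N.fn Fn.left d)) n
        simp only [N.fn_comp, N.fn_pair, N.fn_idn, N.fn_zero] at e ⊢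
        have e' : oF N (precP (sym f) (sym g)) (N.pr (N.tr k (N.fn Fn.left d)) n) = _ := e
        rw [e', oF_sym g] at h1
        rw [N.prec_succ]
        exact h1) (N.fn Fn.right d)
    rw [N.pr_eta, N.fn_comp, N.fn_pair, N.fn_idn, N.fn_zero] at h
    exact h
  | .trec f g, w, d => by
    have h := N.tind (w := w) (Fm.eq (Fn.comp (sym (Fn.trec f g)).tl (Fn.pair Fn.idn Fn.zero))
      (Fn.trec f g)) (N.fn Fn.left d)
      (by
        have h1 := oF_trec_z (sym f) (sym g) (N.fn Fn.left d)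
        rw [oF_sym f, oF_def] at h1
        show N.fn _ _ = N.fn _ _
        simpa [sym] using h1)
      (fun {v} k x y e1 e2 => by
        have h1 := oF_trec_s (sym f) (sym g) (N.tr k (N.fn Fn.left d)) x y
        have e1 : N.fn _ _ = N.fn _ _ := e1
        have e2 : N.fn _ _ = N.fn _ _ := e2
        show N.fn _ _ = N.fn _ _
        simp only [N.fn_comp, N.fn_pair, N.fn_idn, N.fn_zero] at e1 e2 ⊢
        have e1' : oF N (trecP (sym f) (sym g)) (N.pr (N.tr k (N.fn Fn.left d)) x) = _ := e1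
        have e2' : oF N (trecP (sym f) (sym g)) (N.pr (N.tr k (N.fn Fn.left d)) y) = _ := e2
        rw [e1', e2', oF_sym g] at h1
        rw [N.trec_succ, N.left_pr, N.right_pr]
        exact h1) (N.fn Fn.right d)
    have h : N.fn _ _ = N.fn _ _ := h
    rw [N.pr_eta, N.fn_comp, N.fn_pair, N.fn_idn, N.fn_zero] at h
    exact h

/-- Forcing agrees. -/
theorem ofKr_F : ∀ (P : Fm Empty) {w : N.W} (d : N.D w),
    (ofKr N).toKD.F P (w := w) d ↔ N.F P d
  | .mv i, _, _ => i.elim
  | .eq f g, w, d => by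
    show oF N (sym f) d = oF N (sym g) d ↔ N.fn f d = N.fn g d
    rw [oF_sym, oF_sym]
  | .bot, _, _ => Iff.rfl
  | .conj P Q, _, d => and_congr (ofKr_F P d) (ofKr_F Q d)
  | .disj P Q, _, d => or_congr (ofKr_F P d) (ofKr_F Q d)
  | .imp P Q, w, d => by
    show (∀ (v : N.W) (k : w ≤ v), _ → _) ↔ ∀ (v : N.W) (k : w ≤ v), _ → _
    exact forall_congr' fun v => forall_congr' fun k => imp_congr (ofKr_F P _) (ofKr_F Q _)
  | .ex P, w, d => by
    show (∃ x : N.D w, (ofKr N).toKD.F P (w := w) (oP N d x)) ↔ ∃ x, N.F P (N.pr d x)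
    refine exists_congr fun x => ?_
    rw [oP_eq]
    exact ofKr_F P _
  | .all P, w, d => by
    show (∀ (v : N.W) (k : w ≤ v) (x : N.D v),
      (ofKr N).toKD.F P (w := v) (oP N (N.tr k d) x)) ↔
      ∀ (v : N.W) (k : w ≤ v) (x : N.D v), N.F P (N.pr (N.tr k d) x)
    refine forall_congr' fun v => forall_congr' fun k => forall_congr' fun x => ?_
    rw [oP_eq]
    exact ofKr_F P _
  | .sub P f, w, d => by
    show (ofKr N).toKD.F P (w := w) (oF N (sym f) d) ↔ N.F P (N.fn f d)
    rw [oF_sym]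
    exact ofKr_F P _

theorem T.bd_sh {n : ℕ} : ∀ t : T, t.bd n → (t.sb fun i => T.var (i + 1)).bd (n + 1)
  | .var _, h => Nat.succ_lt_succ h
  | .app _ ts, h => fun i => T.bd_sh (ts i) (h i)

theorem bd_t2 {n : ℕ} {f : PR 2} {s t : T} (hs : s.bd n) (ht : t.bd n) : (t2 f s t).bd n :=
  fun i => by
    fin_cases i
    · exact hs
    · exact ht

theorem back_bd : ∀ (P : Fm Empty) {n : ℕ} {t : T}, t.bd n → (back P t).bd n
  | .mv i, _, _, _ => i.elim
  | .eq f g, _, _, h => ⟨fun _ => h, fun _ => h⟩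
  | .bot, _, _, _ => trivial
  | .conj P Q, _, _, h => ⟨back_bd P h, back_bd Q h⟩
  | .disj P Q, _, _, h => ⟨back_bd P h, back_bd Q h⟩
  | .imp P Q, _, _, h => ⟨back_bd P h, back_bd Q h⟩
  | .ex P, n, t, h => back_bd P (n := n + 1) (bd_t2 (t.bd_sh h) (Nat.succ_pos n))
  | .all P, n, t, h => back_bd P (n := n + 1) (bd_t2 (t.bd_sh h) (Nat.succ_pos n))
  | .sub P f, _, _, h => back_bd P (fun _ => h)

/-- The back translation in a model. -/
theorem ofKr_back (P : Fm Empty) {w : N.W} (d : N.D w) :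
    N.F (back P T.z).tl d ↔ N.F (Fm.sub P Fn.zero) d := by
  have h0 : (T.z).bd 0 := fun i => i.elim0
  have h1 := ofKD_F N (back P T.z) (back_bd P h0) (w := w) (e := fun _ => N.zr) (d := d)
    (fun i hi => absurd hi (Nat.not_lt_zero i))
  have h2 := (ofKr N).back_iff P (w := w) (fun _ => N.zr) T.z
  have h3 : ((ofKr N).val (w := w) (fun _ => (N.zr : N.D w)) T.z : N.D w) = N.fn Fn.zero d := by
    rw [N.fn_zero]
    exact ((ofKr N).val_z (w := w) _).trans oZ
  refine h1.symm.trans (h2.trans ?_)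
  show (ofKr N).toKD.F P (w := w) ((ofKr N).val (w := w) (fun _ => (N.zr : N.D w)) T.z : N.D w) ↔
    N.F P (N.fn Fn.zero d)
  rw [h3]
  exact ofKr_F P _

/-- Sentences of the one-variable calculus are equivalent to translations of sentences of
ordinary arithmetic. -/
theorem back_all (P : Fm Empty) : ∃ a : A, a.bd 0 ∧ Prv (Fm.imp a.tl (Fm.sub P Fn.zero)) ∧
    Prv (Fm.imp (Fm.sub P Fn.zero) a.tl) := by
  refine ⟨back P T.z, back_bd P (fun i => i.elim0), ?_, ?_⟩
  · exact HAr.complete fun M w d v k h => (ofKr_back P _).1 h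
  · exact HAr.complete fun M w d v k h => (ofKr_back P _).2 h

/-- Sentences of ordinary arithmetic do not depend on the argument. -/
theorem tl_closed (a : A) (ha : a.bd 0) : Prv (Fm.imp a.tl (Fm.sub a.tl Fn.zero)) ∧
    Prv (Fm.imp (Fm.sub a.tl Fn.zero) a.tl) := by
  have key : ∀ {N : Kr Empty} {w : N.W} (d : N.D w), N.F a.tl d ↔ N.F (Fm.sub a.tl Fn.zero) d := by
    intro N w d
    have h1 := ofKD_F N a ha (w := w) (e := fun _ => N.zr) (d := d)
      (fun i hi => absurd hi (Nat.not_lt_zero i))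
    have h2 := ofKD_F N a ha (w := w) (e := fun _ => N.zr) (d := N.fn Fn.zero d)
      (fun i hi => absurd hi (Nat.not_lt_zero i))
    exact h1.symm.trans h2
  exact ⟨HAr.complete fun M w d v k h => (key _).1 h,
    HAr.complete fun M w d v k h => (key _).2 h⟩

end HAo
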