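import Pool.Agent.Lib.MP_61e577_lc.Ar.OrdM

/-! Completeness of ordinary Heyting arithmetic for Kripke models. -/

namespace HAo

theorem can_tr_fn {w v : World} (h : w ≤ v) {n : ℕ} (f : PR n) (d : Fin n → w.Dm) :
    World.tr h (can.fn f (w := w) d) = can.fn f (w := v) fun i => World.tr h (d i) := by
  obtain ⟨ts, rfl⟩ := can_reps d
  rw [can_fn]
  have h1 : (fun i => World.tr h (w.q (ts i))) = fun i => v.q ⟨(ts i).1, (ts i).2.trans h.1⟩ := rfl
  rw [h1, can_fn]
  rfl

theorem can_proj {w : World} {n : ℕ} (i : Fin n) (d : Fin n → w.Dm) :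
    can.fn (PR.proj i) (w := w) d = d i := by
  obtain ⟨ts, rfl⟩ := can_reps d
  rw [can_fn]
  exact World.q_eq.2 (w.cl0 (World.fv_eq (w.ap _ ts) (ts i)) (Pf.proj i _))

theorem can_comp {w : World} {m n : ℕ} (f : PR m) (g : Fin m → PR n) (d : Fin n → w.Dm) :
    can.fn (PR.comp f g) (w := w) d = can.fn f (w := w) fun i => can.fn (g i) (w := w) d := by
  obtain ⟨ts, rfl⟩ := can_reps d
  have h1 : (fun i => can.fn (g i) (w := w) fun j => w.q (ts j)) =
      fun i => w.q (w.ap (g i) ts) := funext fun i => can_fn (g i) ts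
  rw [h1, can_fn, can_fn]
  exact World.q_eq.2 (w.cl0 (World.fv_eq (w.ap _ ts) (w.ap f fun i => w.ap (g i) ts))
    (Pf.comp f g _))

theorem can_prec0 {w : World} {n : ℕ} (f : PR n) (g : PR (n + 2)) (d : Fin n → w.Dm) :
    can.fn (PR.prec f g) (w := w) (Fin.cons (can.fn PR.zero (w := w) Fin.elim0) d) =
      can.fn f (w := w) d := by
  obtain ⟨ts, rfl⟩ := can_reps d
  rw [can_zero, cons_q, can_fn, can_fn, World.q_eq]
  refine w.cl0 (World.fv_eq (w.ap _ _) (w.ap f ts)) ?_
  have h := Pf.prec0 (G := []) f g fun i => (ts i).1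
  have h2 : (Fin.cons T.z fun i => (ts i).1 : Fin (n + 1) → T) =
      fun i => ((Fin.cons w.z ts : Fin (n + 1) → w.Tm) i).1 := (cons_val w.z ts).symm
  rw [h2] at h
  exact h

theorem can_precS {w : World} {n : ℕ} (f : PR n) (g : PR (n + 2)) (a : w.Dm)
    (d : Fin n → w.Dm) :
    can.fn (PR.prec f g) (w := w) (Fin.cons (can.fn PR.succ (w := w) fun _ => a) d) =
      can.fn g (w := w) (Fin.cons a (Fin.cons (can.fn (PR.prec f g) (w := w) (Fin.cons a d)) d)) := by
  obtain ⟨ts, rfl⟩ := can_reps d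
  obtain ⟨t, rfl⟩ := World.q_surj a
  have e1 : can.fn (PR.prec f g) (w := w) (Fin.cons (w.q t) fun i => w.q (ts i)) =
      w.q (w.ap (PR.prec f g) (Fin.cons t ts)) := by
    rw [cons_q, can_fn]
  have e2 : can.fn (PR.prec f g) (w := w) (Fin.cons (w.q (w.s t)) fun i => w.q (ts i)) =
      w.q (w.ap (PR.prec f g) (Fin.cons (w.s t) ts)) := by
    rw [cons_q, can_fn]
  rw [can_succ, e2, e1, cons_q, cons_q, can_fn, World.q_eq]
  refine w.cl0 (World.fv_eq (w.ap _ _) (w.ap g _)) ?_
  have h := Pf.precS (G := []) f g t.1 fun i => (ts i).1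
  have h2 : (Fin.cons (T.s t.1) fun i => (ts i).1 : Fin (n + 1) → T) =
      fun i => ((Fin.cons (w.s t) ts : Fin (n + 1) → w.Tm) i).1 := (cons_val (w.s t) ts).symm
  have h3 : (Fin.cons t.1 fun i => (ts i).1 : Fin (n + 1) → T) =
      fun i => ((Fin.cons t ts : Fin (n + 1) → w.Tm) i).1 := (cons_val t ts).symm
  rw [h2, h3] at h
  have h4 : (Fin.cons (T.app (PR.prec f g) fun i => ((Fin.cons t ts : Fin (n + 1) → w.Tm) i).1)
      fun i => (ts i).1 : Fin (n + 1) → T) =
      fun i => ((Fin.cons (w.ap (PR.prec f g) (Fin.cons t ts)) ts : Fin (n + 1) → w.Tm) i).1 :=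
    (cons_val (w.ap (PR.prec f g) (Fin.cons t ts)) ts).symm
  rw [h4] at h
  have h5 : (Fin.cons t.1 fun i => ((Fin.cons (w.ap (PR.prec f g) (Fin.cons t ts)) ts :
      Fin (n + 1) → w.Tm) i).1 : Fin (n + 2) → T) =
      fun i => ((Fin.cons t (Fin.cons (w.ap (PR.prec f g) (Fin.cons t ts)) ts :
        Fin (n + 1) → w.Tm) : Fin (n + 2) → w.Tm) i).1 :=
    (cons_val t (Fin.cons (w.ap (PR.prec f g) (Fin.cons t ts)) ts)).symm
  rw [h5] at h
  exact h

theorem can_succ_ne {w : World} (a : w.Dm) :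
    (can.fn PR.succ (w := w) fun _ => a) ≠ can.fn PR.zero (w := w) Fin.elim0 := by
  obtain ⟨t, rfl⟩ := World.q_surj a
  rw [can_succ, can_zero, Ne, World.q_eq]
  intro h
  exact w.cons (w.cl1 h (Set.empty_subset _) (Pf.sZ (Pf.hyp List.mem_cons_self)))

theorem can_succ_inj {w : World} (a b : w.Dm)
    (h : (can.fn PR.succ (w := w) fun _ => a) = can.fn PR.succ (w := w) fun _ => b) : a = b := by
  obtain ⟨t, rfl⟩ := World.q_surj a
  obtain ⟨u, rfl⟩ := World.q_surj b
  rw [can_succ, can_succ, World.q_eq] at h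
  exact World.q_eq.2 (w.cl1 h (World.fv_eq t u) (Pf.sI (Pf.hyp List.mem_cons_self)))

/-- The canonical model. -/
noncomputable def canKO : KO where
  toKOD := can
  tr_refl := fun {w} h d => by
    obtain ⟨t, rfl⟩ := World.q_surj (w := w) d
    rfl
  tr_tr := fun {u _ _} h k d => by
    obtain ⟨t, rfl⟩ := World.q_surj (w := u) d
    rfl
  tr_fn := fun h _ f d => can_tr_fn h f d
  fn_proj := fun i d => can_proj i d
  fn_comp := fun f g d => can_comp f g d
  fn_prec0 := fun f g d => can_prec0 f g d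
  fn_precS := fun f g a d => can_precS f g a d
  succ_ne := fun a => can_succ_ne a
  succ_inj := fun a b h => can_succ_inj a b h
  ind := fun a _ e h0 h1 d => can_ind a e h0 h1 d

/-- Formulas which hold in all Kripke models are provable. -/
theorem completeO (a : A) (h : ∀ (M : KO) (w : M.W) (e : ℕ → M.D w), M.F a e) : Pf [] a := by
  classical
  by_contra hn
  have hU : (a.fv)ᶜ.Infinite := a.fv_finite.infinite_compl
  have hd : ¬ Der ∅ a := by
    rintro ⟨G, hG, h1⟩
    cases G with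
    | nil => exact hn h1
    | cons g G => exact hG g List.mem_cons_self
  obtain ⟨w, hw1, -, hw3⟩ := exists_world hU (S := ∅) (fun x hx => absurd hx (Set.notMem_empty x))
    (fun i hi => hi) hd
  let σ : ℕ → w.Tm := fun i => if hi : i ∈ w.U then ⟨T.var i, by
    rintro j (rfl : j = i)
    exact hi⟩ else w.z
  have h1 : a.sb (fun i => (σ i).1) = a := by
    refine (A.sb_congr a (τ := T.var) fun i hi => ?_).trans (A.sb_var a)
    have hi2 : i ∈ w.U := hw1 hi
    simp only [σ, dif_pos hi2]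
  have h2 := (truth a σ).1 (h canKO w fun i => w.q (σ i))
  rw [h1] at h2
  exact hw3 h2

end HAo
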