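import Pool.Agent.Lib.MP_61e577_lc.Ar.OrdN

/-! Prime theories with witnesses. -/

namespace HAo

/-- Derivability from a set of formulas. -/
def Der (S : Set A) (a : A) : Prop := ∃ G : List A, (∀ g ∈ G, g ∈ S) ∧ Pf G a

theorem Der.mono {S S' : Set A} {a : A} (h : Der S a) (hs : S ⊆ S') : Der S' a := by
  obtain ⟨G, hG, h1⟩ := h
  exact ⟨G, fun g hg => hs (hG g hg), h1⟩

theorem Der.hyp {S : Set A} {a : A} (h : a ∈ S) : Der S a :=
  ⟨[a], by simpa using h, Pf.hyp (List.mem_singleton.2 rfl)⟩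

theorem Der.both {S : Set A} {a b : A} (h : Der S a) (h' : Der S b) :
    ∃ G : List A, (∀ g ∈ G, g ∈ S) ∧ Pf G a ∧ Pf G b := by
  obtain ⟨G, hG, h1⟩ := h
  obtain ⟨G', hG', h2⟩ := h'
  refine ⟨G ++ G', ?_, h1.mono (List.subset_append_left _ _), h2.mono
    (List.subset_append_right _ _)⟩
  intro g hg
  rcases List.mem_append.1 hg with hg | hg
  · exact hG g hg
  · exact hG' g hg

theorem Der.imp {S : Set A} {a b : A} (h : Der (insert a S) b) :
    ∃ G : List A, (∀ g ∈ G, g ∈ S) ∧ Pf (a :: G) b := by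
  classical
  obtain ⟨G, hG, h1⟩ := h
  refine ⟨G.filter fun g => g ≠ a, ?_, ?_⟩
  · intro g hg
    rw [List.mem_filter] at hg
    rcases hG g hg.1 with h2 | h2
    · exact absurd h2 (by simpa using hg.2)
    · exact h2
  · refine h1.mono fun g hg => ?_
    by_cases hga : g = a
    · rw [hga]
      exact List.mem_cons_self
    · exact List.mem_cons_of_mem _ (List.mem_filter.2 ⟨hg, by simpa using hga⟩)

/-- Prime theories with witnesses, in a set `U` of variables with infinite complement. -/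
structure World where
  U : Set ℕ
  S : Set A
  inf : Uᶜ.Infinite
  fvS : ∀ a ∈ S, a.fv ⊆ U
  cl : ∀ {G : List A} {a : A}, (∀ g ∈ G, g ∈ S) → a.fv ⊆ U → Pf G a → a ∈ S
  cons : A.bot ∉ S
  prime : ∀ {a b : A}, A.disj a b ∈ S → a ∈ S ∨ b ∈ S
  hen : ∀ {a : A}, A.ex a ∈ S → ∃ t : T, t.fv ⊆ U ∧ a.sb (at0 t) ∈ S

/-- The condition on the finite set of additional formulas. -/
def Inv (S : Set A) (V : Set ℕ) (b : A) (H : List A) : Prop :=
  (∀ h ∈ H, A.fv h ⊆ V) ∧ ¬ Der (S ∪ {h | h ∈ H}) b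

theorem fv_at0_sub {V : Set ℕ} {a : A} {t : T} (ha : (A.ex a).fv ⊆ V) (ht : t.fv ⊆ V) :
    (a.sb (at0 t)).fv ⊆ V := by
  intro j hj
  obtain ⟨i, hi, hj⟩ := a.fv_sb hj
  cases i with
  | zero => exact ht hj
  | succ i =>
    have hj : j = i := hj
    subst hj
    exact ha hi

theorem exists_step {S : Set A} {U V : Set ℕ} (hinf : (V \ U).Infinite)
    (hS : ∀ a ∈ S, A.fv a ⊆ U) {b : A} (hb : b.fv ⊆ U) (φ : A) {H : List A}
    (hH : Inv S V b H) : ∃ H' : List A, Inv S V b H' ∧ H ⊆ H' ∧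
      (∀ a₁ a₂, φ = A.disj a₁ a₂ → φ.fv ⊆ V → Der (S ∪ {h | h ∈ H}) φ → a₁ ∈ H' ∨ a₂ ∈ H') ∧
      (∀ a₁, φ = A.ex a₁ → φ.fv ⊆ V → Der (S ∪ {h | h ∈ H}) φ →
        ∃ t : T, t.fv ⊆ V ∧ a₁.sb (at0 t) ∈ H') := by
  classical
  by_cases hφ : φ.fv ⊆ V ∧ Der (S ∪ {h | h ∈ H}) φ
  swap
  · exact ⟨H, hH, fun x hx => hx, fun _ _ _ h1 h2 => absurd ⟨h1, h2⟩ hφ,
      fun _ _ h1 h2 => absurd ⟨h1, h2⟩ hφ⟩
  obtain ⟨hfv, hder⟩ := hφ
  have hins : ∀ a : A, (S ∪ {h | h ∈ a :: H} : Set A) = insert a (S ∪ {h | h ∈ H}) := by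
    intro a
    ext x
    simp only [List.mem_cons, Set.mem_union, Set.mem_ofPred_eq, Set.mem_insert_iff]
    tauto
  cases φ with
  | disj a₁ a₂ =>
    by_cases h1 : Der (S ∪ {h | h ∈ a₁ :: H}) b
    · refine ⟨a₂ :: H, ⟨?_, ?_⟩, fun x hx => List.mem_cons_of_mem _ hx, ?_, ?_⟩
      · intro h hh
        rcases List.mem_cons.1 hh with rfl | hh
        · exact fun i hi => hfv (Or.inr hi)
        · exact hH.1 h hh
      · intro h2
        rw [hins] at h1 h2
        obtain ⟨G1, hG1, h1⟩ := h1.imp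
        obtain ⟨G2, hG2, h2⟩ := h2.imp
        obtain ⟨G3, hG3, h3⟩ := hder
        apply hH.2
        refine ⟨G1 ++ (G2 ++ G3), ?_, ?_⟩
        · intro g hg
          rcases List.mem_append.1 hg with hg | hg
          · exact hG1 g hg
          · rcases List.mem_append.1 hg with hg | hg
            · exact hG2 g hg
            · exact hG3 g hg
        · refine Pf.disjE (h3.mono ?_) (h1.mono ?_) (h2.mono ?_)
          · exact fun x hx => List.mem_append_right _ (List.mem_append_right _ hx)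
          · exact List.cons_subset_cons _ fun x hx => List.mem_append_left _ hx
          · exact List.cons_subset_cons _ fun x hx =>
              List.mem_append_right _ (List.mem_append_left _ hx)
      · intro x y e _ _
        obtain ⟨rfl, rfl⟩ := A.disj.inj e
        exact Or.inr List.mem_cons_self
      · intro x e
        exact absurd e (by simp)
    · refine ⟨a₁ :: H, ⟨?_, h1⟩, fun x hx => List.mem_cons_of_mem _ hx, ?_, ?_⟩
      · intro h hh
        rcases List.mem_cons.1 hh with rfl | hh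
        · exact fun i hi => hfv (Or.inl hi)
        · exact hH.1 h hh
      · intro x y e _ _
        obtain ⟨rfl, rfl⟩ := A.disj.inj e
        exact Or.inl List.mem_cons_self
      · intro x e
        exact absurd e (by simp)
  | ex a =>
    have hfin : ((A.ex a).fv ∪ ⋃ h ∈ {h | h ∈ H}, A.fv h).Finite :=
      (A.fv_finite _).union ((List.finite_toSet H).biUnion fun h _ => h.fv_finite)
    obtain ⟨c, ⟨hcV, hcU⟩, hc⟩ := (hinf.sdiff hfin).nonempty
    have hc1 : c ∉ (A.ex a).fv := fun h => hc (Or.inl h)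
    have hc2 : ∀ g ∈ (S ∪ {h | h ∈ H} : Set A), c ∉ A.fv g := by
      rintro g (hg | hg) h
      · exact hcU (hS g hg h)
      · exact hc (Or.inr (Set.mem_biUnion hg h))
    have ht : (T.var c).fv ⊆ V := by
      rintro j (rfl : j = c)
      exact hcV
    refine ⟨a.sb (at0 (T.var c)) :: H, ⟨?_, ?_⟩, fun x hx => List.mem_cons_of_mem _ hx, ?_, ?_⟩
    · intro h hh
      rcases List.mem_cons.1 hh with rfl | hh
      · exact fv_at0_sub hfv ht
      · exact hH.1 h hh
    · intro h1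
      rw [hins] at h1
      obtain ⟨G1, hG1, h1⟩ := h1.imp
      obtain ⟨G3, hG3, h3⟩ := hder
      apply hH.2
      have hG : ∀ g ∈ G1 ++ G3, g ∈ (S ∪ {h | h ∈ H} : Set A) := by
        intro g hg
        rcases List.mem_append.1 hg with hg | hg
        · exact hG1 g hg
        · exact hG3 g hg
      refine ⟨G1 ++ G3, hG, ?_⟩
      refine Pf.wit (c := c) (fun g hg => hc2 g (hG g hg)) hc1 (fun h => hcU (hb h))
        (h3.mono (List.subset_append_right _ _)) (h1.mono ?_)
      exact List.cons_subset_cons _ (List.subset_append_left _ _)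
    · intro x y e
      exact absurd e (by simp)
    · intro x e _ _
      obtain rfl := A.ex.inj e
      exact ⟨T.var c, ht, List.mem_cons_self⟩
  | eq s t =>
    exact ⟨H, hH, fun x hx => hx, fun _ _ e => absurd e (by simp), fun _ e => absurd e (by simp)⟩
  | bot =>
    exact ⟨H, hH, fun x hx => hx, fun _ _ e => absurd e (by simp), fun _ e => absurd e (by simp)⟩
  | conj a₁ a₂ =>
    exact ⟨H, hH, fun x hx => hx, fun _ _ e => absurd e (by simp), fun _ e => absurd e (by simp)⟩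
  | imp a₁ a₂ =>
    exact ⟨H, hH, fun x hx => hx, fun _ _ e => absurd e (by simp), fun _ e => absurd e (by simp)⟩
  | all a₁ =>
    exact ⟨H, hH, fun x hx => hx, fun _ _ e => absurd e (by simp), fun _ e => absurd e (by simp)⟩

theorem exists_world {U : Set ℕ} (hU : Uᶜ.Infinite) {S : Set A} (hS : ∀ a ∈ S, A.fv a ⊆ U)
    {b : A} (hb : b.fv ⊆ U) (h : ¬ Der S b) :
    ∃ w : World, U ⊆ w.U ∧ S ⊆ w.S ∧ b ∉ w.S := by
  classical
  let em := hU.natEmbedding
  let V : Set ℕ := U ∪ Set.range fun n => (em (2 * n) : ℕ)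
  have hUV : U ⊆ V := Set.subset_union_left
  have hinf : (V \ U).Infinite := by
    refine Set.infinite_of_injective_forall_mem (f := fun n : ℕ => (em (2 * n) : ℕ)) ?_ ?_
    · intro m n hmn
      have h1 : em (2 * m) = em (2 * n) := Subtype.ext hmn
      have := em.injective h1
      omega
    · intro n
      exact ⟨Or.inr ⟨n, rfl⟩, (em (2 * n)).2⟩
  have hVc : Vᶜ.Infinite := by
    refine Set.infinite_of_injective_forall_mem (f := fun n : ℕ => (em (2 * n + 1) : ℕ)) ?_ ?_
    · intro m n hmn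
      have h1 : em (2 * m + 1) = em (2 * n + 1) := Subtype.ext hmn
      have := em.injective h1
      omega
    · rintro n (h1 | ⟨m, h1⟩)
      · exact (em (2 * n + 1)).2 h1
      · have h2 : em (2 * m) = em (2 * n + 1) := Subtype.ext h1
        have := em.injective h2
        omega
  have h0 : Inv S V b [] := by
    refine ⟨fun g hg => absurd hg List.not_mem_nil, ?_⟩
    have : (S ∪ {h | h ∈ ([] : List A)} : Set A) = S := by
      ext x
      simp
    rwa [this]
  have hstep := fun (φ : A) (x : {H : List A // Inv S V b H}) =>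
    exists_step hinf hS hb φ x.2
  choose nx hn1 hn2 hn3 hn4 using hstep
  have : Nonempty A := ⟨A.bot⟩
  obtain ⟨g, hg⟩ := exists_surjective_nat A
  let sq : ℕ → {H : List A // Inv S V b H} := fun n =>
    Nat.rec ⟨[], h0⟩ (fun n x => ⟨nx (g (Nat.unpair n).1) x, hn1 _ x⟩) n
  have hsq : ∀ n, (sq (n + 1)).1 = nx (g (Nat.unpair n).1) (sq n) := fun n => rfl
  have hmono : ∀ m n, m ≤ n → (sq m).1 ⊆ (sq n).1 := by
    intro m n hmn
    induction n, hmn using Nat.le_induction with
    | base => exact fun x hx => hx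
    | succ n _ ih =>
      rw [hsq]
      exact fun x hx => hn2 _ (sq n) (ih hx)
  let Z : Set A := S ∪ {h | ∃ n, h ∈ (sq n).1}
  have hfin : ∀ G : List A, (∀ x ∈ G, x ∈ Z) →
      ∃ n, ∀ x ∈ G, x ∈ (S ∪ {h | h ∈ (sq n).1} : Set A) := by
    intro G
    induction G with
    | nil => exact fun _ => ⟨0, fun x hx => absurd hx List.not_mem_nil⟩
    | cons y G ih =>
      intro hG
      obtain ⟨n, hn⟩ := ih fun x hx => hG x (List.mem_cons_of_mem _ hx)
      have hy := hG y List.mem_cons_self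
      obtain ⟨m, hm⟩ : ∃ m, y ∈ (S ∪ {h | h ∈ (sq m).1} : Set A) := by
        rcases hy with hy | ⟨m, hm⟩
        · exact ⟨0, Or.inl hy⟩
        · exact ⟨m, Or.inr hm⟩
      refine ⟨max n m, fun x hx => ?_⟩
      rcases List.mem_cons.1 hx with rfl | hx
      · rcases hm with hm | hm
        · exact Or.inl hm
        · exact Or.inr (hmono _ _ (le_max_right n m) hm)
      · rcases hn x hx with hx | hx
        · exact Or.inl hx
        · exact Or.inr (hmono _ _ (le_max_left n m) hx)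
  have hder : ∀ a, Der Z a → ∃ n, Der (S ∪ {h | h ∈ (sq n).1}) a := by
    rintro a ⟨G, hG, h1⟩
    obtain ⟨n, hn⟩ := hfin G hG
    exact ⟨n, G, hn, h1⟩
  have hbZ : ¬ Der Z b := by
    intro h1
    obtain ⟨n, hn⟩ := hder b h1
    exact (sq n).2.2 hn
  have hlate : ∀ (a : A) (n : ℕ), Der (S ∪ {h | h ∈ (sq n).1}) a →
      ∃ m, g (Nat.unpair m).1 = a ∧ Der (S ∪ {h | h ∈ (sq m).1}) a := by
    intro a n hn
    obtain ⟨k, hk⟩ := hg a
    refine ⟨Nat.pair k n, by rw [Nat.unpair_pair]; exact hk, hn.mono ?_⟩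
    rintro x (hx | hx)
    · exact Or.inl hx
    · exact Or.inr (hmono _ _ (Nat.right_le_pair k n) hx)
  refine ⟨⟨V, {a | a.fv ⊆ V ∧ Der Z a}, hVc, fun a ha => ha.1, ?_, ?_, ?_, ?_⟩, hUV, ?_,
    fun hb1 => hbZ hb1.2⟩
  · intro G a hG ha h1
    refine ⟨ha, ?_⟩
    -- cut all hypotheses
    have key : ∀ (L : List A) (c : A), (∀ x ∈ L, Der Z x) → (∃ K : List A, (∀ x ∈ K, x ∈ Z) ∧
        Pf (L ++ K) c) → Der Z c := by
      intro L
      induction L with
      | nil =>
        rintro c - ⟨K, hK, h2⟩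
        exact ⟨K, hK, h2⟩
      | cons y L ih =>
        rintro c hL ⟨K, hK, h2⟩
        obtain ⟨K', hK', h3⟩ := hL y List.mem_cons_self
        refine ih c (fun x hx => hL x (List.mem_cons_of_mem _ hx)) ⟨K ++ K', ?_, ?_⟩
        · intro x hx
          rcases List.mem_append.1 hx with hx | hx
          · exact hK x hx
          · exact hK' x hx
        · refine Pf.cut (a := y) (h2.mono ?_) (h3.mono ?_)
          · intro x hx
            simp only [List.cons_append, List.mem_cons, List.mem_append] at hx ⊢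
            tauto
          · intro x hx
            simp only [List.mem_append]
            tauto
    exact key G a (fun x hx => (hG x hx).2) ⟨[], fun x hx => absurd hx List.not_mem_nil,
      by rwa [List.append_nil]⟩
  · rintro ⟨-, G, hG, h1⟩
    exact hbZ ⟨G, hG, Pf.botE b h1⟩
  · rintro a₁ a₂ ⟨hfv, h1⟩
    obtain ⟨n, hn⟩ := hder _ h1
    obtain ⟨m, hm, hd⟩ := hlate _ n hn
    have h2 := hn3 (g (Nat.unpair m).1) (sq m) a₁ a₂ hm (by rw [hm]; exact hfv)
      (by rw [hm]; exact hd)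
    rw [← hsq] at h2
    rcases h2 with h2 | h2
    · exact Or.inl ⟨fun i hi => hfv (Or.inl hi), Der.hyp (Or.inr ⟨m + 1, h2⟩)⟩
    · exact Or.inr ⟨fun i hi => hfv (Or.inr hi), Der.hyp (Or.inr ⟨m + 1, h2⟩)⟩
  · rintro a ⟨hfv, h1⟩
    obtain ⟨n, hn⟩ := hder _ h1
    obtain ⟨m, hm, hd⟩ := hlate _ n hn
    obtain ⟨t, ht, h2⟩ := hn4 (g (Nat.unpair m).1) (sq m) a hm (by rw [hm]; exact hfv)
      (by rw [hm]; exact hd)
    rw [← hsq] at h2
    exact ⟨t, ht, fv_at0_sub hfv ht, Der.hyp (Or.inr ⟨m + 1, h2⟩)⟩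
  · exact fun a ha => ⟨(hS a ha).trans hUV, Der.hyp (Or.inl ha)⟩

end HAo
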