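import Pool.Agent.Lib.MP_61e577_lc.Ar.Ord

/-! Kripke models of ordinary Heyting arithmetic. -/

namespace HAo

/-- The environment with `d` for the variable 0 and `e` for the others. -/
def ec {X : Type} (d : X) (e : ℕ → X) : ℕ → X
  | 0 => d
  | i + 1 => e i

/-- The data of a Kripke model: worlds, growing domains, functions. -/
structure KOD where
  W : Type
  [pre : Preorder W]
  D : W → Type
  tr : {w v : W} → w ≤ v → D w → D v
  fn : {n : ℕ} → PR n → {w : W} → (Fin n → D w) → D w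

attribute [instance] KOD.pre

/-- Values of terms. -/
def KOD.val (M : KOD) {w : M.W} (e : ℕ → M.D w) : T → M.D w
  | .var i => e i
  | .app f ts => M.fn f fun i => M.val e (ts i)

/-- Forcing. -/
def KOD.F (M : KOD) : A → {w : M.W} → (ℕ → M.D w) → Prop
  | .eq s t, _, e => M.val e s = M.val e t
  | .bot, _, _ => False
  | .conj a b, _, e => M.F a e ∧ M.F b e
  | .disj a b, _, e => M.F a e ∨ M.F b e
  | .imp a b, w, e => ∀ (v : M.W) (h : w ≤ v), M.F a (fun i => M.tr h (e i)) →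
      M.F b (fun i => M.tr h (e i))
  | .ex a, _, e => ∃ d, M.F a (ec d e)
  | .all a, w, e => ∀ (v : M.W) (h : w ≤ v) (d : M.D v), M.F a (ec d fun i => M.tr h (e i))

/-- Kripke models of Heyting arithmetic. -/
structure KO extends KOD where
  tr_refl : ∀ {w : W} (h : w ≤ w) (d : D w), tr h d = d
  tr_tr : ∀ {u v w : W} (h : u ≤ v) (k : v ≤ w) (d : D u), tr k (tr h d) = tr (h.trans k) d
  tr_fn : ∀ {w v : W} (h : w ≤ v) {n : ℕ} (f : PR n) (d : Fin n → D w),
    tr h (fn f d) = fn f fun i => tr h (d i)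
  fn_proj : ∀ {w : W} {n : ℕ} (i : Fin n) (d : Fin n → D w), fn (PR.proj i) d = d i
  fn_comp : ∀ {w : W} {m n : ℕ} (f : PR m) (g : Fin m → PR n) (d : Fin n → D w),
    fn (PR.comp f g) d = fn f fun i => fn (g i) d
  fn_prec0 : ∀ {w : W} {n : ℕ} (f : PR n) (g : PR (n + 2)) (d : Fin n → D w),
    fn (PR.prec f g) (Fin.cons (fn PR.zero Fin.elim0) d) = fn f d
  fn_precS : ∀ {w : W} {n : ℕ} (f : PR n) (g : PR (n + 2)) (a : D w) (d : Fin n → D w),
    fn (PR.prec f g) (Fin.cons (fn PR.succ fun _ => a) d) =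
      fn g (Fin.cons a (Fin.cons (fn (PR.prec f g) (Fin.cons a d)) d))
  succ_ne : ∀ {w : W} (a : D w), (fn PR.succ fun _ => a) ≠ fn PR.zero Fin.elim0
  succ_inj : ∀ {w : W} (a b : D w), (fn PR.succ fun _ => a) = (fn PR.succ fun _ => b) → a = b
  ind : ∀ (a : A) {w : W} (e : ℕ → D w), toKOD.F a (ec (fn PR.zero Fin.elim0) e) →
    (∀ {v : W} (h : w ≤ v) (d : D v), toKOD.F a (ec d fun i => tr h (e i)) →
      toKOD.F a (ec (fn PR.succ fun _ => d) fun i => tr h (e i))) →
    ∀ d : D w, toKOD.F a (ec d e)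

end HAo
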