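import Pool.Agent.Lib.MP_61e577_lc.Ar.OrdH

/-! The canonical model. -/

namespace HAo

instance : Preorder World where
  le w v := w.U ⊆ v.U ∧ w.S ⊆ v.S
  le_refl w := ⟨fun _ h => h, fun _ h => h⟩
  le_trans _ _ _ h k := ⟨h.1.trans k.1, h.2.trans k.2⟩

/-- Terms in the variables of a world. -/
abbrev World.Tm (w : World) : Type := {t : T // t.fv ⊆ w.U}

theorem World.fv_eq {w : World} (s t : w.Tm) : (A.eq s.1 t.1).fv ⊆ w.U :=
  Set.union_subset s.2 t.2

/-- A rule with one hypothesis. -/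
theorem World.cl1 (w : World) {a b : A} (ha : a ∈ w.S) (hb : b.fv ⊆ w.U) (h : Pf [a] b) :
    b ∈ w.S :=
  w.cl (G := [a]) (fun _ hg => by rwa [List.mem_singleton.1 hg]) hb h

/-- A rule with two hypotheses. -/
theorem World.cl2 (w : World) {a a' b : A} (ha : a ∈ w.S) (ha' : a' ∈ w.S) (hb : b.fv ⊆ w.U)
    (h : Pf [a, a'] b) : b ∈ w.S :=
  w.cl (G := [a, a']) (fun g hg => by
    rcases List.mem_cons.1 hg with rfl | hg
    · exact ha
    · rwa [List.mem_singleton.1 hg]) hb h

/-- A rule without hypotheses. -/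
theorem World.cl0 (w : World) {b : A} (hb : b.fv ⊆ w.U) (h : Pf [] b) : b ∈ w.S :=
  w.cl (G := []) (fun _ hg => absurd hg List.not_mem_nil) hb h

/-- Provable equality. -/
def World.st (w : World) : Setoid w.Tm where
  r s t := A.eq s.1 t.1 ∈ w.S
  iseqv :=
    { refl := fun s => w.cl0 (World.fv_eq s s) (Pf.refl _)
      symm := fun {s t} h => w.cl1 h (World.fv_eq t s) (Pf.hyp List.mem_cons_self).symm
      trans := fun {s _ u} h h' => w.cl2 h h' (World.fv_eq s u)
        ((Pf.hyp List.mem_cons_self).trans (Pf.hyp (List.mem_cons_of_mem _ List.mem_cons_self))) }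

/-- The domain of a world. -/
def World.Dm (w : World) : Type := Quotient w.st

/-- The class of a term. -/
def World.q (w : World) (t : w.Tm) : w.Dm := Quotient.mk w.st t

theorem World.q_eq {w : World} {s t : w.Tm} : w.q s = w.q t ↔ A.eq s.1 t.1 ∈ w.S :=
  ⟨fun h => Quotient.exact (s := w.st) h, fun h => Quotient.sound (s := w.st) h⟩

theorem World.q_surj {w : World} (d : w.Dm) : ∃ t, w.q t = d := Quotient.exists_rep d

theorem fv_app {n : ℕ} (f : PR n) {ts : Fin n → T} {U : Set ℕ} (h : ∀ i, (ts i).fv ⊆ U) :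
    (T.app f ts).fv ⊆ U := Set.iUnion_subset h

/-- Application of a function symbol to terms. -/
def World.ap (w : World) {n : ℕ} (f : PR n) (ts : Fin n → w.Tm) : w.Tm :=
  ⟨T.app f fun i => (ts i).1, fv_app f fun i => (ts i).2⟩

/-- The representative of a class. -/
noncomputable def World.rp (w : World) (d : w.Dm) : w.Tm := Classical.choose (World.q_surj d)

theorem World.q_rp {w : World} (d : w.Dm) : w.q (w.rp d) = d :=
  Classical.choose_spec (World.q_surj d)

theorem Pf.congr' {S : Set A} {n : ℕ} (f : PR n) {ts us : Fin n → T}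
    (h : ∀ i, A.eq (ts i) (us i) ∈ S) :
    ∃ G : List A, (∀ g ∈ G, g ∈ S) ∧ Pf G (A.eq (T.app f ts) (T.app f us)) := by
  refine ⟨List.ofFn fun i => A.eq (ts i) (us i), ?_, Pf.congr f fun i => Pf.hyp ?_⟩
  · intro g hg
    obtain ⟨i, rfl⟩ := List.mem_ofFn.1 hg
    exact h i
  · exact List.mem_ofFn.2 ⟨i, rfl⟩

/-- Transition. -/
def World.tr {w v : World} (h : w ≤ v) : w.Dm → v.Dm :=
  Quotient.map' (s₁ := w.st) (s₂ := v.st)
    (fun t : w.Tm => (⟨t.1, t.2.trans h.1⟩ : v.Tm)) fun _ _ e => h.2 e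

/-- The data of the canonical model. -/
@[reducible] noncomputable def can : KOD where
  W := World
  pre := inferInstance
  D := World.Dm
  tr := World.tr
  fn := fun {_} f {w} d => w.q (w.ap f fun i => w.rp (d i))

theorem can_tr {w v : World} (h : w ≤ v) (t : w.Tm) :
    can.tr (w := w) (v := v) h (w.q t) = v.q ⟨t.1, t.2.trans h.1⟩ := rfl

theorem can_fn {w : World} {n : ℕ} (f : PR n) (ts : Fin n → w.Tm) :
    can.fn f (w := w) (fun i => w.q (ts i)) = w.q (w.ap f ts) := by
  change w.q _ = w.q _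
  rw [World.q_eq]
  obtain ⟨G, hG, h⟩ := Pf.congr' (S := w.S) f (ts := fun i => (w.rp (w.q (ts i))).1)
    (us := fun i => (ts i).1) fun i => World.q_eq.1 (World.q_rp _)
  exact w.cl hG (World.fv_eq (w.ap f _) (w.ap f _)) h

/-- Substitution of terms of a world. -/
def World.sbT (w : World) (σ : ℕ → w.Tm) (t : T) : w.Tm :=
  ⟨t.sb fun i => (σ i).1, fun j hj => by
    obtain ⟨i, _, hj⟩ := t.fv_sb hj
    exact (σ i).2 hj⟩

theorem can_val {w : World} (σ : ℕ → w.Tm) (t : T) :
    can.val (w := w) (fun i => w.q (σ i)) t = w.q (w.sbT σ t) := by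
  induction t with
  | var i => rfl
  | app f ts ih =>
    change can.fn f (w := w) (fun i => can.val (w := w) (fun i => w.q (σ i)) (ts i)) = _
    have h1 : (fun i => can.val (w := w) (fun i => w.q (σ i)) (ts i)) =
        fun i => w.q (w.sbT σ (ts i)) := funext ih
    rw [h1, can_fn]
    rfl

theorem fv_sbA {w : World} (σ : ℕ → w.Tm) (a : A) : (a.sb fun i => (σ i).1).fv ⊆ w.U := by
  intro j hj
  obtain ⟨i, _, hj⟩ := a.fv_sb hj
  exact (σ i).2 hj

theorem ec_map {X Y : Type} (f : X → Y) (d : X) (e : ℕ → X) :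
    (fun i => f (ec d e i)) = ec (f d) fun i => f (e i) := by
  funext i
  cases i <;> rfl

/-- The truth lemma. -/
theorem truth (a : A) : ∀ {w : World} (σ : ℕ → w.Tm),
    can.F a (w := w) (fun i => w.q (σ i)) ↔ (a.sb fun i => (σ i).1) ∈ w.S := by
  induction a with
  | eq s t =>
    intro w σ
    change can.val (w := w) (fun i => w.q (σ i)) s = can.val (w := w) (fun i => w.q (σ i)) t ↔ _
    rw [can_val, can_val, World.q_eq]
    rfl
  | bot => exact fun {w} σ => ⟨fun h => h.elim, fun h => (w.cons h).elim⟩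
  | conj a b iha ihb =>
    intro w σ
    change (can.F a (w := w) (fun i => w.q (σ i)) ∧ can.F b (w := w) (fun i => w.q (σ i))) ↔ _
    rw [iha, ihb]
    constructor
    · rintro ⟨h1, h2⟩
      exact w.cl2 h1 h2 (fv_sbA σ (A.conj a b)) (Pf.conjI (Pf.hyp List.mem_cons_self)
        (Pf.hyp (List.mem_cons_of_mem _ List.mem_cons_self)))
    · intro h
      exact ⟨w.cl1 h (fv_sbA σ a) (Pf.conjL (Pf.hyp List.mem_cons_self)),
        w.cl1 h (fv_sbA σ b) (Pf.conjR (Pf.hyp List.mem_cons_self))⟩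
  | disj a b iha ihb =>
    intro w σ
    change (can.F a (w := w) (fun i => w.q (σ i)) ∨ can.F b (w := w) (fun i => w.q (σ i))) ↔ _
    rw [iha, ihb]
    constructor
    · rintro (h | h)
      · exact w.cl1 h (fv_sbA σ (A.disj a b)) (Pf.disjL _ (Pf.hyp List.mem_cons_self))
      · exact w.cl1 h (fv_sbA σ (A.disj a b)) (Pf.disjR _ (Pf.hyp List.mem_cons_self))
    · exact fun h => w.prime h
  | imp a b iha ihb =>
    intro w σ
    constructor
    · intro h
      by_contra hn
      have hd : ¬ Der (insert (a.sb fun i => (σ i).1) w.S) (b.sb fun i => (σ i).1) := by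
        intro h1
        obtain ⟨G, hG, h2⟩ := h1.imp
        exact hn (w.cl hG (fv_sbA σ (A.imp a b)) (Pf.impI h2))
      obtain ⟨v, hv1, hv2, hv3⟩ := exists_world w.inf (by
        rintro x (rfl | hx)
        · exact fv_sbA σ a
        · exact w.fvS x hx) (fv_sbA σ b) hd
      have hwv : w ≤ v := ⟨hv1, fun x hx => hv2 (Or.inr hx)⟩
      have h1 := h v hwv ((iha (w := v) fun i => ⟨(σ i).1, (σ i).2.trans hwv.1⟩).2
        (hv2 (Or.inl rfl)))
      exact hv3 ((ihb (w := v) fun i => ⟨(σ i).1, (σ i).2.trans hwv.1⟩).1 h1)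
    · intro h v hwv h1
      have h2 := (iha (w := v) fun i => ⟨(σ i).1, (σ i).2.trans hwv.1⟩).1 h1
      refine (ihb (w := v) fun i => ⟨(σ i).1, (σ i).2.trans hwv.1⟩).2 ?_
      exact v.cl2 (hwv.2 h) h2 (fv_sbA (w := v) (fun i => ⟨(σ i).1, (σ i).2.trans hwv.1⟩) b)
        (Pf.impE (Pf.hyp List.mem_cons_self) (Pf.hyp (List.mem_cons_of_mem _ List.mem_cons_self)))
  | ex a ih =>
    intro w σ
    have key : ∀ t : w.Tm, can.F a (w := w) (ec (w.q t) fun i => w.q (σ i)) ↔
        ((a.sb (lf fun i => (σ i).1)).sb (at0 t.1)) ∈ w.S := by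
      intro t
      rw [← ec_map w.q, ih, lf_at0, ← ec_map Subtype.val]
    constructor
    · rintro ⟨d, hd⟩
      obtain ⟨t, rfl⟩ := World.q_surj d
      exact w.cl1 ((key t).1 hd) (fv_sbA σ (A.ex a)) (Pf.exI t.1 (Pf.hyp List.mem_cons_self))
    · intro h
      obtain ⟨t, ht, h1⟩ := w.hen h
      exact ⟨w.q ⟨t, ht⟩, (key ⟨t, ht⟩).2 h1⟩
  | all a ih =>
    intro w σ
    have key : ∀ (v : World) (h : w ≤ v) (t : v.Tm),
        can.F a (w := v) (ec (v.q t) fun i => can.tr (w := w) (v := v) h (w.q (σ i))) ↔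
        ((a.sb (lf fun i => (σ i).1)).sb (at0 t.1)) ∈ v.S := by
      intro v h t
      have h1 : (fun i => can.tr (w := w) (v := v) h (w.q (σ i))) =
          fun i => v.q ⟨(σ i).1, (σ i).2.trans h.1⟩ := rfl
      rw [h1, ← ec_map v.q, ih, lf_at0, ec_map Subtype.val]
    constructor
    · intro h
      by_contra hn
      obtain ⟨c, hc⟩ := w.inf.nonempty
      have hc1 : c + 1 ∉ (a.sb (lf fun i => (σ i).1)).fv := fun hc2 =>
        hc (fv_sbA σ (A.all a) hc2)
      have hd : ¬ Der w.S ((a.sb (lf fun i => (σ i).1)).sb (at0 (T.var c))) := by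
        rintro ⟨G, hG, h1⟩
        refine hn (w.cl hG (fv_sbA σ (A.all a)) (Pf.gen (fun g hg hcg => ?_) hc1 h1))
        exact hc (w.fvS g (hG g hg) hcg)
      have hU : (w.U ∪ {c})ᶜ.Infinite := by
        rw [Set.compl_union, ← Set.sdiff_eq]
        exact w.inf.sdiff (Set.finite_singleton c)
      have hfvb : ((a.sb (lf fun i => (σ i).1)).sb (at0 (T.var c))).fv ⊆ w.U ∪ {c} := by
        refine fv_at0_sub ?_ (Set.subset_union_right (s := w.U) (t := {c}))
        exact (fv_sbA σ (A.all a)).trans Set.subset_union_left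
      obtain ⟨v, hv1, hv2, hv3⟩ := exists_world hU
        (fun x hx => (w.fvS x hx).trans Set.subset_union_left) hfvb hd
      have hwv : w ≤ v := ⟨Set.subset_union_left.trans hv1, hv2⟩
      have hcv : (T.var c).fv ⊆ v.U := by
        rintro j (rfl : j = c)
        exact hv1 (Or.inr rfl)
      exact hv3 ((key v hwv ⟨T.var c, hcv⟩).1 (h v hwv _))
    · intro h v hwv d
      obtain ⟨t, rfl⟩ := World.q_surj d
      refine (key v hwv t).2 ?_
      refine v.cl1 (hwv.2 h) ?_ (Pf.allE t.1 (Pf.hyp List.mem_cons_self))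
      refine fv_at0_sub ?_ t.2
      exact (fv_sbA σ (A.all a)).trans hwv.1

theorem cons_q {w : World} {n : ℕ} (t : w.Tm) (ts : Fin n → w.Tm) :
    (Fin.cons (w.q t) (fun i => w.q (ts i)) : Fin (n + 1) → w.Dm) =
      fun i => w.q ((Fin.cons t ts : Fin (n + 1) → w.Tm) i) := by
  funext i
  refine Fin.cases ?_ (fun i => ?_) i
  · rfl
  · rfl

theorem cons_val {w : World} {n : ℕ} (t : w.Tm) (ts : Fin n → w.Tm) :
    (fun i => ((Fin.cons t ts : Fin (n + 1) → w.Tm) i).1) =
      (Fin.cons t.1 (fun i => (ts i).1) : Fin (n + 1) → T) := by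
  funext i
  refine Fin.cases ?_ (fun i => ?_) i
  · rfl
  · rfl

/-- The term zero in a world. -/
def World.z (w : World) : w.Tm := ⟨T.z, Set.iUnion_subset fun i => i.elim0⟩

/-- The successor in a world. -/
def World.s (w : World) (t : w.Tm) : w.Tm := ⟨T.s t.1, Set.iUnion_subset fun _ => t.2⟩

theorem can_zero (w : World) :
    can.fn PR.zero (w := w) (Fin.elim0 : Fin 0 → w.Dm) = w.q w.z := by
  have h1 : (Fin.elim0 : Fin 0 → w.Dm) = fun i => w.q ((Fin.elim0 : Fin 0 → w.Tm) i) :=
    funext fun i => i.elim0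
  rw [h1, can_fn]
  have h2 : w.ap PR.zero (Fin.elim0 : Fin 0 → w.Tm) = w.z := by
    refine Subtype.ext ?_
    change T.app _ _ = T.app _ _
    congr 1
    exact funext fun i => i.elim0
  rw [h2]

theorem can_succ {w : World} (t : w.Tm) :
    can.fn PR.succ (w := w) (fun _ => w.q t) = w.q (w.s t) :=
  can_fn PR.succ fun _ => t

theorem can_reps {w : World} {X : Type} (d : X → w.Dm) :
    ∃ ts : X → w.Tm, d = fun i => w.q (ts i) :=
  ⟨fun i => w.rp (d i), funext fun i => (World.q_rp (d i)).symm⟩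

theorem can_ind (a : A) {w : World} (e : ℕ → w.Dm)
    (h0 : can.F a (w := w) (ec (can.fn PR.zero (w := w) Fin.elim0) e))
    (h1 : ∀ {v : World} (h : w ≤ v) (d : v.Dm), can.F a (w := v) (ec d fun i => World.tr h (e i)) →
      can.F a (w := v) (ec (can.fn PR.succ (w := v) fun _ => d) fun i => World.tr h (e i)))
    (d : w.Dm) : can.F a (w := w) (ec d e) := by
  obtain ⟨σ, rfl⟩ := can_reps e
  obtain ⟨t, rfl⟩ := World.q_surj d
  have key : ∀ (v : World) (h : w ≤ v) (t : v.Tm),
      can.F a (w := v) (ec (v.q t) fun i => World.tr h (w.q (σ i))) ↔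
        ((a.sb (lf fun i => (σ i).1)).sb (at0 t.1)) ∈ v.S := by
    intro v h t
    have h1 : (fun i => World.tr h (w.q (σ i))) =
        fun i => v.q ⟨(σ i).1, (σ i).2.trans h.1⟩ := rfl
    rw [h1, ← ec_map v.q, truth, lf_at0, ec_map Subtype.val]
  have key0 : ∀ t : w.Tm, can.F a (w := w) (ec (w.q t) fun i => w.q (σ i)) ↔
      ((a.sb (lf fun i => (σ i).1)).sb (at0 t.1)) ∈ w.S := by
    intro t
    rw [← ec_map w.q, truth, lf_at0, ← ec_map Subtype.val]
  have hall : (A.all a).sb (fun i => (σ i).1) ∈ w.S := by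
    have hz : (a.sb (lf fun i => (σ i).1)).sb (at0 T.z) ∈ w.S := by
      rw [can_zero, key0] at h0
      exact h0
    have hs : A.all (A.imp (a.sb (lf fun i => (σ i).1))
        ((a.sb (lf fun i => (σ i).1)).sb suc0)) ∈ w.S := by
      have h2 := (truth (A.all (A.imp a (a.sb suc0))) σ).1 (by
        intro v h d u k h3
        obtain ⟨t, rfl⟩ := World.q_surj d
        have hwu : w ≤ u := le_trans h k
        let t' : World.Tm u := ⟨t.1, t.2.trans k.1⟩
        let τ : ℕ → World.Tm u := ec t' fun i => ⟨(σ i).1, (σ i).2.trans hwu.1⟩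
        have e1 : (fun i => World.tr k (ec (World.q v t) (fun i => World.tr h (w.q (σ i))) i)) =
            fun i => World.q u (τ i) := by
          funext i
          cases i <;> rfl
        have e2 : ec (World.q u t') (fun i => World.tr hwu (w.q (σ i))) =
            fun i => World.q u (τ i) := by
          funext i
          cases i <;> rfl
        have h3 : can.F a (w := u) (fun i => World.tr k
          (ec (World.q v t) (fun i => World.tr h (w.q (σ i))) i)) := h3
        change can.F (a.sb suc0) (w := u) (fun i => World.tr k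
          (ec (World.q v t) (fun i => World.tr h (w.q (σ i))) i))
        rw [e1] at h3 ⊢
        rw [← e2] at h3
        have h4 := h1 hwu _ h3
        rw [can_succ, key u hwu, lf_at0] at h4
        refine (truth (a.sb suc0) τ).2 ?_
        rw [A.sb_sb]
        have e3 : (fun i => (suc0 i).sb fun i => (τ i).1) =
            ec (World.s u t').1 fun i => (σ i).1 := by
          funext i
          cases i <;> rfl
        rw [e3]
        exact h4)
      simp only [A.sb] at h2
      rwa [suc0_lf] at h2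
    exact w.cl2 hz hs (fv_sbA σ (A.all a)) (Pf.ind _ (Pf.hyp List.mem_cons_self)
      (Pf.hyp (List.mem_cons_of_mem _ List.mem_cons_self)))
  refine (key0 t).2 (w.cl1 hall ?_ (Pf.allE t.1 (Pf.hyp List.mem_cons_self)))
  exact fv_at0_sub (fv_sbA σ (A.all a)) t.2

end HAo
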