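import Pool.Agent.Lib.MP_61e577_lc.Ar.OrdS

/-! There are countably many formulas. -/

namespace HAo

/-- A code of a tuple of numbers. -/
def tc {n : ℕ} (f : Fin n → ℕ) : ℕ := Encodable.encode (List.ofFn f)

theorem tc_inj {n : ℕ} {f g : Fin n → ℕ} (h : tc f = tc g) : f = g :=
  List.ofFn_injective (Encodable.encode_injective h)

/-- Codes of function symbols. -/
def PR.code : {n : ℕ} → PR n → ℕ
  | _, .zero => Nat.pair 0 0
  | _, .succ => Nat.pair 1 0
  | _, .proj i => Nat.pair 2 i
  | _, @PR.comp m _ f g => Nat.pair 3 (Nat.pair m (Nat.pair f.code (tc fun i => (g i).code)))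
  | _, .prec f g => Nat.pair 4 (Nat.pair f.code g.code)

theorem PR.code_inj {n : ℕ} (f : PR n) : ∀ g : PR n, f.code = g.code → f = g := by
  induction f with
  | zero =>
    intro g h
    cases g <;> simp only [PR.code, Nat.pair_eq_pair] at h <;> first | rfl | omega
  | succ =>
    intro g h
    cases g <;> simp only [PR.code, Nat.pair_eq_pair] at h <;> first | rfl | omega
  | proj i =>
    intro g h
    cases g <;> simp only [PR.code, Nat.pair_eq_pair] at h <;> try omega
    case proj j => rw [Fin.ext h.2]
  | @comp m n f k ihf ihk =>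
    intro g h
    cases g <;> simp only [PR.code, Nat.pair_eq_pair] at h <;> try omega
    case comp m' f' k' =>
      obtain ⟨-, h1, h2, h3⟩ := h
      subst h1
      obtain rfl := ihf _ h2
      have h4 : k = k' := by
        funext i
        exact ihk i _ (congrFun (tc_inj h3) i)
      rw [h4]
  | prec f k ihf ihk =>
    intro g h
    cases g <;> simp only [PR.code, Nat.pair_eq_pair] at h <;> try omega
    case prec f' k' =>
      obtain ⟨-, h2, h3⟩ := h
      rw [ihf _ h2, ihk _ h3]

/-- Codes of terms. -/
def T.code : T → ℕ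
  | .var i => Nat.pair 0 i
  | @T.app n f ts => Nat.pair 1 (Nat.pair n (Nat.pair f.code (tc fun i => (ts i).code)))

theorem T.code_inj (s : T) : ∀ t : T, s.code = t.code → s = t := by
  induction s with
  | var i =>
    intro t h
    cases t <;> simp only [T.code, Nat.pair_eq_pair] at h <;> try omega
    case var j => rw [h.2]
  | @app n f ts ih =>
    intro t h
    cases t <;> simp only [T.code, Nat.pair_eq_pair] at h <;> try omega
    case app m g us =>
      obtain ⟨-, h1, h2, h3⟩ := h
      subst h1
      obtain rfl := f.code_inj _ h2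
      have h4 : ts = us := by
        funext i
        exact ih i _ (congrFun (tc_inj h3) i)
      rw [h4]

/-- Codes of formulas. -/
def A.code : A → ℕ
  | .eq s t => Nat.pair 0 (Nat.pair s.code t.code)
  | .bot => Nat.pair 1 0
  | .conj a b => Nat.pair 2 (Nat.pair a.code b.code)
  | .disj a b => Nat.pair 3 (Nat.pair a.code b.code)
  | .imp a b => Nat.pair 4 (Nat.pair a.code b.code)
  | .ex a => Nat.pair 5 a.code
  | .all a => Nat.pair 6 a.code

theorem A.code_inj (a : A) : ∀ b : A, a.code = b.code → a = b := by
  induction a with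
  | eq s t =>
    intro b h
    cases b <;> simp only [A.code, Nat.pair_eq_pair] at h <;> try omega
    case eq s' t' => rw [s.code_inj _ h.2.1, t.code_inj _ h.2.2]
  | bot =>
    intro b h
    cases b <;> simp only [A.code, Nat.pair_eq_pair] at h <;> first | rfl | omega
  | conj a1 a2 ih1 ih2 =>
    intro b h
    cases b <;> simp only [A.code, Nat.pair_eq_pair] at h <;> try omega
    case conj b1 b2 => rw [ih1 _ h.2.1, ih2 _ h.2.2]
  | disj a1 a2 ih1 ih2 =>
    intro b h
    cases b <;> simp only [A.code, Nat.pair_eq_pair] at h <;> try omega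
    case disj b1 b2 => rw [ih1 _ h.2.1, ih2 _ h.2.2]
  | imp a1 a2 ih1 ih2 =>
    intro b h
    cases b <;> simp only [A.code, Nat.pair_eq_pair] at h <;> try omega
    case imp b1 b2 => rw [ih1 _ h.2.1, ih2 _ h.2.2]
  | ex a ih =>
    intro b h
    cases b <;> simp only [A.code, Nat.pair_eq_pair] at h <;> try omega
    case ex b => rw [ih _ h.2]
  | all a ih =>
    intro b h
    cases b <;> simp only [A.code, Nat.pair_eq_pair] at h <;> try omega
    case all b => rw [ih _ h.2]

instance : Countable A := ⟨A.code, fun a b h => a.code_inj b h⟩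

end HAo
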