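import Pool.Agent.Lib.MP_61e577_lc.Ar.OrdK

/-! Arithmetic inside Kripke models of ordinary Heyting arithmetic: addition, truncated
subtraction, Cantor pairing and its projections. -/

namespace HAo

/-! ### Basic facts -/

section

variable {α : Type} (d : α) (e : ℕ → α)

@[simp] theorem ec_zero : ec d e 0 = d := rfl

@[simp] theorem ec_succ (i : ℕ) : ec d e (i + 1) = e i := rfl

@[simp] theorem ec_one : ec d e 1 = e 0 := rfl

@[simp] theorem ec_two : ec d e 2 = e 1 := rfl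

@[simp] theorem ec_three : ec d e 3 = e 2 := rfl

end

/-- Zero. -/
def KOD.z (M : KOD) {w : M.W} : M.D w := M.fn PR.zero Fin.elim0

/-- Successor. -/
def KOD.s (M : KOD) {w : M.W} (d : M.D w) : M.D w := M.fn PR.succ fun _ => d

variable {M : KO} {w : M.W}

theorem KO.s_ne (a : M.D w) : M.s a ≠ M.z := M.succ_ne a

theorem KO.s_inj (a b : M.D w) : M.s a = M.s b → a = b := M.succ_inj a b

theorem KO.fn_prZ {n : ℕ} (f : PR n) (g : PR (n + 2)) (d : Fin n → M.D w) :
    M.fn (PR.prec f g) (Fin.cons M.z d) = M.fn f d := M.fn_prec0 f g d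

theorem KO.fn_prS {n : ℕ} (f : PR n) (g : PR (n + 2)) (a : M.D w) (d : Fin n → M.D w) :
    M.fn (PR.prec f g) (Fin.cons (M.s a) d) =
      M.fn g (Fin.cons a (Fin.cons (M.fn (PR.prec f g) (Fin.cons a d)) d)) :=
  M.fn_precS f g a d

theorem KO.indz (a : A) (e : ℕ → M.D w) (h0 : M.F a (ec M.z e))
    (hS : ∀ {v : M.W} (h : w ≤ v) (d : M.D v), M.F a (ec d fun i => M.tr h (e i)) →
      M.F a (ec (M.s d) fun i => M.tr h (e i))) (d : M.D w) : M.F a (ec d e) :=
  M.ind a e h0 hS d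

theorem KO.tr_ec {v : M.W} (h : w ≤ v) (d : M.D w) (e : ℕ → M.D w) :
    (fun i => M.tr h (ec d e i)) = ec (M.tr h d) fun i => M.tr h (e i) :=
  funext fun i => by cases i <;> rfl

/-- Symbols of one argument. -/
def KO.f1 (M : KO) {w : M.W} (f : PR 1) (a : M.D w) : M.D w := M.fn f fun _ => a

/-- Symbols of two arguments. -/
def KO.f2 (M : KO) {w : M.W} (f : PR 2) (a b : M.D w) : M.D w := M.fn f ![a, b]

/-- Symbols of three arguments. -/
def KO.f3 (M : KO) {w : M.W} (f : PR 3) (a b c : M.D w) : M.D w := M.fn f ![a, b, c]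

/-- Application of a unary symbol. -/
def t1 (f : PR 1) (s : T) : T := T.app f fun _ => s

/-- Application of a binary symbol. -/
def t2 (f : PR 2) (s t : T) : T := T.app f ![s, t]

/-- Composition with a unary symbol. -/
def c1 {n : ℕ} (f : PR 1) (g : PR n) : PR n := PR.comp f fun _ => g

/-- Composition with a binary symbol. -/
def c2 {n : ℕ} (f : PR 2) (g h : PR n) : PR n := PR.comp f ![g, h]

/-- The constant zero. -/
def zrP {n : ℕ} : PR n := PR.comp PR.zero Fin.elim0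

theorem vec1 {α : Type} (a : α) : (![a] : Fin 1 → α) = fun _ => a :=
  funext fun i => by rw [Subsingleton.elim i 0]; rfl

theorem map2 {α β : Type} (f : α → β) (a b : α) : (fun i => f (![a, b] i)) = ![f a, f b] :=
  funext fun i => by fin_cases i <;> rfl

theorem map3 {α β : Type} (f : α → β) (a b c : α) :
    (fun i => f (![a, b, c] i)) = ![f a, f b, f c] :=
  funext fun i => by fin_cases i <;> rfl

@[simp] theorem KO.tr_f1 {v : M.W} (h : w ≤ v) (f : PR 1) (a : M.D w) :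
    M.tr h (M.f1 f a) = M.f1 f (M.tr h a) := M.tr_fn h f _

@[simp] theorem KO.tr_f2 {v : M.W} (h : w ≤ v) (f : PR 2) (a b : M.D w) :
    M.tr h (M.f2 f a b) = M.f2 f (M.tr h a) (M.tr h b) := by
  rw [KO.f2, M.tr_fn, KO.f2, map2]

@[simp] theorem KO.tr_z {v : M.W} (h : w ≤ v) : M.tr h M.z = M.z := by
  rw [KOD.z, M.tr_fn, KOD.z]
  congr 1
  exact Subsingleton.elim _ _

@[simp] theorem KO.tr_s {v : M.W} (h : w ≤ v) (a : M.D w) : M.tr h (M.s a) = M.s (M.tr h a) :=
  M.tr_fn h _ _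

@[simp] theorem KO.val_var (e : ℕ → M.D w) (i : ℕ) : M.val e (T.var i) = e i := rfl

@[simp] theorem KO.val_z (e : ℕ → M.D w) : M.val e T.z = M.z := by
  rw [T.z, KOD.val, KOD.z]
  congr 1
  exact Subsingleton.elim _ _

@[simp] theorem KO.val_s (e : ℕ → M.D w) (t : T) : M.val e (T.s t) = M.s (M.val e t) := rfl

@[simp] theorem KO.val_t1 (e : ℕ → M.D w) (f : PR 1) (s : T) :
    M.val e (t1 f s) = M.f1 f (M.val e s) := rfl

@[simp] theorem KO.val_t2 (e : ℕ → M.D w) (f : PR 2) (s t : T) :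
    M.val e (t2 f s t) = M.f2 f (M.val e s) (M.val e t) := by
  rw [t2, KOD.val, KO.f2, map2]

theorem KO.fn_c1 {n : ℕ} (f : PR 1) (g : PR n) (d : Fin n → M.D w) :
    M.fn (c1 f g) d = M.f1 f (M.fn g d) := M.fn_comp _ _ _

theorem KO.fn_c2 {n : ℕ} (f : PR 2) (g h : PR n) (d : Fin n → M.D w) :
    M.fn (c2 f g h) d = M.f2 f (M.fn g d) (M.fn h d) := by
  rw [c2, M.fn_comp, KO.f2, map2 (fun g => M.fn g d)]

theorem KO.fn_zrP {n : ℕ} (d : Fin n → M.D w) : M.fn zrP d = M.z := by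
  rw [zrP, M.fn_comp, KOD.z]
  congr 1
  exact Subsingleton.elim _ _

@[simp] theorem KO.f1_c1 (f g : PR 1) (a : M.D w) : M.f1 (c1 f g) a = M.f1 f (M.f1 g a) :=
  M.fn_c1 _ _ _

@[simp] theorem KO.f1_c2 (f : PR 2) (g h : PR 1) (a : M.D w) :
    M.f1 (c2 f g h) a = M.f2 f (M.f1 g a) (M.f1 h a) := M.fn_c2 _ _ _ _

@[simp] theorem KO.f2_c1 (f : PR 1) (g : PR 2) (a b : M.D w) :
    M.f2 (c1 f g) a b = M.f1 f (M.f2 g a b) := M.fn_c1 _ _ _

@[simp] theorem KO.f2_c2 (f g h : PR 2) (a b : M.D w) :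
    M.f2 (c2 f g h) a b = M.f2 f (M.f2 g a b) (M.f2 h a b) := M.fn_c2 _ _ _ _

@[simp] theorem KO.f3_c1 (f : PR 1) (g : PR 3) (a b c : M.D w) :
    M.f3 (c1 f g) a b c = M.f1 f (M.f3 g a b c) := M.fn_c1 _ _ _

@[simp] theorem KO.f3_c2 (f : PR 2) (g h : PR 3) (a b c : M.D w) :
    M.f3 (c2 f g h) a b c = M.f2 f (M.f3 g a b c) (M.f3 h a b c) := M.fn_c2 _ _ _ _

@[simp] theorem KO.f1_zrP (a : M.D w) : M.f1 zrP a = M.z := M.fn_zrP _

@[simp] theorem KO.f2_zrP (a b : M.D w) : M.f2 zrP a b = M.z := M.fn_zrP _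

@[simp] theorem KO.f3_zrP (a b c : M.D w) : M.f3 zrP a b c = M.z := M.fn_zrP _

@[simp] theorem KO.f1_proj (a : M.D w) : M.f1 (PR.proj 0) a = a := M.fn_proj _ _

@[simp] theorem KO.f2_proj0 (a b : M.D w) : M.f2 (PR.proj 0) a b = a := M.fn_proj _ _

@[simp] theorem KO.f2_proj1 (a b : M.D w) : M.f2 (PR.proj 1) a b = b := M.fn_proj _ _

@[simp] theorem KO.f3_proj0 (a b c : M.D w) : M.f3 (PR.proj 0) a b c = a := M.fn_proj _ _

@[simp] theorem KO.f3_proj1 (a b c : M.D w) : M.f3 (PR.proj 1) a b c = b := M.fn_proj _ _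

@[simp] theorem KO.f3_proj2 (a b c : M.D w) : M.f3 (PR.proj 2) a b c = c := M.fn_proj _ _

@[simp] theorem KO.f1_succ (a : M.D w) : M.f1 PR.succ a = M.s a := rfl

/-- Primitive recursion without parameters. -/
def pr0 (g : PR 2) : PR 1 := PR.prec PR.zero g

/-- Primitive recursion with one parameter. -/
def pr1 (f : PR 1) (g : PR 3) : PR 2 := PR.prec f g

@[simp] theorem KO.pr0_z (g : PR 2) : M.f1 (pr0 g) (M.z (w := w)) = M.z := by
  have := M.fn_prZ PR.zero g (w := w) Fin.elim0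
  rw [KO.f1, pr0]
  refine Eq.trans ?_ this
  congr 1
  exact (vec1 _).symm

@[simp] theorem KO.pr0_s (g : PR 2) (a : M.D w) :
    M.f1 (pr0 g) (M.s a) = M.f2 g a (M.f1 (pr0 g) a) := by
  have := M.fn_prS PR.zero g a Fin.elim0
  rw [KO.f1, pr0, KO.f2, KO.f1]
  convert this using 2
  · exact (vec1 _).symm
  · funext i
    fin_cases i
    · rfl
    · show M.fn _ _ = M.fn _ _
      congr 1
      exact (vec1 _).symm

@[simp] theorem KO.pr1_z (f : PR 1) (g : PR 3) (b : M.D w) :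
    M.f2 (pr1 f g) M.z b = M.f1 f b := by
  have := M.fn_prZ f g (fun _ => b)
  rw [KO.f1, pr1, KO.f2, ← this, ← vec1]
  rfl

@[simp] theorem KO.pr1_s (f : PR 1) (g : PR 3) (a b : M.D w) :
    M.f2 (pr1 f g) (M.s a) b = M.f3 g a (M.f2 (pr1 f g) a b) b := by
  have := M.fn_prS f g a (fun _ => b)
  rw [← vec1] at this
  exact this

/-- Induction for equations. -/
theorem KO.ind_eq (s t : T) (e : ℕ → M.D w) (h0 : M.val (ec M.z e) s = M.val (ec M.z e) t)
    (hS : ∀ {v : M.W} (h : w ≤ v) (n : M.D v),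
      M.val (ec n fun i => M.tr h (e i)) s = M.val (ec n fun i => M.tr h (e i)) t →
      M.val (ec (M.s n) fun i => M.tr h (e i)) s = M.val (ec (M.s n) fun i => M.tr h (e i)) t)
    (n : M.D w) : M.val (ec n e) s = M.val (ec n e) t :=
  M.indz (A.eq s t) e h0 hS n

/-- Every element is zero or a successor. -/
theorem KO.z_or_s (n : M.D w) : n = M.z ∨ ∃ m, n = M.s m := by
  have := M.indz (A.disj (A.eq (T.var 0) T.z) (A.ex (A.eq (T.var 1) (T.s (T.var 0)))))
    (fun _ => M.z) (Or.inl (by simp [KOD.F])) (fun h n _ => Or.inr ⟨n, by simp [KOD.F]⟩) n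
  simpa [KOD.F] using this

theorem KO.s_inj' {a b : M.D w} : M.s a = M.s b ↔ a = b := ⟨M.s_inj a b, fun h => by rw [h]⟩

/-! ### Addition -/

/-- Addition. -/
def addP : PR 2 := pr1 (PR.proj 0) (c1 PR.succ (PR.proj 1))

/-- Addition of elements. -/
def KO.add (M : KO) {w : M.W} (a b : M.D w) : M.D w := M.f2 addP a b

@[simp] theorem KO.f2_addP (a b : M.D w) : M.f2 addP a b = M.add a b := rfl

@[simp] theorem KO.tr_add {v : M.W} (h : w ≤ v) (a b : M.D w) :
    M.tr h (M.add a b) = M.add (M.tr h a) (M.tr h b) := M.tr_f2 h _ _ _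

@[simp] theorem KO.z_add (a : M.D w) : M.add M.z a = a := by simp [KO.add, addP]

@[simp] theorem KO.s_add (a b : M.D w) : M.add (M.s a) b = M.s (M.add a b) := by
  simp [KO.add, addP]

@[simp] theorem KO.add_z (a : M.D w) : M.add a M.z = a := by
  have := M.ind_eq (t2 addP (T.var 0) T.z) (T.var 0) (fun _ => M.z) (by simp)
    (fun h n e => by simpa [KO.s_inj'] using e) a
  simpa using this

@[simp] theorem KO.add_s (a b : M.D w) : M.add a (M.s b) = M.s (M.add a b) := by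
  have := M.ind_eq (t2 addP (T.var 0) (T.s (T.var 1))) (T.s (t2 addP (T.var 0) (T.var 1)))
    (fun _ => b) (by simp) (fun h n e => by simpa [KO.s_inj'] using e) a
  simpa using this

theorem KO.add_comm (a b : M.D w) : M.add a b = M.add b a := by
  have := M.ind_eq (t2 addP (T.var 0) (T.var 1)) (t2 addP (T.var 1) (T.var 0))
    (fun _ => b) (by simp) (fun h n e => by simpa [KO.s_inj'] using e) a
  simpa using this

theorem KO.add_assoc (a b c : M.D w) : M.add (M.add a b) c = M.add a (M.add b c) := by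
  have := M.ind_eq (t2 addP (t2 addP (T.var 0) (T.var 1)) (T.var 2))
    (t2 addP (T.var 0) (t2 addP (T.var 1) (T.var 2)))
    (ec b fun _ => c) (by simp) (fun h n e => by simpa [KO.s_inj'] using e) a
  simpa using this

/-! ### Predecessor and truncated subtraction -/

/-- Predecessor. -/
def predP : PR 1 := pr0 (PR.proj 0)

@[simp] theorem KO.pred_z : M.f1 predP (M.z (w := w)) = M.z := by simp [predP]

@[simp] theorem KO.pred_s (a : M.D w) : M.f1 predP (M.s a) = a := by simp [predP]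

/-- Truncated subtraction of the first from the second argument. -/
def monP : PR 2 := pr1 (PR.proj 0) (c1 predP (PR.proj 1))

/-- Truncated subtraction `a - b` of elements. -/
def KO.mon (M : KO) {w : M.W} (a b : M.D w) : M.D w := M.f2 monP b a

@[simp] theorem KO.f2_monP (a b : M.D w) : M.f2 monP a b = M.mon b a := rfl

@[simp] theorem KO.tr_mon {v : M.W} (h : w ≤ v) (a b : M.D w) :
    M.tr h (M.mon a b) = M.mon (M.tr h a) (M.tr h b) := M.tr_f2 h _ _ _

@[simp] theorem KO.mon_z (a : M.D w) : M.mon a M.z = a := by simp [KO.mon, monP]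

theorem KO.mon_s (a b : M.D w) : M.mon a (M.s b) = M.f1 predP (M.mon a b) := by
  simp [KO.mon, monP]

@[simp] theorem KO.s_mon_s (a b : M.D w) : M.mon (M.s a) (M.s b) = M.mon a b := by
  have := M.ind_eq (t2 monP (T.s (T.var 0)) (T.s (T.var 1))) (t2 monP (T.var 0) (T.var 1))
    (fun _ => a) (by simp [KO.mon_s]) (fun h n e => by
      simp only [KO.val_t2, KO.val_s, KO.val_var, ec_zero, ec_one, KO.f2_monP] at e ⊢
      rw [M.mon_s, e, M.mon_s]) b
  simpa using this

@[simp] theorem KO.add_mon (a b : M.D w) : M.mon (M.add a b) a = b := by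
  have := M.ind_eq (t2 monP (T.var 0) (t2 addP (T.var 0) (T.var 1))) (T.var 1)
    (fun _ => b) (by simp) (fun h n e => by simpa using e) a
  simpa using this

@[simp] theorem KO.add_mon_add (a b c : M.D w) :
    M.mon (M.add a b) (M.add a c) = M.mon b c := by
  have := M.ind_eq (t2 monP (t2 addP (T.var 0) (T.var 2)) (t2 addP (T.var 0) (T.var 1)))
    (t2 monP (T.var 2) (T.var 1))
    (ec b fun _ => c) (by simp) (fun h n e => by simpa using e) a
  simpa using this

@[simp] theorem KO.mon_self (a : M.D w) : M.mon a a = M.z := by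
  have := M.add_mon a M.z
  rwa [M.add_z] at this

/-- Truncated subtraction and addition. -/
theorem KO.mon_cases (a b : M.D w) : (∃ c, M.add a c = b) ∨ ∃ c, M.mon a b = M.s c := by
  have := M.indz (A.disj (A.ex (A.eq (t2 addP (T.var 1) (T.var 0)) (T.var 2)))
    (A.ex (A.eq (t2 addP (T.var 2) (T.s (T.var 0))) (T.var 1)))) (fun _ => b)
    (Or.inl ⟨b, by simp [KOD.F]⟩)
    (fun h n e => by
      simp only [KOD.F, KO.val_t2, KO.val_var, KO.val_s, ec_zero, ec_one, ec_two,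
        KO.f2_addP] at e ⊢
      rcases e with ⟨c, e⟩ | ⟨c, e⟩
      · rcases M.z_or_s c with rfl | ⟨c, rfl⟩
        · exact Or.inr ⟨M.z, by rw [← e]; simp⟩
        · exact Or.inl ⟨c, by rw [← e]; simp⟩
      · exact Or.inr ⟨M.s c, by rw [M.add_s, e]⟩) a
  simp only [KOD.F, KO.val_t2, KO.val_var, KO.val_s, ec_zero, ec_one, ec_two,
        KO.f2_addP] at this
  rcases this with h | ⟨c, h⟩
  · exact Or.inl h
  · exact Or.inr ⟨c, by rw [← h, M.add_mon]⟩

/-- Zero test. -/
def iszP : PR 1 := PR.prec (c1 PR.succ PR.zero) zrP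

@[simp] theorem KO.isz_z : M.f1 iszP (M.z (w := w)) = M.s M.z := by
  have := M.fn_prZ (c1 PR.succ PR.zero) zrP (w := w) Fin.elim0
  rw [M.fn_c1] at this
  rw [KO.f1, iszP]
  refine Eq.trans ?_ this
  congr 1
  exact (vec1 _).symm

@[simp] theorem KO.isz_s (a : M.D w) : M.f1 iszP (M.s a) = M.z := by
  have := M.fn_prS (c1 PR.succ PR.zero) zrP a Fin.elim0
  rw [M.fn_zrP] at this
  rw [KO.f1, iszP, ← this]
  congr 1
  exact (vec1 _).symm

/-! ### Triangular numbers and diagonals -/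

/-- Triangular numbers. -/
def triP : PR 1 := pr0 (c1 PR.succ (c2 addP (PR.proj 1) (PR.proj 0)))

@[simp] theorem KO.tri_z : M.f1 triP (M.z (w := w)) = M.z := by simp [triP]

@[simp] theorem KO.tri_s (a : M.D w) : M.f1 triP (M.s a) = M.s (M.add (M.f1 triP a) a) := by
  simp [triP]

/-- The diagonal of a number. -/
def diaP : PR 1 := pr0 (c2 addP (c1 iszP (c2 monP (c1 PR.succ (PR.proj 0))
  (c1 triP (c1 PR.succ (PR.proj 1))))) (PR.proj 1))

@[simp] theorem KO.dia_z : M.f1 diaP (M.z (w := w)) = M.z := by simp [diaP]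

theorem KO.dia_s (n : M.D w) : M.f1 diaP (M.s n) =
    M.add (M.f1 iszP (M.mon (M.f1 triP (M.s (M.f1 diaP n))) (M.s n))) (M.f1 diaP n) := by
  simp [diaP]

@[simp] theorem KO.z_mon (a : M.D w) : M.mon M.z a = M.z := by
  have := M.ind_eq (t2 monP (T.var 0) T.z) T.z (fun _ => M.z) (by simp)
    (fun h n e => by
      simp only [KO.val_t2, KO.val_z, KO.val_var, ec_zero, KO.f2_monP] at e ⊢
      rw [M.mon_s, e, M.pred_z]) a
  simpa using this

@[simp] theorem KO.mon_add (a b : M.D w) : M.mon a (M.add a b) = M.z := by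
  have := M.add_mon_add a M.z b
  rwa [M.add_z, M.z_mon] at this

/-- Walking along a diagonal. -/
theorem KO.dia_tri_add (s : M.D w) (h : M.f1 diaP (M.f1 triP s) = s) (x y : M.D w)
    (hxy : M.add x y = s) : M.f1 diaP (M.add (M.f1 triP s) x) = s := by
  have := M.indz (A.disj (A.ex (A.eq (t2 monP (T.var 2) (T.var 1)) (T.s (T.var 0))))
    (A.eq (t1 diaP (t2 addP (t1 triP (T.var 1)) (T.var 0))) (T.var 1))) (fun _ => s)
    (Or.inr (by simpa [KOD.F] using h))
    (fun {v} k n e => by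
      simp only [KOD.F, KO.val_t1, KO.val_t2, KO.val_var, KO.val_s, ec_zero, ec_one, ec_two,
        KO.f2_addP, KO.f2_monP] at e ⊢
      rcases M.mon_cases (M.s n) (M.tr k s) with ⟨c, hc⟩ | ⟨c, hc⟩
      · refine Or.inr ?_
        rw [M.s_add, ← M.add_s] at hc
        have e2 : M.f1 diaP (M.add (M.f1 triP (M.tr k s)) n) = M.tr k s := by
          rcases e with ⟨d, hd⟩ | e
          · rw [← hc, M.mon_add] at hd
            exact absurd hd.symm (M.s_ne d)
          · exact e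
        rw [M.add_s, M.dia_s, e2]
        simp only [KO.tri_s, KO.s_mon_s, KO.add_mon_add]
        rw [← hc, M.add_mon, M.isz_s, M.z_add]
      · exact Or.inl ⟨c, hc⟩) x
  simp only [KOD.F, KO.val_t1, KO.val_t2, KO.val_var, KO.val_s, ec_zero, ec_one, ec_two,
        KO.f2_addP, KO.f2_monP] at this
  rcases this with ⟨c, hc⟩ | h
  · rw [← hxy, M.mon_add] at hc
    exact absurd hc.symm (M.s_ne c)
  · exact h

theorem KO.dia_tri (s : M.D w) : M.f1 diaP (M.f1 triP s) = s := by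
  have := M.ind_eq (t1 diaP (t1 triP (T.var 0))) (T.var 0) (fun _ => M.z) (by simp)
    (fun h n e => by
      simp only [KO.val_t1, KO.val_var, ec_zero] at e ⊢
      rw [M.tri_s, M.dia_s, M.dia_tri_add n e n M.z (M.add_z n), M.tri_s]
      simp) s
  simpa using this

/-! ### Pairing -/

/-- Cantor pairing. -/
def pairP : PR 2 := c2 addP (c1 triP (c2 addP (PR.proj 0) (PR.proj 1))) (PR.proj 0)

/-- The first component. -/
def leftP : PR 1 := c2 monP (c1 triP diaP) (PR.proj 0)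

/-- The second component. -/
def rightP : PR 1 := c2 monP leftP diaP

/-- Cantor pairing of elements. -/
def KO.pr (M : KO) {w : M.W} (a b : M.D w) : M.D w := M.f2 pairP a b

/-- First component of elements. -/
def KO.lt (M : KO) {w : M.W} (a : M.D w) : M.D w := M.f1 leftP a

/-- Second component of elements. -/
def KO.rt (M : KO) {w : M.W} (a : M.D w) : M.D w := M.f1 rightP a

@[simp] theorem KO.f2_pairP (a b : M.D w) : M.f2 pairP a b = M.pr a b := rfl

@[simp] theorem KO.f1_leftP (a : M.D w) : M.f1 leftP a = M.lt a := rfl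

@[simp] theorem KO.f1_rightP (a : M.D w) : M.f1 rightP a = M.rt a := rfl

@[simp] theorem KO.tr_pr {v : M.W} (h : w ≤ v) (a b : M.D w) :
    M.tr h (M.pr a b) = M.pr (M.tr h a) (M.tr h b) := M.tr_f2 h _ _ _

@[simp] theorem KO.tr_lt {v : M.W} (h : w ≤ v) (a : M.D w) :
    M.tr h (M.lt a) = M.lt (M.tr h a) := M.tr_f1 h _ _

@[simp] theorem KO.tr_rt {v : M.W} (h : w ≤ v) (a : M.D w) :
    M.tr h (M.rt a) = M.rt (M.tr h a) := M.tr_f1 h _ _

theorem KO.pr_def (a b : M.D w) : M.pr a b = M.add (M.f1 triP (M.add a b)) a := by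
  simp [KO.pr, pairP]

theorem KO.dia_pr (a b : M.D w) : M.f1 diaP (M.pr a b) = M.add a b := by
  rw [M.pr_def]
  exact M.dia_tri_add _ (M.dia_tri _) a b rfl

@[simp] theorem KO.lt_pr (a b : M.D w) : M.lt (M.pr a b) = a := by
  have : M.lt (M.pr a b) = M.mon (M.pr a b) (M.f1 triP (M.f1 diaP (M.pr a b))) := by
    rw [KO.lt, leftP]
    simp
  rw [this, M.dia_pr, M.pr_def, M.add_mon]

@[simp] theorem KO.rt_pr (a b : M.D w) : M.rt (M.pr a b) = b := by
  have : M.rt (M.pr a b) = M.mon (M.f1 diaP (M.pr a b)) (M.lt (M.pr a b)) := by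
    rw [KO.rt, rightP]
    simp
  rw [this, M.dia_pr, M.lt_pr, M.add_mon]

theorem KO.s_pr (a b : M.D w) : M.s (M.pr a (M.s b)) = M.pr (M.s a) b := by
  rw [M.pr_def, M.pr_def, M.add_s, M.s_add, M.add_s]

theorem KO.s_pr_z (a : M.D w) : M.s (M.pr a M.z) = M.pr M.z (M.s a) := by
  rw [M.pr_def, M.pr_def, M.add_z, M.z_add, M.add_z, M.tri_s]

@[simp] theorem KO.pr_z_z : M.pr M.z (M.z (w := w)) = M.z := by
  rw [M.pr_def, M.add_z, M.add_z, M.tri_z]

theorem KO.exists_pr (n : M.D w) : ∃ a b, n = M.pr a b := by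
  have := M.indz (A.ex (A.ex (A.eq (T.var 2) (t2 pairP (T.var 1) (T.var 0))))) (fun _ => M.z)
    ⟨M.z, M.z, by simp [KOD.F]⟩
    (fun {v} k n e => by
      simp only [KOD.F, KO.val_t2, KO.val_var, ec_zero, ec_one, ec_two, KO.f2_pairP] at e ⊢
      obtain ⟨a, b, rfl⟩ := e
      rcases M.z_or_s b with rfl | ⟨b, rfl⟩
      · exact ⟨_, _, M.s_pr_z a⟩
      · exact ⟨_, _, M.s_pr a b⟩) n
  simpa [KOD.F] using this

@[simp] theorem KO.pr_eta (n : M.D w) : M.pr (M.lt n) (M.rt n) = n := by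
  obtain ⟨a, b, rfl⟩ := M.exists_pr n
  rw [M.lt_pr, M.rt_pr]

theorem KO.lt_le (n : M.D w) : ∃ c, M.add (M.lt n) c = n := by
  obtain ⟨a, b, rfl⟩ := M.exists_pr n
  rw [M.lt_pr, M.pr_def]
  exact ⟨_, M.add_comm _ _⟩

theorem KO.le_tri (s : M.D w) : ∃ c, M.add s c = M.f1 triP s := by
  rcases M.z_or_s s with rfl | ⟨s, rfl⟩
  · exact ⟨M.z, by simp⟩
  · exact ⟨M.f1 triP s, by rw [M.tri_s, M.s_add, M.add_comm]⟩

theorem KO.rt_le (n : M.D w) : ∃ c, M.add (M.rt n) c = n := by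
  obtain ⟨a, b, rfl⟩ := M.exists_pr n
  rw [M.rt_pr, M.pr_def]
  obtain ⟨c, hc⟩ := M.le_tri (M.add a b)
  rw [← hc, M.add_comm a b]
  exact ⟨M.add (M.add a c) a, by simp only [M.add_assoc]⟩

/-! ### Tree recursion -/

/-- Iteration of the second component. -/
def irP : PR 2 := pr1 (PR.proj 0) (c1 rightP (PR.proj 1))

@[simp] theorem KO.ir_z (a : M.D w) : M.f2 irP M.z a = a := by simp [irP]

theorem KO.ir_s (k a : M.D w) : M.f2 irP (M.s k) a = M.rt (M.f2 irP k a) := by simp [irP]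

theorem KO.ir_s' (k a : M.D w) : M.f2 irP (M.s k) a = M.f2 irP k (M.rt a) := by
  have := M.ind_eq (t2 irP (T.s (T.var 0)) (T.var 1)) (t2 irP (T.var 0) (t1 rightP (T.var 1)))
    (fun _ => a) (by simp [KO.ir_s]) (fun h n e => by
      simp only [KO.val_t1, KO.val_t2, KO.val_s, KO.val_var, ec_zero, ec_one,
        KO.f1_rightP] at e ⊢
      rw [M.ir_s, e, M.ir_s]) k
  simpa using this

/-- The step of the table: arguments `n`, the old table, the parameter `a`. -/
def stP (g : PR 1) : PR 3 :=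
  c2 pairP (c1 g (c2 pairP (PR.proj 2) (c2 pairP (PR.proj 0) (c2 pairP
    (c1 leftP (c2 irP (c2 monP (c1 leftP (PR.proj 0)) (PR.proj 0)) (PR.proj 1)))
    (c1 leftP (c2 irP (c2 monP (c1 rightP (PR.proj 0)) (PR.proj 0)) (PR.proj 1)))))))
    (PR.proj 1)

/-- The table of values up to the first argument, the second one is the parameter. -/
def tabP (f g : PR 1) : PR 2 := pr1 (c2 pairP f zrP) (stP g)

/-- Recursion along the pairing tree. -/
def trecP (f g : PR 1) : PR 1 := c1 leftP (c2 (tabP f g) rightP leftP)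

variable (f g : PR 1)

theorem KO.tab_z (a : M.D w) : M.f2 (tabP f g) M.z a = M.pr (M.f1 f a) M.z := by simp [tabP]

theorem KO.tab_s (n a : M.D w) : M.f2 (tabP f g) (M.s n) a =
    M.pr (M.f1 g (M.pr a (M.pr n (M.pr
      (M.lt (M.f2 irP (M.mon n (M.lt n)) (M.f2 (tabP f g) n a)))
      (M.lt (M.f2 irP (M.mon n (M.rt n)) (M.f2 (tabP f g) n a)))))))
      (M.f2 (tabP f g) n a) := by
  simp [tabP, stP]

theorem KO.ir_tab (k m a : M.D w) :
    M.f2 irP k (M.f2 (tabP f g) (M.add m k) a) = M.f2 (tabP f g) m a := by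
  have := M.ind_eq (t2 irP (T.var 0) (t2 (tabP f g) (t2 addP (T.var 1) (T.var 0)) (T.var 2)))
    (t2 (tabP f g) (T.var 1) (T.var 2)) (ec m fun _ => a) (by simp) (fun h n e => by
      simp only [KO.val_t2, KO.val_var, ec_zero, ec_one, ec_two, KO.f2_addP] at e ⊢
      rw [M.ir_s', M.add_s, M.tab_s, M.rt_pr, e]) k
  simpa using this

theorem KO.trec_pr (a n : M.D w) : M.f1 (trecP f g) (M.pr a n) = M.lt (M.f2 (tabP f g) n a) := by
  simp [trecP]

theorem KO.trec_z (a : M.D w) : M.f1 (trecP f g) (M.pr a M.z) = M.f1 f a := by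
  rw [M.trec_pr, M.tab_z, M.lt_pr]

theorem KO.trec_s (a n : M.D w) : M.f1 (trecP f g) (M.pr a (M.s n)) =
    M.f1 g (M.pr a (M.pr n (M.pr (M.f1 (trecP f g) (M.pr a (M.lt n)))
      (M.f1 (trecP f g) (M.pr a (M.rt n)))))) := by
  simp only [KO.trec_pr]
  rw [M.tab_s, M.lt_pr]
  have key : ∀ m : M.D w, (∃ c, M.add m c = n) →
      M.f2 irP (M.mon n m) (M.f2 (tabP f g) n a) = M.f2 (tabP f g) m a := by
    rintro m ⟨c, rfl⟩
    rw [M.add_mon, M.ir_tab]
  rw [key _ (M.lt_le n), key _ (M.rt_le n)]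

/-! ### Primitive recursion along pairs -/

/-- Primitive recursion on the second component with the first one as parameter. -/
def precP (f g : PR 1) : PR 1 :=
  c2 (pr1 f (c1 g (c2 pairP (PR.proj 2) (c2 pairP (PR.proj 0) (PR.proj 1))))) rightP leftP

theorem KO.prec_z (a : M.D w) : M.f1 (precP f g) (M.pr a M.z) = M.f1 f a := by simp [precP]

theorem KO.prec_s (a n : M.D w) : M.f1 (precP f g) (M.pr a (M.s n)) =
    M.f1 g (M.pr a (M.pr n (M.f1 (precP f g) (M.pr a n)))) := by simp [precP]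

end HAo
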