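import Pool.Agent.Lib.MP_61e577_lc.Ar.OrdR
import Pool.Agent.Lib.MP_61e577_lc.Ar.OrdC
import Pool.Agent.Lib.MP_61e577_lc.Ar.OrdA

/-! Adequacy of the one-variable calculus for ordinary Heyting arithmetic. -/

namespace HAo

open HAr

/-- Formulas whose translation is provable are provable in ordinary Heyting arithmetic. -/
theorem adeq2 (a : A) (h : Prv a.tl) : Pf [] a := completeO a fun M w e => KO.of_prv h M w e

/-- The one-variable calculus proves exactly the theorems of ordinary Heyting arithmetic. -/
theorem adeq (a : A) : Pf [] a ↔ Prv a.tl := ⟨adeq1 a, adeq2 a⟩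

end HAo
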