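import Pool.Agent.Lib.MP_61e577_lc.Ar.OrdP
import Pool.Agent.Lib.MP_61e577_lc.Ar.Kripke

/-! Every Kripke model of ordinary Heyting arithmetic is a Kripke model of the one-variable
calculus. -/

namespace HAo

open HAr

variable {M : KO} {w : M.W}

/-- The functions of the one-variable calculus as primitive recursive symbols. -/
def sym : Fn Empty → PR 1
  | .mv i => i.elim
  | .idn => PR.proj 0
  | .zero => zrP
  | .succ => PR.succ
  | .left => leftP
  | .right => rightP
  | .pair f g => c2 pairP (sym f) (sym g)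
  | .comp f g => c1 (sym f) (sym g)
  | .prec f g => precP (sym f) (sym g)
  | .trec f g => trecP (sym f) (sym g)

/-- The formula `P(t)` in ordinary Heyting arithmetic. -/
def back : Fm Empty → T → A
  | .mv i, _ => i.elim
  | .eq f g, t => A.eq (t1 (sym f) t) (t1 (sym g) t)
  | .bot, _ => A.bot
  | .conj P Q, t => A.conj (back P t) (back Q t)
  | .disj P Q, t => A.disj (back P t) (back Q t)
  | .imp P Q, t => A.imp (back P t) (back Q t)
  | .ex P, t => A.ex (back P (t2 pairP (t.sb fun i => T.var (i + 1)) (T.var 0)))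
  | .all P, t => A.all (back P (t2 pairP (t.sb fun i => T.var (i + 1)) (T.var 0)))
  | .sub P f, t => back P (t1 (sym f) t)

theorem KO.val_sb (e : ℕ → M.D w) (σ : ℕ → T) : ∀ t : T,
    M.val e (t.sb σ) = M.val (fun i => M.val e (σ i)) t
  | .var i => rfl
  | .app f ts => by
    show M.fn f _ = M.fn f _
    congr 1
    funext i
    exact KO.val_sb e σ (ts i)

@[simp] theorem KO.val_sh (d : M.D w) (e : ℕ → M.D w) (t : T) :
    M.val (ec d e) (t.sb fun i => T.var (i + 1)) = M.val e t := by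
  rw [M.val_sb]
  rfl

theorem KO.tr_val {v : M.W} (h : w ≤ v) (e : ℕ → M.D w) : ∀ t : T,
    M.tr h (M.val e t) = M.val (fun i => M.tr h (e i)) t
  | .var i => rfl
  | .app f ts => by
    show M.tr h (M.fn f _) = M.fn f _
    rw [M.tr_fn]
    congr 1
    funext i
    exact KO.tr_val h e (ts i)

/-- The data of the one-variable model. -/
def KO.toKD (M : KO) : KD Empty where
  W := M.W
  D := M.D
  tr := M.tr
  fn := fun f _ d => M.f1 (sym f) d
  pr := fun a b => M.pr a b
  zr := M.z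
  pm := fun i => i.elim

theorem KO.back_iff : ∀ (P : Fm Empty) {w : M.W} (e : ℕ → M.D w) (t : T),
    M.F (back P t) e ↔ M.toKD.F P (w := w) (M.val e t)
  | .mv i, _, _, _ => i.elim
  | .eq f g, _, e, t => Iff.rfl
  | .bot, _, _, _ => Iff.rfl
  | .conj P Q, _, e, t => and_congr (KO.back_iff P e t) (KO.back_iff Q e t)
  | .disj P Q, _, e, t => or_congr (KO.back_iff P e t) (KO.back_iff Q e t)
  | .imp P Q, w, e, t => by
    show (∀ (v : M.W) (h : w ≤ v), _ → _) ↔ ∀ (v : M.W) (h : w ≤ v), _ → _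
    refine forall_congr' fun v => forall_congr' fun h => ?_
    have e1 := KO.back_iff P (fun i => M.tr h (e i)) t
    have e2 := KO.back_iff Q (fun i => M.tr h (e i)) t
    rw [← M.tr_val] at e1 e2
    exact imp_congr e1 e2
  | .ex P, w, e, t => by
    show (∃ d, _) ↔ ∃ d, _
    refine exists_congr fun d => ?_
    have e1 := KO.back_iff P (ec d e) (t2 pairP (t.sb fun i => T.var (i + 1)) (T.var 0))
    simp only [KO.val_t2, KO.val_sh, KO.val_var, ec_zero, KO.f2_pairP] at e1
    exact e1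
  | .all P, w, e, t => by
    show (∀ (v : M.W) (h : w ≤ v) (d : M.D v), _) ↔ ∀ (v : M.W) (h : w ≤ v) (d : M.D v), _
    refine forall_congr' fun v => forall_congr' fun h => forall_congr' fun d => ?_
    have e1 := KO.back_iff P (ec d fun i => M.tr h (e i))
      (t2 pairP (t.sb fun i => T.var (i + 1)) (T.var 0))
    simp only [KO.val_t2, KO.val_sh, KO.val_var, ec_zero, KO.f2_pairP, ← M.tr_val] at e1
    exact e1
  | .sub P f, w, e, t => by
    have e1 := KO.back_iff P e (t1 (sym f) t)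
    exact e1

/-- A model of ordinary Heyting arithmetic as a model of the one-variable calculus. -/
def KO.toKr (M : KO) : Kr Empty where
  toKD := M.toKD
  tr_refl := M.tr_refl
  tr_tr := M.tr_tr
  tr_fn := fun h f d => M.tr_f1 h (sym f) d
  tr_pr := M.tr_pr
  pm_mono := fun _ i => i.elim
  fn_idn := M.f1_proj
  fn_zero := M.f1_zrP
  fn_comp := fun f g d => M.f1_c1 (sym f) (sym g) d
  fn_pair := fun f g d => M.f1_c2 pairP (sym f) (sym g) d
  left_pr := M.lt_pr
  right_pr := M.rt_pr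
  pr_eta := M.pr_eta
  pr_zr := M.pr_z_z
  succ_pr := M.s_pr
  succ_pr_zr := M.s_pr_z
  prec_zr := fun f g a => M.prec_z (sym f) (sym g) a
  prec_succ := fun f g a n => M.prec_s (sym f) (sym g) a n
  trec_zr := fun f g a => M.trec_z (sym f) (sym g) a
  trec_succ := fun f g a n => M.trec_s (sym f) (sym g) a n
  succ_ne := M.s_ne
  succ_inj := M.s_inj
  ind := by
    intro P w a h0 hS n
    have key : ∀ {v : M.W} (b c : M.D v),
        M.F (back P (t2 pairP (T.var 1) (T.var 0))) (ec c fun _ => b) ↔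
          M.toKD.F P (w := v) (M.pr b c) := fun b c => by
      have := M.back_iff P (ec c fun _ => b) (t2 pairP (T.var 1) (T.var 0))
      simpa using this
    have := M.indz (back P (t2 pairP (T.var 1) (T.var 0))) (w := w) (fun _ => a)
      ((key a M.z).2 h0) (fun {v} h d h1 => (key _ _).2 (hS h d ((key _ _).1 h1))) n
    exact (key a n).1 this

/-- Soundness of the one-variable calculus in models of ordinary Heyting arithmetic. -/
theorem KO.sound1 {P : Fm Empty} (h : Prv P) (d : M.D w) : M.toKr.F P (w := w) d :=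
  Kr.sound (M := M.toKr) h d

/-! ### The translation -/

/-- Functions of the one-variable calculus in the model. -/
abbrev KO.g (M : KO) {w : M.W} (f : Fn Empty) (d : M.D w) : M.D w := M.f1 (sym f) d

theorem KO.g_tup {d : M.D w} : ∀ {n : ℕ} (F : Fin n → Fn Empty) (i : Fin n),
    M.g (cmp i) (M.g (tup F) d) = M.g (F i) d
  | 0, _, i => i.elim0
  | n + 1, F, i => by
    refine Fin.cases ?_ (fun i => ?_) i
    · simp [KO.g, cmp, tup, sym]
    · have := KO.g_tup (d := d) (fun i => F i.succ) i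
      simpa [KO.g, cmp, tup, sym] using this

theorem KO.val_app_cons {n : ℕ} (f : PR (n + 1)) (e : ℕ → M.D w) (t : T) (ts : Fin n → T) :
    M.val e (T.app f (Fin.cons t ts)) =
      M.fn f (Fin.cons (M.val e t) fun i => M.val e (ts i)) := by
  show M.fn f _ = M.fn f _
  congr 1
  funext i
  refine Fin.cases ?_ (fun i => ?_) i <;> rfl

/-- The translation of symbols is correct. -/
theorem KO.g_tl : ∀ {n : ℕ} (f : PR n) {w : M.W} (d : M.D w),
    M.g f.tl d = M.fn f fun i => M.g (cmp i) d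
  | _, .zero, _, d => by
    show M.f1 zrP d = _
    rw [M.f1_zrP, KOD.z]
    congr 1
    exact Subsingleton.elim _ _
  | _, .succ, _, d => by
    show M.f1 (c1 PR.succ leftP) d = _
    rw [M.f1_c1]
    show M.fn PR.succ _ = M.fn PR.succ _
    congr 1
    funext i
    rw [Subsingleton.elim i 0]
    rfl
  | _, .proj i, _, d => by
    rw [M.fn_proj]
    rfl
  | _, .comp f g, _, d => by
    show M.g (Fn.comp f.tl (tup fun i => (g i).tl)) d = _
    rw [M.fn_comp]
    have : M.g (Fn.comp f.tl (tup fun i => (g i).tl)) d =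
      M.g f.tl (M.g (tup fun i => (g i).tl) d) := M.f1_c1 _ _ _
    rw [this, KO.g_tl f]
    congr 1
    funext i
    rw [M.g_tup, KO.g_tl (g i)]
  | _, .prec (n := n) f g, w, d => by
    have key : ∀ {v : M.W} (c m : M.D v), M.g (Fn.prec f.tl (Fn.comp g.tl
        (Fn.pair (Fn.comp Fn.left Fn.right) (Fn.pair (Fn.comp Fn.right Fn.right) Fn.left))))
        (M.pr c m) = M.fn (PR.prec f g) (Fin.cons m fun i => M.g (cmp i) c) := by
      intro v c m
      have h := M.ind_eq (t1 (sym (Fn.prec f.tl (Fn.comp g.tl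
        (Fn.pair (Fn.comp Fn.left Fn.right) (Fn.pair (Fn.comp Fn.right Fn.right) Fn.left)))))
        (t2 pairP (T.var 1) (T.var 0)))
        (T.app (PR.prec f g) (Fin.cons (T.var 0) fun i : Fin n => t1 (sym (cmp i)) (T.var 1)))
        (fun _ => c) ?_ ?_ m
      · rw [M.val_app_cons] at h
        simpa using h
      · rw [M.val_app_cons]
        simp only [KO.val_t1, KO.val_t2, KO.val_var, ec_zero, ec_one, KO.f2_pairP]
        rw [M.fn_prZ, ← KO.g_tl f]
        exact M.prec_z _ _ c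
      · intro u k x e
        rw [M.val_app_cons] at e ⊢
        simp only [KO.val_t1, KO.val_t2, KO.val_var, ec_zero, ec_one, KO.f2_pairP] at e ⊢
        rw [M.fn_prS]
        refine (M.prec_s _ _ _ _).trans ?_
        have e1 : M.f1 (precP (sym f.tl) (sym (Fn.comp g.tl
          (Fn.pair (Fn.comp Fn.left Fn.right) (Fn.pair (Fn.comp Fn.right Fn.right) Fn.left)))))
            (M.pr (M.tr k c) x) = _ := e
        rw [e1]
        have e2 : ∀ y z u : M.D u, M.f1 (sym (Fn.comp g.tl
          (Fn.pair (Fn.comp Fn.left Fn.right) (Fn.pair (Fn.comp Fn.right Fn.right) Fn.left))))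
            (M.pr y (M.pr z u)) = M.g g.tl (M.pr z (M.pr u y)) := by
          intro y z u
          simp [KO.g, sym]
        rw [e2, KO.g_tl g]
        congr 1
        funext i
        refine Fin.cases ?_ (fun i => ?_) i
        · simp [KO.g, cmp, sym]
        · refine Fin.cases ?_ (fun i => ?_) i
          · simp [KO.g, cmp, sym]
          · simp [KO.g, cmp, sym]
    have h1 : M.g (PR.prec f g).tl d = M.g (Fn.prec f.tl (Fn.comp g.tl
        (Fn.pair (Fn.comp Fn.left Fn.right) (Fn.pair (Fn.comp Fn.right Fn.right) Fn.left))))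
        (M.pr (M.rt d) (M.lt d)) := by
      simp [KO.g, PR.tl, sym]
    rw [h1, key]
    congr 1
    funext i
    refine Fin.cases ?_ (fun i => ?_) i
    · rfl
    · simp [KO.g, cmp, sym]

theorem T.bd_mono {m n : ℕ} (h : m ≤ n) : ∀ t : T, t.bd m → t.bd n
  | var _, h1 => lt_of_lt_of_le h1 h
  | app _ ts, h1 => fun i => T.bd_mono h (ts i) (h1 i)

theorem A.bd_mono : ∀ (a : A) {m n : ℕ}, m ≤ n → a.bd m → a.bd n
  | eq s t, _, _, h, h1 => ⟨s.bd_mono h h1.1, t.bd_mono h h1.2⟩
  | bot, _, _, _, _ => trivial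
  | conj a b, _, _, h, h1 => ⟨a.bd_mono h h1.1, b.bd_mono h h1.2⟩
  | disj a b, _, _, h, h1 => ⟨a.bd_mono h h1.1, b.bd_mono h h1.2⟩
  | imp a b, _, _, h, h1 => ⟨a.bd_mono h h1.1, b.bd_mono h h1.2⟩
  | ex a, _, _, h, h1 => a.bd_mono (Nat.succ_le_succ h) h1
  | all a, _, _, h, h1 => a.bd_mono (Nat.succ_le_succ h) h1

theorem T.exists_bd : ∀ t : T, ∃ n, t.bd n
  | var i => ⟨i + 1, Nat.lt_succ_self i⟩
  | app f ts => by
    choose N hN using fun i => T.exists_bd (ts i)
    exact ⟨Finset.univ.sup N, fun i => (ts i).bd_mono (Finset.le_sup (Finset.mem_univ i)) (hN i)⟩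

theorem A.exists_bd : ∀ a : A, ∃ n, a.bd n
  | eq s t => by
    obtain ⟨m, hm⟩ := s.exists_bd
    obtain ⟨n, hn⟩ := t.exists_bd
    exact ⟨max m n, s.bd_mono (le_max_left _ _) hm, t.bd_mono (le_max_right _ _) hn⟩
  | bot => ⟨0, trivial⟩
  | conj a b => by
    obtain ⟨m, hm⟩ := A.exists_bd a
    obtain ⟨n, hn⟩ := A.exists_bd b
    exact ⟨max m n, a.bd_mono (le_max_left _ _) hm, b.bd_mono (le_max_right _ _) hn⟩
  | disj a b => by
    obtain ⟨m, hm⟩ := A.exists_bd a
    obtain ⟨n, hn⟩ := A.exists_bd b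
    exact ⟨max m n, a.bd_mono (le_max_left _ _) hm, b.bd_mono (le_max_right _ _) hn⟩
  | imp a b => by
    obtain ⟨m, hm⟩ := A.exists_bd a
    obtain ⟨n, hn⟩ := A.exists_bd b
    exact ⟨max m n, a.bd_mono (le_max_left _ _) hm, b.bd_mono (le_max_right _ _) hn⟩
  | ex a => by
    obtain ⟨m, hm⟩ := A.exists_bd a
    exact ⟨m, a.bd_mono (Nat.le_succ m) hm⟩
  | all a => by
    obtain ⟨m, hm⟩ := A.exists_bd a
    exact ⟨m, a.bd_mono (Nat.le_succ m) hm⟩

/-- The translation of terms is correct. -/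
theorem KO.g_tl_T {n : ℕ} {e : ℕ → M.D w} {d : M.D w} (h : ∀ i < n, M.g (vr i) d = e i) :
    ∀ t : T, t.bd n → M.g t.tl d = M.val e t
  | .var i, hi => h i hi
  | .app f ts, hi => by
    show M.g (Fn.comp f.tl (tup fun i => (ts i).tl)) d = M.fn f fun i => M.val e (ts i)
    have h1 : M.g (Fn.comp f.tl (tup fun i => (ts i).tl)) d =
      M.g f.tl (M.g (tup fun i => (ts i).tl) d) := M.f1_c1 _ _ _
    rw [h1, KO.g_tl f]
    congr 1
    funext i
    rw [M.g_tup, KO.g_tl_T h (ts i) (hi i)]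

theorem KO.g_vr_pr {n : ℕ} {e : ℕ → M.D w} {d : M.D w} (h : ∀ i < n, M.g (vr i) d = e i)
    (x : M.D w) : ∀ i < n + 1, M.g (vr i) (M.pr d x) = ec x e i := by
  intro i hi
  cases i with
  | zero => simp [KO.g, vr, sym]
  | succ i =>
    have := h i (Nat.lt_of_succ_lt_succ hi)
    simpa [KO.g, vr, sym] using this

theorem KO.g_vr_tr {n : ℕ} {e : ℕ → M.D w} {d : M.D w} (h : ∀ i < n, M.g (vr i) d = e i)
    {v : M.W} (k : w ≤ v) : ∀ i < n, M.g (vr i) (M.tr k d) = M.tr k (e i) := by
  intro i hi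
  rw [← h i hi, KO.g, M.tr_f1]

/-- The translation of formulas is correct. -/
theorem KO.tl_iff : ∀ (a : A) {n : ℕ} (_ : a.bd n) {w : M.W} {e : ℕ → M.D w} {d : M.D w}
    (_ : ∀ i < n, M.g (vr i) d = e i), M.F a e ↔ M.toKD.F a.tl (w := w) d
  | .eq s t, n, ha, w, e, d, h => by
    show M.val e s = M.val e t ↔ M.g s.tl d = M.g t.tl d
    rw [KO.g_tl_T h s ha.1, KO.g_tl_T h t ha.2]
  | .bot, _, _, _, _, _, _ => Iff.rfl
  | .conj a b, n, ha, w, e, d, h => and_congr (KO.tl_iff a ha.1 h) (KO.tl_iff b ha.2 h)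
  | .disj a b, n, ha, w, e, d, h => or_congr (KO.tl_iff a ha.1 h) (KO.tl_iff b ha.2 h)
  | .imp a b, n, ha, w, e, d, h => by
    show (∀ (v : M.W) (k : w ≤ v), _ → _) ↔ ∀ (v : M.W) (k : w ≤ v), _ → _
    exact forall_congr' fun v => forall_congr' fun k =>
      imp_congr (KO.tl_iff a ha.1 (M.g_vr_tr h k)) (KO.tl_iff b ha.2 (M.g_vr_tr h k))
  | .ex a, n, ha, w, e, d, h => by
    show (∃ x, _) ↔ ∃ x, _
    exact exists_congr fun x => KO.tl_iff a ha (M.g_vr_pr h x)
  | .all a, n, ha, w, e, d, h => by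
    show (∀ (v : M.W) (k : w ≤ v) (x : M.D v), _) ↔ ∀ (v : M.W) (k : w ≤ v) (x : M.D v), _
    exact forall_congr' fun v => forall_congr' fun k => forall_congr' fun x =>
      KO.tl_iff a ha (M.g_vr_pr (M.g_vr_tr h k) x)

/-- Environments are coded by elements. -/
theorem KO.exists_code : ∀ (n : ℕ) (e : ℕ → M.D w), ∃ d, ∀ i < n, M.g (vr i) d = e i
  | 0, _ => ⟨M.z, fun i hi => absurd hi (Nat.not_lt_zero i)⟩
  | n + 1, e => by
    obtain ⟨d, hd⟩ := KO.exists_code n fun i => e (i + 1)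
    refine ⟨M.pr d (e 0), fun i hi => ?_⟩
    rw [M.g_vr_pr hd (e 0) i hi]
    cases i <;> rfl

/-- Formulas whose translation is provable hold in all models of ordinary Heyting
arithmetic. -/
theorem KO.of_prv {a : A} (h : Prv a.tl) (M : KO) (w : M.W) (e : ℕ → M.D w) : M.F a e := by
  obtain ⟨n, hn⟩ := a.exists_bd
  obtain ⟨d, hd⟩ := KO.exists_code n e
  exact (KO.tl_iff a hn hd).2 (M.sound1 h d)

end HAo
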