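import Pool.Agent.Lib.MP_61e577_lc.Ar.OrdK

/-! Syntax of ordinary Heyting arithmetic: substitutions, free variables, derived rules. -/

namespace HAo

/-! ### Substitutions -/

theorem T.sb_app (σ : ℕ → T) {n : ℕ} (f : PR n) (ts : Fin n → T) :
    (T.app f ts).sb σ = T.app f fun i => (ts i).sb σ := rfl

theorem T.sb_z (σ : ℕ → T) : T.z.sb σ = T.z := by
  unfold T.z
  rw [T.sb_app]
  congr 1
  funext i
  exact i.elim0

theorem T.sb_s (σ : ℕ → T) (t : T) : (T.s t).sb σ = T.s (t.sb σ) := rfl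

theorem T.sb_var (t : T) : t.sb T.var = t := by
  induction t with
  | var i => rfl
  | app f ts ih =>
    rw [T.sb_app]
    congr 1
    funext i
    exact ih i

theorem T.sb_sb (σ τ : ℕ → T) (t : T) : (t.sb σ).sb τ = t.sb fun i => (σ i).sb τ := by
  induction t with
  | var i => rfl
  | app f ts ih =>
    rw [T.sb_app, T.sb_app, T.sb_app]
    congr 1
    funext i
    exact ih i

theorem lf_var : lf T.var = T.var := by
  funext i
  cases i <;> rfl

theorem lf_comp (σ τ : ℕ → T) : (fun i => (lf σ i).sb (lf τ)) = lf fun i => (σ i).sb τ := by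
  funext i
  cases i with
  | zero => rfl
  | succ i =>
    change ((σ i).sb fun j => T.var (j + 1)).sb (lf τ) = ((σ i).sb τ).sb fun j => T.var (j + 1)
    rw [T.sb_sb, T.sb_sb]
    rfl

theorem A.sb_var (a : A) : a.sb T.var = a := by
  induction a with
  | eq s t => simp only [A.sb, T.sb_var]
  | bot => rfl
  | conj a b iha ihb => simp only [A.sb, iha, ihb]
  | disj a b iha ihb => simp only [A.sb, iha, ihb]
  | imp a b iha ihb => simp only [A.sb, iha, ihb]
  | ex a ih => simp only [A.sb, lf_var, ih]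
  | all a ih => simp only [A.sb, lf_var, ih]

theorem A.sb_sb (a : A) (σ τ : ℕ → T) : (a.sb σ).sb τ = a.sb fun i => (σ i).sb τ := by
  induction a generalizing σ τ with
  | eq s t => simp only [A.sb, T.sb_sb]
  | bot => rfl
  | conj a b iha ihb => simp only [A.sb, iha, ihb]
  | disj a b iha ihb => simp only [A.sb, iha, ihb]
  | imp a b iha ihb => simp only [A.sb, iha, ihb]
  | ex a ih => simp only [A.sb, ih, lf_comp]
  | all a ih => simp only [A.sb, ih, lf_comp]

theorem at0_eq (t : T) : at0 t = ec t T.var := by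
  funext i
  cases i <;> rfl

theorem lf_at0 (a : A) (σ : ℕ → T) (t : T) : (a.sb (lf σ)).sb (at0 t) = a.sb (ec t σ) := by
  rw [A.sb_sb]
  congr 1
  funext i
  cases i with
  | zero => rfl
  | succ i =>
    change ((σ i).sb fun j => T.var (j + 1)).sb (at0 t) = σ i
    rw [T.sb_sb]
    exact T.sb_var _

theorem at0_sb (a : A) (t : T) (σ : ℕ → T) : (a.sb (at0 t)).sb σ = a.sb (ec (t.sb σ) σ) := by
  rw [A.sb_sb]
  congr 1
  funext i
  cases i <;> rfl

theorem at0_sb' (a : A) (t : T) (σ : ℕ → T) :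
    (a.sb (at0 t)).sb σ = (a.sb (lf σ)).sb (at0 (t.sb σ)) := by
  rw [at0_sb, lf_at0]

theorem wk_lf (a : A) (σ : ℕ → T) : a.wk.sb (lf σ) = (a.sb σ).wk := by
  unfold A.wk
  rw [A.sb_sb, A.sb_sb]
  rfl

theorem wk_at0 (a : A) (t : T) : a.wk.sb (at0 t) = a := by
  unfold A.wk
  rw [A.sb_sb]
  exact A.sb_var a

theorem suc0_lf (a : A) (σ : ℕ → T) : (a.sb suc0).sb (lf σ) = (a.sb (lf σ)).sb suc0 := by
  rw [A.sb_sb, A.sb_sb]
  congr 1
  funext i
  cases i with
  | zero => rfl
  | succ i =>
    change ((σ i).sb fun j => T.var (j + 1)) = ((σ i).sb fun j => T.var (j + 1)).sb suc0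
    rw [T.sb_sb]
    rfl

/-! ### Free variables -/

/-- The variables of a term. -/
def T.fv : T → Set ℕ
  | var i => {i}
  | app _ ts => ⋃ i, (ts i).fv

/-- The free variables of a formula. -/
def A.fv : A → Set ℕ
  | eq s t => s.fv ∪ t.fv
  | bot => ∅
  | conj a b => a.fv ∪ b.fv
  | disj a b => a.fv ∪ b.fv
  | imp a b => a.fv ∪ b.fv
  | ex a => {i | i + 1 ∈ a.fv}
  | all a => {i | i + 1 ∈ a.fv}

theorem T.mem_fv_app {n : ℕ} {f : PR n} {ts : Fin n → T} {j : ℕ} :
    j ∈ (T.app f ts).fv ↔ ∃ i, j ∈ (ts i).fv := Set.mem_iUnion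

theorem T.sb_congr {σ τ : ℕ → T} (t : T) (h : ∀ i ∈ t.fv, σ i = τ i) : t.sb σ = t.sb τ := by
  induction t with
  | var i => exact h i rfl
  | app f ts ih =>
    rw [T.sb_app, T.sb_app]
    congr 1
    funext i
    exact ih i fun j hj => h j (T.mem_fv_app.2 ⟨i, hj⟩)

theorem A.sb_congr (a : A) {σ τ : ℕ → T} (h : ∀ i ∈ a.fv, σ i = τ i) : a.sb σ = a.sb τ := by
  induction a generalizing σ τ with
  | eq s t =>
    simp only [A.sb]
    rw [T.sb_congr s fun i hi => h i (Or.inl hi), T.sb_congr t fun i hi => h i (Or.inr hi)]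
  | bot => rfl
  | conj a b iha ihb =>
    simp only [A.sb]
    rw [iha fun i hi => h i (Or.inl hi), ihb fun i hi => h i (Or.inr hi)]
  | disj a b iha ihb =>
    simp only [A.sb]
    rw [iha fun i hi => h i (Or.inl hi), ihb fun i hi => h i (Or.inr hi)]
  | imp a b iha ihb =>
    simp only [A.sb]
    rw [iha fun i hi => h i (Or.inl hi), ihb fun i hi => h i (Or.inr hi)]
  | ex a ih =>
    simp only [A.sb]
    rw [ih]
    intro i hi
    cases i with
    | zero => rfl
    | succ i => simp only [lf]; rw [h i hi]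
  | all a ih =>
    simp only [A.sb]
    rw [ih]
    intro i hi
    cases i with
    | zero => rfl
    | succ i => simp only [lf]; rw [h i hi]

theorem T.fv_sb {σ : ℕ → T} {j : ℕ} (t : T) (h : j ∈ (t.sb σ).fv) :
    ∃ i ∈ t.fv, j ∈ (σ i).fv := by
  induction t with
  | var i => exact ⟨i, rfl, h⟩
  | app f ts ih =>
    rw [T.sb_app, T.mem_fv_app] at h
    obtain ⟨i, hi⟩ := h
    obtain ⟨l, hl, hj⟩ := ih i hi
    exact ⟨l, T.mem_fv_app.2 ⟨i, hl⟩, hj⟩

theorem fv_lf {σ : ℕ → T} {i j : ℕ} (h : j + 1 ∈ (lf σ i).fv) :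
    ∃ l, i = l + 1 ∧ j ∈ (σ l).fv := by
  cases i with
  | zero =>
    have h : j + 1 = 0 := h
    omega
  | succ l =>
    refine ⟨l, rfl, ?_⟩
    obtain ⟨m, hm, hj⟩ := T.fv_sb _ h
    have hj : j + 1 = m + 1 := hj
    obtain rfl : j = m := by omega
    exact hm

theorem A.fv_sb (a : A) {σ : ℕ → T} {j : ℕ} (h : j ∈ (a.sb σ).fv) :
    ∃ i ∈ a.fv, j ∈ (σ i).fv := by
  induction a generalizing σ j with
  | eq s t =>
    rcases h with h | h
    · obtain ⟨i, hi, hj⟩ := T.fv_sb _ h
      exact ⟨i, Or.inl hi, hj⟩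
    · obtain ⟨i, hi, hj⟩ := T.fv_sb _ h
      exact ⟨i, Or.inr hi, hj⟩
  | bot => exact absurd h (Set.notMem_empty j)
  | conj a b iha ihb =>
    rcases h with h | h
    · obtain ⟨i, hi, hj⟩ := iha h
      exact ⟨i, Or.inl hi, hj⟩
    · obtain ⟨i, hi, hj⟩ := ihb h
      exact ⟨i, Or.inr hi, hj⟩
  | disj a b iha ihb =>
    rcases h with h | h
    · obtain ⟨i, hi, hj⟩ := iha h
      exact ⟨i, Or.inl hi, hj⟩
    · obtain ⟨i, hi, hj⟩ := ihb h
      exact ⟨i, Or.inr hi, hj⟩
  | imp a b iha ihb =>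
    rcases h with h | h
    · obtain ⟨i, hi, hj⟩ := iha h
      exact ⟨i, Or.inl hi, hj⟩
    · obtain ⟨i, hi, hj⟩ := ihb h
      exact ⟨i, Or.inr hi, hj⟩
  | ex a ih =>
    obtain ⟨i, hi, hj⟩ := ih (σ := lf σ) (j := j + 1) h
    obtain ⟨l, rfl, hl⟩ := fv_lf hj
    exact ⟨l, hi, hl⟩
  | all a ih =>
    obtain ⟨i, hi, hj⟩ := ih (σ := lf σ) (j := j + 1) h
    obtain ⟨l, rfl, hl⟩ := fv_lf hj
    exact ⟨l, hi, hl⟩

theorem T.fv_finite (t : T) : t.fv.Finite := by
  induction t with
  | var i => exact Set.finite_singleton i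
  | app f ts ih => exact Set.finite_iUnion ih

theorem A.fv_finite (a : A) : a.fv.Finite := by
  induction a with
  | eq s t => exact s.fv_finite.union t.fv_finite
  | bot => exact Set.finite_empty
  | conj a b iha ihb => exact iha.union ihb
  | disj a b iha ihb => exact iha.union ihb
  | imp a b iha ihb => exact iha.union ihb
  | ex a ih => exact ih.preimage (fun x _ y _ h => by simpa using h)
  | all a ih => exact ih.preimage (fun x _ y _ h => by simpa using h)

/-! ### Derived rules -/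

theorem Pf.mono {G : List A} {a : A} (h : Pf G a) : ∀ {H : List A}, G ⊆ H → Pf H a := by
  induction h with
  | hyp h => exact fun hs => Pf.hyp (hs h)
  | botE a _ ih => exact fun hs => Pf.botE a (ih hs)
  | conjI _ _ ih1 ih2 => exact fun hs => Pf.conjI (ih1 hs) (ih2 hs)
  | conjL _ ih => exact fun hs => Pf.conjL (ih hs)
  | conjR _ ih => exact fun hs => Pf.conjR (ih hs)
  | disjL b _ ih => exact fun hs => Pf.disjL b (ih hs)
  | disjR a _ ih => exact fun hs => Pf.disjR a (ih hs)
  | disjE _ _ _ ih1 ih2 ih3 =>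
    intro H hs
    exact Pf.disjE (ih1 hs) (ih2 (List.cons_subset_cons _ hs)) (ih3 (List.cons_subset_cons _ hs))
  | impI _ ih => exact fun hs => Pf.impI (ih (List.cons_subset_cons _ hs))
  | impE _ _ ih1 ih2 => exact fun hs => Pf.impE (ih1 hs) (ih2 hs)
  | allI _ ih => exact fun hs => Pf.allI (ih (List.map_subset _ hs))
  | allE t _ ih => exact fun hs => Pf.allE t (ih hs)
  | exI t _ ih => exact fun hs => Pf.exI t (ih hs)
  | exE _ _ ih1 ih2 =>
    intro H hs
    exact Pf.exE (ih1 hs) (ih2 (List.cons_subset_cons _ (List.map_subset _ hs)))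
  | refl t => exact fun _ => Pf.refl t
  | leib a _ _ ih1 ih2 => exact fun hs => Pf.leib a (ih1 hs) (ih2 hs)
  | proj i ts => exact fun _ => Pf.proj i ts
  | comp f g ts => exact fun _ => Pf.comp f g ts
  | prec0 f g ts => exact fun _ => Pf.prec0 f g ts
  | precS f g t ts => exact fun _ => Pf.precS f g t ts
  | sZ _ ih => exact fun hs => Pf.sZ (ih hs)
  | sI _ ih => exact fun hs => Pf.sI (ih hs)
  | ind a _ _ ih1 ih2 => exact fun hs => Pf.ind a (ih1 hs) (ih2 hs)

theorem map_wk_lf (G : List A) (σ : ℕ → T) :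
    (G.map A.wk).map (A.sb (lf σ)) = (G.map (A.sb σ)).map A.wk := by
  rw [List.map_map, List.map_map]
  refine List.map_congr_left fun a _ => ?_
  exact wk_lf a σ

theorem cons_sb {n : ℕ} (t : T) (ts : Fin n → T) (σ : ℕ → T) :
    (fun i : Fin (n + 1) => ((Fin.cons t ts : Fin (n + 1) → T) i).sb σ) =
      Fin.cons (t.sb σ) fun i => (ts i).sb σ := by
  funext i
  refine Fin.cases ?_ (fun i => ?_) i
  · rfl
  · rfl

theorem Pf.subst {G : List A} {a : A} (h : Pf G a) :
    ∀ σ : ℕ → T, Pf (G.map (A.sb σ)) (a.sb σ) := by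
  induction h with
  | hyp h => exact fun σ => Pf.hyp (List.mem_map_of_mem h)
  | botE a _ ih => exact fun σ => Pf.botE _ (ih σ)
  | conjI _ _ ih1 ih2 => exact fun σ => Pf.conjI (ih1 σ) (ih2 σ)
  | conjL _ ih => exact fun σ => Pf.conjL (ih σ)
  | conjR _ ih => exact fun σ => Pf.conjR (ih σ)
  | disjL b _ ih => exact fun σ => Pf.disjL _ (ih σ)
  | disjR a _ ih => exact fun σ => Pf.disjR _ (ih σ)
  | disjE _ _ _ ih1 ih2 ih3 => exact fun σ => Pf.disjE (ih1 σ) (ih2 σ) (ih3 σ)
  | impI _ ih => exact fun σ => Pf.impI (ih σ)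
  | impE _ _ ih1 ih2 => exact fun σ => Pf.impE (ih1 σ) (ih2 σ)
  | allI _ ih =>
    intro σ
    refine Pf.allI ?_
    rw [← map_wk_lf]
    exact ih (lf σ)
  | allE t _ ih =>
    intro σ
    rw [at0_sb']
    exact Pf.allE _ (ih σ)
  | exI t _ ih =>
    intro σ
    refine Pf.exI (t.sb σ) ?_
    rw [← at0_sb']
    exact ih σ
  | exE _ _ ih1 ih2 =>
    intro σ
    refine Pf.exE (ih1 σ) ?_
    rw [← map_wk_lf, ← wk_lf]
    exact ih2 (lf σ)
  | refl t => exact fun σ => Pf.refl _
  | leib a _ _ ih1 ih2 =>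
    intro σ
    rw [at0_sb']
    refine Pf.leib (a.sb (lf σ)) (ih1 σ) ?_
    rw [← at0_sb']
    exact ih2 σ
  | proj i ts => exact fun σ => Pf.proj i _
  | comp f g ts => exact fun σ => Pf.comp f g _
  | @prec0 G n f g ts =>
    intro σ
    have h := Pf.prec0 (G := List.map (A.sb σ) G) f g fun i => (ts i).sb σ
    rw [← T.sb_z σ, ← cons_sb] at h
    exact h
  | @precS G n f g t ts =>
    intro σ
    have h := Pf.precS (G := List.map (A.sb σ) G) f g (t.sb σ) fun i => (ts i).sb σ
    rw [← T.sb_s, ← cons_sb, ← cons_sb, ← T.sb_app, ← T.sb_app, ← cons_sb, ← cons_sb] at h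
    exact h
  | sZ _ ih =>
    intro σ
    have h := ih σ
    simp only [A.sb, T.sb_z] at h
    exact Pf.sZ h
  | sI _ ih => exact fun σ => Pf.sI (ih σ)
  | ind a _ _ ih1 ih2 =>
    intro σ
    refine Pf.ind (a.sb (lf σ)) ?_ ?_
    · have h := ih1 σ
      rwa [at0_sb', T.sb_z] at h
    · have h := ih2 σ
      simp only [A.sb] at h
      rwa [suc0_lf] at h

/-! ### Equality -/

theorem T.sh_at0 (s t : T) : (s.sb fun j => T.var (j + 1)).sb (at0 t) = s := by
  rw [T.sb_sb]
  exact T.sb_var s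

theorem Pf.symm {G : List A} {s t : T} (h : Pf G (A.eq s t)) : Pf G (A.eq t s) := by
  have h1 := Pf.leib (A.eq (T.var 0) (s.sb fun j => T.var (j + 1))) h
    (by simp only [A.sb, T.sh_at0]; exact Pf.refl s)
  simp only [A.sb, T.sh_at0] at h1
  exact h1

theorem Pf.trans {G : List A} {s t u : T} (h : Pf G (A.eq s t)) (h' : Pf G (A.eq t u)) :
    Pf G (A.eq s u) := by
  have h1 := Pf.leib (A.eq (s.sb fun j => T.var (j + 1)) (T.var 0)) h'
    (by simp only [A.sb, T.sh_at0]; exact h)
  simp only [A.sb, T.sh_at0] at h1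
  exact h1

theorem Pf.congr {G : List A} {n : ℕ} (f : PR n) {ts us : Fin n → T}
    (h : ∀ i, Pf G (A.eq (ts i) (us i))) : Pf G (A.eq (T.app f ts) (T.app f us)) := by
  have key : ∀ k : ℕ, Pf G (A.eq (T.app f ts)
      (T.app f fun i : Fin n => if (i : ℕ) < k then us i else ts i)) := by
    intro k
    induction k with
    | zero =>
      simp only [not_lt_zero, if_false]
      exact Pf.refl _
    | succ k ih =>
      by_cases hk : k < n
      · have h1 := Pf.leib (A.eq ((T.app f ts).sb fun j => T.var (j + 1))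
          (T.app f fun i : Fin n => if (i : ℕ) < k then (us i).sb fun j => T.var (j + 1) else
            if (i : ℕ) = k then T.var 0 else (ts i).sb fun j => T.var (j + 1))) (h ⟨k, hk⟩) (by
          simp only [A.sb, T.sh_at0]
          convert ih using 2
          rw [T.sb_app]
          congr 1
          funext i
          by_cases h1 : (i : ℕ) < k
          · simp only [h1, if_true, T.sh_at0]
          · by_cases h2 : (i : ℕ) = k
            · have h3 : i = ⟨k, hk⟩ := Fin.ext h2
              subst h3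
              simp only [lt_irrefl, if_false, if_true]
              rfl
            · simp only [h1, h2, if_false, T.sh_at0])
        simp only [A.sb, T.sh_at0] at h1
        convert h1 using 2
        rw [T.sb_app]
        congr 1
        funext i
        by_cases h1 : (i : ℕ) < k
        · have h4 : (i : ℕ) < k + 1 := by omega
          simp only [h1, h4, if_true, T.sh_at0]
        · by_cases h2 : (i : ℕ) = k
          · have h3 : i = ⟨k, hk⟩ := Fin.ext h2
            subst h3
            have h4 : k < k + 1 := by omega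
            simp only [lt_irrefl, if_false, h4, if_true]
            rfl
          · have h4 : ¬ (i : ℕ) < k + 1 := by omega
            simp only [h1, h2, h4, if_false, T.sh_at0]
      · have h1 : (fun i : Fin n => if (i : ℕ) < k + 1 then us i else ts i) =
            fun i : Fin n => if (i : ℕ) < k then us i else ts i := by
          funext i
          have := i.2
          rw [if_pos (by omega), if_pos (by omega)]
        rw [h1]
        exact ih
  have h1 := key n
  have h2 : (fun i : Fin n => if (i : ℕ) < n then us i else ts i) = us := by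
    funext i
    rw [if_pos i.2]
  rwa [h2] at h1

/-! ### Fresh variables -/

/-- The substitution which replaces the variable `c` by 0 and shifts the others. -/
def fr (c : ℕ) (i : ℕ) : T := if i = c then T.var 0 else T.var (i + 1)

theorem sb_fr {a : A} {c : ℕ} (h : c ∉ a.fv) : a.sb (fr c) = a.wk := by
  refine A.sb_congr a fun i hi => ?_
  have : i ≠ c := fun e => h (e ▸ hi)
  simp only [fr, this, if_false]

theorem at0_fr {a : A} {c : ℕ} (h : c + 1 ∉ a.fv) : (a.sb (at0 (T.var c))).sb (fr c) = a := by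
  rw [at0_sb]
  refine (A.sb_congr a (τ := T.var) fun i hi => ?_).trans (A.sb_var a)
  cases i with
  | zero =>
    change fr c c = T.var 0
    simp only [fr, if_true]
  | succ i =>
    change fr c i = T.var (i + 1)
    have : i ≠ c := fun e => h (e ▸ hi)
    simp only [fr, this, if_false]

theorem map_fr {G : List A} {c : ℕ} (h : ∀ g ∈ G, c ∉ A.fv g) :
    G.map (A.sb (fr c)) = G.map A.wk :=
  List.map_congr_left fun g hg => sb_fr (h g hg)

/-- Generalisation of a fresh variable. -/
theorem Pf.gen {G : List A} {a : A} {c : ℕ} (hG : ∀ g ∈ G, c ∉ A.fv g) (ha : c + 1 ∉ a.fv)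
    (h : Pf G (a.sb (at0 (T.var c)))) : Pf G (A.all a) := by
  have h1 := h.subst (fr c)
  rw [map_fr hG, at0_fr ha] at h1
  exact Pf.allI h1

/-- Elimination of a fresh witness. -/
theorem Pf.wit {G : List A} {a b : A} {c : ℕ} (hG : ∀ g ∈ G, c ∉ A.fv g) (ha : c + 1 ∉ a.fv)
    (hb : c ∉ b.fv) (h0 : Pf G (A.ex a)) (h : Pf (a.sb (at0 (T.var c)) :: G) b) : Pf G b := by
  have h1 := h.subst (fr c)
  rw [List.map_cons, map_fr hG, at0_fr ha, sb_fr hb] at h1
  exact Pf.exE h0 h1

theorem Pf.cut {G : List A} {a b : A} (h : Pf (a :: G) b) (h0 : Pf G a) : Pf G b :=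
  Pf.impE (Pf.impI h) h0

end HAo
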