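import Pool.Agent.Lib.MP_61e577_lc.Ar.Enc

/-! Reducts of models, and functions and formulas without metavariables. -/

namespace HAr

open Fn Fm

variable {V U : Type} {M : Kr V} {w : M.W}

/-- The data of the reduct of a model along an interpretation of the metavariables. -/
def Kr.redD (N : Kr V) (r : U → Fn V) (t : U → Fm V) : KD U where
  W := N.W
  D := N.D
  tr := N.tr
  fn := fun f => N.fn (f.ms r)
  pr := N.pr
  zr := N.zr
  pm := fun i _ d => N.F (t i) d

theorem Kr.redD_F (N : Kr V) (r : U → Fn V) (t : U → Fm V) (P : Fm U) {w : N.W} (d : N.D w) :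
    (N.redD r t).F P (w := w) d ↔ N.F (P.ms r t) d := by
  induction P generalizing w with
  | mv i => exact Iff.rfl
  | eq f g => exact Iff.rfl
  | bot => exact Iff.rfl
  | conj P Q hP hQ => exact and_congr (hP d) (hQ d)
  | disj P Q hP hQ => exact or_congr (hP d) (hQ d)
  | imp P Q hP hQ => exact forall_congr' fun v => forall_congr' fun h => imp_congr (hP _) (hQ _)
  | ex P hP => exact exists_congr fun e => hP _
  | all P hP => exact forall_congr' fun v => forall_congr' fun h => forall_congr' fun e => hP _
  | sub P f hP => exact hP _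

/-- The reduct of a model along an interpretation of the metavariables. -/
def Kr.red (N : Kr V) (r : U → Fn V) (t : U → Fm V) : Kr U where
  toKD := N.redD r t
  tr_refl := N.tr_refl
  tr_tr := N.tr_tr
  tr_fn := fun h f d => N.tr_fn h (f.ms r) d
  tr_pr := N.tr_pr
  pm_mono := fun h i d => N.mono (t i) h d
  fn_idn := N.fn_idn
  fn_zero := N.fn_zero
  fn_comp := fun f g d => N.fn_comp (f.ms r) (g.ms r) d
  fn_pair := fun f g d => N.fn_pair (f.ms r) (g.ms r) d
  left_pr := N.left_pr
  right_pr := N.right_pr
  pr_eta := N.pr_eta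
  pr_zr := N.pr_zr
  succ_pr := N.succ_pr
  succ_pr_zr := N.succ_pr_zr
  prec_zr := fun f g a => N.prec_zr (f.ms r) (g.ms r) a
  prec_succ := fun f g a n => N.prec_succ (f.ms r) (g.ms r) a n
  trec_zr := fun f g a => N.trec_zr (f.ms r) (g.ms r) a
  trec_succ := fun f g a n => N.trec_succ (f.ms r) (g.ms r) a n
  succ_ne := N.succ_ne
  succ_inj := N.succ_inj
  ind := by
    intro P w a h0 hS n
    refine (N.redD_F r t P (w := w) (N.pr a n)).2 ?_
    refine N.ind (P.ms r t) a ((N.redD_F r t P _).1 h0) (fun h m hm => ?_) n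
    exact (N.redD_F r t P _).1 (hS h m ((N.redD_F r t P _).2 hm))

/-- Provable formulas without metavariables are provable with metavariables. -/
theorem Prv.li {P : Fm Empty} (h : Prv P) : Prv (P.li : Fm V) := h.ms _ _

theorem Fn.li_ms (r : V → Fn Empty) (f : Fn Empty) : (f.li : Fn V).ms r = f := by
  induction f with
  | mv i => exact i.elim
  | idn => rfl
  | zero => rfl
  | succ => rfl
  | left => rfl
  | right => rfl
  | pair f g hf hg => exact congrArg₂ pair hf hg
  | comp f g hf hg => exact congrArg₂ comp hf hg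
  | prec f g hf hg => exact congrArg₂ prec hf hg
  | trec f g hf hg => exact congrArg₂ trec hf hg

theorem Fm.li_ms (r : V → Fn Empty) (t : V → Fm Empty) (P : Fm Empty) :
    (P.li : Fm V).ms r t = P := by
  induction P with
  | mv i => exact i.elim
  | eq f g => exact congrArg₂ eq (Fn.li_ms r f) (Fn.li_ms r g)
  | bot => rfl
  | conj P Q hP hQ => exact congrArg₂ conj hP hQ
  | disj P Q hP hQ => exact congrArg₂ disj hP hQ
  | imp P Q hP hQ => exact congrArg₂ imp hP hQ
  | ex P hP => exact congrArg ex hP
  | all P hP => exact congrArg all hP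
  | sub P f hP => exact congrArg₂ sub hP (Fn.li_ms r f)

/-- Formulas without metavariables which hold in all models are provable. -/
theorem prv_of_li {P : Fm Empty} (h : Prv (P.li : Fm V)) : Prv P := by
  refine complete fun N w d => ?_
  have h1 := Kr.sound (M := N.red (fun _ : V => idn) (fun _ => bot)) h (w := w) d
  have h2 := (N.redD_F (fun _ : V => idn) (fun _ => bot) P.li d).1 h1
  rwa [Fm.li_ms] at h2

section
variable {f g : Fn Empty} {P Q : Fm Empty}
@[simp] theorem li_idn : (idn : Fn Empty).li = (idn : Fn V) := rfl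
@[simp] theorem li_zero : (zero : Fn Empty).li = (zero : Fn V) := rfl
@[simp] theorem li_succ : (succ : Fn Empty).li = (succ : Fn V) := rfl
@[simp] theorem li_left : (left : Fn Empty).li = (left : Fn V) := rfl
@[simp] theorem li_right : (right : Fn Empty).li = (right : Fn V) := rfl
@[simp] theorem li_pair : (pair f g).li = (pair f.li g.li : Fn V) := rfl
@[simp] theorem li_comp : (comp f g).li = (comp f.li g.li : Fn V) := rfl
@[simp] theorem li_prec : (prec f g).li = (prec f.li g.li : Fn V) := rfl
@[simp] theorem li_trec : (trec f g).li = (trec f.li g.li : Fn V) := rfl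
@[simp] theorem li_eq : (eq f g).li = (eq f.li g.li : Fm V) := rfl
@[simp] theorem li_bot : (bot : Fm Empty).li = (bot : Fm V) := rfl
@[simp] theorem li_conj : (conj P Q).li = (conj P.li Q.li : Fm V) := rfl
@[simp] theorem li_disj : (disj P Q).li = (disj P.li Q.li : Fm V) := rfl
@[simp] theorem li_imp : (imp P Q).li = (imp P.li Q.li : Fm V) := rfl
@[simp] theorem li_ex : (ex P).li = (ex P.li : Fm V) := rfl
@[simp] theorem li_all : (all P).li = (all P.li : Fm V) := rfl
@[simp] theorem li_sub : (sub P f).li = (sub P.li f.li : Fm V) := rfl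
@[simp] theorem li_cst (k : ℕ) : (cst k : Fn Empty).li = (cst k : Fn V) := by
  induction k with
  | zero => rfl
  | succ k ih => exact congrArg (comp succ) ih
@[simp] theorem li_ndF (k : ℕ) : (ndF k f g).li = (ndF k f.li g.li : Fn V) := by
  simp [ndF]
@[simp] theorem li_predF : (predF : Fn Empty).li = (predF : Fn V) := rfl
@[simp] theorem li_addF : (addF : Fn Empty).li = (addF : Fn V) := rfl
@[simp] theorem li_monF : (monF : Fn Empty).li = (monF : Fn V) := rfl
@[simp] theorem li_dstF : (dstF : Fn Empty).li = (dstF : Fn V) := rfl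
@[simp] theorem li_hdF : (hdF : Fn Empty).li = (hdF : Fn V) := rfl
@[simp] theorem li_tlF : (tlF : Fn Empty).li = (tlF : Fn V) := rfl
@[simp] theorem li_nfnF : (nfnF : Fn Empty).li = (nfnF : Fn V) := rfl
@[simp] theorem li_nfmF : (nfmF : Fn Empty).li = (nfmF : Fn V) := rfl
@[simp] theorem li_topF : (topF : Fn Empty).li = (topF : Fn V) := rfl
@[simp] theorem li_mpF : (mpF : Fn Empty).li = (mpF : Fn V) := rfl
@[simp] theorem li_exEF : (exEF : Fn Empty).li = (exEF : Fn V) := rfl
@[simp] theorem li_allIF : (allIF : Fn Empty).li = (allIF : Fn V) := rfl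
@[simp] theorem li_prj (k : ℕ) : (prj k : Fn Empty).li = (prj k : Fn V) := by
  induction k with
  | zero => rfl
  | succ k ih => exact congrArg (fun f => comp f right) ih
@[simp] theorem li_ifz : (ifz f g).li = (ifz f.li g.li : Fn V) := rfl
@[simp] theorem li_frec : (frec f g).li = (frec f.li g.li : Fn V) := rfl
@[simp] theorem li_sw (fs : List (Fn Empty)) :
    (sw fs g).li = (sw (fs.map Fn.li) g.li : Fn V) := by
  induction fs with
  | nil => rfl
  | cons f fs ih => exact congrArg (ifz f.li) ih
@[simp] theorem li_cdf (ρ : U → Fn Empty) (h : Fn U) :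
    (cdf ρ h).li = (cdf (fun i => (ρ i).li) h : Fn V) := by
  induction h with
  | mv i => rfl
  | _ => simp_all [cdf]
@[simp] theorem li_cdm (ρ τ : U → Fn Empty) (h : Fm U) :
    (cdm ρ τ h).li = (cdm (fun i => (ρ i).li) (fun i => (τ i).li) h : Fn V) := by
  induction h with
  | mv i => rfl
  | _ => simp_all [cdm]
@[simp] theorem li_cnd (t : Fn Empty) : (cnd t f g).li = (cnd t.li f.li g.li : Fn V) := rfl
@[simp] theorem li_cnq (s t : Fn Empty) : (cnq s t f g).li = (cnq s.li t.li f.li g.li : Fn V) :=
  rfl
@[simp] theorem li_axmF : (axmF : Fn Empty).li = (axmF : Fn V) := by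
  unfold axmF
  rw [li_sw, List.map_map, li_topF]
  refine congrArg (fun l => sw l topF) ?_
  refine List.map_congr_left fun h _ => ?_
  simp only [Function.comp_apply, li_cdm, li_comp, li_nfnF, li_nfmF, li_prj]
@[simp] theorem li_conclF : (conclF : Fn Empty).li = (conclF : Fn V) := by
  unfold conclF
  simp only [li_comp, li_frec, li_sw, li_pair, li_left, li_right, li_zero, li_idn, li_topF, ccL,
    List.map_cons, List.map_nil, li_axmF, li_mpF, li_ndF, li_nfnF, li_tlF, li_exEF, li_allIF]
@[simp] theorem li_prT : (prT f).li = (prT f.li : Fm V) := by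
  simp [prT]
@[simp] theorem li_leT : (leT f g).li = (leT f.li g.li : Fm V) := rfl
end

end HAr
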