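import Pool.Agent.Lib.MP_61e577_lc.Ar.Refl
import Pool.Agent.Lib.MP_61e577_lc.Ar.BtT

/-! Reflection for instance provability. -/

namespace HAr

open Fn Fm

variable {V : Type} {M : Kr V} {w : M.W}

theorem Kr.Pv_tc : M.Pv (M.tc (w := w)) := Kr.Pv_ax M.isAx_tc

/-- The identity is a translation. -/
theorem trH_id (e : M.D w) :
    TrH M right topF (ndF 1 zero zero) (eq zero zero) e where
  gT := by
    intro a ha
    rwa [M.right_pr]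
  gB := by
    intro a ha
    simp
  gR := by simp
  Rs1 := by
    intro f hf
    simp only [Kr.fn_ndF, M.fn_zero]
    exact Kr.q_btsb hf
  Rs2 := by
    intro f hf
    simp only [Kr.fn_ndF, M.fn_zero]
    exact Kr.q_bt (Kr.gm_sbc.2 ⟨Kr.gm_btc, hf⟩)
  T_eq1 := by
    intro f g hf hg
    simp only [M.right_pr, Kr.fn_ndF, M.fn_zero]
    exact Kr.q_inl (Kr.gm_eqc.2 ⟨hf, hg⟩) Kr.gm_btc
  T_eq2 := by
    intro f g hf hg
    simp only [M.right_pr, Kr.fn_ndF, M.fn_zero]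
    have h1 := Kr.gm_eqc.2 ⟨hf, hg⟩
    exact Kr.q_djE (Kr.q_id h1) (Kr.q_bt h1)
  T_bt := by simp
  T_cj := by
    intro a b
    simp
  T_dj := by
    intro a b
    simp
  T_ex := by
    intro a
    simp
  T_sb := by
    intro a f
    simp
  T_im1 := by
    intro a b ha hb
    simp only [M.right_pr, Kr.fn_topF]
    have h := Kr.gm_im.2 ⟨ha, hb⟩
    exact Kr.q_cj (Kr.q_id h) (Kr.Pv_k h Kr.Pv_tc)
  T_im2 := by
    intro a b ha hb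
    simp only [M.right_pr, Kr.fn_topF]
    exact Kr.q_fst (Kr.gm_im.2 ⟨ha, hb⟩) (Kr.Pv_gm Kr.Pv_tc)
  T_al1 := by
    intro a ha
    simp only [M.right_pr, Kr.fn_topF]
    have h := Kr.gm_alc.2 ha
    exact Kr.q_cj (Kr.q_id h) (Kr.Pv_k h Kr.Pv_tc)
  T_al2 := by
    intro a ha
    simp only [M.right_pr, Kr.fn_topF]
    exact Kr.q_fst (Kr.gm_alc.2 ha) (Kr.Pv_gm Kr.Pv_tc)
  sm2 := fun _ _ _ _ _ _ => ⟨rfl, rfl⟩
  sm1 := fun _ _ _ _ _ _ => rfl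
  B_mp := by
    intro a b ha hb _
    simp only [Kr.fn_topF]
    exact Kr.Pv_k (Kr.Pv_gm Kr.Pv_tc) (Kr.Pv_k (Kr.Pv_gm Kr.Pv_tc) Kr.Pv_tc)
  B_cj := by
    intro a b ha hb _
    simp only [Kr.fn_topF]
    exact Kr.Pv_k (Kr.Pv_gm Kr.Pv_tc) (Kr.Pv_k (Kr.Pv_gm Kr.Pv_tc) Kr.Pv_tc)
  B_dj1 := by
    intro a b ha hb _
    simp only [Kr.fn_topF]
    exact Kr.Pv_k (Kr.Pv_gm Kr.Pv_tc) Kr.Pv_tc
  B_dj2 := by
    intro a b ha hb _
    simp only [Kr.fn_topF]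
    exact Kr.Pv_k (Kr.Pv_gm Kr.Pv_tc) Kr.Pv_tc
  B_ex := by
    intro a ha _
    simp only [Kr.fn_topF]
    exact Kr.Pv_k (Kr.Pv_gm Kr.Pv_tc) (Kr.Pv_sb Kr.Pv_tc M.gf3)
  B_sb1 := by
    intro a f ha hf _
    simp only [Kr.fn_topF]
    exact Kr.Pv_k (Kr.gm_sbc.2 ⟨Kr.Pv_gm Kr.Pv_tc, hf⟩) Kr.Pv_tc
  B_sb2 := by
    intro a f ha hf _
    simp only [Kr.fn_topF]
    exact Kr.Pv_k (Kr.Pv_gm Kr.Pv_tc) (Kr.Pv_sb Kr.Pv_tc hf)
  B_eq := by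
    intro f g hf hg _
    simp only [Kr.fn_topF]
    exact Kr.Pv_k (Kr.gm_eqc.2 ⟨hf, hg⟩) Kr.Pv_tc
  B_R := by
    intro a ha
    simp only [Kr.fn_ndF, M.fn_zero, Kr.fn_topF]
    exact Kr.q_bt (Kr.Pv_gm Kr.Pv_tc)

/-- Reflection for instance provability. -/
theorem Kr.refl_id {n F z : M.D w} (hF : M.gm F) (hi : M.inv F) (hz : M.gm z) :
    M.Pv (M.im (M.iC n F z) (M.im F z)) := by
  have h := TrH.refl (M := M) (tF := right) (BF := topF) (RF := ndF 1 zero zero)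
    (Sm := eq zero zero) (e := M.zr (w := w)) (n := n) (F := F) (z := z)
    (fun v h => trH_id _) hF (by rwa [M.right_pr]) (fun v h p _ _ => ⟨p, by rw [M.right_pr]⟩) hz
  rwa [M.right_pr, M.right_pr] at h

/-- The code of truth is invariant. -/
theorem Kr.inv_tc : M.inv (M.tc (w := w)) :=
  Kr.Pv_allI (Kr.Pv_k (Kr.gm_sbc.2 ⟨Kr.Pv_gm Kr.Pv_tc, M.gf3⟩)
    (Kr.Pv_sb Kr.Pv_tc (M.gf_small (by norm_num))))

/-- Reflection for instance provability without assumption. -/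
theorem Kr.refl_tc {n z : M.D w} (hz : M.gm z) : M.Pv (M.im (M.iC n M.tc z) z) :=
  Kr.Pv_s (Kr.refl_id (Kr.Pv_gm Kr.Pv_tc) Kr.inv_tc hz) (Kr.Pv_k (M.gm_iC _ _ _) Kr.Pv_tc)

end HAr
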