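import Pool.Agent.Lib.MP_61e577_lc.Ar.Concl
import Pool.Agent.Lib.MP_61e577_lc.Ar.Complete

/-! Semantic rules: a scheme which follows from others in all Kripke models gives a rule for
internal provability. -/

namespace HAr

open Fn Fm

variable {V U : Type} {M : Kr V} {w : M.W}

/-- `phi` follows from the schemes `hyps`, which are assumed at all later worlds for all
arguments. -/
def Sem {U : Type} (hyps : List (Fm U)) (φ : Fm U) : Prop :=
  ∀ (N : Kr U) (w : N.W), (∀ ψ ∈ hyps, ∀ (v : N.W) (_ : w ≤ v) (e : N.D v), N.F ψ e) →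
    ∀ d : N.D w, N.F φ d

theorem Kr.F_all' {N : Kr U} {w : N.W} {P : Fm U} {d : N.D w} :
    N.F (all (sub P right)) d ↔ ∀ (v : N.W) (_ : w ≤ v) (e : N.D v), N.F P e := by
  constructor
  · intro h v k e
    have := h v k e
    simpa [KD.F] using this
  · intro h v k e
    have := h v k e
    simpa [KD.F] using this

/-- The semantic rule for internal provability. -/
theorem Kr.rule [Countable U] : ∀ (hyps : List (Fm U)) (φ : Fm U), Sem hyps φ →
    ∀ {M : Kr V} {w : M.W} {ρ τ : U → M.D w}, (∀ i, M.gf (ρ i)) → (∀ i, M.gm (τ i)) →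
    (∀ ψ ∈ hyps, M.Pv (M.icm ρ τ ψ)) → M.Pv (M.icm ρ τ φ)
  | [], φ, h, M, w, ρ, τ, hρ, hτ, _ => by
    refine Kr.D1 (complete fun N w d => ?_) hρ hτ
    exact h N w (fun ψ hψ => absurd hψ (by simp)) d
  | ψ :: hs, φ, h, M, w, ρ, τ, hρ, hτ, hh => by
    have h1 : M.Pv (M.icm ρ τ (imp (all (sub ψ right)) φ)) := by
      refine Kr.rule hs _ ?_ hρ hτ (fun χ hχ => hh χ (List.mem_cons_of_mem _ hχ))
      intro N w hN d v k h2
      rw [Kr.F_all'] at h2
      refine h N v (fun χ hχ u l e => ?_) _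
      rcases List.mem_cons.1 hχ with rfl | hχ
      · exact h2 u l e
      · exact hN χ hχ u (k.trans l) e
    refine Kr.Pv_mp h1 ?_
    have h3 : M.Pv (M.sbc (M.icm ρ τ ψ) (M.nd 4 M.zr M.zr)) :=
      Kr.Pv_sb (hh ψ (List.mem_cons_self ..)) (M.gf_small (by norm_num))
    have h4 : M.Pv (M.im (M.sbc M.tc M.lc) (M.sbc (M.icm ρ τ ψ) (M.nd 4 M.zr M.zr))) := by
      have h5 : M.Pv (M.icm ρ τ (imp (sub ψ right) (imp (sub (eq zero zero) left)
        (sub ψ right)))) := Kr.D1 (Prv.ax (Ax.k _ _)) hρ hτ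
      exact Kr.Pv_mp h5 h3
    exact Kr.Pv_mp (Kr.Pv_allI h4) (Kr.Pv_ax M.isAx_tc)

/-- The semantic rule for provability. -/
theorem ruleE [Countable U] : ∀ (hyps : List (Fm U)) (φ : Fm U), Sem hyps φ →
    (∀ ψ ∈ hyps, Prv ψ) → Prv φ
  | hyps, φ, h, hh => by
    refine complete fun N w d => ?_
    exact h N w (fun ψ hψ v _ e => N.sound (hh ψ hψ) e) d

end HAr
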