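import Pool.Agent.Lib.MP_61e577_lc.Ar.Nf

/-! Metavariable substitution, the list of axiom schemes, codes of instances. -/

namespace HAr

open Fn Fm

variable {V U : Type}

/-- Substitution for metavariables in functions. -/
def Fn.ms (ρ : U → Fn V) : Fn U → Fn V
  | .mv i => ρ i
  | idn => idn
  | zero => zero
  | succ => succ
  | left => left
  | right => right
  | pair f g => pair (f.ms ρ) (g.ms ρ)
  | comp f g => comp (f.ms ρ) (g.ms ρ)
  | prec f g => prec (f.ms ρ) (g.ms ρ)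
  | trec f g => trec (f.ms ρ) (g.ms ρ)

/-- Substitution for metavariables in formulas. -/
def Fm.ms (ρ : U → Fn V) (τ : U → Fm V) : Fm U → Fm V
  | .mv i => τ i
  | eq f g => eq (f.ms ρ) (g.ms ρ)
  | bot => bot
  | conj P Q => conj (P.ms ρ τ) (Q.ms ρ τ)
  | disj P Q => disj (P.ms ρ τ) (Q.ms ρ τ)
  | imp P Q => imp (P.ms ρ τ) (Q.ms ρ τ)
  | ex P => ex (P.ms ρ τ)
  | all P => all (P.ms ρ τ)
  | sub P f => sub (P.ms ρ τ) (f.ms ρ)

/-- The schemes are axioms. -/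
theorem axs_ax (k : ℕ) (hk : k < 47) (ρ : ℕ → Fn V) (τ : ℕ → Fm V) :
    Ax ((axs[k]'hk).ms ρ τ) := by
  interval_cases k
  · exact Ax.k _ _
  all_goals first
    | exact Ax.s _ _ _ | exact Ax.andI _ _ | exact Ax.andL _ _ | exact Ax.andR _ _
    | exact Ax.orL _ _ | exact Ax.orR _ _ | exact Ax.orE _ _ _ | exact Ax.botE _
    | exact Ax.exI _ | exact Ax.allE _ | exact Ax.subImp _ _ _ | exact Ax.impSub _ _ _
    | exact Ax.subOr _ _ _ | exact Ax.subBot _ | exact Ax.subEx _ _ | exact Ax.allSub _ _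
    | exact Ax.subEq _ _ _ | exact Ax.eqSub _ _ _ | exact Ax.subSub _ _ _
    | exact Ax.subComp _ _ _ | exact Ax.subId _ | exact Ax.idSub _ | exact Ax.refl _
    | exact Ax.symm _ _ | exact Ax.trans _ _ _ | exact Ax.congP _ _ _ _
    | exact Ax.congC _ _ _ | exact Ax.leib _ _ _ | exact Ax.compA _ _ _ | exact Ax.idL _
    | exact Ax.idR _ | exact Ax.zeroC _ | exact Ax.leftP _ _ | exact Ax.rightP _ _
    | exact Ax.pairC _ _ _ | exact Ax.pairE | exact Ax.p00 | exact Ax.pS | exact Ax.p0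
    | exact Ax.prec0 _ _ | exact Ax.precS _ _ | exact Ax.trec0 _ _ | exact Ax.trecS _ _
    | exact Ax.sZ | exact Ax.sI | exact Ax.ind _

/-- Assignments given by the first four values. -/
def as4 {X : Type} (a b c d : X) : ℕ → X
  | 0 => a
  | 1 => b
  | 2 => c
  | _ => d

/-- Every axiom is an instance of a scheme. -/
theorem ax_axs {P : Fm V} (h : Ax P) : ∃ (k : ℕ) (hk : k < 47) (ρ : ℕ → Fn V) (τ : ℕ → Fm V),
    P = (axs[k]'hk).ms ρ τ := by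
  cases h with
  | k P Q => exact ⟨0, by decide, as4 idn idn idn idn, as4 P Q Q Q, rfl⟩
  | s P Q R => exact ⟨1, by decide, as4 idn idn idn idn, as4 P Q R R, rfl⟩
  | andI P Q => exact ⟨2, by decide, as4 idn idn idn idn, as4 P Q Q Q, rfl⟩
  | andL P Q => exact ⟨3, by decide, as4 idn idn idn idn, as4 P Q Q Q, rfl⟩
  | andR P Q => exact ⟨4, by decide, as4 idn idn idn idn, as4 P Q Q Q, rfl⟩
  | orL P Q => exact ⟨5, by decide, as4 idn idn idn idn, as4 P Q Q Q, rfl⟩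
  | orR P Q => exact ⟨6, by decide, as4 idn idn idn idn, as4 P Q Q Q, rfl⟩
  | orE P Q R => exact ⟨7, by decide, as4 idn idn idn idn, as4 P Q R R, rfl⟩
  | botE P => exact ⟨8, by decide, as4 idn idn idn idn, as4 P P P P, rfl⟩
  | exI P => exact ⟨9, by decide, as4 idn idn idn idn, as4 P P P P, rfl⟩
  | allE P => exact ⟨10, by decide, as4 idn idn idn idn, as4 P P P P, rfl⟩
  | subImp P Q f => exact ⟨11, by decide, as4 f f f f, as4 P Q Q Q, rfl⟩
  | impSub P Q f => exact ⟨12, by decide, as4 f f f f, as4 P Q Q Q, rfl⟩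
  | subOr P Q f => exact ⟨13, by decide, as4 f f f f, as4 P Q Q Q, rfl⟩
  | subBot f => exact ⟨14, by decide, as4 f f f f, as4 bot bot bot bot, rfl⟩
  | subEx P f => exact ⟨15, by decide, as4 f f f f, as4 P P P P, rfl⟩
  | allSub P f => exact ⟨16, by decide, as4 f f f f, as4 P P P P, rfl⟩
  | subEq f g h => exact ⟨17, by decide, as4 f g h h, as4 bot bot bot bot, rfl⟩
  | eqSub f g h => exact ⟨18, by decide, as4 f g h h, as4 bot bot bot bot, rfl⟩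
  | subSub P f g => exact ⟨19, by decide, as4 f f g g, as4 P P P P, rfl⟩
  | subComp P f g => exact ⟨20, by decide, as4 f f g g, as4 P P P P, rfl⟩
  | subId P => exact ⟨21, by decide, as4 idn idn idn idn, as4 P P P P, rfl⟩
  | idSub P => exact ⟨22, by decide, as4 idn idn idn idn, as4 P P P P, rfl⟩
  | refl f => exact ⟨23, by decide, as4 f f f f, as4 bot bot bot bot, rfl⟩
  | symm f g => exact ⟨24, by decide, as4 f g g g, as4 bot bot bot bot, rfl⟩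
  | trans f g h => exact ⟨25, by decide, as4 f g h h, as4 bot bot bot bot, rfl⟩
  | congP f f' g g' => exact ⟨26, by decide, as4 f f' g g', as4 bot bot bot bot, rfl⟩
  | congC f g g' => exact ⟨27, by decide, as4 f g g' g', as4 bot bot bot bot, rfl⟩
  | leib P f g => exact ⟨28, by decide, as4 f f g g, as4 P P P P, rfl⟩
  | compA f g h => exact ⟨29, by decide, as4 f g h h, as4 bot bot bot bot, rfl⟩
  | idL f => exact ⟨30, by decide, as4 f f f f, as4 bot bot bot bot, rfl⟩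
  | idR f => exact ⟨31, by decide, as4 f f f f, as4 bot bot bot bot, rfl⟩
  | zeroC f => exact ⟨32, by decide, as4 f f f f, as4 bot bot bot bot, rfl⟩
  | leftP f g => exact ⟨33, by decide, as4 f g g g, as4 bot bot bot bot, rfl⟩
  | rightP f g => exact ⟨34, by decide, as4 f g g g, as4 bot bot bot bot, rfl⟩
  | pairC f g h => exact ⟨35, by decide, as4 f g h h, as4 bot bot bot bot, rfl⟩
  | pairE => exact ⟨36, by decide, as4 idn idn idn idn, as4 bot bot bot bot, rfl⟩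
  | p00 => exact ⟨37, by decide, as4 idn idn idn idn, as4 bot bot bot bot, rfl⟩
  | pS => exact ⟨38, by decide, as4 idn idn idn idn, as4 bot bot bot bot, rfl⟩
  | p0 => exact ⟨39, by decide, as4 idn idn idn idn, as4 bot bot bot bot, rfl⟩
  | prec0 f g => exact ⟨40, by decide, as4 f g g g, as4 bot bot bot bot, rfl⟩
  | precS f g => exact ⟨41, by decide, as4 f g g g, as4 bot bot bot bot, rfl⟩
  | trec0 f g => exact ⟨42, by decide, as4 f g g g, as4 bot bot bot bot, rfl⟩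
  | trecS f g => exact ⟨43, by decide, as4 f g g g, as4 bot bot bot bot, rfl⟩
  | sZ => exact ⟨44, by decide, as4 idn idn idn idn, as4 bot bot bot bot, rfl⟩
  | sI => exact ⟨45, by decide, as4 idn idn idn idn, as4 bot bot bot bot, rfl⟩
  | ind P => exact ⟨46, by decide, as4 idn idn idn idn, as4 P P P P, rfl⟩

/-- Metavariable instances of axioms are axioms, of theorems are theorems. -/
theorem Ax.ms {P : Fm U} (h : Ax P) (ρ : U → Fn V) (τ : U → Fm V) : Ax (P.ms ρ τ) := by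
  cases h <;> constructor

theorem Prv.ms {P : Fm U} (h : Prv P) (ρ : U → Fn V) (τ : U → Fm V) : Prv (P.ms ρ τ) := by
  induction h with
  | ax h => exact Prv.ax (h.ms ρ τ)
  | mp _ _ h1 h2 => exact Prv.mp h1 h2
  | sb f _ h => exact Prv.sb _ h
  | exE _ h => exact Prv.exE h
  | allI _ h => exact Prv.allI h

variable {M : Kr V} {w : M.W}

/-- Codes of functions, for codes of the metavariables. -/
def Kr.icf (M : Kr V) {w : M.W} (ρ : U → M.D w) : Fn U → M.D w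
  | .mv i => ρ i
  | idn => M.nd 0 M.zr M.zr
  | zero => M.nd 1 M.zr M.zr
  | succ => M.nd 2 M.zr M.zr
  | left => M.nd 3 M.zr M.zr
  | right => M.nd 4 M.zr M.zr
  | pair f g => M.nd 5 (Kr.icf M ρ f) (Kr.icf M ρ g)
  | comp f g => M.nd 6 (Kr.icf M ρ f) (Kr.icf M ρ g)
  | prec f g => M.nd 7 (Kr.icf M ρ f) (Kr.icf M ρ g)
  | trec f g => M.nd 8 (Kr.icf M ρ f) (Kr.icf M ρ g)

/-- Codes of formulas, for codes of the metavariables. -/
def Kr.icm (M : Kr V) {w : M.W} (ρ τ : U → M.D w) : Fm U → M.D w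
  | .mv i => τ i
  | eq f g => M.nd 0 (M.icf ρ f) (M.icf ρ g)
  | bot => M.nd 1 M.zr M.zr
  | conj P Q => M.nd 2 (Kr.icm M ρ τ P) (Kr.icm M ρ τ Q)
  | disj P Q => M.nd 3 (Kr.icm M ρ τ P) (Kr.icm M ρ τ Q)
  | imp P Q => M.nd 4 (Kr.icm M ρ τ P) (Kr.icm M ρ τ Q)
  | ex P => M.nd 5 (Kr.icm M ρ τ P) M.zr
  | all P => M.nd 6 (Kr.icm M ρ τ P) M.zr
  | sub P f => M.nd 7 (Kr.icm M ρ τ P) (M.icf ρ f)

theorem Kr.tr_icf {v : M.W} (h : w ≤ v) (ρ : U → M.D w) : ∀ f : Fn U,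
    M.tr h (M.icf ρ f) = M.icf (fun i => M.tr h (ρ i)) f
  | .mv i => rfl
  | idn => by simp [Kr.icf]
  | zero => by simp [Kr.icf]
  | succ => by simp [Kr.icf]
  | left => by simp [Kr.icf]
  | right => by simp [Kr.icf]
  | pair f g => by simp [Kr.icf, Kr.tr_icf h ρ f, Kr.tr_icf h ρ g]
  | comp f g => by simp [Kr.icf, Kr.tr_icf h ρ f, Kr.tr_icf h ρ g]
  | prec f g => by simp [Kr.icf, Kr.tr_icf h ρ f, Kr.tr_icf h ρ g]
  | trec f g => by simp [Kr.icf, Kr.tr_icf h ρ f, Kr.tr_icf h ρ g]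

theorem Kr.tr_icm {v : M.W} (h : w ≤ v) (ρ τ : U → M.D w) : ∀ P : Fm U,
    M.tr h (M.icm ρ τ P) = M.icm (fun i => M.tr h (ρ i)) (fun i => M.tr h (τ i)) P
  | .mv i => rfl
  | eq f g => by simp [Kr.icm, Kr.tr_icf]
  | bot => by simp [Kr.icm]
  | conj P Q => by simp [Kr.icm, Kr.tr_icm h ρ τ P, Kr.tr_icm h ρ τ Q]
  | disj P Q => by simp [Kr.icm, Kr.tr_icm h ρ τ P, Kr.tr_icm h ρ τ Q]
  | imp P Q => by simp [Kr.icm, Kr.tr_icm h ρ τ P, Kr.tr_icm h ρ τ Q]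
  | ex P => by simp [Kr.icm, Kr.tr_icm h ρ τ P]
  | all P => by simp [Kr.icm, Kr.tr_icm h ρ τ P]
  | sub P f => by simp [Kr.icm, Kr.tr_icm h ρ τ P, Kr.tr_icf]

theorem Kr.gf_icf {ρ : U → M.D w} (hρ : ∀ i, M.gf (ρ i)) : ∀ f : Fn U, M.gf (M.icf ρ f)
  | .mv i => hρ i
  | idn => M.gf_small (by norm_num)
  | zero => M.gf_small (by norm_num)
  | succ => M.gf_small (by norm_num)
  | left => M.gf_small (by norm_num)
  | right => M.gf_small (by norm_num)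
  | pair f g => (Kr.gf_nd (by norm_num) (by norm_num)).2 ⟨Kr.gf_icf hρ f, Kr.gf_icf hρ g⟩
  | comp f g => (Kr.gf_nd (by norm_num) (by norm_num)).2 ⟨Kr.gf_icf hρ f, Kr.gf_icf hρ g⟩
  | prec f g => (Kr.gf_nd (by norm_num) (by norm_num)).2 ⟨Kr.gf_icf hρ f, Kr.gf_icf hρ g⟩
  | trec f g => (Kr.gf_nd (by norm_num) (by norm_num)).2 ⟨Kr.gf_icf hρ f, Kr.gf_icf hρ g⟩

theorem Kr.gm_icm {ρ τ : U → M.D w} (hρ : ∀ i, M.gf (ρ i)) (hτ : ∀ i, M.gm (τ i)) :
    ∀ P : Fm U, M.gm (M.icm ρ τ P)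
  | .mv i => hτ i
  | eq f g => by simp [Kr.icm, Kr.gf_icf hρ]
  | bot => by simp [Kr.icm]
  | conj P Q => by simp [Kr.icm, Kr.gm_icm hρ hτ P, Kr.gm_icm hρ hτ Q]
  | disj P Q => by simp [Kr.icm, Kr.gm_icm hρ hτ P, Kr.gm_icm hρ hτ Q]
  | imp P Q => by simp [Kr.icm, Kr.gm_icm hρ hτ P, Kr.gm_icm hρ hτ Q]
  | ex P => by simp [Kr.icm, Kr.gm_icm hρ hτ P]
  | all P => by simp [Kr.icm, Kr.gm_icm hρ hτ P]
  | sub P f => by simp [Kr.icm, Kr.gm_icm hρ hτ P, Kr.gf_icf hρ]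

theorem Kr.icf_ms {X : Type} (ρ : X → M.D w) (r : U → Fn X) : ∀ f : Fn U,
    M.icf ρ (f.ms r) = M.icf (fun i => M.icf ρ (r i)) f
  | .mv i => rfl
  | idn => rfl
  | zero => rfl
  | succ => rfl
  | left => rfl
  | right => rfl
  | pair f g => by simp [Kr.icf, Fn.ms, Kr.icf_ms ρ r f, Kr.icf_ms ρ r g]
  | comp f g => by simp [Kr.icf, Fn.ms, Kr.icf_ms ρ r f, Kr.icf_ms ρ r g]
  | prec f g => by simp [Kr.icf, Fn.ms, Kr.icf_ms ρ r f, Kr.icf_ms ρ r g]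
  | trec f g => by simp [Kr.icf, Fn.ms, Kr.icf_ms ρ r f, Kr.icf_ms ρ r g]

theorem Kr.icm_ms {X : Type} (ρ τ : X → M.D w) (r : U → Fn X) (t : U → Fm X) : ∀ P : Fm U,
    M.icm ρ τ (P.ms r t) = M.icm (fun i => M.icf ρ (r i)) (fun i => M.icm ρ τ (t i)) P
  | .mv i => rfl
  | eq f g => by simp [Kr.icm, Fm.ms, Kr.icf_ms]
  | bot => rfl
  | conj P Q => by simp [Kr.icm, Fm.ms, Kr.icm_ms ρ τ r t P, Kr.icm_ms ρ τ r t Q]
  | disj P Q => by simp [Kr.icm, Fm.ms, Kr.icm_ms ρ τ r t P, Kr.icm_ms ρ τ r t Q]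
  | imp P Q => by simp [Kr.icm, Fm.ms, Kr.icm_ms ρ τ r t P, Kr.icm_ms ρ τ r t Q]
  | ex P => by simp [Kr.icm, Fm.ms, Kr.icm_ms ρ τ r t P]
  | all P => by simp [Kr.icm, Fm.ms, Kr.icm_ms ρ τ r t P]
  | sub P f => by simp [Kr.icm, Fm.ms, Kr.icm_ms ρ τ r t P, Kr.icf_ms]

theorem Kr.fn_cdf (ρ : U → Fn V) (d : M.D w) : ∀ f : Fn U,
    M.fn (cdf ρ f) d = M.icf (fun i => M.fn (ρ i) d) f
  | .mv i => rfl
  | idn => by simp [cdf, Kr.icf]
  | zero => by simp [cdf, Kr.icf]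
  | succ => by simp [cdf, Kr.icf]
  | left => by simp [cdf, Kr.icf]
  | right => by simp [cdf, Kr.icf]
  | pair f g => by simp [cdf, Kr.icf, Kr.fn_cdf ρ d f, Kr.fn_cdf ρ d g]
  | comp f g => by simp [cdf, Kr.icf, Kr.fn_cdf ρ d f, Kr.fn_cdf ρ d g]
  | prec f g => by simp [cdf, Kr.icf, Kr.fn_cdf ρ d f, Kr.fn_cdf ρ d g]
  | trec f g => by simp [cdf, Kr.icf, Kr.fn_cdf ρ d f, Kr.fn_cdf ρ d g]

theorem Kr.fn_cdm (ρ τ : U → Fn V) (d : M.D w) : ∀ P : Fm U,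
    M.fn (cdm ρ τ P) d = M.icm (fun i => M.fn (ρ i) d) (fun i => M.fn (τ i) d) P
  | .mv i => rfl
  | eq f g => by simp [cdm, Kr.icm, Kr.fn_cdf]
  | bot => by simp [cdm, Kr.icm]
  | conj P Q => by simp [cdm, Kr.icm, Kr.fn_cdm ρ τ d P, Kr.fn_cdm ρ τ d Q]
  | disj P Q => by simp [cdm, Kr.icm, Kr.fn_cdm ρ τ d P, Kr.fn_cdm ρ τ d Q]
  | imp P Q => by simp [cdm, Kr.icm, Kr.fn_cdm ρ τ d P, Kr.fn_cdm ρ τ d Q]
  | ex P => by simp [cdm, Kr.icm, Kr.fn_cdm ρ τ d P]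
  | all P => by simp [cdm, Kr.icm, Kr.fn_cdm ρ τ d P]
  | sub P f => by simp [cdm, Kr.icm, Kr.fn_cdm ρ τ d P, Kr.fn_cdf]

end HAr
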