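import Pool.Agent.Lib.MP_61e577_lc.Fwd

/-! Nodes of the tree model from points of an arbitrary preorder with labels. -/

namespace HAs

open Form Set

variable {Φ Ψ : Finset Form} {K : Finset Spot}

/-- Valid at all nodes whose spot is a modal successor of `k`. -/
def valR (hK : IsSys Φ K) (ix : Spot → ℕ) (k : Spot) (A : Form) : Prop :=
  ∀ z : Wd K, k.R z.1.tag → (tm hK ix).frc A z

/-- `v` is in the tree of `u` (without the modal successors of the spots). -/
def Nd.inn (v : Nd) : Nd → Prop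
  | .mk k n f => v = .mk k n f ∨ ∃ i, Nd.inn v (f i)

theorem Nd.inn_ok {v : Nd} : ∀ {u : Nd}, u.ok K → v.inn u → v.ok K
  | .mk _ _ _, hu, h => by
    rcases h with h | ⟨i, h⟩
    · rw [h]
      exact hu
    · exact Nd.inn_ok (hu.2 i).1 h

theorem Nd.up_iff (hK : IsSys Φ K) {v : Nd} (hv : v.ok K) {u : Nd} (hu : u.ok K) :
    v.up u ↔ v.inn u ∨ u.tag.R v.tag := by
  have _ := hK
  have _ := hv
  induction u with
  | mk k n f ih =>
    constructor
    · rintro (h | h | ⟨i, h⟩)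
      · exact Or.inl (Or.inl h)
      · exact Or.inr h
      · rcases (ih i (hu.2 i).1).1 h with h | h
        · exact Or.inl (Or.inr ⟨i, h⟩)
        · exact Or.inr (Spot.le_R (hu.2 i).2 h)
    · rintro ((h | ⟨i, h⟩) | h)
      · exact Or.inl h
      · exact Or.inr (Or.inr ⟨i, (ih i (hu.2 i).1).2 (Or.inl h)⟩)
      · exact Or.inr (Or.inl h)

/-- The children of a node. -/
def ch (u : Wd K) : List (Wd K) :=
  match u with
  | ⟨.mk _ _ f, h⟩ => List.ofFn fun i => ⟨f i, (h.2 i).1⟩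

theorem mem_ch_mk {k : Spot} {n : ℕ} {f : Fin n → Nd} {h : (Nd.mk k n f).ok K} {v : Wd K} :
    v ∈ ch ⟨.mk k n f, h⟩ ↔ ∃ i, (⟨f i, (h.2 i).1⟩ : Wd K) = v := by
  rw [ch, List.mem_ofFn]

theorem mem_ch_le {u v : Wd K} (h : v ∈ ch u) : u.1.tag.le v.1.tag := by
  obtain ⟨⟨k, n, f⟩, hu⟩ := u
  obtain ⟨i, rfl⟩ := mem_ch_mk.1 h
  exact (hu.2 i).2

theorem inn_iff {u v : Wd K} : v.1.inn u.1 ↔ v = u ∨ ∃ x ∈ ch u, v.1.inn x.1 := by
  obtain ⟨⟨k, n, f⟩, hu⟩ := u
  constructor
  · rintro (h | ⟨i, h⟩)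
    · exact Or.inl (Subtype.ext h)
    · exact Or.inr ⟨_, mem_ch_mk.2 ⟨i, rfl⟩, h⟩
  · rintro (h | ⟨x, hx, h⟩)
    · exact Or.inl (congrArg Subtype.val h)
    · obtain ⟨i, rfl⟩ := mem_ch_mk.1 hx
      exact Or.inr ⟨i, h⟩

/-- Induction along children. -/
theorem ch_ind {p : Wd K → Prop} (h : ∀ u, (∀ v ∈ ch u, p v) → p u) (u : Wd K) : p u := by
  have key : ∀ (n : Nd) (hn : n.ok K), p ⟨n, hn⟩ := by
    intro n
    induction n with
    | mk k n f ih =>
      intro hn
      refine h _ fun v hv => ?_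
      obtain ⟨i, rfl⟩ := mem_ch_mk.1 hv
      exact ih i _
  exact key u.1 u.2

/-- Every point of a labelled preorder with the right forcing clauses has the same formulas of
`Ψ` as some node of the tree model with its label as spot. -/
theorem sel (hK : IsSys Φ K) (ix : Spot → ℕ) (hΨ : SubCl Ψ) {W : Type} (le : W → W → Prop)
    (hrefl : ∀ v, le v v) (htrans : ∀ u v z, le u v → le v z → le u z) (L : W → Spot)
    (hL : ∀ v, L v ∈ K) (hLm : ∀ u v, le u v → (L u).le (L v)) (f : Form → W → Prop)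
    (hm : ∀ A u v, le u v → f A u → f A v)
    (hat : ∀ n v, f (atom n) v ↔ ∃ k ∈ K, ix k = n ∧ k.le (L v))
    (hbot : ∀ v, ¬ f bot v)
    (hconj : ∀ A B v, f (conj A B) v ↔ f A v ∧ f B v)
    (hdisj : ∀ A B v, f (disj A B) v ↔ f A v ∨ f B v)
    (himp : ∀ A B v, imp A B ∈ Ψ → (f (imp A B) v ↔ (∀ u, le v u → f A u → f B u) ∧
      valR hK ix (L v) (imp A B)))
    (hbox : ∀ A v, box A ∈ Ψ → (f (box A) v ↔ valR hK ix (L v) A)) (v : W) :
    ∃ u : Wd K, u.1.tag = L v ∧ ∀ A ∈ Ψ, (tm hK ix).frc A u ↔ f A v := by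
  classical
  have _ := htrans
  induction hn : (Ψ.filter fun A => ¬ f A v).card using Nat.strong_induction_on generalizing v with
  | _ n ih =>
    let S : Finset Form := Ψ.filter fun D => ∃ A B u, D = imp A B ∧ le v u ∧ f A u ∧ ¬ f B u ∧
      ¬ f A v
    have hx : ∀ D : {D // D ∈ S}, ∃ (x : Wd K) (u : W), le v u ∧ x.1.tag = L u ∧
        (∀ A ∈ Ψ, (tm hK ix).frc A x ↔ f A u) ∧ ∀ A B, D.1 = imp A B → f A u ∧ ¬ f B u := by
      rintro ⟨D, hD⟩
      obtain ⟨hDΨ, A, B, u, rfl, h1, h2, h3, h4⟩ := Finset.mem_filter.1 hD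
      have hlt : (Ψ.filter fun A => ¬ f A u).card < n := by
        rw [← hn]
        refine Finset.card_lt_card (Finset.ssubset_iff_of_subset ?_ |>.2 ⟨A, ?_, ?_⟩)
        · intro E hE
          rw [Finset.mem_filter] at hE ⊢
          exact ⟨hE.1, fun h => hE.2 (hm E v u h1 h)⟩
        · exact Finset.mem_filter.2 ⟨(hΨ.imp hDΨ).1, h4⟩
        · exact fun h => (Finset.mem_filter.1 h).2 h2
      obtain ⟨x, hx1, hx2⟩ := ih _ hlt u rfl
      refine ⟨x, u, h1, hx1, hx2, fun A' B' h => ?_⟩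
      injection h with h5 h6
      rw [← h5, ← h6]
      exact ⟨h2, h3⟩
    choose x g hg1 hg2 hg3 hg4 using hx
    let T : List {D // D ∈ S} := S.attach.toList
    let c : Fin T.length → Nd := fun i => (x (T.get i)).1
    have hok : (Nd.mk (L v) T.length c).ok K := by
      refine ⟨hL v, fun i => ⟨(x (T.get i)).2, ?_⟩⟩
      change (L v).le (x (T.get i)).1.tag
      rw [hg2]
      exact hLm _ _ (hg1 _)
    let N : Wd K := ⟨Nd.mk (L v) T.length c, hok⟩
    have habove : ∀ D : {D // D ∈ S}, lew N (x D) := by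
      intro D
      have hD : D ∈ T := by simp [T]
      obtain ⟨i, hi⟩ := List.get_of_mem hD
      refine Or.inr (Or.inr ⟨i, ?_⟩)
      simp only [c, hi]
      exact Nd.up_refl _
    refine ⟨N, rfl, fun A => ?_⟩
    induction A with
    | atom k => exact fun _ => (hat k v).symm
    | bot => exact fun _ => ⟨fun h => h.elim, fun h => (hbot v h).elim⟩
    | conj A B hA hB =>
      intro h
      rw [hconj]
      exact and_congr (hA (hΨ.conj h).1) (hB (hΨ.conj h).2)
    | disj A B hA hB =>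
      intro h
      rw [hdisj]
      exact or_congr (hA (hΨ.disj h).1) (hB (hΨ.disj h).2)
    | box A _ =>
      intro h
      rw [hbox A v h]
      rfl
    | imp A B hA hB =>
      intro h
      have h' := hΨ.imp h
      have hA := hA h'.1
      have hB := hB h'.2
      constructor
      · intro h1
        rw [himp A B v h]
        refine ⟨fun u hu h2 => ?_, fun z hz =>
          Mdl.frc_mono (M := tm hK ix) (u := N) (Nd.up_R (u := N.1) hz) h1⟩
        by_contra h3
        by_cases h4 : f A v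
        · exact h3 (hm B v u hu (hB.1 (h1 N (lew_refl N) (hA.2 h4))))
        · have hD : imp A B ∈ S := Finset.mem_filter.2 ⟨h, A, B, u, rfl, hu, h2, h3, h4⟩
          have h5 := hg4 ⟨_, hD⟩ A B rfl
          exact h5.2 ((hg3 _ B h'.2).1 (h1 _ (habove ⟨_, hD⟩) ((hg3 _ A h'.1).2 h5.1)))
      · intro h1 z hz h2
        have h3 := (himp A B v h).1 h1
        rcases hz with hz | hz | ⟨i, hz⟩
        · have hz : z = N := Subtype.ext hz
          subst hz
          exact hB.2 (h3.1 v (hrefl v) (hA.1 h2))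
        · exact h3.2 z hz z (lew_refl z) h2
        · have h4 := (hg3 (T.get i) (imp A B) h).2 (hm _ _ _ (hg1 _) h1)
          exact h4 z hz h2

/-- Unprovable formulas are refuted in a tree model after a substitution. -/
theorem refuted {A : Form} (h : ¬ IH A) : ∃ (Φ : Finset Form) (K : Finset Spot)
    (hK : IsSys Φ K) (ix : Spot → ℕ) (s : ℕ → Form) (u : Wd K),
    ¬ (tm hK ix).frc (sb s A) u := by
  obtain ⟨k, hk, hkA⟩ := canK_refutes (Φ := sub A) h
  have hΦ := subcl A
  have hK := canK_sys hΦ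
  obtain ⟨ix, hix⟩ := exists_ix (canK (sub A))
  obtain ⟨P, hP⟩ := valid_exists hΦ hK hix (canK (sub A)).card (canK (sub A))
    ⟨Finset.Subset.refl _, fun _ _ _ h _ => h⟩ rfl
  have hch := hP.dfn
  choose s _ hs2 using hch
  obtain ⟨g, _, hg2⟩ := hP.gen k hk
  refine ⟨sub A, canK (sub A), hK, ix, s, g, fun h => hkA ?_⟩
  have h1 := (truth hΦ hP hs2 A (mem_sub_self A) g).1 h
  rw [← hg2]
  exact mem_typ.2 ⟨mem_sub_self A, h1⟩

end HAs
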