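import Pool.Agent.Lib.MP_61e577_lc.Ar.Trl

/-! Translations of theorems, with bounds; reflection under the translations. -/

namespace HAr

open Fn Fm

variable {V U : Type} {M : Kr V} {w : M.W}

/-- The bound is good for a proof code, at `(n, p)`. -/
def gdT : Fm V := all (imp (leT right (comp right left)) (conj (leT (comp succ right)
  (comp left left)) (leT (comp succ (comp conclF right)) (comp left left))))

/-- The bound is good for a proof code. -/
def Kr.Gd (M : Kr V) {w : M.W} (n p : M.D w) : Prop :=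
  ∀ (v : M.W) (h : w ≤ v) (q : M.D v), M.le q (M.tr h p) →
    M.le (M.S q) (M.tr h n) ∧ M.le (M.S (M.cc q)) (M.tr h n)

theorem Kr.F_gdT {d : M.D w} : M.F gdT d ↔ M.Gd (M.fn left d) (M.fn right d) := by
  constructor
  · intro h v k q hq
    have h1 := h v k q v (le_refl v)
    simp only [KD.F, Kr.F_leT, M.fn_comp, M.right_pr, M.left_pr, M.tr_refl, Kr.fn_conclF,
      M.tr_fn] at h1 hq ⊢
    exact h1 hq
  · intro h v k q u l hq
    have h1 := h u (k.trans l) (M.tr l q)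
    simp only [KD.F, Kr.F_leT, M.fn_comp, M.right_pr, M.left_pr, M.tr_pr, M.tr_tr, Kr.fn_conclF,
      M.tr_fn] at h1 hq ⊢
    exact h1 hq

theorem Kr.Gd_mono {v : M.W} (h : w ≤ v) {n p : M.D w} (k : M.Gd n p) :
    M.Gd (M.tr h n) (M.tr h p) := by
  intro u l q hq
  rw [M.tr_tr] at hq ⊢
  exact k u (h.trans l) q hq

theorem Kr.Gd_le {n n' p p' : M.D w} (h : M.Gd n p) (hn : M.le n n') (hp : M.le p' p) :
    M.Gd n' p' := by
  intro v k q hq
  obtain ⟨h1, h2⟩ := h v k q (M.le_trans' hq (M.le_mono k hp))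
  exact ⟨M.le_trans' h1 (M.le_mono k hn), M.le_trans' h2 (M.le_mono k hn)⟩

private theorem trlp_le_add (a b : M.D w) : M.le b (M.add a b) := ⟨a, M.add_comm b a⟩

private theorem trlp_step {n p : M.D w} (h : M.Gd n p) :
    M.Gd (M.add n (M.add (M.S (M.cc (M.S p))) (M.S (M.S p)))) (M.S p) := by
  intro v k q hq
  rw [M.tr_fn] at hq
  rcases Kr.le_S_cases hq with h1 | h1
  · obtain ⟨h2, h3⟩ := h v k q h1
    have h4 : M.le (M.tr k n) (M.tr k (M.add n (M.add (M.S (M.cc (M.S p))) (M.S (M.S p))))) :=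
      M.le_mono k ⟨_, rfl⟩
    exact ⟨M.le_trans' h2 h4, M.le_trans' h3 h4⟩
  · rw [h1]
    have h4 : M.le (M.S (M.S p)) (M.add n (M.add (M.S (M.cc (M.S p))) (M.S (M.S p)))) :=
      M.le_trans' (trlp_le_add _ _) (trlp_le_add _ _)
    have h5 : M.le (M.S (M.cc (M.S p))) (M.add n (M.add (M.S (M.cc (M.S p))) (M.S (M.S p)))) :=
      M.le_trans' ⟨_, rfl⟩ (trlp_le_add _ _)
    have h6 := M.le_mono k h4
    have h7 := M.le_mono k h5
    rw [M.tr_fn, M.tr_fn] at h6
    rw [M.tr_fn, Kr.tr_cc, M.tr_fn] at h7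
    exact ⟨h6, h7⟩

theorem Kr.Gd_ex (p : M.D w) : ∃ n, M.Gd n p := by
  have key : ∀ {v : M.W} (a p : M.D v), M.F (ex (sub gdT (pair right (comp right left))))
      (M.pr a p) ↔ ∃ n, M.Gd n p := by
    intro v a p
    refine exists_congr fun n => ?_
    show M.F gdT _ ↔ _
    rw [Kr.F_gdT]
    simp
  have h := M.ind (ex (sub gdT (pair right (comp right left)))) M.zr
    (by
      rw [key]
      refine ⟨M.add (M.S (M.cc M.zr)) (M.S M.zr), fun v k q hq => ?_⟩
      rw [M.tr_zr] at hq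
      rw [Kr.le_zr hq]
      have h1 : M.le (M.S M.zr) (M.add (M.S (M.cc M.zr)) (M.S (M.zr (w := w)))) :=
        trlp_le_add _ _
      have h2 : M.le (M.S (M.cc M.zr)) (M.add (M.S (M.cc M.zr)) (M.S (M.zr (w := w)))) :=
        ⟨_, rfl⟩
      have h3 := M.le_mono k h1
      have h4 := M.le_mono k h2
      rw [M.tr_fn, M.tr_zr] at h3
      rw [M.tr_fn, Kr.tr_cc, M.tr_zr] at h4
      exact ⟨h3, h4⟩)
    (by
      intro v k m hm
      rw [key] at hm ⊢
      obtain ⟨n, hn⟩ := hm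
      exact ⟨_, trlp_step hn⟩) p
  exact (key M.zr p).1 h

/-- The conjunction over the formulas. -/
private theorem trlp_bxs {N : Kr ℕ} {u : N.W} {n c d : N.D u}
    (h0 : N.fn (.mv 0) d = n) (h1 : N.fn (.mv 1) d = c) : ∀ (l : ℕ),
    (∀ i < l, N.Ins n (N.fn (.mv (i + 2)) d) c d) → N.F (bxs l) d
  | 0, _ => rfl
  | l + 1, h => by
    refine ⟨trlp_bxs h0 h1 l fun i hi => h i (by omega), ?_⟩
    rw [Kr.F_insT, h0, h1]
    exact h l (by omega)

/-- The bound exceeds a proof and its conclusion, at `(n, (c, F))`. -/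
private def trlpT {V : Type} : Fm V := ex (conj (leT (comp succ right) (comp left left))
  (conj (leT (comp succ (comp conclF right)) (comp left left))
    (eq (comp conclF right) (comp (comp left right) left))))

private theorem trlp_li : (trlpT : Fm Empty).li = (trlpT : Fm V) := by
  simp [trlpT]

private theorem trlp_F {d : M.D w} : M.F trlpT d ↔ ∃ q, M.le (M.S q) (M.fn left d) ∧
    M.le (M.S (M.cc q)) (M.fn left d) ∧ M.cc q = M.fn left (M.fn right d) := by
  refine exists_congr fun q => ?_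
  show M.F _ _ ∧ M.F _ _ ∧ M.F _ _ ↔ _
  rw [Kr.F_leT, Kr.F_leT, Kr.F_eq]
  simp

/-- The side formula is provable for the conclusions of small proofs. -/
private theorem trlp_B {l : ℕ} {e p : M.D w} (hR : M.gm (M.fn (comp left right) e))
    (hp : M.le (M.S p) (M.fn left e)) (hc : M.le (M.S (M.cc p)) (M.fn left e)) :
    M.Pv (M.fn (BFl l) (M.pr e (M.cc p))) := by
  rw [BFl, Kr.fn_cdm]
  refine Kr.ruleC (l + 2) [trlpT] [] _ (by
    intro θ hθ
    rw [List.mem_singleton.1 hθ]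
    simp [trlpT, leT, Fm.Pos]) ?_ ?_ ?_
    (M.pr (M.fn left e) (M.pr (M.cc p) (M.fn right (M.fn right e)))) ?_ ?_
    (fun ψ hψ => absurd hψ (by simp))
  · intro N u c hcn hθ _ d
    have h1 := hθ _ (List.mem_singleton.2 rfl)
    rw [trlp_li, trlp_F] at h1
    obtain ⟨q, h2, h3, h4⟩ := h1
    refine Or.inl (trlp_bxs (n := N.fn left c) (c := N.cc q) ?_ ?_ l fun i hi => ?_)
    · rw [hcn 0 (by omega) u (le_refl u) d, N.tr_refl]
      rfl
    · rw [hcn 1 (by omega) u (le_refl u) d, N.tr_refl, h4, ← N.fn_comp]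
      rfl
    · exact Kr.Ins_thm h2 h3 d
  · intro i
    match i with
    | 0 => simp [bxR]
    | 1 => simp [bxR]
    | i + 2 => simp [bxR]
  · intro i
    simpa using hR
  · intro i hi
    match i with
    | 0 => simp [bxR, prj]
    | 1 => simp [bxR, prj]
    | i + 2 => simp [bxR, prj]
  · intro θ hθ
    rw [List.mem_singleton.1 hθ, trlp_li, trlp_F]
    refine ⟨p, ?_, ?_, ?_⟩
    · simpa using hp
    · simpa using hc
    · simp

/-- Translations of theorems. -/
theorem Kr.Pv_trl {l : ℕ} {e p : M.D w} (he : M.Va l e) (hp : M.Gd (M.fn left e) p) :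
    M.Pv (M.fn (trl l) (M.pr e (M.cc p))) := by
  have key : ∀ {v : M.W} (e p : M.D v), M.F (sub gdT (pair (comp left left) right)) (M.pr e p) ↔
      M.Gd (M.fn left e) p := by
    intro v e p
    show M.F gdT _ ↔ _
    rw [Kr.F_gdT]
    simp
  refine TrH.main (fun v h => Kr.trH_trl (Kr.Va_mono h he))
    (sub gdT (pair (comp left left) right)) ?_ ?_ ((key e p).2 hp)
  · intro v h t m h1
    rw [key] at h1
    rw [key, key]
    have h3 := Kr.le_cs2 t m
    have h4 : M.le (M.hd m) m ∧ M.le (M.tl m) m := by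
      rcases M.zr_or_S m with rfl | ⟨z, rfl⟩
      · rw [Kr.hd_zr, Kr.tl_zr]
        exact ⟨M.le_rfl' _, M.le_rfl' _⟩
      · rw [Kr.hd_S, Kr.tl_S]
        exact ⟨M.le_S (Kr.left_right_le z).1, M.le_S (Kr.left_right_le z).2⟩
    exact ⟨Kr.Gd_le h1 (M.le_rfl' _) (M.le_trans' h4.1 h3),
      Kr.Gd_le h1 (M.le_rfl' _) (M.le_trans' h4.2 h3)⟩
  · intro v h q h1
    rw [key] at h1
    obtain ⟨h2, h3⟩ := h1 v (le_refl v) q (by rw [M.tr_refl]; exact M.le_rfl' q)
    rw [M.tr_refl] at h2 h3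
    refine ⟨?_, fun h4 => Kr.Pv_mp h4 (trlp_B (Kr.Va_mono h he).gR h2 h3)⟩
    rw [smT, Kr.F_leT]
    simpa using h3

/-- Reflection under the translation. -/
theorem Kr.refl_trl {l : ℕ} {e n F z : M.D w} (he : M.Va l e) (hF : M.gm F)
    (hi : M.inv (M.fn (trl l) (M.pr e F))) (hz : M.gm z)
    (hn : M.Gd (M.fn left e) n) :
    M.Pv (M.im (M.iC n F z) (M.im (M.fn (trl l) (M.pr e F)) (M.fn (trl l) (M.pr e z)))) := by
  refine TrH.refl (fun v h => Kr.trH_trl (Kr.Va_mono h he)) hF hi ?_ hz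
  intro v h p h1 _
  refine Kr.Pv_trl (Kr.Va_mono h he) ?_
  have h2 := Kr.Gd_mono h hn
  rw [M.tr_fn] at h2
  exact Kr.Gd_le h2 (M.le_rfl' _) (M.le_trans' (M.le_S (M.le_rfl' p)) h1)

end HAr
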