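import Pool.Agent.Lib.MP_61e577_lc.Ar.Itp
import Pool.Agent.Lib.MP_61e577_lc.Ar.Trlp

/-! Soundness of the relation of iH* for HA*: the hypothesis `s` ranges over formulas which
imply all their translations. -/

namespace HAr

open Fn Fm

variable {V U : Type} {M : Kr V} {w : M.W} {σ : ℕ → Fm Empty}

/-- Formulas which are preserved by all translations. -/
structure Kr.Gs (M : Kr V) {w : M.W} (s : M.D w) : Prop where
  gm : M.gm s
  inv : M.inv s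
  per : M.per s
  tr : ∀ (l : ℕ) (e : M.D w), M.Va l e → M.Pv (M.im s (M.fn (trl l) (M.pr e s)))

/-! ### Propositional steps -/

/-- Two cases under an assumption. -/
theorem Kr.snd_or {s a b c : M.D w} (h : M.Pv (M.im s (M.dj a b)))
    (h1 : M.Pv (M.im (M.cj s a) c)) (h2 : M.Pv (M.im (M.cj s b) c)) : M.Pv (M.im s c) := by
  have g := Kr.gm_dj.1 (Kr.im_gm h).2
  exact Kr.q3 (A := imp (.mv 0) (disj (.mv 1) (.mv 2))) (B := imp (conj (.mv 0) (.mv 1)) (.mv 3))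
    (C := imp (conj (.mv 0) (.mv 2)) (.mv 3)) (φ := imp (.mv 0) (.mv 3))
    (ρ := fun _ => M.nd 0 M.zr M.zr) (τ := as4 s a b c) (fun _ => M.gf0)
    (Kr.gm_as4 (Kr.im_gm h).1 g.1 g.2 (Kr.im_gm h1).2) h h1 h2
    (fun N w hA hB hC d v l h => by
      have h3 : N.F (disj (.mv 1) (.mv 2)) (N.tr l d) := Kr.F_app (hA v l _) h
      rcases h3 with h3 | h3
      · exact Kr.F_app (P := conj (.mv 0) (.mv 1)) (hB v l _) ⟨h, h3⟩
      · exact Kr.F_app (P := conj (.mv 0) (.mv 2)) (hC v l _) ⟨h, h3⟩)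

/-- Currying. -/
theorem Kr.snd_cur {s a b : M.D w} (h : M.Pv (M.im (M.cj s a) b)) :
    M.Pv (M.im s (M.im a b)) := by
  have g := Kr.gm_cj.1 (Kr.im_gm h).1
  exact Kr.q1 (A := imp (conj (.mv 0) (.mv 1)) (.mv 2)) (φ := imp (.mv 0) (imp (.mv 1) (.mv 2)))
    (ρ := fun _ => M.nd 0 M.zr M.zr) (τ := as4 s a b b) (fun _ => M.gf0)
    (Kr.gm_as4 g.1 g.2 (Kr.im_gm h).2 (Kr.im_gm h).2) h
    (fun N w hA d v l h u k h1 => by
      have h2 : N.F (conj (.mv 0) (.mv 1)) (N.tr k (N.tr l d)) := ⟨N.mono (.mv 0) k _ h, h1⟩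
      rw [N.tr_tr] at h2 ⊢
      exact Kr.F_app (P := conj (.mv 0) (.mv 1)) (Q := .mv 2) (hA u (l.trans k) _) h2)

/-- The value at zero of an invariant formula implies the formula. -/
theorem Kr.snd_zero {a : M.D w} (hi : M.inv a) : M.Pv (M.im (M.sbc a (M.nd 1 M.zr M.zr)) a) := by
  have g := (Kr.im_gm hi).1
  exact Kr.q1 (A := imp (.mv 0) (all (sub (.mv 0) right))) (φ := imp (sub (.mv 0) zero) (.mv 0))
    (ρ := fun _ => M.nd 0 M.zr M.zr) (τ := fun _ => a) (fun _ => M.gf0) (fun _ => g) hi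
    (fun N w hA d v l h => by
      have h1 : N.F (.mv 0) (N.fn zero (N.tr l d)) := h
      have h2 : N.F (all (sub (.mv 0) right)) (N.fn zero (N.tr l d)) :=
        Kr.F_app (hA v l _) h1
      have h3 : N.F (.mv 0) (N.fn right (N.pr (N.tr (le_refl v) (N.fn zero (N.tr l d)))
        (N.tr l d))) := h2 v (le_refl v) (N.tr l d)
      rwa [N.right_pr] at h3)

/-- Values at zero are invariant. -/
theorem Kr.snd_inv {a : M.D w} (ha : M.gm a) : M.inv (M.sbc a (M.nd 1 M.zr M.zr)) :=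
  Kr.q0 (φ := imp (sub (.mv 0) zero) (all (sub (sub (.mv 0) zero) right)))
    (ρ := fun _ => M.nd 0 M.zr M.zr) (τ := fun _ => a) (fun _ => M.gf0) (fun _ => ha)
    (fun N w d v l h u k y => by
      have h1 : N.F (.mv 0) (N.fn zero (N.tr l d)) := h
      have h2 := N.mono (.mv 0) k _ h1
      show N.F (.mv 0) (N.fn zero (N.fn right (N.pr (N.tr k (N.tr l d)) y)))
      rw [N.fn_zero, N.tr_zr] at h2
      rw [N.fn_zero]
      exact h2)

/-! ### Codes of interpretations -/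

theorem Kr.am_conj (A B : HAs.Form) :
    M.am σ (.conj A B) (w := w) = M.cj (M.am σ A) (M.am σ B) := by
  rw [Kr.am, itp, bx, encM, Kr.nm_ndN]
  rfl

theorem Kr.am_disj (A B : HAs.Form) :
    M.am σ (.disj A B) (w := w) = M.dj (M.am σ A) (M.am σ B) := by
  rw [Kr.am, itp, bx, encM, Kr.nm_ndN]
  rfl

theorem Kr.am_imp (A B : HAs.Form) :
    M.am σ (.imp A B) (w := w) = M.cj (M.im (M.am σ A) (M.am σ B))
      (M.bxC (M.im (M.am σ A) (M.am σ B))) := by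
  rw [Kr.am, itp, bx, encM, Kr.nm_ndN, ← Kr.bxC_enc, encM, Kr.nm_ndN]
  rfl

/-- Conjunctions of preserved formulas. -/
theorem Kr.Gs.cj {a b : M.D w} (h : M.Gs a) (k : M.Gs b) : M.Gs (M.cj a b) where
  gm := Kr.gm_cj.2 ⟨h.gm, k.gm⟩
  inv := Kr.q2 (A := imp (.mv 0) (all (sub (.mv 0) right)))
    (B := imp (.mv 1) (all (sub (.mv 1) right)))
    (φ := imp (conj (.mv 0) (.mv 1)) (all (sub (conj (.mv 0) (.mv 1)) right)))
    (ρ := fun _ => M.nd 0 M.zr M.zr) (τ := as4 a b b b) (fun _ => M.gf0)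
    (Kr.gm_as4 h.gm k.gm k.gm k.gm) h.inv k.inv
    (fun N w hA hB d v l h u k y => by
      have h1 : N.F (all (sub (.mv 0) right)) (N.tr l d) := Kr.F_app (hA v l _) h.1
      have h2 : N.F (all (sub (.mv 1) right)) (N.tr l d) := Kr.F_app (hB v l _) h.2
      exact ⟨h1 u k y, h2 u k y⟩)
  per := Kr.per_cj h.gm k.gm h.per k.per
  tr := fun l e he => by
    rw [(Kr.trH_trl he).T_cj]
    exact Kr.q_cj (Kr.q_tr (Kr.q_fst h.gm k.gm) (h.tr l e he))
      (Kr.q_tr (Kr.q_snd h.gm k.gm) (k.tr l e he))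

/-- Invariant positive formulas are preserved. -/
theorem Kr.Gs.pos (φ : Fm U) (hφ : φ.Pos) {ρ τ : U → M.D w} (hρ : ∀ i, M.gf (ρ i))
    (hτ : ∀ i, M.gm (τ i)) (hi : M.inv (M.icm ρ τ φ)) : M.Gs (M.icm ρ τ φ) where
  gm := Kr.gm_icm hρ hτ φ
  inv := hi
  per := Kr.per_pos φ hφ hρ hτ
  tr := fun _ _ he => (Kr.trH_trl he).pos1 φ hφ hρ hτ

theorem Kr.Gs.top : M.Gs (M.tc (w := w)) :=
  Kr.Gs.pos (eq zero zero : Fm ℕ) trivial (ρ := fun _ => M.nd 0 M.zr M.zr)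
    (τ := fun _ => M.tc) (fun _ => M.gf0) (fun _ => Kr.Pv_gm Kr.Pv_tc) Kr.inv_tc

/-- The semantic relation. -/
def SndR (σ : ℕ → Fm Empty) (A B : HAs.Form) : Prop :=
  ∀ (M : Kr Empty) (w : M.W) (s : M.D w), M.Gs s → M.Pv (M.im s (M.am σ A)) →
    M.Pv (M.im s (M.am σ B))

theorem SndR.of_imp {A B : HAs.Form} (h : HAst (itp σ (.imp A B))) : SndR σ A B := by
  intro M w s _ hA
  have h1 : Prv (imp (bx (itp σ A)) (bx (itp σ B))) := Prv.mp (Prv.ax (Ax.andL _ _)) h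
  have h2 := Kr.Pv_enc h1 (M := M) (w := w)
  rw [encM, Kr.nm_ndN] at h2
  exact Kr.q_tr hA h2

theorem SndR.conj {A B C : HAs.Form} (h : SndR σ C A) (k : SndR σ C B) :
    SndR σ C (.conj A B) := by
  intro M w s hs hC
  rw [Kr.am_conj]
  exact Kr.q_cj (h M w s hs hC) (k M w s hs hC)

theorem SndR.box {A B : HAs.Form} (h : SndR σ A B) : SndR σ (.box A) (.box B) := by
  refine SndR.of_imp (hast_boxes σ fun N w hA => ?_)
  exact Kr.Pv_mp (h N w N.tc Kr.Gs.top (Kr.Pv_k (Kr.Pv_gm Kr.Pv_tc) hA)) Kr.Pv_tc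

/-- The instance provability of `A`, at zero. -/
def Kr.ic0 (M : Kr V) {w : M.W} (n F c : M.D w) : M.D w :=
  M.sbc (M.iC n F c) (M.nd 1 M.zr M.zr)

theorem Kr.Gs.ic0 (n F c : M.D w) : M.Gs (M.ic0 n F c) :=
  Kr.Gs.pos (sub (insT (.mv 0) (.mv 1) (.mv 2)) zero : Fm ℕ) trivial
    (ρ := as4 (M.num n) (M.num F) (M.num c) (M.num c)) (τ := fun _ => M.tc)
    (Kr.gf_as4 (M.gf_num _) (M.gf_num _) (M.gf_num _) (M.gf_num _))
    (fun _ => Kr.Pv_gm Kr.Pv_tc) (Kr.snd_inv (M.gm_iC n F c))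

/-- The parameter of the translation with the assumption `tc`. -/
def Kr.sndE (M : Kr V) {w : M.W} (n : M.D w) : M.D w := M.pr n (M.pr M.btc (M.pr M.tc M.zr))

theorem Kr.snd_Va (n : M.D w) : M.Va 1 (M.sndE n) where
  gR := by simp [Kr.sndE]
  iR := by
    have e : M.fn (comp left right) (M.sndE n) = M.btc := by simp [Kr.sndE]
    rw [e]
    exact Kr.q_bt (Kr.gm_alc.2 (Kr.gm_sbc.2 ⟨Kr.gm_btc, M.gf4⟩))
  gF := by
    intro i hi
    obtain rfl : i = 0 := by omega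
    have e : M.fn (ffF 0) (M.sndE n) = M.tc := by simp [Kr.sndE, ffF, prj]
    rw [e]
    exact Kr.Pv_gm Kr.Pv_tc

/-- The side formula implies instance provability. -/
theorem Kr.snd_BF (n c : M.D w) : M.Pv (M.im (M.fn (BFl 1) (M.pr (M.sndE n) c))
    (M.iC n M.tc c)) := by
  have e : M.fn (BFl 1) (M.pr (M.sndE n) c) = M.dj (M.cj M.tc (M.iC n M.tc c)) M.btc := by
    rw [Kr.fn_BFl]
    have e1 : M.icm (fun i => M.fn (bxR i) (M.pr (M.sndE n) c))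
        (fun _ => M.fn (comp left right) (M.sndE n)) (bxs 1) =
        M.cj M.tc (M.iC n M.tc c) := by
      rw [bxs, Kr.icm]
      rw [Kr.insp_icm (n := n) (F := M.tc) (c := c)]
      · rfl
      · simp [Kr.icf, bxR, Kr.sndE]
      · simp [Kr.icf, bxR, Kr.sndE, prj]
      · simp [Kr.icf, bxR, Kr.sndE]
    have e2 : M.fn (comp left right) (M.sndE n) = M.btc := by simp [Kr.sndE]
    rw [e1, e2]
  rw [e]
  exact Kr.q_djE (Kr.q_snd (Kr.Pv_gm Kr.Pv_tc) (M.gm_iC _ _ _)) (Kr.q_bt (M.gm_iC _ _ _))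

/-- The key step for disjunctions: a preserved formula which implies a disjunction implies the
disjunction of the instance provabilities, for some bound. -/
theorem Kr.Gs.split {s : M.D w} (hs : M.Gs s) {A B : HAs.Form}
    (h : M.Pv (M.im s (M.am σ (.disj A B)))) :
    ∃ n, M.Pv (M.im s (M.dj (M.ic0 n M.tc (M.am σ A)) (M.ic0 n M.tc (M.am σ B)))) := by
  obtain ⟨p, hp⟩ := h
  obtain ⟨n, hn⟩ := Kr.Gd_ex p
  refine ⟨n, ?_⟩
  have hVa := Kr.snd_Va n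
  have gA := Kr.gm_am σ A (M := M) (w := w)
  have gB := Kr.gm_am σ B (M := M) (w := w)
  have gD : M.gm (M.am σ (.disj A B) (w := w)) := Kr.gm_am σ _
  have el : M.fn left (M.sndE n) = n := by simp [Kr.sndE]
  have h1 := Kr.Pv_trl hVa (p := p) (by rw [el]; exact hn)
  rw [hp] at h1
  have T := Kr.trH_trl hVa
  have h2 := Kr.Pv_mp (T.T_im1 _ _ hs.gm gD) h1
  have h3 : M.Pv (M.im (M.fn (trl 1) (M.pr (M.sndE n) s))
      (M.fn (trl 1) (M.pr (M.sndE n) (M.am σ (.disj A B))))) :=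
    Kr.Pv_mp (Kr.q_fst (Kr.gm_im.2 ⟨T.gT _ hs.gm, T.gT _ gD⟩)
      (T.gB _ (Kr.gm_im.2 ⟨hs.gm, gD⟩))) h2
  have h4 := Kr.q_tr (hs.tr 1 _ hVa) h3
  have hlt : M.le (M.S (M.im s (M.dj (M.am σ A) (M.am σ B)))) n := by
    have h5 := (hn w (le_refl w) p (by rw [M.tr_refl]; exact M.le_rfl' p)).2
    rw [M.tr_refl, hp, Kr.am_disj] at h5
    exact h5
  rw [Kr.am_disj, T.T_dj] at h4
  have hle : M.le (M.S (M.dj (M.am σ A) (M.am σ B))) n :=
    M.le_trans' (Kr.S_le_S.2 (M.le_nd2 4 _ _)) hlt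
  have sA : M.F smT (M.pr (M.sndE n) (M.am σ A)) := by
    rw [smT, Kr.F_leT]
    have := M.le_trans' (Kr.S_le_S.2 (M.le_nd1 3 (M.am σ A) (M.am σ B))) hle
    simpa [el] using this
  have sB : M.F smT (M.pr (M.sndE n) (M.am σ B)) := by
    rw [smT, Kr.F_leT]
    have := M.le_trans' (Kr.S_le_S.2 (M.le_nd2 3 (M.am σ A) (M.am σ B))) hle
    simpa [el] using this
  have TH : ∀ (v : M.W) (h : w ≤ v), TrH M (trl 1) (BFl 1) (comp left right) smT
      (M.tr h (M.sndE n)) := fun v h => Kr.trH_trl (Kr.Va_mono h hVa)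
  have pA := Kr.q_tr (TrH.pers TH gA sA) (Kr.snd_BF n (M.am σ A))
  have pB := Kr.q_tr (TrH.pers TH gB sB) (Kr.snd_BF n (M.am σ B))
  have gi : ∀ c : M.D w, M.gm (M.iC n M.tc c) := fun c => M.gm_iC _ _ _
  have h5 : M.Pv (M.im s (M.dj (M.iC n M.tc (M.am σ A)) (M.iC n M.tc (M.am σ B)))) :=
    Kr.q_tr h4 (Kr.q_djE (Kr.q_tr pA (Kr.q_inl (gi _) (gi _)))
      (Kr.q_tr pB (Kr.q_inr (gi _) (gi _))))
  exact Kr.q2 (A := imp (.mv 0) (all (sub (.mv 0) right)))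
    (B := imp (.mv 0) (disj (.mv 1) (.mv 2)))
    (φ := imp (.mv 0) (disj (sub (.mv 1) zero) (sub (.mv 2) zero)))
    (ρ := fun _ => M.nd 0 M.zr M.zr)
    (τ := as4 s (M.iC n M.tc (M.am σ A)) (M.iC n M.tc (M.am σ B)) M.tc) (fun _ => M.gf0)
    (Kr.gm_as4 hs.gm (gi _) (gi _) (Kr.Pv_gm Kr.Pv_tc)) hs.inv h5
    (fun N w hA hB d v l h => by
      have h1 : N.F (all (sub (.mv 0) right)) (N.tr l d) := Kr.F_app (hA v l _) h
      have h2 : N.F (.mv 0) (N.fn right (N.pr (N.tr (le_refl v) (N.tr l d)) N.zr)) :=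
        h1 v (le_refl v) N.zr
      rw [N.right_pr] at h2
      have h3 : N.F (disj (.mv 1) (.mv 2)) N.zr := Kr.F_app (hB v l _) h2
      show N.F (.mv 1) (N.fn zero (N.tr l d)) ∨ N.F (.mv 2) (N.fn zero (N.tr l d))
      rw [N.fn_zero]
      exact h3)

/-- The instance provability at zero implies the formula. -/
theorem Kr.snd_ic0 (n : M.D w) (A : HAs.Form) :
    M.Pv (M.im (M.ic0 n M.tc (M.am σ A)) (M.am σ A)) :=
  Kr.q_tr (Kr.q_sb (Kr.refl_tc (Kr.gm_am σ A)) M.gf1) (Kr.snd_zero (Kr.inv_am σ A))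

theorem SndR.b1 {A B C : HAs.Form} (h : SndR σ A C) (k : SndR σ B C) :
    SndR σ (.disj A B) C := by
  intro M w s hs hD
  obtain ⟨n, hn⟩ := hs.split hD
  have g1 := Kr.Gs.ic0 n M.tc (M.am σ A)
  have g2 := Kr.Gs.ic0 n M.tc (M.am σ B)
  refine Kr.snd_or hn (h M w _ (hs.cj g1) ?_) (k M w _ (hs.cj g2) ?_)
  · exact Kr.q_tr (Kr.q_snd hs.gm g1.gm) (Kr.snd_ic0 n A)
  · exact Kr.q_tr (Kr.q_snd hs.gm g2.gm) (Kr.snd_ic0 n B)

/-- Interpreted boxes are preserved. -/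
theorem Kr.Gs.box (σ : ℕ → Fm Empty) (C : HAs.Form) : M.Gs (M.am σ (.box C) (w := w)) := by
  have h := Kr.Gs.pos (M := M) (w := w) (bx (itp σ (.box C))) (pos_box σ C) (ρ := eD M w)
    (τ := eD M w) (fun i => i.elim) (fun i => i.elim)
  have e : M.am σ (.box C) (w := w) = M.icm (eD M w) (eD M w) (bx (itp σ (.box C))) :=
    M.nm_encM _
  rw [← e] at h
  exact h (Kr.inv_am σ (.box C))

theorem SndR.b3 {A B : HAs.Form} (C : HAs.Form) (h : SndR σ A B) :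
    SndR σ (.imp (.box C) A) (.imp (.box C) B) := by
  intro M w s hs hI
  rw [Kr.am_imp] at hI ⊢
  have gC := Kr.Gs.box (M := M) (w := w) σ C
  have g1 := Kr.gm_cj.1 (Kr.im_gm hI).2
  have h1 : M.Pv (M.im s (M.im (M.am σ (.box C)) (M.am σ A))) :=
    Kr.q_tr hI (Kr.q_fst g1.1 g1.2)
  have h2 := h M w _ (hs.cj gC) (Kr.q_un h1)
  have h3 := Kr.snd_cur h2
  exact Kr.q_cj h3 (Kr.q_tr hs.per (Kr.bx_mn h3))

end HAr
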