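import Pool.Agent.Lib.MP_61e577_lc.Ar.Frm

/-! Properties of the Solovay function: reaching points. -/

namespace HAr

open Fn Fm

variable {V : Type} {M : Kr V} {w : M.W} {F : Frm} {i j k : ℕ}

/-- The point `i` is reached. -/
def Kr.rc (M : Kr V) (F : Frm) {w : M.W} (i : ℕ) : Prop :=
  ∃ m : M.D w, M.fn left (M.st F m) = M.nm (i + 1)

theorem Kr.sol_F_djs (L : List (Fm V)) (d : M.D w) : M.F (djs L) d ↔ ∃ P ∈ L, M.F P d := by
  induction L with
  | nil =>
    constructor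
    · exact fun h => h.elim
    · rintro ⟨P, hP, -⟩
      exact absurd hP (by simp)
  | cons P L ih =>
    constructor
    · rintro (h | h)
      · exact ⟨P, by simp, h⟩
      · obtain ⟨Q, hQ, h⟩ := ih.1 h
        exact ⟨Q, by simp [hQ], h⟩
    · rintro ⟨Q, hQ, h⟩
      rcases List.mem_cons.1 hQ with rfl | hQ
      · exact Or.inl h
      · exact Or.inr (ih.2 ⟨Q, hQ, h⟩)

theorem Frm.sol_mem_lst (p : ℕ → Prop) (i : ℕ) : i ∈ F.lst p ↔ i < F.N ∧ p i := by
  simp [Frm.lst]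

theorem Kr.F_rchS (d : M.D w) : M.F (rchS F.h.li i) d ↔ M.rc F (w := w) i := by
  simp [rchS, KD.F, Kr.rc, Kr.st]

theorem Kr.F_rcs (p : ℕ → Prop) (d : M.D w) :
    M.F (F.rcs F.h.li p) d ↔ ∃ i < F.N, p i ∧ M.rc F (w := w) i := by
  rw [Frm.rcs, Kr.sol_F_djs]
  constructor
  · rintro ⟨P, hP, h⟩
    obtain ⟨i, hi, rfl⟩ := List.mem_map.1 hP
    rw [Frm.sol_mem_lst] at hi
    exact ⟨i, hi.1, hi.2, (Kr.F_rchS d).1 h⟩
  · rintro ⟨i, hi, hp, h⟩
    exact ⟨_, List.mem_map.2 ⟨i, (Frm.sol_mem_lst p i).2 ⟨hi, hp⟩, rfl⟩, (Kr.F_rchS d).2 h⟩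

/-- The limit is `i`. -/
theorem Kr.F_lamS (d : M.D w) : M.F (F.lamS F.h.li i) d ↔ M.rc F (w := w) i ∧
    ∀ (v : M.W) (_ : w ≤ v) (j : ℕ), F.lt i j → ¬ M.rc F (w := v) j := by
  constructor
  · rintro ⟨h1, h2⟩
    refine ⟨(Kr.F_rchS d).1 h1, fun v h j hj hr => ?_⟩
    exact h2 v h ((Kr.F_rcs _ _).2 ⟨j, (F.lt_N hj).2, hj, hr⟩)
  · rintro ⟨h1, h2⟩
    refine ⟨(Kr.F_rchS d).2 h1, fun v h h3 => ?_⟩
    obtain ⟨j, -, hj, hr⟩ := (Kr.F_rcs _ _).1 h3
    exact h2 v h j hj hr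

theorem li_rchS (h : Fn Empty) (i : ℕ) : (rchS h i).li = (rchS h.li i : Fm V) := by
  simp [rchS]

theorem sol_li_djs (L : List (Fm Empty)) : (djs L).li = (djs (L.map Fm.li) : Fm V) := by
  induction L with
  | nil => rfl
  | cons P L ih =>
    show (disj P (djs L)).li = _
    rw [li_disj, ih]
    rfl

theorem li_rcs (h : Fn Empty) (p : ℕ → Prop) : (F.rcs h p).li = (F.rcs h.li p : Fm V) := by
  rw [Frm.rcs, sol_li_djs, Frm.rcs, List.map_map]
  congr 1
  refine List.map_congr_left fun i _ => ?_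
  exact li_rchS h i

theorem li_lamS (h : Fn Empty) (i : ℕ) : (F.lamS h i).li = (F.lamS h.li i : Fm V) := by
  rw [Frm.lamS, li_conj, li_imp, li_bot, li_rchS, li_rcs, Frm.lamS]

theorem li_nlS (h : Fn Empty) (i : ℕ) : (F.nlS h i).li = (F.nlS h.li i : Fm V) := by
  rw [Frm.nlS, li_imp, li_bot, li_lamS, Frm.nlS]

@[simp] theorem Kr.sol_tr_st {v : M.W} (h : w ≤ v) (m : M.D w) :
    M.tr h (M.st F m) = M.st F (M.tr h m) := M.tr_fn h _ m

theorem Kr.rc_mono {v : M.W} (h : w ≤ v) (k : M.rc F (w := w) i) : M.rc F (w := v) i := by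
  obtain ⟨m, hm⟩ := k
  refine ⟨M.tr h m, ?_⟩
  rw [← Kr.sol_tr_st, ← M.tr_fn, hm, M.tr_nm]

theorem Kr.sol_nm {i j : ℕ} (h : M.nm (w := w) i = M.nm j) : i = j := by
  by_contra hne
  exact M.nm_ne hne h

theorem Kr.rc_N (h : M.rc F (w := w) i) : i < F.N := by
  obtain ⟨m, hm⟩ := h
  obtain ⟨i', hi', h1⟩ := M.st_pos F m
  have h2 := Kr.sol_nm (hm.symm.trans h1)
  omega

/-- Positions increase along the stages; the root is only left for good. -/
theorem Kr.st_le {m m' : M.D w} (h : M.le m m') {i j : ℕ}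
    (h1 : M.fn left (M.st F m) = M.nm (i + 1)) (h2 : M.fn left (M.st F m') = M.nm j) :
    ∃ j', j = j' + 1 ∧ (j' = i ∨ F.lt i j') := by
  obtain ⟨k, rfl⟩ := h
  have key := M.ind (djs ((F.lst (fun j => j = i ∨ F.lt i j)).map fun j =>
    eq (comp left (comp F.h.li addF)) (cst (j + 1)))) m ?_ ?_ k
  · rw [Kr.sol_F_djs] at key
    obtain ⟨P, hP, h3⟩ := key
    obtain ⟨j', hj', rfl⟩ := List.mem_map.1 hP
    rw [Frm.sol_mem_lst] at hj'
    have h3 : M.fn _ _ = M.fn _ _ := h3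
    rw [M.fn_comp, M.fn_comp, Kr.fn_cst] at h3
    exact ⟨j', Kr.sol_nm (h2.symm.trans h3), hj'.2⟩
  · rw [Kr.sol_F_djs]
    refine ⟨_, List.mem_map.2 ⟨i, (Frm.sol_mem_lst _ i).2
      ⟨Kr.rc_N (M := M) (w := w) ⟨m, h1⟩, Or.inl rfl⟩, rfl⟩, ?_⟩
    show M.fn _ _ = M.fn _ _
    rw [M.fn_comp, M.fn_comp, Kr.fn_cst]
    have e : M.fn addF (M.pr m M.zr) = m := M.add_zr m
    rw [e]
    exact h1
  · intro v h n h3
    rw [Kr.sol_F_djs] at h3 ⊢
    obtain ⟨P, hP, h3⟩ := h3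
    obtain ⟨j', hj', rfl⟩ := List.mem_map.1 hP
    rw [Frm.sol_mem_lst] at hj'
    have h3 : M.fn _ _ = M.fn _ _ := h3
    rw [M.fn_comp, M.fn_comp, Kr.fn_cst] at h3
    have h3 : M.fn left (M.st F (M.add (M.tr h m) n)) = M.nm (j' + 1) := h3
    have e : ∀ j, M.F (eq (comp left (comp F.h.li addF)) (cst (j + 1)))
        (M.pr (M.tr h m) (M.S n)) ↔
        M.fn left (M.st F (M.S (M.add (M.tr h m) n))) = M.nm (j + 1) := by
      intro j
      show M.fn _ _ = M.fn _ _ ↔ _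
      rw [M.fn_comp, M.fn_comp, Kr.fn_cst]
      have e : M.fn addF (M.pr (M.tr h m) (M.S n)) = M.S (M.add (M.tr h m) n) := M.add_S _ _
      rw [e]
      rfl
    rcases M.st_S F (M.add (M.tr h m) n) with h4 | ⟨i', j'', x, -, h5, h6, h7, -, h8⟩
    · refine ⟨_, List.mem_map.2 ⟨j', (Frm.sol_mem_lst _ j').2 hj', rfl⟩, ?_⟩
      rw [e, h4]
      exact h3
    · have h9 : i' = j' + 1 := Kr.sol_nm (h6.symm.trans h3)
      subst h9
      have h10 : F.lt j' j'' := by
        rcases h8 with h8 | ⟨h8, -⟩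
        · exact F.R_lt h8
        · exact h8
      refine ⟨_, List.mem_map.2 ⟨j'', (Frm.sol_mem_lst _ j'').2 ⟨h5, Or.inr ?_⟩, rfl⟩, ?_⟩
      · rcases hj'.2 with rfl | h11
        · exact h10
        · exact F.lt_trans h11 h10
      · rw [e, h7, M.left_pr]

/-- Reached points form a chain. -/
theorem Kr.rc_lin (h : M.rc F (w := w) i) (k : M.rc F (w := w) j) :
    i = j ∨ F.lt i j ∨ F.lt j i := by
  obtain ⟨m, hm⟩ := h
  obtain ⟨m', hm'⟩ := k
  rcases M.le_total' m m' with h | h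
  · obtain ⟨j', h1, h2⟩ := Kr.st_le h hm hm'
    have h3 : j = j' := by omega
    subst h3
    rcases h2 with h2 | h2
    · exact Or.inl h2.symm
    · exact Or.inr (Or.inl h2)
  · obtain ⟨j', h1, h2⟩ := Kr.st_le h hm' hm
    have h3 : i = j' := by omega
    subst h3
    rcases h2 with h2 | h2
    · exact Or.inl h2
    · exact Or.inr (Or.inr h2)

/-- There is a last reached point, if some point is reached. -/
theorem Kr.rc_max (h : M.rc F (w := w) i) : ∃ k, (k = i ∨ F.lt i k) ∧ M.rc F (w := w) k ∧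
    ∀ j, F.lt k j → ¬ M.rc F (w := w) j := by
  classical
  have key : ∀ (n i : ℕ), ((Finset.range F.N).filter (F.lt i ·)).card ≤ n →
      M.rc F (w := w) i → ∃ k, (k = i ∨ F.lt i k) ∧ M.rc F (w := w) k ∧
      ∀ j, F.lt k j → ¬ M.rc F (w := w) j := by
    intro n
    induction n with
    | zero =>
      intro i hi h
      refine ⟨i, Or.inl rfl, h, fun j hj _ => ?_⟩
      have h1 : j ∈ (Finset.range F.N).filter (F.lt i ·) := by
        rw [Finset.mem_filter, Finset.mem_range]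
        exact ⟨(F.lt_N hj).2, hj⟩
      have h2 := Finset.card_pos.2 ⟨j, h1⟩
      omega
    | succ n ih =>
      intro i hi h
      by_cases h1 : ∃ j, F.lt i j ∧ M.rc F (w := w) j
      · obtain ⟨j, hj, hr⟩ := h1
        have h2 : ((Finset.range F.N).filter (F.lt j ·)).card <
            ((Finset.range F.N).filter (F.lt i ·)).card := by
          refine Finset.card_lt_card ?_
          rw [Finset.ssubset_iff_of_subset]
          · refine ⟨j, ?_, ?_⟩
            · rw [Finset.mem_filter, Finset.mem_range]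
              exact ⟨(F.lt_N hj).2, hj⟩
            · rw [Finset.mem_filter]
              exact fun h3 => F.lt_irrefl j h3.2
          · intro x hx
            rw [Finset.mem_filter] at hx ⊢
            exact ⟨hx.1, F.lt_trans hj hx.2⟩
        obtain ⟨k, h3, h4, h5⟩ := ih j (by omega) hr
        refine ⟨k, Or.inr ?_, h4, h5⟩
        rcases h3 with rfl | h3
        · exact hj
        · exact F.lt_trans hj h3
      · push Not at h1
        exact ⟨i, Or.inl rfl, h, h1⟩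
  exact key _ i le_rfl h

/-- The formula: at the stage the position is `i`, and the rank comes from an instance
derivation. -/
noncomputable def Frm.solP (F : Frm) : ℕ → Fm V
  | 0 => eq (comp left (comp F.h.li right)) (cst 0)
  | i + 1 => conj (eq (comp left (comp F.h.li right)) (cst (i + 1)))
      (ex (eq (comp left (comp insF (pair (pair (comp right (comp F.h.li (comp right left))) topF)
        right))) (cst (encM (F.nlS F.h i)))))

theorem Kr.sol_F_zero (a n : M.D w) : M.F (F.solP 0) (M.pr a n) ↔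
    M.fn left (M.st F n) = M.nm 0 := by
  simp [Frm.solP, KD.F, Kr.st]

theorem Kr.sol_F_succ (i : ℕ) (a n : M.D w) : M.F (F.solP (i + 1)) (M.pr a n) ↔
    M.fn left (M.st F n) = M.nm (i + 1) ∧
      ∃ x, M.Ins (M.fn right (M.st F n)) M.tc (M.nl F i) x := by
  have e1 : M.F (F.solP (i + 1)) (M.pr a n) ↔ M.fn left (M.st F n) = M.nm (i + 1) ∧
      ∃ d, M.fn left (M.ins (M.fn right (M.st F n)) M.tc d) = M.nl F i := by
    simp [Frm.solP, KD.F, Kr.st, Kr.ins, Kr.nl]
  rw [e1]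
  refine and_congr_right fun _ => ?_
  constructor
  · rintro ⟨d, hd⟩
    refine ⟨M.fn right (M.ins (M.fn right (M.st F n)) M.tc d), d, ?_⟩
    rw [← hd, M.pr_eta]
  · rintro ⟨x, d, hd⟩
    refine ⟨d, ?_⟩
    rw [hd, M.left_pr]

/-- At a reached point the rank comes from an instance derivation of the negation of the
limit. -/
theorem Kr.st_ins {m : M.D w} {i : ℕ} (h : M.fn left (M.st F m) = M.nm (i + 1)) :
    ∃ x, M.Ins (M.fn right (M.st F m)) M.tc (M.nl F i) x := by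
  have key := M.ind (djs ((List.range (F.N + 1)).map F.solP)) (M.zr (w := w)) ?_ ?_ m
  · rw [Kr.sol_F_djs] at key
    obtain ⟨P, hP, h3⟩ := key
    obtain ⟨j, -, rfl⟩ := List.mem_map.1 hP
    cases j with
    | zero =>
      rw [Kr.sol_F_zero] at h3
      exact absurd (Kr.sol_nm (h.symm.trans h3)) (by omega)
    | succ j =>
      rw [Kr.sol_F_succ] at h3
      have h4 : j = i := by
        have := Kr.sol_nm (h.symm.trans h3.1)
        omega
      subst h4
      exact h3.2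
  · rw [Kr.sol_F_djs]
    refine ⟨_, List.mem_map.2 ⟨0, by simp, rfl⟩, ?_⟩
    rw [Kr.sol_F_zero, Kr.st_zr, M.left_pr]
    rfl
  · intro v h n h3
    rw [Kr.sol_F_djs] at h3 ⊢
    obtain ⟨P, hP, h3⟩ := h3
    obtain ⟨p, hp, rfl⟩ := List.mem_map.1 hP
    rcases M.st_S F n with h4 | ⟨i', j, x, -, h5, h6, h7, h8, -⟩
    · refine ⟨_, List.mem_map.2 ⟨p, hp, rfl⟩, ?_⟩
      cases p with
      | zero =>
        rw [Kr.sol_F_zero] at h3 ⊢
        rw [h4]
        exact h3
      | succ p =>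
        rw [Kr.sol_F_succ] at h3 ⊢
        rw [h4]
        exact h3
    · refine ⟨_, List.mem_map.2 ⟨j + 1, by rw [List.mem_range]; omega, rfl⟩, ?_⟩
      rw [Kr.sol_F_succ, h7, M.left_pr, M.right_pr]
      exact ⟨rfl, x, _, h8⟩

/-- A change of the state between two stages: some stage between them has a move. -/
theorem Kr.st_first {m m' : M.D w} (h : M.le m m') (hne : M.st F m ≠ M.st F m') :
    ∃ m1, M.le m m1 ∧ M.le m1 m' ∧ M.st F m1 = M.st F m ∧ M.st F (M.S m1) ≠ M.st F m := by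
  obtain ⟨k, rfl⟩ := h
  -- the formula
  let P : Fm V := disj (eq (comp F.h.li addF) (comp F.h.li left))
    (ex (conj (conj (leT (comp left left) right) (leT right (comp addF left)))
      (conj (eq (comp F.h.li right) (comp F.h.li (comp left left)))
        (ex (eq (comp dstF (pair (comp F.h.li (comp succ (comp right left)))
          (comp F.h.li (comp left (comp left left))))) (comp succ right))))))
  have hP : ∀ {v : M.W} (a n : M.D v), M.F P (M.pr a n) ↔ (M.st F (M.add a n) = M.st F a ∨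
      ∃ m1, (M.le a m1 ∧ M.le m1 (M.add a n)) ∧ M.st F m1 = M.st F a ∧
        ∃ t, M.dst (M.st F (M.S m1)) (M.st F a) = M.S t) := by
    intro v a n
    simp only [P, KD.F, Kr.F_leT, M.fn_comp, M.fn_pair, M.left_pr, M.right_pr, Kr.st, Kr.add,
      Kr.dst]
  have key := M.ind P m ?_ ?_ k
  · rw [hP] at key
    rcases key with h1 | ⟨m1, ⟨h1, h2⟩, h3, t, h4⟩
    · exact absurd h1.symm hne
    · refine ⟨m1, h1, h2, h3, fun h5 => ?_⟩
      rw [h5, Kr.dst_eq_zr.2 rfl] at h4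
      exact M.succ_ne _ h4.symm
  · rw [hP, M.add_zr]
    exact Or.inl rfl
  · intro v h n h3
    rw [hP] at h3 ⊢
    rw [M.add_S]
    rcases h3 with h3 | ⟨m1, ⟨h4, h5⟩, h6⟩
    · rcases M.eq_or_ne (M.st F (M.S (M.add (M.tr h m) n))) (M.st F (M.tr h m)) with h7 | ⟨t, h7⟩
      · exact Or.inl h7
      · exact Or.inr ⟨M.add (M.tr h m) n, ⟨⟨n, rfl⟩, Kr.le_S (M.le_rfl' _)⟩, h3, t, h7⟩
    · exact Or.inr ⟨m1, ⟨h4, Kr.le_S h5⟩, h6⟩

end HAr
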