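import Pool.Agent.Lib.MP_61e577_lc.Ar.Insp
import Pool.Agent.Lib.MP_61e577_lc.Ar.GT

/-! The bounded truth formula of a translation, and bounded quantification over internal
numbers. -/

namespace HAr

open Fn Fm

variable {V : Type} {M : Kr V} {w : M.W}

/-- The code of the formula `T_n (z, x)`, at `(e, n)`: `z` is the code of `eq zero zero`, or some
good code `c < n`, `z = c` and the translation of `c` holds at `x`. -/
def tnF (tF : Fn V) : Fn V := prec (ndF 0 (ndF 3 zero zero) (comp numF topF))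
  (ndF 3 (comp right right) (ndF 2 (ndF 0 (ndF 3 zero zero) (comp numF (comp left right)))
    (ndF 7 (comp tF (pair left (comp nfmF (comp left right)))) (ndF 4 zero zero))))

def Kr.tn (M : Kr V) (tF : Fn V) {w : M.W} (e n : M.D w) : M.D w := M.fn (tnF tF) (M.pr e n)

@[simp] theorem Kr.tr_tn {tF : Fn V} {v : M.W} (h : w ≤ v) (e n : M.D w) :
    M.tr h (M.tn tF e n) = M.tn tF (M.tr h e) (M.tr h n) := by simp [Kr.tn]

theorem Kr.tn_zr {tF : Fn V} (e : M.D w) :
    M.tn tF e M.zr = M.eqc (M.nd 3 M.zr M.zr) (M.num M.tc) := by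
  simp [Kr.tn, tnF]

theorem Kr.tn_S {tF : Fn V} (e n : M.D w) : M.tn tF e (M.S n) = M.dj (M.tn tF e n)
    (M.cj (M.eqc (M.nd 3 M.zr M.zr) (M.num n))
      (M.sbc (M.fn tF (M.pr e (M.nfm n))) (M.nd 4 M.zr M.zr))) := by
  simp [Kr.tn, tnF]

/-- The code of the function `x ↦ (c, x)`. -/
def Kr.atc (M : Kr V) {w : M.W} (c : M.D w) : M.D w := M.nd 5 (M.num c) (M.nd 0 M.zr M.zr)

@[simp] theorem Kr.gf_atc (c : M.D w) : M.gf (M.atc c) := by simp [Kr.atc]

@[simp] theorem Kr.tr_atc {v : M.W} (h : w ≤ v) (c : M.D w) :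
    M.tr h (M.atc c) = M.atc (M.tr h c) := by simp [Kr.atc]

/-! ### Comparison of numerals -/

/-- Different constants are provably different. -/
theorem Kr.tn_ne {c c' : M.D w} {m : M.D w} (h : M.dst c c' = M.S m) :
    M.Pv (M.im (M.sbc (M.eqc (M.nd 3 M.zr M.zr) (M.num c')) (M.atc c)) M.btc) := by
  have := Kr.ruleC 2 [ex (eq (comp (comp dstF (pair (prj 0) (prj 1))) left) (comp succ right))]
    [] (imp (sub (eq left (.mv 1)) (pair (.mv 0) idn)) bot) (by
      intro θ hθ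
      rw [List.mem_singleton.1 hθ]
      trivial) ?_ (M := M) (w := w) (ρ := as4 (M.num c) (M.num c') (M.num c) (M.num c))
    (τ := fun _ => M.tc)
    (Kr.gf_as4 (Kr.gf_num _) (Kr.gf_num _) (Kr.gf_num _) (Kr.gf_num _)) (fun _ => by simp)
    (M.pr c (M.pr c' M.zr)) ?_ ?_ (fun ψ hψ => absurd hψ (by simp))
  · exact this
  · intro N u e hc hθ _ d v h k
    have h1 := hθ _ (List.mem_singleton.2 rfl)
    have h1 : ∃ m, N.dst (N.fn (prj 0) e) (N.fn (prj 1) e) = N.S m := by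
      simpa [KD.F, Kr.dst, dstF, prj] using h1
    obtain ⟨m, h1⟩ := h1
    have k : N.fn left (N.fn (pair (.mv 0) idn) (N.tr h d)) =
        N.fn (.mv 1) (N.fn (pair (.mv 0) idn) (N.tr h d)) := k
    rw [N.fn_pair, N.left_pr, hc 0 (by norm_num) v h, hc 1 (by norm_num) v h, ← N.tr_fn,
      ← N.tr_fn] at k
    have h2 := congrArg (N.tr h) h1
    rw [Kr.tr_dst, Kr.dst_eq_zr.2 k, N.tr_fn] at h2
    exact N.succ_ne _ h2.symm
  · intro i hi
    interval_cases i <;> simp [prj, as4]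
  · intro θ hθ
    rw [List.mem_singleton.1 hθ]
    have h1 : ∃ m, M.dst c c' = M.S m := ⟨m, h⟩
    simpa [KD.F, Kr.dst, dstF, prj] using h1

/-- A disjunction, a false case. -/
theorem Kr.tn_stepN {a b c f g : M.D w} (ha : M.gm a) (hb : M.gm b) (hf : M.gf f) (hg : M.gf g)
    (h : M.Pv (M.im (M.sbc a f) c)) (k : M.Pv (M.im (M.sbc (M.eqc (M.nd 3 M.zr M.zr) g) f) M.btc)) :
    M.Pv (M.im (M.sbc (M.dj a (M.cj (M.eqc (M.nd 3 M.zr M.zr) g) b)) f) c) :=
  Kr.q2 (A := imp (sub (.mv 0) (.mv 0)) (.mv 2)) (B := imp (sub (eq left (.mv 1)) (.mv 0)) bot)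
    (φ := imp (sub (disj (.mv 0) (conj (eq left (.mv 1)) (.mv 1))) (.mv 0)) (.mv 2))
    (ρ := as4 f g g g) (τ := as4 a b c c) (Kr.gf_as4 hf hg hg hg)
    (Kr.gm_as4 ha hb (Kr.im_gm h).2 (Kr.im_gm h).2) h k
    (fun N w hA hB d v l h => by
      rcases h with h | h
      · exact Kr.F_app (hA v l _) h
      · exact (Kr.F_app (hB v l _) h.1).elim)

/-- A disjunction, both cases imply the formula. -/
theorem Kr.tn_stepE {a b f g : M.D w} (ha : M.gm a) (hg : M.gf g)
    (h : M.Pv (M.im (M.sbc a (M.nd 5 f (M.nd 0 M.zr M.zr))) b)) :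
    M.Pv (M.im (M.sbc (M.dj a (M.cj (M.eqc (M.nd 3 M.zr M.zr) g) (M.sbc b (M.nd 4 M.zr M.zr))))
      (M.nd 5 f (M.nd 0 M.zr M.zr))) b) := by
  have hf : M.gf f := (Kr.gf_nd5.1 (Kr.gm_sbc.1 (Kr.im_gm h).1).2).1
  exact Kr.q1 (A := imp (sub (.mv 0) (pair (.mv 0) idn)) (.mv 1))
    (φ := imp (sub (disj (.mv 0) (conj (eq left (.mv 1)) (sub (.mv 1) right)))
      (pair (.mv 0) idn)) (.mv 1))
    (ρ := as4 f g g g) (τ := as4 a b b b) (Kr.gf_as4 hf hg hg hg)
    (Kr.gm_as4 ha (Kr.im_gm h).2 (Kr.im_gm h).2 (Kr.im_gm h).2) h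
    (fun N w hA d v l h => by
      rcases h with h | h
      · exact Kr.F_app (hA v l _) h
      · have h2 : N.F (.mv 1) (N.fn right (N.fn (pair (.mv 0) idn) (N.tr l d))) := h.2
        rw [N.fn_pair, N.fn_idn, N.right_pr] at h2
        exact h2)

section
variable {tF BF RF : Fn V} {Sm : Fm V} {e : M.D w}

theorem Kr.gm_tn (hT : ∀ (v : M.W) (h : w ≤ v) (a : M.D v), M.gm a →
    M.gm (M.fn tF (M.pr (M.tr h e) a))) (n : M.D w) : M.gm (M.tn tF e n) := by
  have key : ∀ {v : M.W} (x y : M.D v), M.F (eq (comp nfmF (tnF tF)) (tnF tF)) (M.pr x y) ↔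
      M.gm (M.tn tF x y) := by
    intro v x y
    simp [KD.F, Kr.gm, Kr.tn]
  rw [← key]
  refine M.ind _ e ?_ ?_ n
  · rw [key, Kr.tn_zr]
    simp
  · intro v h m hm
    rw [key] at hm ⊢
    rw [Kr.tn_S]
    simp [hm, hT v h _ (M.gm_nfm m)]

theorem Kr.tn_out (hT : ∀ (v : M.W) (h : w ≤ v) (a : M.D v), M.gm a →
    M.gm (M.fn tF (M.pr (M.tr h e) a))) (htc : M.Pv (M.fn tF (M.pr e M.tc))) {c : M.D w}
    (hc : M.gm c) (n : M.D w) :
    M.Pv (M.im (M.sbc (M.tn tF e n) (M.atc c)) (M.fn tF (M.pr e c))) := by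
  have hT0 : ∀ a : M.D w, M.gm a → M.gm (M.fn tF (M.pr e a)) := by
    intro a ha
    have := hT w (le_refl w) a ha
    rwa [M.tr_refl] at this
  have hTv : ∀ (v : M.W) (h : w ≤ v) (x : M.D v), M.gm (M.tn tF (M.tr h e) x) := by
    intro v h x
    refine Kr.gm_tn (fun u k a ha => ?_) x
    rw [M.tr_tr]
    exact hT u (h.trans k) a ha
  have key : ∀ {v : M.W} (x c n : M.D v), M.F (prT (ndF 4 (ndF 7 (comp (tnF tF)
      (pair (comp left left) right)) (ndF 5 (comp numF (comp right left)) (ndF 0 zero zero)))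
      (comp tF left))) (M.pr (M.pr x c) n) ↔
      M.Pv (M.im (M.sbc (M.tn tF x n) (M.atc c)) (M.fn tF (M.pr x c))) := by
    intro v x c n
    rw [Kr.F_prT]
    simp [Kr.tn, Kr.atc]
  rw [← key]
  refine M.ind _ (M.pr e c) ?_ ?_ n
  · rw [key, Kr.tn_zr]
    rcases M.eq_or_ne c M.tc with h | ⟨m, h⟩
    · rw [h]
      exact Kr.Pv_k (by simp) htc
    · refine Kr.q_tr (Kr.tn_ne h) ?_
      exact Kr.q0 (φ := imp bot (.mv 0)) (ρ := fun _ => M.nd 0 M.zr M.zr)
        (τ := fun _ => M.fn tF (M.pr e c)) (fun _ => M.gf0) (fun _ => hT0 c hc)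
        (fun _ _ _ _ _ h => h.elim)
  · intro v h n hn
    rw [M.tr_pr, key] at hn ⊢
    rw [Kr.tn_S]
    have hc := Kr.gm_mono h hc
    rcases M.eq_or_ne (M.tr h c) n with h1 | ⟨m, h1⟩
    · rw [← h1]
      have h2 : M.nfm (M.tr h c) = M.tr h c := hc
      rw [h2]
      rw [← h1] at hn
      exact Kr.tn_stepE (hTv v h _) (Kr.gf_num _) hn
    · refine Kr.tn_stepN (hTv v h n) ?_ (Kr.gf_atc _) (Kr.gf_num n) hn (Kr.tn_ne h1)
      simp [hT v h _ (M.gm_nfm n)]

/-- A constant is equal to itself. -/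
theorem Kr.tn_self {c a b : M.D w} (ha : M.gm a) (hb : M.gm b) :
    M.Pv (M.im b (M.sbc (M.dj a (M.cj (M.eqc (M.nd 3 M.zr M.zr) (M.num c))
      (M.sbc b (M.nd 4 M.zr M.zr)))) (M.atc c))) :=
  Kr.q1 (A := eq (comp (.mv 0) (pair (.mv 0) idn)) (.mv 0))
    (φ := imp (.mv 1) (sub (disj (.mv 0) (conj (eq left (.mv 0)) (sub (.mv 1) right)))
      (pair (.mv 0) idn)))
    (ρ := fun _ => M.num c) (τ := as4 a b b b) (fun _ => Kr.gf_num c)
    (Kr.gm_as4 ha hb hb hb) (Kr.Pe_num c (Kr.gf_atc c))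
    (fun N w hA d v l h => by
      have h1 : N.fn (comp (.mv 0) (pair (.mv 0) idn)) (N.tr l d) = N.fn (.mv 0) (N.tr l d) :=
        hA v l _
      refine Or.inr ⟨?_, ?_⟩
      · show N.fn left (N.fn (pair (.mv 0) idn) (N.tr l d)) =
          N.fn (.mv 0) (N.fn (pair (.mv 0) idn) (N.tr l d))
        rw [← N.fn_comp (.mv 0), h1, N.fn_pair, N.left_pr]
      · show N.F (.mv 1) (N.fn right (N.fn (pair (.mv 0) idn) (N.tr l d)))
        rw [N.fn_pair, N.fn_idn, N.right_pr]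
        exact h)

/-- The first case of a disjunction. -/
theorem Kr.tn_left {a b c f : M.D w} (hb : M.gm b) (h : M.Pv (M.im c (M.sbc a f))) :
    M.Pv (M.im c (M.sbc (M.dj a b) f)) := by
  have g := Kr.gm_sbc.1 (Kr.im_gm h).2
  exact Kr.q1 (A := imp (.mv 2) (sub (.mv 0) (.mv 0)))
    (φ := imp (.mv 2) (sub (disj (.mv 0) (.mv 1)) (.mv 0)))
    (ρ := fun _ => f) (τ := as4 a b c c) (fun _ => g.2)
    (Kr.gm_as4 g.1 hb (Kr.im_gm h).1 (Kr.im_gm h).1) h
    (fun N w hA d v l h => by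
      have h1 : N.F (sub (.mv 0) (.mv 0)) (N.tr l d) := Kr.F_app (hA v l _) h
      exact Or.inl h1)

theorem Kr.tn_in (hT : ∀ (v : M.W) (h : w ≤ v) (a : M.D v), M.gm a →
    M.gm (M.fn tF (M.pr (M.tr h e) a))) {c : M.D w} (hc : M.gm c) {n : M.D w}
    (hn : M.le (M.S c) n) :
    M.Pv (M.im (M.fn tF (M.pr e c)) (M.sbc (M.tn tF e n) (M.atc c))) := by
  have hT0 : ∀ a : M.D w, M.gm a → M.gm (M.fn tF (M.pr e a)) := by
    intro a ha
    have := hT w (le_refl w) a ha
    rwa [M.tr_refl] at this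
  obtain ⟨k, rfl⟩ := hn
  have key : ∀ {v : M.W} (x c k : M.D v), M.F (prT (ndF 4 (comp tF left) (ndF 7 (comp (tnF tF)
      (pair (comp left left) (comp addF (pair (comp succ (comp right left)) right))))
      (ndF 5 (comp numF (comp right left)) (ndF 0 zero zero))))) (M.pr (M.pr x c) k) ↔
      M.Pv (M.im (M.fn tF (M.pr x c)) (M.sbc (M.tn tF x (M.add (M.S c) k)) (M.atc c))) := by
    intro v x c k
    rw [Kr.F_prT]
    simp [Kr.tn, Kr.atc, Kr.add]
  rw [← key]
  refine M.ind _ (M.pr e c) ?_ ?_ k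
  · rw [key, Kr.add_zr, Kr.tn_S]
    have h2 : M.nfm c = c := hc
    rw [h2]
    exact Kr.tn_self (Kr.gm_tn hT c) (hT0 c hc)
  · intro v h m hm
    rw [M.tr_pr, key] at hm ⊢
    rw [Kr.add_S, Kr.tn_S]
    refine Kr.tn_left ?_ hm
    simp [hT v h _ (M.gm_nfm _)]

theorem Kr.tn_tc (hT : ∀ (v : M.W) (h : w ≤ v) (a : M.D v), M.gm a →
    M.gm (M.fn tF (M.pr (M.tr h e) a))) (n : M.D w) :
    M.Pv (M.sbc (M.tn tF e n) (M.atc M.tc)) := by
  have key : ∀ {v : M.W} (x n : M.D v), M.F (prT (ndF 7 (tnF tF)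
      (ndF 5 (comp numF topF) (ndF 0 zero zero)))) (M.pr x n) ↔
      M.Pv (M.sbc (M.tn tF x n) (M.atc M.tc)) := by
    intro v x n
    rw [Kr.F_prT]
    simp [Kr.tn, Kr.atc]
  rw [← key]
  refine M.ind _ e ?_ ?_ n
  · rw [key, Kr.tn_zr]
    exact Kr.q1 (A := eq (comp (.mv 0) (pair (.mv 0) idn)) (.mv 0))
      (φ := sub (eq left (.mv 0)) (pair (.mv 0) idn))
      (ρ := fun _ => M.num M.tc) (τ := fun _ => M.tc) (fun _ => Kr.gf_num _)
      (fun _ => by simp) (Kr.Pe_num M.tc (Kr.gf_atc M.tc))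
      (fun N w hA d => by
        have h1 : N.fn (comp (.mv 0) (pair (.mv 0) idn)) d = N.fn (.mv 0) d :=
          hA w (le_refl w) _
        show N.fn left (N.fn (pair (.mv 0) idn) d) = N.fn (.mv 0) (N.fn (pair (.mv 0) idn) d)
        rw [← N.fn_comp (.mv 0), h1, N.fn_pair, N.left_pr])
  · intro v h m hm
    rw [key] at hm ⊢
    rw [Kr.tn_S]
    have g := Kr.gm_sbc.1 (Kr.Pv_gm hm)
    exact Kr.q1 (A := sub (.mv 0) (.mv 0)) (φ := sub (disj (.mv 0) (.mv 1)) (.mv 0))
      (ρ := fun _ => M.atc M.tc) (τ := as4 (M.tn tF (M.tr h e) m)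
        (M.cj (M.eqc (M.nd 3 M.zr M.zr) (M.num m))
          (M.sbc (M.fn tF (M.pr (M.tr h e) (M.nfm m))) (M.nd 4 M.zr M.zr))) M.tc M.tc)
      (fun _ => Kr.gf_atc _)
      (Kr.gm_as4 g.1 (by simp [hT v h _ (M.gm_nfm m)]) (by simp) (by simp)) hm
      (fun N w hA d => Or.inl (hA w (le_refl w) d))

end

/-- Bounded quantification: if an internal formula, given by `φ` as a function of `e`, is
provable for the first component of its argument equal to each internal `c < n`, then it is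
provable for all values below `n` of the first component. -/
theorem Kr.bq {a n : M.D w} (ha : M.gm a)
    (h : ∀ (v : M.W) (k : w ≤ v) (c : M.D v), M.le (M.S c) (M.tr k n) →
      M.Pv (M.sbc (M.tr k a) (M.atc c))) :
    M.Pv (M.icm (fun _ => M.num n) (fun _ => a)
      (imp (leT (comp succ left) (.mv 0)) (.mv 0) : Fm ℕ)) := by
  have key : ∀ {v : M.W} (a n m : M.D v), M.F (imp (leT right (comp right left))
      (prT (cdm (fun _ => comp numF right) (fun _ => comp left left)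
        (imp (leT (comp succ left) (.mv 0)) (.mv 0) : Fm ℕ)))) (M.pr (M.pr a n) m) ↔
      ∀ (u : M.W) (l : v ≤ u), M.le (M.tr l m) (M.tr l n) →
        M.Pv (M.icm (fun _ => M.num (M.tr l m)) (fun _ => M.tr l a)
          (imp (leT (comp succ left) (.mv 0)) (.mv 0) : Fm ℕ)) := by
    intro v a n m
    rw [Kr.F_imp]
    refine forall_congr' fun u => forall_congr' fun l => ?_
    rw [Kr.F_leT, Kr.F_prT, Kr.fn_cdm]
    simp
  have fin : M.F (imp (leT right (comp right left))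
      (prT (cdm (fun _ => comp numF right) (fun _ => comp left left)
        (imp (leT (comp succ left) (.mv 0)) (.mv 0) : Fm ℕ)))) (M.pr (M.pr a n) n) := by
    refine M.ind _ (M.pr a n) ?_ ?_ n
    · rw [key]
      intro u l _
      rw [M.tr_zr]
      refine Kr.ruleC 1 [eq left zero] [] _ (by
        intro θ hθ
        rw [List.mem_singleton.1 hθ]
        trivial) ?_ (fun _ => Kr.gf_num _) (fun _ => Kr.gm_mono l ha) (M.pr M.zr M.zr) ?_ ?_
        (fun ψ hψ => absurd hψ (by simp))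
      · intro N u e hc hθ _ d v h k
        have h1 := hθ _ (List.mem_singleton.2 rfl)
        have h1 : N.fn left e = N.zr := by simpa [KD.F] using h1
        rw [Kr.F_leT, hc 0 (by norm_num) v h, ← N.tr_fn h (prj 0)] at k
        have e0 : N.fn (prj 0) e = N.zr := h1
        rw [e0, N.tr_zr, N.fn_comp] at k
        exact (N.succ_ne _ (Kr.le_zr k)).elim
      · intro i hi
        obtain rfl : i = 0 := by omega
        simp [prj]
      · intro θ hθ
        rw [List.mem_singleton.1 hθ]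
        simp [KD.F]
    · intro v k m hm
      rw [M.tr_pr, key] at hm ⊢
      intro u l hl
      rw [M.tr_fn] at hl ⊢
      have h1 := h u (k.trans l) (M.tr l m) (by rwa [← M.tr_tr k l])
      rw [← M.tr_tr k l] at h1
      have h2 := hm u l (M.le_trans' (M.le_S (M.le_rfl' _)) hl)
      refine Kr.ruleC 2 [eq left (comp succ (comp left right))]
        [imp (leT (comp succ left) (.mv 1)) (.mv 0), sub (.mv 0) (pair (.mv 1) idn)]
        (imp (leT (comp succ left) (.mv 0)) (.mv 0)) (by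
        intro θ hθ
        rw [List.mem_singleton.1 hθ]
        trivial) ?_ (ρ := as4 (M.num (M.S (M.tr l m))) (M.num (M.tr l m))
          (M.num (M.tr l m)) (M.num (M.tr l m)))
        (Kr.gf_as4 (Kr.gf_num _) (Kr.gf_num _) (Kr.gf_num _) (Kr.gf_num _))
        (fun _ => Kr.gm_mono l (Kr.gm_mono k ha))
        (M.pr (M.S (M.tr l m)) (M.pr (M.tr l m) M.zr)) ?_ ?_ ?_
      · intro N u e hc hθ hN d v h k
        have h1 := hθ _ (List.mem_singleton.2 rfl)
        have h1 : N.fn (prj 0) e = N.S (N.fn (prj 1) e) := by simpa [KD.F, prj] using h1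
        rw [Kr.F_leT, hc 0 (by norm_num) v h, ← N.tr_fn h (prj 0), h1, N.fn_comp, N.tr_fn,
          Kr.S_le_S] at k
        obtain ⟨j, hj⟩ := k
        rcases N.zr_or_S j with rfl | ⟨i, rfl⟩
        · rw [N.add_zr] at hj
          have h3 := hN (sub (.mv 0) (pair (.mv 1) idn)) (by simp) v h
            (N.fn right (N.tr h d))
          have h3 : N.F (.mv 0) (N.fn (pair (.mv 1) idn) (N.fn right (N.tr h d))) := h3
          rw [N.fn_pair, N.fn_idn, hc 1 (by norm_num) v h, ← N.tr_fn, ← hj, N.pr_eta] at h3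
          exact h3
        · have h3 := hN (imp (leT (comp succ left) (.mv 1)) (.mv 0)) (by simp) v h (N.tr h d)
          refine Kr.F_app h3 ?_
          rw [Kr.F_leT, hc 1 (by norm_num) v h, ← N.tr_fn, N.fn_comp]
          exact ⟨i, by rw [N.tr_fn, N.S_add, ← N.add_S, N.tr_fn, hj, N.tr_fn]⟩
      · intro i hi
        interval_cases i <;> simp [prj, as4]
      · intro θ hθ
        rw [List.mem_singleton.1 hθ]
        simp [KD.F]
      · intro ψ hψ
        simp only [List.mem_cons, List.not_mem_nil, or_false] at hψ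
        rcases hψ with rfl | rfl
        · exact h2
        · exact h1
  have := (key a n n).1 fin w (le_refl w)
  rw [M.tr_refl, M.tr_refl] at this
  exact this (M.le_rfl' n)

end HAr
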