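import Pool.Agent.Lib.MP_61e577_lc.Ar.Box

/-! Translations of formula codes: the general recursion, and the box translation. -/

namespace HAr

open Fn Fm

variable {V U : Type} {M : Kr V} {w : M.W}

theorem Kr.trG_cs (qF bF rF : Fn V) (e t m : M.D w) : M.fn (trG qF bF rF) (M.pr e (M.cs t m)) =
    M.fn (sw (trL qF bF rF) (comp rF (comp right right)))
    (M.pr (M.pr (M.pr (M.fn (trG qF bF rF) (M.pr e (M.hd m))) (M.fn (trG qF bF rF) (M.pr e (M.tl m))))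
      (M.pr m e)) t) := by
  rw [trG, Kr.frec_cs]
  simp

section
variable (qF bF rF : Fn V) (e a b : M.D w)

theorem Kr.trG_eq : M.fn (trG qF bF rF) (M.pr e (M.nd 0 a b)) =
    M.fn qF (M.pr e (M.nd 0 a b)) := by
  rw [Kr.nd, Kr.trG_cs]; simp [Kr.nm, trL, cst]

theorem Kr.trG_bt : M.fn (trG qF bF rF) (M.pr e (M.nd 1 a b)) = M.fn rF e := by
  rw [Kr.nd, Kr.trG_cs]; simp [Kr.nm, trL]

theorem Kr.trG_cj : M.fn (trG qF bF rF) (M.pr e (M.nd 2 a b)) =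
    M.nd 2 (M.fn (trG qF bF rF) (M.pr e a)) (M.fn (trG qF bF rF) (M.pr e b)) := by
  rw [Kr.nd, Kr.trG_cs]; simp [Kr.nm, trL]

theorem Kr.trG_dj : M.fn (trG qF bF rF) (M.pr e (M.nd 3 a b)) =
    M.nd 3 (M.fn (trG qF bF rF) (M.pr e a)) (M.fn (trG qF bF rF) (M.pr e b)) := by
  rw [Kr.nd, Kr.trG_cs]; simp [Kr.nm, trL]

theorem Kr.trG_im : M.fn (trG qF bF rF) (M.pr e (M.nd 4 a b)) =
    M.nd 2 (M.nd 4 (M.fn (trG qF bF rF) (M.pr e a)) (M.fn (trG qF bF rF) (M.pr e b)))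
      (M.fn bF (M.pr e (M.pr (M.nd 4 a b)
        (M.nd 4 (M.fn (trG qF bF rF) (M.pr e a)) (M.fn (trG qF bF rF) (M.pr e b)))))) := by
  rw [Kr.nd, Kr.trG_cs]; simp [Kr.nm, trL, Kr.nd, cst]

theorem Kr.trG_ex : M.fn (trG qF bF rF) (M.pr e (M.nd 5 a b)) =
    M.nd 5 (M.fn (trG qF bF rF) (M.pr e a)) M.zr := by
  rw [Kr.nd, Kr.trG_cs]; simp [Kr.nm, trL]

theorem Kr.trG_al : M.fn (trG qF bF rF) (M.pr e (M.nd 6 a b)) =
    M.nd 2 (M.nd 6 (M.fn (trG qF bF rF) (M.pr e a)) M.zr)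
      (M.fn bF (M.pr e (M.pr (M.nd 6 a b)
        (M.nd 6 (M.fn (trG qF bF rF) (M.pr e a)) M.zr)))) := by
  rw [Kr.nd, Kr.trG_cs]; simp [Kr.nm, trL, Kr.nd, cst]

theorem Kr.trG_sb : M.fn (trG qF bF rF) (M.pr e (M.nd 7 a b)) =
    M.nd 7 (M.fn (trG qF bF rF) (M.pr e a)) b := by
  rw [Kr.nd, Kr.trG_cs]; simp [Kr.nm, trL]

end

/-! ### The box translation -/

def Kr.bt (M : Kr V) {w : M.W} (a : M.D w) : M.D w := M.fn btF a

@[simp] theorem Kr.fn_btF (a : M.D w) : M.fn btF a = M.bt a := rfl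

theorem Kr.fn_btG (a : M.D w) : M.fn btG (M.pr M.zr a) = M.bt a := by simp [Kr.bt, btF]

@[simp] theorem Kr.tr_bt {v : M.W} (h : w ≤ v) (a : M.D w) : M.tr h (M.bt a) = M.bt (M.tr h a) :=
  M.tr_fn h _ a

section
variable (a b : M.D w)

@[simp] theorem Kr.bt_eq : M.bt (M.nd 0 a b) = M.nd 2 (M.nd 0 a b) (M.bxC (M.nd 0 a b)) := by
  rw [← Kr.fn_btG, btG, Kr.trG_eq]; simp

@[simp] theorem Kr.bt_bt : M.bt (M.nd 1 a b) = M.btc := by
  rw [← Kr.fn_btG, btG, Kr.trG_bt]; simp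

@[simp] theorem Kr.bt_cj : M.bt (M.nd 2 a b) = M.nd 2 (M.bt a) (M.bt b) := by
  rw [← Kr.fn_btG, ← Kr.fn_btG, ← Kr.fn_btG, btG, Kr.trG_cj]

@[simp] theorem Kr.bt_dj : M.bt (M.nd 3 a b) = M.nd 3 (M.bt a) (M.bt b) := by
  rw [← Kr.fn_btG, ← Kr.fn_btG, ← Kr.fn_btG, btG, Kr.trG_dj]

@[simp] theorem Kr.bt_im : M.bt (M.nd 4 a b) = M.nd 2 (M.nd 4 (M.bt a) (M.bt b))
    (M.bxC (M.nd 4 (M.bt a) (M.bt b))) := by
  rw [← Kr.fn_btG, ← Kr.fn_btG, ← Kr.fn_btG, btG, Kr.trG_im]; simp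

@[simp] theorem Kr.bt_ex : M.bt (M.nd 5 a b) = M.nd 5 (M.bt a) M.zr := by
  rw [← Kr.fn_btG, ← Kr.fn_btG, btG, Kr.trG_ex]

@[simp] theorem Kr.bt_al : M.bt (M.nd 6 a b) = M.nd 2 (M.nd 6 (M.bt a) M.zr)
    (M.bxC (M.nd 6 (M.bt a) M.zr)) := by
  rw [← Kr.fn_btG, ← Kr.fn_btG, btG, Kr.trG_al]; simp

@[simp] theorem Kr.bt_sb : M.bt (M.nd 7 a b) = M.nd 7 (M.bt a) b := by
  rw [← Kr.fn_btG, ← Kr.fn_btG, btG, Kr.trG_sb]

end

private theorem trg_icf_li (ρ : ℕ → M.D w) (f : Fn Empty) : M.icf ρ (f.li : Fn ℕ) =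
    M.icf (eD M w) f := Kr.icf_li ρ f

/-- The code of `a is provable at the argument`, for actual formulas. -/
theorem Kr.bxC_enc (P : Fm Empty) : M.bxC (M.nm (w := w) (encM P)) =
    M.nm (encM (bxT (cst (encM P)))) := by
  have e1 : ∀ ρ : ℕ → M.D w, M.icf ρ (conclF : Fn ℕ) = M.icf (eD M w) conclF := fun ρ => by
    rw [← trg_icf_li ρ, li_conclF]
  have e2 : ∀ ρ : ℕ → M.D w, M.icf ρ (numF : Fn ℕ) = M.icf (eD M w) numF := fun ρ => by
    rw [← trg_icf_li ρ]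
    rfl
  have e3 : ∀ (ρ : ℕ → M.D w) (k : ℕ), M.icf ρ (cst k : Fn ℕ) = M.icf (eD M w) (cst k) :=
    fun ρ k => by
      rw [← trg_icf_li ρ, li_cst]
  rw [Kr.nm_encM (bxT (cst (encM P))), Kr.bxC]
  simp only [bxT, prT, ndF, Kr.icm, Kr.icf, e1, e2, e3, Kr.num_nm (eD M w)]

/-- The box translation on codes computes the box translation. -/
theorem Kr.bt_enc (P : Fm Empty) : M.bt (M.nm (w := w) (encM P)) = M.nm (encM (bx P)) := by
  induction P with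
  | mv i => exact i.elim
  | eq f g =>
    show M.bt (M.nm (ndN 0 (encF f) (encF g))) =
      M.nm (ndN 2 (encM (eq f g)) (encM (bxT (cst (encM (eq f g))))))
    rw [Kr.nm_ndN, Kr.bt_eq, ← Kr.nm_ndN, Kr.nm_ndN 2]
    exact congrArg _ (Kr.bxC_enc (eq f g))
  | bot =>
    rw [encM, Kr.nm_ndN, Kr.bt_bt, bx, encM, Kr.nm_ndN]
    rfl
  | conj P Q hP hQ => rw [encM, Kr.nm_ndN, Kr.bt_cj, hP, hQ, bx, encM, Kr.nm_ndN]
  | disj P Q hP hQ => rw [encM, Kr.nm_ndN, Kr.bt_dj, hP, hQ, bx, encM, Kr.nm_ndN]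
  | imp P Q hP hQ =>
    rw [encM, Kr.nm_ndN, Kr.bt_im, hP, hQ, bx, encM, Kr.nm_ndN, ← Kr.bxC_enc, encM, Kr.nm_ndN]
  | ex P hP =>
    rw [encM, Kr.nm_ndN, Kr.bt_ex, hP, bx, encM, Kr.nm_ndN]
    rfl
  | all P hP =>
    rw [encM, Kr.nm_ndN, Kr.bt_al, hP, bx, encM, Kr.nm_ndN, ← Kr.bxC_enc, encM, Kr.nm_ndN]
    rfl
  | sub P f hP => rw [encM, Kr.nm_ndN, Kr.bt_sb, hP, bx, encM, Kr.nm_ndN]

/-- The general translation of a good code is a good code. -/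
theorem Kr.gm_trG {qF bF rF : Fn V} {e a : M.D w}
    (hq : ∀ (v : M.W) (h : w ≤ v) (f g : M.D v), M.gf f → M.gf g →
      M.gm (M.fn qF (M.pr (M.tr h e) (M.nd 0 f g))))
    (hb : ∀ (v : M.W) (h : w ≤ v) (a b : M.D v), M.gm a → M.gm b →
      M.gm (M.fn bF (M.pr (M.tr h e) (M.pr a b))))
    (hr : M.gm (M.fn rF e)) (h : M.gm a) : M.gm (M.fn (trG qF bF rF) (M.pr e a)) := by
  have key := M.gm_ind (eq (comp nfmF (trG qF bF rF)) (trG qF bF rF)) e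
    (by
      intro v h f g hf hg
      show M.fn (comp nfmF (trG qF bF rF)) _ = M.fn (trG qF bF rF) _
      rw [M.fn_comp, Kr.trG_eq]
      exact hq v h f g hf hg)
    (by
      show M.fn (comp nfmF (trG qF bF rF)) _ = M.fn (trG qF bF rF) _
      rw [M.fn_comp, Kr.trG_bt]
      exact hr)
    (by
      intro v h k x y h2 h5 hx hy ex ey
      have ex : M.gm (M.fn (trG qF bF rF) (M.pr (M.tr h e) x)) := by
        have ex : M.fn (comp nfmF (trG qF bF rF)) _ = M.fn (trG qF bF rF) _ := ex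
        rw [M.fn_comp] at ex
        exact ex
      have ey : M.gm (M.fn (trG qF bF rF) (M.pr (M.tr h e) y)) := by
        have ey : M.fn (comp nfmF (trG qF bF rF)) _ = M.fn (trG qF bF rF) _ := ey
        rw [M.fn_comp] at ey
        exact ey
      show M.fn (comp nfmF (trG qF bF rF)) _ = M.fn (trG qF bF rF) _
      rw [M.fn_comp]
      show M.gm _
      interval_cases k
      · rw [Kr.trG_cj]
        exact Kr.gm_cj.2 ⟨ex, ey⟩
      · rw [Kr.trG_dj]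
        exact Kr.gm_dj.2 ⟨ex, ey⟩
      · rw [Kr.trG_im]
        exact Kr.gm_cj.2 ⟨Kr.gm_im.2 ⟨ex, ey⟩, hb v h _ _ (Kr.gm_im.2 ⟨hx, hy⟩)
          (Kr.gm_im.2 ⟨ex, ey⟩)⟩)
    (by
      intro v h k x h2 h5 hx ex
      have ex : M.gm (M.fn (trG qF bF rF) (M.pr (M.tr h e) x)) := by
        have ex : M.fn (comp nfmF (trG qF bF rF)) _ = M.fn (trG qF bF rF) _ := ex
        rw [M.fn_comp] at ex
        exact ex
      show M.fn (comp nfmF (trG qF bF rF)) _ = M.fn (trG qF bF rF) _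
      rw [M.fn_comp]
      show M.gm _
      interval_cases k
      · rw [Kr.trG_ex]
        exact Kr.gm_exc.2 ex
      · rw [Kr.trG_al]
        exact Kr.gm_cj.2 ⟨Kr.gm_alc.2 ex, hb v h _ _ (Kr.gm_alc.2 hx) (Kr.gm_alc.2 ex)⟩)
    (by
      intro v h x f hx hf ex
      have ex : M.gm (M.fn (trG qF bF rF) (M.pr (M.tr h e) x)) := by
        have ex : M.fn (comp nfmF (trG qF bF rF)) _ = M.fn (trG qF bF rF) _ := ex
        rw [M.fn_comp] at ex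
        exact ex
      show M.fn (comp nfmF (trG qF bF rF)) _ = M.fn (trG qF bF rF) _
      rw [M.fn_comp]
      show M.gm _
      rw [Kr.trG_sb]
      exact Kr.gm_sbc.2 ⟨ex, hf⟩) h
  have key : M.fn (comp nfmF (trG qF bF rF)) _ = M.fn (trG qF bF rF) _ := key
  rw [M.fn_comp] at key
  exact key

/-- The box translation of a good code is a good code. -/
theorem Kr.gm_bt {a : M.D w} (h : M.gm a) : M.gm (M.bt a) := by
  rw [← Kr.fn_btG, btG]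
  refine Kr.gm_trG ?_ ?_ ?_ h
  · intro v h f g hf hg
    simp [hf, hg]
  · intro v h a b ha hb
    simp
  · simp

end HAr
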