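import Pool.Agent.Lib.MP_61e577_lc.Ar.Reflid
import Pool.Agent.Lib.MP_61e577_lc.Ar.GTm

/-! The translations with instance provability as side formula. The parameter is
`e = (n, (R, FF))` with `FF` a sequence of `l` formulas. -/

namespace HAr

open Fn Fm

variable {V U : Type} {M : Kr V} {w : M.W}

/-- Instance provability from each of `l` formulas; `mv 0`, `mv 1`, `mv (i + 2)` are the numerals
of the bound, of the code and of the `i`-th formula. -/
def bxs : ℕ → Fm ℕ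
  | 0 => eq zero zero
  | l + 1 => conj (bxs l) (insT (.mv 0) (.mv (l + 2)) (.mv 1))

/-- Numerals of bound, code, formulas, at `(e, c)`. -/
def bxR : ℕ → Fn V
  | 0 => comp numF (comp left left)
  | 1 => comp numF right
  | i + 2 => comp numF (comp (prj i) (comp right (comp right left)))

/-- The side formula of the translation, at `(e, c)`. -/
def BFl (l : ℕ) : Fn V :=
  cdm bxR (fun _ => comp left (comp right left)) (disj (bxs l) (.mv 0))

/-- The translation, at `(e, a)`. -/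
def trl (l : ℕ) : Fn V := trG (ndF 3 right (comp left (comp right left)))
  (comp (BFl l) (pair left (comp left right))) (comp left right)

/-- The codes below the bound. -/
def smT : Fm V := leT (comp succ right) (comp left left)

/-- The `i`-th formula. -/
def ffF (i : ℕ) : Fn V := comp (prj i) (comp right right)

/-- Valid parameters. -/
structure Kr.Va (M : Kr V) (l : ℕ) {w : M.W} (e : M.D w) : Prop where
  gR : M.gm (M.fn (comp left right) e)
  iR : M.inv (M.fn (comp left right) e)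
  gF : ∀ i < l, M.gm (M.fn (ffF i) e)

theorem Kr.trl_inv_mono {v : M.W} (h : w ≤ v) {a : M.D w} (k : M.inv a) : M.inv (M.tr h a) := by
  have := Kr.Pv_mono h k
  unfold Kr.inv
  simpa using this

theorem Kr.Va_mono {l : ℕ} {v : M.W} (h : w ≤ v) {e : M.D w} (k : M.Va l e) :
    M.Va l (M.tr h e) where
  gR := by rw [← M.tr_fn]; exact Kr.gm_mono h k.gR
  iR := by rw [← M.tr_fn]; exact Kr.trl_inv_mono h k.iR
  gF := fun i hi => by rw [← M.tr_fn]; exact Kr.gm_mono h (k.gF i hi)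

/-! ### Closed functions -/

theorem trl_li_evF : (evF : Fn Empty).li = (evF : Fn V) := rfl

theorem trl_li_insF : (insF : Fn Empty).li = (insF : Fn V) := by
  unfold insF
  simp only [li_frec, li_comp, li_sw, li_pair, li_left, li_right, insL, in0, chk,
    List.map_cons, List.map_nil, li_cnd, li_cnq, li_monF, li_succ, li_hdF, li_tlF, li_conclF,
    li_ndF, trl_li_evF, li_nfmF, li_topF, li_zero]

theorem trl_ms_insF (r : U → Fn V) : (insF : Fn U).ms r = insF := by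
  rw [← trl_li_insF, Fn.ms_li, trl_li_insF]

theorem Kr.trl_icf_insF (ρ : U → M.D w) : M.icf ρ insF = M.icf (eD M w) insF := by
  have := Kr.icf_li ρ (insF : Fn Empty)
  rwa [trl_li_insF] at this

theorem trl_ms_insT (r : U → Fn V) (t : U → Fm V) (n F c : Fn U) :
    (insT n F c).ms r t = insT (n.ms r) (F.ms r) (c.ms r) := by
  simp only [insT, Fm.ms, Fn.ms, trl_ms_insF]

/-! ### The meaning of the side formula -/

theorem Kr.F_bxs (r : ℕ → Fn V) (t : ℕ → Fm V) (d : M.D w) : ∀ l : ℕ,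
    M.F ((bxs l).ms r t) d ↔
      ∀ i < l, M.Ins (M.fn (r 0) d) (M.fn (r (i + 2)) d) (M.fn (r 1) d) d
  | 0 => ⟨fun _ i hi => absurd hi (Nat.not_lt_zero i), fun _ => rfl⟩
  | l + 1 => by
    have h1 : M.F ((bxs (l + 1)).ms r t) d ↔ M.F ((bxs l).ms r t) d ∧
        M.F ((insT (.mv 0) (.mv (l + 2)) (.mv 1) : Fm ℕ).ms r t) d := Iff.rfl
    rw [h1, Kr.F_bxs r t d l, trl_ms_insT, Kr.F_insT]
    constructor
    · rintro ⟨h2, h3⟩ i hi
      rcases Nat.lt_succ_iff_lt_or_eq.1 hi with hi | rfl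
      · exact h2 i hi
      · exact h3
    · intro h2
      exact ⟨fun i hi => h2 i (Nat.lt_succ_of_lt hi), h2 l (Nat.lt_succ_self l)⟩

theorem Kr.icm_bxs (ρ τ ρ' τ' : ℕ → M.D w) : ∀ l : ℕ, (∀ i < l + 2, ρ i = ρ' i) →
    M.icm ρ τ (bxs l) = M.icm ρ' τ' (bxs l)
  | 0, _ => rfl
  | l + 1, h => by
    have h1 := Kr.icm_bxs ρ τ ρ' τ' l (fun i hi => h i (by omega))
    have h2 : M.icm ρ τ (insT (.mv 0) (.mv (l + 2)) (.mv 1)) =
        M.icm ρ' τ' (insT (.mv 0) (.mv (l + 2)) (.mv 1)) := by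
      simp only [insT, Kr.icm, Kr.icf, Kr.trl_icf_insF ρ, Kr.trl_icf_insF ρ',
        h 0 (by omega), h 1 (by omega), h (l + 2) (by omega)]
    show M.nd 2 _ _ = M.nd 2 _ _
    rw [h1, h2]

/-- The metavariables of the side formula among the constants `n, a, b, c, f, g, F_i`. -/
def trlR (j : ℕ) : ℕ → Fn ℕ
  | 0 => .mv 0
  | 1 => .mv j
  | i + 2 => .mv (i + 6)

/-- The side formula of the `j`-th constant. -/
def trlB (l j : ℕ) : Fm ℕ := disj ((bxs l).ms (trlR j) (fun _ => .mv 0)) (.mv 0)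

/-- The constants. -/
def Kr.trlC (M : Kr V) {w : M.W} (e a b c f g : M.D w) : M.D w :=
  M.pr (M.fn left e) (M.pr a (M.pr b (M.pr c (M.pr f (M.pr g (M.fn right (M.fn right e)))))))

/-- The values of the metavariables. -/
def Kr.trlV (M : Kr V) {w : M.W} (l : ℕ) (e a b c f g : M.D w) (i : ℕ) : M.D w :=
  if i < l + 6 then M.num (M.fn (prj i) (M.trlC e a b c f g)) else if i = l + 6 then f else g

theorem Kr.gf_trlV {l : ℕ} {e a b c f g : M.D w} (hf : M.gf f) (hg : M.gf g) (i : ℕ) :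
    M.gf (M.trlV l e a b c f g i) := by
  unfold Kr.trlV
  split_ifs
  · exact M.gf_num _
  · exact hf
  · exact hg

theorem Kr.fn_BFl {l : ℕ} (e x : M.D w) : M.fn (BFl l) (M.pr e x) =
    M.nd 3 (M.icm (fun i => M.fn (bxR i) (M.pr e x)) (fun _ => M.fn (comp left right) e) (bxs l))
      (M.fn (comp left right) e) := by
  rw [BFl, Kr.fn_cdm]
  simp only [M.fn_comp, M.left_pr]
  rfl

theorem Kr.fn_BFl_icm {l : ℕ} {e a b c f g x : M.D w} {j : ℕ} (hj : j < 6)
    (hx : M.fn (prj j) (M.trlC e a b c f g) = x) : M.fn (BFl l) (M.pr e x) =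
    M.icm (M.trlV l e a b c f g) (fun _ => M.fn (comp left right) e) (trlB l j) := by
  rw [Kr.fn_BFl]
  show _ = M.nd 3 (M.icm (M.trlV l e a b c f g) (fun _ => M.fn (comp left right) e)
    ((bxs l).ms (trlR j) (fun _ => .mv 0))) (M.fn (comp left right) e)
  rw [Kr.icm_ms]
  congr 1
  refine Kr.icm_bxs _ _ _ _ l fun i hi => ?_
  match i, hi with
  | 0, _ =>
    show M.fn (bxR 0) (M.pr e x) = M.trlV l e a b c f g 0
    rw [Kr.trlV, if_pos (by omega)]
    simp [bxR, prj, Kr.trlC]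
  | 1, _ =>
    show M.fn (bxR 1) (M.pr e x) = M.trlV l e a b c f g j
    rw [Kr.trlV, if_pos (by omega), hx]
    simp [bxR]
  | i + 2, hi =>
    show M.fn (bxR (i + 2)) (M.pr e x) = M.trlV l e a b c f g (i + 6)
    rw [Kr.trlV, if_pos (by omega)]
    simp [bxR, prj, Kr.trlC]

/-- The facts about the constants in a model of the metavariables. -/
structure TrlX (l : ℕ) (θs : List (Fm Empty)) (N : Kr ℕ) {u : N.W} (x : N.D u) : Prop where
  hc : ∀ i < l + 6, ∀ (v : N.W) (h : u ≤ v) (d : N.D v), N.fn (.mv i) d = N.fn (prj i) (N.tr h x)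
  ht : ∀ θ ∈ θs, N.F θ.li x
  hi : ∀ (v : N.W) (_ : u ≤ v) (d : N.D v), N.F (.mv 0) d → ∀ (v' : N.W) (_ : v ≤ v')
    (d' : N.D v'), N.F (.mv 0) d'
  hf : ∀ (v : N.W) (h : u ≤ v) (d : N.D v),
    N.Ev (N.fn (prj 4) (N.tr h x)) (N.pr d (N.fn (.mv (l + 6)) d))
  hg : ∀ (v : N.W) (h : u ≤ v) (d : N.D v),
    N.Ev (N.fn (prj 5) (N.tr h x)) (N.pr d (N.fn (.mv (l + 7)) d))

theorem TrlX.mono {l : ℕ} {θs : List (Fm Empty)} {N : Kr ℕ} {u v : N.W} (k : u ≤ v) {x : N.D u}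
    (h : TrlX l θs N x) : TrlX l θs N (N.tr k x) where
  hc := fun i hi v' h' d => by rw [N.tr_tr]; exact h.hc i hi v' _ d
  ht := fun θ hθ => N.mono _ k _ (h.ht θ hθ)
  hi := fun v' h' d => h.hi v' (k.trans h') d
  hf := fun v' h' d => by rw [N.tr_tr]; exact h.hf v' _ d
  hg := fun v' h' d => by rw [N.tr_tr]; exact h.hg v' _ d

theorem TrlX.F_B {l : ℕ} {θs : List (Fm Empty)} {N : Kr ℕ} {u : N.W} {x : N.D u}
    (h : TrlX l θs N x) {j : ℕ} (hj : j < 6) (d : N.D u) : N.F (trlB l j) d ↔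
    (∀ i < l, N.Ins (N.fn (prj 0) x) (N.fn (prj (i + 6)) x) (N.fn (prj j) x) d) ∨
      N.F (.mv 0) d := by
  have h1 : N.F (trlB l j) d ↔ N.F ((bxs l).ms (trlR j) (fun _ => .mv 0)) d ∨
      N.F (.mv 0) d := Iff.rfl
  have e0 : ∀ i < l + 6, N.fn (.mv i) d = N.fn (prj i) x := fun i hi => by
    have := h.hc i hi u (le_refl u) d
    rwa [N.tr_refl] at this
  rw [h1, Kr.F_bxs]
  have e1 : N.fn (trlR j 0) d = N.fn (prj 0) x := e0 0 (by omega)
  have e2 : N.fn (trlR j 1) d = N.fn (prj j) x := e0 j (by omega)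
  rw [e1, e2]
  constructor
  · rintro (h2 | h2)
    · left
      intro i hi
      have := h2 i hi
      rwa [show N.fn (trlR j (i + 2)) d = N.fn (prj (i + 6)) x from e0 (i + 6) (by omega)] at this
    · exact Or.inr h2
  · rintro (h2 | h2)
    · left
      intro i hi
      rw [show N.fn (trlR j (i + 2)) d = N.fn (prj (i + 6)) x from e0 (i + 6) (by omega)]
      exact h2 i hi
    · exact Or.inr h2

/-- The rule for the side formulas. -/
theorem Kr.trl_rule {l : ℕ} {e a b c f g : M.D w} (he : M.Va l e) (hf : M.gf f) (hg : M.gf g)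
    (θs : List (Fm Empty)) (φ : Fm ℕ) (hp : ∀ θ ∈ θs, θ.Pos)
    (hθ : ∀ θ ∈ θs, M.F θ.li (M.trlC e a b c f g)) (h4 : M.fn (prj 4) (M.trlC e a b c f g) = f)
    (h5 : M.fn (prj 5) (M.trlC e a b c f g) = g)
    (H : ∀ (N : Kr ℕ) (u : N.W) (x : N.D u), TrlX l θs N x → ∀ d : N.D u, N.F φ d) :
    M.Pv (M.icm (M.trlV l e a b c f g) (fun _ => M.fn (comp left right) e) φ) := by
  have hV4 : M.trlV l e a b c f g 4 = M.num f := by
    rw [Kr.trlV, if_pos (by omega), h4]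
  have hV5 : M.trlV l e a b c f g 5 = M.num g := by
    rw [Kr.trlV, if_pos (by omega), h5]
  have hV6 : M.trlV l e a b c f g (l + 6) = f := by
    rw [Kr.trlV, if_neg (by omega), if_pos rfl]
  have hV7 : M.trlV l e a b c f g (l + 7) = g := by
    rw [Kr.trlV, if_neg (by omega), if_neg (by omega)]
  refine Kr.ruleC (l + 6) θs [imp (.mv 0) (all (sub (.mv 0) right)),
    sub (evT (.mv 4)) (pair idn (.mv (l + 6))), sub (evT (.mv 5)) (pair idn (.mv (l + 7)))]
    φ hp ?_ (Kr.gf_trlV hf hg) (fun _ => he.gR) (M.trlC e a b c f g) ?_ hθ ?_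
  · intro N u x k1 k2 k3 d
    refine H N u x ⟨k1, k2, ?_, ?_, ?_⟩ d
    · intro v h d h1 v' h' d'
      have h2 := k3 (imp (.mv 0) (all (sub (.mv 0) right))) (by simp) v h d v (le_refl v)
      rw [N.tr_refl] at h2
      have h3 : N.F (sub (.mv 0) right) (N.pr (N.tr h' d) d') := h2 h1 v' h' d'
      have h3 : N.F (.mv 0) (N.fn right (N.pr (N.tr h' d) d')) := h3
      rwa [N.right_pr] at h3
    · intro v h d
      have h2 := k3 (sub (evT (.mv 4)) (pair idn (.mv (l + 6)))) (by simp) v h d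
      have h2 : N.F (evT (.mv 4)) (N.fn (pair idn (.mv (l + 6))) d) := h2
      rwa [Kr.F_evT, N.fn_pair, N.fn_idn, k1 4 (by omega) v h] at h2
    · intro v h d
      have h2 := k3 (sub (evT (.mv 5)) (pair idn (.mv (l + 7)))) (by simp) v h d
      have h2 : N.F (evT (.mv 5)) (N.fn (pair idn (.mv (l + 7))) d) := h2
      rwa [Kr.F_evT, N.fn_pair, N.fn_idn, k1 5 (by omega) v h] at h2
  · intro i hi
    rw [Kr.trlV, if_pos hi]
  · intro ψ hψ
    simp only [List.mem_cons, List.not_mem_nil, or_false] at hψ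
    rcases hψ with rfl | rfl | rfl
    · exact he.iR
    · have h1 := Kr.Pv_evC hf
      have h2 := Kr.icm_ms (M.trlV l e a b c f g) (fun _ => M.fn (comp left right) e)
        (as4 (.mv (l + 6)) (.mv 4) (.mv (l + 6)) (.mv (l + 6))) (fun _ => eq zero zero)
        (sub (evT (.mv 1)) (pair idn (.mv 0)) : Fm ℕ)
      rw [as4_map (M.icf (M.trlV l e a b c f g))] at h2
      have e4 : M.icf (M.trlV l e a b c f g) (.mv 4) = M.num f := hV4
      have e6 : M.icf (M.trlV l e a b c f g) (.mv (l + 6)) = f := hV6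
      rw [e4, e6] at h2
      exact h2 ▸ h1
    · have h1 := Kr.Pv_evC hg
      have h2 := Kr.icm_ms (M.trlV l e a b c f g) (fun _ => M.fn (comp left right) e)
        (as4 (.mv (l + 7)) (.mv 5) (.mv (l + 7)) (.mv (l + 7))) (fun _ => eq zero zero)
        (sub (evT (.mv 1)) (pair idn (.mv 0)) : Fm ℕ)
      rw [as4_map (M.icf (M.trlV l e a b c f g))] at h2
      have e4 : M.icf (M.trlV l e a b c f g) (.mv 5) = M.num g := hV5
      have e6 : M.icf (M.trlV l e a b c f g) (.mv (l + 7)) = g := hV7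
      rw [e4, e6] at h2
      exact h2 ▸ h1

/-! ### The single properties -/

theorem Kr.gf_bxR (e x : M.D w) (i : ℕ) : M.gf (M.fn (bxR i) (M.pr e x)) := by
  match i with
  | 0 => simp [bxR]
  | 1 => simp [bxR]
  | i + 2 => simp [bxR]

theorem Kr.gm_BFl {l : ℕ} {e : M.D w} (he : M.Va l e) (a : M.D w) :
    M.gm (M.fn (BFl l) (M.pr e a)) := by
  rw [Kr.fn_BFl]
  exact Kr.gm_dj.2 ⟨Kr.gm_icm (Kr.gf_bxR e a) (fun _ => he.gR) _, he.gR⟩

theorem Kr.F_smT {e a : M.D w} : M.F smT (M.pr e a) ↔ M.le (M.S a) (M.fn left e) := by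
  rw [smT, Kr.F_leT]
  simp

section
variable {l : ℕ} {e : M.D w}

theorem Kr.trl_eq (f g : M.D w) : M.fn (trl l) (M.pr e (M.eqc f g)) =
    M.dj (M.eqc f g) (M.fn (comp left right) e) := by
  rw [trl, Kr.trG_eq]; simp

theorem Kr.trl_bt : M.fn (trl l) (M.pr e M.btc) = M.fn (comp left right) e := by
  rw [trl, Kr.trG_bt]

theorem Kr.trl_cj (a b : M.D w) : M.fn (trl l) (M.pr e (M.cj a b)) =
    M.cj (M.fn (trl l) (M.pr e a)) (M.fn (trl l) (M.pr e b)) := by
  rw [trl, Kr.trG_cj]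

theorem Kr.trl_dj (a b : M.D w) : M.fn (trl l) (M.pr e (M.dj a b)) =
    M.dj (M.fn (trl l) (M.pr e a)) (M.fn (trl l) (M.pr e b)) := by
  rw [trl, Kr.trG_dj]

theorem Kr.trl_ex (a : M.D w) : M.fn (trl l) (M.pr e (M.exc a)) =
    M.exc (M.fn (trl l) (M.pr e a)) := by
  rw [trl, Kr.trG_ex]

theorem Kr.trl_sb (a f : M.D w) : M.fn (trl l) (M.pr e (M.sbc a f)) =
    M.sbc (M.fn (trl l) (M.pr e a)) f := by
  rw [trl, Kr.trG_sb]

theorem Kr.trl_im (a b : M.D w) : M.fn (trl l) (M.pr e (M.im a b)) =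
    M.cj (M.im (M.fn (trl l) (M.pr e a)) (M.fn (trl l) (M.pr e b)))
      (M.fn (BFl l) (M.pr e (M.im a b))) := by
  rw [trl, Kr.trG_im]; simp

theorem Kr.trl_al (a : M.D w) : M.fn (trl l) (M.pr e (M.alc a)) =
    M.cj (M.alc (M.fn (trl l) (M.pr e a))) (M.fn (BFl l) (M.pr e (M.alc a))) := by
  rw [trl, Kr.trG_al]; simp

theorem Kr.gm_trl (he : M.Va l e) {a : M.D w} (ha : M.gm a) :
    M.gm (M.fn (trl l) (M.pr e a)) := by
  refine Kr.gm_trG ?_ ?_ he.gR ha
  · intro v h f g hf hg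
    have := (Kr.Va_mono h he).gR
    simp only [M.fn_comp] at this
    simp [hf, hg, this]
  · intro v h a b _ _
    have := Kr.gm_BFl (Kr.Va_mono h he) a
    simpa using this

theorem Kr.trl_Rs1 (he : M.Va l e) {f : M.D w} (hf : M.gf f) :
    M.Pv (M.im (M.sbc (M.fn (comp left right) e) f) (M.fn (comp left right) e)) :=
  Kr.q1 (A := imp (.mv 0) (all (sub (.mv 0) right))) (φ := imp (sub (.mv 0) (.mv 0)) (.mv 0))
    (ρ := fun _ => f) (τ := fun _ => M.fn (comp left right) e) (fun _ => hf) (fun _ => he.gR)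
    he.iR (fun N u hN d v h h1 => by
      have h1 : N.F (.mv 0) (N.fn (.mv 0) (N.tr h d)) := h1
      have h2 := hN v h (N.fn (.mv 0) (N.tr h d)) v (le_refl v)
      rw [N.tr_refl] at h2
      have h3 := h2 h1 v (le_refl v) (N.tr h d)
      have h3 : N.F (.mv 0) (N.fn right (N.pr _ (N.tr h d))) := h3
      rwa [N.right_pr] at h3)

theorem Kr.trl_Rs2 (he : M.Va l e) {f : M.D w} (hf : M.gf f) :
    M.Pv (M.im (M.fn (comp left right) e) (M.sbc (M.fn (comp left right) e) f)) :=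
  Kr.q1 (A := imp (.mv 0) (all (sub (.mv 0) right))) (φ := imp (.mv 0) (sub (.mv 0) (.mv 0)))
    (ρ := fun _ => f) (τ := fun _ => M.fn (comp left right) e) (fun _ => hf) (fun _ => he.gR)
    he.iR (fun N u hN d v h h1 => by
      have h2 := hN v h (N.tr h d) v (le_refl v)
      rw [N.tr_refl] at h2
      have h3 := h2 h1 v (le_refl v) (N.fn (.mv 0) (N.tr h d))
      have h3 : N.F (.mv 0) (N.fn right (N.pr _ (N.fn (.mv 0) (N.tr h d)))) := h3
      rwa [N.right_pr] at h3)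

/-- The bound fact. -/
def trlT : Fm Empty := leT (comp succ (prj 3)) (prj 0)

theorem trlT_li : (trlT.li : Fm V) = leT (comp succ (prj 3)) (prj 0) := by
  simp [trlT]

theorem Kr.F_trlT {e a b c f g : M.D w} : M.F trlT.li (M.trlC e a b c f g) ↔
    M.le (M.S c) (M.fn left e) := by
  rw [trlT_li, Kr.F_leT]
  simp [prj, Kr.trlC]

theorem Kr.F_trlT' {x : M.D w} : M.F trlT.li x ↔
    M.le (M.S (M.fn (prj 3) x)) (M.fn (prj 0) x) := by
  rw [trlT_li, Kr.F_leT, M.fn_comp]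

theorem Kr.trl_mp (he : M.Va l e) {a b : M.D w} (hs : M.le (M.S (M.im a b)) (M.fn left e)) :
    M.Pv (M.im (M.fn (BFl l) (M.pr e (M.im a b)))
      (M.im (M.fn (BFl l) (M.pr e a)) (M.fn (BFl l) (M.pr e b)))) := by
  rw [Kr.fn_BFl_icm (a := a) (b := b) (c := M.im a b) (f := M.nd 0 M.zr M.zr)
      (g := M.nd 0 M.zr M.zr) (j := 3) (x := M.im a b) (by norm_num) (by simp [prj, Kr.trlC]),
    Kr.fn_BFl_icm (a := a) (b := b) (c := M.im a b) (f := M.nd 0 M.zr M.zr)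
      (g := M.nd 0 M.zr M.zr) (j := 1) (x := a) (by norm_num) (by simp [prj, Kr.trlC]),
    Kr.fn_BFl_icm (a := a) (b := b) (c := M.im a b) (f := M.nd 0 M.zr M.zr)
      (g := M.nd 0 M.zr M.zr) (j := 2) (x := b) (by norm_num) (by simp [prj, Kr.trlC])]
  refine Kr.trl_rule he Kr.gf_nd0 Kr.gf_nd0 [trlT, eq (prj 3) (ndF 4 (prj 1) (prj 2))]
    (imp (trlB l 3) (imp (trlB l 1) (trlB l 2))) ?_ ?_ (by simp [prj, Kr.trlC])
    (by simp [prj, Kr.trlC]) ?_
  · intro θ hθ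
    simp only [List.mem_cons, List.not_mem_nil, or_false] at hθ
    rcases hθ with rfl | rfl
    · exact trivial
    · exact trivial
  · intro θ hθ
    simp only [List.mem_cons, List.not_mem_nil, or_false] at hθ
    rcases hθ with rfl | rfl
    · exact Kr.F_trlT.2 hs
    · simp [KD.F, prj, Kr.trlC]
  · intro N u x hx d v h h3 v' h' h1
    have X := TrlX.mono h' (TrlX.mono h hx)
    have h3 := N.mono _ h' _ h3
    rw [X.F_B (by norm_num)] at h1 h3 ⊢
    have k1 := Kr.F_trlT'.1 (X.ht trlT (by simp))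
    have k2 := X.ht (eq (prj 3) (ndF 4 (prj 1) (prj 2))) (by simp)
    have k2 : N.fn (prj 3) (N.tr h' (N.tr h x)) = N.nd 4 (N.fn (prj 1) (N.tr h' (N.tr h x)))
        (N.fn (prj 2) (N.tr h' (N.tr h x))) := by
      simpa [KD.F] using k2
    rw [k2] at h3 k1
    rcases h3 with h3 | h3
    · rcases h1 with h1 | h1
      · left
        intro i hi
        exact Kr.Ins_mp (Kr.le_trans' (Kr.S_le_S.2 (Kr.le_nd2 _ _ _)) k1) (h3 i hi) (h1 i hi)
      · exact Or.inr h1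
    · exact Or.inr h3

theorem Kr.trl_Bcj (he : M.Va l e) {a b : M.D w} (hs : M.le (M.S (M.cj a b)) (M.fn left e)) :
    M.Pv (M.im (M.fn (BFl l) (M.pr e a)) (M.im (M.fn (BFl l) (M.pr e b))
      (M.fn (BFl l) (M.pr e (M.cj a b))))) := by
  rw [Kr.fn_BFl_icm (a := a) (b := b) (c := M.cj a b) (f := M.nd 0 M.zr M.zr)
      (g := M.nd 0 M.zr M.zr) (j := 3) (x := M.cj a b) (by norm_num) (by simp [prj, Kr.trlC]),
    Kr.fn_BFl_icm (a := a) (b := b) (c := M.cj a b) (f := M.nd 0 M.zr M.zr)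
      (g := M.nd 0 M.zr M.zr) (j := 1) (x := a) (by norm_num) (by simp [prj, Kr.trlC]),
    Kr.fn_BFl_icm (a := a) (b := b) (c := M.cj a b) (f := M.nd 0 M.zr M.zr)
      (g := M.nd 0 M.zr M.zr) (j := 2) (x := b) (by norm_num) (by simp [prj, Kr.trlC])]
  refine Kr.trl_rule he Kr.gf_nd0 Kr.gf_nd0 [trlT, eq (prj 3) (ndF 2 (prj 1) (prj 2))]
    (imp (trlB l 1) (imp (trlB l 2) (trlB l 3))) ?_ ?_ (by simp [prj, Kr.trlC])
    (by simp [prj, Kr.trlC]) ?_
  · intro θ hθ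
    simp only [List.mem_cons, List.not_mem_nil, or_false] at hθ
    rcases hθ with rfl | rfl
    · exact trivial
    · exact trivial
  · intro θ hθ
    simp only [List.mem_cons, List.not_mem_nil, or_false] at hθ
    rcases hθ with rfl | rfl
    · exact Kr.F_trlT.2 hs
    · simp [KD.F, prj, Kr.trlC]
  · intro N u x hx d v h h3 v' h' h1
    have X := TrlX.mono h' (TrlX.mono h hx)
    have h3 := N.mono _ h' _ h3
    rw [X.F_B (by norm_num)] at h1 h3 ⊢
    have k1 := Kr.F_trlT'.1 (X.ht trlT (by simp))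
    have k2 := X.ht (eq (prj 3) (ndF 2 (prj 1) (prj 2))) (by simp)
    have k2 : N.fn (prj 3) (N.tr h' (N.tr h x)) = N.nd 2 (N.fn (prj 1) (N.tr h' (N.tr h x)))
        (N.fn (prj 2) (N.tr h' (N.tr h x))) := by
      simpa [KD.F] using k2
    rw [k2] at k1 ⊢
    rcases h3 with h3 | h3
    · rcases h1 with h1 | h1
      · left
        intro i hi
        exact Kr.Ins_cj k1 (h3 i hi) (h1 i hi)
      · exact Or.inr h1
    · exact Or.inr h3

theorem Kr.trl_Bdj1 (he : M.Va l e) {a b : M.D w} (hb : M.gm b)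
    (hs : M.le (M.S (M.dj a b)) (M.fn left e)) :
    M.Pv (M.im (M.fn (BFl l) (M.pr e a)) (M.fn (BFl l) (M.pr e (M.dj a b)))) := by
  rw [Kr.fn_BFl_icm (a := a) (b := b) (c := M.dj a b) (f := M.nd 0 M.zr M.zr)
      (g := M.nd 0 M.zr M.zr) (j := 3) (x := M.dj a b) (by norm_num) (by simp [prj, Kr.trlC]),
    Kr.fn_BFl_icm (a := a) (b := b) (c := M.dj a b) (f := M.nd 0 M.zr M.zr)
      (g := M.nd 0 M.zr M.zr) (j := 1) (x := a) (by norm_num) (by simp [prj, Kr.trlC])]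
  refine Kr.trl_rule he Kr.gf_nd0 Kr.gf_nd0 [trlT, eq (prj 3) (ndF 3 (prj 1) (prj 2)),
    eq (comp nfmF (prj 2)) (prj 2)]
    (imp (trlB l 1) (trlB l 3)) ?_ ?_ (by simp [prj, Kr.trlC])
    (by simp [prj, Kr.trlC]) ?_
  · intro θ hθ
    simp only [List.mem_cons, List.not_mem_nil, or_false] at hθ
    rcases hθ with rfl | rfl | rfl <;> exact trivial
  · intro θ hθ
    simp only [List.mem_cons, List.not_mem_nil, or_false] at hθ
    rcases hθ with rfl | rfl | rfl
    · exact Kr.F_trlT.2 hs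
    · simp [KD.F, prj, Kr.trlC]
    · have hb : M.nfm b = b := hb
      simp [KD.F, prj, Kr.trlC, hb]
  · intro N u x hx d v h h1
    have X := TrlX.mono h hx
    rw [X.F_B (by norm_num)] at h1 ⊢
    have k1 := Kr.F_trlT'.1 (X.ht trlT (by simp))
    have k2 := X.ht (eq (prj 3) (ndF 3 (prj 1) (prj 2))) (by simp)
    have k2 : N.fn (prj 3) (N.tr h x) = N.nd 3 (N.fn (prj 1) (N.tr h x))
        (N.fn (prj 2) (N.tr h x)) := by
      simpa [KD.F] using k2
    have k3 := X.ht (eq (comp nfmF (prj 2)) (prj 2)) (by simp)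
    have k3 : N.gm (N.fn (prj 2) (N.tr h x)) := by
      simpa [KD.F, Kr.gm] using k3
    rw [k2] at k1 ⊢
    rcases h1 with h1 | h1
    · left
      intro i hi
      exact Kr.Ins_dj1 k1 k3 (h1 i hi)
    · exact Or.inr h1

theorem Kr.trl_Bdj2 (he : M.Va l e) {a b : M.D w} (ha : M.gm a)
    (hs : M.le (M.S (M.dj a b)) (M.fn left e)) :
    M.Pv (M.im (M.fn (BFl l) (M.pr e b)) (M.fn (BFl l) (M.pr e (M.dj a b)))) := by
  rw [Kr.fn_BFl_icm (a := a) (b := b) (c := M.dj a b) (f := M.nd 0 M.zr M.zr)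
      (g := M.nd 0 M.zr M.zr) (j := 3) (x := M.dj a b) (by norm_num) (by simp [prj, Kr.trlC]),
    Kr.fn_BFl_icm (a := a) (b := b) (c := M.dj a b) (f := M.nd 0 M.zr M.zr)
      (g := M.nd 0 M.zr M.zr) (j := 2) (x := b) (by norm_num) (by simp [prj, Kr.trlC])]
  refine Kr.trl_rule he Kr.gf_nd0 Kr.gf_nd0 [trlT, eq (prj 3) (ndF 3 (prj 1) (prj 2)),
    eq (comp nfmF (prj 1)) (prj 1)]
    (imp (trlB l 2) (trlB l 3)) ?_ ?_ (by simp [prj, Kr.trlC])
    (by simp [prj, Kr.trlC]) ?_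
  · intro θ hθ
    simp only [List.mem_cons, List.not_mem_nil, or_false] at hθ
    rcases hθ with rfl | rfl | rfl <;> exact trivial
  · intro θ hθ
    simp only [List.mem_cons, List.not_mem_nil, or_false] at hθ
    rcases hθ with rfl | rfl | rfl
    · exact Kr.F_trlT.2 hs
    · simp [KD.F, prj, Kr.trlC]
    · have ha : M.nfm a = a := ha
      simp [KD.F, prj, Kr.trlC, ha]
  · intro N u x hx d v h h1
    have X := TrlX.mono h hx
    rw [X.F_B (by norm_num)] at h1 ⊢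
    have k1 := Kr.F_trlT'.1 (X.ht trlT (by simp))
    have k2 := X.ht (eq (prj 3) (ndF 3 (prj 1) (prj 2))) (by simp)
    have k2 : N.fn (prj 3) (N.tr h x) = N.nd 3 (N.fn (prj 1) (N.tr h x))
        (N.fn (prj 2) (N.tr h x)) := by
      simpa [KD.F] using k2
    have k3 := X.ht (eq (comp nfmF (prj 1)) (prj 1)) (by simp)
    have k3 : N.gm (N.fn (prj 1) (N.tr h x)) := by
      simpa [KD.F, Kr.gm] using k3
    rw [k2] at k1 ⊢
    rcases h1 with h1 | h1
    · left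
      intro i hi
      exact Kr.Ins_dj2 k1 k3 (h1 i hi)
    · exact Or.inr h1

theorem Kr.trl_Bex (he : M.Va l e) {a : M.D w} (hs : M.le (M.S (M.exc a)) (M.fn left e)) :
    M.Pv (M.im (M.fn (BFl l) (M.pr e a)) (M.sbc (M.fn (BFl l) (M.pr e (M.exc a))) M.lc)) := by
  rw [Kr.fn_BFl_icm (a := a) (b := a) (c := M.exc a) (f := M.nd 0 M.zr M.zr)
      (g := M.nd 0 M.zr M.zr) (j := 3) (x := M.exc a) (by norm_num) (by simp [prj, Kr.trlC]),
    Kr.fn_BFl_icm (a := a) (b := a) (c := M.exc a) (f := M.nd 0 M.zr M.zr)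
      (g := M.nd 0 M.zr M.zr) (j := 1) (x := a) (by norm_num) (by simp [prj, Kr.trlC])]
  refine Kr.trl_rule he Kr.gf_nd0 Kr.gf_nd0 [trlT, eq (prj 3) (ndF 5 (prj 1) zero)]
    (imp (trlB l 1) (sub (trlB l 3) left)) ?_ ?_ (by simp [prj, Kr.trlC])
    (by simp [prj, Kr.trlC]) ?_
  · intro θ hθ
    simp only [List.mem_cons, List.not_mem_nil, or_false] at hθ
    rcases hθ with rfl | rfl <;> exact trivial
  · intro θ hθ
    simp only [List.mem_cons, List.not_mem_nil, or_false] at hθ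
    rcases hθ with rfl | rfl
    · exact Kr.F_trlT.2 hs
    · simp [KD.F, prj, Kr.trlC]
  · intro N u x hx d v h h1
    have X := TrlX.mono h hx
    show N.F (trlB l 3) (N.fn left _)
    rw [X.F_B (by norm_num)] at h1 ⊢
    have k1 := Kr.F_trlT'.1 (X.ht trlT (by simp))
    have k2 := X.ht (eq (prj 3) (ndF 5 (prj 1) zero)) (by simp)
    have k2 : N.fn (prj 3) (N.tr h x) = N.nd 5 (N.fn (prj 1) (N.tr h x)) N.zr := by
      simpa [KD.F] using k2
    rw [k2] at k1 ⊢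
    rcases h1 with h1 | h1
    · left
      intro i hi
      have h2 := h1 i hi
      rw [← N.pr_eta (N.tr h d)] at h2
      exact Kr.Ins_ex k1 h2
    · exact Or.inr (X.hi v (le_refl v) _ h1 v (le_refl v) _)

theorem Kr.trl_Bsb1 (he : M.Va l e) {a f : M.D w} (hf : M.gf f)
    (hs : M.le (M.S (M.sbc a f)) (M.fn left e)) :
    M.Pv (M.im (M.sbc (M.fn (BFl l) (M.pr e a)) f) (M.fn (BFl l) (M.pr e (M.sbc a f)))) := by
  rw [Kr.fn_BFl_icm (a := a) (b := a) (c := M.sbc a f) (f := f)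
      (g := M.nd 0 M.zr M.zr) (j := 3) (x := M.sbc a f) (by norm_num) (by simp [prj, Kr.trlC]),
    Kr.fn_BFl_icm (a := a) (b := a) (c := M.sbc a f) (f := f)
      (g := M.nd 0 M.zr M.zr) (j := 1) (x := a) (by norm_num) (by simp [prj, Kr.trlC])]
  have := Kr.trl_rule (f := f) (g := M.nd 0 M.zr M.zr) (a := a) (b := a) (c := M.sbc a f) he hf
    Kr.gf_nd0 [trlT, eq (prj 3) (ndF 7 (prj 1) (prj 4))]
    (imp (sub (trlB l 1) (.mv (l + 6))) (trlB l 3)) ?_ ?_ (by simp [prj, Kr.trlC])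
    (by simp [prj, Kr.trlC]) ?_
  · have e6 : M.trlV l e a a (M.sbc a f) f (M.nd 0 M.zr M.zr) (l + 6) = f := by
      rw [Kr.trlV, if_neg (by omega), if_pos rfl]
    have e7 : M.icm (M.trlV l e a a (M.sbc a f) f (M.nd 0 M.zr M.zr))
        (fun _ => M.fn (comp left right) e) (imp (sub (trlB l 1) (.mv (l + 6))) (trlB l 3)) =
      M.im (M.sbc (M.icm (M.trlV l e a a (M.sbc a f) f (M.nd 0 M.zr M.zr))
        (fun _ => M.fn (comp left right) e) (trlB l 1))
        (M.trlV l e a a (M.sbc a f) f (M.nd 0 M.zr M.zr) (l + 6)))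
        (M.icm (M.trlV l e a a (M.sbc a f) f (M.nd 0 M.zr M.zr))
        (fun _ => M.fn (comp left right) e) (trlB l 3)) := rfl
    rw [e7, e6] at this
    exact this
  · intro θ hθ
    simp only [List.mem_cons, List.not_mem_nil, or_false] at hθ
    rcases hθ with rfl | rfl <;> exact trivial
  · intro θ hθ
    simp only [List.mem_cons, List.not_mem_nil, or_false] at hθ
    rcases hθ with rfl | rfl
    · exact Kr.F_trlT.2 hs
    · simp [KD.F, prj, Kr.trlC]
  · intro N u x hx d v h h1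
    have X := TrlX.mono h hx
    have h1 : N.F (trlB l 1) (N.fn (.mv (l + 6)) (N.tr h d)) := h1
    rw [X.F_B (by norm_num)] at h1 ⊢
    have k1 := Kr.F_trlT'.1 (X.ht trlT (by simp))
    have k2 := X.ht (eq (prj 3) (ndF 7 (prj 1) (prj 4))) (by simp)
    have k2 : N.fn (prj 3) (N.tr h x) = N.nd 7 (N.fn (prj 1) (N.tr h x))
        (N.fn (prj 4) (N.tr h x)) := by
      simpa [KD.F] using k2
    rw [k2] at k1 ⊢
    have k4 := X.hf v (le_refl v) (N.tr h d)
    rw [N.tr_refl] at k4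
    rcases h1 with h1 | h1
    · left
      intro i hi
      exact Kr.Ins_sbI k1 k4 (h1 i hi)
    · exact Or.inr (X.hi v (le_refl v) _ h1 v (le_refl v) _)

theorem Kr.trl_Bsb2 (he : M.Va l e) {a f : M.D w} (hf : M.gf f)
    (hs : M.le (M.S (M.sbc a f)) (M.fn left e)) :
    M.Pv (M.im (M.fn (BFl l) (M.pr e (M.sbc a f))) (M.sbc (M.fn (BFl l) (M.pr e a)) f)) := by
  rw [Kr.fn_BFl_icm (a := a) (b := a) (c := M.sbc a f) (f := f)
      (g := M.nd 0 M.zr M.zr) (j := 3) (x := M.sbc a f) (by norm_num) (by simp [prj, Kr.trlC]),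
    Kr.fn_BFl_icm (a := a) (b := a) (c := M.sbc a f) (f := f)
      (g := M.nd 0 M.zr M.zr) (j := 1) (x := a) (by norm_num) (by simp [prj, Kr.trlC])]
  have := Kr.trl_rule (f := f) (g := M.nd 0 M.zr M.zr) (a := a) (b := a) (c := M.sbc a f) he hf
    Kr.gf_nd0 [trlT, eq (prj 3) (ndF 7 (prj 1) (prj 4))]
    (imp (trlB l 3) (sub (trlB l 1) (.mv (l + 6)))) ?_ ?_ (by simp [prj, Kr.trlC])
    (by simp [prj, Kr.trlC]) ?_
  · have e6 : M.trlV l e a a (M.sbc a f) f (M.nd 0 M.zr M.zr) (l + 6) = f := by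
      rw [Kr.trlV, if_neg (by omega), if_pos rfl]
    have e7 : M.icm (M.trlV l e a a (M.sbc a f) f (M.nd 0 M.zr M.zr))
        (fun _ => M.fn (comp left right) e) (imp (trlB l 3) (sub (trlB l 1) (.mv (l + 6)))) =
      M.im (M.icm (M.trlV l e a a (M.sbc a f) f (M.nd 0 M.zr M.zr))
        (fun _ => M.fn (comp left right) e) (trlB l 3))
        (M.sbc (M.icm (M.trlV l e a a (M.sbc a f) f (M.nd 0 M.zr M.zr))
        (fun _ => M.fn (comp left right) e) (trlB l 1))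
        (M.trlV l e a a (M.sbc a f) f (M.nd 0 M.zr M.zr) (l + 6))) := rfl
    rw [e7, e6] at this
    exact this
  · intro θ hθ
    simp only [List.mem_cons, List.not_mem_nil, or_false] at hθ
    rcases hθ with rfl | rfl <;> exact trivial
  · intro θ hθ
    simp only [List.mem_cons, List.not_mem_nil, or_false] at hθ
    rcases hθ with rfl | rfl
    · exact Kr.F_trlT.2 hs
    · simp [KD.F, prj, Kr.trlC]
  · intro N u x hx d v h h1
    have X := TrlX.mono h hx
    show N.F (trlB l 1) (N.fn (.mv (l + 6)) (N.tr h d))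
    rw [X.F_B (by norm_num)] at h1 ⊢
    have k1 := Kr.F_trlT'.1 (X.ht trlT (by simp))
    have k2 := X.ht (eq (prj 3) (ndF 7 (prj 1) (prj 4))) (by simp)
    have k2 : N.fn (prj 3) (N.tr h x) = N.nd 7 (N.fn (prj 1) (N.tr h x))
        (N.fn (prj 4) (N.tr h x)) := by
      simpa [KD.F] using k2
    rw [k2] at k1 h1
    have k4 := X.hf v (le_refl v) (N.tr h d)
    rw [N.tr_refl] at k4
    rcases h1 with h1 | h1
    · left
      intro i hi
      exact Kr.Ins_sbE (Kr.le_trans' (Kr.S_le_S.2 (Kr.le_nd1 _ _ _)) k1) k4 (h1 i hi)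
    · exact Or.inr (X.hi v (le_refl v) _ h1 v (le_refl v) _)

theorem Kr.trl_Beq (he : M.Va l e) {f g : M.D w} (hf : M.gf f) (hg : M.gf g)
    (hs : M.le (M.S (M.eqc f g)) (M.fn left e)) :
    M.Pv (M.im (M.eqc f g) (M.fn (BFl l) (M.pr e (M.eqc f g)))) := by
  rw [Kr.fn_BFl_icm (a := f) (b := g) (c := M.eqc f g) (f := f)
      (g := g) (j := 3) (x := M.eqc f g) (by norm_num) (by simp [prj, Kr.trlC])]
  have := Kr.trl_rule (f := f) (g := g) (a := f) (b := g) (c := M.eqc f g) he hf hg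
    [trlT, eq (prj 3) (ndF 0 (prj 4) (prj 5))]
    (imp (eq (.mv (l + 6)) (.mv (l + 7))) (trlB l 3)) ?_ ?_ (by simp [prj, Kr.trlC])
    (by simp [prj, Kr.trlC]) ?_
  · have e6 : M.trlV l e f g (M.eqc f g) f g (l + 6) = f := by
      rw [Kr.trlV, if_neg (by omega), if_pos rfl]
    have e6' : M.trlV l e f g (M.eqc f g) f g (l + 7) = g := by
      rw [Kr.trlV, if_neg (by omega), if_neg (by omega)]
    have e7 : M.icm (M.trlV l e f g (M.eqc f g) f g)
        (fun _ => M.fn (comp left right) e)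
        (imp (eq (.mv (l + 6)) (.mv (l + 7))) (trlB l 3)) =
      M.im (M.eqc (M.trlV l e f g (M.eqc f g) f g (l + 6))
        (M.trlV l e f g (M.eqc f g) f g (l + 7)))
        (M.icm (M.trlV l e f g (M.eqc f g) f g)
        (fun _ => M.fn (comp left right) e) (trlB l 3)) := rfl
    rw [e7, e6, e6'] at this
    exact this
  · intro θ hθ
    simp only [List.mem_cons, List.not_mem_nil, or_false] at hθ
    rcases hθ with rfl | rfl <;> exact trivial
  · intro θ hθ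
    simp only [List.mem_cons, List.not_mem_nil, or_false] at hθ
    rcases hθ with rfl | rfl
    · exact Kr.F_trlT.2 hs
    · simp [KD.F, prj, Kr.trlC]
  · intro N u x hx d v h h1
    have X := TrlX.mono h hx
    have h1 : N.fn (.mv (l + 6)) (N.tr h d) = N.fn (.mv (l + 7)) (N.tr h d) := h1
    rw [X.F_B (by norm_num)]
    have k1 := Kr.F_trlT'.1 (X.ht trlT (by simp))
    have k2 := X.ht (eq (prj 3) (ndF 0 (prj 4) (prj 5))) (by simp)
    have k2 : N.fn (prj 3) (N.tr h x) = N.nd 0 (N.fn (prj 4) (N.tr h x))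
        (N.fn (prj 5) (N.tr h x)) := by
      simpa [KD.F] using k2
    rw [k2] at k1 ⊢
    have k4 := X.hf v (le_refl v) (N.tr h d)
    have k5 := X.hg v (le_refl v) (N.tr h d)
    rw [N.tr_refl] at k4 k5
    rw [← h1] at k5
    left
    intro i hi
    exact Kr.Ins_eq k1 k4 k5

end

/-- The translations with instance provability satisfy the hypotheses of the general translation
theorem. -/
theorem Kr.trH_trl {l : ℕ} {e : M.D w} (he : M.Va l e) :
    TrH M (trl l) (BFl l) (comp left right) smT e where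
  gT := fun a ha => Kr.gm_trl he ha
  gB := fun a ha => Kr.gm_BFl he a
  gR := he.gR
  Rs1 := fun f hf => Kr.trl_Rs1 he hf
  Rs2 := fun f hf => Kr.trl_Rs2 he hf
  T_eq1 := by
    intro f g hf hg
    rw [Kr.trl_eq]
    exact Kr.q_id (Kr.gm_dj.2 ⟨Kr.gm_eqc.2 ⟨hf, hg⟩, he.gR⟩)
  T_eq2 := by
    intro f g hf hg
    rw [Kr.trl_eq]
    exact Kr.q_id (Kr.gm_dj.2 ⟨Kr.gm_eqc.2 ⟨hf, hg⟩, he.gR⟩)
  T_bt := Kr.trl_bt
  T_cj := Kr.trl_cj
  T_dj := Kr.trl_dj
  T_ex := Kr.trl_ex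
  T_sb := Kr.trl_sb
  T_im1 := by
    intro a b ha hb
    rw [Kr.trl_im]
    exact Kr.q_id (Kr.gm_cj.2 ⟨Kr.gm_im.2 ⟨Kr.gm_trl he ha, Kr.gm_trl he hb⟩, Kr.gm_BFl he _⟩)
  T_im2 := by
    intro a b ha hb
    rw [Kr.trl_im]
    exact Kr.q_id (Kr.gm_cj.2 ⟨Kr.gm_im.2 ⟨Kr.gm_trl he ha, Kr.gm_trl he hb⟩, Kr.gm_BFl he _⟩)
  T_al1 := by
    intro a ha
    rw [Kr.trl_al]
    exact Kr.q_id (Kr.gm_cj.2 ⟨Kr.gm_alc.2 (Kr.gm_trl he ha), Kr.gm_BFl he _⟩)
  T_al2 := by
    intro a ha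
    rw [Kr.trl_al]
    exact Kr.q_id (Kr.gm_cj.2 ⟨Kr.gm_alc.2 (Kr.gm_trl he ha), Kr.gm_BFl he _⟩)
  sm2 := by
    intro k a b _ _ h
    rw [Kr.F_smT] at h ⊢
    rw [Kr.F_smT]
    exact ⟨Kr.le_trans' (Kr.S_le_S.2 (Kr.le_nd1 k a b)) h,
      Kr.le_trans' (Kr.S_le_S.2 (Kr.le_nd2 k a b)) h⟩
  sm1 := by
    intro k a b _ _ h
    rw [Kr.F_smT] at h ⊢
    exact Kr.le_trans' (Kr.S_le_S.2 (Kr.le_nd1 k a b)) h
  B_mp := fun a b _ _ h => Kr.trl_mp he (Kr.F_smT.1 h)
  B_cj := fun a b _ _ h => Kr.trl_Bcj he (Kr.F_smT.1 h)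
  B_dj1 := fun a b _ hb h => Kr.trl_Bdj1 he hb (Kr.F_smT.1 h)
  B_dj2 := fun a b ha _ h => Kr.trl_Bdj2 he ha (Kr.F_smT.1 h)
  B_ex := fun a _ h => Kr.trl_Bex he (Kr.F_smT.1 h)
  B_sb1 := fun a f _ hf h => Kr.trl_Bsb1 he hf (Kr.F_smT.1 h)
  B_sb2 := fun a f _ hf h => Kr.trl_Bsb2 he hf (Kr.F_smT.1 h)
  B_eq := fun f g hf hg h => Kr.trl_Beq he hf hg (Kr.F_smT.1 h)
  B_R := fun a _ => by
    rw [Kr.fn_BFl]
    exact Kr.q_inr (Kr.gm_icm (Kr.gf_bxR e a) (fun _ => he.gR) _) he.gR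

end HAr
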